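import Pool.Agent.GiantSurf57.StmtsTop

/-!
# How the packages of the project `GiantSurf57` fit together
-/

namespace GiantSurf57

/-- Existence of a core with 4 vertices and 5 edges for the class `Emb g`, etc.: the class
`Emb g` has the closure properties. -/
theorem surfClass_of (hbot : ∀ g, Emb g (⊥ : SimpleGraph ℕ)) (h12 : S_cMono) (h13 : S_cJoin)
    (h14 : S_cTri) (h15 : S_cSub) (h17 : S_cEar) (h18 : S_cSplit) (h19 : S_map) (g : ℕ) :
    SurfClass (Emb g : SimpleGraph ℕ → Prop) where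
  bot := hbot g
  mono := fun G H hf hle hH => h12 g G H hf hle hH
  relabel := fun G e _ hG => h19.1 g G e hG
  join := fun G x y hf hG hr => h13 g G x y hf hG hr
  subdiv := fun G x y v hf hG ha hv => h15 g G x y v hf hG ha hv
  closeTri := fun G v x y hf hG hn hxy => h14 g G v x y hf hG hn hxy
  ear := fun G x y v hf hG hxy hr hv => h17 g G x y v hf hG hxy hr hv
  split := fun G v y hf hG ha hd => h18 g G v y hf hG ha hd

theorem assembly
    (A1 : S_relabel) (A2 : S_inv) (A3 : S_relabel2)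
    (B1 : S_relabel → S_W1) (B2 : S_relabel → S_tri) (B3 : S_relabel → S_W2)
    (B4 : S_relabel → S_inv → S_cyc) (B5 : S_W1 → S_tri → S_cyc → S_cyc2)
    (C1 : S_thr) (C2 : S_thrEx)
    (C3 : S_relabel → S_inv → S_Sa) (C4 : S_relabel → S_inv → S_Sc)
    (C5 : S_relabel → S_inv → S_Sd) (C6 : S_relabel → S_inv → S_Se)
    (C7 : S_W1 → S_tri → S_W2 → S_thr → S_Sa → S_Sc → S_Sf)
    (C8 : S_pairs)
    (C9 : S_W1 → S_tri → S_W2 → S_cyc2 → S_Se → S_Sf → S_pairs → S_W4)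
    (D1 : S_NB) (D2 : S_relabel → S_thr → S_NB → S_T1) (D3 : S_relabel → S_thr → S_thrEx → S_T2)
    (D4 : S_W1 → S_tri → S_W2 → S_thr → S_Sd → S_Sf → S_T1 → S_T2 → S_W3)
    (D5 : S_W41)
    (D6 : S_W1 → S_tri → S_W2 → S_W3 → S_W4 → S_W41 → S_WSeq)
    (E1 : S_leaf) (E2 : S_coreLeaf) (E3 : S_leaf → S_Jleaf)
    (E4 : S_relabel2 → S_coreLeaf → S_Jleaf → S_dec0)
    (E5 : S_abel) (E6 : S_JleafT) (E7 : S_relabel2 → S_JleafT → S_cayley)
    (E8 : S_treeJoin) (E9 : S_relabel2 → S_cayley → S_treeJoin → S_decT)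
    (E10 : S_dec0 → S_abel → S_decT → S_cnt)
    (F1 : S_BB1) (F2 : S_BB2) (F3 : S_BB3) (F4 : S_BB1 → S_BB2 → S_BB3 → S_quasi)
    (F5 : S_mom) (F6 : S_low) (F7 : S_mom → S_step) (F8 : S_mom → S_low → S_ratio)
    (F9 : S_pp) (F10 : S_pp → S_ff)
    (F11 : S_pp → S_ff → S_quasi → S_step → S_V)
    (F12 : S_pp → S_ff → S_quasi → S_step → S_ratio → S_V → S_R)
    (F13 : S_pp → S_ff → S_zero) (F14 : S_ff → S_quasi → S_ratio → S_large)
    (F15 : S_ff → S_ratio → S_lower) (F16 : S_large → S_lower → S_X1)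
    (F17 : S_V → S_R → S_zero → S_X0) (F18 : S_V → S_R → S_X1 → S_X0 → S_lower → S_XR)
    (F19 : S_R → S_X0 → S_Xa)
    (G1 : S_G1) (G0 : S_G1 → S_cnt → S_G0) (G2 : S_G2) (G3 : S_G3)
    (T0 : ∀ g, Emb g (⊥ : SimpleGraph ℕ))
    (T1 : S_swap) (T2 : S_ins) (T3 : S_del) (T4 : S_swap → S_ins → S_faceCount)
    (T5 : S_compCount) (T6 : S_embS) (T7 : S_faceReach)
    (T8 : S_ins → S_del → S_faceCount → S_compCount → S_faceReach → S_delOK)
    (T9 : S_ins → S_faceCount → S_compCount → S_faceReach → S_joinOK)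
    (T10 : S_ins → S_faceCount → S_compCount → S_faceReach → S_sameOK)
    (T11 : S_pass) (T12 : S_embS → S_delOK → S_cMono) (T13 : S_embS → S_joinOK → S_cJoin)
    (T14 : S_embS → S_sameOK → S_pass → S_cTri)
    (T15 : S_embS → S_joinOK → S_sameOK → S_delOK → S_cSub)
    (T16 : S_embS → S_sameOK → S_pass → S_cPath)
    (T17 : S_cSub → S_cPath → S_cTri → S_cEar)
    (T18 : S_embS → S_joinOK → S_sameOK → S_delOK → S_cSplit)
    (T19 : S_map)
    (T20 : S_ins → S_del → S_faceCount → S_compCount → S_faceReach → S_euler)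
    (T21 : S_faceReach → S_euler → S_euler1)
    (T22 : S_embS → S_sameOK → S_euler1 → S_addPairs)
    (M1 : S_faceLen) (M2 : S_badFaces) (M3 : S_branchDart) (M4 : S_thrEx → S_followFace)
    (M5 : S_embS → S_faceLen → S_badFaces → S_branchDart → S_followFace → S_thr → S_manyGood)
    (R1 : S_XR → S_R1) (R2 : S_Xa → S_R2) (R3 : S_XR → S_Xa → S_R3)
    (H1 : S_map → S_H1)
    (Z : (∀ g, SurfClass (Emb g)) → (∀ g, WSeq (wt (Emb g))) → S_addPairs → S_G0 → S_G1 → S_G2 →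
      S_G3 → S_R1 → S_R2 → S_R3 → S_H1 → Result) :
    Result := by
  have b1 := B1 A1
  have b2 := B2 A1
  have b3 := B3 A1
  have b4 := B4 A1 A2
  have b5 := B5 b1 b2 b4
  have c3 := C3 A1 A2
  have c4 := C4 A1 A2
  have c5 := C5 A1 A2
  have c6 := C6 A1 A2
  have c7 := C7 b1 b2 b3 C1 c3 c4
  have c9 := C9 b1 b2 b3 b5 c6 c7 C8
  have d2 := D2 A1 C1 D1
  have d3 := D3 A1 C1 C2
  have d4 := D4 b1 b2 b3 C1 c5 c7 d2 d3
  have d6 := D6 b1 b2 b3 d4 c9 D5
  have e3 := E3 E1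
  have e4 := E4 A3 E2 e3
  have e7 := E7 A3 E6
  have e9 := E9 A3 e7 E8
  have e10 := E10 e4 E5 e9
  have f4 := F4 F1 F2 F3
  have f7 := F7 F5
  have f8 := F8 F5 F6
  have f10 := F10 F9
  have f11 := F11 F9 f10 f4 f7
  have f12 := F12 F9 f10 f4 f7 f8 f11
  have f13 := F13 F9 f10
  have f14 := F14 f10 f4 f8
  have f15 := F15 f10 f8
  have f16 := F16 f14 f15
  have f17 := F17 f11 f12 f13
  have f18 := F18 f11 f12 f16 f17 f15
  have f19 := F19 f12 f17
  have t4 := T4 T1 T2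
  have t8 := T8 T2 T3 t4 T5 T7
  have t9 := T9 T2 t4 T5 T7
  have t10 := T10 T2 t4 T5 T7
  have t12 := T12 T6 t8
  have t13 := T13 T6 t9
  have t14 := T14 T6 t10 T11
  have t15 := T15 T6 t9 t10 t8
  have t16 := T16 T6 t10 T11
  have t17 := T17 t15 t16 t14
  have t18 := T18 T6 t9 t10 t8
  have t20 := T20 T2 T3 t4 T5 T7
  have t21 := T21 T7 t20
  have t22 := T22 T6 t10 t21
  have hcl := surfClass_of T0 t12 t13 t14 t15 t17 t18 T19
  have m5 := M5 T6 M1 M2 M3 (M4 C2) C1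
  have hw : ∀ g, WSeq (wt (Emb g)) := fun g => d6 _ (hcl g) (m5 g)
  exact Z hcl hw t22 (G0 G1 e10) G1 G2 G3 (R1 f18) (R2 f19) (R3 f18 f19) (H1 T19)

end GiantSurf57
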