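import Pool.Agent.GiantSurf57.Defs

/-!
# Basic facts on degrees and numbers of edges (project `GiantSurf57`)
-/

open scoped Classical
open Finset

namespace GiantSurf57

variable {S : Finset ℕ} {G Q : SimpleGraph ℕ} {P : SimpleGraph ℕ → Prop} {x y v l : ℕ}

theorem adj_mem_left (hG : G ∈ graphsOn S) (h : G.Adj x y) : x ∈ S := by
  have := mem_graphsOn.mp hG
  exact this ⟨y, h⟩

theorem adj_mem_right (hG : G ∈ graphsOn S) (h : G.Adj x y) : y ∈ S := adj_mem_left hG h.symm

theorem mem_graphsOn_iff : G ∈ graphsOn S ↔ ∀ x y, G.Adj x y → x ∈ S ∧ y ∈ S := by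
  constructor
  · intro h x y hxy
    exact ⟨adj_mem_left h hxy, adj_mem_right h hxy⟩
  · intro h
    rw [mem_graphsOn]
    rintro x ⟨y, hy⟩
    exact (h x y hy).1

theorem edgeSet_finite (hG : G ∈ graphsOn S) : G.edgeSet.Finite := by
  have : G.edgeSet ⊆ (fun p : ℕ × ℕ => s(p.1, p.2)) '' (↑(S ×ˢ S) : Set (ℕ × ℕ)) := by
    intro e he
    induction e with
    | h x y =>
      refine ⟨(x, y), ?_, rfl⟩
      have h : G.Adj x y := he
      simp [adj_mem_left hG h, adj_mem_right hG h]
  exact ((Finset.finite_toSet _).image _).subset this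

theorem neighborSet_finite (h : G.edgeSet.Finite) (v : ℕ) : (G.neighborSet v).Finite := by
  refine Set.Finite.of_injOn (f := fun w => s(v, w)) (t := G.edgeSet) ?_ ?_ h
  · intro w hw
    exact hw
  · intro a _ b _ hab
    have h2 : s(v, a) = s(v, b) := hab
    rw [Sym2.eq_iff] at h2
    rcases h2 with ⟨_, h3⟩ | ⟨h3, h4⟩
    · exact h3
    · rw [h4, ← h3]

/-- Every graph with finitely many edges lives on a finite set, which can be chosen to contain a
given finite set. -/
theorem exists_graphsOn (h : G.edgeSet.Finite) (T : Finset ℕ) : ∃ S, T ⊆ S ∧ G ∈ graphsOn S := by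
  have hs : G.support.Finite := by
    have : G.support ⊆ ⋃ e ∈ G.edgeSet, {x | x ∈ e} := by
      rintro x ⟨y, hy⟩
      simp only [Set.mem_iUnion]
      exact ⟨s(x, y), hy, by simp⟩
    refine Set.Finite.subset (Set.Finite.biUnion h ?_) this
    intro e _
    induction e with
    | h x y =>
      refine (Set.toFinite ({x, y} : Set ℕ)).subset ?_
      intro z hz
      simpa using hz
  refine ⟨T ∪ hs.toFinset, Finset.subset_union_left, ?_⟩
  rw [mem_graphsOn]
  intro x hx
  simp [hx]

theorem deg_pos_mem (hG : G ∈ graphsOn S) (h : deg G v ≠ 0) : v ∈ S := by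
  by_contra hv
  apply h
  have : G.neighborSet v = ∅ := by
    ext w
    simp only [SimpleGraph.mem_neighborSet, Set.mem_empty_iff_false, iff_false]
    intro hw
    exact hv (adj_mem_left hG hw)
  simp [deg, this]

theorem edgeSet_edge_of_ne (h : x ≠ y) : (SimpleGraph.edge x y).edgeSet = {s(x, y)} := by
  exact SimpleGraph.edgeSet_edge_of_ne h

theorem ne_sup_edge (hf : G.edgeSet.Finite) (hxy : x ≠ y) (h : ¬ G.Adj x y) :
    ne (G ⊔ SimpleGraph.edge x y) = ne G + 1 := by
  unfold ne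
  rw [SimpleGraph.edgeSet_sup, edgeSet_edge_of_ne hxy, Set.union_singleton,
    Set.ncard_insert_of_notMem _ hf]
  simpa using h

theorem ne_sdiff_edge (hf : G.edgeSet.Finite) (h : G.Adj x y) :
    ne (G \ SimpleGraph.edge x y) + 1 = ne G := by
  unfold ne
  rw [SimpleGraph.edgeSet_sdiff, edgeSet_edge_of_ne h.ne]
  exact Set.ncard_sdiff_singleton_add_one (by simpa using h) hf

theorem sup_edge_finite (hf : G.edgeSet.Finite) : (G ⊔ SimpleGraph.edge x y).edgeSet.Finite := by
  rw [SimpleGraph.edgeSet_sup]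
  refine hf.union ((Set.finite_singleton s(x, y)).subset ?_)
  intro e he
  induction e with
  | h a b =>
    have h : (SimpleGraph.edge x y).Adj a b := he
    rw [SimpleGraph.edge_adj] at h
    rcases h.1 with ⟨rfl, rfl⟩ | ⟨rfl, rfl⟩
    · simp
    · simp [Sym2.eq_swap]

theorem finite_of_le {H : SimpleGraph ℕ} (hf : H.edgeSet.Finite) (h : G ≤ H) :
    G.edgeSet.Finite := hf.subset (SimpleGraph.edgeSet_subset_edgeSet.mpr h)

theorem graphsOn_of_le {H : SimpleGraph ℕ} (hf : H ∈ graphsOn S) (h : G ≤ H) :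
    G ∈ graphsOn S := by
  rw [mem_graphsOn_iff] at *
  intro x y hxy
  exact hf x y (h hxy)

theorem graphsOn_mono {T : Finset ℕ} (hf : G ∈ graphsOn S) (h : S ⊆ T) : G ∈ graphsOn T := by
  rw [mem_graphsOn_iff] at *
  intro x y hxy
  exact ⟨h (hf x y hxy).1, h (hf x y hxy).2⟩

theorem sup_edge_graphsOn (hG : G ∈ graphsOn S) (hx : x ∈ S) (hy : y ∈ S) :
    G ⊔ SimpleGraph.edge x y ∈ graphsOn S := by
  rw [mem_graphsOn_iff] at *
  intro a b hab
  rw [SimpleGraph.sup_adj, SimpleGraph.edge_adj] at hab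
  rcases hab with h | ⟨⟨rfl, rfl⟩ | ⟨rfl, rfl⟩, _⟩
  · exact hG a b h
  · exact ⟨hx, hy⟩
  · exact ⟨hy, hx⟩

theorem neighborSet_sup_edge_left (hxy : x ≠ y) :
    (G ⊔ SimpleGraph.edge x y).neighborSet x = insert y (G.neighborSet x) := by
  ext w
  rw [SimpleGraph.mem_neighborSet, SimpleGraph.sup_adj, SimpleGraph.edge_adj,
    Set.mem_insert_iff, SimpleGraph.mem_neighborSet]
  constructor
  · rintro (h | ⟨⟨_, rfl⟩ | ⟨h1, rfl⟩, h2⟩)
    · exact Or.inr h
    · exact Or.inl rfl
    · exact absurd rfl h2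
  · rintro (rfl | h)
    · exact Or.inr ⟨Or.inl ⟨rfl, rfl⟩, hxy⟩
    · exact Or.inl h

theorem neighborSet_sup_edge_right (hxy : x ≠ y) :
    (G ⊔ SimpleGraph.edge x y).neighborSet y = insert x (G.neighborSet y) := by
  rw [SimpleGraph.edge_comm]
  exact neighborSet_sup_edge_left hxy.symm

theorem neighborSet_sup_edge_other (hx : v ≠ x) (hy : v ≠ y) :
    (G ⊔ SimpleGraph.edge x y).neighborSet v = G.neighborSet v := by
  ext w
  simp only [SimpleGraph.mem_neighborSet, SimpleGraph.sup_adj, SimpleGraph.edge_adj]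
  constructor
  · rintro (h | ⟨⟨rfl, _⟩ | ⟨rfl, _⟩, _⟩)
    · exact h
    · exact absurd rfl hx
    · exact absurd rfl hy
  · exact Or.inl

theorem neighborSet_sdiff_edge_left (hxy : x ≠ y) :
    (G \ SimpleGraph.edge x y).neighborSet x = G.neighborSet x \ {y} := by
  ext w
  rw [SimpleGraph.mem_neighborSet, SimpleGraph.sdiff_adj, SimpleGraph.edge_adj,
    Set.mem_sdiff, Set.mem_singleton_iff, SimpleGraph.mem_neighborSet]
  constructor
  · rintro ⟨h, h2⟩
    refine ⟨h, ?_⟩
    rintro rfl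
    exact h2 ⟨Or.inl ⟨rfl, rfl⟩, hxy⟩
  · rintro ⟨h, h2⟩
    refine ⟨h, ?_⟩
    rintro ⟨⟨_, rfl⟩ | ⟨h3, _⟩, _⟩
    · exact h2 rfl
    · exact hxy h3

theorem neighborSet_sdiff_edge_right (hxy : x ≠ y) :
    (G \ SimpleGraph.edge x y).neighborSet y = G.neighborSet y \ {x} := by
  rw [SimpleGraph.edge_comm]
  exact neighborSet_sdiff_edge_left hxy.symm

theorem neighborSet_sdiff_edge_other (hx : v ≠ x) (hy : v ≠ y) :
    (G \ SimpleGraph.edge x y).neighborSet v = G.neighborSet v := by
  ext w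
  simp only [SimpleGraph.mem_neighborSet, SimpleGraph.sdiff_adj, SimpleGraph.edge_adj]
  constructor
  · exact fun h => h.1
  · intro h
    refine ⟨h, ?_⟩
    rintro ⟨⟨rfl, _⟩ | ⟨rfl, _⟩, _⟩
    · exact hx rfl
    · exact hy rfl

theorem deg_sup_edge_left (hf : G.edgeSet.Finite) (hxy : x ≠ y) (h : ¬ G.Adj x y) :
    deg (G ⊔ SimpleGraph.edge x y) x = deg G x + 1 := by
  unfold deg
  rw [neighborSet_sup_edge_left hxy, Set.ncard_insert_of_notMem _ (neighborSet_finite hf x)]
  simpa using h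

theorem deg_sup_edge_right (hf : G.edgeSet.Finite) (hxy : x ≠ y) (h : ¬ G.Adj x y) :
    deg (G ⊔ SimpleGraph.edge x y) y = deg G y + 1 := by
  rw [SimpleGraph.edge_comm]
  exact deg_sup_edge_left hf hxy.symm (fun h' => h h'.symm)

theorem deg_sup_edge_other (hx : v ≠ x) (hy : v ≠ y) :
    deg (G ⊔ SimpleGraph.edge x y) v = deg G v := by
  unfold deg
  rw [neighborSet_sup_edge_other hx hy]

theorem deg_sdiff_edge_left (hf : G.edgeSet.Finite) (h : G.Adj x y) :
    deg (G \ SimpleGraph.edge x y) x + 1 = deg G x := by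
  unfold deg
  rw [neighborSet_sdiff_edge_left h.ne]
  exact Set.ncard_sdiff_singleton_add_one h (neighborSet_finite hf x)

theorem deg_sdiff_edge_right (hf : G.edgeSet.Finite) (h : G.Adj x y) :
    deg (G \ SimpleGraph.edge x y) y + 1 = deg G y := by
  rw [SimpleGraph.edge_comm]
  exact deg_sdiff_edge_left hf h.symm

theorem deg_sdiff_edge_other (hx : v ≠ x) (hy : v ≠ y) :
    deg (G \ SimpleGraph.edge x y) v = deg G v := by
  unfold deg
  rw [neighborSet_sdiff_edge_other hx hy]

theorem deg_bot (v : ℕ) : deg (⊥ : SimpleGraph ℕ) v = 0 := by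
  simp [deg]

theorem ne_bot : ne (⊥ : SimpleGraph ℕ) = 0 := by simp [ne]

/-- Degree zero outside `S`. -/
theorem deg_eq_zero (hG : G ∈ graphsOn S) (h : v ∉ S) : deg G v = 0 := by
  by_contra h'
  exact h (deg_pos_mem hG h')

/-- Handshake. -/
theorem handshake (hG : G ∈ graphsOn S) : ∑ v ∈ S, deg G v = 2 * ne G := by
  obtain ⟨n, hn⟩ : ∃ n, n = ne G := ⟨_, rfl⟩
  induction n generalizing G with
  | zero =>
    have h0 : G.edgeSet = ∅ := by
      have := (Set.ncard_eq_zero (edgeSet_finite hG)).mp hn.symm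
      exact this
    have : G = ⊥ := SimpleGraph.edgeSet_eq_empty.mp h0
    subst this
    simp [deg_bot, ne_bot]
  | succ n ih =>
    have hne : G.edgeSet.Nonempty := by
      rw [Set.nonempty_iff_ne_empty]
      intro h0
      rw [ne, h0] at hn
      simp at hn
    obtain ⟨e, he⟩ := hne
    induction e with
    | h x y =>
      have hxy : G.Adj x y := he
      have hf := edgeSet_finite hG
      have h1 := ne_sdiff_edge hf hxy
      have h2 := ih (G := G \ SimpleGraph.edge x y) (graphsOn_of_le hG sdiff_le) (by omega)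
      have hxS := adj_mem_left hG hxy
      have hyS := adj_mem_right hG hxy
      have hne' : x ≠ y := hxy.ne
      have hyS' : y ∈ S.erase x := Finset.mem_erase.mpr ⟨hne'.symm, hyS⟩
      have key : ∀ H : SimpleGraph ℕ, ∑ v ∈ S, deg H v =
          deg H x + (deg H y + ∑ v ∈ (S.erase x).erase y, deg H v) := by
        intro H
        rw [← Finset.add_sum_erase S _ hxS, ← Finset.add_sum_erase (S.erase x) _ hyS']
      rw [key] at h2 ⊢
      have h3 : ∑ v ∈ (S.erase x).erase y, deg (G \ SimpleGraph.edge x y) v =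
          ∑ v ∈ (S.erase x).erase y, deg G v := by
        apply Finset.sum_congr rfl
        intro v hv
        simp only [Finset.mem_erase] at hv
        exact deg_sdiff_edge_other hv.2.1 hv.1
      have h4 := deg_sdiff_edge_left hf hxy
      have h5 := deg_sdiff_edge_right hf hxy
      omega

theorem mem_core : Q ∈ core P S l ↔
    Q ∈ graphsOn S ∧ P Q ∧ (∀ v ∈ S, 2 ≤ deg Q v) ∧ ne Q = S.card + l := by
  simp [core]

theorem core_sum (hQ : Q ∈ core P S l) : ∑ v ∈ S, (deg Q v - 2) = 2 * l := by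
  obtain ⟨h1, _, h3, h4⟩ := mem_core.mp hQ
  have h5 := handshake h1
  have h6 : ∑ v ∈ S, deg Q v = ∑ v ∈ S, (deg Q v - 2) + ∑ v ∈ S, 2 := by
    rw [← Finset.sum_add_distrib]
    apply Finset.sum_congr rfl
    intro v hv
    have := h3 v hv
    omega
  rw [Finset.sum_const, smul_eq_mul] at h6
  omega

theorem core_branch_card (hQ : Q ∈ core P S l) :
    (S.filter (fun v => 3 ≤ deg Q v)).card ≤ 2 * l := by
  rw [← core_sum hQ, Finset.card_eq_sum_ones]
  calc ∑ _ ∈ S.filter (fun v => 3 ≤ deg Q v), 1 ≤ ∑ v ∈ S.filter (fun v => 3 ≤ deg Q v), (deg Q v - 2) := by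
        apply Finset.sum_le_sum
        intro v hv
        have := (Finset.mem_filter.mp hv).2
        omega
    _ ≤ ∑ v ∈ S, (deg Q v - 2) := Finset.sum_le_sum_of_subset (Finset.filter_subset _ _)

theorem core_branch_sum (hQ : Q ∈ core P S l) :
    ∑ v ∈ S.filter (fun v => 3 ≤ deg Q v), deg Q v ≤ 6 * l := by
  have h := core_sum hQ
  calc ∑ v ∈ S.filter (fun v => 3 ≤ deg Q v), deg Q v
      ≤ ∑ v ∈ S.filter (fun v => 3 ≤ deg Q v), 3 * (deg Q v - 2) := by
        apply Finset.sum_le_sum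
        intro v hv
        have := (Finset.mem_filter.mp hv).2
        omega
    _ ≤ ∑ v ∈ S, 3 * (deg Q v - 2) := Finset.sum_le_sum_of_subset (Finset.filter_subset _ _)
    _ = 6 * l := by rw [← Finset.mul_sum, h]; ring

/-- Darts as pairs. -/
theorem darts_finite (hf : G.edgeSet.Finite) : {p : ℕ × ℕ | G.Adj p.1 p.2}.Finite := by
  obtain ⟨S, _, hS⟩ := exists_graphsOn hf ∅
  refine (Finset.finite_toSet (S ×ˢ S)).subset ?_
  rintro ⟨a, b⟩ h
  simp only [Finset.coe_product, Set.mem_prod]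
  exact ⟨adj_mem_left hS h, adj_mem_right hS h⟩

/-- The number of darts whose first vertex satisfies `p` is the sum of the degrees. -/
theorem ncard_darts (hG : G ∈ graphsOn S) (p : ℕ → Prop) :
    {d : ℕ × ℕ | G.Adj d.1 d.2 ∧ p d.1}.ncard = ∑ v ∈ S.filter p, deg G v := by
  have hf := edgeSet_finite hG
  have hfin : {d : ℕ × ℕ | G.Adj d.1 d.2 ∧ p d.1}.Finite :=
    (darts_finite hf).subset (fun d hd => hd.1)
  have e1 : hfin.toFinset = (S.filter p).biUnion
      (fun v => ((neighborSet_finite hf v).toFinset).map ⟨fun w => (v, w), fun a b h => by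
        simpa using h⟩) := by
    ext ⟨a, b⟩
    simp only [Set.Finite.mem_toFinset, Finset.mem_biUnion, Finset.mem_filter,
      Finset.mem_map, SimpleGraph.mem_neighborSet]
    constructor
    · rintro ⟨h1, h2⟩
      exact ⟨a, ⟨adj_mem_left hG h1, h2⟩, b, h1, rfl⟩
    · rintro ⟨v, ⟨_, h2⟩, w, h3, h4⟩
      have h5 : (v, w) = (a, b) := h4
      rw [Prod.mk.injEq] at h5
      obtain ⟨rfl, rfl⟩ := h5
      exact ⟨h3, h2⟩
  rw [Set.ncard_eq_toFinset_card _ hfin, e1, Finset.card_biUnion]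
  · apply Finset.sum_congr rfl
    intro v _
    rw [Finset.card_map, deg, Set.ncard_eq_toFinset_card _ (neighborSet_finite hf v)]
  · intro u _ v _ huv
    rw [Function.onFun, Finset.disjoint_left]
    rintro ⟨a, b⟩ h1 h2
    simp only [Finset.mem_map, Set.Finite.mem_toFinset] at h1 h2
    obtain ⟨w1, _, h3⟩ := h1
    obtain ⟨w2, _, h4⟩ := h2
    have h5 : (u, w1) = (a, b) := h3
    have h6 : (v, w2) = (a, b) := h4
    rw [Prod.mk.injEq] at h5 h6
    exact huv (h5.1.trans h6.1.symm)

theorem map_adj_iff (e : Equiv.Perm ℕ) (a b : ℕ) :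
    (G.map e.toEmbedding).Adj (e a) (e b) ↔ G.Adj a b := by
  have := SimpleGraph.map_adj_apply (G := G) (f := e.toEmbedding) (a := a) (b := b)
  simpa using this

theorem neighborSet_map (e : Equiv.Perm ℕ) (v : ℕ) :
    (G.map e.toEmbedding).neighborSet (e v) = e '' G.neighborSet v := by
  ext w
  rw [Set.mem_image]
  constructor
  · intro h
    refine ⟨e.symm w, ?_, by simp⟩
    have h' : (G.map e.toEmbedding).Adj (e v) (e (e.symm w)) := by simpa using h
    exact (map_adj_iff e _ _).mp h'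
  · rintro ⟨b, h, rfl⟩
    exact (map_adj_iff e _ _).mpr h

theorem deg_map (e : Equiv.Perm ℕ) (v : ℕ) : deg (G.map e.toEmbedding) (e v) = deg G v := by
  unfold deg
  rw [neighborSet_map, Set.ncard_image_of_injective _ e.injective]

theorem ne_map (e : Equiv.Perm ℕ) : ne (G.map e.toEmbedding) = ne G := by
  unfold ne
  rw [SimpleGraph.edgeSet_map, Set.ncard_image_of_injective]
  exact (Function.Embedding.sym2Map e.toEmbedding).injective

theorem map_map_symm (e : Equiv.Perm ℕ) : (G.map e.toEmbedding).map e.symm.toEmbedding = G := by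
  ext a b
  have h1 := map_adj_iff (G := G.map e.toEmbedding) e.symm (e a) (e b)
  rw [map_adj_iff] at h1
  simp

end GiantSurf57
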