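import Mathlib

/-!
# Definitions for the project `GiantSurf57` (MP_b03f5e_pr)

Part 1: rotation systems and embeddability of a graph on the closed orientable surface of genus `g`.
Part 2: finite graphs on `ℕ`, cores, threads.
Part 3: the numerical sequences of the analysis.
-/

open scoped Classical
open Finset

namespace GiantSurf57

/-! ## Part 1. Rotation systems, embeddability -/

section Rot

variable {V : Type*}

/-- A rotation system of the graph `G`: a permutation `σ` of the ordered pairs of vertices which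
fixes every pair that is not a dart (an ordered pair of adjacent vertices) and whose cycles on the
darts are exactly the sets of darts with a given first vertex. -/
structure IsRot (G : SimpleGraph V) (σ : Equiv.Perm (V × V)) : Prop where
  fix : ∀ x y, ¬ G.Adj x y → σ (x, y) = (x, y)
  fst : ∀ d, (σ d).1 = d.1
  cyc : ∀ x y z, G.Adj x y → G.Adj x z → σ.SameCycle (x, y) (x, z)

/-- The face permutation `d ↦ σ (reversal of d)`. -/
def faceP (σ : Equiv.Perm (V × V)) : Equiv.Perm (V × V) := σ * Equiv.prodComm V V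

/-- The orbit (cycle) of `d` under `φ`, as a set. -/
def orb {α : Type*} (φ : Equiv.Perm α) (d : α) : Set α := {e | φ.SameCycle d e}

/-- The faces of the rotation system `σ` of `G`: the cycles of the face permutation on the darts. -/
def faces (G : SimpleGraph V) (σ : Equiv.Perm (V × V)) : Set (Set (V × V)) :=
  {f | ∃ x y, G.Adj x y ∧ f = orb (faceP σ) (x, y)}

/-- The vertex sets of the components of `G` that contain an edge. -/
def bigComps (G : SimpleGraph V) : Set (Set V) :=
  {C | ∃ x y, G.Adj x y ∧ C = {z | G.Reachable x z}}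

/-- `G` (with finitely many edges) can be embedded on the closed orientable surface of genus `g`:
it has a rotation system for which the sum of the genera of the components, computed by Euler's
formula `∑ (2 - 2 g_i) = V - E + F`, is at most `g`. -/
def Emb (g : ℕ) (G : SimpleGraph V) : Prop :=
  ∃ σ : Equiv.Perm (V × V), IsRot G σ ∧
    2 * (bigComps G).ncard + G.edgeSet.ncard ≤ G.support.ncard + (faces G σ).ncard + 2 * g

end Rot

/-! ## Part 2. Graphs on `ℕ` -/

/-- Degree. -/
noncomputable def deg (G : SimpleGraph ℕ) (v : ℕ) : ℕ := (G.neighborSet v).ncard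

/-- Number of edges. -/
noncomputable def ne (G : SimpleGraph ℕ) : ℕ := G.edgeSet.ncard

theorem finite_graphsOn (S : Finset ℕ) : {G : SimpleGraph ℕ | G.support ⊆ ↑S}.Finite := by
  have hfin : ({b : Set (ℕ × ℕ) | b ⊆ ↑(S ×ˢ S)}).Finite := (Finset.finite_toSet (S ×ˢ S)).finite_subsets
  refine Set.Finite.of_injOn (f := fun G : SimpleGraph ℕ => {p : ℕ × ℕ | G.Adj p.1 p.2}) ?_ ?_ hfin
  · intro G hG p hp
    have h1 : p.1 ∈ G.support := ⟨p.2, hp⟩
    have h2 : p.2 ∈ G.support := ⟨p.1, (show G.Adj p.1 p.2 from hp).symm⟩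
    simp only [Finset.coe_product, Set.mem_prod]
    exact ⟨hG h1, hG h2⟩
  · intro G _ H _ h
    ext x y
    have := Set.ext_iff.mp h (x, y)
    simpa using this

/-- The (finite) set of graphs on `ℕ` all of whose edges are inside `S`. -/
noncomputable def graphsOn (S : Finset ℕ) : Finset (SimpleGraph ℕ) := (finite_graphsOn S).toFinset

theorem mem_graphsOn {S : Finset ℕ} {G : SimpleGraph ℕ} : G ∈ graphsOn S ↔ G.support ⊆ ↑S := by
  simp [graphsOn]

/-- Graphs in the class `P` on the vertex set `S` with minimum degree at least 2 and `|S| + l`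
edges. -/
noncomputable def core (P : SimpleGraph ℕ → Prop) (S : Finset ℕ) (l : ℕ) :
    Finset (SimpleGraph ℕ) :=
  (graphsOn S).filter (fun Q => P Q ∧ (∀ v ∈ S, 2 ≤ deg Q v) ∧ ne Q = S.card + l)

/-- Number of cores with `k` vertices and excess `l`. -/
noncomputable def W (P : SimpleGraph ℕ → Prop) (k l : ℕ) : ℕ := (core P (range k) l).card

/-- Normalised number of cores. -/
noncomputable def wt (P : SimpleGraph ℕ → Prop) (k l : ℕ) : ℝ := (W P k l : ℝ) / (k.factorial : ℝ)

/-- The graph whose edges are the edges of `G` between vertices of degree `2`. -/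
def deg2G (G : SimpleGraph ℕ) : SimpleGraph ℕ where
  Adj x y := G.Adj x y ∧ deg G x = 2 ∧ deg G y = 2
  symm := ⟨fun _ _ h => ⟨h.1.symm, h.2.2, h.2.1⟩⟩
  loopless := ⟨fun _ h => G.loopless.irrefl _ h.1⟩

/-- Splitting the vertex `v` of `G`: the neighbours `y`, `z` of `v` are moved to the new vertex
`w`, which is joined to `v`. -/
def splitG (G : SimpleGraph ℕ) (v y z w : ℕ) : SimpleGraph ℕ :=
  (G \ (SimpleGraph.edge v y ⊔ SimpleGraph.edge v z)) ⊔
    (SimpleGraph.edge w v ⊔ SimpleGraph.edge w y ⊔ SimpleGraph.edge w z)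

/-- The closure properties of the class of graphs embeddable on a fixed surface that are used in
the counting part. -/
structure SurfClass (P : SimpleGraph ℕ → Prop) : Prop where
  bot : P ⊥
  mono : ∀ G H : SimpleGraph ℕ, H.edgeSet.Finite → G ≤ H → P H → P G
  relabel : ∀ (G : SimpleGraph ℕ) (e : Equiv.Perm ℕ), G.edgeSet.Finite → P G →
    P (G.map e.toEmbedding)
  join : ∀ (G : SimpleGraph ℕ) (x y : ℕ), G.edgeSet.Finite → P G → ¬ G.Reachable x y →
    P (G ⊔ SimpleGraph.edge x y)
  subdiv : ∀ (G : SimpleGraph ℕ) (x y v : ℕ), G.edgeSet.Finite → P G → G.Adj x y →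
    v ∉ G.support → P ((G \ SimpleGraph.edge x y) ⊔ (SimpleGraph.edge x v ⊔ SimpleGraph.edge v y))
  closeTri : ∀ (G : SimpleGraph ℕ) (v x y : ℕ), G.edgeSet.Finite → P G →
    G.neighborSet v = {x, y} → x ≠ y → P (G ⊔ SimpleGraph.edge x y)
  ear : ∀ (G : SimpleGraph ℕ) (x y v : ℕ), G.edgeSet.Finite → P G → x ≠ y →
    (deg2G G).Reachable x y → v ∉ G.support →
    P (G ⊔ (SimpleGraph.edge x v ⊔ SimpleGraph.edge v y))
  split : ∀ (G : SimpleGraph ℕ) (v y : ℕ), G.edgeSet.Finite → P G → G.Adj v y →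
    3 ≤ deg G v → ∃ z, z ≠ y ∧ G.Adj v z ∧ ∀ w, w ∉ G.support → P (splitG G v y z w)

/-- `Chn Q b L c`: consecutive elements of `b :: (L ++ [c])` are adjacent in `Q`. -/
def Chn (Q : SimpleGraph ℕ) : ℕ → List ℕ → ℕ → Prop
  | b, [], c => Q.Adj b c
  | b, v :: L, c => Q.Adj b v ∧ Chn Q v L c

/-- The graph whose edges are the consecutive pairs of `b :: (L ++ [c])`. -/
def pathG : ℕ → List ℕ → ℕ → SimpleGraph ℕ
  | b, [], c => SimpleGraph.edge b c
  | b, v :: L, c => SimpleGraph.edge b v ⊔ pathG v L c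

/-- `(b, L, c)` is a thread of `Q`: a path `b - L - c` whose internal vertices (the list `L`) are
the vertices of degree 2 on it and whose end vertices have degree at least `3` (and may be equal
if `L` has at least two elements). -/
structure Thread (Q : SimpleGraph ℕ) (b : ℕ) (L : List ℕ) (c : ℕ) : Prop where
  chn : Chn Q b L c
  nodup : L.Nodup
  deg2 : ∀ v ∈ L, deg Q v = 2
  left : 3 ≤ deg Q b
  right : 3 ≤ deg Q c
  one : L.length = 1 → b ≠ c

/-- Number of threads with exactly `j` internal vertices (each thread counted with direction). -/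
noncomputable def thrN (Q : SimpleGraph ℕ) (j : ℕ) : ℕ :=
  {p : ℕ × List ℕ × ℕ | Thread Q p.1 p.2.1 p.2.2 ∧ p.2.1.length = j}.ncard

/-- Sum of `thrN` over the cores. -/
noncomputable def SS (P : SimpleGraph ℕ → Prop) (j k l : ℕ) : ℕ :=
  ∑ Q ∈ core P (range k) l, thrN Q j

/-- Sum of the degrees that are at least `4`. -/
noncomputable def bigDeg (Q : SimpleGraph ℕ) : ℕ := {p : ℕ × ℕ | Q.Adj p.1 p.2 ∧ 4 ≤ deg Q p.1}.ncard

/-- Vertices on cycles that are components. -/
noncomputable def isoCyc (Q : SimpleGraph ℕ) : ℕ :=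
  {v : ℕ | ∀ w, Q.Reachable v w → deg Q w = 2}.ncard

/-- Vertices on triangles that are components. -/
noncomputable def isoTri (Q : SimpleGraph ℕ) : ℕ :=
  {v : ℕ | ∃ x y, x ≠ y ∧ Q.neighborSet v = {x, y} ∧ Q.Adj x y ∧ deg Q x = 2 ∧ deg Q y = 2}.ncard

/-- Ordered pairs of distinct vertices joined by a path all of whose vertices have degree 2. -/
noncomputable def pairs2 (Q : SimpleGraph ℕ) : ℕ :=
  {p : ℕ × ℕ | p.1 ≠ p.2 ∧ (deg2G Q).Reachable p.1 p.2}.ncard

/-- Non-backtracking walks of darts through vertices of degree 2 and 3: `NB Q d e j i` means that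
there is such a walk from the dart `d` to the dart `e` with `j` steps, `i` of which pass a vertex
of degree 3. -/
inductive NB (Q : SimpleGraph ℕ) (d : ℕ × ℕ) : ℕ × ℕ → ℕ → ℕ → Prop
  | refl : NB Q d d 0 0
  | two {x y z j i : ℕ} : NB Q d (x, y) j i → deg Q y = 2 → Q.Adj y z → z ≠ x →
      NB Q d (y, z) (j + 1) i
  | three {x y z j i : ℕ} : NB Q d (x, y) j i → deg Q y = 3 → Q.Adj y z → z ≠ x →
      NB Q d (y, z) (j + 1) (i + 1)

/-- `x` and `y` are joined by a short non-backtracking walk: at most `M` steps, at most 24 of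
which pass a vertex of degree 3, the others pass vertices of degree 2. -/
def Short (Q : SimpleGraph ℕ) (M x y : ℕ) : Prop :=
  ∃ d e : ℕ × ℕ, ∃ j i : ℕ, d.1 = x ∧ Q.Adj d.1 d.2 ∧ e.2 = y ∧ NB Q d e j i ∧ j ≤ M ∧ i ≤ 24

/-- The good threads. -/
def goodThr (Q : SimpleGraph ℕ) (M : ℕ) : Set (ℕ × List ℕ × ℕ) :=
  {p | Thread Q p.1 p.2.1 p.2.2 ∧ deg Q p.1 = 3 ∧ deg Q p.2.2 = 3 ∧
    (p.1 = p.2.2 ∨ Short (Q \ pathG p.1 p.2.1 p.2.2) M p.2.2 p.1)}

/-- The property of a class that makes a positive proportion of the threads of a core good. -/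
def ManyGood (P : SimpleGraph ℕ → Prop) (l0 : ℕ) : Prop :=
  ∀ (S : Finset ℕ) (l M : ℕ) (Q : SimpleGraph ℕ), Q ∈ core P S l → l0 ≤ l →
    100 * bigDeg Q ≤ l → 100 * (S.card + l) ≤ M * l → l ≤ 8 * (goodThr Q M).ncard

/-! ### Components on `S`, tree components -/

/-- The component of `x` in `G` inside `S`. -/
noncomputable def compOf (G : SimpleGraph ℕ) (S : Finset ℕ) (x : ℕ) : Finset ℕ :=
  S.filter (fun y => G.Reachable x y)

/-- The components of `G` on `S`. -/
noncomputable def comps (G : SimpleGraph ℕ) (S : Finset ℕ) : Finset (Finset ℕ) :=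
  S.image (compOf G S)

/-- The number of edges of `G` inside `A`. -/
noncomputable def neIn (G : SimpleGraph ℕ) (A : Finset ℕ) : ℕ :=
  {e ∈ G.edgeSet | ∀ x ∈ e, x ∈ A}.ncard

/-- The number of tree components of `G` on `S`. -/
noncomputable def tc (G : SimpleGraph ℕ) (S : Finset ℕ) : ℕ :=
  ((comps G S).filter (fun A => neIn G A + 1 = A.card)).card

/-- Graphs of the class on `S` with `t` tree components, such that the non-tree part has
excess `l`. -/
noncomputable def grs (P : SimpleGraph ℕ → Prop) (S : Finset ℕ) (t l : ℕ) :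
    Finset (SimpleGraph ℕ) :=
  (graphsOn S).filter (fun G => P G ∧ tc G S = t ∧ ne G + t = S.card + l)

/-- Their number. -/
noncomputable def cnt (P : SimpleGraph ℕ → Prop) (n t l : ℕ) : ℕ := (grs P (range n) t l).card

/-- Trees on `S`. -/
noncomputable def trees (S : Finset ℕ) : Finset (SimpleGraph ℕ) :=
  (graphsOn S).filter (fun G => (∀ x ∈ S, ∀ y ∈ S, G.Reachable x y) ∧ ne G + 1 = S.card)

/-! ## Part 3. Sequences -/

/-- Poisson probabilities. -/
noncomputable def pois (n j : ℕ) : ℝ := (n : ℝ) ^ j * Real.exp (-(n : ℝ)) / (j.factorial : ℝ)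

/-- The weights `(k/n) P(Pois(n) = n - k)` (Borel-Tanner). -/
noncomputable def bt (n k : ℕ) : ℝ := (k : ℝ) / (n : ℝ) * pois n (n - k)

/-- `cc w n = ∑ₖ wₖ (k/n) P(Pois(n) = n - k)` for `n ≥ 1`, and `cc w 0 = w 0`. -/
noncomputable def cc (w : ℕ → ℝ) (n : ℕ) : ℝ :=
  if n = 0 then w 0 else ∑ k ∈ range (n + 1), w k * bt n k

/-- `p s = s^(s-2) e^(-s) / s!` for `s ≥ 1`, `p 0 = 0`. -/
noncomputable def pp (s : ℕ) : ℝ :=
  (s : ℝ) ^ s * Real.exp (-(s : ℝ)) / ((s : ℝ) ^ 2 * (s.factorial : ℝ))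

/-- Forest numbers: `ff 0 = δ₀`, `(t+1) ff (t+1) v = ∑ₛ p s * ff t (v - s)`. -/
noncomputable def ff : ℕ → ℕ → ℝ
  | 0, v => if v = 0 then 1 else 0
  | t + 1, v => (∑ s ∈ range (v + 1), pp s * ff t (v - s)) / ((t : ℝ) + 1)

/-- `aa c t n = ∑ᵥ ff t v * c (n - v)`. -/
noncomputable def aa (c : ℕ → ℝ) (t n : ℕ) : ℝ := ∑ v ∈ range (n + 1), ff t v * c (n - v)

end GiantSurf57
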