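import Pool.Agent.GiantSurf57.PkgA3

/-!
# Package A1: relabelling for sums over the cores
-/

open scoped Classical
open Finset

namespace GiantSurf57

namespace PkgA1

theorem deg_map (G : SimpleGraph ℕ) (e : Equiv.Perm ℕ) (v : ℕ) :
    deg (G.map e.toEmbedding) (e v) = deg G v := by
  rw [deg, deg]
  have h : (G.map e.toEmbedding).neighborSet (e v) = e '' G.neighborSet v := by
    ext y
    obtain ⟨y, rfl⟩ := e.surjective y
    rw [SimpleGraph.mem_neighborSet, PkgA3.adj_iff, Set.mem_image]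
    constructor
    · intro h
      exact ⟨y, h, rfl⟩
    · rintro ⟨z, hz, hzy⟩
      rw [← e.injective hzy]
      exact hz
  rw [h, Set.ncard_image_of_injective _ e.injective]

theorem core_map {P : SimpleGraph ℕ → Prop} (hP : SurfClass P) {S : Finset ℕ} {l : ℕ}
    {Q : SimpleGraph ℕ} (e : Equiv.Perm ℕ) (hQ : Q ∈ core P S l) :
    Q.map e.toEmbedding ∈ core P (S.map e.toEmbedding) l := by
  rw [core, Finset.mem_filter] at hQ ⊢
  obtain ⟨h1, h2, h3, h4⟩ := hQ
  refine ⟨PkgA3.graphsOn_map e h1, hP.relabel Q e (PkgA3.edgeSet_finite h1) h2, ?_, ?_⟩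
  · intro v hv
    obtain ⟨v, rfl⟩ := e.surjective v
    rw [deg_map]
    exact h3 v ((PkgA3.mem_map_iff S e v).mp hv)
  · rw [PkgA3.ne_map, Finset.card_map, h4]

theorem sum_le {P : SimpleGraph ℕ → Prop} (hP : SurfClass P) {Φ : SimpleGraph ℕ → ℕ}
    (hΦ : ∀ (G : SimpleGraph ℕ) (e : Equiv.Perm ℕ), Φ (G.map e.toEmbedding) = Φ G)
    {S S' : Finset ℕ} {l : ℕ} (h : S.card = S'.card) :
    ∑ Q ∈ core P S l, Φ Q ≤ ∑ Q ∈ core P S' l, Φ Q := by
  obtain ⟨e, rfl⟩ := PkgA3.exists_perm h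
  have hinj : Set.InjOn (fun Q : SimpleGraph ℕ => Q.map e.toEmbedding) (core P S l : Set (SimpleGraph ℕ)) :=
    fun G _ H _ h => SimpleGraph.map_injective e.toEmbedding h
  have h1 : ∑ Q ∈ core P S l, Φ Q =
      ∑ Q ∈ (core P S l).image (fun Q => Q.map e.toEmbedding), Φ Q := by
    rw [Finset.sum_image hinj]
    exact Finset.sum_congr rfl fun Q _ => (hΦ Q e).symm
  rw [h1]
  apply Finset.sum_le_sum_of_subset
  intro Q hQ
  rw [Finset.mem_image] at hQ
  obtain ⟨Q, hQ, rfl⟩ := hQ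
  exact core_map hP e hQ

end PkgA1

theorem pkgA1 : S_relabel := by
  intro P hP Φ hΦ S S' l h
  exact le_antisymm (PkgA1.sum_le hP hΦ h) (PkgA1.sum_le hP hΦ h.symm)

end GiantSurf57
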