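import Pool.Agent.GiantSurf57.StmtsTop

/-!
# Package A2: invariance of the numbers attached to a core under relabelling
-/

open scoped Classical
open Finset

namespace GiantSurf57

namespace PkgA2

theorem ncard_eq {α : Type*} (F : α ≃ α) {A A' : Set α} (h : ∀ p, F p ∈ A' ↔ p ∈ A) :
    A'.ncard = A.ncard := by
  have e1 : A' = F '' A := by
    ext x
    constructor
    · intro hx
      refine ⟨F.symm x, ?_, F.apply_symm_apply x⟩
      rw [← h, F.apply_symm_apply]
      exact hx
    · rintro ⟨p, hp, rfl⟩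
      exact (h p).mpr hp
  rw [e1, Set.ncard_image_of_injective _ F.injective]

theorem adj_iff (G : SimpleGraph ℕ) (e : Equiv.Perm ℕ) (x y : ℕ) :
    (G.map e.toEmbedding).Adj (e x) (e y) ↔ G.Adj x y :=
  SimpleGraph.map_adj_apply (f := e.toEmbedding)

theorem neighborSet_eq (G : SimpleGraph ℕ) (e : Equiv.Perm ℕ) (v : ℕ) :
    (G.map e.toEmbedding).neighborSet (e v) = e '' G.neighborSet v := by
  ext x
  obtain ⟨y, rfl⟩ := e.surjective x
  rw [SimpleGraph.mem_neighborSet, adj_iff, e.injective.mem_set_image, SimpleGraph.mem_neighborSet]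

theorem deg_eq (G : SimpleGraph ℕ) (e : Equiv.Perm ℕ) (v : ℕ) :
    deg (G.map e.toEmbedding) (e v) = deg G v := by
  rw [deg, neighborSet_eq, Set.ncard_image_of_injective _ e.injective, deg]

theorem reach_iff (G : SimpleGraph ℕ) (e : Equiv.Perm ℕ) (x y : ℕ) :
    (G.map e.toEmbedding).Reachable (e x) (e y) ↔ G.Reachable x y :=
  SimpleGraph.Iso.reachable_iff (φ := SimpleGraph.Iso.map e G)

theorem chn_iff (G : SimpleGraph ℕ) (e : Equiv.Perm ℕ) (L : List ℕ) :
    ∀ b c : ℕ, Chn (G.map e.toEmbedding) (e b) (L.map e) (e c) ↔ Chn G b L c := by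
  induction L with
  | nil => intro b c; exact adj_iff G e b c
  | cons v L ih =>
    intro b c
    rw [List.map_cons, Chn, Chn, adj_iff, ih]

theorem thread_iff (G : SimpleGraph ℕ) (e : Equiv.Perm ℕ) (b : ℕ) (L : List ℕ) (c : ℕ) :
    Thread (G.map e.toEmbedding) (e b) (L.map e) (e c) ↔ Thread G b L c := by
  constructor
  · rintro ⟨h1, h2, h3, h4, h5, h6⟩
    refine ⟨(chn_iff G e L b c).mp h1, (List.nodup_map_iff e.injective).mp h2, ?_, ?_, ?_, ?_⟩
    · intro v hv
      have := h3 (e v) (List.mem_map_of_mem hv)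
      rwa [deg_eq] at this
    · rwa [deg_eq] at h4
    · rwa [deg_eq] at h5
    · intro hL hbc
      exact h6 (by rw [List.length_map]; exact hL) (by rw [hbc])
  · rintro ⟨h1, h2, h3, h4, h5, h6⟩
    refine ⟨(chn_iff G e L b c).mpr h1, (List.nodup_map_iff e.injective).mpr h2, ?_, ?_, ?_, ?_⟩
    · intro v hv
      rw [List.mem_map] at hv
      obtain ⟨w, hw, rfl⟩ := hv
      rw [deg_eq]
      exact h3 w hw
    · rwa [deg_eq]
    · rwa [deg_eq]
    · intro hL hbc
      rw [List.length_map] at hL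
      exact h6 hL (e.injective hbc)

theorem deg2G_map (G : SimpleGraph ℕ) (e : Equiv.Perm ℕ) :
    deg2G (G.map e.toEmbedding) = (deg2G G).map e.toEmbedding := by
  ext x y
  obtain ⟨x, rfl⟩ := e.surjective x
  obtain ⟨y, rfl⟩ := e.surjective y
  rw [adj_iff]
  change (G.map e.toEmbedding).Adj (e x) (e y) ∧ _ ∧ _ ↔ G.Adj x y ∧ _ ∧ _
  rw [adj_iff, deg_eq, deg_eq]

end PkgA2

open PkgA2 in
theorem pkgA2 : S_inv := by
  intro G e
  refine ⟨fun j => ?_, ?_, ?_, ?_, ?_⟩
  · refine ncard_eq (e.prodCongr ((Equiv.listEquivOfEquiv e).prodCongr e)) ?_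
    rintro ⟨b, L, c⟩
    change (Thread (G.map e.toEmbedding) (e b) (L.map e) (e c) ∧ (L.map e).length = j) ↔
      (Thread G b L c ∧ L.length = j)
    rw [thread_iff, List.length_map]
  · refine ncard_eq (e.prodCongr e) ?_
    rintro ⟨x, y⟩
    change ((G.map e.toEmbedding).Adj (e x) (e y) ∧ 4 ≤ deg (G.map e.toEmbedding) (e x)) ↔
      (G.Adj x y ∧ 4 ≤ deg G x)
    rw [adj_iff, deg_eq]
  · refine ncard_eq e ?_
    intro v
    change (∀ w, (G.map e.toEmbedding).Reachable (e v) w → deg (G.map e.toEmbedding) w = 2) ↔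
      (∀ w, G.Reachable v w → deg G w = 2)
    rw [e.surjective.forall]
    refine forall_congr' fun w => ?_
    rw [reach_iff, deg_eq]
  · refine ncard_eq e ?_
    intro v
    change (∃ x y, x ≠ y ∧ (G.map e.toEmbedding).neighborSet (e v) = {x, y} ∧
      (G.map e.toEmbedding).Adj x y ∧ deg (G.map e.toEmbedding) x = 2 ∧
      deg (G.map e.toEmbedding) y = 2) ↔
      (∃ x y, x ≠ y ∧ G.neighborSet v = {x, y} ∧ G.Adj x y ∧ deg G x = 2 ∧ deg G y = 2)
    rw [e.surjective.exists]
    refine exists_congr fun x => ?_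
    rw [e.surjective.exists]
    refine exists_congr fun y => ?_
    rw [adj_iff, deg_eq, deg_eq, neighborSet_eq, ← Set.image_pair,
      (Set.image_injective.mpr e.injective).eq_iff, e.injective.ne_iff]
  · refine ncard_eq (e.prodCongr e) ?_
    rintro ⟨x, y⟩
    change (e x ≠ e y ∧ (deg2G (G.map e.toEmbedding)).Reachable (e x) (e y)) ↔
      (x ≠ y ∧ (deg2G G).Reachable x y)
    rw [deg2G_map, reach_iff, e.injective.ne_iff]

end GiantSurf57
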