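import Pool.Agent.GiantSurf57.StmtsTop

/-!
# Package A3: relabelling for the sets `grs` and `trees`
-/

open scoped Classical
open Finset

namespace GiantSurf57

namespace PkgA3

/-- a permutation of `ℕ` mapping `S` onto `S'` -/
theorem exists_perm {S S' : Finset ℕ} (h : S.card = S'.card) :
    ∃ e : Equiv.Perm ℕ, S.map e.toEmbedding = S' := by
  have hp := Equiv.Perm.isMultiplyPretransitive ℕ S'.card
  obtain ⟨e, he⟩ := hp.exists_smul_eq (S.orderEmbOfFin h).toEmbedding
    (S'.orderEmbOfFin rfl).toEmbedding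
  refine ⟨e, ?_⟩
  ext x
  rw [Finset.mem_map]
  have h1 : ∀ i, e (S.orderEmbOfFin h i) = S'.orderEmbOfFin rfl i := by
    intro i
    have := congrArg (fun f : Fin S'.card ↪ ℕ => f i) he
    exact this
  constructor
  · rintro ⟨a, ha, rfl⟩
    have : a ∈ Set.range (S.orderEmbOfFin h) := by
      rw [Finset.range_orderEmbOfFin]
      exact ha
    obtain ⟨i, rfl⟩ := this
    change e _ ∈ S'
    rw [h1]
    exact Finset.orderEmbOfFin_mem _ _ _
  · intro hx
    have : x ∈ Set.range (S'.orderEmbOfFin rfl) := by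
      rw [Finset.range_orderEmbOfFin]
      exact hx
    obtain ⟨i, rfl⟩ := this
    exact ⟨S.orderEmbOfFin h i, Finset.orderEmbOfFin_mem _ _ _, h1 i⟩

theorem adj_iff (G : SimpleGraph ℕ) (e : Equiv.Perm ℕ) (x y : ℕ) :
    (G.map e.toEmbedding).Adj (e x) (e y) ↔ G.Adj x y :=
  SimpleGraph.map_adj_apply (f := e.toEmbedding)

theorem reach_iff (G : SimpleGraph ℕ) (e : Equiv.Perm ℕ) (x y : ℕ) :
    (G.map e.toEmbedding).Reachable (e x) (e y) ↔ G.Reachable x y :=
  SimpleGraph.Iso.reachable_iff (φ := SimpleGraph.Iso.map e G)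

theorem ne_map (G : SimpleGraph ℕ) (e : Equiv.Perm ℕ) : ne (G.map e.toEmbedding) = ne G := by
  rw [ne, SimpleGraph.edgeSet_map, Set.ncard_image_of_injective _ e.toEmbedding.sym2Map.injective, ne]

theorem mem_map_iff (S : Finset ℕ) (e : Equiv.Perm ℕ) (x : ℕ) :
    e x ∈ S.map e.toEmbedding ↔ x ∈ S :=
  Finset.mem_map' e.toEmbedding

theorem graphsOn_map {S : Finset ℕ} {G : SimpleGraph ℕ} (e : Equiv.Perm ℕ) (h : G ∈ graphsOn S) :
    G.map e.toEmbedding ∈ graphsOn (S.map e.toEmbedding) := by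
  rw [mem_graphsOn] at h ⊢
  rintro x ⟨y, hxy⟩
  obtain ⟨x, rfl⟩ := e.surjective x
  obtain ⟨y, rfl⟩ := e.surjective y
  have : x ∈ S := h ⟨y, (adj_iff G e x y).mp hxy⟩
  exact Finset.mem_coe.mpr ((mem_map_iff S e x).mpr this)

theorem edgeSet_finite {S : Finset ℕ} {G : SimpleGraph ℕ} (h : G ∈ graphsOn S) :
    G.edgeSet.Finite := by
  rw [mem_graphsOn] at h
  have hfin : ((fun p : ℕ × ℕ => s(p.1, p.2)) '' (↑(S ×ˢ S) : Set (ℕ × ℕ))).Finite :=
    (Finset.finite_toSet _).image _
  refine Set.Finite.subset hfin (fun z hz => ?_)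
  induction z using Sym2.ind with
  | _ x y =>
    rw [SimpleGraph.mem_edgeSet] at hz
    refine ⟨(x, y), ?_, rfl⟩
    rw [Finset.coe_product, Set.mem_prod]
    exact ⟨h ⟨y, hz⟩, h ⟨x, hz.symm⟩⟩

theorem compOf_map (G : SimpleGraph ℕ) (S : Finset ℕ) (e : Equiv.Perm ℕ) (x : ℕ) :
    compOf (G.map e.toEmbedding) (S.map e.toEmbedding) (e x) =
      (compOf G S x).map e.toEmbedding := by
  ext y
  obtain ⟨y, rfl⟩ := e.surjective y
  rw [mem_map_iff, compOf, compOf, Finset.mem_filter, Finset.mem_filter, mem_map_iff, reach_iff]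

theorem comps_map (G : SimpleGraph ℕ) (S : Finset ℕ) (e : Equiv.Perm ℕ) :
    comps (G.map e.toEmbedding) (S.map e.toEmbedding) =
      (comps G S).map (Finset.mapEmbedding e.toEmbedding).toEmbedding := by
  ext A
  rw [comps, comps, Finset.mem_image, Finset.mem_map]
  constructor
  · rintro ⟨x, hx, rfl⟩
    obtain ⟨x, rfl⟩ := e.surjective x
    refine ⟨compOf G S x, Finset.mem_image_of_mem _ ((mem_map_iff S e x).mp hx), ?_⟩
    rw [compOf_map]
    rfl
  · rintro ⟨B, hB, rfl⟩
    rw [Finset.mem_image] at hB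
    obtain ⟨x, hx, rfl⟩ := hB
    exact ⟨e x, (mem_map_iff S e x).mpr hx, compOf_map G S e x⟩

theorem neIn_map (G : SimpleGraph ℕ) (A : Finset ℕ) (e : Equiv.Perm ℕ) :
    neIn (G.map e.toEmbedding) (A.map e.toEmbedding) = neIn G A := by
  rw [neIn, neIn]
  have h : {z ∈ (G.map e.toEmbedding).edgeSet | ∀ x ∈ z, x ∈ A.map e.toEmbedding} =
      e.toEmbedding.sym2Map '' {z ∈ G.edgeSet | ∀ x ∈ z, x ∈ A} := by
    ext z
    rw [SimpleGraph.edgeSet_map]
    constructor
    · rintro ⟨⟨w, hw, rfl⟩, hz⟩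
      refine ⟨w, ⟨hw, fun x hx => ?_⟩, rfl⟩
      have := hz (e x) (by
        rw [Function.Embedding.sym2Map_apply, Sym2.mem_map]
        exact ⟨x, hx, rfl⟩)
      exact (mem_map_iff A e x).mp this
    · rintro ⟨w, ⟨hw, hA⟩, rfl⟩
      refine ⟨⟨w, hw, rfl⟩, fun x hx => ?_⟩
      rw [Function.Embedding.sym2Map_apply, Sym2.mem_map] at hx
      obtain ⟨y, hy, rfl⟩ := hx
      exact (mem_map_iff A e y).mpr (hA y hy)
  rw [h, Set.ncard_image_of_injective _ e.toEmbedding.sym2Map.injective]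

theorem tc_map (G : SimpleGraph ℕ) (S : Finset ℕ) (e : Equiv.Perm ℕ) :
    tc (G.map e.toEmbedding) (S.map e.toEmbedding) = tc G S := by
  rw [tc, tc, comps_map, Finset.filter_map, Finset.card_map]
  congr 1
  refine Finset.filter_congr fun A _ => ?_
  change neIn (G.map e.toEmbedding) (A.map e.toEmbedding) + 1 = (A.map e.toEmbedding).card ↔ _
  rw [neIn_map, Finset.card_map]

theorem grs_le {P : SimpleGraph ℕ → Prop} (hP : SurfClass P) (S : Finset ℕ) (t l : ℕ)
    (e : Equiv.Perm ℕ) : (grs P S t l).card ≤ (grs P (S.map e.toEmbedding) t l).card := by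
  refine Finset.card_le_card_of_injOn (fun G => G.map e.toEmbedding) ?_ ?_
  · intro G hG
    have hG' := Finset.mem_coe.mp hG
    rw [grs, Finset.mem_filter] at hG'
    obtain ⟨h1, h2, h3, h4⟩ := hG'
    refine Finset.mem_coe.mpr ?_
    rw [grs, Finset.mem_filter]
    refine ⟨graphsOn_map e h1, hP.relabel G e (edgeSet_finite h1) h2, ?_, ?_⟩
    · rw [tc_map, h3]
    · rw [ne_map, Finset.card_map, h4]
  · intro G _ H _ h
    exact SimpleGraph.map_injective e.toEmbedding h

theorem trees_le (S : Finset ℕ) (e : Equiv.Perm ℕ) :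
    (trees S).card ≤ (trees (S.map e.toEmbedding)).card := by
  refine Finset.card_le_card_of_injOn (fun G => G.map e.toEmbedding) ?_ ?_
  · intro G hG
    have hG' := Finset.mem_coe.mp hG
    rw [trees, Finset.mem_filter] at hG'
    obtain ⟨h1, h2, h3⟩ := hG'
    refine Finset.mem_coe.mpr ?_
    rw [trees, Finset.mem_filter]
    refine ⟨graphsOn_map e h1, ?_, ?_⟩
    · intro x hx y hy
      obtain ⟨x, rfl⟩ := e.surjective x
      obtain ⟨y, rfl⟩ := e.surjective y
      rw [reach_iff]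
      exact h2 x ((mem_map_iff S e x).mp hx) y ((mem_map_iff S e y).mp hy)
    · rw [ne_map, Finset.card_map, h3]
  · intro G _ H _ h
    exact SimpleGraph.map_injective e.toEmbedding h

end PkgA3

open PkgA3 in
theorem pkgA3 : S_relabel2 := by
  refine ⟨fun P hP S S' t l h => ?_, fun S S' h => ?_⟩
  · obtain ⟨e, he⟩ := exists_perm h
    obtain ⟨e', he'⟩ := exists_perm h.symm
    apply le_antisymm
    · have := grs_le hP S t l e
      rwa [he] at this
    · have := grs_le hP S' t l e'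
      rwa [he'] at this
  · obtain ⟨e, he⟩ := exists_perm h
    obtain ⟨e', he'⟩ := exists_perm h.symm
    apply le_antisymm
    · have := trees_le S e
      rwa [he] at this
    · have := trees_le S' e'
      rwa [he'] at this

end GiantSurf57
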