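import Pool.Agent.GiantSurf57.Stmts

/-!
# Package B1 of `GiantSurf57`: subdividing
-/

open scoped Classical
open Finset

namespace GiantSurf57

namespace PkgB1

lemma nbr_eq {S : Finset ℕ} {G : SimpleGraph ℕ} (hG : G ∈ graphsOn S) (w : ℕ) :
    G.neighborSet w = ↑(S.filter (fun y => G.Adj w y)) := by
  ext y
  simp only [SimpleGraph.mem_neighborSet, coe_filter, Set.mem_ofPred_eq]
  constructor
  · intro h
    exact ⟨mem_graphsOn.mp hG ⟨w, h.symm⟩, h⟩
  · exact fun h => h.2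

lemma deg_eq {S : Finset ℕ} {G : SimpleGraph ℕ} (hG : G ∈ graphsOn S) (w : ℕ) :
    deg G w = (S.filter (fun y => G.Adj w y)).card := by
  unfold deg
  rw [nbr_eq hG w, Set.ncard_coe_finset]

lemma edge_eq {S : Finset ℕ} {G : SimpleGraph ℕ} (hG : G ∈ graphsOn S) :
    G.edgeSet = ↑(((S ×ˢ S).filter (fun p => G.Adj p.1 p.2)).image (fun p => s(p.1, p.2))) := by
  ext e
  simp only [coe_image, coe_filter, mem_product, Set.mem_image, Set.mem_ofPred_eq]
  constructor
  · induction e using Sym2.ind with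
    | _ x y =>
      intro h
      have h' : G.Adj x y := h
      exact ⟨(x, y), ⟨⟨mem_graphsOn.mp hG ⟨y, h'⟩, mem_graphsOn.mp hG ⟨x, h'.symm⟩⟩, h'⟩, rfl⟩
  · rintro ⟨p, ⟨_, hp⟩, rfl⟩
    exact hp

lemma finite_edgeSet {S : Finset ℕ} {G : SimpleGraph ℕ} (hG : G ∈ graphsOn S) :
    G.edgeSet.Finite := by
  rw [edge_eq hG]
  exact Finset.finite_toSet _

lemma handshake {S : Finset ℕ} {G : SimpleGraph ℕ} (hG : G ∈ graphsOn S) :
    ∑ w ∈ S, deg G w = 2 * ne G := by
  set D := (S ×ˢ S).filter (fun p => G.Adj p.1 p.2) with hD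
  have h1 : D.card = ∑ w ∈ S, deg G w := by
    have hm : ∀ p ∈ D, p.1 ∈ S := by
      intro p hp
      rw [hD, mem_filter, mem_product] at hp
      exact hp.1.1
    rw [Finset.card_eq_sum_card_fiberwise hm]
    refine Finset.sum_congr rfl (fun w hw => ?_)
    rw [deg_eq hG w]
    refine Finset.card_bij (fun p _ => p.2) ?_ ?_ ?_
    · intro p hp
      simp only [hD, mem_filter, mem_product] at hp ⊢
      refine ⟨hp.1.1.2, ?_⟩
      rw [← hp.2]
      exact hp.1.2
    · rintro ⟨a, b⟩ hp ⟨c, d⟩ hq h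
      simp only [mem_filter] at hp hq
      simp only at h
      rw [Prod.mk.injEq]
      exact ⟨hp.2.trans hq.2.symm, h⟩
    · intro y hy
      rw [mem_filter] at hy
      exact ⟨(w, y), by simp only [hD, mem_filter, mem_product]; exact ⟨⟨⟨hw, hy.1⟩, hy.2⟩, trivial⟩, rfl⟩
  have h2 : D.card = 2 * ne G := by
    have hE : ne G = (D.image (fun p => s(p.1, p.2))).card := by
      unfold ne
      rw [edge_eq hG, Set.ncard_coe_finset]
    have hm : ∀ p ∈ D, s(p.1, p.2) ∈ D.image (fun p => s(p.1, p.2)) := fun p hp =>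
      Finset.mem_image_of_mem _ hp
    rw [Finset.card_eq_sum_card_fiberwise hm, hE]
    have h3 : ∀ e ∈ D.image (fun p => s(p.1, p.2)), (D.filter (fun p => s(p.1, p.2) = e)).card = 2 := by
      intro e he
      rw [mem_image] at he
      obtain ⟨⟨x, y⟩, hp, rfl⟩ := he
      have hp' := hp
      simp only [hD, mem_filter, mem_product] at hp'
      have hne : x ≠ y := hp'.2.ne
      have : D.filter (fun p => s(p.1, p.2) = s(x, y)) = {(x, y), (y, x)} := by
        ext ⟨a, b⟩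
        simp only [hD, mem_filter, mem_product, mem_insert, mem_singleton, Prod.mk.injEq,
          Sym2.eq_iff]
        constructor
        · exact fun h => h.2
        · rintro (⟨rfl, rfl⟩ | ⟨rfl, rfl⟩)
          · exact ⟨⟨hp'.1, hp'.2⟩, Or.inl ⟨rfl, rfl⟩⟩
          · exact ⟨⟨⟨hp'.1.2, hp'.1.1⟩, hp'.2.symm⟩, Or.inr ⟨rfl, rfl⟩⟩
      rw [this, Finset.card_pair]
      intro h
      rw [Prod.mk.injEq] at h
      exact hne h.1
    rw [Finset.sum_congr rfl h3, Finset.sum_const, smul_eq_mul, mul_comm]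
  rw [← h1, h2]

/-- Subdivision of the edge `e` by the vertex `v`. -/
def subG (Q : SimpleGraph ℕ) (v : ℕ) (e : Sym2 ℕ) : SimpleGraph ℕ where
  Adj a b := (Q.Adj a b ∧ s(a, b) ≠ e) ∨ (a = v ∧ b ∈ e ∧ b ≠ v) ∨ (b = v ∧ a ∈ e ∧ a ≠ v)
  symm := ⟨by
    rintro a b (⟨h1, h2⟩ | h | h)
    · exact Or.inl ⟨h1.symm, by rwa [Sym2.eq_swap]⟩
    · exact Or.inr (Or.inr h)
    · exact Or.inr (Or.inl h)⟩
  loopless := ⟨by
    rintro a (⟨h1, _⟩ | ⟨h1, _, h2⟩ | ⟨h1, _, h2⟩)
    · exact Q.loopless.irrefl _ h1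
    · exact h2 h1
    · exact h2 h1⟩

lemma subG_adj {Q : SimpleGraph ℕ} {v : ℕ} {e : Sym2 ℕ} {a b : ℕ} :
    (subG Q v e).Adj a b ↔
      (Q.Adj a b ∧ s(a, b) ≠ e) ∨ (a = v ∧ b ∈ e ∧ b ≠ v) ∨ (b = v ∧ a ∈ e ∧ a ≠ v) := Iff.rfl

lemma subG_eq {Q : SimpleGraph ℕ} {v x y : ℕ} (hx : x ≠ v) (hy : y ≠ v) (hxy : x ≠ y) :
    subG Q v s(x, y) =
      (Q \ SimpleGraph.edge x y) ⊔ (SimpleGraph.edge x v ⊔ SimpleGraph.edge v y) := by
  ext a b
  simp only [subG_adj, SimpleGraph.sup_adj, SimpleGraph.sdiff_adj, SimpleGraph.edge_adj,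
    Sym2.mem_iff, ne_eq, Sym2.eq_iff]
  constructor
  · rintro (⟨h1, h2⟩ | ⟨rfl, rfl | rfl, h⟩ | ⟨rfl, rfl | rfl, h⟩)
    · left
      exact ⟨h1, fun h => h2 (by tauto)⟩
    · right; left; exact ⟨Or.inr ⟨rfl, rfl⟩, fun h' => h h'.symm⟩
    · right; right; exact ⟨Or.inl ⟨rfl, rfl⟩, fun h' => h h'.symm⟩
    · right; left; exact ⟨Or.inl ⟨rfl, rfl⟩, h⟩
    · right; right; exact ⟨Or.inr ⟨rfl, rfl⟩, h⟩
  · rintro (⟨h1, h2⟩ | ⟨⟨rfl, rfl⟩ | ⟨rfl, rfl⟩, h⟩ | ⟨⟨rfl, rfl⟩ | ⟨rfl, rfl⟩, h⟩)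
    · left
      refine ⟨h1, fun h => h2 ⟨by tauto, h1.ne⟩⟩
    · right; right; exact ⟨rfl, Or.inl rfl, hx⟩
    · right; left; exact ⟨rfl, Or.inl rfl, hx⟩
    · right; left; exact ⟨rfl, Or.inr rfl, hy⟩
    · right; right; exact ⟨rfl, Or.inr rfl, hy⟩

section

variable {Q : SimpleGraph ℕ} {v x y : ℕ} (hv : v ∉ Q.support) (hxy : Q.Adj x y)

include hv hxy

lemma ne_x : x ≠ v := fun h => hv (h ▸ ⟨y, hxy⟩)
lemma ne_y : y ≠ v := fun h => hv (h ▸ ⟨x, hxy.symm⟩)

lemma nbr_v : (subG Q v s(x, y)).neighborSet v = {x, y} := by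
  have hx := ne_x hv hxy
  have hy := ne_y hv hxy
  ext b
  simp only [SimpleGraph.mem_neighborSet, subG_adj, Sym2.mem_iff, Set.mem_insert_iff,
    Set.mem_singleton_iff]
  constructor
  · rintro (⟨h1, _⟩ | ⟨_, h, _⟩ | ⟨rfl, _, h⟩)
    · exact absurd ⟨b, h1⟩ hv
    · exact h
    · exact absurd rfl h
  · intro h
    right; left
    refine ⟨trivial, h, ?_⟩
    rcases h with rfl | rfl
    · exact hx
    · exact hy

lemma deg_v : deg (subG Q v s(x, y)) v = 2 := by
  unfold deg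
  rw [nbr_v hv hxy]
  exact Set.ncard_pair hxy.ne

lemma nbr_x : (subG Q v s(x, y)).neighborSet x = insert v (Q.neighborSet x \ {y}) := by
  have hx := ne_x hv hxy
  have hy := ne_y hv hxy
  ext b
  simp only [SimpleGraph.mem_neighborSet, subG_adj, Sym2.mem_iff, Set.mem_insert_iff,
    Set.mem_sdiff, Set.mem_singleton_iff, ne_eq, Sym2.eq_iff]
  constructor
  · rintro (⟨h1, h2⟩ | ⟨h, _, _⟩ | ⟨rfl, _, h⟩)
    · right; exact ⟨h1, fun h => h2 (Or.inl ⟨trivial, h⟩)⟩
    · exact absurd h hx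
    · left; rfl
  · rintro (rfl | ⟨h1, h2⟩)
    · right; right; exact ⟨rfl, Or.inl trivial, hx⟩
    · left
      refine ⟨h1, ?_⟩
      rintro (⟨_, h⟩ | ⟨h, _⟩)
      · exact h2 h
      · exact hxy.ne h

lemma deg_x (hf : (Q.neighborSet x).Finite) : deg (subG Q v s(x, y)) x = deg Q x := by
  unfold deg
  rw [nbr_x hv hxy, Set.ncard_insert_of_notMem _ (hf.subset Set.sdiff_subset),
    Set.ncard_sdiff_singleton_add_one (show y ∈ Q.neighborSet x from hxy) hf]
  intro h
  exact hv ⟨x, (show Q.Adj x v from h.1).symm⟩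

lemma nbr_w {w : ℕ} (hwv : w ≠ v) (hwx : w ≠ x) (hwy : w ≠ y) :
    (subG Q v s(x, y)).neighborSet w = Q.neighborSet w := by
  ext b
  simp only [SimpleGraph.mem_neighborSet, subG_adj, Sym2.mem_iff, ne_eq, Sym2.eq_iff]
  constructor
  · rintro (⟨h1, _⟩ | ⟨h, _⟩ | ⟨_, h | h, _⟩)
    · exact h1
    · exact absurd h hwv
    · exact absurd h hwx
    · exact absurd h hwy
  · intro h
    left
    refine ⟨h, ?_⟩
    rintro (⟨h', _⟩ | ⟨h', _⟩)
    · exact hwx h'
    · exact hwy h'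

lemma edgeSet_sub : (subG Q v s(x, y)).edgeSet =
    insert s(v, x) (insert s(v, y) (Q.edgeSet \ {s(x, y)})) := by
  have hx := ne_x hv hxy
  have hy := ne_y hv hxy
  ext e
  induction e using Sym2.ind with
  | _ a b =>
    simp only [SimpleGraph.mem_edgeSet, subG_adj, Set.mem_insert_iff, Set.mem_sdiff,
      Set.mem_singleton_iff, Sym2.mem_iff]
    constructor
    · rintro (h | ⟨rfl, rfl | rfl, h⟩ | ⟨rfl, rfl | rfl, h⟩)
      · right; right; exact h
      · left; rfl
      · right; left; rfl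
      · left; exact Sym2.eq_swap
      · right; left; exact Sym2.eq_swap
    · rintro (h | h | h)
      · rw [Sym2.eq_iff] at h
        rcases h with ⟨rfl, rfl⟩ | ⟨rfl, rfl⟩
        · right; left; exact ⟨rfl, Or.inl rfl, hx⟩
        · right; right; exact ⟨rfl, Or.inl rfl, hx⟩
      · rw [Sym2.eq_iff] at h
        rcases h with ⟨rfl, rfl⟩ | ⟨rfl, rfl⟩
        · right; left; exact ⟨rfl, Or.inr rfl, hy⟩
        · right; right; exact ⟨rfl, Or.inr rfl, hy⟩
      · left; exact h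

lemma ne_sub (hf : Q.edgeSet.Finite) : ne (subG Q v s(x, y)) = ne Q + 1 := by
  have hx := ne_x hv hxy
  have hy := ne_y hv hxy
  unfold ne
  have hf' : (Q.edgeSet \ {s(x, y)}).Finite := hf.subset Set.sdiff_subset
  have hnm : ∀ z, s(v, z) ∉ Q.edgeSet := fun z h => hv ⟨z, h⟩
  rw [edgeSet_sub hv hxy, Set.ncard_insert_of_notMem _ (hf'.insert _),
    Set.ncard_insert_of_notMem _ hf',
    Set.ncard_sdiff_singleton_add_one (show s(x, y) ∈ Q.edgeSet from hxy) hf]
  · exact fun h => hnm y h.1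
  · rintro (h | h)
    · rw [Sym2.eq_iff] at h
      rcases h with ⟨_, h⟩ | ⟨h, _⟩
      · exact hxy.ne h
      · exact hy h.symm
    · exact hnm x h.1

end

lemma sub_mem {P : SimpleGraph ℕ → Prop} (hP : SurfClass P) {S : Finset ℕ} {v l : ℕ} (hvS : v ∈ S)
    {Q : SimpleGraph ℕ} (hQ : Q ∈ core P (S.erase v) l) {e : Sym2 ℕ} (he : e ∈ Q.edgeSet) :
    subG Q v e ∈ (core P S l).filter (fun Q' => deg Q' v = 2) := by
  unfold core at hQ ⊢
  rw [mem_filter] at hQ
  obtain ⟨hg, hPQ, hdeg, hne⟩ := hQ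
  have hsup : Q.support ⊆ ↑(S.erase v) := mem_graphsOn.mp hg
  have hv : v ∉ Q.support := fun h => by simpa using hsup h
  have hfin := finite_edgeSet hg
  induction e using Sym2.ind with
  | _ x y =>
    have hxy : Q.Adj x y := he
    have hx := ne_x hv hxy
    have hy := ne_y hv hxy
    have hxS : x ∈ S := Finset.mem_of_mem_erase (hsup ⟨y, hxy⟩)
    have hyS : y ∈ S := Finset.mem_of_mem_erase (hsup ⟨x, hxy.symm⟩)
    have hnf : ∀ w, (Q.neighborSet w).Finite := fun w => by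
      rw [nbr_eq hg w]; exact Finset.finite_toSet _
    rw [mem_filter, mem_filter]
    refine ⟨⟨?_, ?_, ?_, ?_⟩, deg_v hv hxy⟩
    · rw [mem_graphsOn]
      rintro a ⟨b, hab'⟩
      have hab : (subG Q v s(x, y)).Adj a b := hab'
      rw [subG_adj] at hab
      rcases hab with ⟨h, _⟩ | ⟨rfl, _, _⟩ | ⟨_, h, _⟩
      · exact Finset.mem_of_mem_erase (hsup ⟨b, h⟩)
      · exact hvS
      · rw [Sym2.mem_iff] at h
        rcases h with rfl | rfl
        · exact hxS
        · exact hyS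
    · rw [subG_eq hx hy hxy.ne]
      exact hP.subdiv Q x y v hfin hPQ hxy hv
    · intro w hw
      by_cases hwv : w = v
      · rw [hwv, deg_v hv hxy]
      · have hw' : 2 ≤ deg Q w := hdeg w (Finset.mem_erase.mpr ⟨hwv, hw⟩)
        by_cases hwx : w = x
        · rw [hwx, deg_x hv hxy (hnf x), ← hwx]; exact hw'
        · by_cases hwy : w = y
          · rw [hwy, Sym2.eq_swap, deg_x hv hxy.symm (hnf y), ← hwy]; exact hw'
          · unfold deg
            rw [nbr_w hv hxy hwv hwx hwy]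
            exact hw'
    · rw [ne_sub hv hxy hfin, hne, Finset.card_erase_of_mem hvS]
      have : 1 ≤ S.card := Finset.card_pos.mpr ⟨v, hvS⟩
      omega

lemma sub_inj {v : ℕ} {Q R : SimpleGraph ℕ} (hQ : v ∉ Q.support) (hR : v ∉ R.support)
    {e f : Sym2 ℕ} (he : e ∈ Q.edgeSet) (hf : f ∈ R.edgeSet) (h : subG Q v e = subG R v f) :
    Q = R ∧ e = f := by
  have hef : e = f := by
    induction e using Sym2.ind with
    | _ x y =>
      induction f using Sym2.ind with
      | _ z w =>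
        have h1 := nbr_v hQ (show Q.Adj x y from he)
        have h2 := nbr_v hR (show R.Adj z w from hf)
        rw [h, h2] at h1
        have hxy : x ≠ y := (show Q.Adj x y from he).ne
        have hx : x ∈ ({z, w} : Set ℕ) := by rw [h1]; simp
        have hy : y ∈ ({z, w} : Set ℕ) := by rw [h1]; simp
        simp only [Set.mem_insert_iff, Set.mem_singleton_iff] at hx hy
        rw [Sym2.eq_iff]
        rcases hx with rfl | rfl <;> rcases hy with rfl | rfl
        · exact absurd rfl hxy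
        · left; exact ⟨rfl, rfl⟩
        · right; exact ⟨rfl, rfl⟩
        · exact absurd rfl hxy
  subst hef
  refine ⟨?_, rfl⟩
  ext a b
  have key : ∀ {T U : SimpleGraph ℕ}, v ∉ T.support → e ∈ U.edgeSet → subG T v e = subG U v e →
      T.Adj a b → U.Adj a b := by
    intro T U hT hU hTU hab
    by_cases hs : s(a, b) = e
    · rw [← hs] at hU
      exact hU
    · have h1 : (subG T v e).Adj a b := Or.inl ⟨hab, hs⟩
      rw [hTU, subG_adj] at h1
      rcases h1 with h1 | ⟨rfl, _, _⟩ | ⟨rfl, _, _⟩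
      · exact h1.1
      · exact absurd ⟨b, hab⟩ hT
      · exact absurd ⟨a, hab.symm⟩ hT
  exact ⟨key hQ hf h, key hR he h.symm⟩

/-- For a fixed vertex. -/
lemma count_v (h : S_relabel) {P : SimpleGraph ℕ → Prop} (hP : SurfClass P) {k l v : ℕ}
    (hv : v ∈ range (k + 1)) :
    (k + l) * W P k l ≤ ((core P (range (k + 1)) l).filter (fun Q' => deg Q' v = 2)).card := by
  set S := range (k + 1) with hS
  have hcard : (S.erase v).card = k := by rw [Finset.card_erase_of_mem hv]; simp [hS]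
  have h1 : (core P (S.erase v) l).card = W P k l := by
    have := h P hP (fun _ => 1) (fun _ _ => rfl) (S.erase v) (range k) l (by rw [hcard, card_range])
    simpa [W] using this
  set A := (core P (S.erase v) l).attach.sigma
    (fun Q => (finite_edgeSet (Finset.mem_filter.mp Q.2).1).toFinset) with hA
  have hAc : A.card = (k + l) * W P k l := by
    rw [hA, Finset.card_sigma]
    have : ∀ Q ∈ (core P (S.erase v) l).attach,
        ((finite_edgeSet (Finset.mem_filter.mp Q.2).1).toFinset).card = k + l := by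
      intro Q _
      have h2 := (Finset.mem_filter.mp Q.2).2.2.2
      rw [hcard] at h2
      exact (Set.ncard_eq_toFinset_card _ (finite_edgeSet (Finset.mem_filter.mp Q.2).1)).symm.trans h2
    rw [Finset.sum_congr rfl this, Finset.sum_const, smul_eq_mul, Finset.card_attach, h1, mul_comm]
  rw [← hAc]
  refine Finset.card_le_card_of_injOn (fun p => subG p.1.1 v p.2) ?_ ?_
  · rintro ⟨⟨Q, hQ⟩, e⟩ hp
    simp only [hA, Finset.coe_sigma, Set.mem_sigma_iff, Finset.mem_coe, Set.Finite.mem_toFinset] at hp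
    exact sub_mem hP hv hQ hp.2
  · rintro ⟨⟨Q, hQ⟩, e⟩ hp ⟨⟨R, hR⟩, f⟩ hq hpq
    simp only [hA, Finset.coe_sigma, Set.mem_sigma_iff, Finset.mem_coe, Set.Finite.mem_toFinset] at hp hq
    have hQs : v ∉ Q.support := fun h => by
      simpa using mem_graphsOn.mp (Finset.mem_filter.mp hQ).1 h
    have hRs : v ∉ R.support := fun h => by
      simpa using mem_graphsOn.mp (Finset.mem_filter.mp hR).1 h
    obtain ⟨h1, h2⟩ := sub_inj hQs hRs hp.2 hq.2 hpq
    subst h1
    subst h2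
    rfl

lemma count_Q {P : SimpleGraph ℕ → Prop} {k l : ℕ} (hl : 1 ≤ l) {Q : SimpleGraph ℕ}
    (hQ : Q ∈ core P (range (k + 1)) l) :
    ((range (k + 1)).filter (fun v => deg Q v = 2)).card ≤ k := by
  unfold core at hQ
  rw [mem_filter] at hQ
  obtain ⟨hg, _, hdeg, hne⟩ := hQ
  by_contra hcon
  rw [not_le] at hcon
  have h1 : (range (k + 1)).filter (fun v => deg Q v = 2) = range (k + 1) := by
    apply Finset.eq_of_subset_of_card_le (Finset.filter_subset _ _)
    rw [card_range]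
    exact hcon
  have h2 := handshake hg
  have h3 : ∑ w ∈ range (k + 1), deg Q w = ∑ w ∈ range (k + 1), 2 := by
    refine Finset.sum_congr rfl (fun w hw => ?_)
    rw [← h1, mem_filter] at hw
    exact hw.2
  rw [h3, hne] at h2
  simp only [sum_const, card_range, smul_eq_mul] at h2
  omega

end PkgB1

open PkgB1 in
theorem pkgB1 (h : S_relabel) : S_W1 := by
  intro P hP k l hl
  have h1 : ∑ v ∈ range (k + 1), (k + l) * W P k l ≤
      ∑ v ∈ range (k + 1), ((core P (range (k + 1)) l).filter (fun Q' => deg Q' v = 2)).card :=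
    Finset.sum_le_sum (fun v hv => count_v h hP hv)
  have h2 : ∑ v ∈ range (k + 1), ((core P (range (k + 1)) l).filter (fun Q' => deg Q' v = 2)).card =
      ∑ Q' ∈ core P (range (k + 1)) l, ((range (k + 1)).filter (fun v => deg Q' v = 2)).card := by
    simp only [Finset.card_filter]
    rw [Finset.sum_comm]
  have h3 : ∑ Q' ∈ core P (range (k + 1)) l, ((range (k + 1)).filter (fun v => deg Q' v = 2)).card ≤
      ∑ Q' ∈ core P (range (k + 1)) l, k :=
    Finset.sum_le_sum (fun Q' hQ' => count_Q hl hQ')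
  rw [Finset.sum_const, card_range, smul_eq_mul] at h1
  rw [h2] at h1
  rw [Finset.sum_const, smul_eq_mul] at h3
  have h4 := le_trans h1 h3
  calc (k + l) * (k + 1) * W P k l = (k + 1) * ((k + l) * W P k l) := by ring
    _ ≤ _ := h4
    _ = k * W P (k + 1) l := by rw [W, mul_comm]

end GiantSurf57
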