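import Pool.Agent.GiantSurf57.PkgA3

/-!
# Package B2: cores with an isolated triangle
-/

open scoped Classical
open Finset

namespace GiantSurf57

namespace PkgB2

/-- the vertices counted by `isoTri` -/
def IsTri (Q : SimpleGraph ℕ) (v : ℕ) : Prop :=
  ∃ x y, x ≠ y ∧ Q.neighborSet v = {x, y} ∧ Q.Adj x y ∧ deg Q x = 2 ∧ deg Q y = 2

/-- the triangle of `v` -/
noncomputable def triT (S : Finset ℕ) (Q : SimpleGraph ℕ) (v : ℕ) : Finset ℕ :=
  S.filter (fun w => w = v ∨ Q.Adj v w)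

/-- the part of `Q` outside `T` -/
def outG (Q : SimpleGraph ℕ) (T : Finset ℕ) : SimpleGraph ℕ where
  Adj a b := Q.Adj a b ∧ a ∉ T ∧ b ∉ T
  symm := ⟨fun _ _ h => ⟨h.1.symm, h.2.2, h.2.1⟩⟩
  loopless := ⟨fun _ h => Q.loopless.irrefl _ h.1⟩

theorem neighborSet_finite {S : Finset ℕ} {Q : SimpleGraph ℕ} (h : Q ∈ graphsOn S) (v : ℕ) :
    (Q.neighborSet v).Finite := by
  rw [mem_graphsOn] at h
  refine Set.Finite.subset (Finset.finite_toSet S) (fun w hw => ?_)
  exact h ⟨v, (show Q.Adj v w from hw).symm⟩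

theorem nbr_of_deg_two {S : Finset ℕ} {Q : SimpleGraph ℕ} (h : Q ∈ graphsOn S) {x a b : ℕ}
    (hd : deg Q x = 2) (hab : a ≠ b) (ha : Q.Adj x a) (hb : Q.Adj x b) :
    Q.neighborSet x = {a, b} := by
  symm
  refine Set.eq_of_subset_of_ncard_le ?_ ?_ (neighborSet_finite h x)
  · rintro w (rfl | rfl)
    · exact ha
    · exact hb
  · rw [Set.ncard_pair hab]
    exact hd.le

theorem tri_structure {S : Finset ℕ} {Q : SimpleGraph ℕ} (h : Q ∈ graphsOn S) {v : ℕ}
    (hv : IsTri Q v) : ∃ x y, v ≠ x ∧ v ≠ y ∧ x ≠ y ∧ triT S Q v = {v, x, y} ∧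
      (∀ a ∈ triT S Q v, ∀ b, Q.Adj a b ↔ (b ∈ triT S Q v ∧ a ≠ b)) ∧ triT S Q v ⊆ S := by
  obtain ⟨x, y, hxy, hn, hadj, hdx, hdy⟩ := hv
  have hvx : Q.Adj v x := by
    have : x ∈ Q.neighborSet v := by rw [hn]; exact Or.inl rfl
    exact this
  have hvy : Q.Adj v y := by
    have : y ∈ Q.neighborSet v := by rw [hn]; exact Or.inr rfl
    exact this
  have hnx : Q.neighborSet x = {v, y} := nbr_of_deg_two h hdx hvy.ne hvx.symm hadj
  have hny : Q.neighborSet y = {v, x} := nbr_of_deg_two h hdy hvx.ne hvy.symm hadj.symm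
  have hS := mem_graphsOn.mp h
  have hvS : v ∈ S := hS ⟨x, hvx⟩
  have hxS : x ∈ S := hS ⟨v, hvx.symm⟩
  have hyS : y ∈ S := hS ⟨v, hvy.symm⟩
  have hT : triT S Q v = {v, x, y} := by
    ext w
    rw [triT, Finset.mem_filter, Finset.mem_insert, Finset.mem_insert, Finset.mem_singleton]
    have e : Q.Adj v w ↔ w = x ∨ w = y := by
      have : w ∈ Q.neighborSet v ↔ w ∈ ({x, y} : Set ℕ) := by rw [hn]
      exact this
    rw [e]
    constructor
    · exact fun hw => hw.2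
    · rintro (rfl | rfl | rfl)
      · exact ⟨hvS, Or.inl rfl⟩
      · exact ⟨hxS, Or.inr (Or.inl rfl)⟩
      · exact ⟨hyS, Or.inr (Or.inr rfl)⟩
  refine ⟨x, y, hvx.ne, hvy.ne, hxy, hT, ?_, Finset.filter_subset _ _⟩
  rw [hT]
  intro a ha b
  rw [Finset.mem_insert, Finset.mem_insert, Finset.mem_singleton] at ha ⊢
  have hvxn := hvx.ne
  have hvyn := hvy.ne
  rcases ha with rfl | rfl | rfl
  · have : Q.Adj a b ↔ b = x ∨ b = y := by
      have : b ∈ Q.neighborSet a ↔ b ∈ ({x, y} : Set ℕ) := by rw [hn]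
      exact this
    rw [this]
    constructor
    · rintro (rfl | rfl)
      · exact ⟨Or.inr (Or.inl rfl), hvxn⟩
      · exact ⟨Or.inr (Or.inr rfl), hvyn⟩
    · rintro ⟨rfl | rfl | rfl, hne⟩
      · exact absurd rfl hne
      · exact Or.inl rfl
      · exact Or.inr rfl
  · have : Q.Adj a b ↔ b = v ∨ b = y := by
      have : b ∈ Q.neighborSet a ↔ b ∈ ({v, y} : Set ℕ) := by rw [hnx]
      exact this
    rw [this]
    constructor
    · rintro (rfl | rfl)
      · exact ⟨Or.inl rfl, hvxn.symm⟩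
      · exact ⟨Or.inr (Or.inr rfl), hxy⟩
    · rintro ⟨rfl | rfl | rfl, hne⟩
      · exact Or.inl rfl
      · exact absurd rfl hne
      · exact Or.inr rfl
  · have : Q.Adj a b ↔ b = v ∨ b = x := by
      have : b ∈ Q.neighborSet a ↔ b ∈ ({v, x} : Set ℕ) := by rw [hny]
      exact this
    rw [this]
    constructor
    · rintro (rfl | rfl)
      · exact ⟨Or.inl rfl, hvyn.symm⟩
      · exact ⟨Or.inr (Or.inl rfl), hxy.symm⟩
    · rintro ⟨rfl | rfl | rfl, hne⟩
      · exact Or.inl rfl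
      · exact Or.inr rfl
      · exact absurd rfl hne

theorem adj_outG {Q : SimpleGraph ℕ} {T : Finset ℕ}
    (hT : ∀ a ∈ T, ∀ b, Q.Adj a b ↔ (b ∈ T ∧ a ≠ b)) (a b : ℕ) :
    Q.Adj a b ↔ ((a ∈ T ∧ b ∈ T ∧ a ≠ b) ∨ (outG Q T).Adj a b) := by
  constructor
  · intro h
    by_cases ha : a ∈ T
    · exact Or.inl ⟨ha, (hT a ha b).mp h⟩
    · by_cases hb : b ∈ T
      · exact absurd ((hT b hb a).mp h.symm).1 ha
      · exact Or.inr ⟨h, ha, hb⟩
  · rintro (⟨ha, hb, hne⟩ | h)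
    · exact (hT a ha b).mpr ⟨hb, hne⟩
    · exact h.1

theorem ne_outG {S : Finset ℕ} {Q : SimpleGraph ℕ} (h : Q ∈ graphsOn S) {v x y : ℕ}
    (hvx : v ≠ x) (hvy : v ≠ y) (hxy : x ≠ y)
    (hT : ∀ a ∈ ({v, x, y} : Finset ℕ), ∀ b, Q.Adj a b ↔ (b ∈ ({v, x, y} : Finset ℕ) ∧ a ≠ b)) :
    ne Q = ne (outG Q {v, x, y}) + 3 := by
  have h1 : Q.edgeSet = (outG Q {v, x, y}).edgeSet ∪ {s(v, x), s(v, y), s(x, y)} := by
    ext z
    induction z using Sym2.ind with
    | _ a b =>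
      rw [Set.mem_union, SimpleGraph.mem_edgeSet, SimpleGraph.mem_edgeSet, adj_outG hT]
      rw [or_comm]
      refine or_congr_right ?_
      simp only [Finset.mem_insert, Finset.mem_singleton, Set.mem_insert_iff,
        Set.mem_singleton_iff, Sym2.eq_iff]
      constructor
      · rintro ⟨rfl | rfl | rfl, rfl | rfl | rfl, hne⟩ <;> simp_all
      · rintro ((⟨rfl, rfl⟩ | ⟨rfl, rfl⟩) | (⟨rfl, rfl⟩ | ⟨rfl, rfl⟩) | (⟨rfl, rfl⟩ | ⟨rfl, rfl⟩)) <;>
          simp_all [eq_comm]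
  have hfin : (outG Q {v, x, y}).edgeSet.Finite := by
    refine Set.Finite.subset (PkgA3.edgeSet_finite h) (fun z hz => ?_)
    rw [h1]
    exact Or.inl hz
  have hdisj : Disjoint (outG Q {v, x, y}).edgeSet ({s(v, x), s(v, y), s(x, y)} : Set (Sym2 ℕ)) := by
    rw [Set.disjoint_left]
    intro z hz hz2
    simp only [Set.mem_insert_iff, Set.mem_singleton_iff] at hz2
    rcases hz2 with rfl | rfl | rfl
    · exact hz.2.1 (by simp)
    · exact hz.2.1 (by simp)
    · exact hz.2.1 (by simp)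
  have h3 : ({s(v, x), s(v, y), s(x, y)} : Set (Sym2 ℕ)).ncard = 3 := by
    rw [Set.ncard_eq_three]
    refine ⟨s(v, x), s(v, y), s(x, y), ?_, ?_, ?_, rfl⟩
    · intro he
      rw [Sym2.eq_iff] at he
      rcases he with ⟨_, he⟩ | ⟨he, _⟩
      · exact hxy he
      · exact hvy he
    · intro he
      rw [Sym2.eq_iff] at he
      rcases he with ⟨he, _⟩ | ⟨he, _⟩
      · exact hvx he
      · exact hvy he
    · intro he
      rw [Sym2.eq_iff] at he
      rcases he with ⟨he, _⟩ | ⟨he, _⟩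
      · exact hvx he
      · exact hvy he
  rw [ne, ne, h1, Set.ncard_union_eq hdisj hfin (Set.toFinite _), h3]

theorem deg_outG {Q : SimpleGraph ℕ} {T : Finset ℕ}
    (hT : ∀ a ∈ T, ∀ b, Q.Adj a b ↔ (b ∈ T ∧ a ≠ b)) {w : ℕ} (hw : w ∉ T) :
    deg (outG Q T) w = deg Q w := by
  rw [deg, deg]
  congr 1
  ext b
  rw [SimpleGraph.mem_neighborSet, SimpleGraph.mem_neighborSet, adj_outG hT]
  constructor
  · exact fun h => Or.inr h
  · rintro (h | h)
    · exact absurd h.1 hw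
    · exact h

theorem outG_mem_core {P : SimpleGraph ℕ → Prop} (hP : SurfClass P) {S : Finset ℕ} {l : ℕ}
    {Q : SimpleGraph ℕ} (hQ : Q ∈ core P S l) {v : ℕ} (hv : IsTri Q v) :
    triT S Q v ∈ Finset.powersetCard 3 S ∧ v ∈ triT S Q v ∧
      outG Q (triT S Q v) ∈ core P (S \ triT S Q v) l := by
  have hQ' := hQ
  rw [core, Finset.mem_filter] at hQ'
  obtain ⟨h1, h2, h3, h4⟩ := hQ'
  obtain ⟨x, y, hvx, hvy, hxy, hT, hadj, hsub⟩ := tri_structure h1 hv
  have hcard : (triT S Q v).card = 3 := by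
    rw [hT]
    exact Finset.card_eq_three.mpr ⟨v, x, y, hvx, hvy, hxy, rfl⟩
  refine ⟨Finset.mem_powersetCard.mpr ⟨hsub, hcard⟩, by rw [hT]; simp, ?_⟩
  have hne : ne Q = ne (outG Q (triT S Q v)) + 3 := by
    rw [hT] at hadj ⊢
    exact ne_outG h1 hvx hvy hxy hadj
  rw [core, Finset.mem_filter]
  refine ⟨?_, ?_, ?_, ?_⟩
  · rw [mem_graphsOn]
    rintro a ⟨b, hab⟩
    rw [Finset.coe_sdiff]
    exact ⟨mem_graphsOn.mp h1 ⟨b, hab.1⟩, hab.2.1⟩
  · exact hP.mono _ Q (PkgA3.edgeSet_finite h1) (fun a b hab => hab.1) h2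
  · intro w hw
    rw [Finset.mem_sdiff] at hw
    rw [deg_outG hadj hw.2]
    exact h3 w hw.1
  · have h5 := Finset.card_sdiff_of_subset hsub
    have h6 := Finset.card_le_card hsub
    omega

end PkgB2

open PkgB2 in
theorem pkgB2 (hrel : S_relabel) : S_tri := by
  intro P hP k l
  set S := range (k + 3) with hS
  have h1 : ∀ Q ∈ core P S l, isoTri Q = (S.filter (IsTri Q)).card := by
    intro Q hQ
    rw [core, Finset.mem_filter] at hQ
    have h2 : {v : ℕ | ∃ x y, x ≠ y ∧ Q.neighborSet v = {x, y} ∧ Q.Adj x y ∧ deg Q x = 2 ∧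
        deg Q y = 2} = ↑(S.filter (IsTri Q)) := by
      ext v
      rw [Finset.coe_filter]
      constructor
      · intro hv
        have hv' := hv
        obtain ⟨x, y, _, hn, _⟩ := hv'
        have hvx : Q.Adj v x := by
          have : x ∈ Q.neighborSet v := by rw [hn]; exact Or.inl rfl
          exact this
        exact ⟨mem_graphsOn.mp hQ.1 ⟨x, hvx⟩, hv⟩
      · exact fun hv => hv.2
    rw [isoTri, h2, Set.ncard_coe_finset]
  rw [Finset.sum_congr rfl h1, ← Finset.card_sigma]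
  have hW : ∀ T ∈ Finset.powersetCard 3 S, (core P (S \ T) l).card = W P k l := by
    intro T hT
    rw [Finset.mem_powersetCard] at hT
    have h5 := Finset.card_sdiff_of_subset hT.1
    have h6 : (S \ T).card = (range k).card := by
      rw [h5, hT.2, hS, Finset.card_range, Finset.card_range]
      omega
    have := hrel P hP (fun _ => 1) (fun _ _ => rfl) (S \ T) (range k) l h6
    rw [W, Finset.card_eq_sum_ones, this, ← Finset.card_eq_sum_ones]
  have htarget : ((Finset.powersetCard 3 S).sigma (fun T => T ×ˢ core P (S \ T) l)).card =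
      3 * (k + 3).choose 3 * W P k l := by
    rw [Finset.card_sigma]
    have : ∀ T ∈ Finset.powersetCard 3 S, (T ×ˢ core P (S \ T) l).card = 3 * W P k l := by
      intro T hT
      rw [Finset.card_product, hW T hT, (Finset.mem_powersetCard.mp hT).2]
    rw [Finset.sum_congr rfl this, Finset.sum_const, Finset.card_powersetCard, hS,
      Finset.card_range, smul_eq_mul]
    ring
  rw [← htarget]
  refine Finset.card_le_card_of_injOn
    (fun p => ⟨triT S p.1 p.2, (p.2, outG p.1 (triT S p.1 p.2))⟩) ?_ ?_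
  · rintro ⟨Q, v⟩ hp
    have hp' := Finset.mem_coe.mp hp
    rw [Finset.mem_sigma, Finset.mem_filter] at hp'
    obtain ⟨hQ, _, hv⟩ := hp'
    obtain ⟨m1, m2, m3⟩ := outG_mem_core hP hQ hv
    refine Finset.mem_coe.mpr ?_
    rw [Finset.mem_sigma, Finset.mem_product]
    exact ⟨m1, m2, m3⟩
  · rintro ⟨Q, v⟩ hp ⟨Q', v'⟩ hp' heq
    have hp1 := Finset.mem_coe.mp hp
    have hp1' := Finset.mem_coe.mp hp'
    rw [Finset.mem_sigma, Finset.mem_filter] at hp1 hp1'
    obtain ⟨hQ, _, hv⟩ := hp1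
    obtain ⟨hQ', _, hv'⟩ := hp1'
    simp only [Sigma.mk.injEq] at heq
    obtain ⟨hT, h2⟩ := heq
    have h3 : v = v' ∧ outG Q (triT S Q v) = outG Q' (triT S Q' v') := by
      have := eq_of_heq h2
      exact ⟨congrArg Prod.fst this, congrArg Prod.snd this⟩
    obtain ⟨rfl, h4⟩ := h3
    simp only at hQ hQ' hv hv'
    rw [core, Finset.mem_filter] at hQ hQ'
    obtain ⟨_, _, _, _, _, _, hadj, _⟩ := tri_structure hQ.1 hv
    obtain ⟨_, _, _, _, _, _, hadj', _⟩ := tri_structure hQ'.1 hv'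
    have hQQ : Q = Q' := by
      ext a b
      rw [adj_outG hadj, adj_outG hadj', ← h4, ← hT]
    rw [hQQ]

end GiantSurf57
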