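import Pool.Agent.GiantSurf57.PkgB34

/-!
# Package B3: suppressing a vertex of degree 2
-/

open scoped Classical
open Finset

namespace GiantSurf57

namespace PkgB3

open PkgB34

/-- Vertices that can not be suppressed. -/
theorem card_le {P : SimpleGraph ℕ → Prop} {S : Finset ℕ} {l : ℕ} {Q : SimpleGraph ℕ}
    (hQ : Q ∈ core P S l) : S.card ≤ (S.filter (Supp Q)).card + 8 * l + isoTri Q := by
  obtain ⟨hS, -, hd, hne⟩ := mem_core.1 hQ
  -- branch vertices
  set B := S.filter (fun v => 3 ≤ deg Q v) with hB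
  set N := B.biUnion (fun b => S.filter (Q.Adj b)) with hN
  have hsum : ∑ v ∈ S, deg Q v = 2 * (S.card + l) := by rw [handshake_all hS, hne]
  have hbr : ∑ v ∈ B, deg Q v + 2 * (S.filter (fun v => ¬ 3 ≤ deg Q v)).card = 2 * (S.card + l) := by
    rw [← hsum, hB, ← Finset.sum_filter_add_sum_filter_not S (fun v => 3 ≤ deg Q v)]
    congr 1
    have : ∀ v ∈ S.filter (fun v => ¬ 3 ≤ deg Q v), deg Q v = 2 := by
      intro v hv
      rw [mem_filter] at hv
      have := hd v hv.1
      omega
    rw [Finset.sum_congr rfl this, Finset.sum_const, smul_eq_mul, mul_comm]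
  have hcard : B.card + (S.filter (fun v => ¬ 3 ≤ deg Q v)).card = S.card := by
    rw [hB]; exact Finset.card_filter_add_card_filter_not _
  have h3 : 3 * B.card ≤ ∑ v ∈ B, deg Q v := by
    rw [mul_comm, ← smul_eq_mul]
    refine Finset.card_nsmul_le_sum _ _ _ ?_
    intro v hv
    exact (mem_filter.1 hv).2
  have hNcard : N.card ≤ ∑ v ∈ B, deg Q v := by
    rw [hN]
    refine Finset.card_biUnion_le.trans (Finset.sum_le_sum fun b _ => ?_)
    rw [deg_eq hS]
  have htri : isoTri Q = (S.filter (fun v => ∃ x y, x ≠ y ∧ Q.neighborSet v = {x, y} ∧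
      Q.Adj x y ∧ deg Q x = 2 ∧ deg Q y = 2)).card := by
    rw [isoTri, ← Set.ncard_coe_finset]
    congr 1
    ext v
    simp only [Set.mem_ofPred_eq, coe_filter]
    constructor
    · rintro ⟨x, y, h1, h2, h3⟩
      exact ⟨hS ⟨x, (adj_v h2 x).2 (Or.inl rfl)⟩, x, y, h1, h2, h3⟩
    · rintro ⟨_, h⟩
      exact h
  have hcov : S ⊆ (S.filter (Supp Q) ∪ (B ∪ N)) ∪ S.filter (fun v => ∃ x y, x ≠ y ∧
      Q.neighborSet v = {x, y} ∧ Q.Adj x y ∧ deg Q x = 2 ∧ deg Q y = 2) := by
    intro v hv
    by_cases h : 3 ≤ deg Q v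
    · simp only [mem_union]
      left; right; left
      rw [hB, mem_filter]; exact ⟨hv, h⟩
    · have h2 : deg Q v = 2 := by have := hd v hv; omega
      rw [deg, Set.ncard_eq_two] at h2
      obtain ⟨x, y, hxy, hNv⟩ := h2
      have hvx : Q.Adj v x := (adj_v hNv x).2 (Or.inl rfl)
      have hvy : Q.Adj v y := (adj_v hNv y).2 (Or.inr rfl)
      have hx : x ∈ S := hS ⟨v, hvx.symm⟩
      have hy : y ∈ S := hS ⟨v, hvy.symm⟩
      by_cases hA : Q.Adj x y
      · by_cases hx3 : 3 ≤ deg Q x
        · simp only [mem_union]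
          left; right; right
          rw [hN, mem_biUnion]
          exact ⟨x, mem_filter.2 ⟨hx, hx3⟩, mem_filter.2 ⟨hv, hvx.symm⟩⟩
        · by_cases hy3 : 3 ≤ deg Q y
          · simp only [mem_union]
            left; right; right
            rw [hN, mem_biUnion]
            exact ⟨y, mem_filter.2 ⟨hy, hy3⟩, mem_filter.2 ⟨hv, hvy.symm⟩⟩
          · rw [mem_union]
            right
            rw [mem_filter]
            have h1 := hd x hx
            have h2 := hd y hy
            exact ⟨hv, x, y, hxy, hNv, hA, by omega, by omega⟩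
      · simp only [mem_union]
        left; left
        rw [mem_filter]
        exact ⟨hv, x, y, hxy, hNv, hA⟩
  have h1 := Finset.card_le_card hcov
  have h2 := Finset.card_union_le (S.filter (Supp Q) ∪ (B ∪ N)) (S.filter (fun v => ∃ x y, x ≠ y ∧
      Q.neighborSet v = {x, y} ∧ Q.Adj x y ∧ deg Q x = 2 ∧ deg Q y = 2))
  have h4 := Finset.card_union_le (S.filter (Supp Q)) (B ∪ N)
  have h5 := Finset.card_union_le B N
  rw [← htri] at h2
  omega

end PkgB3

open PkgB34 PkgB3 in
theorem pkgB3 (h1 : S_relabel) : S_W2 := by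
  intro P hP k l
  set S := range (k + 1) with hS
  have hcS : S.card = k + 1 := by rw [hS, card_range]
  have hW : W P (k + 1) l = (core P S l).card := rfl
  -- sum over Q of the number of suppressible vertices
  have hA : ∑ Q ∈ core P S l, (S.filter (Supp Q)).card ≤ (k + 1) * (k + l) * W P k l := by
    have e1 : ∑ Q ∈ core P S l, (S.filter (Supp Q)).card =
        ∑ v ∈ S, ((core P S l).filter (fun Q => Supp Q v)).card := by
      simp only [Finset.card_filter]
      exact Finset.sum_comm
    rw [e1]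
    have e2 : ∀ v ∈ S, ((core P S l).filter (fun Q => Supp Q v)).card ≤ (k + l) * W P k l := by
      intro v hv
      have hcv : (S.erase v).card = k := by
        have := Finset.card_erase_add_one hv; omega
      have e3 := count_le (v := v) hP ((core P S l).filter (fun Q => Supp Q v)) (fun Q => EF Q S) (by
        intro Q hQ
        rw [mem_filter] at hQ
        obtain ⟨hc, x, y, hxy, hN, hA⟩ := hQ
        refine ⟨hc, x, y, hxy, hN, hA, ?_⟩
        have hs := (mem_core.1 hc).1
        have hs' : (supG Q v).support ⊆ ↑S := fun a ha => (Finset.erase_subset v S) (supG_support hs ha)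
        rw [mem_EF hs', SimpleGraph.mem_edgeSet, supG_adj hxy hN]
        exact Or.inr (Or.inl ⟨rfl, rfl⟩))
      refine e3.trans ?_
      have e4 : ∀ Q ∈ core P (S.erase v) l, (EF Q S).card = k + l := by
        intro Q hQ
        obtain ⟨hs, -, -, hne⟩ := mem_core.1 hQ
        have hs' : Q.support ⊆ ↑S := fun a ha => (Finset.erase_subset v S) (hs ha)
        rw [← nedge_eq hs', hne, hcv]
      rw [Finset.sum_congr rfl e4, Finset.sum_const, smul_eq_mul, mul_comm]
      have e5 := h1 P hP (fun _ => 1) (fun _ _ => rfl) (S.erase v) (range k) l (by rw [hcv, card_range])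
      simp only [Finset.sum_const, smul_eq_mul, mul_one] at e5
      rw [e5]
      rfl
    refine (Finset.sum_le_sum e2).trans ?_
    rw [Finset.sum_const, smul_eq_mul, hcS, mul_assoc]
  have hB : ∑ Q ∈ core P S l, S.card ≤
      ∑ Q ∈ core P S l, ((S.filter (Supp Q)).card + 8 * l + isoTri Q) :=
    Finset.sum_le_sum fun Q hQ => card_le hQ
  rw [Finset.sum_add_distrib, Finset.sum_add_distrib, Finset.sum_const, Finset.sum_const,
    smul_eq_mul, smul_eq_mul, hcS, ← hW] at hB
  have e6 : W P (k + 1) l * (k + 1) = (k + 1) * W P (k + 1) l := mul_comm _ _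
  have e7 : W P (k + 1) l * (8 * l) = 8 * l * W P (k + 1) l := mul_comm _ _
  rw [e6, e7] at hB
  linarith

end GiantSurf57
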