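import Pool.Agent.GiantSurf57.PkgB34

/-!
# Package B4: vertices on isolated cycles
-/

open scoped Classical
open Finset

namespace GiantSurf57

namespace PkgB4

open PkgB34

/-- `v` lies on a component that is a cycle. -/
def Cyc (Q : SimpleGraph ℕ) (v : ℕ) : Prop := ∀ w, Q.Reachable v w → deg Q w = 2

theorem Cyc.deg {Q : SimpleGraph ℕ} {v : ℕ} (h : Cyc Q v) : deg Q v = 2 :=
  h v (SimpleGraph.Reachable.refl v)

theorem Cyc.adj {Q : SimpleGraph ℕ} {v w : ℕ} (h : Cyc Q v) (hvw : Q.Adj v w) : Cyc Q w :=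
  fun u hu => h u (hvw.reachable.trans hu)

theorem Cyc.mem {Q : SimpleGraph ℕ} {S : Finset ℕ} (hS : Q.support ⊆ ↑S) {v : ℕ} (h : Cyc Q v) :
    v ∈ S := by
  have h2 := h.deg
  rw [GiantSurf57.deg, Set.ncard_eq_two] at h2
  obtain ⟨x, y, _, hN⟩ := h2
  exact hS ⟨x, (adj_v hN x).2 (Or.inl rfl)⟩

theorem isoCyc_eq {Q : SimpleGraph ℕ} {S : Finset ℕ} (hS : Q.support ⊆ ↑S) :
    isoCyc Q = (S.filter (Cyc Q)).card := by
  rw [isoCyc, ← Set.ncard_coe_finset]
  congr 1
  ext v
  simp only [Set.mem_ofPred_eq, coe_filter]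
  exact ⟨fun h => ⟨Cyc.mem hS h, h⟩, fun h => h.2⟩

/-- The number of edges on isolated cycles is the number of vertices on them. -/
theorem card_edges {Q : SimpleGraph ℕ} {S : Finset ℕ} (hS : Q.support ⊆ ↑S) :
    ((EF Q S).filter (fun e => ∀ x ∈ e, x ∈ S.filter (Cyc Q))).card = isoCyc Q := by
  have h := handshake hS (S.filter (Cyc Q)) (Finset.filter_subset _ _) (by
    intro a ha b hab
    rw [mem_filter] at ha ⊢
    exact ⟨hS ⟨a, hab.symm⟩, ha.2.adj hab⟩)
  have h2 : ∑ v ∈ S.filter (Cyc Q), GiantSurf57.deg Q v = (S.filter (Cyc Q)).card * 2 := by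
    rw [← smul_eq_mul, ← Finset.sum_const]
    exact Finset.sum_congr rfl fun v hv => (mem_filter.1 hv).2.deg
  rw [h2] at h
  rw [isoCyc_eq hS]
  omega

theorem reach_supG {Q : SimpleGraph ℕ} {v a b : ℕ} (h : (supG Q v).Reachable a b) :
    Q.Reachable a b := by
  obtain ⟨p⟩ := h
  induction p with
  | nil => exact SimpleGraph.Reachable.refl _
  | cons h _ ih =>
    refine SimpleGraph.Reachable.trans ?_ ih
    rcases h.2.2.2 with h1 | ⟨h1, h2⟩
    · exact h1.reachable
    · exact h1.symm.reachable.trans h2.reachable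

theorem supG_isol {Q : SimpleGraph ℕ} {v a : ℕ} (ha : a ≠ v) : ¬ (supG Q v).Reachable a v := by
  intro h
  obtain ⟨p⟩ := h.symm
  cases p with
  | nil => exact ha rfl
  | cons h _ => exact h.2.1 rfl

theorem cyc_supG {Q : SimpleGraph ℕ} {S : Finset ℕ} (hS : Q.support ⊆ ↑S) {v x y a : ℕ}
    (hxy : x ≠ y) (hN : Q.neighborSet v = {x, y}) (hA : ¬ Q.Adj x y) (ha : a ≠ v) (h : Cyc Q a) :
    Cyc (supG Q v) a := by
  intro w hw
  have hwv : w ≠ v := by
    rintro rfl
    exact supG_isol ha hw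
  rw [supG_deg hS hxy hN hA hwv]
  exact h w (reach_supG hw)

/-- The vertices on isolated cycles are suppressible or on isolated triangles. -/
theorem card_le {Q : SimpleGraph ℕ} {S : Finset ℕ} (hS : Q.support ⊆ ↑S) :
    isoCyc Q ≤ (S.filter (fun v => Cyc Q v ∧ Supp Q v)).card + isoTri Q := by
  have htri : isoTri Q = (S.filter (fun v => ∃ x y, x ≠ y ∧ Q.neighborSet v = {x, y} ∧
      Q.Adj x y ∧ GiantSurf57.deg Q x = 2 ∧ GiantSurf57.deg Q y = 2)).card := by
    rw [isoTri, ← Set.ncard_coe_finset]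
    congr 1
    ext v
    simp only [Set.mem_ofPred_eq, coe_filter]
    constructor
    · rintro ⟨x, y, h1, h2, h3⟩
      exact ⟨hS ⟨x, (adj_v h2 x).2 (Or.inl rfl)⟩, x, y, h1, h2, h3⟩
    · rintro ⟨_, h⟩
      exact h
  rw [htri, isoCyc_eq hS]
  refine (Finset.card_le_card ?_).trans (Finset.card_union_le _ _)
  intro v hv
  rw [mem_filter] at hv
  obtain ⟨hvS, hc⟩ := hv
  have h2 := hc.deg
  rw [GiantSurf57.deg, Set.ncard_eq_two] at h2
  obtain ⟨x, y, hxy, hN⟩ := h2
  have hvx : Q.Adj v x := (adj_v hN x).2 (Or.inl rfl)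
  have hvy : Q.Adj v y := (adj_v hN y).2 (Or.inr rfl)
  rw [mem_union]
  by_cases hA : Q.Adj x y
  · right
    rw [mem_filter]
    exact ⟨hvS, x, y, hxy, hN, hA, (hc.adj hvx).deg, (hc.adj hvy).deg⟩
  · left
    rw [mem_filter]
    exact ⟨hvS, hc, x, y, hxy, hN, hA⟩

end PkgB4

open PkgB34 PkgB4 in
theorem pkgB4 (h1 : S_relabel) (h2 : S_inv) : S_cyc := by
  intro P hP k l
  set S := range (k + 1) with hS
  have hcS : S.card = k + 1 := by rw [hS, card_range]
  have hA : ∑ Q ∈ core P S l, (S.filter (fun v => Cyc Q v ∧ Supp Q v)).card ≤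
      (k + 1) * ∑ Q ∈ core P (range k) l, isoCyc Q := by
    have e1 : ∑ Q ∈ core P S l, (S.filter (fun v => Cyc Q v ∧ Supp Q v)).card =
        ∑ v ∈ S, ((core P S l).filter (fun Q => Cyc Q v ∧ Supp Q v)).card := by
      simp only [Finset.card_filter]
      exact Finset.sum_comm
    rw [e1]
    have e2 : ∀ v ∈ S, ((core P S l).filter (fun Q => Cyc Q v ∧ Supp Q v)).card ≤
        ∑ Q ∈ core P (range k) l, isoCyc Q := by
      intro v hv
      have hcv : (S.erase v).card = k := by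
        have := Finset.card_erase_add_one hv; omega
      have e3 := count_le (v := v) hP ((core P S l).filter (fun Q => Cyc Q v ∧ Supp Q v))
        (fun Q => (EF Q S).filter (fun e => ∀ x ∈ e, x ∈ S.filter (Cyc Q))) (by
        intro Q hQ
        rw [mem_filter] at hQ
        obtain ⟨hc, hcyc, x, y, hxy, hN, hA⟩ := hQ
        refine ⟨hc, x, y, hxy, hN, hA, ?_⟩
        have hs := (mem_core.1 hc).1
        have hs' : (supG Q v).support ⊆ ↑S := fun a ha => (Finset.erase_subset v S) (supG_support hs ha)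
        have hvx : Q.Adj v x := (adj_v hN x).2 (Or.inl rfl)
        have hvy : Q.Adj v y := (adj_v hN y).2 (Or.inr rfl)
        rw [mem_filter, mem_EF hs', SimpleGraph.mem_edgeSet, supG_adj hxy hN]
        refine ⟨Or.inr (Or.inl ⟨rfl, rfl⟩), ?_⟩
        intro z hz
        rw [Sym2.mem_iff] at hz
        rw [mem_filter]
        rcases hz with rfl | rfl
        · exact ⟨hs ⟨v, hvx.symm⟩, cyc_supG hs hxy hN hA hvx.ne' (hcyc.adj hvx)⟩
        · exact ⟨hs ⟨v, hvy.symm⟩, cyc_supG hs hxy hN hA hvy.ne' (hcyc.adj hvy)⟩)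
      refine e3.trans (le_of_eq ?_)
      have e4 : ∀ Q ∈ core P (S.erase v) l,
          ((EF Q S).filter (fun e => ∀ x ∈ e, x ∈ S.filter (Cyc Q))).card = isoCyc Q := by
        intro Q hQ
        obtain ⟨hs, -, -, hne⟩ := mem_core.1 hQ
        have hs' : Q.support ⊆ ↑S := fun a ha => (Finset.erase_subset v S) (hs ha)
        exact card_edges hs'
      rw [Finset.sum_congr rfl e4]
      exact h1 P hP isoCyc (fun G e => (h2 G e).2.2.1) (S.erase v) (range k) l
        (by rw [hcv, card_range])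
    refine (Finset.sum_le_sum e2).trans ?_
    rw [Finset.sum_const, smul_eq_mul, hcS]
  have hB : ∑ Q ∈ core P S l, isoCyc Q ≤
      ∑ Q ∈ core P S l, ((S.filter (fun v => Cyc Q v ∧ Supp Q v)).card + isoTri Q) :=
    Finset.sum_le_sum fun Q hQ => card_le (mem_core.1 hQ).1
  rw [Finset.sum_add_distrib] at hB
  linarith

end GiantSurf57
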