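import Pool.Agent.GiantSurf57.Stmts
import Pool.Agent.GiantSurf57.Basic

/-!
# Package B5: vertices on isolated cycles, final bound
-/

open scoped Classical
open Finset

set_option autoImplicit false

namespace GiantSurf57

namespace PkgB5

/-- There are no triangles on fewer than three vertices. -/
lemma isoTri_eq_zero {S : Finset ℕ} {Q : SimpleGraph ℕ} (hQ : Q ∈ graphsOn S)
    (hS : S.card ≤ 2) : isoTri Q = 0 := by
  unfold isoTri
  have : {v : ℕ | ∃ x y, x ≠ y ∧ Q.neighborSet v = {x, y} ∧ Q.Adj x y ∧ deg Q x = 2 ∧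
      deg Q y = 2} = ∅ := by
    ext v
    simp only [Set.mem_ofPred_eq, Set.mem_empty_iff_false, iff_false]
    rintro ⟨x, y, hxy, hN, hA, -, -⟩
    have h1 : Q.Adj v x := by
      have : x ∈ Q.neighborSet v := by rw [hN]; simp
      exact this
    have h2 : Q.Adj v y := by
      have : y ∈ Q.neighborSet v := by rw [hN]; simp
      exact this
    have h3 : ({v, x, y} : Finset ℕ) ⊆ S := by
      intro z hz
      simp only [Finset.mem_insert, Finset.mem_singleton] at hz
      rcases hz with rfl | rfl | rfl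
      · exact adj_mem_left hQ h1
      · exact adj_mem_right hQ h1
      · exact adj_mem_right hQ h2
    have h4 : ({v, x, y} : Finset ℕ).card = 3 := by
      rw [Finset.card_eq_three]
      exact ⟨v, x, y, h1.ne, h2.ne, hxy, rfl⟩
    have := Finset.card_le_card h3
    omega
  rw [this]
  simp

lemma core_graphsOn {P : SimpleGraph ℕ → Prop} {S : Finset ℕ} {l : ℕ} {Q : SimpleGraph ℕ}
    (h : Q ∈ core P S l) : Q ∈ graphsOn S := (Finset.mem_filter.mp h).1

lemma sum_isoTri_eq_zero {P : SimpleGraph ℕ → Prop} {k l : ℕ} (hk : k ≤ 2) :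
    ∑ Q ∈ core P (range k) l, isoTri Q = 0 := by
  refine Finset.sum_eq_zero fun Q hQ => ?_
  exact isoTri_eq_zero (core_graphsOn hQ) (by simpa using hk)

lemma isoCyc_empty {Q : SimpleGraph ℕ} (hQ : Q ∈ graphsOn (range 0)) : isoCyc Q = 0 := by
  unfold isoCyc
  have : {v : ℕ | ∀ w, Q.Reachable v w → deg Q w = 2} = ∅ := by
    ext v
    simp only [Set.mem_ofPred_eq, Set.mem_empty_iff_false, iff_false]
    intro h
    have h1 := h v (SimpleGraph.Reachable.refl _)
    have h2 := deg_pos_mem hQ (v := v) (by omega)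
    simp at h2
  rw [this]
  simp

/-- Consequence of `S_W1`. -/
lemma W_succ (h1 : S_W1) {P : SimpleGraph ℕ → Prop} (hP : SurfClass P) (k : ℕ) {l : ℕ}
    (hl : 1 ≤ l) : (k + 1) * W P k l ≤ W P (k + 1) l := by
  have h := h1 P hP k l hl
  have h2 : (k + l) * ((k + 1) * W P k l) ≤ (k + l) * W P (k + 1) l := by
    calc (k + l) * ((k + 1) * W P k l) = (k + l) * (k + 1) * W P k l := by ring
      _ ≤ k * W P (k + 1) l := h
      _ ≤ (k + l) * W P (k + 1) l := Nat.mul_le_mul_right _ (by omega)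
  exact Nat.le_of_mul_le_mul_left h2 (by omega)

lemma three_choose (m : ℕ) : 6 * (m + 3).choose 3 = (m + 3) * (m + 2) * (m + 1) := by
  have h := Nat.descFactorial_eq_factorial_mul_choose (m + 3) 3
  have h2 : (m + 3).descFactorial 3 = (m + 3) * (m + 2) * (m + 1) := by
    simp only [Nat.descFactorial_succ, Nat.descFactorial_zero]
    have e1 : m + 3 - 2 = m + 1 := by omega
    have e2 : m + 3 - 1 = m + 2 := by omega
    rw [e1, e2, Nat.sub_zero]
    ring
  rw [h2] at h
  have h3 : (3 : ℕ).factorial = 6 := rfl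
  rw [h3] at h
  exact h.symm

/-- The number of vertices on isolated triangles, in terms of the number of vertices. -/
lemma tri_bound (h1 : S_W1) (h2 : S_tri) {P : SimpleGraph ℕ → Prop} (hP : SurfClass P)
    (k : ℕ) {l : ℕ} (hl : 1 ≤ l) :
    2 * ∑ Q ∈ core P (range (k + 1)) l, isoTri Q ≤ (k + 1) * W P k l := by
  by_cases hk : k < 2
  · rw [sum_isoTri_eq_zero (by omega)]
    simp
  · obtain ⟨m, rfl⟩ : ∃ m, k = m + 2 := ⟨k - 2, by omega⟩
    have h3 := h2 P hP m l
    have h4 := W_succ h1 hP m hl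
    have h5 := W_succ h1 hP (m + 1) hl
    have h6 := three_choose m
    have e : m + 2 + 1 = m + 3 := rfl
    rw [e]
    calc 2 * ∑ Q ∈ core P (range (m + 3)) l, isoTri Q ≤ 2 * (3 * (m + 3).choose 3 * W P m l) :=
          Nat.mul_le_mul_left _ h3
      _ = (6 * (m + 3).choose 3) * W P m l := by ring
      _ = (m + 3) * ((m + 2) * ((m + 1) * W P m l)) := by rw [h6]; ring
      _ ≤ (m + 3) * ((m + 2) * W P (m + 1) l) :=
          Nat.mul_le_mul_left _ (Nat.mul_le_mul_left _ h4)
      _ ≤ (m + 3) * W P (m + 2) l := Nat.mul_le_mul_left _ h5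

end PkgB5

open PkgB5 in
theorem pkgB5 (h1 : S_W1) (h2 : S_tri) (h3 : S_cyc) : S_cyc2 := by
  intro P hP k l hl
  induction k with
  | zero =>
    have : ∑ Q ∈ core P (range 0) l, isoCyc Q = 0 :=
      Finset.sum_eq_zero fun Q hQ => isoCyc_empty (core_graphsOn hQ)
    rw [this]
    simp
  | succ k ih =>
    have h4 := h3 P hP k l
    have h5 := tri_bound h1 h2 hP k hl
    have h6 := h1 P hP k l hl
    calc 2 * ∑ Q ∈ core P (range (k + 1)) l, isoCyc Q
        ≤ 2 * ((k + 1) * ∑ Q ∈ core P (range k) l, isoCyc Q +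
          ∑ Q ∈ core P (range (k + 1)) l, isoTri Q) := Nat.mul_le_mul_left _ h4
      _ = (k + 1) * (2 * ∑ Q ∈ core P (range k) l, isoCyc Q) +
          2 * ∑ Q ∈ core P (range (k + 1)) l, isoTri Q := by ring
      _ ≤ (k + 1) * (k * W P k l) + (k + 1) * W P k l :=
          Nat.add_le_add (Nat.mul_le_mul_left _ ih) h5
      _ = (k + 1) * (k + 1) * W P k l := by ring
      _ ≤ (k + l) * (k + 1) * W P k l :=
          Nat.mul_le_mul_right _ (Nat.mul_le_mul_right _ (by omega))
      _ ≤ k * W P (k + 1) l := h6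
      _ ≤ (k + 1) * W P (k + 1) l := Nat.mul_le_mul_right _ (by omega)

end GiantSurf57
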