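import Pool.Agent.GiantSurf57.StmtsTop
import Pool.Agent.GiantSurf57.Basic

/-!
# Package C1: few threads
-/

open scoped Classical
open Finset

namespace GiantSurf57

namespace PkgC1

/-- `p, v, L, c` is a walk that does not turn back. -/
def Good (Q : SimpleGraph ℕ) : ℕ → ℕ → List ℕ → ℕ → Prop
  | p, v, [], c => Q.Adj v c ∧ c ≠ p
  | p, v, m :: M, c => Q.Adj v m ∧ m ≠ p ∧ Good Q v m M c

/-- first vertex of `L ++ [c]` -/
def hd : List ℕ → ℕ → ℕ
  | [], c => c
  | v :: _, _ => v

theorem good_of_chn {Q : SimpleGraph ℕ} (M : List ℕ) : ∀ p v c : ℕ, Chn Q v M c →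
    (v :: M).Nodup → (∀ w ∈ v :: M, deg Q w = 2) → 3 ≤ deg Q c → p ∉ M → (M = [] → c ≠ p) →
    Good Q p v M c := by
  induction M with
  | nil =>
    intro p v c h _ _ _ _ h2
    exact ⟨h, h2 rfl⟩
  | cons m M ih =>
    intro p v c h hn hd hc hp _
    refine ⟨h.1, ?_, ?_⟩
    · rintro rfl
      exact hp (List.mem_cons_self)
    · have hn' := List.nodup_cons.mp hn
      refine ih v m c h.2 hn'.2 (fun w hw => hd w (List.mem_cons_of_mem _ hw)) hc ?_ ?_
      · intro hv
        exact hn'.1 (List.mem_cons_of_mem _ hv)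
      · rintro _ rfl
        have := hd c List.mem_cons_self
        omega

theorem next_unique {Q : SimpleGraph ℕ} (hf : Q.edgeSet.Finite) {a p n n' : ℕ} (hd : deg Q a = 2)
    (hp : Q.Adj a p) (hn : Q.Adj a n) (hn' : Q.Adj a n') (h1 : n ≠ p) (h2 : n' ≠ p) : n = n' := by
  by_contra hne
  have hsub : ({p, n, n'} : Set ℕ) ⊆ Q.neighborSet a := by
    rintro w (rfl | rfl | rfl)
    · exact hp
    · exact hn
    · exact hn'
  have h3 : ({p, n, n'} : Set ℕ).ncard = 3 :=
    Set.ncard_eq_three.mpr ⟨p, n, n', h1.symm, h2.symm, hne, rfl⟩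
  have h4 := Set.ncard_le_ncard hsub (neighborSet_finite hf a)
  rw [deg] at hd
  omega

theorem good_unique {Q : SimpleGraph ℕ} (hf : Q.edgeSet.Finite) (M : List ℕ) :
    ∀ (p a c : ℕ) (M' : List ℕ) (c' : ℕ), Q.Adj p a → deg Q a = 2 → Good Q p a M c →
    Good Q p a M' c' → (∀ v ∈ M, deg Q v = 2) → (∀ v ∈ M', deg Q v = 2) → 3 ≤ deg Q c →
    3 ≤ deg Q c' → M = M' ∧ c = c' := by
  induction M with
  | nil =>
    intro p a c M' c' hpa hda h h' hM hM' hc hc'
    cases M' with
    | nil =>
      exact ⟨rfl, next_unique hf hda hpa.symm h.1 h'.1 h.2 h'.2⟩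
    | cons m' M' =>
      have := next_unique hf hda hpa.symm h.1 h'.1 h.2 h'.2.1
      subst this
      have := hM' c List.mem_cons_self
      omega
  | cons m M ih =>
    intro p a c M' c' hpa hda h h' hM hM' hc hc'
    cases M' with
    | nil =>
      have := next_unique hf hda hpa.symm h.1 h'.1 h.2.1 h'.2
      subst this
      have := hM m List.mem_cons_self
      omega
    | cons m' M' =>
      have := next_unique hf hda hpa.symm h.1 h'.1 h.2.1 h'.2.1
      subst this
      obtain ⟨h1, h2⟩ := ih a m c M' c' h.1 (hM m List.mem_cons_self) h.2.2 h'.2.2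
        (fun v hv => hM v (List.mem_cons_of_mem _ hv))
        (fun v hv => hM' v (List.mem_cons_of_mem _ hv)) hc hc'
      exact ⟨by rw [h1], h2⟩

theorem thread_good {Q : SimpleGraph ℕ} {b v c : ℕ} {M : List ℕ} (h : Thread Q b (v :: M) c) :
    Good Q b v M c := by
  refine good_of_chn M b v c h.chn.2 h.nodup h.deg2 h.right ?_ ?_
  · intro hb
    have := h.deg2 b (List.mem_cons_of_mem _ hb)
    have := h.left
    omega
  · rintro rfl rfl
    exact h.one rfl rfl

theorem thread_unique {Q : SimpleGraph ℕ} (hf : Q.edgeSet.Finite) {b c c' : ℕ} {L L' : List ℕ}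
    (h : Thread Q b L c) (h' : Thread Q b L' c') (hh : hd L c = hd L' c') : L = L' ∧ c = c' := by
  cases L with
  | nil =>
    cases L' with
    | nil => exact ⟨rfl, hh⟩
    | cons v' M' =>
      have e : c = v' := hh
      subst e
      have := h'.deg2 c List.mem_cons_self
      have := h.right
      omega
  | cons v M =>
    cases L' with
    | nil =>
      have e : v = c' := hh
      subst e
      have := h.deg2 v List.mem_cons_self
      have := h'.right
      omega
    | cons v' M' =>
      have e : v = v' := hh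
      subst e
      obtain ⟨h1, h2⟩ := good_unique hf M b v c M' c' h.chn.1 (h.deg2 v List.mem_cons_self)
        (thread_good h) (thread_good h') (fun w hw => h.deg2 w (List.mem_cons_of_mem _ hw))
        (fun w hw => h'.deg2 w (List.mem_cons_of_mem _ hw)) h.right h'.right
      exact ⟨by rw [h1], h2⟩

theorem adj_hd {Q : SimpleGraph ℕ} {b c : ℕ} {L : List ℕ} (h : Chn Q b L c) :
    Q.Adj b (hd L c) := by
  cases L with
  | nil => exact h
  | cons v M => exact h.1

end PkgC1

open PkgC1 in
theorem pkgC1 : S_thr := by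
  intro P S l J Q hQ
  have hG := (mem_core.mp hQ).1
  have hf := edgeSet_finite hG
  set A : Set (ℕ × List ℕ × ℕ) := {p | Thread Q p.1 p.2.1 p.2.2} with hA
  set D : Set (ℕ × ℕ) := {d | Q.Adj d.1 d.2 ∧ 3 ≤ deg Q d.1} with hD
  have hDfin : D.Finite := (darts_finite hf).subset fun d hd => hd.1
  have hmaps : Set.MapsTo (fun p : ℕ × List ℕ × ℕ => (p.1, hd p.2.1 p.2.2)) A D := by
    rintro ⟨b, L, c⟩ h
    exact ⟨adj_hd h.chn, h.left⟩
  have hinj : Set.InjOn (fun p : ℕ × List ℕ × ℕ => (p.1, hd p.2.1 p.2.2)) A := by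
    rintro ⟨b, L, c⟩ h ⟨b', L', c'⟩ h' heq
    simp only [Prod.mk.injEq] at heq
    obtain ⟨rfl, h2⟩ := heq
    obtain ⟨h3, h4⟩ := thread_unique hf h h' h2
    exact Prod.ext rfl (Prod.ext h3 h4)
  have hAfin : A.Finite := Set.Finite.of_injOn hmaps hinj hDfin
  refine ⟨hAfin, ?_⟩
  have hcard : A.ncard ≤ 6 * l := by
    calc A.ncard ≤ D.ncard := Set.ncard_le_ncard_of_injOn _ hmaps hinj hDfin
      _ = ∑ v ∈ S.filter (fun v => 3 ≤ deg Q v), deg Q v := by
        convert ncard_darts hG (fun v => 3 ≤ deg Q v)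
      _ ≤ 6 * l := core_branch_sum hQ
  have hthr : ∀ j, thrN Q j = (hAfin.toFinset.filter (fun p => p.2.1.length = j)).card := by
    intro j
    rw [thrN, ← Set.ncard_coe_finset]
    congr 1
    ext p
    simp only [Set.mem_ofPred_eq, Finset.coe_filter, Set.Finite.mem_toFinset, hA]
  calc ∑ j ∈ range J, thrN Q j
      = ∑ j ∈ range J, (hAfin.toFinset.filter (fun p => p.2.1.length = j)).card :=
        Finset.sum_congr rfl fun j _ => hthr j
    _ = ((range J).biUnion fun j => hAfin.toFinset.filter (fun p => p.2.1.length = j)).card := by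
        rw [Finset.card_biUnion]
        intro i _ j _ hij
        rw [Function.onFun, Finset.disjoint_left]
        intro p hp hp'
        rw [Finset.mem_filter] at hp hp'
        exact hij (hp.2.symm.trans hp'.2)
    _ ≤ hAfin.toFinset.card := by
        apply Finset.card_le_card
        intro p hp
        rw [Finset.mem_biUnion] at hp
        obtain ⟨j, _, hp⟩ := hp
        exact (Finset.mem_filter.mp hp).1
    _ = A.ncard := (Set.ncard_eq_toFinset_card A hAfin).symm
    _ ≤ 6 * l := hcard

end GiantSurf57
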