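import Pool.Agent.GiantSurf57.PkgD2

/-! Package C2: every dart at a branch vertex starts a thread. -/

open scoped Classical
open Finset

namespace GiantSurf57

namespace PkgC2

open PkgD2

theorem chn_append {Q : SimpleGraph ℕ} : ∀ (L : List ℕ) (b x z : ℕ), Chn Q b L x → Q.Adj x z →
    Chn Q b (L ++ [x]) z := by
  intro L
  induction L with
  | nil =>
    intro b x z h hz
    exact ⟨h, hz⟩
  | cons v L ih =>
    intro b x z h hz
    exact ⟨h.1, ih v x z h.2 hz⟩

theorem extend {P : SimpleGraph ℕ → Prop} {S : Finset ℕ} {l : ℕ} {Q : SimpleGraph ℕ}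
    (hQ : Q ∈ core P S l) {b : ℕ} (hb : 3 ≤ deg Q b) : ∀ (n : ℕ) (L : List ℕ) (x : ℕ),
    (b :: (L ++ [x])).Nodup → Chn Q b L x → (∀ v ∈ L, deg Q v = 2) → deg Q x = 2 →
    S.card ≤ n + L.length → ∃ (L' : List ℕ) (c : ℕ), Thread Q b (L ++ x :: L') c := by
  intro n
  simp only [core, mem_filter, mem_graphsOn] at hQ
  obtain ⟨hsup, hPQ, hdeg, hne⟩ := hQ
  induction n with
  | zero =>
    intro L x hnd hch hL hx hn
    exfalso
    have hpos : ∀ v, 0 < deg Q v → v ∈ S := by
      intro v hv
      rw [deg, Set.ncard_pos (fin_nbr hsup v)] at hv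
      obtain ⟨w, hw⟩ := hv
      exact hsup ⟨w, hw⟩
    have h1 : (L ++ [x]).toFinset ⊆ S := by
      intro v hv
      rw [List.mem_toFinset, List.mem_append, List.mem_singleton] at hv
      rcases hv with hv | rfl
      · exact hpos v (by rw [hL v hv]; omega)
      · exact hpos v (by omega)
    have h2 := Finset.card_le_card h1
    rw [List.toFinset_card_of_nodup (List.nodup_cons.1 hnd).2, List.length_append,
      List.length_singleton] at h2
    omega
  | succ n ih =>
    intro L x hnd hch hL hx hn
    have hle : pathG b L x ≤ Q := pathG_le L b x hch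
    obtain ⟨-, ⟨t, ht⟩, hin⟩ := nbr_pathG L b x hnd
    have hxt : Q.Adj x t := by
      have : t ∈ (pathG b L x).neighborSet x := by rw [ht]; rfl
      exact hle this
    -- the other neighbour
    obtain ⟨z, hxz, hzt⟩ : ∃ z, Q.Adj x z ∧ z ≠ t := by
      rw [deg, Set.ncard_eq_two] at hx
      obtain ⟨p, q, hpq, hN⟩ := hx
      have hp : Q.Adj x p := by
        have : p ∈ Q.neighborSet x := by rw [hN]; simp
        exact this
      have hq : Q.Adj x q := by
        have : q ∈ Q.neighborSet x := by rw [hN]; simp
        exact this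
      by_cases h : p = t
      · exact ⟨q, hq, by rw [← h]; exact hpq.symm⟩
      · exact ⟨p, hp, h⟩
    have hzL : z ∉ L := by
      intro hz
      obtain ⟨p, q, hpq, hN⟩ := hin z hz
      have h1 : Q.neighborSet z = (pathG b L x).neighborSet z := by
        symm
        refine Set.eq_of_subset_of_ncard_le (fun w hw => hle hw) ?_ (fin_nbr hsup z)
        rw [hN, Set.ncard_pair hpq]
        exact (hL z hz).le
      have h2 : x ∈ Q.neighborSet z := hxz.symm
      rw [h1] at h2
      have h3 : z ∈ (pathG b L x).neighborSet x := (show (pathG b L x).Adj z x from h2).symm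
      rw [ht] at h3
      exact hzt h3
    have hzx : z ≠ x := hxz.ne'
    have hch' : Chn Q b (L ++ [x]) z := chn_append L b x z hch hxz
    have hL' : ∀ v ∈ L ++ [x], deg Q v = 2 := by
      intro v hv
      rw [List.mem_append, List.mem_singleton] at hv
      rcases hv with hv | rfl
      · exact hL v hv
      · exact hx
    by_cases hz2 : deg Q z = 2
    · have hzb : z ≠ b := by
        rintro rfl
        omega
      obtain ⟨L', c, hT⟩ := ih (L ++ [x]) z (by
        rw [List.nodup_cons] at hnd ⊢
        refine ⟨?_, ?_⟩
        · rw [List.mem_append, List.mem_singleton, not_or]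
          exact ⟨hnd.1, hzb.symm⟩
        · rw [List.nodup_append]
          refine ⟨hnd.2, by simp, ?_⟩
          intro a ha d hd
          rw [List.mem_singleton] at hd
          subst hd
          rintro rfl
          rw [List.mem_append, List.mem_singleton] at ha
          tauto) hch' hL' hz2 (by
            rw [List.length_append, List.length_singleton]
            omega)
      refine ⟨z :: L', c, ?_⟩
      simpa using hT
    · have hzS : z ∈ S := hsup ⟨x, hxz.symm⟩
      have hz3 : 3 ≤ deg Q z := by
        have := hdeg z hzS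
        omega
      refine ⟨[], z, hch', (List.nodup_cons.1 hnd).2, hL', hb, hz3, ?_⟩
      intro h1
      rw [List.length_append, List.length_singleton] at h1
      have h2 : L = [] := List.length_eq_zero_iff.1 (by omega)
      subst h2
      have h3 : b ∈ (pathG b [] x).neighborSet x := by
        simp only [pathG, SimpleGraph.mem_neighborSet, SimpleGraph.edge_adj]
        refine ⟨by simp, ?_⟩
        rw [List.nodup_cons] at hnd
        rintro rfl
        exact hnd.1 (by simp)
      rw [ht] at h3
      have h4 : b = t := h3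
      rw [h4]
      exact hzt.symm

end PkgC2

open PkgC2 PkgD2 in
theorem pkgC2 : S_thrEx := by
  intro P S l Q hQ b y hby hb
  have hQ' := hQ
  simp only [core, mem_filter, mem_graphsOn] at hQ'
  obtain ⟨hsup, hPQ, hdeg, hne⟩ := hQ'
  by_cases hy : deg Q y = 2
  · obtain ⟨L', c, hT⟩ := extend hQ hb S.card [] y (by
      rw [List.nil_append, List.nodup_cons]
      exact ⟨by simpa using hby.ne, by simp⟩) hby (by simp) hy (by simp)
    exact ⟨y :: L', c, hT, rfl⟩
  · have hyS : y ∈ S := hsup ⟨b, hby.symm⟩
    have hy3 : 3 ≤ deg Q y := by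
      have := hdeg y hyS
      omega
    exact ⟨[], y, ⟨hby, by simp, by simp, hb, hy3, by simp⟩, rfl⟩

end GiantSurf57
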