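import Pool.Agent.GiantSurf57.PkgB34

/-!
# Package C3: subdividing the first edge of a thread
-/

open scoped Classical
open Finset

namespace GiantSurf57

namespace PkgC3

open PkgB34

theorem finite_lists (S : Finset ℕ) (j : ℕ) :
    {L : List ℕ | L.length = j ∧ ∀ v ∈ L, v ∈ S}.Finite := by
  induction j with
  | zero =>
    refine (Set.finite_singleton ([] : List ℕ)).subset ?_
    rintro L ⟨h, _⟩
    exact List.length_eq_zero_iff.1 h
  | succ j ih =>
    refine ((S.finite_toSet.prod ih).image (fun p : ℕ × List ℕ => p.1 :: p.2)).subset ?_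
    rintro L ⟨h, hS⟩
    cases L with
    | nil => simp at h
    | cons a L =>
      refine ⟨(a, L), ⟨hS a (by simp), ?_, fun v hv => hS v (by simp [hv])⟩, rfl⟩
      simpa using h

theorem deg_pos_mem {S : Finset ℕ} {Q : SimpleGraph ℕ} (hS : Q.support ⊆ ↑S) {v : ℕ}
    (h : 0 < deg Q v) : v ∈ S := by
  rw [deg_eq hS, Finset.card_pos] at h
  obtain ⟨w, hw⟩ := h
  exact hS ⟨w, (mem_filter.1 hw).2⟩

theorem thr_finite {S : Finset ℕ} {Q : SimpleGraph ℕ} (hS : Q.support ⊆ ↑S) (j : ℕ) :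
    {p : ℕ × List ℕ × ℕ | Thread Q p.1 p.2.1 p.2.2 ∧ p.2.1.length = j}.Finite := by
  refine (S.finite_toSet.prod ((finite_lists S j).prod S.finite_toSet)).subset ?_
  rintro ⟨b, L, c⟩ ⟨h, hl⟩
  refine ⟨?_, ⟨hl, ?_⟩, ?_⟩
  · have h3 : 3 ≤ deg Q b := h.left
    exact deg_pos_mem hS (v := b) (by omega)
  · intro v hv
    have := h.deg2 v hv; exact deg_pos_mem hS (by omega)
  · have h3 : 3 ≤ deg Q c := h.right
    exact deg_pos_mem hS (v := c) (by omega)

/-- The threads with `j` internal vertices, as a finset. -/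
noncomputable def TF (Q : SimpleGraph ℕ) (j : ℕ) : Finset (ℕ × List ℕ × ℕ) :=
  if h : {p : ℕ × List ℕ × ℕ | Thread Q p.1 p.2.1 p.2.2 ∧ p.2.1.length = j}.Finite then
    h.toFinset else ∅

theorem mem_TF {S : Finset ℕ} {Q : SimpleGraph ℕ} (hS : Q.support ⊆ ↑S) {j : ℕ}
    {p : ℕ × List ℕ × ℕ} : p ∈ TF Q j ↔ Thread Q p.1 p.2.1 p.2.2 ∧ p.2.1.length = j := by
  rw [TF, dif_pos (thr_finite hS j), Set.Finite.mem_toFinset]
  rfl

theorem card_TF {S : Finset ℕ} {Q : SimpleGraph ℕ} (hS : Q.support ⊆ ↑S) (j : ℕ) :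
    (TF Q j).card = thrN Q j := by
  rw [thrN, TF, dif_pos (thr_finite hS j), Set.ncard_eq_toFinset_card _ (thr_finite hS j)]

/-- Subdividing the edge `bh` by `v`. -/
def sd (Q : SimpleGraph ℕ) (b h v : ℕ) : SimpleGraph ℕ :=
  (Q \ SimpleGraph.edge b h) ⊔ (SimpleGraph.edge b v ⊔ SimpleGraph.edge v h)

section

variable {Q : SimpleGraph ℕ} {b h v : ℕ}

theorem sd_adj (hbh : Q.Adj b h) (hv : v ∉ Q.support) (x y : ℕ) : (sd Q b h v).Adj x y ↔
    (Q.Adj x y ∧ ¬ (x = b ∧ y = h) ∧ ¬ (x = h ∧ y = b)) ∨ (x = v ∧ (y = b ∨ y = h)) ∨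
      (y = v ∧ (x = b ∨ x = h)) := by
  have hbv : b ≠ v := fun e => hv ⟨h, e ▸ hbh⟩
  have hhv : h ≠ v := fun e => hv ⟨b, e ▸ hbh.symm⟩
  have hne := hbh.ne
  simp only [sd, SimpleGraph.sup_adj, SimpleGraph.sdiff_adj, SimpleGraph.edge_adj]
  constructor
  · rintro (⟨h1, h2⟩ | ⟨h1 | h1, _⟩ | ⟨h1 | h1, _⟩)
    · left
      refine ⟨h1, fun h3 => h2 ⟨Or.inl h3, h1.ne⟩, fun h3 => h2 ⟨Or.inr h3, h1.ne⟩⟩
    · exact Or.inr (Or.inr ⟨h1.2, Or.inl h1.1⟩)
    · exact Or.inr (Or.inl ⟨h1.1, Or.inl h1.2⟩)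
    · exact Or.inr (Or.inl ⟨h1.1, Or.inr h1.2⟩)
    · exact Or.inr (Or.inr ⟨h1.2, Or.inr h1.1⟩)
  · rintro (⟨h1, h2, h3⟩ | ⟨rfl, rfl | rfl⟩ | ⟨rfl, rfl | rfl⟩)
    · left
      refine ⟨h1, ?_⟩
      rintro ⟨h4 | h4, _⟩
      · exact h2 h4
      · exact h3 h4
    · right; left; exact ⟨Or.inr ⟨rfl, rfl⟩, hbv.symm⟩
    · right; right; exact ⟨Or.inl ⟨rfl, rfl⟩, hhv.symm⟩
    · right; left; exact ⟨Or.inl ⟨rfl, rfl⟩, hbv⟩
    · right; right; exact ⟨Or.inr ⟨rfl, rfl⟩, hhv⟩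

theorem sd_nbr (hbh : Q.Adj b h) (hv : v ∉ Q.support) : (sd Q b h v).neighborSet v = {b, h} := by
  have hbv : b ≠ v := fun e => hv ⟨h, e ▸ hbh⟩
  have hhv : h ≠ v := fun e => hv ⟨b, e ▸ hbh.symm⟩
  ext y
  rw [SimpleGraph.mem_neighborSet, sd_adj hbh hv]
  simp only [Set.mem_insert_iff, Set.mem_singleton_iff, true_and]
  constructor
  · rintro (h1 | h1 | ⟨_, h1 | h1⟩)
    · exact absurd ⟨y, h1.1⟩ hv
    · exact h1
    · exact absurd h1.symm hbv
    · exact absurd h1.symm hhv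
  · intro h1
    exact Or.inr (Or.inl h1)

theorem sd_not_adj (hbh : Q.Adj b h) (hv : v ∉ Q.support) : ¬ (sd Q b h v).Adj b h := by
  have hbv : b ≠ v := fun e => hv ⟨h, e ▸ hbh⟩
  have hhv : h ≠ v := fun e => hv ⟨b, e ▸ hbh.symm⟩
  rw [sd_adj hbh hv]
  rintro (h1 | h1 | h1)
  · exact h1.2.1 ⟨rfl, rfl⟩
  · exact hbv h1.1
  · exact hhv h1.1

theorem sup_sd (hbh : Q.Adj b h) (hv : v ∉ Q.support) : supG (sd Q b h v) v = Q := by
  ext x y
  rw [supG_adj hbh.ne (sd_nbr hbh hv), sd_adj hbh hv]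
  constructor
  · rintro (⟨h1, h2, h3 | h3 | h3⟩ | ⟨rfl, rfl⟩ | ⟨rfl, rfl⟩)
    · exact h3.1
    · exact absurd h3.1 h1
    · exact absurd h3.1 h2
    · exact hbh
    · exact hbh.symm
  · intro hxy
    by_cases h1 : x = b ∧ y = h
    · exact Or.inr (Or.inl h1)
    · by_cases h2 : x = h ∧ y = b
      · exact Or.inr (Or.inr h2)
      · refine Or.inl ⟨?_, ?_, Or.inl ⟨hxy, h1, h2⟩⟩
        · rintro rfl; exact hv ⟨y, hxy⟩
        · rintro rfl; exact hv ⟨x, hxy.symm⟩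

theorem sd_support {S : Finset ℕ} (hS : Q.support ⊆ ↑(S.erase v)) (hvS : v ∈ S)
    (hbh : Q.Adj b h) : (sd Q b h v).support ⊆ ↑S := by
  have hv : v ∉ Q.support := fun h => by simpa using hS h
  have hb : b ∈ S := (Finset.erase_subset v S) (hS ⟨h, hbh⟩)
  have hh : h ∈ S := (Finset.erase_subset v S) (hS ⟨b, hbh.symm⟩)
  rintro x ⟨y, hxy⟩
  have hxy : (sd Q b h v).Adj x y := hxy
  rw [sd_adj hbh hv] at hxy
  rcases hxy with h1 | ⟨rfl, _⟩ | ⟨_, rfl | rfl⟩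
  · exact (Finset.erase_subset v S) (hS ⟨y, h1.1⟩)
  · exact hvS
  · exact hb
  · exact hh

theorem sd_deg {S : Finset ℕ} (hS : Q.support ⊆ ↑(S.erase v)) (hvS : v ∈ S)
    (hbh : Q.Adj b h) {w : ℕ} (hw : w ≠ v) : deg (sd Q b h v) w = deg Q w := by
  have hv : v ∉ Q.support := fun h => by simpa using hS h
  have := supG_deg (sd_support hS hvS hbh) hbh.ne (sd_nbr hbh hv) (sd_not_adj hbh hv) hw
  rw [sup_sd hbh hv] at this
  exact this.symm

theorem sd_core {P : SimpleGraph ℕ → Prop} (hP : SurfClass P) {S : Finset ℕ} {l : ℕ}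
    (hvS : v ∈ S) (hQ : Q ∈ core P (S.erase v) l) (hbh : Q.Adj b h) :
    sd Q b h v ∈ core P S l := by
  obtain ⟨hS, hPQ, hd, hne⟩ := mem_core.1 hQ
  have hv : v ∉ Q.support := fun h => by simpa using hS h
  rw [mem_core]
  refine ⟨sd_support hS hvS hbh, hP.subdiv Q b h v (edgeSet_finite hS) hPQ hbh hv, ?_, ?_⟩
  · intro w hw
    by_cases hwv : w = v
    · subst hwv
      rw [deg, sd_nbr hbh hv, Set.ncard_pair hbh.ne]
    · rw [sd_deg hS hvS hbh hwv]
      exact hd w (Finset.mem_erase.2 ⟨hwv, hw⟩)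
  · have h1 := supG_ne (sd_support hS hvS hbh) hbh.ne (sd_nbr hbh hv) (sd_not_adj hbh hv)
    rw [sup_sd hbh hv] at h1
    have h2 := Finset.card_erase_add_one hvS
    omega

end

/-- The first vertex after `b`. -/
def hd (L : List ℕ) (c : ℕ) : ℕ := L.headD c

theorem chn_hd {Q : SimpleGraph ℕ} {b : ℕ} {L : List ℕ} {c : ℕ} (h : Chn Q b L c) :
    Q.Adj b (hd L c) := by
  cases L with
  | nil => exact h
  | cons x L => exact h.1

theorem chn_tr {Q Q' : SimpleGraph ℕ} {b x c : ℕ}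
    (hQ : ∀ u w, Q.Adj u w → u ≠ b → u ≠ x → Q'.Adj u w) :
    ∀ (M : List ℕ) (a : ℕ), Chn Q a M c → (∀ z ∈ a :: M, z ≠ b ∧ z ≠ x) → Chn Q' a M c := by
  intro M
  induction M with
  | nil =>
    intro a h hz
    have := hz a (by simp)
    exact hQ a c h this.1 this.2
  | cons y M ih =>
    intro a h hz
    have := hz a (by simp)
    exact ⟨hQ a y h.1 this.1 this.2, ih y h.2 (fun z hzm => hz z (List.mem_cons_of_mem _ hzm))⟩

theorem thread_sd {S : Finset ℕ} {Q : SimpleGraph ℕ} {b v c : ℕ} {L : List ℕ}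
    (hS : Q.support ⊆ ↑(S.erase v)) (hvS : v ∈ S) (h : Thread Q b L c) :
    Thread (sd Q b (hd L c) v) b (v :: L) c := by
  have hv : v ∉ Q.support := fun h => by simpa using hS h
  have hbh := chn_hd h.chn
  have hS' := sd_support hS hvS hbh
  have hmem : ∀ w, 0 < deg Q w → w ≠ v := by
    intro w hw
    have := deg_pos_mem hS hw
    exact (Finset.mem_erase.1 this).1
  have hLv : ∀ w ∈ L, w ≠ v := fun w hw => hmem w (by rw [h.deg2 w hw]; norm_num)
  have hLb : ∀ w ∈ L, w ≠ b := by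
    rintro w hw rfl
    have h1 := h.deg2 w hw
    have h2 := h.left
    omega
  have hbv : b ≠ v := hmem b (by have := h.left; omega)
  have hcv : c ≠ v := hmem c (by have := h.right; omega)
  refine ⟨?_, ?_, ?_, ?_, ?_, ?_⟩
  · refine ⟨(sd_adj hbh hv _ _).2 (Or.inr (Or.inr ⟨rfl, Or.inl rfl⟩)), ?_⟩
    cases L with
    | nil =>
      exact (sd_adj hbh hv _ _).2 (Or.inr (Or.inl ⟨rfl, Or.inr rfl⟩))
    | cons x L =>
      refine ⟨(sd_adj hbh hv _ _).2 (Or.inr (Or.inl ⟨rfl, Or.inr rfl⟩)), ?_⟩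
      have hxL : x ∉ L := (List.nodup_cons.1 h.nodup).1
      have hxb : x ≠ b := hLb x (by simp)
      cases L with
      | nil =>
        have hbc : b ≠ c := h.one rfl
        refine (sd_adj hbh hv _ _).2 (Or.inl ⟨h.chn.2, ?_, ?_⟩)
        · rintro ⟨h1, _⟩; exact hxb h1
        · rintro ⟨_, h1⟩; exact hbc h1.symm
      | cons y L =>
        have hyb : y ≠ b := hLb y (by simp)
        refine ⟨(sd_adj hbh hv _ _).2 (Or.inl ⟨h.chn.2.1, ?_, ?_⟩), ?_⟩
        · rintro ⟨h1, _⟩; exact hxb h1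
        · rintro ⟨_, h1⟩; exact hyb h1
        · refine chn_tr (Q := Q) (b := b) (x := x) ?_ L y h.chn.2.2 ?_
          · intro u w huw hub hux
            refine (sd_adj hbh hv _ _).2 (Or.inl ⟨huw, ?_, ?_⟩)
            · rintro ⟨h1, _⟩; exact hub h1
            · rintro ⟨h1, _⟩; exact hux h1
          · intro z hz
            refine ⟨hLb z (List.mem_cons_of_mem _ hz), ?_⟩
            rintro rfl
            exact hxL hz
  · exact List.nodup_cons.2 ⟨fun hvL => hLv v hvL rfl, h.nodup⟩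
  · intro w hw
    rcases List.mem_cons.1 hw with rfl | hw
    · rw [deg, sd_nbr hbh hv, Set.ncard_pair hbh.ne]
    · rw [sd_deg hS hvS hbh (hLv w hw)]
      exact h.deg2 w hw
  · rw [sd_deg hS hvS hbh hbv]; exact h.left
  · rw [sd_deg hS hvS hbh hcv]; exact h.right
  · intro hl
    have : L = [] := by
      simpa using hl
    subst this
    exact hbh.ne

end PkgC3

open PkgB34 PkgC3 in
theorem pkgC3 (h1 : S_relabel) (h2 : S_inv) : S_Sa := by
  intro P hP j k l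
  set S := range (k + 1) with hSdef
  have hcS : S.card = k + 1 := by rw [hSdef, card_range]
  have e1 : (k + 1) * SS P j k l = ∑ v ∈ S, ∑ Q ∈ core P (S.erase v) l, (TF Q j).card := by
    have : ∀ v ∈ S, ∑ Q ∈ core P (S.erase v) l, (TF Q j).card = SS P j k l := by
      intro v hv
      have hcv : (S.erase v).card = k := by
        have := Finset.card_erase_add_one hv; omega
      rw [SS, ← h1 P hP (fun Q => thrN Q j) (fun G e => (h2 G e).1 j) (S.erase v) (range k) l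
        (by rw [hcv, card_range])]
      exact Finset.sum_congr rfl fun Q hQ => card_TF (mem_core.1 hQ).1 j
    rw [Finset.sum_congr rfl this, Finset.sum_const, smul_eq_mul, hcS]
  have e2 : SS P (j + 1) (k + 1) l = ∑ Q ∈ core P S l, (TF Q (j + 1)).card := by
    rw [SS]
    exact Finset.sum_congr rfl fun Q hQ => (card_TF (mem_core.1 hQ).1 _).symm
  rw [e1, e2]
  have e3 : ∑ v ∈ S, ∑ Q ∈ core P (S.erase v) l, (TF Q j).card =
      (S.sigma fun v => (core P (S.erase v) l).sigma fun Q => TF Q j).card := by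
    rw [Finset.card_sigma]
    exact Finset.sum_congr rfl fun v _ => (Finset.card_sigma _ _).symm
  rw [e3, ← Finset.card_sigma (core P S l) (fun Q => TF Q (j + 1))]
  refine Finset.card_le_card_of_injOn
    (fun x : (Σ _ : ℕ, Σ _ : SimpleGraph ℕ, ℕ × List ℕ × ℕ) =>
      (⟨sd x.2.1 x.2.2.1 (hd x.2.2.2.1 x.2.2.2.2) x.1, (x.2.2.1, x.1 :: x.2.2.2.1, x.2.2.2.2)⟩ :
        Σ _ : SimpleGraph ℕ, ℕ × List ℕ × ℕ)) ?_ ?_
  · rintro ⟨v, Q, b, L, c⟩ hx
    simp only [coe_sigma, Set.mem_sigma_iff, mem_coe] at hx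
    obtain ⟨hv, hQ, hT⟩ := hx
    have hS := (mem_core.1 hQ).1
    rw [mem_TF hS] at hT
    have hbh := chn_hd hT.1.chn
    simp only [coe_sigma, Set.mem_sigma_iff, mem_coe]
    have hc := sd_core hP hv hQ hbh
    refine ⟨hc, ?_⟩
    rw [mem_TF (mem_core.1 hc).1]
    exact ⟨thread_sd hS hv hT.1, by simpa using hT.2⟩
  · rintro ⟨v, Q, b, L, c⟩ hx ⟨v', Q', b', L', c'⟩ hx' heq
    simp only [coe_sigma, Set.mem_sigma_iff, mem_coe] at hx hx'
    obtain ⟨hv, hQ, hT⟩ := hx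
    obtain ⟨hv', hQ', hT'⟩ := hx'
    have hS := (mem_core.1 hQ).1
    have hS' := (mem_core.1 hQ').1
    rw [mem_TF hS] at hT
    rw [mem_TF hS'] at hT'
    have hbh := chn_hd hT.1.chn
    have hbh' := chn_hd hT'.1.chn
    simp only [Sigma.mk.injEq, heq_eq_eq, Prod.mk.injEq, List.cons.injEq] at heq
    obtain ⟨h3, rfl, ⟨rfl, rfl⟩, rfl⟩ := heq
    have hvs : v ∉ Q.support := fun h => by simpa using hS h
    have hvs' : v ∉ Q'.support := fun h => by simpa using hS' h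
    have := sup_sd hbh hvs
    rw [h3, sup_sd hbh' hvs'] at this
    rw [this]

end GiantSurf57
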