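import Pool.Agent.GiantSurf57.PkgC3

/-!
# Package C5: vertex splitting
-/

open scoped Classical
open Finset

namespace GiantSurf57

namespace PkgC5

open PkgB34 PkgC3

/-- The darts counted by `bigDeg`, as a finset. -/
noncomputable def BF (Q : SimpleGraph ℕ) (S : Finset ℕ) : Finset (ℕ × ℕ) :=
  (S ×ˢ S).filter (fun p => Q.Adj p.1 p.2 ∧ 4 ≤ deg Q p.1)

theorem card_BF {Q : SimpleGraph ℕ} {S : Finset ℕ} (hS : Q.support ⊆ ↑S) :
    (BF Q S).card = bigDeg Q := by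
  rw [bigDeg, ← Set.ncard_coe_finset]
  congr 1
  ext ⟨x, y⟩
  simp only [BF, coe_filter, mem_product, Set.mem_ofPred_eq]
  constructor
  · exact fun h => h.2
  · intro h
    exact ⟨⟨hS ⟨y, h.1⟩, hS ⟨x, h.1.symm⟩⟩, h⟩

/-- The second neighbour used in the splitting. -/
noncomputable def zc (P : SimpleGraph ℕ → Prop) (Q : SimpleGraph ℕ) (v y : ℕ) : ℕ :=
  if h : ∃ z, z ≠ y ∧ Q.Adj v z ∧ ∀ w, w ∉ Q.support → P (splitG Q v y z w) then h.choose else 0

theorem zc_spec {P : SimpleGraph ℕ → Prop} (hP : SurfClass P) {Q : SimpleGraph ℕ} {v y : ℕ}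
    (hf : Q.edgeSet.Finite) (hPQ : P Q) (hvy : Q.Adj v y) (hd : 3 ≤ deg Q v) :
    zc P Q v y ≠ y ∧ Q.Adj v (zc P Q v y) ∧
      ∀ w, w ∉ Q.support → P (splitG Q v y (zc P Q v y) w) := by
  have h := hP.split Q v y hf hPQ hvy hd
  rw [zc, dif_pos h]
  exact h.choose_spec

section

variable {Q : SimpleGraph ℕ} {S : Finset ℕ} {v y z w : ℕ}

theorem sp_adj (hw : w ∉ Q.support) (hy : Q.Adj v y) (hz : Q.Adj v z) (a b : ℕ) :
    (splitG Q v y z w).Adj a b ↔
      (Q.Adj a b ∧ ¬ (a = v ∧ (b = y ∨ b = z)) ∧ ¬ (b = v ∧ (a = y ∨ a = z))) ∨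
      (a = w ∧ (b = v ∨ b = y ∨ b = z)) ∨ (b = w ∧ (a = v ∨ a = y ∨ a = z)) := by
  have hvw : v ≠ w := fun e => hw ⟨y, e ▸ hy⟩
  have hyw : y ≠ w := fun e => hw ⟨v, e ▸ hy.symm⟩
  have hzw : z ≠ w := fun e => hw ⟨v, e ▸ hz.symm⟩
  simp only [splitG, SimpleGraph.sup_adj, SimpleGraph.sdiff_adj, SimpleGraph.edge_adj]
  constructor
  · rintro (⟨h1, h2⟩ | ((⟨h1 | h1, _⟩ | ⟨h1 | h1, _⟩) | ⟨h1 | h1, _⟩))
    · left
      refine ⟨h1, ?_, ?_⟩
      · rintro ⟨rfl, rfl | rfl⟩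
        · exact h2 (Or.inl ⟨Or.inl ⟨rfl, rfl⟩, h1.ne⟩)
        · exact h2 (Or.inr ⟨Or.inl ⟨rfl, rfl⟩, h1.ne⟩)
      · rintro ⟨rfl, rfl | rfl⟩
        · exact h2 (Or.inl ⟨Or.inr ⟨rfl, rfl⟩, h1.ne⟩)
        · exact h2 (Or.inr ⟨Or.inr ⟨rfl, rfl⟩, h1.ne⟩)
    · exact Or.inr (Or.inl ⟨h1.1, Or.inl h1.2⟩)
    · exact Or.inr (Or.inr ⟨h1.2, Or.inl h1.1⟩)
    · exact Or.inr (Or.inl ⟨h1.1, Or.inr (Or.inl h1.2)⟩)
    · exact Or.inr (Or.inr ⟨h1.2, Or.inr (Or.inl h1.1)⟩)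
    · exact Or.inr (Or.inl ⟨h1.1, Or.inr (Or.inr h1.2)⟩)
    · exact Or.inr (Or.inr ⟨h1.2, Or.inr (Or.inr h1.1)⟩)
  · rintro (⟨h1, h2, h3⟩ | ⟨rfl, rfl | rfl | rfl⟩ | ⟨rfl, rfl | rfl | rfl⟩)
    · left
      refine ⟨h1, ?_⟩
      rintro (⟨h4 | h4, _⟩ | ⟨h4 | h4, _⟩)
      · exact h2 ⟨h4.1, Or.inl h4.2⟩
      · exact h3 ⟨h4.2, Or.inl h4.1⟩
      · exact h2 ⟨h4.1, Or.inr h4.2⟩
      · exact h3 ⟨h4.2, Or.inr h4.1⟩
    · right; left; left; exact ⟨Or.inl ⟨rfl, rfl⟩, hvw.symm⟩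
    · right; left; right; exact ⟨Or.inl ⟨rfl, rfl⟩, hyw.symm⟩
    · right; right; exact ⟨Or.inl ⟨rfl, rfl⟩, hzw.symm⟩
    · right; left; left; exact ⟨Or.inr ⟨rfl, rfl⟩, hvw⟩
    · right; left; right; exact ⟨Or.inr ⟨rfl, rfl⟩, hyw⟩
    · right; right; exact ⟨Or.inr ⟨rfl, rfl⟩, hzw⟩

theorem sp_nbr (hw : w ∉ Q.support) (hy : Q.Adj v y) (hz : Q.Adj v z) :
    (splitG Q v y z w).neighborSet w = {v, y, z} := by
  have hvw : v ≠ w := fun e => hw ⟨y, e ▸ hy⟩
  have hyw : y ≠ w := fun e => hw ⟨v, e ▸ hy.symm⟩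
  have hzw : z ≠ w := fun e => hw ⟨v, e ▸ hz.symm⟩
  ext a
  rw [SimpleGraph.mem_neighborSet, sp_adj hw hy hz]
  simp only [Set.mem_insert_iff, Set.mem_singleton_iff, true_and]
  constructor
  · rintro (h | h | ⟨_, h | h | h⟩)
    · exact absurd ⟨a, h.1⟩ hw
    · exact h
    · exact absurd h.symm hvw
    · exact absurd h.symm hyw
    · exact absurd h.symm hzw
  · intro h
    exact Or.inr (Or.inl h)

theorem sp_deg_w (hw : w ∉ Q.support) (hy : Q.Adj v y) (hz : Q.Adj v z) (hzy : z ≠ y) :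
    deg (splitG Q v y z w) w = 3 := by
  rw [deg, sp_nbr hw hy hz]
  have h1 : v ∉ ({y, z} : Set ℕ) := by
    simp only [Set.mem_insert_iff, Set.mem_singleton_iff, not_or]
    exact ⟨hy.ne, hz.ne⟩
  rw [Set.ncard_insert_of_notMem h1, Set.ncard_pair hzy.symm]

theorem sp_support (hS : Q.support ⊆ ↑(S.erase w)) (hwS : w ∈ S) (hy : Q.Adj v y)
    (hz : Q.Adj v z) : (splitG Q v y z w).support ⊆ ↑S := by
  have hw : w ∉ Q.support := fun h => by simpa using hS h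
  have hsub : ∀ a, a ∈ Q.support → a ∈ S := fun a ha => (Finset.erase_subset w S) (hS ha)
  rintro a ⟨b, hab⟩
  have hab : (splitG Q v y z w).Adj a b := hab
  rw [sp_adj hw hy hz] at hab
  rcases hab with h | ⟨rfl, _⟩ | ⟨_, rfl | rfl | rfl⟩
  · exact hsub a ⟨b, h.1⟩
  · exact hwS
  · exact hsub _ ⟨y, hy⟩
  · exact hsub _ ⟨v, hy.symm⟩
  · exact hsub _ ⟨v, hz.symm⟩

theorem sp_deg_v (hS : Q.support ⊆ ↑(S.erase w)) (hy : Q.Adj v y) (hz : Q.Adj v z)
    (hzy : z ≠ y) : deg (splitG Q v y z w) v + 1 = deg Q v := by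
  have hw : w ∉ Q.support := fun h => by simpa using hS h
  have hvw : v ≠ w := fun e => hw ⟨y, e ▸ hy⟩
  have hfin : (Q.neighborSet v).Finite := by
    rw [nbr_eq hS v]; exact Finset.finite_toSet _
  have e1 : (splitG Q v y z w).neighborSet v = insert w ((Q.neighborSet v \ {y}) \ {z}) := by
    ext a
    rw [SimpleGraph.mem_neighborSet, sp_adj hw hy hz]
    simp only [Set.mem_insert_iff, SimpleGraph.mem_neighborSet, Set.mem_sdiff,
      Set.mem_singleton_iff]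
    constructor
    · rintro (h1 | h1 | h1)
      · right
        refine ⟨⟨h1.1, ?_⟩, ?_⟩
        · rintro rfl; exact h1.2.1 ⟨trivial, Or.inl rfl⟩
        · rintro rfl; exact h1.2.1 ⟨trivial, Or.inr rfl⟩
      · exact absurd h1.1 hvw
      · exact Or.inl h1.1
    · rintro (h1 | ⟨⟨h1, h2⟩, h3⟩)
      · exact Or.inr (Or.inr ⟨h1, Or.inl trivial⟩)
      · left
        refine ⟨h1, ?_, ?_⟩
        · rintro ⟨_, h4 | h4⟩
          · exact h2 h4
          · exact h3 h4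
        · rintro ⟨h4, _⟩
          exact h1.ne h4.symm
  have h1 : w ∉ (Q.neighborSet v \ {y}) \ {z} := fun h => hw ⟨v, h.1.1.symm⟩
  have h2 : z ∈ Q.neighborSet v \ {y} := ⟨hz, hzy⟩
  rw [deg, e1, Set.ncard_insert_of_notMem h1 (hfin.sdiff.sdiff),
    Set.ncard_sdiff_singleton_add_one h2 hfin.sdiff,
    Set.ncard_sdiff_singleton_add_one (show y ∈ Q.neighborSet v from hy) hfin, deg]

theorem sp_deg_yz (hS : Q.support ⊆ ↑(S.erase w)) (hy : Q.Adj v y) (hz : Q.Adj v z)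
    {u : ℕ} (hu : u = y ∨ u = z) : deg (splitG Q v y z w) u = deg Q u := by
  have hw : w ∉ Q.support := fun h => by simpa using hS h
  have hyw : y ≠ w := fun e => hw ⟨v, e ▸ hy.symm⟩
  have hzw : z ≠ w := fun e => hw ⟨v, e ▸ hz.symm⟩
  have huw : u ≠ w := by
    rcases hu with rfl | rfl
    · exact hyw
    · exact hzw
  have hvu : Q.Adj v u := by
    rcases hu with rfl | rfl
    · exact hy
    · exact hz
  have hfin : (Q.neighborSet u).Finite := by
    rw [nbr_eq hS u]; exact Finset.finite_toSet _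
  have e1 : (splitG Q v y z w).neighborSet u = insert w (Q.neighborSet u \ {v}) := by
    ext a
    rw [SimpleGraph.mem_neighborSet, sp_adj hw hy hz]
    simp only [Set.mem_insert_iff, SimpleGraph.mem_neighborSet, Set.mem_sdiff,
      Set.mem_singleton_iff]
    constructor
    · rintro (h1 | h1 | h1)
      · right
        refine ⟨h1.1, ?_⟩
        rintro rfl
        exact h1.2.2 ⟨rfl, hu⟩
      · exact absurd h1.1 huw
      · exact Or.inl h1.1
    · rintro (h1 | ⟨h1, h2⟩)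
      · exact Or.inr (Or.inr ⟨h1, Or.inr hu⟩)
      · left
        refine ⟨h1, ?_, ?_⟩
        · rintro ⟨h4, _⟩
          exact hvu.ne h4.symm
        · rintro ⟨h4, _⟩
          exact h2 h4
  have h1 : w ∉ Q.neighborSet u \ {v} := fun h => hw ⟨u, h.1.symm⟩
  rw [deg, e1, Set.ncard_insert_of_notMem h1 hfin.sdiff,
    Set.ncard_sdiff_singleton_add_one (show v ∈ Q.neighborSet u from hvu.symm) hfin, deg]

theorem sp_deg_other (hS : Q.support ⊆ ↑(S.erase w)) (hy : Q.Adj v y) (hz : Q.Adj v z)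
    {u : ℕ} (huw : u ≠ w) (huv : u ≠ v) (huy : u ≠ y) (huz : u ≠ z) :
    deg (splitG Q v y z w) u = deg Q u := by
  have hw : w ∉ Q.support := fun h => by simpa using hS h
  rw [deg, deg]
  congr 1
  ext a
  rw [SimpleGraph.mem_neighborSet, sp_adj hw hy hz, SimpleGraph.mem_neighborSet]
  constructor
  · rintro (h1 | h1 | ⟨_, h1 | h1 | h1⟩)
    · exact h1.1
    · exact absurd h1.1 huw
    · exact absurd h1 huv
    · exact absurd h1 huy
    · exact absurd h1 huz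
  · intro h1
    left
    refine ⟨h1, ?_, ?_⟩
    · rintro ⟨h4, _⟩
      exact huv h4
    · rintro ⟨_, h4 | h4⟩
      · exact huy h4
      · exact huz h4

theorem sp_deg (hS : Q.support ⊆ ↑(S.erase w)) (hy : Q.Adj v y) (hz : Q.Adj v z)
    (hzy : z ≠ y) {u : ℕ} (huw : u ≠ w) :
    deg (splitG Q v y z w) u + (if u = v then 1 else 0) = deg Q u := by
  by_cases huv : u = v
  · subst huv
    rw [if_pos rfl]
    exact sp_deg_v hS hy hz hzy
  · rw [if_neg huv, add_zero]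
    by_cases hu : u = y ∨ u = z
    · exact sp_deg_yz hS hy hz hu
    · rw [not_or] at hu
      exact sp_deg_other hS hy hz huw huv hu.1 hu.2

theorem sp_ne (hS : Q.support ⊆ ↑(S.erase w)) (hwS : w ∈ S) (hy : Q.Adj v y)
    (hz : Q.Adj v z) (hzy : z ≠ y) : ne (splitG Q v y z w) = ne Q + 1 := by
  have hw : w ∉ Q.support := fun h => by simpa using hS h
  have h1 := handshake_all (sp_support hS hwS hy hz)
  have h2 := handshake_all hS
  rw [← Finset.add_sum_erase S _ hwS] at h1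
  have h3 : ∑ u ∈ S.erase w, (deg (splitG Q v y z w) u + (if u = v then 1 else 0)) =
      ∑ u ∈ S.erase w, deg Q u :=
    Finset.sum_congr rfl fun u hu => sp_deg hS hy hz hzy (Finset.mem_erase.1 hu).1
  have h4 := sp_deg_w hw hy hz hzy
  have hvS : v ∈ S.erase w := hS ⟨y, hy⟩
  have h5 : ∑ u ∈ S.erase w, (if u = v then 1 else 0) = 1 := by
    rw [Finset.sum_ite_eq' (S.erase w) v (fun _ => 1), if_pos hvS]
  rw [Finset.sum_add_distrib, h5] at h3
  omega

theorem sp_core {P : SimpleGraph ℕ → Prop} (hP : SurfClass P) {l : ℕ} (hwS : w ∈ S)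
    (hQ : Q ∈ core P (S.erase w) l) (hp : (v, y) ∈ BF Q (S.erase w)) :
    splitG Q v y (zc P Q v y) w ∈ core P S l ∧
      Thread (splitG Q v y (zc P Q v y) w) w [] v ∧
      deg (splitG Q v y (zc P Q v y) w) w = 3 ∧
      (splitG Q v y (zc P Q v y) w).Adj w y ∧ y ∈ S := by
  obtain ⟨hS, hPQ, hd, hne⟩ := mem_core.1 hQ
  have hw : w ∉ Q.support := fun h => by simpa using hS h
  simp only [BF, mem_filter, mem_product] at hp
  obtain ⟨⟨hvS, hyS⟩, hvy, h4⟩ := hp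
  obtain ⟨hzy, hz, hsp⟩ := zc_spec hP (edgeSet_finite hS) hPQ hvy (by omega)
  have hvw : v ≠ w := (Finset.mem_erase.1 hvS).1
  have hdw := sp_deg_w hw hvy hz hzy
  refine ⟨?_, ?_, hdw, ?_, (Finset.mem_erase.1 hyS).2⟩
  · rw [mem_core]
    refine ⟨sp_support hS hwS hvy hz, hsp w hw, ?_, ?_⟩
    · intro u hu
      by_cases huw : u = w
      · subst huw
        rw [hdw]
        norm_num
      · have h5 := sp_deg hS hvy hz hzy huw
        by_cases huv : u = v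
        · subst huv
          rw [if_pos rfl] at h5
          omega
        · rw [if_neg huv] at h5
          have := hd u (Finset.mem_erase.2 ⟨huw, hu⟩)
          omega
    · rw [sp_ne hS hwS hvy hz hzy]
      have h2 := Finset.card_erase_add_one hwS
      omega
  · refine ⟨?_, by simp, ?_, ?_, ?_, ?_⟩
    · exact (sp_adj hw hvy hz _ _).2 (Or.inr (Or.inl ⟨rfl, Or.inl rfl⟩))
    · intro u hu
      simp at hu
    · rw [hdw]
    · have h5 := sp_deg_v hS hvy hz hzy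
      omega
    · intro h
      simp at h
  · exact (sp_adj hw hvy hz _ _).2 (Or.inr (Or.inl ⟨rfl, Or.inr (Or.inl rfl)⟩))

theorem sp_inj_le {Q' : SimpleGraph ℕ} {z' : ℕ} (hw : w ∉ Q.support) (hw' : w ∉ Q'.support)
    (hy : Q.Adj v y) (hz : Q.Adj v z) (hy' : Q'.Adj v y) (hz' : Q'.Adj v z') (hzy : z ≠ y)
    (h : splitG Q v y z w = splitG Q' v y z' w) : Q ≤ Q' := by
  have h1 := sp_nbr hw hy hz
  rw [h, sp_nbr hw' hy' hz'] at h1
  have hzz : z = z' := by
    have h2 : z ∈ ({v, y, z'} : Set ℕ) := by rw [h1]; simp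
    simp only [Set.mem_insert_iff, Set.mem_singleton_iff] at h2
    rcases h2 with h2 | h2 | h2
    · exact absurd h2.symm hz.ne
    · exact absurd h2 hzy
    · exact h2
  subst hzz
  intro a b hab
  by_cases h2 : a = v ∧ (b = y ∨ b = z)
  · obtain ⟨rfl, rfl | rfl⟩ := h2
    · exact hy'
    · exact hz'
  · by_cases h3 : b = v ∧ (a = y ∨ a = z)
    · obtain ⟨rfl, rfl | rfl⟩ := h3
      · exact hy'.symm
      · exact hz'.symm
    · have h4 : (splitG Q v y z w).Adj a b := (sp_adj hw hy hz a b).2 (Or.inl ⟨hab, h2, h3⟩)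
      rw [h, sp_adj hw' hy' hz'] at h4
      rcases h4 with h4 | ⟨rfl, _⟩ | ⟨rfl, _⟩
      · exact h4.1
      · exact absurd ⟨b, hab⟩ hw
      · exact absurd ⟨a, hab.symm⟩ hw

end

end PkgC5

open PkgB34 PkgC3 PkgC5 in
theorem pkgC5 (h1 : S_relabel) (h2 : S_inv) : S_Sd := by
  intro P hP k l
  set S := range (k + 1) with hSdef
  have hcS : S.card = k + 1 := by rw [hSdef, card_range]
  have e1 : (k + 1) * ∑ Q ∈ core P (range k) l, bigDeg Q =
      ∑ w ∈ S, ∑ Q ∈ core P (S.erase w) l, (BF Q (S.erase w)).card := by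
    have : ∀ w ∈ S, ∑ Q ∈ core P (S.erase w) l, (BF Q (S.erase w)).card =
        ∑ Q ∈ core P (range k) l, bigDeg Q := by
      intro w hw
      have hcw : (S.erase w).card = k := by
        have := Finset.card_erase_add_one hw; omega
      rw [← h1 P hP bigDeg (fun G e => (h2 G e).2.1) (S.erase w) (range k) l
        (by rw [hcw, card_range])]
      exact Finset.sum_congr rfl fun Q hQ => card_BF (mem_core.1 hQ).1
    rw [Finset.sum_congr rfl this, Finset.sum_const, smul_eq_mul, hcS]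
  have e2 : ∑ Q ∈ core P S l, (((TF Q 0).filter (fun p => deg Q p.1 = 3)).sigma
      (fun p => S.filter (Q.Adj p.1))).card ≤ 3 * SS P 0 (k + 1) l := by
    rw [SS, Finset.mul_sum]
    refine Finset.sum_le_sum fun Q hQ => ?_
    rw [Finset.card_sigma, ← card_TF (mem_core.1 hQ).1 0]
    calc ∑ p ∈ (TF Q 0).filter (fun p => deg Q p.1 = 3), (S.filter (Q.Adj p.1)).card
        = ∑ p ∈ (TF Q 0).filter (fun p => deg Q p.1 = 3), 3 := by
          refine Finset.sum_congr rfl fun p hp => ?_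
          rw [← deg_eq (mem_core.1 hQ).1]
          exact (mem_filter.1 hp).2
      _ = ((TF Q 0).filter (fun p => deg Q p.1 = 3)).card * 3 := by
          rw [Finset.sum_const, smul_eq_mul]
      _ ≤ 3 * (TF Q 0).card := by
          rw [mul_comm]
          exact Nat.mul_le_mul_left 3 (Finset.card_le_card (Finset.filter_subset _ _))
  rw [e1]
  refine le_trans ?_ e2
  have e3 : ∑ w ∈ S, ∑ Q ∈ core P (S.erase w) l, (BF Q (S.erase w)).card =
      (S.sigma fun w => (core P (S.erase w) l).sigma fun Q => BF Q (S.erase w)).card := by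
    rw [Finset.card_sigma]
    exact Finset.sum_congr rfl fun w _ => (Finset.card_sigma _ _).symm
  rw [e3, ← Finset.card_sigma (core P S l) (fun Q =>
    ((TF Q 0).filter (fun p => deg Q p.1 = 3)).sigma (fun p => S.filter (Q.Adj p.1)))]
  refine Finset.card_le_card_of_injOn
    (fun x : (Σ _ : ℕ, Σ _ : SimpleGraph ℕ, ℕ × ℕ) =>
      (⟨splitG x.2.1 x.2.2.1 x.2.2.2 (zc P x.2.1 x.2.2.1 x.2.2.2) x.1,
        ⟨(x.1, [], x.2.2.1), x.2.2.2⟩⟩ :
        Σ _ : SimpleGraph ℕ, Σ _ : ℕ × List ℕ × ℕ, ℕ)) ?_ ?_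
  · rintro ⟨w, Q, v, y⟩ hx
    simp only [coe_sigma, Set.mem_sigma_iff, mem_coe] at hx
    obtain ⟨hw, hQ, hp⟩ := hx
    simp only [coe_sigma, Set.mem_sigma_iff, mem_coe]
    obtain ⟨hc, ht, hd, ha, hyS⟩ := sp_core hP hw hQ hp
    refine ⟨hc, ?_, ?_⟩
    · rw [mem_filter, mem_TF (mem_core.1 hc).1]
      exact ⟨⟨ht, rfl⟩, hd⟩
    · rw [mem_filter]
      exact ⟨hyS, ha⟩
  · rintro ⟨w, Q, v, y⟩ hx ⟨w', Q', v', y'⟩ hx' heq
    simp only [coe_sigma, Set.mem_sigma_iff, mem_coe] at hx hx'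
    obtain ⟨hw, hQ, hp⟩ := hx
    obtain ⟨hw', hQ', hp'⟩ := hx'
    obtain ⟨hS, hPQ, -, -⟩ := mem_core.1 hQ
    obtain ⟨hS', hPQ', -, -⟩ := mem_core.1 hQ'
    simp only [BF, mem_filter, mem_product] at hp hp'
    simp only [Sigma.mk.injEq, heq_eq_eq, Prod.mk.injEq, true_and] at heq
    obtain ⟨h3, ⟨rfl, rfl⟩, rfl⟩ := heq
    have hws : w ∉ Q.support := fun h => by simpa using hS h
    have hws' : w ∉ Q'.support := fun h => by simpa using hS' h
    obtain ⟨hzy, hz, -⟩ := zc_spec hP (edgeSet_finite hS) hPQ hp.2.1 (by omega)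
    obtain ⟨hzy', hz', -⟩ := zc_spec hP (edgeSet_finite hS') hPQ' hp'.2.1 (by omega)
    have : Q = Q' := le_antisymm (sp_inj_le hws hws' hp.2.1 hz hp'.2.1 hz' hzy h3)
      (sp_inj_le hws' hws hp'.2.1 hz' hp.2.1 hz hzy' h3.symm)
    rw [this]

end GiantSurf57
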