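import Pool.Agent.GiantSurf57.PkgC3

/-!
# Package C6: adding a vertex joined to two vertices of the same thread
-/

open scoped Classical
open Finset

namespace GiantSurf57

namespace PkgC6

open PkgB34 PkgC3

/-- `Q` with a new path `x - v - y`. -/
def ear (Q : SimpleGraph ℕ) (x y v : ℕ) : SimpleGraph ℕ :=
  Q ⊔ (SimpleGraph.edge x v ⊔ SimpleGraph.edge v y)

theorem ear_adj {Q : SimpleGraph ℕ} {x y v : ℕ} (hx : x ≠ v) (hy : y ≠ v) (a b : ℕ) :
    (ear Q x y v).Adj a b ↔ Q.Adj a b ∨ (a = v ∧ (b = x ∨ b = y)) ∨ (b = v ∧ (a = x ∨ a = y)) := by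
  simp only [ear, SimpleGraph.sup_adj, SimpleGraph.edge_adj]
  constructor
  · rintro (h | ⟨h | h, _⟩ | ⟨h | h, _⟩)
    · exact Or.inl h
    · exact Or.inr (Or.inr ⟨h.2, Or.inl h.1⟩)
    · exact Or.inr (Or.inl ⟨h.1, Or.inl h.2⟩)
    · exact Or.inr (Or.inl ⟨h.1, Or.inr h.2⟩)
    · exact Or.inr (Or.inr ⟨h.2, Or.inr h.1⟩)
  · rintro (h | ⟨rfl, rfl | rfl⟩ | ⟨rfl, rfl | rfl⟩)
    · exact Or.inl h
    · right; left; exact ⟨Or.inr ⟨rfl, rfl⟩, hx.symm⟩
    · right; right; exact ⟨Or.inl ⟨rfl, rfl⟩, hy.symm⟩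
    · right; left; exact ⟨Or.inl ⟨rfl, rfl⟩, hx⟩
    · right; right; exact ⟨Or.inr ⟨rfl, rfl⟩, hy⟩

theorem reach_deg {Q : SimpleGraph ℕ} {x y : ℕ} (hxy : x ≠ y) (h : (deg2G Q).Reachable x y) :
    deg Q x = 2 := by
  obtain ⟨p⟩ := h
  cases p with
  | nil => exact absurd rfl hxy
  | cons h _ => exact h.2.1

/-- The pairs counted by `pairs2`, as a finset. -/
noncomputable def PF (Q : SimpleGraph ℕ) (S : Finset ℕ) : Finset (ℕ × ℕ) :=
  (S ×ˢ S).filter (fun p => p.1 ≠ p.2 ∧ (deg2G Q).Reachable p.1 p.2)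

theorem card_PF {Q : SimpleGraph ℕ} {S : Finset ℕ} (hS : Q.support ⊆ ↑S) :
    (PF Q S).card = pairs2 Q := by
  rw [pairs2, ← Set.ncard_coe_finset]
  congr 1
  ext ⟨x, y⟩
  simp only [PF, coe_filter, mem_product, Set.mem_ofPred_eq]
  constructor
  · exact fun h => h.2
  · intro h
    have h1 := reach_deg h.1 h.2
    have h2 := reach_deg h.1.symm h.2.symm
    exact ⟨⟨deg_pos_mem hS (v := x) (by omega), deg_pos_mem hS (v := y) (by omega)⟩, h⟩

section

variable {Q : SimpleGraph ℕ} {S : Finset ℕ} {x y v : ℕ}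

theorem ear_support (hS : Q.support ⊆ ↑(S.erase v)) (hvS : v ∈ S) (hx : x ∈ S.erase v)
    (hy : y ∈ S.erase v) : (ear Q x y v).support ⊆ ↑S := by
  have hxv := (Finset.mem_erase.1 hx).1
  have hyv := (Finset.mem_erase.1 hy).1
  rintro a ⟨b, hab⟩
  have hab : (ear Q x y v).Adj a b := hab
  rw [ear_adj hxv hyv] at hab
  rcases hab with h | ⟨rfl, _⟩ | ⟨_, rfl | rfl⟩
  · exact (Finset.erase_subset v S) (hS ⟨b, h⟩)
  · exact hvS
  · exact (Finset.mem_erase.1 hx).2
  · exact (Finset.mem_erase.1 hy).2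

theorem ear_nbr (hv : v ∉ Q.support) (hx : x ≠ v) (hy : y ≠ v) :
    (ear Q x y v).neighborSet v = {x, y} := by
  ext a
  rw [SimpleGraph.mem_neighborSet, ear_adj hx hy]
  simp only [Set.mem_insert_iff, Set.mem_singleton_iff, true_and]
  constructor
  · rintro (h | h | ⟨_, h | h⟩)
    · exact absurd ⟨a, h⟩ hv
    · exact h
    · exact absurd h.symm hx
    · exact absurd h.symm hy
  · intro h
    exact Or.inr (Or.inl h)

theorem ear_deg (hS : Q.support ⊆ ↑(S.erase v)) (hvS : v ∈ S) (hxy : x ≠ y) (hx : x ∈ S.erase v)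
    (hy : y ∈ S.erase v) {w : ℕ} (hw : w ≠ v) :
    deg (ear Q x y v) w = deg Q w + (if w = x ∨ w = y then 1 else 0) := by
  have hv : v ∉ Q.support := fun h => by simpa using hS h
  have hxv := (Finset.mem_erase.1 hx).1
  have hyv := (Finset.mem_erase.1 hy).1
  have hfin : (Q.neighborSet w).Finite := by
    rw [nbr_eq hS w]; exact Finset.finite_toSet _
  split_ifs with h
  · have e1 : (ear Q x y v).neighborSet w = insert v (Q.neighborSet w) := by
      ext a
      rw [SimpleGraph.mem_neighborSet, ear_adj hxv hyv]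
      simp only [Set.mem_insert_iff, SimpleGraph.mem_neighborSet]
      constructor
      · rintro (h1 | h1 | h1)
        · exact Or.inr h1
        · exact absurd h1.1 hw
        · exact Or.inl h1.1
      · rintro (h1 | h1)
        · exact Or.inr (Or.inr ⟨h1, h⟩)
        · exact Or.inl h1
    rw [deg, e1, Set.ncard_insert_of_notMem (fun h1 => hv ⟨w, h1.symm⟩) hfin, deg]
  · have e1 : (ear Q x y v).neighborSet w = Q.neighborSet w := by
      ext a
      rw [SimpleGraph.mem_neighborSet, ear_adj hxv hyv, SimpleGraph.mem_neighborSet]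
      constructor
      · rintro (h1 | h1 | h1)
        · exact h1
        · exact absurd h1.1 hw
        · exact absurd h1.2 h
      · intro h1
        exact Or.inl h1
    rw [deg, e1, deg, add_zero]

theorem ear_ne (hS : Q.support ⊆ ↑(S.erase v)) (hvS : v ∈ S) (hxy : x ≠ y) (hx : x ∈ S.erase v)
    (hy : y ∈ S.erase v) : ne (ear Q x y v) = ne Q + 2 := by
  have hv : v ∉ Q.support := fun h => by simpa using hS h
  have hxv := (Finset.mem_erase.1 hx).1
  have hyv := (Finset.mem_erase.1 hy).1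
  have h1 := handshake_all (ear_support hS hvS hx hy)
  have h2 := handshake_all hS
  rw [← Finset.add_sum_erase S _ hvS] at h1
  have h3 : ∑ w ∈ S.erase v, deg (ear Q x y v) w =
      ∑ w ∈ S.erase v, (deg Q w + (if w = x ∨ w = y then 1 else 0)) :=
    Finset.sum_congr rfl fun w hw => ear_deg hS hvS hxy hx hy (Finset.mem_erase.1 hw).1
  have h4 : deg (ear Q x y v) v = 2 := by rw [deg, ear_nbr hv hxv hyv, Set.ncard_pair hxy]
  have h5 : ∑ w ∈ S.erase v, (if w = x ∨ w = y then 1 else 0) = 2 := by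
    rw [← Finset.card_filter]
    have : (S.erase v).filter (fun w => w = x ∨ w = y) = {x, y} := by
      ext w
      simp only [mem_filter, mem_insert, mem_singleton]
      constructor
      · exact fun h => h.2
      · rintro (rfl | rfl)
        · exact ⟨hx, Or.inl rfl⟩
        · exact ⟨hy, Or.inr rfl⟩
    rw [this, Finset.card_pair hxy]
  rw [h3, Finset.sum_add_distrib, h5, h4, h2] at h1
  omega

theorem ear_core {P : SimpleGraph ℕ → Prop} (hP : SurfClass P) {l : ℕ} (hvS : v ∈ S)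
    (hQ : Q ∈ core P (S.erase v) l) (hp : (x, y) ∈ PF Q (S.erase v)) :
    ear Q x y v ∈ core P S (l + 1) ∧ Thread (ear Q x y v) x [v] y := by
  obtain ⟨hS, hPQ, hd, hne⟩ := mem_core.1 hQ
  have hv : v ∉ Q.support := fun h => by simpa using hS h
  simp only [PF, mem_filter, mem_product] at hp
  obtain ⟨⟨hx, hy⟩, hxy, hr⟩ := hp
  have hxv := (Finset.mem_erase.1 hx).1
  have hyv := (Finset.mem_erase.1 hy).1
  refine ⟨?_, ?_⟩
  · rw [mem_core]
    refine ⟨ear_support hS hvS hx hy, hP.ear Q x y v (edgeSet_finite hS) hPQ hxy hr hv, ?_, ?_⟩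
    · intro w hw
      by_cases hwv : w = v
      · subst hwv
        rw [deg, ear_nbr hv hxv hyv, Set.ncard_pair hxy]
      · rw [ear_deg hS hvS hxy hx hy hwv]
        have := hd w (Finset.mem_erase.2 ⟨hwv, hw⟩)
        omega
    · rw [ear_ne hS hvS hxy hx hy]
      have h2 := Finset.card_erase_add_one hvS
      omega
  · refine ⟨?_, by simp, ?_, ?_, ?_, fun _ => hxy⟩
    · exact ⟨(ear_adj hxv hyv _ _).2 (Or.inr (Or.inr ⟨rfl, Or.inl rfl⟩)),
        (ear_adj hxv hyv _ _).2 (Or.inr (Or.inl ⟨rfl, Or.inr rfl⟩))⟩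
    · intro w hw
      rw [List.mem_singleton] at hw
      subst hw
      rw [deg, ear_nbr hv hxv hyv, Set.ncard_pair hxy]
    · rw [ear_deg hS hvS hxy hx hy hxv, if_pos (Or.inl rfl)]
      have := hd x hx
      omega
    · rw [ear_deg hS hvS hxy hx hy hyv, if_pos (Or.inr rfl)]
      have := hd y hy
      omega

end

end PkgC6

open PkgB34 PkgC3 PkgC6 in
theorem pkgC6 (h1 : S_relabel) (h2 : S_inv) : S_Se := by
  intro P hP k l
  set S := range (k + 1) with hSdef
  have hcS : S.card = k + 1 := by rw [hSdef, card_range]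
  have e1 : (k + 1) * ∑ Q ∈ core P (range k) l, pairs2 Q =
      ∑ v ∈ S, ∑ Q ∈ core P (S.erase v) l, (PF Q (S.erase v)).card := by
    have : ∀ v ∈ S, ∑ Q ∈ core P (S.erase v) l, (PF Q (S.erase v)).card =
        ∑ Q ∈ core P (range k) l, pairs2 Q := by
      intro v hv
      have hcv : (S.erase v).card = k := by
        have := Finset.card_erase_add_one hv; omega
      rw [← h1 P hP pairs2 (fun G e => (h2 G e).2.2.2.2) (S.erase v) (range k) l
        (by rw [hcv, card_range])]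
      exact Finset.sum_congr rfl fun Q hQ => card_PF (mem_core.1 hQ).1
    rw [Finset.sum_congr rfl this, Finset.sum_const, smul_eq_mul, hcS]
  have e2 : SS P 1 (k + 1) (l + 1) = ∑ Q ∈ core P S (l + 1), (TF Q 1).card := by
    rw [SS]
    exact Finset.sum_congr rfl fun Q hQ => (card_TF (mem_core.1 hQ).1 _).symm
  rw [e1, e2]
  have e3 : ∑ v ∈ S, ∑ Q ∈ core P (S.erase v) l, (PF Q (S.erase v)).card =
      (S.sigma fun v => (core P (S.erase v) l).sigma fun Q => PF Q (S.erase v)).card := by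
    rw [Finset.card_sigma]
    exact Finset.sum_congr rfl fun v _ => (Finset.card_sigma _ _).symm
  rw [e3, ← Finset.card_sigma (core P S (l + 1)) (fun Q => TF Q 1)]
  refine Finset.card_le_card_of_injOn
    (fun x : (Σ _ : ℕ, Σ _ : SimpleGraph ℕ, ℕ × ℕ) =>
      (⟨ear x.2.1 x.2.2.1 x.2.2.2 x.1, (x.2.2.1, [x.1], x.2.2.2)⟩ :
        Σ _ : SimpleGraph ℕ, ℕ × List ℕ × ℕ)) ?_ ?_
  · rintro ⟨v, Q, x, y⟩ hx
    simp only [coe_sigma, Set.mem_sigma_iff, mem_coe] at hx
    obtain ⟨hv, hQ, hp⟩ := hx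
    simp only [coe_sigma, Set.mem_sigma_iff, mem_coe]
    have hc := ear_core hP hv hQ hp
    refine ⟨hc.1, ?_⟩
    rw [mem_TF (mem_core.1 hc.1).1]
    exact ⟨hc.2, rfl⟩
  · rintro ⟨v, Q, x, y⟩ hx ⟨v', Q', x', y'⟩ hx' heq
    simp only [coe_sigma, Set.mem_sigma_iff, mem_coe] at hx hx'
    obtain ⟨hv, hQ, hp⟩ := hx
    obtain ⟨hv', hQ', hp'⟩ := hx'
    have hS := (mem_core.1 hQ).1
    have hS' := (mem_core.1 hQ').1
    simp only [PF, mem_filter, mem_product] at hp hp'
    simp only [Sigma.mk.injEq, heq_eq_eq, Prod.mk.injEq, List.cons.injEq, and_true] at heq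
    obtain ⟨h3, rfl, rfl, rfl⟩ := heq
    have hvs : v ∉ Q.support := fun h => by simpa using hS h
    have hvs' : v ∉ Q'.support := fun h => by simpa using hS' h
    have hxv := (Finset.mem_erase.1 hp.1.1).1
    have hyv := (Finset.mem_erase.1 hp.1.2).1
    have key : ∀ (R R' : SimpleGraph ℕ), v ∉ R.support → ear R x y v = ear R' x y v → R ≤ R' := by
      intro R R' hR he a b hab
      have h4 : (ear R x y v).Adj a b := (ear_adj hxv hyv a b).2 (Or.inl hab)
      rw [he, ear_adj hxv hyv] at h4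
      rcases h4 with h | ⟨rfl, _⟩ | ⟨rfl, _⟩
      · exact h
      · exact absurd ⟨b, hab⟩ hR
      · exact absurd ⟨a, hab.symm⟩ hR
    have : Q = Q' := le_antisymm (key Q Q' hvs h3) (key Q' Q hvs' h3.symm)
    rw [this]

end GiantSurf57
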