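import Pool.Agent.GiantSurf57.PkgB5

/-!
# Package C7: few threads with 0 or 1 internal vertices
-/

open scoped Classical
open Finset

set_option autoImplicit false

namespace GiantSurf57

namespace PkgC7

open PkgB5

lemma wt_nonneg (P : SimpleGraph ℕ → Prop) (k l : ℕ) : 0 ≤ wt P k l := by
  unfold wt
  positivity

lemma fact_pos (k : ℕ) : (0 : ℝ) < (k.factorial : ℝ) := by exact_mod_cast k.factorial_pos

lemma fact_succ (k : ℕ) : (((k + 1).factorial : ℕ) : ℝ) = ((k : ℝ) + 1) * (k.factorial : ℝ) := by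
  rw [Nat.factorial_succ]
  push_cast
  ring

/-- The lower bound for the growth of the normalised numbers. -/
lemma wt_sub (h1 : S_W1) {P : SimpleGraph ℕ → Prop} (hP : SurfClass P) (k l : ℕ) (hl : 1 ≤ l) :
    ((k : ℝ) + l) * wt P k l ≤ k * wt P (k + 1) l := by
  have h := h1 P hP k l hl
  have h' : ((k : ℝ) + l) * (k + 1) * W P k l ≤ k * W P (k + 1) l := by exact_mod_cast h
  have hf := fact_pos k
  unfold wt
  rw [fact_succ]
  have e1 : ((k : ℝ) + l) * ((W P k l : ℝ) / (k.factorial : ℝ)) =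
      ((k : ℝ) + l) * (k + 1) * W P k l / (((k : ℝ) + 1) * (k.factorial : ℝ)) := by
    field_simp
  have e2 : (k : ℝ) * ((W P (k + 1) l : ℝ) / (((k : ℝ) + 1) * (k.factorial : ℝ))) =
      k * W P (k + 1) l / (((k : ℝ) + 1) * (k.factorial : ℝ)) := by
    field_simp
  rw [e1, e2]
  exact div_le_div_of_nonneg_right h' (by positivity)

/-- The upper bound for the growth of the normalised numbers. -/
lemma wt_sup (h1 : S_W1) (h2 : S_tri) (h3 : S_W2) {P : SimpleGraph ℕ → Prop} (hP : SurfClass P)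
    (k l : ℕ) (hl : 1 ≤ l) :
    ((k : ℝ) - 8 * l) * wt P (k + 1) l ≤ (k + l) * wt P k l := by
  have h4 := h3 P hP k l
  have h5 := tri_bound h1 h2 hP k hl
  have h6 := W_succ h1 hP k hl
  have h7 : (k + 1) * W P (k + 1) l * 2 ≤ (k + 1) * (k + l) * W P k l * 2 +
      8 * l * W P (k + 1) l * 2 + W P (k + 1) l := by
    calc (k + 1) * W P (k + 1) l * 2 ≤ ((k + 1) * (k + l) * W P k l + 8 * l * W P (k + 1) l +
          ∑ Q ∈ core P (range (k + 1)) l, isoTri Q) * 2 := Nat.mul_le_mul_right _ h4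
      _ = (k + 1) * (k + l) * W P k l * 2 + 8 * l * W P (k + 1) l * 2 +
          2 * ∑ Q ∈ core P (range (k + 1)) l, isoTri Q := by ring
      _ ≤ _ := Nat.add_le_add_left (h5.trans h6) _
  have h8 : ((k : ℝ) + 1) * W P (k + 1) l * 2 ≤ (k + 1) * (k + l) * W P k l * 2 +
      8 * l * W P (k + 1) l * 2 + W P (k + 1) l := by exact_mod_cast h7
  have h9 : ((k : ℝ) - 8 * l) * W P (k + 1) l ≤ (k + l) * (k + 1) * W P k l := by
    have : (0 : ℝ) ≤ W P (k + 1) l := by positivity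
    nlinarith
  have hf := fact_pos k
  unfold wt
  rw [fact_succ]
  have e1 : ((k : ℝ) + l) * ((W P k l : ℝ) / (k.factorial : ℝ)) =
      ((k : ℝ) + l) * (k + 1) * W P k l / (((k : ℝ) + 1) * (k.factorial : ℝ)) := by
    field_simp
  have e2 : ((k : ℝ) - 8 * l) * ((W P (k + 1) l : ℝ) / (((k : ℝ) + 1) * (k.factorial : ℝ))) =
      ((k : ℝ) - 8 * l) * W P (k + 1) l / (((k : ℝ) + 1) * (k.factorial : ℝ)) := by
    field_simp
  rw [e1, e2]
  exact div_le_div_of_nonneg_right h9 (by positivity)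

/-- One step. -/
lemma wt_step (h1 : S_W1) (h2 : S_tri) (h3 : S_W2) {P : SimpleGraph ℕ → Prop} (hP : SurfClass P)
    {k k' l : ℕ} (hl : 1 ≤ l) (hk : 16 * l ≤ k) (hk' : k ≤ k') :
    wt P (k' + 1) l ≤ Real.exp (18 * l / k) * wt P k' l := by
  have h := wt_sup h1 h2 h3 hP k' l hl
  have hl' : (1 : ℝ) ≤ l := by exact_mod_cast hl
  have hk1 : 16 * (l : ℝ) ≤ k := by exact_mod_cast hk
  have hk2 : (k : ℝ) ≤ k' := by exact_mod_cast hk'
  have hkpos : 0 < (k : ℝ) := by linarith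
  have hw := wt_nonneg P k' l
  have hw1 := wt_nonneg P (k' + 1) l
  have h4 : (1 + 18 * (l : ℝ) / k) ≤ Real.exp (18 * l / k) := by
    have := Real.add_one_le_exp (18 * (l : ℝ) / k)
    linarith
  refine le_trans ?_ (mul_le_mul_of_nonneg_right h4 hw)
  have h5 : 0 < (k' : ℝ) - 8 * l := by linarith
  have h6 : (k' : ℝ) + l ≤ (1 + 18 * (l : ℝ) / k) * (k' - 8 * l) := by
    have h7 : (18 * (l : ℝ) / k) * k = 18 * l := by field_simp
    have h8 : 0 ≤ 18 * (l : ℝ) / k := by positivity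
    have h9 : (k : ℝ) / 2 ≤ k' - 8 * l := by linarith
    have h10 : (18 * (l : ℝ) / k) * (k / 2) ≤ (18 * (l : ℝ) / k) * (k' - 8 * l) :=
      mul_le_mul_of_nonneg_left h9 h8
    nlinarith
  have h11 : ((k' : ℝ) - 8 * l) * wt P (k' + 1) l ≤
      ((k' : ℝ) - 8 * l) * ((1 + 18 * (l : ℝ) / k) * wt P k' l) := by
    refine h.trans ?_
    have := mul_le_mul_of_nonneg_right h6 hw
    linarith
  exact le_of_mul_le_mul_left h11 h5

lemma wt_steps (h1 : S_W1) (h2 : S_tri) (h3 : S_W2) {P : SimpleGraph ℕ → Prop}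
    (hP : SurfClass P) {k l : ℕ} (hl : 1 ≤ l) (hk : 16 * l ≤ k) (J : ℕ) :
    wt P (k + J) l ≤ Real.exp (18 * l / k * J) * wt P k l := by
  induction J with
  | zero => simp
  | succ J ih =>
    have h4 := wt_step h1 h2 h3 hP (k' := k + J) hl hk (by omega)
    have e : k + (J + 1) = k + J + 1 := by ring
    rw [e]
    refine h4.trans ?_
    have h5 := mul_le_mul_of_nonneg_left ih (Real.exp_pos (18 * l / k)).le
    refine h5.trans (le_of_eq ?_)
    rw [← mul_assoc, ← Real.exp_add]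
    congr 2
    push_cast
    ring

lemma exp18 (h1 : S_W1) (h2 : S_tri) (h3 : S_W2) {P : SimpleGraph ℕ → Prop}
    (hP : SurfClass P) {k l J : ℕ} (hl : 1 ≤ l) (hk : 16 * l ≤ k) (hJ : J * l ≤ k) :
    wt P (k + J) l ≤ Real.exp 18 * wt P k l := by
  refine (wt_steps h1 h2 h3 hP hl hk J).trans ?_
  refine mul_le_mul_of_nonneg_right ?_ (wt_nonneg P k l)
  rw [Real.exp_le_exp]
  have hk0 : 0 < (k : ℝ) := by
    have : 0 < k := by omega
    exact_mod_cast this
  have hJ' : (J : ℝ) * l ≤ k := by exact_mod_cast hJ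
  rw [div_mul_eq_mul_div, div_le_iff₀ hk0]
  linarith

/-- Normalised number of threads. -/
noncomputable def sw (P : SimpleGraph ℕ → Prop) (j k l : ℕ) : ℝ :=
  (SS P j k l : ℝ) / (k.factorial : ℝ)

lemma sw_nonneg (P : SimpleGraph ℕ → Prop) (j k l : ℕ) : 0 ≤ sw P j k l := by
  unfold sw
  positivity

lemma sw_a (h : S_Sa) {P : SimpleGraph ℕ → Prop} (hP : SurfClass P) (j k l : ℕ) :
    sw P j k l ≤ sw P (j + 1) (k + 1) l := by
  have h1 := h P hP j k l
  have h1' : ((k : ℝ) + 1) * SS P j k l ≤ SS P (j + 1) (k + 1) l := by exact_mod_cast h1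
  have hf := fact_pos k
  unfold sw
  rw [fact_succ, div_le_div_iff₀ hf (by positivity)]
  calc (SS P j k l : ℝ) * (((k : ℝ) + 1) * (k.factorial : ℝ)) =
        ((k : ℝ) + 1) * SS P j k l * (k.factorial : ℝ) := by ring
    _ ≤ SS P (j + 1) (k + 1) l * (k.factorial : ℝ) := mul_le_mul_of_nonneg_right h1' hf.le

lemma sw_c (h : S_Sc) {P : SimpleGraph ℕ → Prop} (hP : SurfClass P) (j k l : ℕ) (hl : 1 ≤ l) :
    sw P j k l ≤ sw P j (k + 1) l := by
  have h1 := h P hP j k l hl
  have h1' : ((k : ℝ) + 1) * SS P j k l ≤ SS P j (k + 1) l := by exact_mod_cast h1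
  have hf := fact_pos k
  unfold sw
  rw [fact_succ, div_le_div_iff₀ hf (by positivity)]
  calc (SS P j k l : ℝ) * (((k : ℝ) + 1) * (k.factorial : ℝ)) =
        ((k : ℝ) + 1) * SS P j k l * (k.factorial : ℝ) := by ring
    _ ≤ SS P j (k + 1) l * (k.factorial : ℝ) := mul_le_mul_of_nonneg_right h1' hf.le

lemma sw_a_iter (h : S_Sa) {P : SimpleGraph ℕ → Prop} (hP : SurfClass P) (j k l i : ℕ) :
    sw P j k l ≤ sw P (j + i) (k + i) l := by
  induction i with
  | zero => simp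
  | succ i ih => exact ih.trans (sw_a h hP (j + i) (k + i) l)

lemma sw_c_iter (h : S_Sc) {P : SimpleGraph ℕ → Prop} (hP : SurfClass P) (j k l i : ℕ)
    (hl : 1 ≤ l) : sw P j k l ≤ sw P j (k + i) l := by
  induction i with
  | zero => simp
  | succ i ih => exact ih.trans (sw_c h hP j (k + i) l hl)

/-- The total number of threads. -/
lemma sum_sw (h : S_thr) (P : SimpleGraph ℕ → Prop) (k l J : ℕ) :
    ∑ j ∈ range J, sw P j k l ≤ 6 * l * wt P k l := by
  have h1 : ∑ j ∈ range J, SS P j k l ≤ 6 * l * W P k l := by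
    unfold SS
    rw [Finset.sum_comm]
    calc ∑ Q ∈ core P (range k) l, ∑ j ∈ range J, thrN Q j ≤
          ∑ Q ∈ core P (range k) l, 6 * l :=
          Finset.sum_le_sum fun Q hQ => (h P (range k) l J Q hQ).2
      _ = 6 * l * W P k l := by
          rw [Finset.sum_const, smul_eq_mul]
          unfold W
          ring
  have h1' : ((∑ j ∈ range J, SS P j k l : ℕ) : ℝ) ≤ 6 * l * W P k l := by exact_mod_cast h1
  have hf := fact_pos k
  unfold sw wt
  rw [← Finset.sum_div, ← Nat.cast_sum, mul_div_assoc']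
  exact div_le_div_of_nonneg_right h1' hf.le

lemma key (h1 : S_W1) (h2 : S_tri) (h3 : S_W2) (ht : S_thr) (ha : S_Sa) (hc : S_Sc)
    {P : SimpleGraph ℕ → Prop} (hP : SurfClass P) {j k l : ℕ} (hl : 1 ≤ l) (hk : 16 * l ≤ k) :
    (k : ℝ) * sw P j k l ≤ 12 * Real.exp 18 * (l : ℝ) ^ 2 * wt P k l := by
  set J := k / l with hJ
  have hl0 : 0 < l := by omega
  have hJl : J * l ≤ k := Nat.div_mul_le_self k l
  have hJ2 : k < (J + 1) * l := by
    have := Nat.lt_mul_div_succ k hl0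
    rw [← hJ] at this
    linarith
  have h4 : (J : ℝ) * sw P j k l ≤ ∑ i ∈ range J, sw P (j + i) (k + J) l := by
    calc (J : ℝ) * sw P j k l = ∑ _i ∈ range J, sw P j k l := by
          rw [Finset.sum_const, card_range, nsmul_eq_mul]
      _ ≤ _ := by
          refine Finset.sum_le_sum fun i hi => ?_
          rw [mem_range] at hi
          refine (sw_a_iter ha hP j k l i).trans ?_
          have := sw_c_iter hc hP (j + i) (k + i) l (J - i) hl
          have e : k + i + (J - i) = k + J := by omega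
          rwa [e] at this
  have h5 : ∑ i ∈ range J, sw P (j + i) (k + J) l ≤ ∑ i ∈ range (j + J), sw P i (k + J) l := by
    rw [Finset.sum_range_add]
    have : 0 ≤ ∑ i ∈ range j, sw P i (k + J) l := Finset.sum_nonneg fun i _ => sw_nonneg _ _ _ _
    linarith
  have h6 := sum_sw ht P (k + J) l (j + J)
  have h7 := exp18 h1 h2 h3 hP hl hk hJl
  have hl' : (1 : ℝ) ≤ l := by exact_mod_cast hl
  have h8 : (J : ℝ) * sw P j k l ≤ 6 * l * (Real.exp 18 * wt P k l) :=
    (h4.trans h5).trans (h6.trans (mul_le_mul_of_nonneg_left h7 (by positivity)))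
  have h9 : (k : ℝ) ≤ 2 * (J * l) := by
    have hJ3 : (k : ℝ) ≤ ((J : ℝ) + 1) * l := by exact_mod_cast hJ2.le
    have hJ4 : (1 : ℝ) ≤ J := by
      have : 1 ≤ J := by
        rw [hJ, Nat.one_le_div_iff hl0]
        omega
      exact_mod_cast this
    nlinarith
  have hs := sw_nonneg P j k l
  calc (k : ℝ) * sw P j k l ≤ 2 * (J * l) * sw P j k l := mul_le_mul_of_nonneg_right h9 hs
    _ = 2 * l * (J * sw P j k l) := by ring
    _ ≤ 2 * l * (6 * l * (Real.exp 18 * wt P k l)) :=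
        mul_le_mul_of_nonneg_left h8 (by positivity)
    _ = _ := by ring

end PkgC7

open PkgC7 in
theorem pkgC7 (h1 : S_W1) (h2 : S_tri) (h3 : S_W2) (ht : S_thr) (ha : S_Sa) (hc : S_Sc) :
    S_Sf := by
  intro P hP
  refine ⟨⌈12 * Real.exp 18⌉₊, ?_⟩
  intro j k l _ hl hk
  have h := key h1 h2 h3 ht ha hc hP (j := j) hl hk
  have hC := Nat.le_ceil (12 * Real.exp 18)
  have hf := fact_pos k
  have h4 : (k : ℝ) * SS P j k l ≤ 12 * Real.exp 18 * (l : ℝ) ^ 2 * W P k l := by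
    unfold sw wt at h
    rw [mul_div_assoc', mul_div_assoc'] at h
    exact (div_le_div_iff_of_pos_right hf).mp h
  have h5 : (k : ℝ) * SS P j k l ≤ (⌈12 * Real.exp 18⌉₊ : ℝ) * (l : ℝ) ^ 2 * W P k l := by
    refine h4.trans ?_
    have : (0 : ℝ) ≤ (l : ℝ) ^ 2 * W P k l := by positivity
    nlinarith
  exact_mod_cast h5

end GiantSurf57
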