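import Pool.Agent.GiantSurf57.Stmts

/-!
# Package C8: many pairs on the same thread
-/

set_option autoImplicit false

open scoped Classical
open Finset

namespace GiantSurf57

namespace PkgC8

theorem deg_eq (Q : SimpleGraph ℕ) (v : ℕ) : deg Q v = (Q.incidenceSet v).ncard := by
  unfold deg
  rw [← Nat.card_coe_set_eq, ← Nat.card_coe_set_eq]
  exact Nat.card_congr (Q.incidenceSetEquivNeighborSet v).symm

theorem edges_finite {S : Finset ℕ} {Q : SimpleGraph ℕ} (h : Q.support ⊆ ↑S) :
    Q.edgeSet.Finite := by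
  have hfin : ((S.sym2 : Finset (Sym2 ℕ)) : Set (Sym2 ℕ)).Finite := Finset.finite_toSet _
  refine hfin.subset fun e he => ?_
  induction e with
  | _ x y =>
    have hxy : Q.Adj x y := he
    rw [Finset.mem_coe, Finset.mk_mem_sym2_iff]
    exact ⟨h ⟨y, hxy⟩, h ⟨x, hxy.symm⟩⟩

/-- handshake -/
theorem handshake {S : Finset ℕ} {Q : SimpleGraph ℕ} (h : Q.support ⊆ ↑S) :
    ∑ v ∈ S, deg Q v = 2 * ne Q := by
  have hfin := edges_finite h
  set F : Finset (Sym2 ℕ) := hfin.toFinset with hF
  have h1 : ∀ v, deg Q v = (F.filter (fun e => v ∈ e)).card := by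
    intro v
    rw [deg_eq, ← Set.ncard_coe_finset]
    congr 1
    ext e
    simp [hF, SimpleGraph.incidenceSet]
  have h2 : ne Q = F.card := by
    unfold ne
    rw [← Set.ncard_coe_finset]
    congr 1
    simp [hF]
  simp_rw [h1]
  have h3 := Finset.sum_card_bipartiteAbove_eq_sum_card_bipartiteBelow
    (s := S) (t := F) (fun (v : ℕ) (e : Sym2 ℕ) => v ∈ e)
  simp only [Finset.bipartiteAbove] at h3
  rw [h3, h2, mul_comm, ← smul_eq_mul, ← Finset.sum_const]
  refine Finset.sum_congr rfl fun e he => ?_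
  rw [hF, Set.Finite.mem_toFinset] at he
  induction e with
  | _ x y =>
    have hxy : Q.Adj x y := he
    have : Finset.bipartiteBelow (fun (v : ℕ) (e : Sym2 ℕ) => v ∈ e) S s(x, y) = {x, y} := by
      ext z
      simp only [Finset.mem_bipartiteBelow, Sym2.mem_iff, Finset.mem_insert, Finset.mem_singleton]
      constructor
      · exact fun hz => hz.2
      · intro hz
        refine ⟨?_, hz⟩
        rcases hz with rfl | rfl
        · exact h ⟨y, hxy⟩
        · exact h ⟨x, hxy.symm⟩
    rw [this, Finset.card_pair hxy.ne]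

theorem deg_zero {S : Finset ℕ} {Q : SimpleGraph ℕ} (h : Q.support ⊆ ↑S) {v : ℕ} (hv : v ∉ S) :
    deg Q v = 0 := by
  unfold deg
  have : Q.neighborSet v = ∅ := by
    ext w
    simp only [SimpleGraph.mem_neighborSet, Set.mem_empty_iff_false, iff_false]
    exact fun hw => hv (h ⟨w, hw⟩)
  rw [this, Set.ncard_empty]

theorem neighbors_finite {S : Finset ℕ} {Q : SimpleGraph ℕ} (h : Q.support ⊆ ↑S) (v : ℕ) :
    (Q.neighborSet v).Finite := by
  refine (Finset.finite_toSet S).subset fun w hw => h ⟨v, ?_⟩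
  exact (hw : Q.Adj v w).symm

/-- the walk argument -/
theorem exists_branch {S : Finset ℕ} {Q : SimpleGraph ℕ} (h : Q.support ⊆ ↑S)
    (h2 : ∀ v ∈ S, 2 ≤ deg Q v) {v w : ℕ} (p : Q.Walk v w) (hv : deg Q v = 2)
    (hw : deg Q w ≠ 2) : ∃ q : ℕ × ℕ, 3 ≤ deg Q q.1 ∧ Q.Adj q.1 q.2 ∧
      (deg2G Q).Reachable v q.2 := by
  induction p with
  | nil => exact absurd hv hw
  | @cons v u w hvu p ih =>
    by_cases hu : deg Q u = 2
    · obtain ⟨q, hq1, hq2, hq3⟩ := ih hu hw
      have : (deg2G Q).Adj v u := ⟨hvu, hv, hu⟩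
      exact ⟨q, hq1, hq2, this.reachable.trans hq3⟩
    · have huS : u ∈ S := h ⟨v, hvu.symm⟩
      have := h2 u huS
      exact ⟨(u, v), by simp only; omega, hvu.symm, SimpleGraph.Reachable.refl _⟩

theorem deg2G_reach_le {Q : SimpleGraph ℕ} {v w : ℕ} (h : (deg2G Q).Reachable v w) :
    Q.Reachable v w := by
  have hle : deg2G Q ≤ Q := fun _ _ hxy => hxy.1
  exact h.mono hle

end PkgC8

open PkgC8 in
theorem pkgC8 : S_pairs := by
  intro P S l a Q hQ ha
  rw [core, Finset.mem_filter, mem_graphsOn] at hQ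
  obtain ⟨hS, -, h2, hne⟩ := hQ
  have hhs := handshake hS
  rw [hne] at hhs
  -- the sets
  set D : Finset ℕ := S.filter (fun v => deg Q v = 2) with hD
  set B : Finset ℕ := S.filter (fun v => 3 ≤ deg Q v) with hB
  set I : Set ℕ := {v : ℕ | ∀ w, Q.Reachable v w → deg Q w = 2} with hI
  have hIS : I ⊆ ↑S := by
    intro v hv
    by_contra hvS
    have h0 := deg_zero hS hvS
    have := hv v (SimpleGraph.Reachable.refl _)
    omega
  have hIfin : I.Finite := (Finset.finite_toSet S).subset hIS
  set A : Finset ℕ := D.filter (fun v => v ∉ I) with hA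
  have hBD : B.card + D.card = S.card := by
    rw [← Finset.card_filter_add_card_filter_not (s := S) (fun v => 3 ≤ deg Q v)]
    congr 1
    apply congrArg
    apply Finset.filter_congr
    intro v hv
    have := h2 v hv
    omega
  have hsumB : ∑ v ∈ B, (deg Q v - 2) = 2 * l := by
    have e1 : ∑ v ∈ S, (deg Q v - 2) = 2 * l := by
      have : ∑ v ∈ S, (deg Q v - 2) + ∑ v ∈ S, 2 = ∑ v ∈ S, deg Q v := by
        rw [← Finset.sum_add_distrib]
        exact Finset.sum_congr rfl fun v hv => by have := h2 v hv; omega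
      rw [hhs, Finset.sum_const, smul_eq_mul] at this
      omega
    rw [← e1, hB, Finset.sum_filter]
    refine Finset.sum_congr rfl fun v hv => ?_
    have := h2 v hv
    split_ifs <;> omega
  have hBcard : B.card ≤ 2 * l := by
    rw [← hsumB, Finset.card_eq_sum_ones]
    refine Finset.sum_le_sum fun v hv => ?_
    have := (Finset.mem_filter.mp hv).2
    omega
  have hBdeg : ∑ v ∈ B, deg Q v ≤ 6 * l := by
    have : ∑ v ∈ B, deg Q v ≤ ∑ v ∈ B, 3 * (deg Q v - 2) := by
      refine Finset.sum_le_sum fun v hv => ?_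
      have := (Finset.mem_filter.mp hv).2
      omega
    rw [← Finset.mul_sum, hsumB] at this
    omega
  -- lower bound for |A|
  have hIcard : (D.filter (fun v => v ∈ I)).card ≤ isoCyc Q := by
    unfold isoCyc
    rw [← Set.ncard_coe_finset]
    refine Set.ncard_le_ncard ?_ hIfin
    intro v hv
    simp only [Finset.coe_filter, Set.mem_ofPred_eq] at hv
    exact hv.2
  have hAcard : a ≤ A.card := by
    have h3 := Finset.card_filter_add_card_filter_not (s := D) (fun v => v ∈ I)
    have h4 : (D.filter (fun v => ¬ v ∈ I)).card = A.card := rfl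
    omega
  -- the pairs
  set T : Finset (ℕ × ℕ) := (B ×ˢ S).filter (fun q => Q.Adj q.1 q.2) with hT
  have hTcard : T.card ≤ 6 * l := by
    refine le_trans (le_of_eq ?_) hBdeg
    rw [hT, Finset.card_filter, Finset.sum_product]
    refine Finset.sum_congr rfl fun v _ => ?_
    rw [← Finset.card_filter]
    unfold deg
    rw [← Set.ncard_coe_finset]
    congr 1
    ext w
    simp only [Finset.coe_filter, Set.mem_ofPred_eq, SimpleGraph.mem_neighborSet]
    exact ⟨fun hw => hw.2, fun hw => ⟨hS ⟨v, hw.symm⟩, hw⟩⟩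
  have hex : ∀ v : ℕ, ∃ q : ℕ × ℕ, v ∈ A → q ∈ T ∧ (deg2G Q).Reachable v q.2 := by
    intro v
    by_cases hv : v ∈ A
    · have hv1 := (Finset.mem_filter.mp hv).1
      have hv2 := (Finset.mem_filter.mp hv).2
      have hv3 := (Finset.mem_filter.mp hv1).2
      have : ∃ w, Q.Reachable v w ∧ deg Q w ≠ 2 := by
        by_contra hcon
        push Not at hcon
        exact hv2 hcon
      obtain ⟨w, ⟨p⟩, hw⟩ := this
      obtain ⟨q, hq1, hq2, hq3⟩ := exists_branch hS h2 p hv3 hw
      refine ⟨q, fun _ => ⟨?_, hq3⟩⟩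
      rw [hT, Finset.mem_filter, Finset.mem_product, hB, Finset.mem_filter]
      exact ⟨⟨⟨hS ⟨q.2, hq2⟩, hq1⟩, hS ⟨q.1, hq2.symm⟩⟩, hq2⟩
    · exact ⟨(0, 0), fun h => absurd h hv⟩
  choose f hf using hex
  -- Cauchy-Schwarz
  have hCS : A.card ^ 2 ≤ T.card * ∑ q ∈ T, (A.filter (fun v => f v = q)).card ^ 2 := by
    have e1 : A.card = ∑ q ∈ T, (A.filter (fun v => f v = q)).card :=
      Finset.card_eq_sum_card_fiberwise fun v hv => (hf v hv).1
    rw [e1]
    exact sq_sum_le_card_mul_sum_sq
  have hpairs : ∑ q ∈ T, (A.filter (fun v => f v = q)).card ^ 2 ≤ A.card + pairs2 Q := by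
    have e1 : ∀ q ∈ T, (A.filter (fun v => f v = q)).card ^ 2 =
        ((A ×ˢ A).filter (fun r => f r.1 = q ∧ f r.2 = q)).card := by
      intro q _
      rw [Finset.filter_product (s := A) (t := A) (fun v => f v = q) (fun v => f v = q),
        Finset.card_product, sq]
    rw [Finset.sum_congr rfl e1]
    have e2 : ∑ q ∈ T, ((A ×ˢ A).filter (fun r => f r.1 = q ∧ f r.2 = q)).card =
        ((A ×ˢ A).filter (fun r => f r.1 = f r.2)).card := by
      rw [Finset.card_eq_sum_card_fiberwise (s := (A ×ˢ A).filter (fun r => f r.1 = f r.2))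
        (t := T) (f := fun r => f r.1)]
      · refine Finset.sum_congr rfl fun q _ => ?_
        congr 1
        ext r
        simp only [Finset.mem_filter, Finset.mem_product]
        constructor
        · rintro ⟨h1, h3, h4⟩
          exact ⟨⟨h1, by rw [h3, h4]⟩, h3⟩
        · rintro ⟨⟨h1, h3⟩, h4⟩
          exact ⟨h1, h4, by rw [← h3, h4]⟩
      · intro r hr
        have := (Finset.mem_filter.mp hr).1
        exact (hf _ (Finset.mem_product.mp this).1).1
    rw [e2]
    have hPfin : {p : ℕ × ℕ | p.1 ≠ p.2 ∧ (deg2G Q).Reachable p.1 p.2}.Finite := by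
      refine (Finset.finite_toSet (S ×ˢ S)).subset ?_
      rintro ⟨x, y⟩ ⟨hne', hr⟩
      have hx : x ∈ S := by
        obtain ⟨p⟩ := hr
        cases p with
        | nil => exact absurd rfl hne'
        | cons h _ => exact hS ⟨_, h.1⟩
      have hy : y ∈ S := by
        obtain ⟨p⟩ := hr.symm
        cases p with
        | nil => exact absurd rfl hne'
        | cons h _ => exact hS ⟨_, h.1⟩
      simp [hx, hy]
    have e3 : ((A ×ˢ A).filter (fun r => f r.1 = f r.2)) ⊆
        A.image (fun v => (v, v)) ∪ hPfin.toFinset := by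
      intro r hr
      rw [Finset.mem_filter, Finset.mem_product] at hr
      rw [Finset.mem_union, Finset.mem_image, Set.Finite.mem_toFinset]
      by_cases h12 : r.1 = r.2
      · left
        exact ⟨r.1, hr.1.1, Prod.ext rfl h12⟩
      · right
        refine ⟨h12, ?_⟩
        have h3 := (hf _ hr.1.1).2
        have h4 := (hf _ hr.1.2).2
        rw [hr.2] at h3
        exact h3.trans h4.symm
    refine (Finset.card_le_card e3).trans ((Finset.card_union_le _ _).trans ?_)
    refine add_le_add Finset.card_image_le (le_of_eq ?_)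
    unfold pairs2
    rw [← Set.ncard_coe_finset, Set.Finite.coe_toFinset]
  have hmain : A.card ^ 2 ≤ 6 * l * (A.card + pairs2 Q) :=
    hCS.trans (Nat.mul_le_mul hTcard hpairs)
  by_cases hal : a ≤ 6 * l
  · calc a ^ 2 = a * a := sq a
      _ ≤ 6 * l * a := Nat.mul_le_mul_right _ hal
      _ ≤ 6 * l * (pairs2 Q + a) := Nat.mul_le_mul_left _ (by omega)
  · push Not at hal
    obtain ⟨c, hc⟩ := Nat.exists_eq_add_of_le hAcard
    obtain ⟨e, he⟩ := Nat.exists_eq_add_of_lt hal
    rw [hc] at hmain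
    rw [he] at hmain ⊢
    nlinarith [hmain, Nat.zero_le c, Nat.zero_le e, Nat.zero_le l, Nat.zero_le (l * c),
      Nat.zero_le (c * c), Nat.zero_le (c * e)]

end GiantSurf57
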