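import Pool.Agent.GiantSurf57.StmtsTop

/-! Package C9: lower bound for the step `l → l + 1`. -/

open scoped Classical
open Finset

namespace GiantSurf57

namespace PkgC9

theorem W_succ_ge (h1 : S_W1) (P : SimpleGraph ℕ → Prop) (hP : SurfClass P) (k l : ℕ) (hl : 1 ≤ l) :
    (k + 1) * W P k l ≤ W P (k + 1) l := by
  have h := h1 P hP k l hl
  have h2 : k * W P (k + 1) l ≤ (k + l) * W P (k + 1) l := Nat.mul_le_mul_right _ (by omega)
  have h3 : (k + l) * ((k + 1) * W P k l) ≤ (k + l) * W P (k + 1) l := by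
    calc (k + l) * ((k + 1) * W P k l) = (k + l) * (k + 1) * W P k l := by ring
      _ ≤ k * W P (k + 1) l := h
      _ ≤ _ := h2
  exact Nat.le_of_mul_le_mul_left h3 (by omega)

theorem choose_three (m : ℕ) : 6 * (m + 3).choose 3 = (m + 3) * (m + 2) * (m + 1) := by
  have h1 := Nat.add_one_mul_choose_eq (m + 2) 2
  have h2 := Nat.add_one_mul_choose_eq (m + 1) 1
  rw [Nat.choose_one_right] at h2
  have e1 : m + 2 + 1 = m + 3 := rfl
  have e2 : m + 1 + 1 = m + 2 := rfl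
  rw [e2] at h2
  rw [e1] at h1
  -- h1 : (m+3) * (m+2).choose 2 = (m+3).choose 3 * 3
  -- h2 : (m+2) * (m+1) = (m+2).choose 2 * 2
  calc 6 * (m + 3).choose 3 = 2 * ((m + 3).choose 3 * 3) := by ring
    _ = 2 * ((m + 3) * (m + 2).choose 2) := by rw [← h1]
    _ = (m + 3) * ((m + 2).choose 2 * 2) := by ring
    _ = (m + 3) * ((m + 2) * (m + 1)) := by rw [← h2]
    _ = _ := by ring

theorem W_succ_le (h1 : S_W1) (h2 : S_tri) (h3 : S_W2) (P : SimpleGraph ℕ → Prop)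
    (hP : SurfClass P) (k l : ℕ) (hl : 1 ≤ l) (hk : 16 * l ≤ k + 1) :
    W P (k + 1) l ≤ 4 * (k + 1) * W P k l := by
  obtain ⟨m, rfl⟩ : ∃ m, k = m + 2 := ⟨k - 2, by omega⟩
  have g0 := W_succ_ge h1 P hP m l hl
  have g1 := W_succ_ge h1 P hP (m + 1) l hl
  have g2 := W_succ_ge h1 P hP (m + 2) l hl
  have ht := h2 P hP m l
  have hw := h3 P hP (m + 2) l
  have e3 : m + 2 + 1 = m + 3 := rfl
  have e2 : m + 1 + 1 = m + 2 := rfl
  rw [e3] at hw g2 hk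
  rw [e2] at g1
  rw [e3]
  set T := ∑ Q ∈ core P (range (m + 3)) l, isoTri Q with hT
  set w0 := W P m l
  set w1 := W P (m + 1) l
  set w2 := W P (m + 2) l
  set w3 := W P (m + 3) l
  have hc := choose_three m
  have hT2 : 2 * T ≤ w3 := by
    have a1 : 2 * T ≤ (m + 3) * (m + 2) * (m + 1) * w0 := by
      calc 2 * T ≤ 2 * (3 * (m + 3).choose 3 * w0) := Nat.mul_le_mul_left _ ht
        _ = (6 * (m + 3).choose 3) * w0 := by ring
        _ = _ := by rw [hc]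
    calc 2 * T ≤ (m + 3) * (m + 2) * (m + 1) * w0 := a1
      _ = (m + 3) * ((m + 2) * ((m + 1) * w0)) := by ring
      _ ≤ (m + 3) * ((m + 2) * w1) := by gcongr
      _ ≤ (m + 3) * w2 := by gcongr
      _ ≤ w3 := g2
  -- (m+3) w3 ≤ (m+3)(m+2+l) w2 + 8 l w3 + T, 16 l ≤ m+3, 2T ≤ w3
  have hwZ : ((m : ℤ) + 3) * w3 ≤ ((m : ℤ) + 3) * ((m : ℤ) + 2 + l) * w2 + 8 * l * w3 + T := by
    exact_mod_cast hw
  have hkZ : (16 : ℤ) * l ≤ (m : ℤ) + 3 := by exact_mod_cast hk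
  have hTZ : (2 : ℤ) * T ≤ w3 := by exact_mod_cast hT2
  have hw3 : (0 : ℤ) ≤ w3 := by positivity
  have hw2 : (0 : ℤ) ≤ w2 := by positivity
  have hm : (0 : ℤ) ≤ m := by positivity
  have hlZ : (1 : ℤ) ≤ l := by exact_mod_cast hl
  have b1 : 8 * (l : ℤ) * w3 * 2 ≤ ((m : ℤ) + 3) * w3 := by nlinarith
  -- (m+3) w3 ≤ 2 (m+3)(m+2+l) w2 + 2T ≤ ... + w3
  have b2 : ((m : ℤ) + 2) * w3 ≤ 2 * (((m : ℤ) + 3) * ((m : ℤ) + 2 + l)) * w2 := by nlinarith
  have b3 : 2 * (((m : ℤ) + 3) * ((m : ℤ) + 2 + l)) ≤ (m + 2) * (4 * ((m : ℤ) + 3)) := by nlinarith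
  have b4 : ((m : ℤ) + 2) * w3 ≤ (m + 2) * (4 * ((m : ℤ) + 3) * w2) := by
    calc ((m : ℤ) + 2) * w3 ≤ 2 * (((m : ℤ) + 3) * ((m : ℤ) + 2 + l)) * w2 := b2
      _ ≤ ((m + 2) * (4 * ((m : ℤ) + 3))) * w2 := by gcongr
      _ = _ := by ring
  have b5 : (w3 : ℤ) ≤ 4 * ((m : ℤ) + 3) * w2 := le_of_mul_le_mul_left b4 (by linarith)
  exact_mod_cast b5

end PkgC9

theorem pkgC9 (h1 : S_W1) (h2 : S_tri) (h3 : S_W2) (h4 : S_cyc2) (h5 : S_Se) (h6 : S_Sf)
    (h7 : S_pairs) : S_W4 := by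
  intro P hP
  obtain ⟨C0, hC0⟩ := h6 P hP
  refine ⟨3072 * C0 + 200, ?_⟩
  intro k l hl hk
  have hk1 : 200 * l ≤ k := by
    calc 200 * l ≤ (3072 * C0 + 200) * l := Nat.mul_le_mul_right _ (by omega)
      _ ≤ k := hk
  set s := core P (range k) l with hs
  have hw : W P k l = s.card := rfl
  set a : SimpleGraph ℕ → ℕ := fun Q => k - 2 * l - isoCyc Q with ha
  -- S_pairs
  have hp : ∀ Q ∈ s, (a Q) ^ 2 ≤ 6 * l * (pairs2 Q + a Q) := by
    intro Q hQ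
    by_cases hc : 2 * l + isoCyc Q ≤ k
    · refine h7 P (range k) l (a Q) Q hQ ?_
      rw [Finset.card_range]
      simp only [ha]
      omega
    · have : a Q = 0 := by simp only [ha]; omega
      rw [this]; simp
  have hsum1 : ∑ Q ∈ s, (a Q) ^ 2 ≤ 6 * l * (∑ Q ∈ s, pairs2 Q + ∑ Q ∈ s, a Q) := by
    rw [← Finset.sum_add_distrib, Finset.mul_sum]
    exact Finset.sum_le_sum hp
  have hsum2 : ∑ Q ∈ s, a Q ≤ k * s.card := by
    calc ∑ Q ∈ s, a Q ≤ ∑ _Q ∈ s, k := Finset.sum_le_sum (fun Q _ => by simp only [ha]; omega)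
      _ = k * s.card := by rw [Finset.sum_const, smul_eq_mul, mul_comm]
  have hcyc := h4 P hP k l hl
  have hsum3 : k * s.card ≤ ∑ Q ∈ s, a Q + 2 * l * s.card + ∑ Q ∈ s, isoCyc Q := by
    calc k * s.card = ∑ _Q ∈ s, k := by rw [Finset.sum_const, smul_eq_mul, mul_comm]
      _ ≤ ∑ Q ∈ s, (a Q + 2 * l + isoCyc Q) :=
          Finset.sum_le_sum (fun Q _ => by simp only [ha]; omega)
      _ = ∑ Q ∈ s, a Q + 2 * l * s.card + ∑ Q ∈ s, isoCyc Q := by
          rw [Finset.sum_add_distrib, Finset.sum_add_distrib, Finset.sum_const, smul_eq_mul,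
            mul_comm s.card]
  rw [hw, ← hs] at hcyc
  -- k w ≤ 4 Σ a
  have hA : k * s.card ≤ 4 * ∑ Q ∈ s, a Q := by
    have : 8 * l * s.card ≤ k * s.card := Nat.mul_le_mul_right _ (by omega)
    have e : 8 * l * s.card = 4 * (2 * l * s.card) := by ring
    omega
  have hCS0 := sq_sum_le_card_mul_sum_sq (s := s) (f := a)
  have hCS : (∑ Q ∈ s, a Q) ^ 2 ≤ s.card * ∑ Q ∈ s, (a Q) ^ 2 := by
    simpa only [Nat.cast_id] using hCS0
  set A := ∑ Q ∈ s, a Q with hAdef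
  set B := ∑ Q ∈ s, (a Q) ^ 2 with hBdef
  set D := ∑ Q ∈ s, pairs2 Q with hDdef
  set w := s.card with hwdef
  -- key: k² w ≤ 192 l D
  have key : k ^ 2 * w ≤ 192 * l * D := by
    rcases Nat.eq_zero_or_pos w with h0 | hpos
    · rw [h0]; simp
    · have c1 : (k * w) ^ 2 ≤ 16 * A ^ 2 := by
        calc (k * w) ^ 2 ≤ (4 * A) ^ 2 := Nat.pow_le_pow_left hA 2
          _ = _ := by ring
      have c2 : (k * w) ^ 2 ≤ 16 * (w * (6 * l * (D + k * w))) := by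
        calc (k * w) ^ 2 ≤ 16 * A ^ 2 := c1
          _ ≤ 16 * (w * B) := by gcongr
          _ ≤ 16 * (w * (6 * l * (D + A))) := by gcongr
          _ ≤ 16 * (w * (6 * l * (D + k * w))) := by gcongr
      have c3 : w * (k ^ 2 * w) ≤ w * (96 * l * D + 96 * l * k * w) := by
        calc w * (k ^ 2 * w) = (k * w) ^ 2 := by ring
          _ ≤ _ := c2
          _ = _ := by ring
      have c4 : k ^ 2 * w ≤ 96 * l * D + 96 * l * k * w := Nat.le_of_mul_le_mul_left c3 hpos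
      have c5 : 192 * l * k * w ≤ k ^ 2 * w := by
        calc 192 * l * k * w ≤ k * k * w := by gcongr; omega
          _ = _ := by ring
      have e1 : 192 * l * D = 2 * (96 * l * D) := by ring
      have e2 : 192 * l * k * w = 2 * (96 * l * k * w) := by ring
      omega
  have hSe := h5 P hP k l
  have hSf := hC0 1 (k + 1) (l + 1) le_rfl (by omega) (by omega)
  have hWs := PkgC9.W_succ_le h1 h2 h3 P hP k (l + 1) (by omega) (by omega)
  rw [← hs, ← hDdef] at hSe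
  set SSv := SS P 1 (k + 1) (l + 1)
  set X := W P (k + 1) (l + 1)
  set Y := W P k (l + 1)
  have f1 : (k + 1) * (k ^ 2 * (k + 1) * w) ≤ (k + 1) * ((3072 * C0) * l ^ 3 * Y) := by
    have hl2 : (l + 1) ^ 2 ≤ 4 * l ^ 2 := by nlinarith
    calc (k + 1) * (k ^ 2 * (k + 1) * w) = (k + 1) ^ 2 * (k ^ 2 * w) := by ring
      _ ≤ (k + 1) ^ 2 * (192 * l * D) := by gcongr
      _ = 192 * l * ((k + 1) * ((k + 1) * D)) := by ring
      _ ≤ 192 * l * ((k + 1) * SSv) := by gcongr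
      _ ≤ 192 * l * (C0 * (l + 1) ^ 2 * X) := by gcongr
      _ ≤ 192 * l * (C0 * (4 * l ^ 2) * (4 * (k + 1) * Y)) := by gcongr
      _ = (k + 1) * ((3072 * C0) * l ^ 3 * Y) := by ring
  have f2 := Nat.le_of_mul_le_mul_left f1 (by omega)
  calc k ^ 3 * w ≤ k ^ 2 * (k + 1) * w := by
        have : k ^ 3 ≤ k ^ 2 * (k + 1) := by nlinarith
        gcongr
    _ ≤ (3072 * C0) * l ^ 3 * Y := f2
    _ ≤ (3072 * C0 + 200) * l ^ 3 * Y := by gcongr; omega

end GiantSurf57
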