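import Pool.Agent.GiantSurf57.Defs

/-!
# Statements of the packages of the project `GiantSurf57`, as propositions

Each package proves one of these propositions (possibly from some of the others).
-/

open scoped Classical
open Finset

namespace GiantSurf57

/-! ## A. Relabelling -/

/-- A1. Sums of invariant functions over the cores on `S` depend only on `|S|`. -/
def S_relabel : Prop := ∀ P : SimpleGraph ℕ → Prop, SurfClass P → ∀ Φ : SimpleGraph ℕ → ℕ,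
  (∀ (G : SimpleGraph ℕ) (e : Equiv.Perm ℕ), Φ (G.map e.toEmbedding) = Φ G) →
  ∀ (S S' : Finset ℕ) (l : ℕ), S.card = S'.card →
    ∑ Q ∈ core P S l, Φ Q = ∑ Q ∈ core P S' l, Φ Q

/-- A2. The functions used are invariant. -/
def S_inv : Prop := ∀ (G : SimpleGraph ℕ) (e : Equiv.Perm ℕ),
  (∀ j, thrN (G.map e.toEmbedding) j = thrN G j) ∧ bigDeg (G.map e.toEmbedding) = bigDeg G ∧
  isoCyc (G.map e.toEmbedding) = isoCyc G ∧ isoTri (G.map e.toEmbedding) = isoTri G ∧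
  pairs2 (G.map e.toEmbedding) = pairs2 G

/-- A3. The same for the sets `grs` and `trees`. -/
def S_relabel2 : Prop := (∀ P : SimpleGraph ℕ → Prop, SurfClass P →
    ∀ (S S' : Finset ℕ) (t l : ℕ), S.card = S'.card → (grs P S t l).card = (grs P S' t l).card) ∧
  (∀ S S' : Finset ℕ, S.card = S'.card → (trees S).card = (trees S').card)

/-! ## B. Counting cores: changing the number of vertices -/

/-- B1. Subdividing. -/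
def S_W1 : Prop := ∀ P : SimpleGraph ℕ → Prop, SurfClass P → ∀ k l : ℕ, 1 ≤ l →
  (k + l) * (k + 1) * W P k l ≤ k * W P (k + 1) l

/-- B2. Isolated triangles. -/
def S_tri : Prop := ∀ P : SimpleGraph ℕ → Prop, SurfClass P → ∀ k l : ℕ,
  ∑ Q ∈ core P (range (k + 3)) l, isoTri Q ≤ 3 * (k + 3).choose 3 * W P k l

/-- B3. Suppressing. -/
def S_W2 : Prop := ∀ P : SimpleGraph ℕ → Prop, SurfClass P → ∀ k l : ℕ,
  (k + 1) * W P (k + 1) l ≤ (k + 1) * (k + l) * W P k l + 8 * l * W P (k + 1) l +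
    ∑ Q ∈ core P (range (k + 1)) l, isoTri Q

/-- B4. Vertices on isolated cycles. -/
def S_cyc : Prop := ∀ P : SimpleGraph ℕ → Prop, SurfClass P → ∀ k l : ℕ,
  ∑ Q ∈ core P (range (k + 1)) l, isoCyc Q ≤ (k + 1) * ∑ Q ∈ core P (range k) l, isoCyc Q +
    ∑ Q ∈ core P (range (k + 1)) l, isoTri Q

/-- B5. Vertices on isolated cycles, final bound. -/
def S_cyc2 : Prop := ∀ P : SimpleGraph ℕ → Prop, SurfClass P → ∀ k l : ℕ, 1 ≤ l →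
  2 * ∑ Q ∈ core P (range k) l, isoCyc Q ≤ k * W P k l

/-! ## C. Threads -/

/-- C1. Few threads. -/
def S_thr : Prop := ∀ (P : SimpleGraph ℕ → Prop) (S : Finset ℕ) (l J : ℕ) (Q : SimpleGraph ℕ),
  Q ∈ core P S l → {p : ℕ × List ℕ × ℕ | Thread Q p.1 p.2.1 p.2.2}.Finite ∧
    ∑ j ∈ range J, thrN Q j ≤ 6 * l

/-- C2. Every dart at a branch vertex starts a thread. -/
def S_thrEx : Prop := ∀ (P : SimpleGraph ℕ → Prop) (S : Finset ℕ) (l : ℕ) (Q : SimpleGraph ℕ),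
  Q ∈ core P S l → ∀ b y : ℕ, Q.Adj b y → 3 ≤ deg Q b →
    ∃ (L : List ℕ) (c : ℕ), Thread Q b L c ∧ (L ++ [c]).head? = some y

/-- C3. Subdividing the first edge of a thread. -/
def S_Sa : Prop := ∀ P : SimpleGraph ℕ → Prop, SurfClass P → ∀ j k l : ℕ,
  (k + 1) * SS P j k l ≤ SS P (j + 1) (k + 1) l

/-- C4. Subdividing an edge outside a thread. -/
def S_Sc : Prop := ∀ P : SimpleGraph ℕ → Prop, SurfClass P → ∀ j k l : ℕ, 1 ≤ l →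
  (k + 1) * SS P j k l ≤ SS P j (k + 1) l

/-- C5. Vertex splitting. -/
def S_Sd : Prop := ∀ P : SimpleGraph ℕ → Prop, SurfClass P → ∀ k l : ℕ,
  (k + 1) * ∑ Q ∈ core P (range k) l, bigDeg Q ≤ 3 * SS P 0 (k + 1) l

/-- C6. Adding a vertex. -/
def S_Se : Prop := ∀ P : SimpleGraph ℕ → Prop, SurfClass P → ∀ k l : ℕ,
  (k + 1) * ∑ Q ∈ core P (range k) l, pairs2 Q ≤ SS P 1 (k + 1) (l + 1)

/-- C7. Few threads with 0 or 1 internal vertices. -/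
def S_Sf : Prop := ∀ P : SimpleGraph ℕ → Prop, SurfClass P → ∃ C : ℕ, ∀ j k l : ℕ, j ≤ 1 →
  1 ≤ l → 16 * l ≤ k → k * SS P j k l ≤ C * l ^ 2 * W P k l

/-- C8. Many pairs on the same thread. -/
def S_pairs : Prop := ∀ (P : SimpleGraph ℕ → Prop) (S : Finset ℕ) (l a : ℕ) (Q : SimpleGraph ℕ),
  Q ∈ core P S l → a + 2 * l + isoCyc Q ≤ S.card → a ^ 2 ≤ 6 * l * (pairs2 Q + a)

/-- C9. Lower bound for the step `l → l + 1`. -/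
def S_W4 : Prop := ∀ P : SimpleGraph ℕ → Prop, SurfClass P → ∃ C : ℕ, ∀ k l : ℕ, 1 ≤ l →
  C * l ≤ k → k ^ 3 * W P k l ≤ C * l ^ 3 * W P k (l + 1)

/-! ## D. Deleting a thread -/

/-- D1. Number of end points of short walks. -/
def S_NB : Prop := ∀ (Q : SimpleGraph ℕ) (M x : ℕ), Q.edgeSet.Finite → deg Q x ≤ 3 →
  {y | Short Q M x y}.Finite ∧ {y | Short Q M x y}.ncard ≤ 2 ^ 31 * (M + 1)

/-- D2. Deleting a good thread with different end points. -/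
def S_T1 : Prop := ∀ P : SimpleGraph ℕ → Prop, SurfClass P → ∀ k l M : ℕ,
  ∑ Q ∈ core P (range k) (l + 1), {p ∈ goodThr Q M | p.1 ≠ p.2.2}.ncard ≤
    ∑ p ∈ range (k + 1), k.descFactorial p * (W P (k - p) l * (k * (2 ^ 31 * (M + 1))))

/-- D3. Deleting a loop at a cubic vertex and the stem. -/
def S_T2 : Prop := ∀ P : SimpleGraph ℕ → Prop, SurfClass P → ∀ k l : ℕ,
  ∑ Q ∈ core P (range k) (l + 1),
      {p : ℕ × List ℕ | Thread Q p.1 p.2 p.1 ∧ deg Q p.1 = 3}.ncard ≤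
    ∑ r ∈ range (k + 1), r * (k.descFactorial r * (W P (k - r) l * k))

/-- D4. Upper bound for the step `l → l + 1`. -/
def S_W3 : Prop := ∀ P : SimpleGraph ℕ → Prop, SurfClass P → (∃ l0, ManyGood P l0) →
  ∃ C : ℕ, ∀ k l : ℕ, C ≤ l → C * l ≤ k → l ^ 3 * W P k (l + 1) ≤ C * k ^ 3 * W P k l

/-- Properties of the doubly indexed sequence of normalised numbers of cores. -/
structure WSeq (w : ℕ → ℕ → ℝ) : Prop where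
  nonneg : ∀ k l, 0 ≤ w k l
  zero : ∀ k, w k 0 ≤ 1
  pos : 0 < w 4 1
  sub : ∀ k l : ℕ, 1 ≤ l → ((k : ℝ) + l) * w k l ≤ k * w (k + 1) l
  sup : ∀ k l : ℕ, 1 ≤ l → ((k : ℝ) - 8 * l) * w (k + 1) l ≤ (k + l) * w k l
  up : ∃ C : ℕ, 1 ≤ C ∧ ∀ k l : ℕ, C ≤ l → C * l ≤ k →
    (l : ℝ) ^ 3 * w k (l + 1) ≤ C * (k : ℝ) ^ 3 * w k l
  lo : ∃ C : ℕ, 1 ≤ C ∧ ∀ k l : ℕ, 1 ≤ l → C * l ≤ k →
    (k : ℝ) ^ 3 * w k l ≤ C * (l : ℝ) ^ 3 * w k (l + 1)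

/-- D5. There is a core with 4 vertices and 5 edges. -/
def S_W41 : Prop := ∀ P : SimpleGraph ℕ → Prop, SurfClass P → 0 < W P 4 1

/-- D6. Collecting the properties. -/
def S_WSeq : Prop := ∀ P : SimpleGraph ℕ → Prop, SurfClass P → (∃ l0, ManyGood P l0) →
  WSeq (wt P)

/-! ## E. From cores to graphs -/

/-- E1. Adding a leaf does not change the number of tree components. -/
def S_leaf : Prop := ∀ (S : Finset ℕ) (G : SimpleGraph ℕ) (x y : ℕ), G ∈ graphsOn S → x ∉ S →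
  y ∈ S → tc (G ⊔ SimpleGraph.edge x y) (insert x S) = tc G S

/-- E2. Cores are the graphs without tree components and without leaves. -/
def S_coreLeaf : Prop := ∀ (P : SimpleGraph ℕ → Prop) (S : Finset ℕ) (l : ℕ),
  core P S l = (grs P S 0 l).filter (fun G => ∀ v ∈ S, deg G v ≠ 1)

/-- E3. Graphs in which all vertices of `J` are leaves. -/
def S_Jleaf : Prop := ∀ P : SimpleGraph ℕ → Prop, SurfClass P → ∀ (S J : Finset ℕ) (l : ℕ),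
  J ⊆ S → ((grs P S 0 l).filter (fun G => ∀ v ∈ J, deg G v = 1)).card =
    (S.card - J.card) ^ J.card * (grs P (S \ J) 0 l).card

/-- E4. Inclusion-exclusion over the leaves. -/
def S_dec0 : Prop := ∀ P : SimpleGraph ℕ → Prop, SurfClass P → ∀ n l : ℕ,
  (W P n l : ℝ) = ∑ j ∈ range (n + 1),
    (-1 : ℝ) ^ j * (n.choose j : ℝ) * ((n - j : ℕ) : ℝ) ^ j * (cnt P (n - j) 0 l : ℝ)

/-- E5. Abel inversion. -/
def S_abel : Prop := ∀ c w : ℕ → ℝ,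
  (∀ n : ℕ, w n = ∑ j ∈ range (n + 1),
    (-1 : ℝ) ^ j * (n.choose j : ℝ) * ((n - j : ℕ) : ℝ) ^ j * c (n - j)) →
  c 0 = w 0 ∧ ∀ n : ℕ, 1 ≤ n → c n = ∑ k ∈ range (n + 1),
    (n.choose k : ℝ) * ((k : ℝ) / (n : ℝ)) * (n : ℝ) ^ (n - k) * w k

/-- E6. Trees in which all vertices of `J` are leaves. -/
def S_JleafT : Prop := ∀ S J : Finset ℕ, 3 ≤ S.card → J ⊆ S →
  ((trees S).filter (fun G => ∀ v ∈ J, deg G v = 1)).card =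
    (S.card - J.card) ^ J.card * (trees (S \ J)).card

/-- E7. Cayley's formula. -/
def S_cayley : Prop := ∀ S : Finset ℕ, 1 ≤ S.card → (trees S).card = S.card ^ (S.card - 2)

/-- E8. Adding a tree component. -/
def S_treeJoin : Prop := ∀ P : SimpleGraph ℕ → Prop, SurfClass P →
  ∀ (S A : Finset ℕ) (G T : SimpleGraph ℕ), G ∈ graphsOn S → Disjoint S A → T ∈ trees A → P G →
    P (G ⊔ T)

/-- E9. Removing a tree component. -/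
def S_decT : Prop := ∀ P : SimpleGraph ℕ → Prop, SurfClass P → ∀ n t l : ℕ,
  (t + 1) * cnt P n (t + 1) l =
    ∑ s ∈ Icc 1 n, n.choose s * s ^ (s - 2) * cnt P (n - s) t l

/-- E10. The number of graphs in terms of the sequences. -/
def S_cnt : Prop := ∀ P : SimpleGraph ℕ → Prop, SurfClass P → ∀ n t l : ℕ,
  (cnt P n t l : ℝ) = (n.factorial : ℝ) * Real.exp n * aa (cc (fun k => wt P k l)) t n

/-! ## F. Analysis -/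

/-- `x ^ (3/2)`. -/
noncomputable def r32 (x : ℝ) : ℝ := x * √x

/-- `∑_{k ≥ j} (k²/n) P(Pois(n) = n - k)`. -/
noncomputable def BB (j n : ℕ) : ℝ := ∑ k ∈ Icc j n, (k : ℝ) * bt n k

/-- F1. -/
def S_BB1 : Prop := ∃ C : ℝ, ∀ j n : ℕ, 1 ≤ j → 1 ≤ n → BB j n ≤ C

/-- F2. -/
def S_BB2 : Prop := ∃ c : ℝ, 0 < c ∧ ∀ j n : ℕ, 1 ≤ j → j ≤ n → j ^ 2 ≤ 4 * n → c ≤ BB j n

/-- F3. -/
def S_BB3 : Prop := ∀ j n : ℕ, 1 ≤ j → 1 ≤ n → 4 * n < j ^ 2 → BB j n ≤ BB j (n + 1)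

/-- F4. Quasi-monotonicity of `cc u`. -/
def S_quasi : Prop := ∃ C : ℝ, 1 ≤ C ∧ ∀ u : ℕ → ℝ, (∀ k, 0 ≤ u k) →
  (∀ k : ℕ, ((k : ℝ) + 1) * u k ≤ k * u (k + 1)) → ∀ a b : ℕ, a ≤ b → cc u a ≤ C * cc u b

/-- F5. Upper bound for the third moment. -/
def S_mom : Prop := ∃ C δ : ℝ, 0 < δ ∧ ∀ (u : ℕ → ℝ) (l n : ℕ), 1 ≤ l → 1 ≤ n →
  (l : ℝ) ≤ δ * n → (∀ k, 0 ≤ u k) → (∀ k : ℕ, ((k : ℝ) + l) * u k ≤ k * u (k + 1)) →
  (∀ k : ℕ, ((k : ℝ) - 8 * l) * u (k + 1) ≤ (k + l) * u k) →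
  ∑ k ∈ range (n + 1), (k : ℝ) ^ 3 * (u k * bt n k) ≤ C * r32 ((n : ℝ) * l) * cc u n

/-- F6. Lower tail. -/
def S_low : Prop := ∀ (u : ℕ → ℝ) (l n : ℕ), 1 ≤ l → 1 ≤ n → l ≤ n → (∀ k, 0 ≤ u k) →
  (∀ k : ℕ, ((k : ℝ) + l) * u k ≤ k * u (k + 1)) →
  ∑ k ∈ (range (n + 1)).filter (fun k => 100 * k ^ 2 < n * l), u k * bt n k ≤ cc u n / 4

/-- F7. -/
def S_step : Prop := ∃ C δ : ℝ, 0 < δ ∧ ∀ (u : ℕ → ℝ) (l n : ℕ), 1 ≤ l → 2 ≤ n →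
  (l : ℝ) ≤ δ * n → (∀ k, 0 ≤ u k) → (∀ k : ℕ, ((k : ℝ) + l) * u k ≤ k * u (k + 1)) →
  (∀ k : ℕ, ((k : ℝ) - 8 * l) * u (k + 1) ≤ (k + l) * u k) → cc u n ≤ C * cc u (n - 1)

/-- F8. Ratio of the `cc` for consecutive `l`. -/
def S_ratio : Prop := ∀ w : ℕ → ℕ → ℝ, WSeq w → ∃ C δ : ℝ, 1 ≤ C ∧ 0 < δ ∧
  (∀ l n : ℕ, 1 ≤ l → (l : ℝ) ≤ δ * n →
    r32 ((n : ℝ) / l) * cc (fun k => w k l) n ≤ C * cc (fun k => w k (l + 1)) n) ∧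
  (∀ l n : ℕ, C ≤ l → (l : ℝ) ≤ δ * n →
    cc (fun k => w k (l + 1)) n ≤ C * r32 ((n : ℝ) / l) * cc (fun k => w k l) n)

/-- F9. Facts on `pp`. -/
def S_pp : Prop := (∀ s, 0 ≤ pp s) ∧ pp 0 = 0 ∧ pp 1 = Real.exp (-1) ∧
  (∀ s : ℕ, 1 ≤ s → pp (s + 1) ≤ pp s) ∧ (∀ N : ℕ, ∑ s ∈ range N, pp s ≤ 1) ∧
  (∀ N : ℕ, ∑ s ∈ range N, (s : ℝ) * pp s ≤ 2)

/-- F10. Facts on `ff`. -/
def S_ff : Prop := (∀ t v, 0 ≤ ff t v) ∧ (∀ t v : ℕ, v < t → ff t v = 0) ∧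
  (∀ t : ℕ, ff t t = Real.exp (-(t : ℝ)) / (t.factorial : ℝ)) ∧
  (∀ t v : ℕ, t < v → ff t v ≤ t * ff t (v - 1)) ∧
  (∀ t v : ℕ, (v : ℝ) * ff (t + 1) v = ∑ s ∈ range (v + 1), (s : ℝ) * pp s * ff t (v - s)) ∧
  (∀ t N : ℕ, ∑ v ∈ range N, ff t v ≤ 1 / (t.factorial : ℝ))

/-- The numbers of graphs (normalised) with `t` tree components and excess `l`. -/
noncomputable def AA (w : ℕ → ℕ → ℝ) (t l n : ℕ) : ℝ := aa (cc (fun k => w k l)) t n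

/-- F11. -/
def S_V : Prop := ∀ w : ℕ → ℕ → ℝ, WSeq w → ∃ C δ : ℝ, 1 ≤ C ∧ 0 < δ ∧
  ∀ t l n : ℕ, 1 ≤ l → (l : ℝ) ≤ δ * n → (t : ℝ) ≤ δ * n →
    ∑ v ∈ range (n + 1), (v : ℝ) * (ff t v * cc (fun k => w k l) (n - v)) ≤ C * t * AA w t l n ∧
    AA w t l n ≤ C * (t + 1) * AA w (t + 1) l n

/-- F12. The ratio. -/
def S_R : Prop := ∀ w : ℕ → ℕ → ℝ, WSeq w → ∃ C δ : ℝ, 1 ≤ C ∧ 0 < δ ∧
  (∀ t l n : ℕ, 1 ≤ l → (l : ℝ) ≤ δ * n → (t : ℝ) ≤ δ * n →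
    r32 ((n : ℝ) / l) * AA w t l n ≤ C * (t + 1) * AA w (t + 1) (l + 1) n) ∧
  (∀ t l n : ℕ, C ≤ l → (l : ℝ) ≤ δ * n → (t : ℝ) ≤ δ * n →
    (t + 1) * AA w (t + 1) (l + 1) n ≤ C * r32 ((n : ℝ) / l) * AA w t l n)

/-- F13. Excess zero. -/
def S_zero : Prop := ∀ w : ℕ → ℕ → ℝ, WSeq w → ∃ K n0 : ℕ, ∀ t n : ℕ, n0 ≤ n → 2 * t ≤ n →
  AA w t 0 n ≤ (n : ℝ) ^ K * AA w (t + 1) 1 n

/-- F14. Large excess. -/
def S_large : Prop := ∀ w : ℕ → ℕ → ℝ, WSeq w → ∀ δ : ℝ, 0 < δ → ∃ K : ℝ, 1 ≤ K ∧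
  ∀ t l n : ℕ, δ * n < l → AA w t l n ≤ K ^ l / (t.factorial : ℝ)

/-- F15. Lower bounds. -/
def S_lower : Prop := ∀ w : ℕ → ℕ → ℝ, WSeq w → ∃ K n0 : ℕ, ∃ δ : ℝ, 0 < δ ∧
  (∀ t n : ℕ, n0 ≤ n → 2 * t ≤ n →
    Real.exp (-(t : ℝ)) ≤ (n : ℝ) ^ K * (t.factorial : ℝ) * AA w t 1 n) ∧
  (∀ l n : ℕ, n0 ≤ n → 1 ≤ l → (l : ℝ) ≤ δ * n → 1 ≤ (n : ℝ) ^ K * AA w 1 l n)

/-- Total (normalised) number of graphs with `n` vertices and `n + M` edges. -/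
noncomputable def ZZ (w : ℕ → ℕ → ℝ) (n : ℕ) (M : ℤ) : ℝ :=
  ∑ t ∈ (range (n + 1)).filter (fun t : ℕ => 0 ≤ (t : ℤ) + M), AA w t ((t : ℤ) + M).toNat n

/-- F16. Large excess is negligible. -/
def S_X1 : Prop := ∀ w : ℕ → ℕ → ℝ, WSeq w → ∀ (δ : ℝ) (K : ℕ), 0 < δ →
  ∃ (η : ℝ) (n0 : ℕ), 0 < η ∧ ∀ (n : ℕ) (M : ℤ), n0 ≤ n → |(M : ℝ)| ≤ η * n →
    ∀ t l : ℕ, t ≤ n → ((l : ℤ) = t + M ∨ (l : ℤ) = t + 1 + M) → δ * n < l →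
      (n : ℝ) ^ K * AA w t l n ≤ ZZ w n M

/-- F17. Excess zero is negligible. -/
def S_X0 : Prop := ∀ w : ℕ → ℕ → ℝ, WSeq w → ∀ K : ℕ,
  ∃ (η : ℝ) (n0 : ℕ), 0 < η ∧ ∀ (n : ℕ) (M : ℤ), n0 ≤ n → |(M : ℝ)| ≤ η * n →
    ∀ t : ℕ, ((t : ℤ) + M = 0 ∨ (t : ℤ) + 1 + M = 0) → (n : ℝ) ^ K * AA w t 0 n ≤ ZZ w n M

/-- F18. Upper bound for the ratio of consecutive totals. -/
def S_XR : Prop := ∀ w : ℕ → ℕ → ℝ, WSeq w → ∃ (C η : ℝ) (n0 : ℕ), 1 ≤ C ∧ 0 < η ∧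
  ∀ (n : ℕ) (M : ℤ), n0 ≤ n → |(M : ℝ)| ≤ η * n → 0 < ZZ w n M ∧ ∀ f : ℝ, 1 ≤ f →
    (∀ t : ℕ, f ≤ t → C ≤ (t : ℝ) + M ∧ C * r32 ((n : ℝ) / ((t : ℝ) + M)) ≤ t) →
    ZZ w n (M + 1) ≤ C * f * ZZ w n M

/-- F19. Few tree components are unlikely. -/
def S_Xa : Prop := ∀ w : ℕ → ℕ → ℝ, WSeq w → ∀ ε : ℝ, 0 < ε →
  ∃ (K η : ℝ) (n0 : ℕ), 0 < η ∧ ∀ (n : ℕ) (M : ℤ), n0 ≤ n → |(M : ℝ)| ≤ η * n →
    ∀ f : ℝ, 1 ≤ f → 2 * f ≤ η * n →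
    (∀ t : ℕ, (t : ℝ) ≤ 2 * f → 1 ≤ (t : ℤ) + M → K * (t + 1) ≤ r32 ((n : ℝ) / ((t : ℝ) + M))) →
    ∑ t ∈ (range (n + 1)).filter (fun t : ℕ => 0 ≤ (t : ℤ) + M ∧ (t : ℝ) ≤ f),
      AA w t ((t : ℤ) + M).toNat n ≤ ε * ZZ w n M

/-! ## G. Graph level -/

/-- Graphs of the class on `{0, ..., n-1}` with `m` edges. -/
noncomputable def GG (P : SimpleGraph ℕ → Prop) (n m : ℕ) : Finset (SimpleGraph ℕ) :=
  (graphsOn (range n)).filter (fun G => P G ∧ ne G = m)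

/-- Largest size of a component on `S`. -/
noncomputable def L1 (G : SimpleGraph ℕ) (S : Finset ℕ) : ℕ := (comps G S).sup Finset.card

/-- G1. Number of tree components and excess. -/
def S_G1 : Prop := ∀ (S : Finset ℕ) (G : SimpleGraph ℕ), G ∈ graphsOn S →
  S.card ≤ ne G + tc G S ∧ tc G S ≤ S.card ∧ tc G S + L1 G S ≤ S.card + 1

/-- G2. Bridges. -/
def S_G2 : Prop := ∀ P : SimpleGraph ℕ → Prop, SurfClass P → ∀ n m : ℕ,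
  ∑ G ∈ GG P n m, (n - L1 G (range n)) ≤ 2 * (GG P n (m + 1)).card

/-- In a component with at most as many edges as vertices many edges can be added. -/
def AddPairs (P : SimpleGraph ℕ → Prop) : Prop :=
  ∀ (S : Finset ℕ) (G : SimpleGraph ℕ), G ∈ graphsOn S → P G → ∀ A ∈ comps G S,
    neIn G A ≤ A.card → ∃ X ⊆ A, A.card ≤ 2 * X.card + 1 ∧
      ∀ x ∈ X, ∀ y ∈ X, x ≠ y → ¬ G.Adj x y → P (G ⊔ SimpleGraph.edge x y)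

/-- G3. A large component that is not complex is unlikely. -/
def S_G3 : Prop := ∀ P : SimpleGraph ℕ → Prop, SurfClass P → AddPairs P →
  ∃ C n0 : ℕ, ∀ n m : ℕ, n0 ≤ n →
    n * ((GG P n m).filter (fun G => ∃ A ∈ comps G (range n), n ≤ 2 * A.card ∧
      neIn G A ≤ A.card)).card ≤ C * (GG P n (m + 1)).card

end GiantSurf57
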