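import Pool.Agent.GiantSurf57.Basic
import Pool.Agent.GiantSurf57.Stmts

open scoped Classical
open Finset

namespace GiantSurf57

namespace PkgD1

/-- First step of a walk. -/
theorem nb_head {Q : SimpleGraph ℕ} {d e : ℕ × ℕ} {j i : ℕ} (h : NB Q d e j i) :
    (j = 0 ∧ i = 0 ∧ e = d) ∨ ∃ j', j = j' + 1 ∧
      ((deg Q d.2 = 2 ∧ ∃ z, Q.Adj d.2 z ∧ z ≠ d.1 ∧ NB Q (d.2, z) e j' i) ∨
      (deg Q d.2 = 3 ∧ ∃ i', i = i' + 1 ∧ ∃ z, Q.Adj d.2 z ∧ z ≠ d.1 ∧ NB Q (d.2, z) e j' i')) := by
  induction h with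
  | refl => exact Or.inl ⟨rfl, rfl, rfl⟩
  | @two x y z j i h h1 h2 h3 ih =>
    right
    refine ⟨j, rfl, ?_⟩
    rcases ih with ⟨rfl, rfl, he⟩ | ⟨j', rfl, ih⟩
    · rw [← he]
      exact Or.inl ⟨h1, z, h2, h3, NB.refl⟩
    · rcases ih with ⟨g1, w, g2, g3, g4⟩ | ⟨g1, i', rfl, w, g2, g3, g4⟩
      · exact Or.inl ⟨g1, w, g2, g3, NB.two g4 h1 h2 h3⟩
      · exact Or.inr ⟨g1, i', rfl, w, g2, g3, NB.two g4 h1 h2 h3⟩
  | @three x y z j i h h1 h2 h3 ih =>
    right
    refine ⟨j, rfl, ?_⟩
    rcases ih with ⟨rfl, rfl, he⟩ | ⟨j', rfl, ih⟩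
    · rw [← he]
      exact Or.inr ⟨h1, 0, rfl, z, h2, h3, NB.refl⟩
    · rcases ih with ⟨g1, w, g2, g3, g4⟩ | ⟨g1, i', rfl, w, g2, g3, g4⟩
      · exact Or.inl ⟨g1, w, g2, g3, NB.three g4 h1 h2 h3⟩
      · exact Or.inr ⟨g1, i' + 1, rfl, w, g2, g3, NB.three g4 h1 h2 h3⟩

/-- The number of end darts. -/
theorem nb_count {Q : SimpleGraph ℕ} (hQ : Q.edgeSet.Finite) (j : ℕ) :
    ∀ (i : ℕ) (d : ℕ × ℕ), Q.Adj d.1 d.2 →
      {e | NB Q d e j i}.Finite ∧ {e | NB Q d e j i}.ncard ≤ 2 ^ i := by
  induction j with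
  | zero =>
    intro i d _
    have hsub : {e | NB Q d e 0 i} ⊆ {d} := by
      intro e he
      rcases nb_head he with ⟨-, -, h⟩ | ⟨j', h, -⟩
      · exact h
      · omega
    refine ⟨(Set.finite_singleton d).subset hsub, ?_⟩
    refine (Set.ncard_le_ncard hsub (Set.finite_singleton d)).trans ?_
    rw [Set.ncard_singleton]
    exact Nat.one_le_two_pow
  | succ j ih =>
    intro i d hd
    have hfin : (Q.neighborSet d.2).Finite := neighborSet_finite hQ d.2
    have hmem : d.1 ∈ Q.neighborSet d.2 := hd.symm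
    -- the other neighbours
    have hcard : (Q.neighborSet d.2 \ {d.1}).ncard + 1 = deg Q d.2 :=
      Set.ncard_sdiff_singleton_add_one hmem hfin
    by_cases h2 : deg Q d.2 = 2
    · rw [h2] at hcard
      obtain ⟨z0, hz0⟩ := Set.ncard_eq_one.1 (show (Q.neighborSet d.2 \ {d.1}).ncard = 1 by omega)
      have hz : Q.Adj d.2 z0 := by
        have : z0 ∈ Q.neighborSet d.2 \ {d.1} := by rw [hz0]; exact rfl
        exact this.1
      have hsub : {e | NB Q d e (j + 1) i} ⊆ {e | NB Q (d.2, z0) e j i} := by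
        intro e he
        rcases nb_head he with ⟨h, -⟩ | ⟨j', h, h3⟩
        · omega
        · have : j' = j := by omega
          subst this
          rcases h3 with ⟨-, z, g1, g2, g3⟩ | ⟨h3, -⟩
          · have : z ∈ Q.neighborSet d.2 \ {d.1} := ⟨g1, g2⟩
            rw [hz0] at this
            have hzz : z = z0 := this
            rw [hzz] at g3
            exact g3
          · omega
      obtain ⟨f1, f2⟩ := ih i (d.2, z0) hz
      exact ⟨f1.subset hsub, (Set.ncard_le_ncard hsub f1).trans f2⟩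
    · by_cases h3 : deg Q d.2 = 3
      · rw [h3] at hcard
        obtain ⟨z1, z2, -, hz⟩ := Set.ncard_eq_two.1
          (show (Q.neighborSet d.2 \ {d.1}).ncard = 2 by omega)
        have hz1 : Q.Adj d.2 z1 := by
          have : z1 ∈ Q.neighborSet d.2 \ {d.1} := by rw [hz]; exact Or.inl rfl
          exact this.1
        have hz2 : Q.Adj d.2 z2 := by
          have : z2 ∈ Q.neighborSet d.2 \ {d.1} := by rw [hz]; exact Or.inr rfl
          exact this.1
        rcases Nat.eq_zero_or_pos i with rfl | hi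
        · have hsub : {e | NB Q d e (j + 1) 0} = ∅ := by
            rw [Set.eq_empty_iff_forall_notMem]
            intro e he
            rcases nb_head he with ⟨h, -⟩ | ⟨j', h, ⟨h4, -⟩ | ⟨-, i', h5, -⟩⟩
            · omega
            · omega
            · omega
          rw [hsub]
          exact ⟨Set.finite_empty, by rw [Set.ncard_empty]; exact Nat.zero_le _⟩
        · obtain ⟨i', rfl⟩ : ∃ i', i = i' + 1 := ⟨i - 1, by omega⟩
          have hsub : {e | NB Q d e (j + 1) (i' + 1)} ⊆
              {e | NB Q (d.2, z1) e j i'} ∪ {e | NB Q (d.2, z2) e j i'} := by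
            intro e he
            rcases nb_head he with ⟨h, -⟩ | ⟨j', h, ⟨h4, -⟩ | ⟨-, i'', h5, z, g1, g2, g3⟩⟩
            · omega
            · omega
            · have hj : j' = j := by omega
              have hi'' : i'' = i' := by omega
              subst hj
              subst hi''
              have : z ∈ Q.neighborSet d.2 \ {d.1} := ⟨g1, g2⟩
              rw [hz] at this
              rcases this with h6 | h6
              · left
                rw [h6] at g3
                exact g3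
              · right
                have h6' : z = z2 := h6
                rw [h6'] at g3
                exact g3
          obtain ⟨f1, f2⟩ := ih i' (d.2, z1) hz1
          obtain ⟨f3, f4⟩ := ih i' (d.2, z2) hz2
          refine ⟨(f1.union f3).subset hsub, ?_⟩
          refine (Set.ncard_le_ncard hsub (f1.union f3)).trans ((Set.ncard_union_le _ _).trans ?_)
          rw [pow_succ]
          omega
      · have hsub : {e | NB Q d e (j + 1) i} = ∅ := by
          rw [Set.eq_empty_iff_forall_notMem]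
          intro e he
          rcases nb_head he with ⟨h, -⟩ | ⟨j', h, ⟨h4, -⟩ | ⟨h4, -⟩⟩
          · omega
          · exact h2 h4
          · exact h3 h4
        rw [hsub]
        exact ⟨Set.finite_empty, by rw [Set.ncard_empty]; exact Nat.zero_le _⟩

end PkgD1

open PkgD1 in
/-- D1. -/
theorem pkgD1 : S_NB := by
  intro Q M x hQ hx
  have hfin : (Q.neighborSet x).Finite := neighborSet_finite hQ x
  have hc := nb_count hQ
  let T : ℕ × ℕ × ℕ → Finset ℕ := fun p =>
    if h : Q.Adj x p.1 then ((hc p.2.1 p.2.2 (x, p.1) h).1.toFinset).image Prod.snd else ∅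
  let I : Finset (ℕ × ℕ × ℕ) := hfin.toFinset ×ˢ (range (M + 1) ×ˢ range 25)
  have hsub : {y | Short Q M x y} ⊆ ↑(I.biUnion T) := by
    rintro y ⟨d, e, j, i, h1, h2, h3, h4, h5, h6⟩
    have hd : Q.Adj x d.2 := by rw [← h1]; exact h2
    rw [Finset.coe_biUnion]
    refine Set.mem_iUnion₂.2 ⟨(d.2, j, i), ?_, ?_⟩
    · rw [Finset.mem_coe, Finset.mem_product, Finset.mem_product, Set.Finite.mem_toFinset,
        Finset.mem_range, Finset.mem_range]
      exact ⟨hd, by simp only; omega, by simp only; omega⟩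
    · rw [Finset.mem_coe]
      change y ∈ (if h : Q.Adj x d.2 then ((hc j i (x, d.2) h).1.toFinset).image Prod.snd else ∅)
      rw [dif_pos hd, Finset.mem_image]
      refine ⟨e, ?_, h3⟩
      rw [Set.Finite.mem_toFinset]
      have : d = (x, d.2) := Prod.ext h1 rfl
      rw [this] at h4
      exact h4
  have hT : ∀ p, (T p).card ≤ 2 ^ p.2.2 := by
    intro p
    by_cases h : Q.Adj x p.1
    · change (if h : Q.Adj x p.1 then ((hc p.2.1 p.2.2 (x, p.1) h).1.toFinset).image Prod.snd
        else ∅).card ≤ _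
      rw [dif_pos h]
      refine Finset.card_image_le.trans ?_
      rw [← Set.ncard_eq_toFinset_card _ (hc p.2.1 p.2.2 (x, p.1) h).1]
      exact (hc p.2.1 p.2.2 (x, p.1) h).2
    · change (if h : Q.Adj x p.1 then ((hc p.2.1 p.2.2 (x, p.1) h).1.toFinset).image Prod.snd
        else ∅).card ≤ _
      rw [dif_neg h, Finset.card_empty]
      exact Nat.zero_le _
  refine ⟨(Finset.finite_toSet _).subset hsub, ?_⟩
  refine (Set.ncard_le_ncard hsub (Finset.finite_toSet _)).trans ?_
  rw [Set.ncard_coe_finset]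
  refine Finset.card_biUnion_le.trans ?_
  calc ∑ p ∈ I, (T p).card ≤ ∑ p ∈ I, 2 ^ p.2.2 := Finset.sum_le_sum fun p _ => hT p
    _ = hfin.toFinset.card * ((M + 1) * ∑ i ∈ range 25, 2 ^ i) := by
      rw [Finset.sum_product]
      simp only [Finset.sum_product, Finset.sum_const, Finset.card_range, smul_eq_mul]
    _ ≤ 3 * ((M + 1) * 2 ^ 25) := by
      refine Nat.mul_le_mul ?_ (Nat.mul_le_mul_left _ ?_)
      · rw [← Set.ncard_eq_toFinset_card _ hfin]
        exact hx
      · decide
    _ ≤ 2 ^ 31 * (M + 1) := by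
      rw [← Nat.mul_assoc, Nat.mul_right_comm]
      exact Nat.mul_le_mul_right _ (by norm_num)

end GiantSurf57
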