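import Pool.Agent.GiantSurf57.StmtsTop

/-! Package D2: deleting a good thread with different end points. -/

open scoped Classical
open Finset

namespace GiantSurf57

namespace PkgD2

/-! ### Lists without repetition -/

/-- lists of length `r` without repetition with elements in `S` -/
noncomputable def nl : ℕ → Finset ℕ → Finset (List ℕ)
  | 0, _ => {[]}
  | r + 1, S => S.biUnion (fun v => (nl r (S.erase v)).image (List.cons v))

theorem mem_nl : ∀ (r : ℕ) (S : Finset ℕ) (L : List ℕ),
    L ∈ nl r S ↔ L.length = r ∧ L.Nodup ∧ ∀ v ∈ L, v ∈ S := by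
  intro r
  induction r with
  | zero =>
    intro S L
    simp only [nl, mem_singleton, List.length_eq_zero_iff]
    constructor
    · rintro rfl
      simp
    · rintro ⟨h, -⟩
      exact h
  | succ r ih =>
    intro S L
    simp only [nl, mem_biUnion, mem_image]
    constructor
    · rintro ⟨v, hv, L', hL', rfl⟩
      obtain ⟨h1, h2, h3⟩ := (ih _ _).1 hL'
      refine ⟨by simp [h1], ?_, ?_⟩
      · rw [List.nodup_cons]
        refine ⟨fun hmem => ?_, h2⟩
        have := h3 v hmem
        simp at this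
      · intro w hw
        rcases List.mem_cons.1 hw with rfl | hw
        · exact hv
        · exact Finset.mem_of_mem_erase (h3 w hw)
    · rintro ⟨h1, h2, h3⟩
      match L, h1, h2, h3 with
      | v :: L', h1, h2, h3 =>
        rw [List.nodup_cons] at h2
        refine ⟨v, h3 v (by simp), L', (ih _ _).2 ⟨by simpa using h1, h2.2, ?_⟩, rfl⟩
        intro w hw
        rw [Finset.mem_erase]
        refine ⟨?_, h3 w (by simp [hw])⟩
        rintro rfl
        exact h2.1 hw

theorem card_nl : ∀ (r : ℕ) (S : Finset ℕ), (nl r S).card = S.card.descFactorial r := by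
  intro r
  induction r with
  | zero =>
    intro S
    simp [nl]
  | succ r ih =>
    intro S
    rw [nl, Finset.card_biUnion]
    · have h1 : ∀ v ∈ S, ((nl r (S.erase v)).image (List.cons v)).card =
          (S.card - 1).descFactorial r := by
        intro v hv
        rw [Finset.card_image_of_injective _ (fun a b h => by simpa using h), ih,
          Finset.card_erase_of_mem hv]
      rw [Finset.sum_congr rfl h1, Finset.sum_const, smul_eq_mul]
      rcases Nat.eq_zero_or_pos S.card with h0 | h0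
      · simp [h0]
      · obtain ⟨m, hm⟩ : ∃ m, S.card = m + 1 := ⟨S.card - 1, by omega⟩
        rw [hm, Nat.succ_descFactorial_succ]
        simp
    · intro v _ w _ hvw
      rw [Function.onFun, Finset.disjoint_left]
      intro L hL hL'
      rw [mem_image] at hL hL'
      obtain ⟨L1, _, rfl⟩ := hL
      obtain ⟨L2, _, h⟩ := hL'
      simp only [List.cons.injEq] at h
      exact hvw h.1.symm

/-! ### Paths -/

theorem pathG_le {Q : SimpleGraph ℕ} : ∀ (L : List ℕ) (b c : ℕ), Chn Q b L c → pathG b L c ≤ Q := by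
  intro L
  induction L with
  | nil =>
    intro b c h
    simp only [Chn] at h
    rw [pathG, SimpleGraph.edge_le_iff]
    exact Or.inr h
  | cons v L ih =>
    intro b c h
    simp only [Chn] at h
    rw [pathG]
    refine sup_le ?_ (ih v c h.2)
    rw [SimpleGraph.edge_le_iff]
    exact Or.inr h.1

theorem pathG_mem : ∀ (L : List ℕ) (b c u w : ℕ), (pathG b L c).Adj u w →
    u ∈ b :: (L ++ [c]) := by
  intro L
  induction L with
  | nil =>
    intro b c u w h
    rw [pathG, SimpleGraph.edge_adj] at h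
    rcases h.1 with h1 | h1 <;> simp [h1.1, h1.2]
  | cons v L ih =>
    intro b c u w h
    rw [pathG, SimpleGraph.sup_adj, SimpleGraph.edge_adj] at h
    rcases h with h | h
    · rcases h.1 with h1 | h1 <;> simp [h1.1, h1.2]
    · have := ih v c u w h
      simp only [List.mem_cons, List.cons_append] at this ⊢
      exact Or.inr this

theorem nbr_empty {G : SimpleGraph ℕ} {v : ℕ} (h : ∀ w, ¬ G.Adj v w) : G.neighborSet v = ∅ := by
  ext w
  simp [h w]

theorem nbr_pathG : ∀ (L : List ℕ) (b c : ℕ), (b :: (L ++ [c])).Nodup →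
    (∃ h, (pathG b L c).neighborSet b = {h} ∧ h ∈ L ++ [c]) ∧
    (∃ t, (pathG b L c).neighborSet c = {t}) ∧
    (∀ w ∈ L, ∃ p q, p ≠ q ∧ (pathG b L c).neighborSet w = {p, q}) := by
  intro L
  induction L with
  | nil =>
    intro b c hnd
    simp only [List.nil_append, List.nodup_cons, List.mem_singleton] at hnd
    have hbc : b ≠ c := hnd.1
    refine ⟨⟨c, ?_, by simp⟩, ⟨b, ?_⟩, by simp⟩
    · ext w
      simp only [pathG, SimpleGraph.mem_neighborSet, SimpleGraph.edge_adj, Set.mem_singleton_iff]
      constructor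
      · rintro ⟨h1 | h1, _⟩
        · exact h1.2
        · exact absurd h1.1 hbc
      · rintro rfl
        exact ⟨by simp, hbc⟩
    · ext w
      simp only [pathG, SimpleGraph.mem_neighborSet, SimpleGraph.edge_adj, Set.mem_singleton_iff]
      constructor
      · rintro ⟨h1 | h1, _⟩
        · exact absurd h1.1 hbc.symm
        · exact h1.2
      · rintro rfl
        exact ⟨by simp, hbc.symm⟩
  | cons v L ih =>
    intro b c hnd
    rw [List.cons_append, List.nodup_cons] at hnd
    obtain ⟨hb, hnd'⟩ := hnd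
    obtain ⟨⟨h, hh, hhm⟩, ⟨t, ht⟩, hin⟩ := ih v c hnd'
    have hbv : b ≠ v := by
      rintro rfl
      exact hb (by simp)
    have hbc : b ≠ c := by
      rintro rfl
      exact hb (by simp)
    have hvc : v ≠ c := by
      rintro rfl
      rw [List.nodup_cons] at hnd'
      exact hnd'.1 (by simp)
    have hbn : ∀ w, ¬ (pathG v L c).Adj b w := fun w hw => hb (pathG_mem L v c b w hw)
    have key : ∀ w, w ≠ b → w ≠ v → (pathG b (v :: L) c).neighborSet w =
        (pathG v L c).neighborSet w := by
      intro w h1 h2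
      ext u
      simp only [pathG, SimpleGraph.mem_neighborSet, SimpleGraph.sup_adj, SimpleGraph.edge_adj]
      constructor
      · rintro (⟨h3 | h3, _⟩ | h3)
        · exact absurd h3.1 h1
        · exact absurd h3.1 h2
        · exact h3
      · intro h3
        exact Or.inr h3
    refine ⟨⟨v, ?_, by simp⟩, ⟨t, ?_⟩, ?_⟩
    · ext w
      simp only [pathG, SimpleGraph.mem_neighborSet, SimpleGraph.sup_adj, SimpleGraph.edge_adj,
        Set.mem_singleton_iff]
      constructor
      · rintro (⟨h3 | h3, _⟩ | h3)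
        · exact h3.2
        · exact absurd h3.1 hbv
        · exact absurd h3 (hbn w)
      · rintro rfl
        exact Or.inl ⟨by simp, hbv⟩
    · rw [key c hbc.symm hvc.symm, ht]
    · intro w hw
      have hwb : w ≠ b := by
        rintro rfl
        exact hb (by simp only [List.mem_cons, List.mem_append] at hw ⊢; tauto)
      by_cases hwv : w = v
      · subst hwv
        have hhb : b ≠ h := by
          rintro rfl
          exact hb (by simp only [List.mem_cons, List.mem_append] at hhm ⊢; tauto)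
        refine ⟨b, h, hhb, ?_⟩
        ext u
        have hu : (pathG w L c).Adj w u ↔ u = h := by
          rw [← SimpleGraph.mem_neighborSet, hh, Set.mem_singleton_iff]
        simp only [pathG, SimpleGraph.mem_neighborSet, SimpleGraph.sup_adj, SimpleGraph.edge_adj,
          Set.mem_insert_iff, Set.mem_singleton_iff, hu]
        constructor
        · rintro (⟨h3 | h3, _⟩ | h3)
          · exact absurd h3.1 hwb
          · exact Or.inl h3.2
          · exact Or.inr h3
        · rintro (h3 | h3)
          · exact Or.inl ⟨by simp [h3], by rw [h3]; exact hwb⟩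
          · exact Or.inr h3
      · have hwL : w ∈ L := by
          rcases List.mem_cons.1 hw with h | h
          · exact absurd h hwv
          · exact h
        rw [key w hwb hwv]
        exact hin w hwL

theorem finite_edge (x y : ℕ) : (SimpleGraph.edge x y).edgeSet.Finite := by
  refine Set.Finite.subset (Set.finite_singleton s(x, y)) ?_
  intro e he
  induction e using Sym2.ind with
  | _ u w =>
    rw [SimpleGraph.mem_edgeSet, SimpleGraph.edge_adj] at he
    rcases he.1 with h | h
    · simp [h.1, h.2]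
    · rw [h.1, h.2, Set.mem_singleton_iff, Sym2.eq_swap]

theorem edgeSet_edge {x y : ℕ} (h : x ≠ y) : (SimpleGraph.edge x y).edgeSet = {s(x, y)} := by
  ext e
  induction e using Sym2.ind with
  | _ u w =>
    rw [SimpleGraph.mem_edgeSet, SimpleGraph.edge_adj, Set.mem_singleton_iff, Sym2.eq_iff]
    constructor
    · rintro ⟨h1 | h1, _⟩
      · exact Or.inl h1
      · exact Or.inr ⟨h1.1, h1.2⟩
    · rintro (⟨h1, h2⟩ | ⟨h1, h2⟩)
      · subst h1 h2
        exact ⟨by simp, h⟩
      · subst h1 h2
        exact ⟨by simp, h.symm⟩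

theorem ne_pathG : ∀ (L : List ℕ) (b c : ℕ), (b :: (L ++ [c])).Nodup →
    (pathG b L c).edgeSet.Finite ∧ ne (pathG b L c) = L.length + 1 := by
  intro L
  induction L with
  | nil =>
    intro b c hnd
    simp only [List.nil_append, List.nodup_cons, List.mem_singleton] at hnd
    have hbc : b ≠ c := hnd.1
    refine ⟨finite_edge b c, ?_⟩
    rw [ne, pathG, edgeSet_edge hbc]
    simp
  | cons v L ih =>
    intro b c hnd
    rw [List.cons_append, List.nodup_cons] at hnd
    obtain ⟨hb, hnd'⟩ := hnd
    obtain ⟨h1, h2⟩ := ih v c hnd'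
    have hbv : b ≠ v := by
      rintro rfl
      exact hb (by simp)
    have hbn : ∀ w, ¬ (pathG v L c).Adj b w := fun w hw => hb (pathG_mem L v c b w hw)
    refine ⟨?_, ?_⟩
    · rw [pathG, SimpleGraph.edgeSet_sup]
      exact (finite_edge b v).union h1
    · rw [ne, pathG, SimpleGraph.edgeSet_sup, Set.ncard_union_eq _ (finite_edge b v) h1,
        edgeSet_edge hbv, Set.ncard_singleton, ← ne, h2, List.length_cons]
      · omega
      · rw [edgeSet_edge hbv, Set.disjoint_singleton_left, SimpleGraph.mem_edgeSet]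
        exact hbn v

/-! ### Finiteness -/

theorem fin_edges {S : Finset ℕ} {G : SimpleGraph ℕ} (h : G.support ⊆ ↑S) :
    G.edgeSet.Finite := by
  refine Set.Finite.subset ((Finset.finite_toSet (S ×ˢ S)).image (fun p => s(p.1, p.2))) ?_
  intro e he
  induction e using Sym2.ind with
  | _ u w =>
    rw [SimpleGraph.mem_edgeSet] at he
    refine ⟨(u, w), ?_, rfl⟩
    rw [Finset.mem_coe, Finset.mem_product]
    exact ⟨h ⟨w, he⟩, h ⟨u, he.symm⟩⟩

theorem fin_nbr {S : Finset ℕ} {G : SimpleGraph ℕ} (h : G.support ⊆ ↑S) (v : ℕ) :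
    (G.neighborSet v).Finite :=
  Set.Finite.subset (Finset.finite_toSet S) fun _ hw => h ⟨v, (show G.Adj v _ from hw).symm⟩

theorem deg_sdiff {S : Finset ℕ} {G H : SimpleGraph ℕ} (h : G.support ⊆ ↑S) (hH : H ≤ G)
    (v : ℕ) : deg (G \ H) v = deg G v - (H.neighborSet v).ncard := by
  have h1 : (G \ H).neighborSet v = G.neighborSet v \ H.neighborSet v := by
    ext w
    simp [SimpleGraph.sdiff_adj]
  have h2 : H.neighborSet v ⊆ G.neighborSet v := fun w hw => hH hw
  rw [deg, h1, Set.ncard_sdiff h2 ((fin_nbr h v).subset h2), ← deg]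

/-- The graph obtained by deleting the thread. -/
theorem del_thread {P : SimpleGraph ℕ → Prop} (hP : SurfClass P) {S : Finset ℕ} {l : ℕ}
    {Q : SimpleGraph ℕ} (hQ : Q ∈ core P S (l + 1)) {b c : ℕ} {L : List ℕ}
    (hT : Thread Q b L c) (hb : deg Q b = 3) (hc : deg Q c = 3) (hbc : b ≠ c) :
    (∀ v ∈ L, v ∈ S) ∧ c ∈ S ∧ pathG b L c ≤ Q ∧
      Q \ pathG b L c ∈ core P (S \ L.toFinset) l ∧ deg (Q \ pathG b L c) c = 2 := by
  simp only [core, mem_filter, mem_graphsOn] at hQ
  obtain ⟨hsup, hPQ, hdeg, hne⟩ := hQ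
  have hpos : ∀ v, 0 < deg Q v → v ∈ S := by
    intro v hv
    rw [deg, Set.ncard_pos (fin_nbr hsup v)] at hv
    obtain ⟨w, hw⟩ := hv
    exact hsup ⟨w, hw⟩
  have hLS : ∀ v ∈ L, v ∈ S := fun v hv => hpos v (by rw [hT.deg2 v hv]; omega)
  have hbL : b ∉ L := fun h => by
    have := hT.deg2 b h
    omega
  have hcL : c ∉ L := fun h => by
    have := hT.deg2 c h
    omega
  have hnd : (b :: (L ++ [c])).Nodup := by
    rw [List.nodup_cons, List.nodup_append]
    refine ⟨?_, hT.nodup, by simp, ?_⟩
    · simp only [List.mem_append, List.mem_singleton, not_or]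
      exact ⟨hbL, hbc⟩
    · intro a ha d hd
      rw [List.mem_singleton] at hd
      subst hd
      rintro rfl
      exact hcL ha
  have hle : pathG b L c ≤ Q := pathG_le L b c hT.chn
  obtain ⟨⟨h, hh, -⟩, ⟨t, ht⟩, hin⟩ := nbr_pathG L b c hnd
  obtain ⟨hfin, hneH⟩ := ne_pathG L b c hnd
  have hdsub : ∀ v, deg (Q \ pathG b L c) v = deg Q v - ((pathG b L c).neighborSet v).ncard :=
    fun v => deg_sdiff hsup hle v
  have hdb : deg (Q \ pathG b L c) b = 2 := by
    rw [hdsub, hh, hb, Set.ncard_singleton]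
  have hdc : deg (Q \ pathG b L c) c = 2 := by
    rw [hdsub, ht, hc, Set.ncard_singleton]
  have hdL : ∀ v ∈ L, deg (Q \ pathG b L c) v = 0 := by
    intro v hv
    obtain ⟨p, q, hpq, hpq2⟩ := hin v hv
    rw [hdsub, hpq2, hT.deg2 v hv, Set.ncard_pair hpq]
  have hdo : ∀ v, v ≠ b → v ≠ c → v ∉ L → deg (Q \ pathG b L c) v = deg Q v := by
    intro v h1 h2 h3
    have : (pathG b L c).neighborSet v = ∅ := nbr_empty fun w hw => by
      have := pathG_mem L b c v w hw
      simp only [List.mem_cons, List.mem_append, List.not_mem_nil, or_false] at this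
      tauto
    rw [hdsub, this, Set.ncard_empty, Nat.sub_zero]
  have hsup0 : (Q \ pathG b L c).support ⊆ ↑S := by
    intro v hv
    obtain ⟨w, hw⟩ := hv
    exact hsup ⟨w, hw.1⟩
  refine ⟨hLS, hpos c (by omega), hle, ?_, hdc⟩
  simp only [core, mem_filter, mem_graphsOn]
  refine ⟨?_, ?_, ?_, ?_⟩
  · intro v hv
    rw [Finset.mem_coe, Finset.mem_sdiff]
    refine ⟨hsup0 hv, ?_⟩
    rw [List.mem_toFinset]
    intro hvL
    have h0 := hdL v hvL
    rw [deg, Set.ncard_eq_zero (fin_nbr hsup0 v)] at h0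
    obtain ⟨w, hw⟩ := hv
    have : w ∈ (Q \ pathG b L c).neighborSet v := hw
    rw [h0] at this
    exact this
  · exact hP.mono _ Q (fin_edges hsup) sdiff_le hPQ
  · intro v hv
    rw [Finset.mem_sdiff, List.mem_toFinset] at hv
    by_cases h1 : v = b
    · rw [h1, hdb]
    · by_cases h2 : v = c
      · rw [h2, hdc]
      · rw [hdo v h1 h2 hv.2]
        exact hdeg v hv.1
  · have h1 : ne (Q \ pathG b L c) + ne (pathG b L c) = ne Q := by
      rw [ne, ne, ne, SimpleGraph.edgeSet_sdiff]
      exact Set.ncard_sdiff_add_ncard_of_subset (SimpleGraph.edgeSet_subset_edgeSet.2 hle)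
        (fin_edges hsup)
    have h2 : (S \ L.toFinset).card + L.length = S.card := by
      have h3 : L.toFinset ⊆ S := fun v hv => hLS v (List.mem_toFinset.1 hv)
      have h4 := Finset.card_sdiff_add_card_eq_card h3
      rw [List.toFinset_card_of_nodup hT.nodup] at h4
      exact h4
    omega

end PkgD2

open PkgD2 in
theorem pkgD2 (h1 : S_relabel) (h2 : S_thr) (h3 : S_NB) : S_T1 := by
  intro P hP k l M
  -- the sets of the left side are finite
  have hfin : ∀ Q ∈ core P (range k) (l + 1), {p ∈ goodThr Q M | p.1 ≠ p.2.2}.Finite := by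
    intro Q hQ
    refine ((h2 P (range k) (l + 1) 0 Q hQ).1).subset ?_
    intro p hp
    exact hp.1.1
  let F : SimpleGraph ℕ → Finset (ℕ × List ℕ × ℕ) := fun Q =>
    if h : {p ∈ goodThr Q M | p.1 ≠ p.2.2}.Finite then h.toFinset else ∅
  have hF : ∀ Q ∈ core P (range k) (l + 1), {p ∈ goodThr Q M | p.1 ≠ p.2.2}.ncard = (F Q).card := by
    intro Q hQ
    simp only [F]
    rw [dif_pos (hfin Q hQ), Set.ncard_eq_toFinset_card _ (hfin Q hQ)]
  have hFm : ∀ Q ∈ core P (range k) (l + 1), ∀ p ∈ F Q, p ∈ goodThr Q M ∧ p.1 ≠ p.2.2 := by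
    intro Q hQ p hp
    simp only [F] at hp
    rw [dif_pos (hfin Q hQ), Set.Finite.mem_toFinset] at hp
    exact hp
  rw [Finset.sum_congr rfl hF, ← Finset.card_sigma]
  -- the target
  let E : SimpleGraph ℕ → ℕ → Finset ℕ := fun Q0 c =>
    if h : Q0.edgeSet.Finite ∧ deg Q0 c ≤ 3 then (h3 Q0 M c h.1 h.2).1.toFinset else ∅
  have hE : ∀ Q0 c, (E Q0 c).card ≤ 2 ^ 31 * (M + 1) := by
    intro Q0 c
    simp only [E]
    split_ifs with h
    · rw [← Set.ncard_eq_toFinset_card _ (h3 Q0 M c h.1 h.2).1]
      exact (h3 Q0 M c h.1 h.2).2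
    · simp
  let T : Finset (Σ _ : ℕ, Σ _ : List ℕ, Σ _ : SimpleGraph ℕ, Σ _ : ℕ, ℕ) :=
    (range (k + 1)).sigma fun p => (nl p (range k)).sigma fun L =>
      (core P (range k \ L.toFinset) l).sigma fun Q0 => (range k).sigma fun c => E Q0 c
  have hT : T.card ≤ ∑ p ∈ range (k + 1), k.descFactorial p *
      (W P (k - p) l * (k * (2 ^ 31 * (M + 1)))) := by
    simp only [T, Finset.card_sigma]
    refine Finset.sum_le_sum fun p hp => ?_
    have hcard : ∀ L ∈ nl p (range k), (core P (range k \ L.toFinset) l).card = W P (k - p) l := by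
      intro L hL
      obtain ⟨hL1, hL2, hL3⟩ := (mem_nl _ _ _).1 hL
      have h4 := Finset.card_sdiff_add_card_eq_card
        (s := L.toFinset) (t := range k) (fun v hv => hL3 v (List.mem_toFinset.1 hv))
      rw [List.toFinset_card_of_nodup hL2, card_range] at h4
      have h5 := h1 P hP (fun _ => 1) (fun _ _ => rfl) (range k \ L.toFinset) (range (k - p)) l
        (by rw [card_range]; omega)
      simpa [W] using h5
    calc ∑ L ∈ nl p (range k), ∑ Q0 ∈ core P (range k \ L.toFinset) l,
          ∑ c ∈ range k, (E Q0 c).card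
        ≤ ∑ L ∈ nl p (range k), W P (k - p) l * (k * (2 ^ 31 * (M + 1))) := by
          refine Finset.sum_le_sum fun L hL => ?_
          rw [← hcard L hL]
          refine (Finset.sum_le_card_nsmul _ _ (k * (2 ^ 31 * (M + 1))) fun Q0 _ => ?_).trans
            (le_of_eq (smul_eq_mul _ _))
          refine (Finset.sum_le_card_nsmul _ _ (2 ^ 31 * (M + 1)) fun c _ => hE Q0 c).trans
            (le_of_eq ?_)
          rw [smul_eq_mul, card_range]
      _ = k.descFactorial p * (W P (k - p) l * (k * (2 ^ 31 * (M + 1)))) := by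
          rw [Finset.sum_const, card_nl, card_range, smul_eq_mul]
  refine le_trans ?_ hT
  refine Finset.card_le_card_of_injOn
    (fun x => ⟨x.2.2.1.length, x.2.2.1, x.1 \ pathG x.2.1 x.2.2.1 x.2.2.2, x.2.2.2, x.2.1⟩) ?_ ?_
  · rintro ⟨Q, b, L, c⟩ hx
    rw [Finset.mem_coe, Finset.mem_sigma] at hx
    obtain ⟨hQ, hp⟩ := hx
    simp only at hQ hp
    obtain ⟨⟨hTh, hb, hc, hor⟩, hbc⟩ := hFm Q hQ _ hp
    simp only at hTh hb hc hor hbc
    obtain ⟨hLS, hcS, hle, hcore, hdc⟩ := del_thread hP hQ hTh hb hc hbc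
    have hshort : Short (Q \ pathG b L c) M c b := by
      rcases hor with h | h
      · exact absurd h hbc
      · exact h
    simp only [T, Finset.mem_coe, Finset.mem_sigma]
    have hlen : L.length ≤ k := by
      have h4 : L.toFinset ⊆ range k := fun v hv => hLS v (List.mem_toFinset.1 hv)
      have h5 := Finset.card_le_card h4
      rwa [List.toFinset_card_of_nodup hTh.nodup, card_range] at h5
    refine ⟨by rw [mem_range]; omega, (mem_nl _ _ _).2 ⟨rfl, hTh.nodup, hLS⟩, hcore, hcS, ?_⟩
    have hfe : (Q \ pathG b L c).edgeSet.Finite := by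
      simp only [core, mem_filter, mem_graphsOn] at hcore
      exact fin_edges hcore.1
    simp only [E]
    rw [dif_pos ⟨hfe, by omega⟩, Set.Finite.mem_toFinset]
    exact hshort
  · rintro ⟨Q, b, L, c⟩ hx ⟨Q', b', L', c'⟩ hx' heq
    rw [Finset.mem_coe, Finset.mem_sigma] at hx hx'
    obtain ⟨hQ, hp⟩ := hx
    obtain ⟨hQ', hp'⟩ := hx'
    simp only at hQ hp hQ' hp' heq
    obtain ⟨⟨hTh, hb, hc, hor⟩, hbc⟩ := hFm Q hQ _ hp
    obtain ⟨⟨hTh', hb', hc', hor'⟩, hbc'⟩ := hFm Q' hQ' _ hp'
    simp only at hTh hb hc hor hbc hTh' hb' hc' hor' hbc'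
    obtain ⟨hLS, hcS, hle, hcore, hdc⟩ := del_thread hP hQ hTh hb hc hbc
    obtain ⟨hLS', hcS', hle', hcore', hdc'⟩ := del_thread hP hQ' hTh' hb' hc' hbc'
    simp only [Sigma.mk.injEq, heq_eq_eq] at heq
    obtain ⟨-, hL, hQ0, hcc, hbb⟩ := heq
    subst hL hcc hbb
    have hQQ : Q = Q' := by
      rw [← sdiff_sup_cancel hle, ← sdiff_sup_cancel hle', hQ0]
    subst hQQ
    rfl

end GiantSurf57
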