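import Pool.Agent.GiantSurf57.StmtsTop

/-!
# Package D3: deleting a loop at a cubic vertex together with its stem
-/

open scoped Classical
open Finset

namespace GiantSurf57

namespace PkgD3

variable {Q : SimpleGraph ℕ}

theorem edge_self {x y : ℕ} (h : x ≠ y) : (SimpleGraph.edge x y).Adj x y :=
  (SimpleGraph.edge_adj x y x y).mpr ⟨Or.inl ⟨rfl, rfl⟩, h⟩

theorem edge_self' {x y : ℕ} (h : x ≠ y) : (SimpleGraph.edge x y).Adj y x := (edge_self h).symm

theorem getLast_cc (b v : ℕ) (L : List ℕ) : (b :: v :: L).getLast (by simp) =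
    (v :: L).getLast (by simp) := List.getLast_cons (List.cons_ne_nil v L)

theorem nbr_subset {S : Finset ℕ} (h : Q.support ⊆ ↑S) (v : ℕ) : Q.neighborSet v ⊆ ↑S :=
  fun x hx => h ⟨v, (show Q.Adj v x from hx).symm⟩

theorem nbr_finite {S : Finset ℕ} (h : Q.support ⊆ ↑S) (v : ℕ) : (Q.neighborSet v).Finite :=
  S.finite_toSet.subset (nbr_subset h v)

theorem edgeSet_finite {S : Finset ℕ} (h : Q.support ⊆ ↑S) : Q.edgeSet.Finite := by
  refine ((S ×ˢ S).finite_toSet.image (fun p : ℕ × ℕ => s(p.1, p.2))).subset ?_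
  intro e he
  induction e using Sym2.ind with
  | _ x y =>
    have hxy : Q.Adj x y := he
    exact ⟨(x, y), Finset.mem_coe.mpr (Finset.mem_product.mpr ⟨h ⟨y, hxy⟩, h ⟨x, hxy.symm⟩⟩), rfl⟩

/-- Handshake. -/
theorem handshake {S : Finset ℕ} (h : Q.support ⊆ ↑S) : ∑ v ∈ S, deg Q v = 2 * ne Q := by
  set D : Finset (ℕ × ℕ) := (S ×ˢ S).filter (fun p => Q.Adj p.1 p.2) with hD
  have h1 : D.card = ∑ v ∈ S, deg Q v := by
    rw [Finset.card_eq_sum_card_fiberwise (f := Prod.fst) (t := S)]
    · refine Finset.sum_congr rfl fun v hv => ?_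
      rw [deg, Set.ncard_eq_toFinset_card _ (nbr_finite h v)]
      refine Finset.card_bij (fun p _ => p.2) ?_ ?_ ?_
      · rintro ⟨x, y⟩ hp
        simp only [hD, Finset.mem_filter] at hp
        obtain ⟨⟨_, hp1⟩, rfl⟩ := hp
        simpa using hp1
      · rintro ⟨x, y⟩ hp ⟨x', y'⟩ hp' hh
        simp only [Finset.mem_filter] at hp hp'
        obtain ⟨_, rfl⟩ := hp
        obtain ⟨_, h2⟩ := hp'
        exact Prod.ext h2.symm hh
      · intro y hy
        have hy' : Q.Adj v y := by simpa using hy
        exact ⟨(v, y), Finset.mem_filter.mpr ⟨Finset.mem_filter.mpr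
          ⟨Finset.mem_product.mpr ⟨hv, h ⟨v, hy'.symm⟩⟩, hy'⟩, rfl⟩, rfl⟩
    · intro p hp
      simp only [hD, Finset.coe_filter, Finset.mem_product] at hp
      exact hp.1.1
  have h2 : D.card = 2 * ne Q := by
    rw [ne, Set.ncard_eq_toFinset_card _ (edgeSet_finite h),
      Finset.card_eq_sum_card_fiberwise (f := fun p : ℕ × ℕ => s(p.1, p.2))
        (t := (edgeSet_finite h).toFinset), mul_comm, ← smul_eq_mul, ← Finset.sum_const]
    · refine Finset.sum_congr rfl fun e he => ?_
      induction e using Sym2.ind with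
      | _ x y =>
        have hxy : Q.Adj x y := by simpa using he
        have : (D.filter (fun p : ℕ × ℕ => s(p.1, p.2) = s(x, y))) = {(x, y), (y, x)} := by
          ext ⟨u, v⟩
          simp only [hD, Finset.mem_filter, Finset.mem_product, Finset.mem_insert,
            Finset.mem_singleton, Prod.mk.injEq, Sym2.eq_iff]
          constructor
          · rintro ⟨_, h3⟩
            exact h3
          · rintro (⟨rfl, rfl⟩ | ⟨rfl, rfl⟩)
            · exact ⟨⟨⟨h ⟨_, hxy⟩, h ⟨_, hxy.symm⟩⟩, hxy⟩, Or.inl ⟨rfl, rfl⟩⟩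
            · exact ⟨⟨⟨h ⟨_, hxy.symm⟩, h ⟨_, hxy⟩⟩, hxy.symm⟩, Or.inr ⟨rfl, rfl⟩⟩
        rw [this, Finset.card_pair]
        intro h4
        exact hxy.ne (Prod.ext_iff.mp h4).1
    · intro p hp
      have hp' := (Finset.mem_filter.mp (Finset.mem_coe.mp hp)).2
      simpa using hp'
  rw [← h1, h2]

theorem deg2_nbr {v a b u : ℕ} (hd : deg Q v = 2) (ha : Q.Adj v a) (hb : Q.Adj v b) (hab : a ≠ b)
    (hu : Q.Adj v u) : u = a ∨ u = b := by
  have hfin : (Q.neighborSet v).Finite := Set.finite_of_ncard_ne_zero (by rw [← deg, hd]; norm_num)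
  have hsub : ({a, b} : Set ℕ) ⊆ Q.neighborSet v := by
    rintro x (rfl | rfl)
    · exact ha
    · exact hb
  have heq : ({a, b} : Set ℕ) = Q.neighborSet v :=
    Set.eq_of_subset_of_ncard_le hsub (by rw [← deg, hd, Set.ncard_pair hab]) hfin
  have : u ∈ ({a, b} : Set ℕ) := heq ▸ hu
  exact this

theorem deg3_nbr {b h t : ℕ} (hd : deg Q b = 3) (hh : Q.Adj b h) (ht : Q.Adj b t) (hht : h ≠ t) :
    ∃ y, Q.Adj b y ∧ y ≠ h ∧ y ≠ t ∧ ∀ u, Q.Adj b u → u = h ∨ u = t ∨ u = y := by
  have hfin : (Q.neighborSet b).Finite := Set.finite_of_ncard_ne_zero (by rw [← deg, hd]; norm_num)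
  have hsub : ({h, t} : Set ℕ) ⊆ Q.neighborSet b := by
    rintro x (rfl | rfl)
    · exact hh
    · exact ht
  obtain ⟨y, hy, hy'⟩ : ∃ y ∈ Q.neighborSet b, y ∉ ({h, t} : Set ℕ) := by
    by_contra hcon
    push Not at hcon
    have := Set.ncard_le_ncard (show Q.neighborSet b ⊆ {h, t} from hcon) (Set.toFinite _)
    rw [Set.ncard_pair hht, ← deg, hd] at this
    omega
  simp only [Set.mem_insert_iff, Set.mem_singleton_iff, not_or] at hy'
  refine ⟨y, hy, hy'.1, hy'.2, fun u hu => ?_⟩
  have hsub3 : ({h, t, y} : Set ℕ) ⊆ Q.neighborSet b := by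
    rintro x (rfl | rfl | rfl)
    · exact hh
    · exact ht
    · exact hy
  have hc3 : ({h, t, y} : Set ℕ).ncard = 3 := by
    rw [Set.ncard_eq_three]
    exact ⟨h, t, y, hht, fun h => hy'.1 h.symm, fun h => hy'.2 h.symm, rfl⟩
  have heq : ({h, t, y} : Set ℕ) = Q.neighborSet b :=
    Set.eq_of_subset_of_ncard_le hsub3 (by rw [← deg, hd, hc3]) hfin
  have : u ∈ ({h, t, y} : Set ℕ) := heq ▸ hu
  exact this

/-! ### Chains and `pathG` -/

theorem pathG_le : ∀ (L : List ℕ) (b c : ℕ), Chn Q b L c → pathG b L c ≤ Q := by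
  intro L
  induction L with
  | nil =>
    intro b c h x y hxy
    have h' : Q.Adj b c := h
    simp only [pathG, SimpleGraph.edge_adj] at hxy
    rcases hxy with ⟨⟨rfl, rfl⟩ | ⟨rfl, rfl⟩, _⟩
    · exact h'
    · exact h'.symm
  | cons v L ih =>
    intro b c h x y hxy
    have h' : Q.Adj b v ∧ Chn Q v L c := h
    simp only [pathG, SimpleGraph.sup_adj, SimpleGraph.edge_adj] at hxy
    rcases hxy with ⟨⟨rfl, rfl⟩ | ⟨rfl, rfl⟩, _⟩ | hxy
    · exact h'.1
    · exact h'.1.symm
    · exact ih v c h'.2 hxy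

theorem pathG_adj_mem : ∀ (L : List ℕ) (b c x y : ℕ), (pathG b L c).Adj x y →
    x = b ∨ x ∈ L ∨ x = c := by
  intro L
  induction L with
  | nil =>
    intro b c x y hxy
    simp only [pathG, SimpleGraph.edge_adj] at hxy
    rcases hxy with ⟨⟨rfl, rfl⟩ | ⟨rfl, rfl⟩, _⟩ <;> simp
  | cons v L ih =>
    intro b c x y hxy
    simp only [pathG, SimpleGraph.sup_adj, SimpleGraph.edge_adj] at hxy
    rcases hxy with ⟨⟨rfl, rfl⟩ | ⟨rfl, rfl⟩, _⟩ | hxy
    · simp
    · simp
    · rcases ih v c x y hxy with rfl | h | rfl <;> simp_all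

/-- A vertex which is not an inner or first vertex is adjacent in the path only to the last one. -/
theorem pathG_adj_last : ∀ (L : List ℕ) (b c x y : ℕ), (pathG b L c).Adj x y → x ≠ b → x ∉ L →
    x = c ∧ y = (b :: L).getLast (by simp) := by
  intro L
  induction L with
  | nil =>
    intro b c x y hxy hb _
    simp only [pathG, SimpleGraph.edge_adj] at hxy
    rcases hxy with ⟨⟨rfl, rfl⟩ | ⟨rfl, rfl⟩, _⟩
    · exact absurd rfl hb
    · exact ⟨rfl, rfl⟩
  | cons v L ih =>
    intro b c x y hxy hb hL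
    simp only [pathG, SimpleGraph.sup_adj, SimpleGraph.edge_adj] at hxy
    simp only [List.mem_cons, not_or] at hL
    rcases hxy with ⟨⟨rfl, rfl⟩ | ⟨rfl, rfl⟩, _⟩ | hxy
    · exact absurd rfl hb
    · exact absurd rfl hL.1
    · obtain ⟨h1, h2⟩ := ih v c x y hxy hL.1 hL.2
      exact ⟨h1, by rw [h2, getLast_cc]⟩

theorem chn_last : ∀ (L : List ℕ) (b c : ℕ), Chn Q b L c →
    Q.Adj ((b :: L).getLast (by simp)) c := by
  intro L
  induction L with
  | nil => intro b c h; exact h
  | cons v L ih =>
    intro b c h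
    have h' : Q.Adj b v ∧ Chn Q v L c := h
    have := ih v c h'.2
    rwa [← getLast_cc b] at this

theorem chn_path_last : ∀ (L : List ℕ) (b c : ℕ), Chn Q b L c →
    (pathG b L c).Adj ((b :: L).getLast (by simp)) c := by
  intro L
  induction L with
  | nil =>
    intro b c h
    have h' : Q.Adj b c := h
    exact edge_self h'.ne
  | cons v L ih =>
    intro b c h
    have h' : Q.Adj b v ∧ Chn Q v L c := h
    have := ih v c h'.2
    rw [← getLast_cc b] at this
    simp only [pathG, SimpleGraph.sup_adj]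
    exact Or.inr this

/-- All edges at the inner vertices belong to the path. -/
theorem inner_nbr : ∀ (L : List ℕ) (b c : ℕ), Chn Q b L c → L.Nodup → (∀ v ∈ L, deg Q v = 2) →
    b ∉ L → c ∉ L → (L.length = 1 → b ≠ c) → ∀ v ∈ L, ∀ u, Q.Adj v u →
    (pathG b L c).Adj v u := by
  intro L
  induction L with
  | nil => intro b c _ _ _ _ _ _ v hv; simp at hv
  | cons w L ih =>
    intro b c h hnd hdeg hb hc hone v hv u hvu
    have h' : Q.Adj b w ∧ Chn Q w L c := h
    simp only [List.mem_cons, not_or] at hb hc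
    rw [List.nodup_cons] at hnd
    simp only [pathG, SimpleGraph.sup_adj]
    rcases List.mem_cons.mp hv with rfl | hv'
    · -- `v = w`
      cases L with
      | nil =>
        have h2 : Q.Adj v c := h'.2
        rcases deg2_nbr (hdeg v (by simp)) h'.1.symm h2 (hone rfl) hvu with rfl | rfl
        · exact Or.inl (edge_self' h'.1.ne)
        · exact Or.inr (edge_self h2.ne)
      | cons w' L' =>
        have h2 : Q.Adj v w' := h'.2.1
        have hbw' : b ≠ w' := fun hh => hb.2 (by simp [hh])
        rcases deg2_nbr (hdeg v (by simp)) h'.1.symm h2 hbw' hvu with rfl | rfl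
        · exact Or.inl (edge_self' h'.1.ne)
        · exact Or.inr (Or.inl (edge_self h2.ne))
    · right
      refine ih w c h'.2 hnd.2 (fun x hx => hdeg x (by simp [hx])) hnd.1 hc.2 ?_ v hv' u hvu
      intro _ hwc
      exact hc.1 hwc.symm

theorem Thread.notMem_left {b c : ℕ} {L : List ℕ} (h : Thread Q b L c) : b ∉ L := fun hb => by
  have := h.deg2 b hb
  have := h.left
  omega

theorem Thread.notMem_right {b c : ℕ} {L : List ℕ} (h : Thread Q b L c) : c ∉ L := fun hb => by
  have := h.deg2 c hb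
  have := h.right
  omega

theorem Thread.inner {b c : ℕ} {L : List ℕ} (h : Thread Q b L c) {v u : ℕ} (hv : v ∈ L)
    (hu : Q.Adj v u) : (pathG b L c).Adj v u :=
  inner_nbr L b c h.chn h.nodup h.deg2 (notMem_left h) (notMem_right h) h.one v hv u hu

/-- A set whose boundary is a single vertex cannot be entered by a chain avoiding that vertex. -/
theorem chain_avoid (X : Set ℕ) (b : ℕ) (hX : ∀ u ∈ X, ∀ w, Q.Adj u w → w ∈ X ∨ w = b) :
    ∀ (M : List ℕ) (a c : ℕ), Chn Q a M c → a ∉ X → a ≠ b → b ∉ M → ∀ v ∈ M, v ∉ X := by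
  intro M
  induction M with
  | nil => intro a c _ _ _ _ v hv; simp at hv
  | cons w M ih =>
    intro a c h ha hab hb v hv
    have h' : Q.Adj a w ∧ Chn Q w M c := h
    simp only [List.mem_cons, not_or] at hb
    have hw : w ∉ X := by
      intro hw
      rcases hX w hw a h'.1.symm with h1 | h1
      · exact ha h1
      · exact hab h1
    rcases List.mem_cons.mp hv with rfl | hv'
    · exact hw
    · exact ih w c h'.2 hw (fun h => hb.1 h.symm) hb.2 v hv'

/-- The configuration of a loop at a cubic vertex and its stem. -/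
structure Conf (Q : SimpleGraph ℕ) (b : ℕ) (L : List ℕ) (L' : List ℕ) (c : ℕ) : Prop where
  th : Thread Q b L b
  th' : Thread Q b L' c
  nodup : (L ++ b :: L').Nodup
  hc : c ∉ L ++ b :: L'
  nb : ∀ u, Q.Adj b u → (pathG b L b).Adj b u ∨ (pathG b L' c).Adj b u

theorem exists_conf (h2 : S_thrEx) {P : SimpleGraph ℕ → Prop} {S : Finset ℕ} {l : ℕ}
    (hQ : Q ∈ core P S l) {b : ℕ} {L : List ℕ} (hth : Thread Q b L b) (hd : deg Q b = 3) :
    ∃ (L' : List ℕ) (c : ℕ), Conf Q b L L' c := by
  have hbL := Thread.notMem_left hth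
  -- `L = h :: L₁`, with `L₁ ≠ []`
  obtain ⟨h, L₁, rfl⟩ : ∃ h L₁, L = h :: L₁ := by
    cases L with
    | nil => exact absurd (show Q.Adj b b from hth.chn) (Q.loopless.irrefl b)
    | cons h L₁ => exact ⟨h, L₁, rfl⟩
  have hL₁ : L₁ ≠ [] := by
    rintro rfl
    exact hth.one rfl rfl
  have hbh : Q.Adj b h := hth.chn.1
  set t := (b :: h :: L₁).getLast (by simp) with ht
  have htb : Q.Adj t b := chn_last _ _ _ hth.chn
  have htL₁ : t ∈ L₁ := by
    rw [ht, List.getLast_cons (by simp), List.getLast_cons hL₁]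
    exact List.getLast_mem hL₁
  have hnd := hth.nodup
  rw [List.nodup_cons] at hnd
  have hht : h ≠ t := fun hh => hnd.1 (hh ▸ htL₁)
  obtain ⟨y, hby, hyh, hyt, hyall⟩ := deg3_nbr hd hbh htb.symm hht
  obtain ⟨L', c, hth', hhead⟩ := h2 P S l Q hQ b y hby (by omega)
  have hbL' := Thread.notMem_left hth'
  have hcL' := Thread.notMem_right hth'
  -- edges at `L` stay in `L ∪ {b}`
  have hX : ∀ u ∈ {x | x ∈ h :: L₁}, ∀ w, Q.Adj u w → w ∈ {x | x ∈ h :: L₁} ∨ w = b := by
    intro u hu w huw
    have h3 := (Thread.inner hth hu huw).symm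
    rcases pathG_adj_mem _ _ _ _ _ h3 with h4 | h4 | h4
    · exact Or.inr h4
    · exact Or.inl h4
    · exact Or.inr h4
  -- `y` is not in `L`
  have hyL : y ∉ h :: L₁ := by
    intro hy
    have h3 := (Thread.inner hth hy hby.symm).symm
    simp only [pathG, SimpleGraph.sup_adj, SimpleGraph.edge_adj] at h3
    rcases h3 with ⟨⟨_, h3⟩ | ⟨h3, _⟩, _⟩ | h3
    · exact hyh h3
    · exact hbh.ne h3
    · simp only [List.mem_cons, not_or] at hbL
      have := (pathG_adj_last _ _ _ _ _ h3 hbL.1 hbL.2).2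
      apply hyt
      rw [this, ht, getLast_cc]
  have hcL : c ∉ h :: L₁ := by
    intro hc
    have := hth.deg2 c hc
    have := hth'.right
    omega
  have hdisj : ∀ v ∈ L', v ∉ h :: L₁ := by
    cases L' with
    | nil => intro v hv; simp at hv
    | cons y' M =>
      simp only [List.cons_append, List.head?_cons, Option.some.injEq] at hhead
      subst hhead
      intro v hv
      rcases List.mem_cons.mp hv with rfl | hv'
      · exact hyL
      · simp only [List.mem_cons, not_or] at hbL'
        exact chain_avoid {x | x ∈ h :: L₁} b hX M y' c hth'.chn.2 hyL (fun h => hbL'.1 h.symm)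
          hbL'.2 v hv'
  have hcb : c ≠ b := by
    rintro rfl
    cases L' with
    | nil => exact absurd (show Q.Adj c c from hth'.chn) (Q.loopless.irrefl c)
    | cons y' M =>
      simp only [List.cons_append, List.head?_cons, Option.some.injEq] at hhead
      subst hhead
      have hM : M ≠ [] := by
        rintro rfl
        exact hth'.one rfl rfl
      set z := (c :: y' :: M).getLast (by simp) with hz
      have hzc : Q.Adj z c := chn_last _ _ _ hth'.chn
      have hzM : z ∈ M := by
        rw [hz, List.getLast_cons (by simp), List.getLast_cons hM]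
        exact List.getLast_mem hM
      have hnd' := hth'.nodup
      rw [List.nodup_cons] at hnd'
      rcases hyall z hzc.symm with h5 | h5 | h5
      · exact hdisj z (by simp [hzM]) (by simp [h5])
      · exact hdisj z (by simp [hzM]) (by simp [h5, htL₁])
      · exact hnd'.1 (h5 ▸ hzM)
  refine ⟨L', c, hth, hth', ?_, ?_, ?_⟩
  · rw [List.nodup_append']
    refine ⟨hth.nodup, List.nodup_cons.mpr ⟨hbL', hth'.nodup⟩, ?_⟩
    intro x hx hx'
    rcases List.mem_cons.mp hx' with rfl | hx'
    · exact hbL hx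
    · exact hdisj x hx' hx
  · simp only [List.mem_append, List.mem_cons, not_or]
    exact ⟨by simpa using hcL, hcb, hcL'⟩
  · intro u hu
    rcases hyall u hu with rfl | rfl | rfl
    · exact Or.inl (Thread.inner hth (by simp) hbh.symm).symm
    · exact Or.inl (Thread.inner hth (by simp [htL₁]) htb).symm
    · right
      cases L' with
      | nil =>
        simp only [List.nil_append, List.head?_cons, Option.some.injEq] at hhead
        subst hhead
        exact edge_self hby.ne
      | cons y' M =>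
        simp only [List.cons_append, List.head?_cons, Option.some.injEq] at hhead
        subst hhead
        exact Or.inl (edge_self hby.ne)

/-- The graph outside `R`. -/
def rest (Q : SimpleGraph ℕ) (R : List ℕ) : SimpleGraph ℕ where
  Adj x y := Q.Adj x y ∧ x ∉ R ∧ y ∉ R
  symm := ⟨fun _ _ h => ⟨h.1.symm, h.2.2, h.2.1⟩⟩
  loopless := ⟨fun _ h => Q.loopless.irrefl _ h.1⟩

theorem Conf.nbr_R {b c : ℕ} {L L' : List ℕ} (h : Conf Q b L L' c) {u w : ℕ}
    (hu : u ∈ L ++ b :: L') (huw : Q.Adj u w) :
    (pathG b L b).Adj u w ∨ (pathG b L' c).Adj u w := by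
  simp only [List.mem_append, List.mem_cons] at hu
  rcases hu with hu | rfl | hu
  · exact Or.inl (Thread.inner h.th hu huw)
  · exact h.nb w huw
  · exact Or.inr (Thread.inner h.th' hu huw)

theorem Conf.recover {b c : ℕ} {L L' : List ℕ} (h : Conf Q b L L' c) :
    Q = rest Q (L ++ b :: L') ⊔ pathG b L b ⊔ pathG b L' c := by
  apply le_antisymm
  · intro x y hxy
    simp only [SimpleGraph.sup_adj]
    by_cases hx : x ∈ L ++ b :: L'
    · rcases h.nbr_R hx hxy with h1 | h1
      · exact Or.inl (Or.inr h1)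
      · exact Or.inr h1
    · by_cases hy : y ∈ L ++ b :: L'
      · rcases h.nbr_R hy hxy.symm with h1 | h1
        · exact Or.inl (Or.inr h1.symm)
        · exact Or.inr h1.symm
      · exact Or.inl (Or.inl ⟨hxy, hx, hy⟩)
  · refine sup_le (sup_le ?_ (pathG_le _ _ _ h.th.chn)) (pathG_le _ _ _ h.th'.chn)
    intro x y hxy
    exact hxy.1

theorem Conf.deg_rest {b c : ℕ} {L L' : List ℕ} (h : Conf Q b L L' c) {S : Finset ℕ}
    (hS : Q.support ⊆ ↑S) {v : ℕ} (hv : v ∉ L ++ b :: L') :
    deg Q v = deg (rest Q (L ++ b :: L')) v + if v = c then 1 else 0 := by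
  have key : ∀ u ∈ L ++ b :: L', Q.Adj v u → v = c ∧ u = (b :: L').getLast (by simp) := by
    intro u hu hvu
    have hv' := hv
    simp only [List.mem_append, List.mem_cons, not_or] at hv'
    rcases h.nbr_R hu hvu.symm with h1 | h1
    · have := (pathG_adj_last _ _ _ _ _ h1.symm hv'.2.1 hv'.1).1
      exact absurd this hv'.2.1
    · exact pathG_adj_last _ _ _ _ _ h1.symm hv'.2.1 hv'.2.2
  by_cases hvc : v = c
  · subst hvc
    simp only [if_true]
    set z := (b :: L').getLast (by simp) with hz
    have hzR : z ∈ L ++ b :: L' := by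
      have := List.getLast_mem (l := b :: L') (by simp)
      rw [List.mem_append]
      exact Or.inr this
    have hzv : Q.Adj z v := chn_last _ _ _ h.th'.chn
    have hset : Q.neighborSet v = insert z ((rest Q (L ++ b :: L')).neighborSet v) := by
      ext u
      simp only [SimpleGraph.mem_neighborSet, Set.mem_insert_iff]
      constructor
      · intro hu
        by_cases huR : u ∈ L ++ b :: L'
        · exact Or.inl (key u huR hu).2
        · exact Or.inr ⟨hu, hv, huR⟩
      · rintro (rfl | hu)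
        · exact hzv.symm
        · exact hu.1
    have hfin : ((rest Q (L ++ b :: L')).neighborSet v).Finite := by
      refine (nbr_finite hS v).subset ?_
      intro u hu
      have : (rest Q (L ++ b :: L')).Adj v u := hu
      exact this.1
    have hnot : z ∉ (rest Q (L ++ b :: L')).neighborSet v := by
      intro hz'
      have : (rest Q (L ++ b :: L')).Adj v z := hz'
      exact this.2.2 hzR
    rw [deg, hset, Set.ncard_insert_of_notMem hnot hfin, deg]
  · rw [if_neg hvc, add_zero, deg, deg]
    congr 1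
    ext u
    simp only [SimpleGraph.mem_neighborSet]
    constructor
    · intro hu
      refine ⟨hu, hv, fun huR => hvc (key u huR hu).1⟩
    · intro hu
      exact hu.1

theorem deg_pos_mem {S : Finset ℕ} (hS : Q.support ⊆ ↑S) {v : ℕ} (h : 1 ≤ deg Q v) : v ∈ S := by
  have : (Q.neighborSet v).Nonempty := by
    rw [Set.nonempty_iff_ne_empty]
    intro h0
    rw [deg, h0, Set.ncard_empty] at h
    omega
  obtain ⟨u, hu⟩ := this
  exact hS ⟨u, hu⟩

theorem Conf.subset {b c : ℕ} {L L' : List ℕ} (h : Conf Q b L L' c) {S : Finset ℕ}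
    (hS : Q.support ⊆ ↑S) : (L ++ b :: L').toFinset ⊆ S ∧ c ∈ S := by
  constructor
  · intro v hv
    rw [List.mem_toFinset] at hv
    simp only [List.mem_append, List.mem_cons] at hv
    apply deg_pos_mem hS
    rcases hv with hv | rfl | hv
    · rw [h.th.deg2 v hv]; norm_num
    · have := h.th.left; omega
    · rw [h.th'.deg2 v hv]; norm_num
  · apply deg_pos_mem hS
    have := h.th'.right
    omega

theorem map_sum_const {L : List ℕ} (h : ∀ v ∈ L, deg Q v = 2) : (L.map (deg Q)).sum = 2 * L.length := by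
  induction L with
  | nil => simp
  | cons v L ih =>
    rw [List.map_cons, List.sum_cons, h v (by simp), ih (fun x hx => h x (by simp [hx])),
      List.length_cons]
    ring

theorem Conf.rest_core {P : SimpleGraph ℕ → Prop} (hP : SurfClass P) {S : Finset ℕ} {l : ℕ}
    (hQ : Q ∈ core P S (l + 1)) {b c : ℕ} {L L' : List ℕ} (h : Conf Q b L L' c)
    (hd : deg Q b = 3) :
    rest Q (L ++ b :: L') ∈ core P (S \ (L ++ b :: L').toFinset) l := by
  have hQ' := hQ
  simp only [core, Finset.mem_filter, mem_graphsOn] at hQ'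
  obtain ⟨hS, hPQ, hdeg, hne⟩ := hQ'
  set R := L ++ b :: L' with hR
  have hRS : R.toFinset ⊆ S := (h.subset hS).1
  have hcS : c ∈ S := (h.subset hS).2
  have hle : rest Q R ≤ Q := fun x y hxy => hxy.1
  have hsupp : (rest Q R).support ⊆ ↑(S \ R.toFinset) := by
    rintro x ⟨y, hxy⟩
    have hxy' : Q.Adj x y ∧ x ∉ R ∧ y ∉ R := hxy
    simp only [Finset.coe_sdiff, Set.mem_sdiff, Finset.mem_coe, List.mem_toFinset]
    exact ⟨hS ⟨y, hxy'.1⟩, hxy'.2.1⟩
  simp only [core, Finset.mem_filter, mem_graphsOn]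
  refine ⟨hsupp, hP.mono _ _ (edgeSet_finite hS) hle hPQ, ?_, ?_⟩
  · intro v hv
    simp only [Finset.mem_sdiff, List.mem_toFinset] at hv
    have h1 := h.deg_rest hS hv.2
    by_cases hvc : v = c
    · rw [if_pos hvc] at h1
      have := h.th'.right
      rw [← hvc] at this
      rw [← hR] at h1
      omega
    · rw [if_neg hvc, ← hR] at h1
      have := hdeg v hv.1
      omega
  · have hs1 := handshake hS
    have hs2 := handshake hsupp
    have hs3 : ∑ v ∈ S \ R.toFinset, deg Q v + ∑ v ∈ R.toFinset, deg Q v = ∑ v ∈ S, deg Q v :=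
      Finset.sum_sdiff hRS
    have hs4 : ∑ v ∈ R.toFinset, deg Q v = 2 * L.length + (3 + 2 * L'.length) := by
      rw [List.sum_toFinset _ h.nodup, List.map_append, List.sum_append, List.map_cons,
        List.sum_cons, hd]
      rw [show (List.map (fun v => deg Q v) L).sum = 2 * L.length from map_sum_const h.th.deg2,
        show (List.map (fun v => deg Q v) L').sum = 2 * L'.length from map_sum_const h.th'.deg2]
    have hcR : c ∈ S \ R.toFinset := by
      simp only [Finset.mem_sdiff, List.mem_toFinset]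
      exact ⟨hcS, h.hc⟩
    have hs5 : ∑ v ∈ S \ R.toFinset, deg Q v = ∑ v ∈ S \ R.toFinset, deg (rest Q R) v + 1 := by
      have : ∀ v ∈ S \ R.toFinset, deg Q v = deg (rest Q R) v + if v = c then 1 else 0 := by
        intro v hv
        simp only [Finset.mem_sdiff, List.mem_toFinset] at hv
        exact h.deg_rest hS hv.2
      rw [Finset.sum_congr rfl this, Finset.sum_add_distrib]
      simp [Finset.sum_ite_eq', hcR]
    have hs6 : (S \ R.toFinset).card + R.length = S.card := by
      rw [← List.toFinset_card_of_nodup h.nodup]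
      exact Finset.card_sdiff_add_card_eq_card hRS
    have hs7 : R.length = L.length + (L'.length + 1) := by
      rw [hR, List.length_append, List.length_cons]
    omega

/-- Nodup lists of length `r` with entries smaller than `k`. -/
noncomputable def nl (k r : ℕ) : Finset (List ℕ) :=
  (Finset.univ : Finset (Fin r ↪ Fin k)).image (fun e => List.ofFn (fun i => (e i : ℕ)))

theorem card_nl (k r : ℕ) : (nl k r).card ≤ k.descFactorial r := by
  refine Finset.card_image_le.trans ?_
  rw [Finset.card_univ, Fintype.card_embedding_eq, Fintype.card_fin, Fintype.card_fin]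

theorem mem_nl {k : ℕ} {R : List ℕ} (h : R.Nodup) (hk : ∀ v ∈ R, v < k) : R ∈ nl k R.length := by
  simp only [nl, Finset.mem_image, Finset.mem_univ, true_and]
  refine ⟨⟨fun i => ⟨R[i], hk _ (List.getElem_mem _)⟩, ?_⟩, ?_⟩
  · intro i j hij
    simp only [Fin.mk.injEq] at hij
    exact h.injective_get hij
  · simp only [Function.Embedding.coeFn_mk, Fin.getElem_fin]
    exact List.ofFn_getElem

theorem nl_card_sdiff {k r : ℕ} {R : List ℕ} (h : R ∈ nl k r) :
    (range k \ R.toFinset).card = k - r := by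
  simp only [nl, Finset.mem_image, Finset.mem_univ, true_and] at h
  obtain ⟨e, rfl⟩ := h
  have hnd : (List.ofFn (fun i => ((e i : Fin k) : ℕ))).Nodup := by
    rw [List.nodup_ofFn]
    intro i j hij
    exact e.injective (Fin.ext hij)
  have hsub : (List.ofFn (fun i => ((e i : Fin k) : ℕ))).toFinset ⊆ range k := by
    intro v hv
    simp only [List.mem_toFinset, List.mem_ofFn] at hv
    obtain ⟨i, rfl⟩ := hv
    simp
  rw [Finset.card_sdiff_of_subset hsub, Finset.card_range, List.toFinset_card_of_nodup hnd,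
    List.length_ofFn]

/-- The set of loops. -/
def loops (Q : SimpleGraph ℕ) : Set (ℕ × List ℕ) := {p | Thread Q p.1 p.2 p.1 ∧ deg Q p.1 = 3}

noncomputable def lf (Q : SimpleGraph ℕ) : Finset (ℕ × List ℕ) :=
  if h : (loops Q).Finite then h.toFinset else ∅

theorem mem_lf {p : ℕ × List ℕ} (h : p ∈ lf Q) : Thread Q p.1 p.2 p.1 ∧ deg Q p.1 = 3 := by
  unfold lf at h
  split_ifs at h with h1
  · simpa [loops] using h
  · simp at h

theorem ncard_loops (h2 : S_thr) {P : SimpleGraph ℕ → Prop} {S : Finset ℕ} {l : ℕ}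
    (hQ : Q ∈ core P S l) : (loops Q).ncard = (lf Q).card := by
  have hfin : (loops Q).Finite := by
    refine Set.Finite.of_injOn (f := fun p : ℕ × List ℕ => (p.1, p.2, p.1)) ?_ ?_
      (h2 P S l 0 Q hQ).1
    · intro p hp
      exact hp.1
    · intro p _ q _ hpq
      simp only [Prod.mk.injEq] at hpq
      exact Prod.ext hpq.1 hpq.2.1
  rw [lf, dif_pos hfin, Set.ncard_eq_toFinset_card _ hfin]

end PkgD3

open PkgD3 in
theorem pkgD3 (h1 : S_relabel) (h2 : S_thr) (h3 : S_thrEx) : S_T2 := by
  intro P hP k l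
  have hcount : ∀ Q ∈ core P (range k) (l + 1),
      {p : ℕ × List ℕ | Thread Q p.1 p.2 p.1 ∧ deg Q p.1 = 3}.ncard = (lf Q).card :=
    fun Q hQ => ncard_loops h2 hQ
  rw [Finset.sum_congr rfl hcount, ← Finset.card_sigma]
  set A := (core P (range k) (l + 1)).sigma fun Q => lf Q with hA
  have hex : ∀ x ∈ A, ∃ (L' : List ℕ) (c : ℕ), Conf x.1 x.2.1 x.2.2 L' c := by
    intro x hx
    rw [hA, Finset.mem_sigma] at hx
    obtain ⟨hx1, hx2⟩ := mem_lf hx.2
    exact exists_conf h3 hx.1 hx1 hx2
  choose! g1 g2 hg using hex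
  set B : Finset (Σ _ : ℕ, Σ _ : List ℕ, ℕ × ℕ × SimpleGraph ℕ) :=
    (range (k + 1)).sigma fun r => (nl k r).sigma fun R =>
      range r ×ˢ (range k ×ˢ core P (range k \ R.toFinset) l) with hB
  have hAB : A.card ≤ B.card := by
    refine Finset.card_le_card_of_injOn
      (fun x => ⟨(x.2.2 ++ x.2.1 :: g1 x).length, ⟨x.2.2 ++ x.2.1 :: g1 x,
        (x.2.2.length, g2 x, rest x.1 (x.2.2 ++ x.2.1 :: g1 x))⟩⟩) ?_ ?_
    · intro x hx
      have hx' : x ∈ A := hx
      have hc := hg x hx'
      rw [hA, Finset.mem_sigma] at hx'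
      obtain ⟨hx1, hx2⟩ := mem_lf hx'.2
      have hS : x.1.support ⊆ ↑(range k) := by
        have := hx'.1
        simp only [core, Finset.mem_filter, mem_graphsOn] at this
        exact this.1
      have hsub := hc.subset hS
      have hlen : (x.2.2 ++ x.2.1 :: g1 x).length ≤ k := by
        rw [← List.toFinset_card_of_nodup hc.nodup]
        simpa using Finset.card_le_card hsub.1
      rw [hB, Finset.mem_coe, Finset.mem_sigma]
      refine ⟨by simpa [Nat.lt_succ_iff] using hlen, ?_⟩
      rw [Finset.mem_sigma]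
      refine ⟨mem_nl hc.nodup fun v hv => ?_, ?_⟩
      · have := hsub.1 (List.mem_toFinset.mpr hv)
        simpa using this
      · simp only [Finset.mem_product]
        refine ⟨?_, hsub.2, hc.rest_core hP hx'.1 hx2⟩
        simp
    · intro x hx x' hx' hxx
      have hc := hg x hx
      have hc' := hg x' hx'
      simp only [Sigma.mk.injEq, heq_eq_eq, Prod.mk.injEq] at hxx
      obtain ⟨_, hR, hl, hcc, hrest⟩ := hxx
      obtain ⟨hL, hbL⟩ := List.append_inj hR hl
      rw [List.cons.injEq] at hbL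
      have hQ : x.1 = x'.1 := by
        rw [hc.recover, hc'.recover, hrest, hL, hbL.1, hbL.2, hcc]
      obtain ⟨Q, b, L⟩ := x
      obtain ⟨Q', b', L'⟩ := x'
      simp only at hQ hL hbL
      obtain ⟨hb, _⟩ := hbL
      subst hQ hL hb
      rfl
  refine hAB.trans ?_
  rw [hB, Finset.card_sigma]
  refine Finset.sum_le_sum fun r hr => ?_
  rw [Finset.card_sigma]
  have hterm : ∀ R ∈ nl k r, (range r ×ˢ (range k ×ˢ core P (range k \ R.toFinset) l)).card =
      r * (k * W P (k - r) l) := by
    intro R hR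
    have hrel := h1 P hP (fun _ => 1) (fun _ _ => rfl) (range k \ R.toFinset) (range (k - r)) l
      (by rw [nl_card_sdiff hR, Finset.card_range])
    simp only [Finset.sum_const, smul_eq_mul, mul_one] at hrel
    rw [Finset.card_product, Finset.card_product, Finset.card_range, Finset.card_range, hrel, W]
  rw [Finset.sum_congr rfl hterm, Finset.sum_const, smul_eq_mul]
  calc (nl k r).card * (r * (k * W P (k - r) l))
      ≤ k.descFactorial r * (r * (k * W P (k - r) l)) := Nat.mul_le_mul_right _ (card_nl k r)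
    _ = r * (k.descFactorial r * (W P (k - r) l * k)) := by ring

end GiantSurf57
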