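import Pool.Agent.GiantSurf57.StmtsTop

/-! Package D4: upper bound for the step `l → l + 1`. -/

open scoped Classical
open Finset

namespace GiantSurf57

namespace PkgD4

theorem wt_nonneg (P : SimpleGraph ℕ → Prop) (k l : ℕ) : 0 ≤ wt P k l := by
  rw [wt]
  positivity

theorem W_eq (P : SimpleGraph ℕ → Prop) (k l : ℕ) :
    (W P k l : ℝ) = (k.factorial : ℝ) * wt P k l := by
  have : (k.factorial : ℝ) ≠ 0 := by exact_mod_cast k.factorial_ne_zero
  rw [wt]
  field_simp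

theorem W1r (h1 : S_W1) {P : SimpleGraph ℕ → Prop} (hP : SurfClass P) (k l : ℕ) (hl : 1 ≤ l) :
    ((k : ℝ) + l) * wt P k l ≤ k * wt P (k + 1) l := by
  have h : (((k + l) * (k + 1) * W P k l : ℕ) : ℝ) ≤ ((k * W P (k + 1) l : ℕ) : ℝ) := by
    exact_mod_cast h1 P hP k l hl
  push_cast at h
  rw [W_eq P k l, W_eq P (k + 1) l, Nat.factorial_succ] at h
  push_cast at h
  have hf : (0 : ℝ) < k.factorial := by exact_mod_cast k.factorial_pos
  have hk : (0 : ℝ) < (k : ℝ) + 1 := by positivity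
  have h2 : ((k : ℝ) + 1) * (k.factorial : ℝ) * (((k : ℝ) + l) * wt P k l) ≤
      ((k : ℝ) + 1) * (k.factorial : ℝ) * (k * wt P (k + 1) l) := by
    nlinarith [h]
  exact le_of_mul_le_mul_left h2 (by positivity)

theorem wt_mono (h1 : S_W1) {P : SimpleGraph ℕ → Prop} (hP : SurfClass P) (k l : ℕ)
    (hl : 1 ≤ l) : wt P k l ≤ wt P (k + 1) l := by
  have h := W1r h1 hP k l hl
  have hl' : (1 : ℝ) ≤ l := by exact_mod_cast hl
  have h0 := wt_nonneg P k l
  have h0' := wt_nonneg P (k + 1) l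
  rcases Nat.eq_zero_or_pos k with hk | hk
  · subst hk
    simp only [Nat.cast_zero, zero_add, zero_mul] at h
    have : wt P 0 l = 0 := by
      have : (l : ℝ) * wt P 0 l ≤ 0 := h
      nlinarith
    rw [this]
    exact h0'
  · have hk' : (0 : ℝ) < k := by exact_mod_cast hk
    have h3 : (k : ℝ) * wt P k l ≤ k * wt P (k + 1) l := by nlinarith
    exact le_of_mul_le_mul_left h3 hk'

theorem W2r (h1 : S_W1) (h2 : S_tri) (h3 : S_W2) {P : SimpleGraph ℕ → Prop} (hP : SurfClass P)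
    (k l : ℕ) (hl : 1 ≤ l) :
    ((k : ℝ) - 8 * l) * wt P (k + 1) l ≤ (k + l) * wt P k l := by
  have h0 := wt_nonneg P k l
  have h0' := wt_nonneg P (k + 1) l
  have hl' : (1 : ℝ) ≤ l := by exact_mod_cast hl
  by_cases hk : k < 2
  · have hk' : (k : ℝ) < 2 := by exact_mod_cast hk
    have : ((k : ℝ) - 8 * l) * wt P (k + 1) l ≤ 0 := by
      apply mul_nonpos_of_nonpos_of_nonneg _ h0'
      linarith
    have h4 : 0 ≤ ((k : ℝ) + l) * wt P k l := by positivity
    linarith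
  · obtain ⟨m, rfl⟩ : ∃ m, k = m + 2 := ⟨k - 2, by omega⟩
    have ht := h2 P hP m l
    have hs := h3 P hP (m + 2) l
    have hs' : (m + 2 + 1) * W P (m + 2 + 1) l ≤ (m + 2 + 1) * (m + 2 + l) * W P (m + 2) l +
        8 * l * W P (m + 2 + 1) l + 3 * (m + 3).choose 3 * W P m l :=
      hs.trans (Nat.add_le_add_left ht _)
    have hc : (3 * (m + 3).choose 3) * 2 = (m + 3) * (m + 2) * (m + 1) := by
      have e1 := Nat.descFactorial_eq_factorial_mul_choose (m + 3) 3
      have e2 : (m + 3).descFactorial 3 = (m + 1) * ((m + 2) * ((m + 3) * 1)) := by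
        simp [Nat.descFactorial_succ]
      have e3 : Nat.factorial 3 = 6 := rfl
      rw [e2, e3] at e1
      nlinarith [e1]
    have h5 : (((m + 2 + 1) * W P (m + 2 + 1) l * 2 : ℕ) : ℝ) ≤
        (((((m + 2 + 1) * (m + 2 + l) * W P (m + 2) l + 8 * l * W P (m + 2 + 1) l) * 2 +
          (m + 3) * (m + 2) * (m + 1) * W P m l) : ℕ) : ℝ) := by
      have : (m + 2 + 1) * W P (m + 2 + 1) l * 2 ≤
        (((m + 2 + 1) * (m + 2 + l) * W P (m + 2) l + 8 * l * W P (m + 2 + 1) l) * 2 +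
          (m + 3) * (m + 2) * (m + 1) * W P m l) := by
        rw [← hc]
        nlinarith [hs']
      exact_mod_cast this
    push_cast at h5
    rw [W_eq P (m + 2 + 1) l, W_eq P (m + 2) l, W_eq P m l] at h5
    have f1 : ((m + 2 + 1).factorial : ℝ) = (m + 3) * ((m + 2) * ((m + 1) * m.factorial)) := by
      rw [Nat.factorial_succ, Nat.factorial_succ, Nat.factorial_succ]
      push_cast
      ring
    have f2 : ((m + 2).factorial : ℝ) = (m + 2) * ((m + 1) * m.factorial) := by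
      rw [Nat.factorial_succ, Nat.factorial_succ]
      push_cast
      ring
    rw [f1, f2] at h5
    have hmono : wt P m l ≤ wt P (m + 2 + 1) l :=
      (wt_mono h1 hP m l hl).trans ((wt_mono h1 hP (m + 1) l hl).trans
        (wt_mono h1 hP (m + 2) l hl))
    have hf : (0 : ℝ) < m.factorial := by exact_mod_cast m.factorial_pos
    set F : ℝ := (m + 3) * ((m + 2) * ((m + 1) * (m.factorial : ℝ))) with hF
    have hFpos : 0 < F := by positivity
    have h6 : F * (((m : ℝ) + 3) * wt P (m + 2 + 1) l * 2) ≤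
        F * ((((m : ℝ) + 2 + l) * wt P (m + 2) l + 8 * l * wt P (m + 2 + 1) l) * 2 +
          wt P m l) := by
      rw [hF] at *
      nlinarith [h5]
    have h7 := le_of_mul_le_mul_left h6 hFpos
    push_cast
    nlinarith

theorem sumA {u : ℕ → ℝ} {l : ℕ} (h0 : ∀ k, 0 ≤ u k)
    (h : ∀ k : ℕ, ((k : ℝ) + l) * u k ≤ k * u (k + 1)) (n : ℕ) :
    (l : ℝ) * ∑ j ∈ range n, u j ≤ n * u n := by
  induction n with
  | zero => simp
  | succ n ih =>
    rw [sum_range_succ, mul_add]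
    have h1 := h n
    have h2 := h0 (n + 1)
    push_cast
    nlinarith

theorem sumA' {u : ℕ → ℝ} {l : ℕ} (h0 : ∀ k, 0 ≤ u k)
    (h : ∀ k : ℕ, ((k : ℝ) + l) * u k ≤ k * u (k + 1)) (n : ℕ) :
    (l : ℝ) * ∑ j ∈ range (n + 1), u j ≤ (n + l) * u n := by
  rw [sum_range_succ, mul_add]
  have h1 := sumA h0 h n
  linarith

theorem sumB {u : ℕ → ℝ} {l : ℕ} (h0 : ∀ k, 0 ≤ u k)
    (h : ∀ k : ℕ, ((k : ℝ) + l) * u k ≤ k * u (k + 1)) (n : ℕ) :
    (l : ℝ) ^ 2 * ∑ j ∈ range (n + 1), ((n : ℝ) - j) * u j ≤ n * (n + l) * u n := by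
  induction n with
  | zero => simp
  | succ n ih =>
    have h1 : ∑ j ∈ range (n + 1 + 1), (((n + 1 : ℕ) : ℝ) - j) * u j =
        ∑ j ∈ range (n + 1), ((n : ℝ) - j) * u j + ∑ j ∈ range (n + 1), u j := by
      rw [sum_range_succ, ← sum_add_distrib]
      simp only [sub_self, zero_mul, add_zero]
      refine sum_congr rfl fun j _ => ?_
      push_cast
      ring
    rw [h1, mul_add]
    have h2 := sumA' h0 h n
    have h3 := h n
    have h4 := h0 (n + 1)
    have h5 : (l : ℝ) ^ 2 * ∑ j ∈ range (n + 1), u j ≤ l * ((n + l) * u n) := by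
      rw [sq, mul_assoc]
      exact mul_le_mul_of_nonneg_left h2 (Nat.cast_nonneg _)
    have h6 : (n : ℝ) * (n + l) * u n + l * ((n + l) * u n) = (n + l) * ((n + l) * u n) := by ring
    have h7 : ((n : ℝ) + l) * ((n + l) * u n) ≤ (n + l) * (n * u (n + 1)) :=
      mul_le_mul_of_nonneg_left h3 (by positivity)
    have h8 : ((n : ℝ) + l) * (n * u (n + 1)) ≤ ((n + 1 : ℕ) : ℝ) * ((n + 1 : ℕ) + l) * u (n + 1) := by
      push_cast
      have hl0 : (0 : ℝ) ≤ l := Nat.cast_nonneg _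
      have hn0 : (0 : ℝ) ≤ n := Nat.cast_nonneg _
      have : ((n : ℝ) + l) * n ≤ (n + 1) * (n + 1 + l) := by nlinarith
      nlinarith [mul_le_mul_of_nonneg_right this h4]
    linarith

theorem desc_wt (P : SimpleGraph ℕ → Prop) {k p : ℕ} (hp : p ≤ k) (l : ℕ) :
    (k.descFactorial p : ℝ) * (W P (k - p) l : ℝ) = (k.factorial : ℝ) * wt P (k - p) l := by
  rw [W_eq]
  have := Nat.factorial_mul_descFactorial hp
  have h2 : ((k - p).factorial : ℝ) * (k.descFactorial p : ℝ) = (k.factorial : ℝ) := by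
    exact_mod_cast this
  rw [← h2]
  ring

theorem T1r {P : SimpleGraph ℕ → Prop} (k l K : ℕ) :
    ((∑ p ∈ range (k + 1), k.descFactorial p * (W P (k - p) l * K) : ℕ) : ℝ) =
      (k.factorial : ℝ) * (K * ∑ j ∈ range (k + 1), wt P j l) := by
  push_cast
  have h1 : ∑ j ∈ range (k + 1), wt P (k - j) l = ∑ j ∈ range (k + 1), wt P j l := by
    have := Finset.sum_range_reflect (fun j => wt P j l) (k + 1)
    simpa using this
  rw [← h1, mul_sum, mul_sum]
  refine sum_congr rfl fun p hp => ?_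
  have hp' : p ≤ k := by
    rw [mem_range] at hp
    omega
  have := desc_wt P hp' l
  calc (k.descFactorial p : ℝ) * ((W P (k - p) l : ℝ) * K)
      = ((k.descFactorial p : ℝ) * (W P (k - p) l : ℝ)) * K := by ring
    _ = _ := by rw [this]; ring

theorem T2r {P : SimpleGraph ℕ → Prop} (k l : ℕ) :
    ((∑ r ∈ range (k + 1), r * (k.descFactorial r * (W P (k - r) l * k)) : ℕ) : ℝ) =
      (k.factorial : ℝ) * (k * ∑ j ∈ range (k + 1), ((k : ℝ) - j) * wt P j l) := by
  push_cast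
  have h1 : ∑ j ∈ range (k + 1), ((k : ℝ) - ((k - j : ℕ) : ℝ)) * wt P (k - j) l =
      ∑ j ∈ range (k + 1), ((k : ℝ) - j) * wt P j l := by
    have := Finset.sum_range_reflect (fun j => ((k : ℝ) - j) * wt P j l) (k + 1)
    simpa using this
  rw [← h1, mul_sum, mul_sum]
  refine sum_congr rfl fun p hp => ?_
  have hp' : p ≤ k := by
    rw [mem_range] at hp
    omega
  have := desc_wt P hp' l
  have h3 : (k : ℝ) - ((k - p : ℕ) : ℝ) = p := by
    rw [Nat.cast_sub hp']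
    ring
  rw [h3]
  calc (p : ℝ) * ((k.descFactorial p : ℝ) * ((W P (k - p) l : ℝ) * k))
      = p * (((k.descFactorial p : ℝ) * (W P (k - p) l : ℝ)) * k) := by ring
    _ = _ := by rw [this]; ring

/-- The good threads are few. -/
theorem good_le (h4 : S_thr) {P : SimpleGraph ℕ → Prop} {S : Finset ℕ} {l : ℕ}
    {Q : SimpleGraph ℕ} (hQ : Q ∈ core P S l) (M : ℕ) :
    (goodThr Q M).ncard ≤ {p ∈ goodThr Q M | p.1 ≠ p.2.2}.ncard +
      {p : ℕ × List ℕ | Thread Q p.1 p.2 p.1 ∧ deg Q p.1 = 3}.ncard := by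
  have hfin := (h4 P S l 0 Q hQ).1
  have hfA : {p ∈ goodThr Q M | p.1 ≠ p.2.2}.Finite := hfin.subset fun p hp => hp.1.1
  have hinj : Function.Injective (fun p : ℕ × List ℕ => (p.1, p.2, p.1)) := by
    rintro ⟨a, L⟩ ⟨b, L'⟩ h
    simp only [Prod.mk.injEq] at h
    rw [h.1, h.2.1]
  have hfB : {p : ℕ × List ℕ | Thread Q p.1 p.2 p.1 ∧ deg Q p.1 = 3}.Finite := by
    refine Set.Finite.of_finite_image (f := fun p : ℕ × List ℕ => (p.1, p.2, p.1))
      (hfin.subset ?_) hinj.injOn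
    rintro _ ⟨p, hp, rfl⟩
    exact hp.1
  calc (goodThr Q M).ncard ≤ ({p ∈ goodThr Q M | p.1 ≠ p.2.2} ∪
        (fun p : ℕ × List ℕ => (p.1, p.2, p.1)) ''
          {p : ℕ × List ℕ | Thread Q p.1 p.2 p.1 ∧ deg Q p.1 = 3}).ncard := by
        refine Set.ncard_le_ncard ?_ (hfA.union (hfB.image _))
        rintro ⟨b, L, c⟩ hp
        by_cases hbc : b = c
        · subst hbc
          exact Or.inr ⟨(b, L), ⟨hp.1, hp.2.1⟩, rfl⟩
        · exact Or.inl ⟨hp, hbc⟩
    _ ≤ _ := (Set.ncard_union_le _ _).trans (Nat.add_le_add_left (Set.ncard_image_le hfB) _)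

theorem final_calc {l k M w SA SB T1 T2 N f B C W : ℝ} (hl : 1 ≤ l) (hk : 32 * l ≤ k)
    (hM0 : 0 ≤ M) (hM : (M + 1) * (l + 1) ≤ 402 * k) (w0 : 0 ≤ w) (f0 : 0 < f) (B0 : 0 ≤ B)
    (SA0 : 0 ≤ SA) (hA : l * SA ≤ (k + l) * w) (hB : l ^ 2 * SB ≤ k * (k + l) * w)
    (hT1 : T1 = f * (k * (B * (M + 1)) * SA)) (hT2 : T2 = f * (k * SB))
    (hmain : (l + 1) * N ≤ 16 * (T1 + T2)) (N0 : 0 ≤ N) (hC : 16 * (B * 804 + 4) ≤ C)
    (hW : W = f * w) : l ^ 3 * N ≤ C * k ^ 3 * W := by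
  have k0 : 0 < k := by linarith
  have l0 : 0 < l := by linarith
  have hM2r : (M + 1) * l ≤ 402 * k := by nlinarith
  have hA2 : l * SA ≤ 2 * k * w := by
    have : (k + l) * w ≤ 2 * k * w := mul_le_mul_of_nonneg_right (by linarith) w0
    linarith
  have hB2 : l ^ 2 * SB ≤ 2 * k ^ 2 * w := by
    have : k * (k + l) * w ≤ 2 * k ^ 2 * w :=
      mul_le_mul_of_nonneg_right (by nlinarith) w0
    linarith
  have hx : l ^ 2 * T1 ≤ f * (B * 804 * k ^ 3 * w) := by
    rw [hT1]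
    have e1 : l ^ 2 * (f * (k * (B * (M + 1)) * SA)) =
        f * (B * k * (((M + 1) * l) * (l * SA))) := by ring
    rw [e1]
    refine mul_le_mul_of_nonneg_left ?_ f0.le
    have e2 : ((M + 1) * l) * (l * SA) ≤ (402 * k) * (2 * k * w) :=
      mul_le_mul hM2r hA2 (by positivity) (by positivity)
    calc B * k * (((M + 1) * l) * (l * SA))
        ≤ B * k * ((402 * k) * (2 * k * w)) :=
          mul_le_mul_of_nonneg_left e2 (by positivity)
      _ = B * 804 * k ^ 3 * w := by ring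
  have hy : l ^ 2 * T2 ≤ f * (2 * k ^ 3 * w) := by
    rw [hT2]
    have e1 : l ^ 2 * (f * (k * SB)) = f * (k * (l ^ 2 * SB)) := by ring
    rw [e1]
    refine mul_le_mul_of_nonneg_left ?_ f0.le
    calc k * (l ^ 2 * SB) ≤ k * (2 * k ^ 2 * w) := mul_le_mul_of_nonneg_left hB2 k0.le
      _ = 2 * k ^ 3 * w := by ring
  have e2 : l ^ 3 * N ≤ l ^ 2 * (16 * (T1 + T2)) := by
    calc l ^ 3 * N = l ^ 2 * (l * N) := by ring
      _ ≤ l ^ 2 * ((l + 1) * N) :=
        mul_le_mul_of_nonneg_left (by linarith) (by positivity)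
      _ ≤ _ := mul_le_mul_of_nonneg_left hmain (by positivity)
  have e3 : l ^ 2 * (16 * (T1 + T2)) ≤ 16 * (B * 804 + 4) * (k ^ 3 * (f * w)) := by
    have hz : 0 ≤ f * (2 * k ^ 3 * w) := by positivity
    calc l ^ 2 * (16 * (T1 + T2)) = 16 * (l ^ 2 * T1 + l ^ 2 * T2) := by ring
      _ ≤ 16 * (f * (B * 804 * k ^ 3 * w) + (f * (2 * k ^ 3 * w) + f * (2 * k ^ 3 * w))) := by
        linarith
      _ = _ := by ring
  have e5 : 16 * (B * 804 + 4) * (k ^ 3 * (f * w)) ≤ C * (k ^ 3 * (f * w)) :=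
    mul_le_mul_of_nonneg_right hC (by positivity)
  rw [hW]
  calc l ^ 3 * N ≤ C * (k ^ 3 * (f * w)) := e2.trans (e3.trans e5)
    _ = C * k ^ 3 * (f * w) := by ring

end PkgD4

open PkgD4 in
theorem pkgD4 (h1 : S_W1) (h2 : S_tri) (h3 : S_W2) (h4 : S_thr) (h5 : S_Sd) (h6 : S_Sf)
    (h7 : S_T1) (h8 : S_T2) : S_W3 := by
  intro P hP ⟨l0, hMG⟩
  obtain ⟨Cf, hCf⟩ := h6 P hP
  obtain ⟨B, hB⟩ : ∃ B : ℕ, B = 2 ^ 31 := ⟨_, rfl⟩
  have h7' : ∀ k l M : ℕ,
      ∑ Q ∈ core P (range k) (l + 1), {p ∈ goodThr Q M | p.1 ≠ p.2.2}.ncard ≤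
        ∑ p ∈ range (k + 1), k.descFactorial p * (W P (k - p) l * (k * (B * (M + 1)))) := by
    intro k l M
    rw [hB]
    exact h7 P hP k l M
  clear hB
  refine ⟨4800 * Cf + l0 + 32 + 16 * (B * 804 + 4), ?_⟩
  intro k l hl hk
  obtain ⟨C, hC⟩ : ∃ C : ℕ, C = 4800 * Cf + l0 + 32 + 16 * (B * 804 + 4) := ⟨_, rfl⟩
  rw [← hC] at hl hk ⊢
  have hl1 : 1 ≤ l := by omega
  have hl0 : l0 ≤ l := by omega
  have hk1 : 4800 * Cf * l ≤ k := le_trans (Nat.mul_le_mul_right l (by omega)) hk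
  have hk2 : 32 * l ≤ k := le_trans (Nat.mul_le_mul_right l (by omega)) hk
  -- the parameter M
  set M : ℕ := 200 * (k / (l + 1) + 1) with hM
  have hM1 : 100 * (k + (l + 1)) ≤ M * (l + 1) := by
    have e1 : k < (k / (l + 1) + 1) * (l + 1) := by
      have h := Nat.div_add_mod k (l + 1)
      have h' : k % (l + 1) < l + 1 := Nat.mod_lt k (Nat.succ_pos l)
      calc k = (l + 1) * (k / (l + 1)) + k % (l + 1) := h.symm
        _ < (l + 1) * (k / (l + 1)) + (l + 1) := Nat.add_lt_add_left h' _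
        _ = (k / (l + 1) + 1) * (l + 1) := by ring
    have e2 : M * (l + 1) = 200 * ((k / (l + 1) + 1) * (l + 1)) := by
      rw [hM]
      ring
    omega
  have hM2 : (M + 1) * (l + 1) ≤ 402 * k := by
    have e1 : k / (l + 1) * (l + 1) ≤ k := Nat.div_mul_le_self k (l + 1)
    have e2 : (M + 1) * (l + 1) = 200 * (k / (l + 1) * (l + 1)) + 201 * (l + 1) := by
      rw [hM]
      ring
    omega
  set A : ℕ := ∑ Q ∈ core P (range k) (l + 1), bigDeg Q with hA
  set N : ℕ := W P k (l + 1) with hN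
  -- (i) bound for `A`
  have hi : 100 * A * 2 ≤ (l + 1) * N := by
    have e1 := h5 P hP k (l + 1)
    have e2 := hCf 0 (k + 1) (l + 1) (by omega) (by omega) (by omega)
    have e3 := W2r h1 h2 h3 hP k (l + 1) (by omega)
    have e4 : wt P (k + 1) (l + 1) ≤ 4 * wt P k (l + 1) := by
      have hkr : (32 : ℝ) * l ≤ k := by exact_mod_cast hk2
      have hlr : (1 : ℝ) ≤ l := by exact_mod_cast hl1
      push_cast at e3
      have w0 := wt_nonneg P k (l + 1)
      have w1 := wt_nonneg P (k + 1) (l + 1)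
      have kpos : (0 : ℝ) < k := by linarith
      have e5 : (k : ℝ) / 2 * wt P (k + 1) (l + 1) ≤ ((k : ℝ) - 8 * (l + 1)) * wt P (k + 1) (l + 1) :=
        mul_le_mul_of_nonneg_right (by linarith) w1
      have e6 : ((k : ℝ) + (l + 1)) * wt P k (l + 1) ≤ (2 * k) * wt P k (l + 1) :=
        mul_le_mul_of_nonneg_right (by linarith) w0
      have e7 : (k : ℝ) / 2 * wt P (k + 1) (l + 1) ≤ k / 2 * (4 * wt P k (l + 1)) := by
        linarith
      exact le_of_mul_le_mul_left e7 (by positivity)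
    have e5 : W P (k + 1) (l + 1) ≤ 4 * (k + 1) * N := by
      have : (W P (k + 1) (l + 1) : ℝ) ≤ ((4 * (k + 1) * N : ℕ) : ℝ) := by
        push_cast
        rw [hN, W_eq P (k + 1), W_eq P k, Nat.factorial_succ]
        push_cast
        have hf : (0 : ℝ) ≤ ((k : ℝ) + 1) * k.factorial := by positivity
        have e := mul_le_mul_of_nonneg_left e4 hf
        calc ((k : ℝ) + 1) * k.factorial * wt P (k + 1) (l + 1)
            ≤ ((k : ℝ) + 1) * k.factorial * (4 * wt P k (l + 1)) := e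
          _ = _ := by ring
      exact_mod_cast this
    -- (k+1)^2 A ≤ 3 Cf l'^2 W(k+1,l') ≤ 12 Cf l'^2 (k+1) N
    have e6 : (k + 1) * ((k + 1) * A) ≤ (k + 1) * (12 * Cf * (l + 1) ^ 2 * N) := by
      calc (k + 1) * ((k + 1) * A) ≤ (k + 1) * (3 * SS P 0 (k + 1) (l + 1)) :=
            Nat.mul_le_mul_left _ e1
        _ = 3 * ((k + 1) * SS P 0 (k + 1) (l + 1)) := by ring
        _ ≤ 3 * (Cf * (l + 1) ^ 2 * W P (k + 1) (l + 1)) := Nat.mul_le_mul_left _ e2
        _ ≤ 3 * (Cf * (l + 1) ^ 2 * (4 * (k + 1) * N)) :=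
            Nat.mul_le_mul_left _ (Nat.mul_le_mul_left _ e5)
        _ = (k + 1) * (12 * Cf * (l + 1) ^ 2 * N) := by ring
    have e7 : (k + 1) * A ≤ 12 * Cf * (l + 1) ^ 2 * N := Nat.le_of_mul_le_mul_left e6 (by omega)
    have e8 : 2400 * Cf * (l + 1) ≤ k + 1 := by
      calc 2400 * Cf * (l + 1) ≤ 2400 * Cf * (2 * l) := Nat.mul_le_mul_left _ (by omega)
        _ = 4800 * Cf * l := by ring
        _ ≤ k + 1 := by omega
    have e9 : (k + 1) * (100 * A * 2) ≤ (k + 1) * ((l + 1) * N) := by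
      calc (k + 1) * (100 * A * 2) = 200 * ((k + 1) * A) := by ring
        _ ≤ 200 * (12 * Cf * (l + 1) ^ 2 * N) := Nat.mul_le_mul_left _ e7
        _ = (2400 * Cf * (l + 1)) * ((l + 1) * N) := by ring
        _ ≤ (k + 1) * ((l + 1) * N) := Nat.mul_le_mul_right _ e8
    exact Nat.le_of_mul_le_mul_left e9 (by omega)
  -- bad cores
  have hbad : (l + 1) * ((core P (range k) (l + 1)).filter
      (fun Q => ¬ 100 * bigDeg Q ≤ l + 1)).card ≤ 100 * A := by
    calc (l + 1) * ((core P (range k) (l + 1)).filter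
          (fun Q => ¬ 100 * bigDeg Q ≤ l + 1)).card
        = ∑ Q ∈ (core P (range k) (l + 1)).filter (fun Q => ¬ 100 * bigDeg Q ≤ l + 1),
          (l + 1) := by rw [sum_const, smul_eq_mul, mul_comm]
      _ ≤ ∑ Q ∈ (core P (range k) (l + 1)).filter (fun Q => ¬ 100 * bigDeg Q ≤ l + 1),
          100 * bigDeg Q := by
          refine sum_le_sum fun Q hQ => ?_
          rw [mem_filter] at hQ
          omega
      _ ≤ ∑ Q ∈ core P (range k) (l + 1), 100 * bigDeg Q :=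
          sum_le_sum_of_subset (filter_subset _ _)
      _ = 100 * A := by rw [hA, mul_sum]
  set T1 : ℕ := ∑ p ∈ range (k + 1), k.descFactorial p * (W P (k - p) l *
    (k * (B * (M + 1)))) with hT1
  set T2 : ℕ := ∑ r ∈ range (k + 1), r * (k.descFactorial r * (W P (k - r) l * k)) with hT2
  have hgood : (l + 1) * ((core P (range k) (l + 1)).filter
      (fun Q => 100 * bigDeg Q ≤ l + 1)).card ≤ 8 * (T1 + T2) := by
    calc (l + 1) * ((core P (range k) (l + 1)).filter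
          (fun Q => 100 * bigDeg Q ≤ l + 1)).card
        = ∑ Q ∈ (core P (range k) (l + 1)).filter (fun Q => 100 * bigDeg Q ≤ l + 1),
          (l + 1) := by rw [sum_const, smul_eq_mul, mul_comm]
      _ ≤ ∑ Q ∈ (core P (range k) (l + 1)).filter (fun Q => 100 * bigDeg Q ≤ l + 1),
          8 * ({p ∈ goodThr Q M | p.1 ≠ p.2.2}.ncard +
            {p : ℕ × List ℕ | Thread Q p.1 p.2 p.1 ∧ deg Q p.1 = 3}.ncard) := by
          refine sum_le_sum fun Q hQ => ?_
          rw [mem_filter] at hQ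
          have h := hMG (range k) (l + 1) M Q hQ.1 (by omega) hQ.2 (by
            rw [card_range]
            exact hM1)
          have h' := good_le h4 hQ.1 M
          omega
      _ ≤ ∑ Q ∈ core P (range k) (l + 1),
          8 * ({p ∈ goodThr Q M | p.1 ≠ p.2.2}.ncard +
            {p : ℕ × List ℕ | Thread Q p.1 p.2 p.1 ∧ deg Q p.1 = 3}.ncard) :=
          sum_le_sum_of_subset (filter_subset _ _)
      _ = 8 * (∑ Q ∈ core P (range k) (l + 1), {p ∈ goodThr Q M | p.1 ≠ p.2.2}.ncard +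
          ∑ Q ∈ core P (range k) (l + 1),
            {p : ℕ × List ℕ | Thread Q p.1 p.2 p.1 ∧ deg Q p.1 = 3}.ncard) := by
          rw [← mul_sum, sum_add_distrib]
      _ ≤ 8 * (T1 + T2) := Nat.mul_le_mul_left _ (Nat.add_le_add (h7' k l M) (h8 P hP k l))
  have hsum : ((core P (range k) (l + 1)).filter (fun Q => 100 * bigDeg Q ≤ l + 1)).card +
      ((core P (range k) (l + 1)).filter (fun Q => ¬ 100 * bigDeg Q ≤ l + 1)).card = N := by
    rw [hN, W]
    exact card_filter_add_card_filter_not _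
  have hmain : (l + 1) * N ≤ 16 * (T1 + T2) := by
    have e1 : (l + 1) * N = (l + 1) * ((core P (range k) (l + 1)).filter
        (fun Q => 100 * bigDeg Q ≤ l + 1)).card + (l + 1) * ((core P (range k) (l + 1)).filter
        (fun Q => ¬ 100 * bigDeg Q ≤ l + 1)).card := by
      rw [← mul_add, hsum]
    omega
  -- (iii)
  have hW1 : ∀ j : ℕ, ((j : ℝ) + l) * wt P j l ≤ j * wt P (j + 1) l := fun j => W1r h1 hP j l hl1
  have hA1 := sumA' (u := fun j => wt P j l) (fun j => wt_nonneg P j l) hW1 k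
  have hB1 := sumB (u := fun j => wt P j l) (fun j => wt_nonneg P j l) hW1 k
  have hT1r : (T1 : ℝ) = (k.factorial : ℝ) *
      ((k * (B * (M + 1)) : ℕ) * ∑ j ∈ range (k + 1), wt P j l) := by
    rw [hT1, T1r]
  have hT2r : (T2 : ℝ) = (k.factorial : ℝ) *
      (k * ∑ j ∈ range (k + 1), ((k : ℝ) - j) * wt P j l) := by
    rw [hT2, T2r]
  have hSA0 : 0 ≤ ∑ j ∈ range (k + 1), wt P j l := sum_nonneg fun j _ => wt_nonneg P j l
  have hM2r : (((M + 1) * (l + 1) : ℕ) : ℝ) ≤ ((402 * k : ℕ) : ℝ) := by exact_mod_cast hM2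
  have hmainr : (((l + 1) * N : ℕ) : ℝ) ≤ ((16 * (T1 + T2) : ℕ) : ℝ) := by exact_mod_cast hmain
  have hCr : ((16 * (B * 804 + 4) : ℕ) : ℝ) ≤ (C : ℝ) := by
    rw [hC]
    exact_mod_cast Nat.le_add_left _ _
  have hfin : ((l ^ 3 * N : ℕ) : ℝ) ≤ ((C * k ^ 3 * W P k l : ℕ) : ℝ) := by
    push_cast at hM2r hmainr hCr hT1r ⊢
    exact final_calc (by exact_mod_cast hl1) (by exact_mod_cast hk2) (Nat.cast_nonneg M) hM2r
      (wt_nonneg P k l) (by exact_mod_cast k.factorial_pos) (Nat.cast_nonneg B) hSA0 hA1 hB1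
      hT1r hT2r hmainr (Nat.cast_nonneg N) hCr (W_eq P k l)
  exact_mod_cast hfin

end GiantSurf57
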