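import Pool.Agent.GiantSurf57.StmtsTop
import Pool.Agent.GiantSurf57.Basic

/-!
# Package D5: a core with 4 vertices and 5 edges
-/

open scoped Classical
open Finset

namespace GiantSurf57

namespace PkgD5

open SimpleGraph

theorem not_reachable {G : SimpleGraph ℕ} {u v : ℕ} (huv : u ≠ v) (h : ∀ w, ¬ G.Adj v w) :
    ¬ G.Reachable u v := by
  intro hr
  obtain ⟨p⟩ := hr.symm
  cases p with
  | nil => exact huv rfl
  | cons hadj _ => exact h _ hadj

theorem two_le_deg {G : SimpleGraph ℕ} (hf : G.edgeSet.Finite) {v a b : ℕ} (hab : a ≠ b)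
    (ha : G.Adj v a) (hb : G.Adj v b) : 2 ≤ deg G v := by
  rw [deg, ← Set.ncard_pair hab]
  apply Set.ncard_le_ncard _ (neighborSet_finite hf v)
  rintro w (rfl | rfl)
  · exact ha
  · exact hb

end PkgD5

open PkgD5 in
theorem pkgD5 : S_W41 := by
  intro P hP
  have f0 : (⊥ : SimpleGraph ℕ).edgeSet.Finite := by
    rw [SimpleGraph.edgeSet_bot]
    exact Set.finite_empty
  set G1 : SimpleGraph ℕ := ⊥ ⊔ SimpleGraph.edge 0 1 with hG1
  have f1 : G1.edgeSet.Finite := sup_edge_finite f0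
  have p1 : P G1 := hP.join ⊥ 0 1 f0 hP.bot (not_reachable (by norm_num) (fun w h => h))
  have a1 : ∀ a b, G1.Adj a b ↔ ((a = 0 ∧ b = 1) ∨ (a = 1 ∧ b = 0)) := by
    intro a b
    rw [hG1, SimpleGraph.sup_adj, SimpleGraph.edge_adj, SimpleGraph.bot_adj]
    grind
  set G2 : SimpleGraph ℕ := G1 ⊔ SimpleGraph.edge 0 2 with hG2
  have f2 : G2.edgeSet.Finite := sup_edge_finite f1
  have p2 : P G2 := hP.join G1 0 2 f1 p1 (not_reachable (by norm_num) (fun w h => by
    rw [a1] at h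
    omega))
  have a2 : ∀ a b, G2.Adj a b ↔ ((a = 0 ∧ b = 1) ∨ (a = 1 ∧ b = 0) ∨ (a = 0 ∧ b = 2) ∨
      (a = 2 ∧ b = 0)) := by
    intro a b
    rw [hG2, SimpleGraph.sup_adj, SimpleGraph.edge_adj, a1]
    grind
  set G3 : SimpleGraph ℕ := G2 ⊔ SimpleGraph.edge 1 2 with hG3
  have f3 : G3.edgeSet.Finite := sup_edge_finite f2
  have p3 : P G3 := by
    refine hP.closeTri G2 0 1 2 f2 p2 ?_ (by norm_num)
    ext w
    rw [SimpleGraph.mem_neighborSet, a2]
    simp only [Set.mem_insert_iff, Set.mem_singleton_iff]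
    grind
  have a3 : ∀ a b, G3.Adj a b ↔ ((a = 0 ∧ b = 1) ∨ (a = 1 ∧ b = 0) ∨ (a = 0 ∧ b = 2) ∨
      (a = 2 ∧ b = 0) ∨ (a = 1 ∧ b = 2) ∨ (a = 2 ∧ b = 1)) := by
    intro a b
    rw [hG3, SimpleGraph.sup_adj, SimpleGraph.edge_adj, a2]
    grind
  have d31 : deg G3 1 = 2 := by
    have : G3.neighborSet 1 = {0, 2} := by
      ext w
      rw [SimpleGraph.mem_neighborSet, a3]
      simp only [Set.mem_insert_iff, Set.mem_singleton_iff]
      grind
    rw [deg, this, Set.ncard_pair (by norm_num)]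
  have d32 : deg G3 2 = 2 := by
    have : G3.neighborSet 2 = {0, 1} := by
      ext w
      rw [SimpleGraph.mem_neighborSet, a3]
      simp only [Set.mem_insert_iff, Set.mem_singleton_iff]
      grind
    rw [deg, this, Set.ncard_pair (by norm_num)]
  set G4 : SimpleGraph ℕ := G3 ⊔ (SimpleGraph.edge 1 3 ⊔ SimpleGraph.edge 3 2) with hG4
  have p4 : P G4 := by
    refine hP.ear G3 1 2 3 f3 p3 (by norm_num) ?_ ?_
    · apply SimpleGraph.Adj.reachable
      exact ⟨(a3 1 2).mpr (by omega), d31, d32⟩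
    · rintro ⟨w, hw⟩
      have hw' : G3.Adj 3 w := hw
      rw [a3] at hw'
      omega
  have e4 : G4 = (G3 ⊔ SimpleGraph.edge 1 3) ⊔ SimpleGraph.edge 3 2 := by
    rw [hG4, ← sup_assoc]
  have a3' : ∀ a b, (G3 ⊔ SimpleGraph.edge 1 3).Adj a b ↔ ((a = 0 ∧ b = 1) ∨ (a = 1 ∧ b = 0) ∨
      (a = 0 ∧ b = 2) ∨ (a = 2 ∧ b = 0) ∨ (a = 1 ∧ b = 2) ∨ (a = 2 ∧ b = 1) ∨
      (a = 1 ∧ b = 3) ∨ (a = 3 ∧ b = 1)) := by
    intro a b
    rw [SimpleGraph.sup_adj, SimpleGraph.edge_adj, a3]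
    grind
  have a4 : ∀ a b, G4.Adj a b ↔ ((a = 0 ∧ b = 1) ∨ (a = 1 ∧ b = 0) ∨
      (a = 0 ∧ b = 2) ∨ (a = 2 ∧ b = 0) ∨ (a = 1 ∧ b = 2) ∨ (a = 2 ∧ b = 1) ∨
      (a = 1 ∧ b = 3) ∨ (a = 3 ∧ b = 1) ∨ (a = 3 ∧ b = 2) ∨ (a = 2 ∧ b = 3)) := by
    intro a b
    rw [e4, SimpleGraph.sup_adj, SimpleGraph.edge_adj, a3']
    grind
  have f3' : (G3 ⊔ SimpleGraph.edge 1 3).edgeSet.Finite := sup_edge_finite f3
  have f4 : G4.edgeSet.Finite := by
    rw [e4]
    exact sup_edge_finite f3'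
  have hne : ne G4 = 5 := by
    have n1 : ne G1 = 1 := by
      rw [hG1, ne_sup_edge f0 (by norm_num) (fun h => h), ne_bot]
    have n2 : ne G2 = 2 := by
      rw [hG2, ne_sup_edge f1 (by norm_num) (fun h => by rw [a1] at h; omega), n1]
    have n3 : ne G3 = 3 := by
      rw [hG3, ne_sup_edge f2 (by norm_num) (fun h => by rw [a2] at h; omega), n2]
    have n3' : ne (G3 ⊔ SimpleGraph.edge 1 3) = 4 := by
      rw [ne_sup_edge f3 (by norm_num) (fun h => by rw [a3] at h; omega), n3]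
    rw [e4, ne_sup_edge f3' (by norm_num) (fun h => by rw [a3'] at h; omega), n3']
  have hmem : G4 ∈ core P (range 4) 1 := by
    rw [mem_core]
    refine ⟨?_, p4, ?_, by rw [hne, Finset.card_range]⟩
    · rw [mem_graphsOn_iff]
      intro a b hab
      rw [a4] at hab
      rw [Finset.mem_range, Finset.mem_range]
      omega
    · intro v hv
      rw [Finset.mem_range] at hv
      have : v = 0 ∨ v = 1 ∨ v = 2 ∨ v = 3 := by omega
      rcases this with rfl | rfl | rfl | rfl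
      · exact two_le_deg f4 (a := 1) (b := 2) (by norm_num) ((a4 _ _).mpr (by omega))
          ((a4 _ _).mpr (by omega))
      · exact two_le_deg f4 (a := 0) (b := 2) (by norm_num) ((a4 _ _).mpr (by omega))
          ((a4 _ _).mpr (by omega))
      · exact two_le_deg f4 (a := 0) (b := 1) (by norm_num) ((a4 _ _).mpr (by omega))
          ((a4 _ _).mpr (by omega))
      · exact two_le_deg f4 (a := 1) (b := 2) (by norm_num) ((a4 _ _).mpr (by omega))
          ((a4 _ _).mpr (by omega))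
  exact Finset.card_pos.mpr ⟨G4, hmem⟩

end GiantSurf57
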