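import Pool.Agent.GiantSurf57.PkgC7

/-!
# Package D6: collecting the properties of the numbers of cores
-/

open scoped Classical
open Finset

set_option autoImplicit false

namespace GiantSurf57

namespace PkgD6

open PkgB5 PkgC7

/-- One step for excess zero. -/
lemma zero_step (h3 : S_W2) {P : SimpleGraph ℕ → Prop} (hP : SurfClass P) (k : ℕ) :
    ((k : ℝ) + 1) * wt P (k + 1) 0 ≤ k * wt P k 0 +
      ((∑ Q ∈ core P (range (k + 1)) 0, isoTri Q : ℕ) : ℝ) / (((k + 1).factorial : ℕ) : ℝ) := by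
  have h := h3 P hP k 0
  simp only [Nat.add_zero, Nat.mul_zero, Nat.zero_mul] at h
  have h' : ((k : ℝ) + 1) * W P (k + 1) 0 ≤ ((k : ℝ) + 1) * k * W P k 0 +
      ((∑ Q ∈ core P (range (k + 1)) 0, isoTri Q : ℕ) : ℝ) := by exact_mod_cast h
  have hf := fact_pos k
  unfold wt
  rw [fact_succ]
  have e1 : (k : ℝ) * ((W P k 0 : ℝ) / (k.factorial : ℝ)) =
      ((k : ℝ) + 1) * k * W P k 0 / (((k : ℝ) + 1) * (k.factorial : ℝ)) := by
    field_simp
  have e2 : ((k : ℝ) + 1) * ((W P (k + 1) 0 : ℝ) / (((k : ℝ) + 1) * (k.factorial : ℝ))) =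
      ((k : ℝ) + 1) * W P (k + 1) 0 / (((k : ℝ) + 1) * (k.factorial : ℝ)) := by
    field_simp
  rw [e1, e2, ← add_div]
  exact div_le_div_of_nonneg_right h' (by positivity)

lemma tri_zero (h2 : S_tri) {P : SimpleGraph ℕ → Prop} (hP : SurfClass P) (m : ℕ) :
    ((∑ Q ∈ core P (range (m + 3)) 0, isoTri Q : ℕ) : ℝ) / (((m + 3).factorial : ℕ) : ℝ) ≤
      wt P m 0 / 2 := by
  have h := h2 P hP m 0
  have h6 := three_choose m
  have h7 : 2 * ∑ Q ∈ core P (range (m + 3)) 0, isoTri Q ≤
      (m + 3) * (m + 2) * (m + 1) * W P m 0 := by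
    calc _ ≤ 2 * (3 * (m + 3).choose 3 * W P m 0) := Nat.mul_le_mul_left _ h
      _ = (6 * (m + 3).choose 3) * W P m 0 := by ring
      _ = _ := by rw [h6]
  have h8 : 2 * ((∑ Q ∈ core P (range (m + 3)) 0, isoTri Q : ℕ) : ℝ) ≤
      ((m : ℝ) + 3) * (m + 2) * (m + 1) * W P m 0 := by exact_mod_cast h7
  have hf := fact_pos m
  have e : (((m + 3).factorial : ℕ) : ℝ) =
      ((m : ℝ) + 3) * (m + 2) * (m + 1) * (m.factorial : ℝ) := by
    have e1 : (m + 3).factorial = (m + 3) * ((m + 2) * ((m + 1) * m.factorial)) := by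
      rw [Nat.factorial_succ, Nat.factorial_succ, Nat.factorial_succ]
    rw [e1]
    push_cast
    ring
  unfold wt
  rw [e, div_le_iff₀ (by positivity)]
  have e2 : (W P m 0 : ℝ) / (m.factorial : ℝ) / 2 *
      (((m : ℝ) + 3) * (m + 2) * (m + 1) * (m.factorial : ℝ)) =
      ((m : ℝ) + 3) * (m + 2) * (m + 1) * W P m 0 / 2 := by
    field_simp
  rw [e2]
  linarith

lemma wt_zero_zero (P : SimpleGraph ℕ → Prop) : wt P 0 0 ≤ 1 := by
  have h : W P 0 0 ≤ 1 := by
    unfold W
    rw [Finset.card_le_one]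
    intro a ha b hb
    have h0 : ∀ G ∈ core P (range 0) 0, G = ⊥ := by
      intro G hG
      have h1 := core_graphsOn hG
      ext x y
      constructor
      · intro hxy
        have := adj_mem_left h1 hxy
        simp at this
      · intro hxy
        exact absurd hxy (by simp)
    rw [h0 a ha, h0 b hb]
  unfold wt
  have h' : (W P 0 0 : ℝ) ≤ 1 := by exact_mod_cast h
  simpa using h'

lemma wt_zero_le (h2 : S_tri) (h3 : S_W2) {P : SimpleGraph ℕ → Prop} (hP : SurfClass P) (k : ℕ) :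
    wt P k 0 ≤ 1 := by
  induction k using Nat.strong_induction_on with
  | _ k ih =>
    rcases k with _ | k
    · exact wt_zero_zero P
    · have h4 := zero_step h3 hP k
      have h5 := ih k (by omega)
      have h6 : ((∑ Q ∈ core P (range (k + 1)) 0, isoTri Q : ℕ) : ℝ) /
          (((k + 1).factorial : ℕ) : ℝ) ≤ 1 / 2 := by
        by_cases hk : k < 2
        · rw [sum_isoTri_eq_zero (by omega)]
          norm_num
        · obtain ⟨m, rfl⟩ : ∃ m, k = m + 2 := ⟨k - 2, by omega⟩
          have h7 := tri_zero h2 hP m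
          have h8 := ih m (by omega)
          have e : m + 2 + 1 = m + 3 := rfl
          rw [e]
          linarith
      have hk0 : (0 : ℝ) ≤ k := by positivity
      have h9 : (k : ℝ) * wt P k 0 ≤ k := by nlinarith
      have h10 : ((k : ℝ) + 1) * wt P (k + 1) 0 ≤ ((k : ℝ) + 1) * 1 := by linarith
      exact le_of_mul_le_mul_left h10 (by positivity)

end PkgD6

open PkgB5 PkgC7 PkgD6 in
theorem pkgD6 (h1 : S_W1) (h2 : S_tri) (h3 : S_W2) (h4 : S_W3) (h5 : S_W4) (h6 : S_W41) :
    S_WSeq := by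
  intro P hP hM
  refine
    { nonneg := wt_nonneg P
      zero := wt_zero_le h2 h3 hP
      pos := ?_
      sub := fun k l hl => wt_sub h1 hP k l hl
      sup := fun k l hl => wt_sup h1 h2 h3 hP k l hl
      up := ?_
      lo := ?_ }
  · have h := h6 P hP
    unfold wt
    have : (0 : ℝ) < W P 4 1 := by exact_mod_cast h
    exact div_pos this (fact_pos 4)
  · obtain ⟨C, hC⟩ := h4 P hP hM
    refine ⟨C + 1, by omega, ?_⟩
    intro k l hl hk
    have h := hC k l (by omega) (by nlinarith)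
    have h' : (l : ℝ) ^ 3 * W P k (l + 1) ≤ C * (k : ℝ) ^ 3 * W P k l := by exact_mod_cast h
    have hf := fact_pos k
    unfold wt
    rw [mul_div_assoc', mul_div_assoc']
    refine div_le_div_of_nonneg_right ?_ hf.le
    push_cast
    have h7 : (0 : ℝ) ≤ (k : ℝ) ^ 3 * W P k l := by positivity
    nlinarith
  · obtain ⟨C, hC⟩ := h5 P hP
    refine ⟨C + 1, by omega, ?_⟩
    intro k l hl hk
    have h := hC k l hl (by nlinarith)
    have h' : (k : ℝ) ^ 3 * W P k l ≤ C * (l : ℝ) ^ 3 * W P k (l + 1) := by exact_mod_cast h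
    have hf := fact_pos k
    unfold wt
    rw [mul_div_assoc', mul_div_assoc']
    refine div_le_div_of_nonneg_right ?_ hf.le
    push_cast
    have h7 : (0 : ℝ) ≤ (l : ℝ) ^ 3 * W P k (l + 1) := by positivity
    nlinarith

end GiantSurf57
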