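import Pool.Agent.GiantSurf57.Stmts
import Pool.Agent.GiantSurf57.Basic

/-!
# Package E8: adding a tree component
-/

open scoped Classical
open Finset

namespace GiantSurf57

namespace PkgE8

/-- Reachability is transported by maps sending edges to reachable pairs. -/
theorem reach_map {T T0 : SimpleGraph ℕ} (f : ℕ → ℕ)
    (hf : ∀ a b, T.Adj a b → T0.Reachable (f a) (f b)) {a b : ℕ} (h : T.Reachable a b) :
    T0.Reachable (f a) (f b) := by
  obtain ⟨w⟩ := h
  induction w with
  | nil => exact SimpleGraph.Reachable.refl _
  | cons h _ ih => exact (hf _ _ h).trans ih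

theorem mem_trees {A : Finset ℕ} {T : SimpleGraph ℕ} : T ∈ trees A ↔
    T ∈ graphsOn A ∧ (∀ x ∈ A, ∀ y ∈ A, T.Reachable x y) ∧ ne T + 1 = A.card := by
  simp [trees]

theorem eq_bot_of_ne {A : Finset ℕ} {T : SimpleGraph ℕ} (hT : T ∈ graphsOn A) (h : ne T = 0) :
    T = ⊥ := by
  have := (Set.ncard_eq_zero (edgeSet_finite hT)).mp h
  exact SimpleGraph.edgeSet_eq_empty.mp this

/-- A tree with at least two vertices has a leaf. -/
theorem exists_leaf {A : Finset ℕ} {T : SimpleGraph ℕ} (hT : T ∈ trees A) (h2 : 2 ≤ A.card) :
    ∃ x ∈ A, deg T x = 1 := by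
  obtain ⟨h1, hr, hn⟩ := mem_trees.mp hT
  by_contra hcon
  push Not at hcon
  have hs := handshake h1
  have hge : ∀ v ∈ A, 2 ≤ deg T v := by
    intro v hv
    have h3 : deg T v ≠ 1 := hcon v hv
    have h4 : deg T v ≠ 0 := by
      intro h0
      obtain ⟨u, hu, huv⟩ : ∃ u ∈ A, u ≠ v := by
        by_contra hcon2
        push Not at hcon2
        have : A ⊆ {v} := fun u hu => Finset.mem_singleton.mpr (hcon2 u hu)
        have := Finset.card_le_card this
        simp at this
        omega
      obtain ⟨w⟩ := hr v hv u hu
      cases w with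
      | nil => exact huv rfl
      | cons h _ =>
        have hfin := neighborSet_finite (edgeSet_finite h1) v
        have h5 : T.neighborSet v = ∅ := (Set.ncard_eq_zero hfin).mp h0
        have h6 : _ ∈ T.neighborSet v := h
        rw [h5] at h6
        exact h6
    omega
  have h5 : A.card * 2 ≤ ∑ v ∈ A, deg T v := by
    rw [← smul_eq_mul, ← Finset.sum_const]
    exact Finset.sum_le_sum hge
  omega

theorem main (P : SimpleGraph ℕ → Prop) (hP : SurfClass P) (n : ℕ) :
    ∀ (S A : Finset ℕ) (G T : SimpleGraph ℕ), A.card = n → G ∈ graphsOn S → Disjoint S A →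
      T ∈ trees A → P G → P (G ⊔ T) := by
  induction n with
  | zero =>
    intro S A G T hA hG hd hT hPG
    obtain ⟨_, _, hn⟩ := mem_trees.mp hT
    omega
  | succ n ih =>
    intro S A G T hA hG hd hT hPG
    obtain ⟨h1, hr, hn⟩ := mem_trees.mp hT
    rcases Nat.eq_zero_or_pos n with h0 | hpos
    · have : T = ⊥ := eq_bot_of_ne h1 (by omega)
      rw [this, sup_bot_eq]
      exact hPG
    · obtain ⟨x, hx, hdx⟩ := exists_leaf hT (by omega)
      obtain ⟨y, hy⟩ : ∃ y, T.neighborSet x = {y} := Set.ncard_eq_one.mp hdx
      have hxy : T.Adj x y := by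
        have : y ∈ T.neighborSet x := by rw [hy]; rfl
        exact this
      have honly : ∀ z, T.Adj x z → z = y := by
        intro z hz
        have : z ∈ T.neighborSet x := hz
        rw [hy] at this
        exact this
      have hyA : y ∈ A := adj_mem_right h1 hxy
      have hne : x ≠ y := hxy.ne
      set T0 := T \ SimpleGraph.edge x y with hT0
      have hadj0 : ∀ a b, T0.Adj a b ↔ T.Adj a b ∧ a ≠ x ∧ b ≠ x := by
        intro a b
        rw [hT0, SimpleGraph.sdiff_adj, SimpleGraph.edge_adj]
        constructor
        · rintro ⟨hab, hn'⟩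
          refine ⟨hab, ?_, ?_⟩
          · rintro rfl
            have := honly b hab
            subst this
            exact hn' ⟨Or.inl ⟨rfl, rfl⟩, hne⟩
          · rintro rfl
            have := honly a hab.symm
            subst this
            exact hn' ⟨Or.inr ⟨rfl, rfl⟩, hne.symm⟩
        · rintro ⟨hab, ha, hb⟩
          refine ⟨hab, ?_⟩
          rintro ⟨⟨h, _⟩ | ⟨_, h⟩, _⟩
          · exact ha h
          · exact hb h
      have hT0g : T0 ∈ graphsOn (A.erase x) := by
        rw [mem_graphsOn_iff]
        intro a b hab
        have h := (hadj0 a b).mp hab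
        exact ⟨Finset.mem_erase.mpr ⟨h.2.1, adj_mem_left h1 h.1⟩,
          Finset.mem_erase.mpr ⟨h.2.2, adj_mem_right h1 h.1⟩⟩
      have hT0t : T0 ∈ trees (A.erase x) := by
        rw [mem_trees]
        refine ⟨hT0g, ?_, ?_⟩
        · intro a ha b hb
          have hax := (Finset.mem_erase.mp ha).1
          have hbx := (Finset.mem_erase.mp hb).1
          have hab := hr a (Finset.mem_erase.mp ha).2 b (Finset.mem_erase.mp hb).2
          have := reach_map (T0 := T0) (fun z => if z = x then y else z) (by
            intro c d hcd
            by_cases hc : c = x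
            · subst hc
              have hd : d = y := honly d hcd
              subst hd
              simp [hne.symm]
            · by_cases hd : d = x
              · subst hd
                have hc' : c = y := honly c hcd.symm
                subst hc'
                simp [hc]
              · simp only [hc, hd, if_false]
                exact ((hadj0 c d).mpr ⟨hcd, hc, hd⟩).reachable) hab
          simpa [hax, hbx] using this
        · have h3 := ne_sdiff_edge (edgeSet_finite h1) hxy
          rw [Finset.card_erase_of_mem hx]
          change ne (T \ SimpleGraph.edge x y) + 1 = _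
          omega
      have hPT0 : P (G ⊔ T0) := by
        refine ih S (A.erase x) G T0 (by rw [Finset.card_erase_of_mem hx]; omega) hG ?_ hT0t hPG
        exact Finset.disjoint_of_subset_right (Finset.erase_subset _ _) hd
      have hfin : (G ⊔ T0).edgeSet.Finite := by
        rw [SimpleGraph.edgeSet_sup]
        exact (edgeSet_finite hG).union (edgeSet_finite hT0g)
      have hxS : x ∉ S := fun h => (Finset.disjoint_left.mp hd h) hx
      have hnr : ¬ (G ⊔ T0).Reachable x y := by
        rintro ⟨w⟩
        cases w with
        | nil => exact hne rfl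
        | cons h _ =>
          rcases h with h | h
          · exact hxS (adj_mem_left hG h)
          · exact ((hadj0 _ _).mp h).2.1 rfl
      have := hP.join _ x y hfin hPT0 hnr
      have e : (G ⊔ T0) ⊔ SimpleGraph.edge x y = G ⊔ T := by
        rw [sup_assoc, hT0, sdiff_sup_self]
        congr 1
        rw [sup_eq_left, SimpleGraph.edge_le_iff]
        exact Or.inr hxy
      rw [e] at this
      exact this

end PkgE8

theorem pkgE8 : S_treeJoin := by
  intro P hP S A G T hG hd hT hPG
  exact PkgE8.main P hP A.card S A G T rfl hG hd hT hPG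

end GiantSurf57
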