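import Pool.Agent.GiantSurf57.Stmts
import Pool.Agent.GiantSurf57.Basic
import Pool.Agent.GiantSurf57.PkgE8

/-!
# Package E1: adding a leaf
-/

open scoped Classical
open Finset

namespace GiantSurf57

namespace PkgE1

variable {S : Finset ℕ} {G : SimpleGraph ℕ} {x y : ℕ}

/-- The retraction sending the new leaf to its neighbour. -/
def ret (x y : ℕ) (z : ℕ) : ℕ := if z = x then y else z

theorem ret_self (x y : ℕ) : ret x y x = y := by simp [ret]

theorem ret_of_ne {z : ℕ} (h : z ≠ x) : ret x y z = z := by simp [ret, h]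

theorem not_adj_left (hG : G ∈ graphsOn S) (hx : x ∉ S) (z : ℕ) : ¬ G.Adj x z :=
  fun h => hx (adj_mem_left hG h)

theorem not_adj_right (hG : G ∈ graphsOn S) (hx : x ∉ S) (z : ℕ) : ¬ G.Adj z x :=
  fun h => hx (adj_mem_right hG h)

theorem reach_iff (hG : G ∈ graphsOn S) (hx : x ∉ S) (hy : y ∈ S) (a b : ℕ) :
    (G ⊔ SimpleGraph.edge x y).Reachable a b ↔ G.Reachable (ret x y a) (ret x y b) := by
  have hne : x ≠ y := fun h => hx (h ▸ hy)
  constructor
  · intro h
    refine PkgE8.reach_map (T := G ⊔ SimpleGraph.edge x y) (T0 := G) (ret x y) ?_ h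
    intro c d hcd
    rw [SimpleGraph.sup_adj, SimpleGraph.edge_adj] at hcd
    rcases hcd with h | ⟨⟨rfl, rfl⟩ | ⟨rfl, rfl⟩, _⟩
    · have hc : c ≠ x := fun h' => not_adj_left hG hx d (h' ▸ h)
      have hd : d ≠ x := fun h' => not_adj_right hG hx c (h' ▸ h)
      rw [ret_of_ne hc, ret_of_ne hd]
      exact h.reachable
    · rw [ret_self, ret_of_ne hne.symm]
    · rw [ret_self, ret_of_ne hne.symm]
  · intro h
    have h1 : ∀ c, (G ⊔ SimpleGraph.edge x y).Reachable c (ret x y c) := by
      intro c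
      by_cases hc : c = x
      · subst hc
        rw [ret_self]
        refine SimpleGraph.Adj.reachable ?_
        rw [SimpleGraph.sup_adj, SimpleGraph.edge_adj]
        exact Or.inr ⟨Or.inl ⟨rfl, rfl⟩, hne⟩
      · rw [ret_of_ne hc]
    exact ((h1 a).trans (h.mono le_sup_left)).trans (h1 b).symm

/-- The new component. -/
noncomputable def ext (x y : ℕ) (A : Finset ℕ) : Finset ℕ := if y ∈ A then insert x A else A

theorem compOf_eq (hG : G ∈ graphsOn S) (hx : x ∉ S) (hy : y ∈ S) {v : ℕ} (hv : v ∈ S) :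
    compOf (G ⊔ SimpleGraph.edge x y) (insert x S) v = ext x y (compOf G S v) := by
  have hvx : v ≠ x := fun h => hx (h ▸ hv)
  ext z
  unfold ext
  by_cases hyv : y ∈ compOf G S v
  · rw [if_pos hyv]
    have hyv' := (Finset.mem_filter.mp hyv).2
    simp only [compOf, Finset.mem_filter, Finset.mem_insert]
    rw [reach_iff hG hx hy, ret_of_ne hvx]
    constructor
    · rintro ⟨h1 | h1, h2⟩
      · exact Or.inl h1
      · have hz : z ≠ x := fun h => hx (h ▸ h1)
        rw [ret_of_ne hz] at h2
        exact Or.inr ⟨h1, h2⟩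
    · rintro (rfl | ⟨h1, h2⟩)
      · rw [ret_self]
        exact ⟨Or.inl rfl, hyv'⟩
      · have hz : z ≠ x := fun h => hx (h ▸ h1)
        rw [ret_of_ne hz]
        exact ⟨Or.inr h1, h2⟩
  · rw [if_neg hyv]
    simp only [compOf, Finset.mem_filter, Finset.mem_insert]
    rw [reach_iff hG hx hy, ret_of_ne hvx]
    constructor
    · rintro ⟨h1 | h1, h2⟩
      · subst h1
        rw [ret_self] at h2
        exact absurd (Finset.mem_filter.mpr ⟨hy, h2⟩) hyv
      · have hz : z ≠ x := fun h => hx (h ▸ h1)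
        rw [ret_of_ne hz] at h2
        exact ⟨h1, h2⟩
    · rintro ⟨h1, h2⟩
      have hz : z ≠ x := fun h => hx (h ▸ h1)
      rw [ret_of_ne hz]
      exact ⟨Or.inr h1, h2⟩

theorem compOf_new (hG : G ∈ graphsOn S) (hx : x ∉ S) (hy : y ∈ S) :
    compOf (G ⊔ SimpleGraph.edge x y) (insert x S) x =
      compOf (G ⊔ SimpleGraph.edge x y) (insert x S) y := by
  have hne : y ≠ x := fun h => hx (h ▸ hy)
  ext z
  simp only [compOf, Finset.mem_filter]
  rw [reach_iff hG hx hy, reach_iff hG hx hy, ret_self, ret_of_ne hne]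

theorem comps_eq (hG : G ∈ graphsOn S) (hx : x ∉ S) (hy : y ∈ S) :
    comps (G ⊔ SimpleGraph.edge x y) (insert x S) = (comps G S).image (ext x y) := by
  unfold comps
  rw [Finset.image_insert, Finset.image_image, compOf_new hG hx hy, Finset.insert_eq_of_mem
    (Finset.mem_image_of_mem _ hy)]
  exact Finset.image_congr (fun v hv => compOf_eq hG hx hy hv)

theorem neIn_ext (hG : G ∈ graphsOn S) (hx : x ∉ S) (hy : y ∈ S) {A : Finset ℕ} (hA : A ⊆ S) :
    neIn (G ⊔ SimpleGraph.edge x y) (ext x y A) + 1 = (ext x y A).card ↔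
      neIn G A + 1 = A.card := by
  have hne : x ≠ y := fun h => hx (h ▸ hy)
  have hxA : x ∉ A := fun h => hx (hA h)
  unfold ext
  by_cases hyA : y ∈ A
  · rw [if_pos hyA, Finset.card_insert_of_notMem hxA]
    have e : {e ∈ (G ⊔ SimpleGraph.edge x y).edgeSet | ∀ z ∈ e, z ∈ insert x A} =
        insert s(x, y) {e ∈ G.edgeSet | ∀ z ∈ e, z ∈ A} := by
      ext e
      induction e with
      | h a b =>
        simp only [Set.mem_ofPred_eq, SimpleGraph.mem_edgeSet, SimpleGraph.sup_adj,
          SimpleGraph.edge_adj, Sym2.mem_iff, Set.mem_insert_iff, Sym2.eq_iff, Finset.mem_insert]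
        constructor
        · rintro ⟨h | ⟨h, _⟩, h2⟩
          · right
            refine ⟨h, ?_⟩
            rintro z (rfl | rfl)
            · rcases h2 z (Or.inl rfl) with h3 | h3
              · exact absurd h (h3 ▸ not_adj_left hG hx b)
              · exact h3
            · rcases h2 z (Or.inr rfl) with h3 | h3
              · exact absurd h (h3 ▸ not_adj_right hG hx a)
              · exact h3
          · left
            rcases h with ⟨rfl, rfl⟩ | ⟨rfl, rfl⟩
            · exact Or.inl ⟨rfl, rfl⟩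
            · exact Or.inr ⟨rfl, rfl⟩
        · rintro (h | ⟨h, h2⟩)
          · rcases h with ⟨rfl, rfl⟩ | ⟨rfl, rfl⟩
            · refine ⟨Or.inr ⟨Or.inl ⟨rfl, rfl⟩, hne⟩, ?_⟩
              rintro z (rfl | rfl)
              · exact Or.inl rfl
              · exact Or.inr hyA
            · refine ⟨Or.inr ⟨Or.inr ⟨rfl, rfl⟩, hne.symm⟩, ?_⟩
              rintro z (rfl | rfl)
              · exact Or.inr hyA
              · exact Or.inl rfl
          · exact ⟨Or.inl h, fun z hz => Or.inr (h2 z hz)⟩
    have e2 : neIn (G ⊔ SimpleGraph.edge x y) (insert x A) = neIn G A + 1 := by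
      unfold neIn
      rw [e, Set.ncard_insert_of_notMem (fun h => not_adj_left hG hx y h.1)
        ((edgeSet_finite hG).subset (fun e he => he.1))]
    rw [e2]
    omega
  · rw [if_neg hyA]
    have e : {e ∈ (G ⊔ SimpleGraph.edge x y).edgeSet | ∀ z ∈ e, z ∈ A} =
        {e ∈ G.edgeSet | ∀ z ∈ e, z ∈ A} := by
      ext e
      induction e with
      | h a b =>
        simp only [Set.mem_ofPred_eq, SimpleGraph.mem_edgeSet, SimpleGraph.sup_adj,
          SimpleGraph.edge_adj, Sym2.mem_iff]
        constructor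
        · rintro ⟨h | ⟨h, _⟩, h2⟩
          · exact ⟨h, h2⟩
          · exfalso
            rcases h with ⟨rfl, rfl⟩ | ⟨rfl, rfl⟩
            · exact hyA (h2 _ (Or.inr rfl))
            · exact hyA (h2 _ (Or.inl rfl))
        · rintro ⟨h, h2⟩
          exact ⟨Or.inl h, h2⟩
    unfold neIn
    rw [e]

end PkgE1

open PkgE1 in
theorem pkgE1 : S_leaf := by
  intro S G x y hG hx hy
  have hsub : ∀ A ∈ comps G S, A ⊆ S := by
    intro A hA
    unfold comps at hA
    obtain ⟨z, _, rfl⟩ := Finset.mem_image.mp hA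
    exact Finset.filter_subset _ _
  unfold tc
  rw [comps_eq hG hx hy, Finset.filter_image]
  have e : (comps G S).filter (fun A => neIn (G ⊔ SimpleGraph.edge x y) (PkgE1.ext x y A) + 1 =
      (PkgE1.ext x y A).card) = (comps G S).filter (fun A => neIn G A + 1 = A.card) :=
    Finset.filter_congr (fun A hA => neIn_ext hG hx hy (hsub A hA))
  rw [e]
  apply Finset.card_image_of_injOn
  intro A hA B hB hAB
  have hA' := hsub A (Finset.mem_filter.mp hA).1
  have hB' := hsub B (Finset.mem_filter.mp hB).1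
  have key : ∀ C : Finset ℕ, C ⊆ S → (PkgE1.ext x y C).erase x = C := by
    intro C hC
    have hxC : x ∉ C := fun h => hx (hC h)
    unfold PkgE1.ext
    split_ifs
    · exact Finset.erase_insert hxC
    · exact Finset.erase_eq_of_notMem hxC
  rw [← key A hA', ← key B hB']
  exact congrArg (fun C => Finset.erase C x) hAB

end GiantSurf57
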