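import Pool.Agent.GiantSurf57.StmtsTop

/-! Package E10: the number of graphs in terms of the sequences. -/

open scoped Classical
open Finset

namespace GiantSurf57

namespace PkgE10

theorem pp_mul (s : ℕ) (hs : 1 ≤ s) :
    pp s * (s.factorial : ℝ) * Real.exp s = ((s ^ (s - 2) : ℕ) : ℝ) := by
  have hs0 : (0 : ℝ) < s := by exact_mod_cast hs
  have hf : (0 : ℝ) < (s.factorial : ℝ) := by exact_mod_cast s.factorial_pos
  unfold pp
  have he : Real.exp (-(s : ℝ)) * Real.exp (s : ℝ) = 1 := by
    rw [← Real.exp_add]; simp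
  have h1 : (s : ℝ) ^ s * Real.exp (-(s : ℝ)) / ((s : ℝ) ^ 2 * (s.factorial : ℝ)) *
      (s.factorial : ℝ) * Real.exp s =
      (s : ℝ) ^ s / (s : ℝ) ^ 2 * (Real.exp (-(s : ℝ)) * Real.exp (s : ℝ)) := by
    field_simp
  rw [h1, he, mul_one]
  push_cast
  rcases Nat.lt_or_ge s 2 with h | h
  · have : s = 1 := by omega
    subst this; simp
  · rw [div_eq_iff (by positivity), ← pow_add]
    congr 1
    omega

theorem aa_zero (c : ℕ → ℝ) (n : ℕ) : aa c 0 n = c n := by
  unfold aa
  rw [Finset.sum_eq_single 0]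
  · simp [ff]
  · intro v _ hv
    simp [ff, hv]
  · intro h
    exact absurd (Finset.mem_range.mpr (Nat.succ_pos n)) h

theorem aa_succ (c : ℕ → ℝ) (t n : ℕ) :
    ((t : ℝ) + 1) * aa c (t + 1) n = ∑ s ∈ range (n + 1), pp s * aa c t (n - s) := by
  have ht : (0 : ℝ) < (t : ℝ) + 1 := by positivity
  have h1 : ((t : ℝ) + 1) * aa c (t + 1) n =
      ∑ v ∈ range (n + 1), ∑ s ∈ range (v + 1), pp s * ff t (v - s) * c (n - v) := by
    unfold aa
    rw [Finset.mul_sum]
    refine Finset.sum_congr rfl (fun v _ => ?_)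
    rw [ff, ← Finset.sum_mul]
    field_simp
  rw [h1]
  have h2 : ∑ v ∈ range (n + 1), ∑ s ∈ range (v + 1), pp s * ff t (v - s) * c (n - v) =
      ∑ s ∈ range (n + 1), ∑ v ∈ Ico s (n + 1), pp s * ff t (v - s) * c (n - v) := by
    apply Finset.sum_comm'
    intro v s
    simp only [Finset.mem_range, Finset.mem_Ico]
    omega
  rw [h2]
  refine Finset.sum_congr rfl (fun s hs => ?_)
  have hs' : s ≤ n := by have := Finset.mem_range.mp hs; omega
  rw [Finset.sum_Ico_eq_sum_range]
  unfold aa
  rw [Finset.mul_sum]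
  have e : n + 1 - s = n - s + 1 := by omega
  rw [e]
  refine Finset.sum_congr rfl (fun u _ => ?_)
  have e1 : s + u - s = u := by omega
  have e2 : n - (s + u) = n - s - u := by omega
  rw [e1, e2]
  ring

end PkgE10

theorem pkgE10 (h1 : S_dec0) (h2 : S_abel) (h3 : S_decT) : S_cnt := by
  intro P hP n t l
  induction t generalizing n with
  | zero =>
    rw [PkgE10.aa_zero]
    have hab := h2 (fun n => (cnt P n 0 l : ℝ)) (fun n => (W P n l : ℝ)) (fun n => h1 P hP n l)
    rcases Nat.eq_zero_or_pos n with rfl | hn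
    · rw [cc, if_pos rfl]
      have := hab.1
      simp only [wt, Nat.factorial_zero, Nat.cast_one, CharP.cast_eq_zero, Real.exp_zero, mul_one,
        div_one, one_mul] at this ⊢
      exact this
    · have hc := hab.2 n hn
      rw [hc, cc, if_neg (by omega), Finset.mul_sum]
      refine Finset.sum_congr rfl (fun k hk => ?_)
      have hk' : k ≤ n := by have := Finset.mem_range.mp hk; omega
      have hn0 : (0 : ℝ) < n := by exact_mod_cast hn
      have hfk : (0 : ℝ) < (k.factorial : ℝ) := by exact_mod_cast k.factorial_pos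
      have hfn : (0 : ℝ) < ((n - k).factorial : ℝ) := by exact_mod_cast (n - k).factorial_pos
      have hch : (n.choose k : ℝ) = (n.factorial : ℝ) / ((k.factorial : ℝ) * ((n - k).factorial : ℝ)) :=
        Nat.cast_choose ℝ hk'
      unfold wt bt pois
      rw [hch, Real.exp_neg]
      have he := Real.exp_pos (n : ℝ)
      field_simp
  | succ t ih =>
    have ht : (0 : ℝ) < (t : ℝ) + 1 := by positivity
    have hd := h3 P hP n t l
    have hd' : ((t : ℝ) + 1) * (cnt P n (t + 1) l : ℝ) =
        ∑ s ∈ Icc 1 n, (n.choose s : ℝ) * ((s ^ (s - 2) : ℕ) : ℝ) * (cnt P (n - s) t l : ℝ) := by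
      exact_mod_cast hd
    have hsum : ∑ s ∈ Icc 1 n, (n.choose s : ℝ) * ((s ^ (s - 2) : ℕ) : ℝ) * (cnt P (n - s) t l : ℝ) =
        (n.factorial : ℝ) * Real.exp n *
          ∑ s ∈ range (n + 1), pp s * aa (cc (fun k => wt P k l)) t (n - s) := by
      have hr : ∑ s ∈ range (n + 1), pp s * aa (cc (fun k => wt P k l)) t (n - s) =
          ∑ s ∈ Icc 1 n, pp s * aa (cc (fun k => wt P k l)) t (n - s) := by
        symm
        apply Finset.sum_subset
        · intro s hs
          rw [Finset.mem_Icc] at hs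
          rw [Finset.mem_range]; omega
        · intro s hs hs'
          have : s = 0 := by
            rw [Finset.mem_range] at hs
            rw [Finset.mem_Icc] at hs'
            omega
          subst this
          simp [pp]
      rw [hr, Finset.mul_sum]
      refine Finset.sum_congr rfl (fun s hs => ?_)
      rw [Finset.mem_Icc] at hs
      have hfs : (0 : ℝ) < (s.factorial : ℝ) := by exact_mod_cast s.factorial_pos
      have hfn : (0 : ℝ) < ((n - s).factorial : ℝ) := by exact_mod_cast (n - s).factorial_pos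
      have hch : (n.choose s : ℝ) = (n.factorial : ℝ) / ((s.factorial : ℝ) * ((n - s).factorial : ℝ)) :=
        Nat.cast_choose ℝ hs.2
      have hexp : Real.exp (n : ℝ) = Real.exp (s : ℝ) * Real.exp (((n - s : ℕ) : ℝ)) := by
        rw [← Real.exp_add]
        congr 1
        have : n = s + (n - s) := by omega
        exact_mod_cast this
      rw [ih (n - s), ← PkgE10.pp_mul s hs.1, hch, hexp]
      field_simp
    rw [hsum, ← PkgE10.aa_succ] at hd'
    have : ((t : ℝ) + 1) * (cnt P n (t + 1) l : ℝ) =
        ((t : ℝ) + 1) * ((n.factorial : ℝ) * Real.exp n * aa (cc (fun k => wt P k l)) (t + 1) n) := by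
      rw [hd']; ring
    exact mul_left_cancel₀ ht.ne' this

end GiantSurf57
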