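import Pool.Agent.GiantSurf57.StmtsTop
import Pool.Agent.GiantSurf57.Basic

/-!
# Package E3: graphs in which all vertices of `J` are leaves
-/

open scoped Classical
open Finset

namespace GiantSurf57
namespace PkgE3

/-- A set that is closed under adjacency is closed under reachability. -/
theorem reach_closed {G : SimpleGraph ℕ} {C : Set ℕ} (hC : ∀ a ∈ C, ∀ b, G.Adj a b → b ∈ C)
    {x z : ℕ} (hx : x ∈ C) (h : G.Reachable x z) : z ∈ C := by
  obtain ⟨w⟩ := h
  induction w with
  | nil => exact hx
  | cons hab _ ih => exact ih (hC _ hx _ hab)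

/-- Two adjacent leaves form a tree component. -/
theorem tc_pos {G : SimpleGraph ℕ} {S : Finset ℕ} (hG : G ∈ graphsOn S) {x y : ℕ}
    (hx : G.neighborSet x = {y}) (hy : G.neighborSet y = {x}) : tc G S ≠ 0 := by
  have hxy : G.Adj x y := by
    have : y ∈ G.neighborSet x := by rw [hx]; rfl
    exact this
  have hne : x ≠ y := hxy.ne
  have hxS := adj_mem_left hG hxy
  have hyS := adj_mem_right hG hxy
  have hcl : ∀ a ∈ ({x, y} : Set ℕ), ∀ b, G.Adj a b → b ∈ ({x, y} : Set ℕ) := by
    rintro a (rfl | ha) b hab
    · have : b ∈ G.neighborSet a := hab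
      rw [hx] at this
      exact Or.inr this
    · have ha' : a = y := ha
      subst ha'
      have : b ∈ G.neighborSet a := hab
      rw [hy] at this
      exact Or.inl this
  have hcomp : compOf G S x = {x, y} := by
    ext z
    simp only [compOf, Finset.mem_filter, Finset.mem_insert, Finset.mem_singleton]
    constructor
    · rintro ⟨_, hz⟩
      exact reach_closed hcl (Or.inl rfl) hz
    · rintro (rfl | rfl)
      · exact ⟨hxS, SimpleGraph.Reachable.refl _⟩
      · exact ⟨hyS, hxy.reachable⟩
  have hmem : ({x, y} : Finset ℕ) ∈ comps G S := by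
    rw [← hcomp]
    exact Finset.mem_image_of_mem _ hxS
  have hneIn : neIn G {x, y} = 1 := by
    unfold neIn
    have : {e ∈ G.edgeSet | ∀ z ∈ e, z ∈ ({x, y} : Finset ℕ)} = {s(x, y)} := by
      ext e
      simp only [Set.mem_ofPred_eq, Set.mem_singleton_iff]
      constructor
      · rintro ⟨h1, h2⟩
        induction e with
        | h a b =>
          have hab : G.Adj a b := h1
          have ha : a = x ∨ a = y := by simpa using h2 a (by simp)
          rcases ha with rfl | rfl
          · have : b ∈ G.neighborSet a := hab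
            rw [hx] at this
            have hb : b = y := this
            rw [hb]
          · have : b ∈ G.neighborSet a := hab
            rw [hy] at this
            have hb : b = x := this
            rw [hb, Sym2.eq_swap]
      · rintro rfl
        refine ⟨hxy, ?_⟩
        intro z hz
        simpa using hz
    rw [this, Set.ncard_singleton]
  unfold tc
  rw [Finset.card_ne_zero]
  refine ⟨{x, y}, ?_⟩
  rw [Finset.mem_filter]
  refine ⟨hmem, ?_⟩
  rw [hneIn, Finset.card_pair hne]

theorem mem_grs {P : SimpleGraph ℕ → Prop} {S : Finset ℕ} {t l : ℕ} {G : SimpleGraph ℕ} :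
    G ∈ grs P S t l ↔ G ∈ graphsOn S ∧ P G ∧ tc G S = t ∧ ne G + t = S.card + l := by
  simp [grs]

theorem step (hl : S_leaf) (P : SimpleGraph ℕ → Prop) (hP : SurfClass P) (S J : Finset ℕ) (l x : ℕ)
    (hJ : insert x J ⊆ S) (hxJ : x ∉ J) :
    ((grs P S 0 l).filter (fun G => ∀ v ∈ insert x J, deg G v = 1)).card =
      (S \ insert x J).card *
        ((grs P (S.erase x) 0 l).filter (fun G => ∀ v ∈ J, deg G v = 1)).card := by
  have hxS : x ∈ S := hJ (Finset.mem_insert_self _ _)
  have hins : insert x (S.erase x) = S := Finset.insert_erase hxS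
  have hxn : x ∉ S.erase x := Finset.notMem_erase _ _
  have hcard : (S.erase x).card + 1 = S.card := Finset.card_erase_add_one hxS
  rw [← Finset.card_product]
  symm
  refine Finset.card_bij (fun (p : ℕ × SimpleGraph ℕ) _ => p.2 ⊔ SimpleGraph.edge x p.1) ?_ ?_ ?_
  · -- maps into
    rintro ⟨y, G0⟩ hp
    simp only [Finset.mem_product, Finset.mem_filter, Finset.mem_sdiff, mem_grs] at hp
    obtain ⟨⟨hyS, hyJ⟩, ⟨hon, hPG, htc, hne⟩, hdeg⟩ := hp
    have hyx : y ≠ x := fun h => hyJ (h ▸ Finset.mem_insert_self _ _)
    have hyJ' : y ∉ J := fun h => hyJ (Finset.mem_insert_of_mem h)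
    have hyE : y ∈ S.erase x := Finset.mem_erase.2 ⟨hyx, hyS⟩
    have hf := edgeSet_finite hon
    have hnadj : ¬ G0.Adj x y := fun h => hxn (adj_mem_left hon h)
    have hdx : deg G0 x = 0 := deg_eq_zero hon hxn
    simp only [Finset.mem_filter, mem_grs]
    refine ⟨⟨sup_edge_graphsOn (graphsOn_mono hon (Finset.erase_subset _ _)) hxS hyS, ?_, ?_, ?_⟩,
      ?_⟩
    · refine hP.join G0 x y hf hPG ?_
      intro hr
      have := reach_closed (C := {x}) ?_ rfl hr
      · exact hyx this
      · rintro a ha b hab
        have ha' : a = x := ha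
        subst ha'
        exact absurd (adj_mem_left hon hab) hxn
    · have := hl (S.erase x) G0 x y hon hxn hyE
      rw [hins] at this
      rw [this, htc]
    · rw [ne_sup_edge hf hyx.symm hnadj]
      omega
    · intro v hv
      rw [Finset.mem_insert] at hv
      rcases hv with rfl | hv
      · rw [deg_sup_edge_left hf hyx.symm hnadj, hdx]
      · have h1 : v ≠ x := fun h => hxJ (h ▸ hv)
        have h2 : v ≠ y := fun h => hyJ' (h ▸ hv)
        rw [deg_sup_edge_other h1 h2]
        exact hdeg v hv
  · -- injective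
    rintro ⟨y, G0⟩ hp ⟨y', G0'⟩ hp' heq
    simp only [Finset.mem_product, Finset.mem_filter, Finset.mem_sdiff, mem_grs] at hp hp'
    obtain ⟨⟨hyS, hyJ⟩, ⟨hon, -, -, -⟩, -⟩ := hp
    obtain ⟨⟨hyS', hyJ'⟩, ⟨hon', -, -, -⟩, -⟩ := hp'
    have hyx : x ≠ y := fun h => hyJ (h ▸ Finset.mem_insert_self _ _)
    have hyx' : x ≠ y' := fun h => hyJ' (h ▸ Finset.mem_insert_self _ _)
    have e : ∀ G : SimpleGraph ℕ, G ∈ graphsOn (S.erase x) → G.neighborSet x = ∅ := by
      intro G hG
      ext z
      simp only [SimpleGraph.mem_neighborSet, Set.mem_empty_iff_false, iff_false]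
      exact fun h => hxn (adj_mem_left hG h)
    have h1 : (G0 ⊔ SimpleGraph.edge x y).neighborSet x =
        (G0' ⊔ SimpleGraph.edge x y').neighborSet x := by
      have heq' : G0 ⊔ SimpleGraph.edge x y = G0' ⊔ SimpleGraph.edge x y' := heq
      rw [heq']
    rw [neighborSet_sup_edge_left hyx, neighborSet_sup_edge_left hyx', e G0 hon, e G0' hon'] at h1
    have hyy : y = y' := by
      have : y ∈ (insert y' ∅ : Set ℕ) := by
        rw [← h1]
        exact Set.mem_insert _ _
      simpa using this
    subst hyy
    have heq' : G0 ⊔ SimpleGraph.edge x y = G0' ⊔ SimpleGraph.edge x y := heq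
    have hG : ∀ G : SimpleGraph ℕ, G ∈ graphsOn (S.erase x) →
        (G ⊔ SimpleGraph.edge x y) \ SimpleGraph.edge x y = G := by
      intro G hG
      ext a b
      simp only [SimpleGraph.sdiff_adj, SimpleGraph.sup_adj]
      constructor
      · rintro ⟨h | h, h'⟩
        · exact h
        · exact absurd h h'
      · intro h
        refine ⟨Or.inl h, ?_⟩
        rw [SimpleGraph.edge_adj]
        rintro ⟨⟨rfl, rfl⟩ | ⟨rfl, rfl⟩, _⟩
        · exact hxn (adj_mem_left hG h)
        · exact hxn (adj_mem_right hG h)
    have hGG : G0 = G0' := by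
      rw [← hG G0 hon, heq', hG G0' hon']
    rw [hGG]
  · -- surjective
    intro G hG
    simp only [Finset.mem_filter, mem_grs] at hG
    obtain ⟨⟨hon, hPG, htc, hne⟩, hdeg⟩ := hG
    have hf := edgeSet_finite hon
    have hdx : deg G x = 1 := hdeg x (Finset.mem_insert_self _ _)
    obtain ⟨y, hy⟩ := Set.ncard_eq_one.1 hdx
    have hxy : G.Adj x y := by
      have : y ∈ G.neighborSet x := by rw [hy]; rfl
      exact this
    have hyx : x ≠ y := hxy.ne
    have hyS := adj_mem_right hon hxy
    have hyJ : y ∉ J := by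
      intro h
      have hdy : deg G y = 1 := hdeg y (Finset.mem_insert_of_mem h)
      obtain ⟨z, hz⟩ := Set.ncard_eq_one.1 hdy
      have hxz : x = z := by
        have : x ∈ G.neighborSet y := hxy.symm
        rw [hz] at this
        exact this
      subst hxz
      exact tc_pos hon hy hz htc
    have hsup : (G \ SimpleGraph.edge x y) ⊔ SimpleGraph.edge x y = G := by
      ext a b
      simp only [SimpleGraph.sdiff_adj, SimpleGraph.sup_adj]
      constructor
      · rintro (h | h)
        · exact h.1
        · rw [SimpleGraph.edge_adj] at h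
          rcases h with ⟨⟨rfl, rfl⟩ | ⟨rfl, rfl⟩, _⟩
          · exact hxy
          · exact hxy.symm
      · intro h
        by_cases h' : (SimpleGraph.edge x y).Adj a b
        · exact Or.inr h'
        · exact Or.inl ⟨h, h'⟩
    have hle : G \ SimpleGraph.edge x y ≤ G := sdiff_le
    have hnx : (G \ SimpleGraph.edge x y).neighborSet x = ∅ := by
      rw [neighborSet_sdiff_edge_left hyx, hy, Set.sdiff_self]
    have hon0 : G \ SimpleGraph.edge x y ∈ graphsOn (S.erase x) := by
      rw [mem_graphsOn_iff]
      intro a b hab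
      have hab' := hle hab
      have hax : a ≠ x := by
        rintro rfl
        have : b ∈ (G \ SimpleGraph.edge a y).neighborSet a := hab
        rw [hnx] at this
        exact this
      have hbx : b ≠ x := by
        rintro rfl
        have : a ∈ (G \ SimpleGraph.edge b y).neighborSet b := hab.symm
        rw [hnx] at this
        exact this
      exact ⟨Finset.mem_erase.2 ⟨hax, adj_mem_left hon hab'⟩,
        Finset.mem_erase.2 ⟨hbx, adj_mem_right hon hab'⟩⟩
    have hyE : y ∈ S.erase x := Finset.mem_erase.2 ⟨hyx.symm, hyS⟩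
    refine ⟨(y, G \ SimpleGraph.edge x y), ?_, hsup⟩
    simp only [Finset.mem_product, Finset.mem_filter, Finset.mem_sdiff, mem_grs]
    refine ⟨⟨hyS, ?_⟩, ⟨hon0, ?_, ?_, ?_⟩, ?_⟩
    · rw [Finset.mem_insert]
      rintro (h | h)
      · exact hyx h.symm
      · exact hyJ h
    · exact hP.mono _ G hf hle hPG
    · have := hl (S.erase x) _ x y hon0 hxn hyE
      rw [hins, hsup] at this
      rw [← this, htc]
    · have := ne_sdiff_edge hf hxy
      omega
    · intro v hv
      have h1 : v ≠ x := fun h => hxJ (h ▸ hv)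
      have h2 : v ≠ y := fun h => hyJ (h ▸ hv)
      rw [deg_sdiff_edge_other h1 h2]
      exact hdeg v (Finset.mem_insert_of_mem hv)

end PkgE3

open PkgE3 in
theorem pkgE3 (h1 : S_leaf) : S_Jleaf := by
  intro P hP S J l
  induction J using Finset.induction_on generalizing S with
  | empty =>
    intro _
    simp
  | insert x J hxJ ih =>
    intro hJ
    have hxS : x ∈ S := hJ (Finset.mem_insert_self _ _)
    have hJ' : J ⊆ S.erase x := by
      intro v hv
      rw [Finset.mem_erase]
      exact ⟨fun h => hxJ (h ▸ hv), hJ (Finset.mem_insert_of_mem hv)⟩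
    rw [step h1 P hP S J l x hJ hxJ, ih (S.erase x) hJ', Finset.card_sdiff_of_subset hJ,
      Finset.card_insert_of_notMem hxJ, Finset.card_erase_of_mem hxS, pow_succ']
    have e1 : S.erase x \ J = S \ insert x J := by
      ext v
      simp only [Finset.mem_sdiff, Finset.mem_erase, Finset.mem_insert]
      tauto
    have e2 : S.card - 1 - J.card = S.card - (J.card + 1) := by omega
    rw [e1, e2, mul_assoc]

end GiantSurf57
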