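import Pool.Agent.GiantSurf57.StmtsTop

/-! Package E4: inclusion-exclusion over the leaves. -/

open scoped Classical
open Finset

namespace GiantSurf57

theorem pkgE4 (h1 : S_relabel2) (h2 : S_coreLeaf) (h3 : S_Jleaf) : S_dec0 := by
  intro P hP n l
  set S : Finset ℕ := range n with hS
  have hcard : S.card = n := by simp [hS]
  have hW : (W P n l : ℝ) = ∑ G ∈ grs P S 0 l, if (∀ v ∈ S, deg G v ≠ 1) then (1 : ℝ) else 0 := by
    unfold W
    rw [h2 P (range n) l, ← Finset.sum_boole]
  have hind : ∀ G : SimpleGraph ℕ, (if (∀ v ∈ S, deg G v ≠ 1) then (1 : ℝ) else 0) =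
      ∑ J ∈ S.powerset, if (∀ v ∈ J, deg G v = 1) then (-1 : ℝ) ^ J.card else 0 := by
    intro G
    have h4 := Finset.sum_powerset_neg_one_pow_card (x := S.filter (fun v => deg G v = 1))
    have h5 : ∑ J ∈ (S.filter (fun v => deg G v = 1)).powerset, (-1 : ℝ) ^ J.card =
        if (S.filter (fun v => deg G v = 1)) = ∅ then (1 : ℝ) else 0 := by
      have := congrArg (fun z : ℤ => (z : ℝ)) h4
      push_cast at this
      exact this
    rw [← Finset.sum_filter]
    have h6 : S.powerset.filter (fun J => ∀ v ∈ J, deg G v = 1) =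
        (S.filter (fun v => deg G v = 1)).powerset := by
      ext J
      simp only [Finset.mem_filter, Finset.mem_powerset]
      constructor
      · rintro ⟨ha, hb⟩ v hv
        exact Finset.mem_filter.mpr ⟨ha hv, hb v hv⟩
      · intro ha
        exact ⟨fun v hv => (Finset.mem_filter.mp (ha hv)).1,
          fun v hv => (Finset.mem_filter.mp (ha hv)).2⟩
    rw [h6, h5]
    have h7 : (S.filter (fun v => deg G v = 1) = ∅) ↔ (∀ v ∈ S, deg G v ≠ 1) :=
      Finset.filter_eq_empty_iff
    by_cases h8 : ∀ v ∈ S, deg G v ≠ 1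
    · rw [if_pos h8, if_pos (h7.mpr h8)]
    · rw [if_neg h8, if_neg (fun h => h8 (h7.mp h))]
  rw [hW, Finset.sum_congr rfl (fun G _ => hind G), Finset.sum_comm]
  have hJ : ∀ J ∈ S.powerset, (∑ G ∈ grs P S 0 l,
      if (∀ v ∈ J, deg G v = 1) then (-1 : ℝ) ^ J.card else 0) =
      (-1 : ℝ) ^ J.card * ((n - J.card : ℕ) : ℝ) ^ J.card * (cnt P (n - J.card) 0 l : ℝ) := by
    intro J hJ
    rw [Finset.mem_powerset] at hJ
    have hj := h3 P hP S J l hJ
    have hr := h1.1 P hP (S \ J) (range (n - J.card)) 0 l (by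
      rw [Finset.card_sdiff_of_subset hJ, hcard, Finset.card_range])
    rw [hr, hcard] at hj
    rw [← Finset.sum_filter, Finset.sum_const, nsmul_eq_mul, hj]
    unfold cnt
    push_cast
    ring
  rw [Finset.sum_congr rfl hJ]
  have := Finset.sum_powerset_apply_card (fun j => (-1 : ℝ) ^ j * ((n - j : ℕ) : ℝ) ^ j *
    (cnt P (n - j) 0 l : ℝ)) (x := S)
  rw [this, hcard]
  refine Finset.sum_congr rfl (fun j _ => ?_)
  rw [nsmul_eq_mul]
  ring

end GiantSurf57
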