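import Pool.Agent.GiantSurf57.StmtsTop

/-! Package E5: Abel inversion. -/

open scoped Classical
open Finset

namespace GiantSurf57

namespace PkgE5

theorem binom1 (N : ℕ) (x y : ℝ) :
    ∑ i ∈ range (N + 1), (N.choose i : ℝ) * x ^ (N - i) * y ^ i = (x + y) ^ N := by
  rw [add_comm x y, add_pow]
  refine Finset.sum_congr rfl (fun i _ => ?_)
  ring

theorem binom2 (M : ℕ) (x y : ℝ) :
    ∑ i ∈ range (M + 2), (i : ℝ) * ((M + 1).choose i : ℝ) * x ^ (M + 1 - i) * y ^ i =
      (M + 1 : ℝ) * y * (x + y) ^ M := by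
  rw [Finset.sum_range_succ']
  simp only [Nat.cast_zero, zero_mul, add_zero]
  rw [← binom1 M x y, Finset.mul_sum]
  refine Finset.sum_congr rfl (fun i _ => ?_)
  have h : ((i + 1 : ℕ) : ℝ) * ((M + 1).choose (i + 1) : ℝ) = (M + 1 : ℝ) * (M.choose i : ℝ) := by
    have := Nat.add_one_mul_choose_eq M i
    have h2 : ((M + 1 : ℕ) : ℝ) * (M.choose i : ℝ) = ((M + 1).choose (i + 1) : ℝ) * ((i + 1 : ℕ) : ℝ) := by
      exact_mod_cast this
    push_cast at h2 ⊢
    linarith
  rw [h, Nat.add_sub_add_right, pow_succ]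
  ring

theorem inner (n m : ℕ) (hn : 1 ≤ n) (hm : m ≤ n) :
    ∑ i ∈ range (n - m + 1), (n.choose (m + i) : ℝ) * (((m + i : ℕ) : ℝ) / (n : ℝ)) *
      (n : ℝ) ^ (n - (m + i)) * ((-1 : ℝ) ^ i * ((m + i).choose i : ℝ) * (m : ℝ) ^ i) =
    if m = n then 1 else 0 := by
  have hn0 : (n : ℝ) ≠ 0 := by
    have : n ≠ 0 := by omega
    exact_mod_cast this
  have h1 : ∀ i ∈ range (n - m + 1), (n.choose (m + i) : ℝ) * (((m + i : ℕ) : ℝ) / (n : ℝ)) *
      (n : ℝ) ^ (n - (m + i)) * ((-1 : ℝ) ^ i * ((m + i).choose i : ℝ) * (m : ℝ) ^ i) =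
      (n.choose m : ℝ) / n * ((m : ℝ) * (((n - m).choose i : ℝ) * (n : ℝ) ^ (n - m - i) * (-(m : ℝ)) ^ i)
        + (i : ℝ) * ((n - m).choose i : ℝ) * (n : ℝ) ^ (n - m - i) * (-(m : ℝ)) ^ i) := by
    intro i hi
    have hi' : i ≤ n - m := by
      have := Finset.mem_range.mp hi; omega
    have hc : n.choose (m + i) * (m + i).choose i = n.choose m * (n - m).choose i := by
      have := Nat.choose_mul (n := n) (k := m + i) (s := m) (by omega)
      rw [Nat.choose_symm_add] at this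
      simpa using this
    have hc' : (n.choose (m + i) : ℝ) * ((m + i).choose i : ℝ) =
        (n.choose m : ℝ) * ((n - m).choose i : ℝ) := by exact_mod_cast hc
    have hpow : (-(m : ℝ)) ^ i = (-1 : ℝ) ^ i * (m : ℝ) ^ i := by
      rw [← mul_pow]; congr 1; ring
    have hexp : n - (m + i) = n - m - i := by omega
    rw [hexp, hpow]
    push_cast
    calc (n.choose (m + i) : ℝ) * (((m : ℝ) + i) / n) * (n : ℝ) ^ (n - m - i) *
          ((-1) ^ i * ((m + i).choose i : ℝ) * (m : ℝ) ^ i)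
        = ((n.choose (m + i) : ℝ) * ((m + i).choose i : ℝ)) * (((m : ℝ) + i) / n) *
          (n : ℝ) ^ (n - m - i) * ((-1) ^ i * (m : ℝ) ^ i) := by ring
      _ = _ := by rw [hc']; ring
  rw [Finset.sum_congr rfl h1, ← Finset.mul_sum, Finset.sum_add_distrib, ← Finset.mul_sum, binom1]
  by_cases hmn : m = n
  · subst hmn
    simp
    field_simp
  · rw [if_neg hmn]
    obtain ⟨M, hM⟩ : ∃ M, n - m = M + 1 := ⟨n - m - 1, by omega⟩
    have hM' : (n : ℝ) - m = M + 1 := by
      have : n = m + (M + 1) := by omega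
      rw [this]; push_cast; ring
    rw [hM, binom2]
    have e : (n : ℝ) + -(m : ℝ) = M + 1 := by linarith
    rw [e]
    ring

end PkgE5

theorem pkgE5 : S_abel := by
  intro c w hw
  refine ⟨?_, ?_⟩
  · have := hw 0
    simp at this
    exact this.symm
  · intro n hn
    have h1 : ∑ k ∈ range (n + 1), (n.choose k : ℝ) * ((k : ℝ) / (n : ℝ)) * (n : ℝ) ^ (n - k) * w k =
        ∑ k ∈ range (n + 1), ∑ m ∈ range (k + 1), (n.choose k : ℝ) * ((k : ℝ) / (n : ℝ)) *
          (n : ℝ) ^ (n - k) * ((-1 : ℝ) ^ (k - m) * (k.choose (k - m) : ℝ) * (m : ℝ) ^ (k - m) * c m) := by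
      refine Finset.sum_congr rfl (fun k _ => ?_)
      rw [hw k, Finset.mul_sum, ← Finset.sum_range_reflect]
      refine Finset.sum_congr rfl (fun m hm => ?_)
      have hm' : m ≤ k := by have := Finset.mem_range.mp hm; omega
      have e1 : k + 1 - 1 - m = k - m := by omega
      have e2 : k - (k - m) = m := by omega
      rw [e1, e2]
    rw [h1]
    have h2 : ∑ k ∈ range (n + 1), ∑ m ∈ range (k + 1), (n.choose k : ℝ) * ((k : ℝ) / (n : ℝ)) *
          (n : ℝ) ^ (n - k) * ((-1 : ℝ) ^ (k - m) * (k.choose (k - m) : ℝ) * (m : ℝ) ^ (k - m) * c m) =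
        ∑ m ∈ range (n + 1), ∑ k ∈ Ico m (n + 1), (n.choose k : ℝ) * ((k : ℝ) / (n : ℝ)) *
          (n : ℝ) ^ (n - k) * ((-1 : ℝ) ^ (k - m) * (k.choose (k - m) : ℝ) * (m : ℝ) ^ (k - m) * c m) := by
      apply Finset.sum_comm'
      intro k m
      simp only [Finset.mem_range, Finset.mem_Ico]
      omega
    rw [h2]
    have h3 : ∀ m ∈ range (n + 1), ∑ k ∈ Ico m (n + 1), (n.choose k : ℝ) * ((k : ℝ) / (n : ℝ)) *
          (n : ℝ) ^ (n - k) * ((-1 : ℝ) ^ (k - m) * (k.choose (k - m) : ℝ) * (m : ℝ) ^ (k - m) * c m) =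
        (if m = n then 1 else 0) * c m := by
      intro m hm
      have hm' : m ≤ n := by have := Finset.mem_range.mp hm; omega
      rw [Finset.sum_Ico_eq_sum_range, ← PkgE5.inner n m hn hm', Finset.sum_mul]
      have e : n + 1 - m = n - m + 1 := by omega
      rw [e]
      refine Finset.sum_congr rfl (fun i _ => ?_)
      have e3 : m + i - m = i := by omega
      rw [e3]
      ring
    rw [Finset.sum_congr rfl h3]
    simp

end GiantSurf57
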