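import Pool.Agent.GiantSurf57.StmtsTop
import Pool.Agent.GiantSurf57.Basic

open scoped Classical
open Finset

namespace GiantSurf57

namespace PkgE6

/-- trees on `S` all of whose vertices in `J` are leaves -/
noncomputable def TJ (S J : Finset ℕ) : Finset (SimpleGraph ℕ) :=
  (trees S).filter (fun G => ∀ v ∈ J, deg G v = 1)

theorem mem_TJ {S J : Finset ℕ} {G : SimpleGraph ℕ} : G ∈ TJ S J ↔
    G ∈ graphsOn S ∧ (∀ x ∈ S, ∀ y ∈ S, G.Reachable x y) ∧ ne G + 1 = S.card ∧
      ∀ v ∈ J, deg G v = 1 := by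
  simp [TJ, trees, and_assoc]

theorem exists_nbr {G : SimpleGraph ℕ} {x : ℕ} (h : deg G x = 1) :
    ∃ y, G.neighborSet x = {y} := Set.ncard_eq_one.mp h

/-- two adjacent leaves of a connected graph are all of it -/
theorem adj_leaves {S : Finset ℕ} {G : SimpleGraph ℕ}
    (hc : ∀ x ∈ S, ∀ y ∈ S, G.Reachable x y) {x y : ℕ} (hx : x ∈ S)
    (h1 : G.neighborSet x = {y}) (h2 : deg G y = 1) (z : ℕ) (hz : z ∈ S) : z = x ∨ z = y := by
  have hxy : G.Adj x y := by
    have : y ∈ G.neighborSet x := by rw [h1]; rfl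
    exact this
  obtain ⟨w, hw⟩ := exists_nbr h2
  have hwx : w = x := by
    have : x ∈ G.neighborSet y := hxy.symm
    rw [hw] at this
    exact this.symm
  subst hwx
  obtain ⟨p⟩ := hc w hx z hz
  have key : ∀ a b : ℕ, G.Walk a b → (a = w ∨ a = y) → (b = w ∨ b = y) := by
    intro a b p
    induction p with
    | nil => exact id
    | cons h _ ih =>
      intro ha
      apply ih
      rcases ha with rfl | rfl
      · right
        have : _ ∈ G.neighborSet _ := h
        rw [h1] at this
        exact this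
      · left
        have : _ ∈ G.neighborSet _ := h
        rw [hw] at this
        exact this
  exact key w z p (Or.inl rfl)

/-- removing a leaf keeps the other vertices connected -/
theorem reach_remove {G : SimpleGraph ℕ} {x y : ℕ} (h1 : G.neighborSet x = {y}) {a b : ℕ}
    (hr : G.Reachable a b) :
    (G \ SimpleGraph.edge x y).Reachable (if a = x then y else a) (if b = x then y else b) := by
  obtain ⟨p⟩ := hr
  induction p with
  | nil => exact SimpleGraph.Reachable.refl _
  | @cons u v w h p ih =>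
    refine SimpleGraph.Reachable.trans ?_ ih
    by_cases hu : u = x
    · subst hu
      have hv : v = y := by
        have : v ∈ G.neighborSet u := h
        rw [h1] at this
        exact this
      subst hv
      rw [if_pos rfl, if_neg h.ne.symm]
    · by_cases hv : v = x
      · subst hv
        have hv : u = y := by
          have : u ∈ G.neighborSet v := h.symm
          rw [h1] at this
          exact this
        subst hv
        rw [if_neg hu, if_pos rfl]
      · rw [if_neg hu, if_neg hv]
        apply SimpleGraph.Adj.reachable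
        rw [SimpleGraph.sdiff_adj, SimpleGraph.edge_adj]
        refine ⟨h, ?_⟩
        rintro ⟨⟨h3, _⟩ | ⟨_, h3⟩, _⟩
        · exact hu h3
        · exact hv h3

theorem add_leaf {S J : Finset ℕ} {x y : ℕ} (hx : x ∈ S) (hxJ : x ∉ J) (hy : y ∈ S)
    (hyx : y ≠ x) (hyJ : y ∉ J) {G : SimpleGraph ℕ} (hG : G ∈ TJ (S.erase x) J) :
    G ⊔ SimpleGraph.edge x y ∈ TJ S (insert x J) := by
  rw [mem_TJ] at hG ⊢
  obtain ⟨h1, h2, h3, h4⟩ := hG
  have hf := edgeSet_finite h1
  have hxy : ¬ G.Adj x y := by
    intro h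
    have := adj_mem_left h1 h
    simp at this
  have hadj : (G ⊔ SimpleGraph.edge x y).Adj x y := by
    rw [SimpleGraph.sup_adj, SimpleGraph.edge_adj]
    exact Or.inr ⟨Or.inl ⟨rfl, rfl⟩, hyx.symm⟩
  refine ⟨sup_edge_graphsOn (graphsOn_mono h1 (erase_subset _ _)) hx hy, ?_, ?_, ?_⟩
  · have key : ∀ a ∈ S, (G ⊔ SimpleGraph.edge x y).Reachable a y := by
      intro a ha
      by_cases hax : a = x
      · subst hax
        exact hadj.reachable
      · exact (h2 a (mem_erase.mpr ⟨hax, ha⟩) y (mem_erase.mpr ⟨hyx, hy⟩)).mono le_sup_left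
    intro a ha b hb
    exact (key a ha).trans (key b hb).symm
  · rw [ne_sup_edge hf hyx.symm hxy, h3, card_erase_of_mem hx]
    have : 0 < S.card := card_pos.mpr ⟨x, hx⟩
    omega
  · intro v hv
    rw [mem_insert] at hv
    rcases hv with rfl | hv
    · rw [deg_sup_edge_left hf hyx.symm hxy, deg_eq_zero h1 (by simp)]
    · have hvx : v ≠ x := by rintro rfl; exact hxJ hv
      have hvy : v ≠ y := by rintro rfl; exact hyJ hv
      rw [deg_sup_edge_other hvx hvy]
      exact h4 v hv

theorem remove_leaf {S J : Finset ℕ} {x : ℕ} (hx : x ∈ S) (hxJ : x ∉ J) (hJ : J ⊆ S)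
    (hS : 3 ≤ S.card ∨ (insert x J).card < S.card) {G : SimpleGraph ℕ}
    (hG : G ∈ TJ S (insert x J)) :
    ∃ y, y ∈ S ∧ y ≠ x ∧ y ∉ J ∧ G.Adj x y ∧ G \ SimpleGraph.edge x y ∈ TJ (S.erase x) J := by
  rw [mem_TJ] at hG
  obtain ⟨h1, h2, h3, h4⟩ := hG
  have hf := edgeSet_finite h1
  obtain ⟨y, hy⟩ := exists_nbr (h4 x (mem_insert_self _ _))
  have hxy : G.Adj x y := by
    have : y ∈ G.neighborSet x := by rw [hy]; rfl
    exact this
  have hyJ : y ∉ J := by
    intro hyJ
    have h5 := adj_leaves h2 hx hy (h4 y (mem_insert_of_mem hyJ))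
    have h6 : S ⊆ {x, y} := by
      intro z hz
      have := h5 z hz
      simpa using this
    rcases hS with hS | hS
    · have := card_le_card h6
      have := card_le_two (a := x) (b := y)
      omega
    · have h7 : S ⊆ insert x J := by
        intro z hz
        rcases h5 z hz with rfl | rfl
        · exact mem_insert_self _ _
        · exact mem_insert_of_mem hyJ
      have := card_le_card h7
      omega
  refine ⟨y, adj_mem_right h1 hxy, hxy.ne.symm, hyJ, hxy, ?_⟩
  rw [mem_TJ]
  refine ⟨?_, ?_, ?_, ?_⟩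
  · rw [mem_graphsOn_iff]
    intro a b hab
    rw [SimpleGraph.sdiff_adj, SimpleGraph.edge_adj] at hab
    obtain ⟨hab, h5⟩ := hab
    have key : ∀ a b, G.Adj a b → ¬ ((a = x ∧ b = y ∨ a = y ∧ b = x) ∧ a ≠ b) → a ≠ x := by
      rintro a b hab h5 rfl
      have : b ∈ G.neighborSet a := hab
      rw [hy] at this
      have hb : b = y := this
      exact h5 ⟨Or.inl ⟨rfl, hb⟩, hab.ne⟩
    refine ⟨mem_erase.mpr ⟨key a b hab ?_, adj_mem_left h1 hab⟩,
      mem_erase.mpr ⟨key b a hab.symm ?_, adj_mem_right h1 hab⟩⟩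
    · exact h5
    · rintro ⟨h6 | h6, h7⟩
      · exact h5 ⟨Or.inr ⟨h6.2, h6.1⟩, h7.symm⟩
      · exact h5 ⟨Or.inl ⟨h6.2, h6.1⟩, h7.symm⟩
  · intro a ha b hb
    rw [mem_erase] at ha hb
    have := reach_remove hy (h2 a ha.2 b hb.2)
    rwa [if_neg ha.1, if_neg hb.1] at this
  · have := ne_sdiff_edge hf hxy
    rw [card_erase_of_mem hx]
    omega
  · intro v hv
    have hvx : v ≠ x := by rintro rfl; exact hxJ hv
    have hvy : v ≠ y := by rintro rfl; exact hyJ hv
    rw [deg_sdiff_edge_other hvx hvy]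
    exact h4 v (mem_insert_of_mem hv)

theorem step {S J : Finset ℕ} {x : ℕ} (hx : x ∈ S) (hxJ : x ∉ J) (hJ : J ⊆ S)
    (hS : 3 ≤ S.card ∨ (insert x J).card < S.card) :
    (TJ S (insert x J)).card = (S \ insert x J).card * (TJ (S.erase x) J).card := by
  rw [← card_product]
  symm
  apply card_bij (fun (p : ℕ × SimpleGraph ℕ) _ => p.2 ⊔ SimpleGraph.edge x p.1)
  · rintro ⟨y, G⟩ hp
    rw [mem_product, mem_sdiff, mem_insert, not_or] at hp
    exact add_leaf hx hxJ hp.1.1 hp.1.2.1 hp.1.2.2 hp.2
  · rintro ⟨y, G⟩ hp ⟨y', G'⟩ hp' h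
    rw [mem_product, mem_sdiff, mem_insert, not_or] at hp hp'
    simp only at h hp hp'
    have hn : ∀ (y : ℕ) (G : SimpleGraph ℕ), y ≠ x → G ∈ TJ (S.erase x) J →
        (G ⊔ SimpleGraph.edge x y).neighborSet x = {y} := by
      intro y G hyx hG
      rw [neighborSet_sup_edge_left hyx.symm]
      have h1 := (mem_TJ.mp hG).1
      have : G.neighborSet x = ∅ := by
        ext w
        simp only [SimpleGraph.mem_neighborSet, Set.mem_empty_iff_false, iff_false]
        intro hw
        have := adj_mem_left h1 hw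
        simp at this
      rw [this]
      simp
    have h1 := hn y G hp.1.2.1 hp.2
    have h2 := hn y' G' hp'.1.2.1 hp'.2
    have hyy : y = y' := by
      rw [h, h2] at h1
      exact (Set.singleton_eq_singleton_iff.mp h1).symm
    subst hyy
    have hback : ∀ (G : SimpleGraph ℕ), G ∈ TJ (S.erase x) J →
        ∀ a b, G.Adj a b ↔ (G ⊔ SimpleGraph.edge x y).Adj a b ∧ a ≠ x ∧ b ≠ x := by
      intro G hG a b
      have h1 := (mem_TJ.mp hG).1
      rw [SimpleGraph.sup_adj, SimpleGraph.edge_adj]
      constructor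
      · intro h
        exact ⟨Or.inl h, (mem_erase.mp (adj_mem_left h1 h)).1,
          (mem_erase.mp (adj_mem_right h1 h)).1⟩
      · rintro ⟨h | ⟨⟨h3, _⟩ | ⟨_, h3⟩, _⟩, h4, h5⟩
        · exact h
        · exact absurd h3 h4
        · exact absurd h3 h5
    have : G = G' := by
      ext a b
      rw [hback G hp.2, hback G' hp'.2, h]
    rw [this]
  · intro G hG
    obtain ⟨y, h1, h2, h3, h4, h5⟩ := remove_leaf hx hxJ hJ hS hG
    refine ⟨(y, G \ SimpleGraph.edge x y), ?_, ?_⟩
    · rw [mem_product, mem_sdiff, mem_insert, not_or]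
      exact ⟨⟨h1, h2, h3⟩, h5⟩
    · simp only
      apply sdiff_sup_cancel
      intro a b hab
      rw [SimpleGraph.edge_adj] at hab
      rcases hab with ⟨⟨rfl, rfl⟩ | ⟨rfl, rfl⟩, _⟩
      · exact h4
      · exact h4.symm

theorem main (J : Finset ℕ) : ∀ S : Finset ℕ, J ⊆ S → (J.card < S.card) →
    (TJ S J).card = (S.card - J.card) ^ J.card * (trees (S \ J)).card := by
  induction J using Finset.induction_on with
  | empty =>
    intro S _ _
    simp [TJ]
  | insert x J hxJ ih =>
    intro S hJ hS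
    rw [insert_subset_iff] at hJ
    rw [step hJ.1 hxJ hJ.2 (Or.inr hS), ih (S.erase x)]
    · rw [card_sdiff_of_subset (insert_subset_iff.mpr hJ), card_erase_of_mem hJ.1,
        card_insert_of_notMem hxJ, pow_succ]
      have e1 : S.card - 1 - J.card = S.card - (J.card + 1) := by omega
      have e2 : S.erase x \ J = S \ insert x J := by
        ext z
        simp only [mem_sdiff, mem_erase, mem_insert]
        tauto
      rw [e1, e2]
      ring
    · intro z hz
      exact mem_erase.mpr ⟨by rintro rfl; exact hxJ hz, hJ.2 hz⟩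
    · rw [card_insert_of_notMem hxJ] at hS
      rw [card_erase_of_mem hJ.1]
      omega

end PkgE6

open PkgE6

theorem pkgE6 : S_JleafT := by
  intro S J hS hJ
  by_cases h : J.card < S.card
  · exact main J S hJ h
  · have hJS : J = S := eq_of_subset_of_card_le hJ (by omega)
    subst hJS
    obtain ⟨x, hx⟩ : J.Nonempty := card_pos.mp (by omega)
    have h1 := step (S := J) (J := J.erase x) hx (by simp) (erase_subset _ _) (Or.inl hS)
    rw [insert_erase hx] at h1
    have h2 : (J \ J).card = 0 := by simp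
    rw [h2, zero_mul] at h1
    rw [Nat.sub_self, zero_pow (by omega), zero_mul]
    exact h1

end GiantSurf57
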