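import Pool.Agent.GiantSurf57.PkgB1

/-!
# Package E7 of `GiantSurf57`: Cayley's formula
-/

open scoped Classical
open Finset

namespace GiantSurf57

namespace PkgE7

lemma mem_trees {S : Finset ℕ} {G : SimpleGraph ℕ} : G ∈ trees S ↔
    G.support ⊆ ↑S ∧ (∀ x ∈ S, ∀ y ∈ S, G.Reachable x y) ∧ ne G + 1 = S.card := by
  unfold trees
  rw [mem_filter, mem_graphsOn]

lemma exists_leaf {n : ℕ} (hn : 2 ≤ n) {G : SimpleGraph ℕ} (hG : G ∈ trees (range n)) :
    ∃ v ∈ range n, deg G v = 1 := by
  by_contra hcon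
  have hcon' : ∀ v ∈ range n, deg G v ≠ 1 := fun v hv h => hcon ⟨v, hv, h⟩
  have hgr : G ∈ graphsOn (range n) := (Finset.mem_filter.mp hG).1
  rw [mem_trees] at hG
  obtain ⟨hs, hr, hne⟩ := hG
  have hpos : ∀ v ∈ range n, 2 ≤ deg G v := by
    intro v hv
    have h1 := hcon' v hv
    have h0 : deg G v ≠ 0 := by
      intro h0
      obtain ⟨w, hw, hwv⟩ : ∃ w ∈ range n, w ≠ v := by
        by_cases hv0 : v = 0
        · exact ⟨1, mem_range.mpr (by omega), by omega⟩
        · exact ⟨0, mem_range.mpr (by omega), fun h => hv0 h.symm⟩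
      obtain ⟨p⟩ := hr v hv w hw
      cases p with
      | nil => exact hwv rfl
      | @cons _ u _ h p =>
        have hu : u ∈ G.neighborSet v := h
        have hfin : (G.neighborSet v).Finite := by
          rw [PkgB1.nbr_eq hgr v]; exact Finset.finite_toSet _
        unfold deg at h0
        rw [Set.ncard_eq_zero hfin] at h0
        rw [h0] at hu
        exact hu
    omega
  have h2 := PkgB1.handshake hgr
  have h3 : ∑ w ∈ range n, 2 ≤ ∑ w ∈ range n, deg G w := Finset.sum_le_sum hpos
  rw [h2] at h3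
  simp only [sum_const, card_range, smul_eq_mul] at h3 hne
  omega

lemma alt_sum (n : ℕ) (hn : 2 ≤ n) :
    ∑ j ∈ range (n + 1), (-1 : ℤ) ^ j * (n.choose j : ℤ) * (((n - j : ℕ) : ℤ)) ^ (n - 2) = 0 := by
  have h1 := fwdDiff_iter_pow_eq_zero_of_lt (R := ℤ) (j := n - 2) (n := n) (by omega)
  have h2 := congrFun h1 0
  rw [fwdDiff_iter_eq_sum_shift] at h2
  rw [← Finset.sum_range_reflect]
  rw [Pi.zero_apply] at h2
  rw [← h2]
  refine Finset.sum_congr rfl (fun j hj => ?_)
  rw [mem_range] at hj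
  have e1 : n + 1 - 1 - j = n - j := by omega
  have e2 : n - (n - j) = j := by omega
  rw [e1, e2, Nat.choose_symm (by omega : j ≤ n)]
  simp

lemma incl_excl (h : S_JleafT) (h2 : S_relabel2) {n : ℕ} (hn : 3 ≤ n) :
    ∑ j ∈ range (n + 1), (-1 : ℤ) ^ j * (n.choose j : ℤ) *
      ((((n - j : ℕ) : ℤ)) ^ j * ((trees (range (n - j))).card : ℤ)) = 0 := by
  have h3 : ∀ J ∈ (range n).powerset,
      (((trees (range n)).filter (fun G => ∀ v ∈ J, deg G v = 1)).card : ℤ) =
      (fun j => (((n - j : ℕ) : ℤ)) ^ j * ((trees (range (n - j))).card : ℤ)) J.card := by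
    intro J hJ
    rw [mem_powerset] at hJ
    have h4 := h (range n) J (by rw [card_range]; exact hn) hJ
    rw [h4, h2.2 (range n \ J) (range (n - J.card))
      (by rw [card_sdiff_of_subset hJ, card_range, card_range]), card_range]
    push_cast
    rfl
  have h5 : ∑ J ∈ (range n).powerset, (-1 : ℤ) ^ J.card *
      (((trees (range n)).filter (fun G => ∀ v ∈ J, deg G v = 1)).card : ℤ) = 0 := by
    have h6 : ∀ J ∈ (range n).powerset, (-1 : ℤ) ^ J.card *
        (((trees (range n)).filter (fun G => ∀ v ∈ J, deg G v = 1)).card : ℤ) =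
        ∑ G ∈ trees (range n), if (∀ v ∈ J, deg G v = 1) then (-1 : ℤ) ^ J.card else 0 := by
      intro J _
      rw [Finset.card_filter]
      push_cast
      rw [Finset.mul_sum]
      refine Finset.sum_congr rfl (fun G _ => ?_)
      split_ifs <;> simp
    rw [Finset.sum_congr rfl h6, Finset.sum_comm]
    refine Finset.sum_eq_zero (fun G hG => ?_)
    rw [← Finset.sum_filter]
    have h7 : (range n).powerset.filter (fun J => ∀ v ∈ J, deg G v = 1) =
        ((range n).filter (fun v => deg G v = 1)).powerset := by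
      ext J
      simp only [mem_filter, mem_powerset, subset_iff]
      constructor
      · rintro ⟨ha, hb⟩ v hv
        exact ⟨ha hv, hb v hv⟩
      · intro ha
        exact ⟨fun v hv => (ha hv).1, fun v hv => (ha hv).2⟩
    rw [h7]
    apply Finset.sum_powerset_neg_one_pow_card_of_nonempty
    obtain ⟨v, hv, hd⟩ := exists_leaf (by omega : 2 ≤ n) hG
    exact ⟨v, by rw [mem_filter]; exact ⟨hv, hd⟩⟩
  rw [Finset.sum_congr rfl (fun J hJ => by rw [h3 J hJ])] at h5
  have h8 := Finset.sum_powerset_apply_card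
    (fun j => (-1 : ℤ) ^ j * ((((n - j : ℕ) : ℤ)) ^ j * ((trees (range (n - j))).card : ℤ)))
    (x := range n)
  simp only [card_range] at h8
  rw [h8] at h5
  rw [← h5]
  refine Finset.sum_congr rfl (fun j _ => ?_)
  rw [nsmul_eq_mul]
  ring

lemma tr_one : (trees (range 1)).card = 1 := by
  rw [Finset.card_eq_one]
  refine ⟨⊥, ?_⟩
  ext G
  rw [mem_trees, mem_singleton]
  constructor
  · rintro ⟨hs, _, _⟩
    ext x y
    simp only [SimpleGraph.bot_adj, iff_false]
    intro hxy
    have hx : x ∈ (↑(range 1) : Set ℕ) := hs ⟨y, hxy⟩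
    have hy : y ∈ (↑(range 1) : Set ℕ) := hs ⟨x, hxy.symm⟩
    simp only [range_one, coe_singleton, Set.mem_singleton_iff] at hx hy
    exact hxy.ne (by rw [hx, hy])
  · rintro rfl
    refine ⟨by simp, ?_, ?_⟩
    · intro x hx y hy
      simp only [range_one, mem_singleton] at hx hy
      rw [hx, hy]
    · unfold ne
      simp

lemma tr_two : (trees (range 2)).card = 1 := by
  rw [Finset.card_eq_one]
  refine ⟨SimpleGraph.edge 0 1, ?_⟩
  ext G
  rw [mem_singleton]
  constructor
  · intro hG
    obtain ⟨v, hv, hd⟩ := exists_leaf (le_refl 2) hG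
    rw [mem_trees] at hG
    obtain ⟨hs, hr, hne⟩ := hG
    have h01 : G.Adj 0 1 := by
      unfold deg at hd
      rw [Set.ncard_eq_one] at hd
      obtain ⟨w, hw⟩ := hd
      have hvw : G.Adj v w := by
        have : w ∈ G.neighborSet v := by rw [hw]; rfl
        exact this
      have h1 : v ∈ (↑(range 2) : Set ℕ) := hs ⟨w, hvw⟩
      have h2 : w ∈ (↑(range 2) : Set ℕ) := hs ⟨v, hvw.symm⟩
      simp only [coe_range, Set.mem_Iio] at h1 h2
      have h3 := hvw.ne
      have h4 : (v = 0 ∧ w = 1) ∨ (v = 1 ∧ w = 0) := by omega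
      rcases h4 with ⟨rfl, rfl⟩ | ⟨rfl, rfl⟩
      · exact hvw
      · exact hvw.symm
    ext x y
    rw [SimpleGraph.edge_adj]
    constructor
    · intro hxy
      have h1 : x ∈ (↑(range 2) : Set ℕ) := hs ⟨y, hxy⟩
      have h2 : y ∈ (↑(range 2) : Set ℕ) := hs ⟨x, hxy.symm⟩
      simp only [coe_range, Set.mem_Iio] at h1 h2
      have h3 := hxy.ne
      refine ⟨?_, h3⟩
      omega
    · rintro ⟨⟨rfl, rfl⟩ | ⟨rfl, rfl⟩, _⟩
      · exact h01
      · exact h01.symm
  · rintro rfl
    rw [mem_trees]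
    have h01 : (SimpleGraph.edge 0 1 : SimpleGraph ℕ).Adj 0 1 := by
      rw [SimpleGraph.edge_adj]; exact ⟨Or.inl ⟨rfl, rfl⟩, by norm_num⟩
    refine ⟨?_, ?_, ?_⟩
    · rintro x ⟨y, hxy'⟩
      have hxy : (SimpleGraph.edge 0 1 : SimpleGraph ℕ).Adj x y := hxy'
      rw [SimpleGraph.edge_adj] at hxy
      simp only [coe_range, Set.mem_Iio]
      rcases hxy.1 with ⟨rfl, rfl⟩ | ⟨rfl, rfl⟩ <;> norm_num
    · intro x hx y hy
      rw [mem_range] at hx hy
      have hx' : x = 0 ∨ x = 1 := by omega
      have hy' : y = 0 ∨ y = 1 := by omega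
      rcases hx' with rfl | rfl <;> rcases hy' with rfl | rfl
      · rfl
      · exact h01.reachable
      · exact h01.symm.reachable
      · rfl
    · unfold ne
      rw [SimpleGraph.edgeSet_edge_of_ne (by norm_num)]
      simp

lemma tr (hr : S_relabel2) (hJ : S_JleafT) : ∀ n : ℕ, 1 ≤ n → (trees (range n)).card = n ^ (n - 2) := by
  intro n
  induction n using Nat.strong_induction_on with
  | _ n ih =>
    intro hn
    by_cases h1 : n = 1
    · subst h1; simpa using tr_one
    by_cases h2 : n = 2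
    · subst h2; simpa using tr_two
    have hn3 : 3 ≤ n := by omega
    have hie := incl_excl hJ hr hn3
    have halt := alt_sum n (by omega)
    have key : ∀ j ∈ range (n + 1), j ≠ 0 → (-1 : ℤ) ^ j * (n.choose j : ℤ) *
      ((((n - j : ℕ) : ℤ)) ^ j * ((trees (range (n - j))).card : ℤ)) =
      (-1 : ℤ) ^ j * (n.choose j : ℤ) * (((n - j : ℕ) : ℤ)) ^ (n - 2) := by
      intro j hj hj0
      rw [mem_range] at hj
      congr 1
      by_cases hjn : j = n
      · subst hjn
        simp only [Nat.sub_self, Nat.cast_zero]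
        rw [zero_pow hj0, zero_pow (by omega), zero_mul]
      · rw [ih (n - j) (by omega) (by omega)]
        push_cast
        by_cases hj1 : n - j = 1
        · rw [hj1]; simp
        · rw [← pow_add]
          congr 1
          omega
    rw [← Finset.add_sum_erase _ _ (show 0 ∈ range (n + 1) by simp)] at hie halt
    rw [Finset.sum_congr rfl (fun j hj => key j (Finset.mem_erase.mp hj).2
      (Finset.mem_erase.mp hj).1)] at hie
    have h5 : ((trees (range n)).card : ℤ) = (n : ℤ) ^ (n - 2) := by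
      simp only [pow_zero, Nat.choose_zero_right, Nat.cast_one, one_mul, Nat.sub_zero] at hie halt
      linarith
    exact_mod_cast h5

end PkgE7

theorem pkgE7 (h1 : S_relabel2) (h2 : S_JleafT) : S_cayley := by
  intro S hS
  rw [h1.2 S (range S.card) (by rw [card_range])]
  exact PkgE7.tr h1 h2 S.card hS

end GiantSurf57
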