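import Pool.Agent.GiantSurf57.Stmts
import Pool.Agent.GiantSurf57.Basic

/-!
# Package E9: removing a tree component
-/

open scoped Classical
open Finset

namespace GiantSurf57

namespace PkgE9

variable {S A B : Finset ℕ} {G T G0 : SimpleGraph ℕ}

theorem mem_trees : T ∈ trees A ↔
    T ∈ graphsOn A ∧ (∀ x ∈ A, ∀ y ∈ A, T.Reachable x y) ∧ ne T + 1 = A.card := by
  simp [trees]

theorem mem_grs {P : SimpleGraph ℕ → Prop} {t l : ℕ} : G ∈ grs P S t l ↔
    G ∈ graphsOn S ∧ P G ∧ tc G S = t ∧ ne G + t = S.card + l := by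
  simp [grs]

/-- Reachability inside a set closed under adjacency. -/
theorem reach_sup {G T : SimpleGraph ℕ} (C : Set ℕ) (hT : ∀ a b, T.Adj a b → a ∉ C)
    (hG : ∀ a b, G.Adj a b → a ∈ C → b ∈ C) {a b : ℕ} (ha : a ∈ C) (h : (G ⊔ T).Reachable a b) :
    G.Reachable a b ∧ b ∈ C := by
  obtain ⟨w⟩ := h
  induction w with
  | nil => exact ⟨SimpleGraph.Reachable.refl _, ha⟩
  | cons h _ ih =>
    rcases h with h | h
    · have := ih (hG _ _ h ha)
      exact ⟨h.reachable.trans this.1, this.2⟩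
    · exact absurd ha (hT _ _ h)

section Union

variable (hT : T ∈ graphsOn A) (hG0 : G0 ∈ graphsOn B) (hd : Disjoint A B)

include hT hG0 hd

theorem reach_left {a b : ℕ} (ha : a ∈ A) :
    (G0 ⊔ T).Reachable a b ↔ T.Reachable a b ∧ b ∈ A := by
  constructor
  · intro h
    rw [sup_comm] at h
    exact reach_sup (C := (A : Set ℕ)) (fun a b hab haA =>
      Finset.disjoint_left.mp hd haA (adj_mem_left hG0 hab))
      (fun a b hab _ => adj_mem_right hT hab) ha h
  · rintro ⟨h, _⟩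
    exact h.mono le_sup_right

theorem reach_right {a b : ℕ} (ha : a ∉ A) :
    (G0 ⊔ T).Reachable a b ↔ G0.Reachable a b ∧ b ∉ A := by
  constructor
  · intro h
    exact reach_sup (C := {x | x ∉ A}) (fun a b hab haA => haA (adj_mem_left hT hab))
      (fun a b hab _ hb => Finset.disjoint_left.mp hd hb (adj_mem_right hG0 hab)) ha h
  · rintro ⟨h, _⟩
    exact h.mono le_sup_left

theorem ne_union : ne (G0 ⊔ T) = ne G0 + ne T := by
  unfold ne
  rw [SimpleGraph.edgeSet_sup, Set.ncard_union_eq _ (edgeSet_finite hG0) (edgeSet_finite hT)]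
  rw [Set.disjoint_left]
  intro e he1 he2
  induction e with
  | h x y =>
    exact Finset.disjoint_left.mp hd (adj_mem_left hT he2) (adj_mem_left hG0 he1)

theorem neIn_left : neIn (G0 ⊔ T) A = ne T := by
  unfold neIn ne
  congr 1
  ext e
  induction e with
  | h x y =>
    simp only [Set.mem_ofPred_eq, SimpleGraph.mem_edgeSet, SimpleGraph.sup_adj, Sym2.mem_iff]
    constructor
    · rintro ⟨h | h, h2⟩
      · exact absurd (adj_mem_left hG0 h) (Finset.disjoint_left.mp hd (h2 x (Or.inl rfl)))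
      · exact h
    · intro h
      refine ⟨Or.inr h, ?_⟩
      rintro z (rfl | rfl)
      · exact adj_mem_left hT h
      · exact adj_mem_right hT h

theorem neIn_right {C : Finset ℕ} (hC : C ⊆ B) : neIn (G0 ⊔ T) C = neIn G0 C := by
  unfold neIn
  congr 1
  ext e
  induction e with
  | h x y =>
    simp only [Set.mem_ofPred_eq, SimpleGraph.mem_edgeSet, SimpleGraph.sup_adj, Sym2.mem_iff]
    constructor
    · rintro ⟨h | h, h2⟩
      · exact ⟨h, h2⟩
      · exact absurd (hC (h2 x (Or.inl rfl))) (Finset.disjoint_left.mp hd (adj_mem_left hT h))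
    · rintro ⟨h, h2⟩
      exact ⟨Or.inl h, h2⟩

theorem comps_union (hconn : ∀ x ∈ A, ∀ y ∈ A, T.Reachable x y) (hA : A.Nonempty) :
    comps (G0 ⊔ T) (A ∪ B) = insert A (comps G0 B) := by
  have h1 : ∀ x ∈ A, compOf (G0 ⊔ T) (A ∪ B) x = A := by
    intro x hx
    ext y
    simp only [compOf, Finset.mem_filter, Finset.mem_union]
    rw [reach_left hT hG0 hd hx]
    constructor
    · rintro ⟨_, _, h⟩
      exact h
    · intro hy
      exact ⟨Or.inl hy, hconn x hx y hy, hy⟩
  have h2 : ∀ x ∈ B, compOf (G0 ⊔ T) (A ∪ B) x = compOf G0 B x := by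
    intro x hx
    have hxA : x ∉ A := fun h => Finset.disjoint_left.mp hd h hx
    ext y
    simp only [compOf, Finset.mem_filter, Finset.mem_union]
    rw [reach_right hT hG0 hd hxA]
    constructor
    · rintro ⟨h | h, h3, h4⟩
      · exact absurd h h4
      · exact ⟨h, h3⟩
    · rintro ⟨h, h3⟩
      exact ⟨Or.inr h, h3, fun h' => Finset.disjoint_left.mp hd h' h⟩
  unfold comps
  rw [Finset.image_union]
  have e1 : A.image (compOf (G0 ⊔ T) (A ∪ B)) = {A} := by
    ext C
    simp only [Finset.mem_image, Finset.mem_singleton]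
    constructor
    · rintro ⟨x, hx, rfl⟩
      exact h1 x hx
    · rintro rfl
      obtain ⟨x, hx⟩ := hA
      exact ⟨x, hx, h1 x hx⟩
  have e2 : B.image (compOf (G0 ⊔ T) (A ∪ B)) = B.image (compOf G0 B) :=
    Finset.image_congr (fun x hx => h2 x hx)
  rw [e1, e2, Finset.insert_eq]

theorem comps_sub {C : Finset ℕ} (hC : C ∈ comps G0 B) : C ⊆ B ∧ C.Nonempty := by
  unfold comps at hC
  obtain ⟨x, hx, rfl⟩ := Finset.mem_image.mp hC
  refine ⟨Finset.filter_subset _ _, x, ?_⟩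
  simp only [compOf, Finset.mem_filter]
  exact ⟨hx, SimpleGraph.Reachable.refl _⟩

theorem tc_union (hconn : ∀ x ∈ A, ∀ y ∈ A, T.Reachable x y) (hA : A.Nonempty)
    (hn : ne T + 1 = A.card) : tc (G0 ⊔ T) (A ∪ B) = tc G0 B + 1 := by
  unfold tc
  rw [comps_union hT hG0 hd hconn hA, Finset.filter_insert, if_pos]
  · have e : (comps G0 B).filter (fun A => neIn (G0 ⊔ T) A + 1 = A.card) =
        (comps G0 B).filter (fun A => neIn G0 A + 1 = A.card) := by
      apply Finset.filter_congr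
      intro C hC
      rw [neIn_right hT hG0 hd (comps_sub hT hG0 hd hC).1]
    rw [e, Finset.card_insert_of_notMem]
    intro h
    have h2 := (comps_sub hT hG0 hd (Finset.mem_filter.mp h).1).1
    obtain ⟨x, hx⟩ := hA
    exact Finset.disjoint_left.mp hd hx (h2 hx)
  · rw [neIn_left hT hG0 hd]
    exact hn

end Union

/-- Restriction to a set. -/
def restr (G : SimpleGraph ℕ) (C : Set ℕ) : SimpleGraph ℕ where
  Adj x y := G.Adj x y ∧ x ∈ C ∧ y ∈ C
  symm := ⟨fun _ _ h => ⟨h.1.symm, h.2.2, h.2.1⟩⟩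
  loopless := ⟨fun _ h => G.loopless.irrefl _ h.1⟩

theorem restr_le (G : SimpleGraph ℕ) (C : Set ℕ) : restr G C ≤ G := fun _ _ h => h.1

theorem restr_union_left (hT : T ∈ graphsOn A) (hG0 : G0 ∈ graphsOn B) (hd : Disjoint A B) :
    restr (G0 ⊔ T) (A : Set ℕ) = T := by
  ext x y
  change (G0 ⊔ T).Adj x y ∧ x ∈ (A : Set ℕ) ∧ y ∈ (A : Set ℕ) ↔ T.Adj x y
  rw [SimpleGraph.sup_adj]
  constructor
  · rintro ⟨h | h, h2, _⟩
    · exact absurd (adj_mem_left hG0 h) (Finset.disjoint_left.mp hd h2)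
    · exact h
  · intro h
    exact ⟨Or.inr h, adj_mem_left hT h, adj_mem_right hT h⟩

theorem restr_union_right (hT : T ∈ graphsOn A) (hG0 : G0 ∈ graphsOn B) (hd : Disjoint A B) :
    restr (G0 ⊔ T) ((A : Set ℕ)ᶜ) = G0 := by
  ext x y
  change (G0 ⊔ T).Adj x y ∧ x ∈ (A : Set ℕ)ᶜ ∧ y ∈ (A : Set ℕ)ᶜ ↔ G0.Adj x y
  rw [SimpleGraph.sup_adj]
  constructor
  · rintro ⟨h | h, h2, _⟩
    · exact h
    · exact absurd (adj_mem_left hT h) h2
  · intro h
    exact ⟨Or.inl h, fun h' => Finset.disjoint_left.mp hd h' (adj_mem_left hG0 h),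
      fun h' => Finset.disjoint_left.mp hd h' (adj_mem_right hG0 h)⟩

theorem mem_comp_closed (hG : G ∈ graphsOn S) (hA : A ∈ comps G S) {a b : ℕ} (h : G.Adj a b) :
    a ∈ A ↔ b ∈ A := by
  unfold comps at hA
  obtain ⟨x, hx, rfl⟩ := Finset.mem_image.mp hA
  simp only [compOf, Finset.mem_filter]
  constructor
  · rintro ⟨h1, h2⟩
    exact ⟨adj_mem_right hG h, h2.trans h.reachable⟩
  · rintro ⟨h1, h2⟩
    exact ⟨adj_mem_left hG h, h2.trans h.symm.reachable⟩

theorem decomp (hG : G ∈ graphsOn S) (hA : A ∈ comps G S) :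
    restr G ((A : Set ℕ)ᶜ) ⊔ restr G (A : Set ℕ) = G := by
  ext x y
  rw [SimpleGraph.sup_adj]
  change (G.Adj x y ∧ x ∈ (A : Set ℕ)ᶜ ∧ y ∈ (A : Set ℕ)ᶜ) ∨
    (G.Adj x y ∧ x ∈ (A : Set ℕ) ∧ y ∈ (A : Set ℕ)) ↔ G.Adj x y
  constructor
  · rintro (h | h) <;> exact h.1
  · intro h
    have := mem_comp_closed hG hA h
    by_cases hx : x ∈ A
    · exact Or.inr ⟨h, hx, this.mp hx⟩
    · exact Or.inl ⟨h, hx, fun hy => hx (this.mpr hy)⟩

theorem restr_compl_mem (hG : G ∈ graphsOn S) : restr G ((A : Set ℕ)ᶜ) ∈ graphsOn (S \ A) := by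
  rw [mem_graphsOn_iff]
  intro x y h
  exact ⟨Finset.mem_sdiff.mpr ⟨adj_mem_left hG h.1, h.2.1⟩,
    Finset.mem_sdiff.mpr ⟨adj_mem_right hG h.1, h.2.2⟩⟩

theorem restr_mem : restr G (A : Set ℕ) ∈ graphsOn A := by
  rw [mem_graphsOn_iff]
  intro x y h
  exact ⟨h.2.1, h.2.2⟩

theorem comp_sub (hA : A ∈ comps G S) : A ⊆ S ∧ A.Nonempty := by
  unfold comps at hA
  obtain ⟨x, hx, rfl⟩ := Finset.mem_image.mp hA
  refine ⟨Finset.filter_subset _ _, x, ?_⟩
  simp only [compOf, Finset.mem_filter]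
  exact ⟨hx, SimpleGraph.Reachable.refl _⟩

theorem restr_tree (hG : G ∈ graphsOn S) (hA : A ∈ comps G S) (hn : neIn G A + 1 = A.card) :
    restr G (A : Set ℕ) ∈ trees A := by
  have hdec := decomp hG hA
  have hT : restr G (A : Set ℕ) ∈ graphsOn A := restr_mem
  have hG0 : restr G ((A : Set ℕ)ᶜ) ∈ graphsOn (S \ A) := restr_compl_mem hG
  have hd : Disjoint A (S \ A) := Finset.disjoint_sdiff
  rw [mem_trees]
  refine ⟨hT, ?_, ?_⟩
  · intro x hx y hy
    have hxy : G.Reachable x y := by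
      unfold comps at hA
      obtain ⟨z, hz, rfl⟩ := Finset.mem_image.mp hA
      simp only [compOf, Finset.mem_filter] at hx hy
      exact hx.2.symm.trans hy.2
    rw [← hdec] at hxy
    exact ((reach_left hT hG0 hd hx).mp hxy).1
  · have := neIn_left hT hG0 hd
    rw [hdec] at this
    rw [← this]
    exact hn

end PkgE9

open PkgE9 in
theorem pkgE9 (h1 : S_relabel2) (h2 : S_cayley) (h3 : S_treeJoin) : S_decT := by
  intro P hP n t l
  set S := range n with hS
  -- the two families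
  let X : Finset (Σ _ : SimpleGraph ℕ, Finset ℕ) := (grs P S (t + 1) l).sigma
    (fun G => (comps G S).filter (fun A => neIn G A + 1 = A.card))
  let Y : Finset (Σ _ : Finset ℕ, SimpleGraph ℕ × SimpleGraph ℕ) :=
    (S.powerset.filter (fun A => A.Nonempty)).sigma
    (fun A => trees A ×ˢ grs P (S \ A) t l)
  have hX : X.card = (t + 1) * cnt P n (t + 1) l := by
    rw [Finset.card_sigma]
    have : ∀ G ∈ grs P S (t + 1) l,
        ((comps G S).filter (fun A => neIn G A + 1 = A.card)).card = t + 1 := by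
      intro G hG
      exact (mem_grs.mp hG).2.2.1
    rw [Finset.sum_congr rfl this, Finset.sum_const, smul_eq_mul, mul_comm]
    rfl
  have hY : Y.card = ∑ s ∈ Icc 1 n, n.choose s * s ^ (s - 2) * cnt P (n - s) t l := by
    rw [Finset.card_sigma]
    have e1 : ∀ A ∈ S.powerset.filter (fun A => A.Nonempty),
        (trees A ×ˢ grs P (S \ A) t l).card = A.card ^ (A.card - 2) * cnt P (n - A.card) t l := by
      intro A hA
      obtain ⟨hAS, hAn⟩ := Finset.mem_filter.mp hA
      have hAS := Finset.mem_powerset.mp hAS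
      rw [Finset.card_product, h2 A hAn.card_pos]
      congr 1
      refine h1.1 P hP _ _ t l ?_
      rw [Finset.card_sdiff_of_subset hAS, hS, Finset.card_range, Finset.card_range]
    rw [Finset.sum_congr rfl e1]
    have e2 : S.powerset.filter (fun A => A.Nonempty) =
        (Icc 1 n).biUnion (fun s => S.powersetCard s) := by
      ext A
      simp only [Finset.mem_filter, Finset.mem_powerset, Finset.mem_biUnion, Finset.mem_Icc,
        Finset.mem_powersetCard]
      constructor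
      · rintro ⟨h, h'⟩
        refine ⟨A.card, ⟨h'.card_pos, ?_⟩, h, rfl⟩
        have := Finset.card_le_card h
        rwa [hS, Finset.card_range] at this
      · rintro ⟨s, ⟨hs, _⟩, h, rfl⟩
        exact ⟨h, Finset.card_pos.mp hs⟩
    rw [e2, Finset.sum_biUnion]
    · apply Finset.sum_congr rfl
      intro s _
      have e3 : ∀ A ∈ S.powersetCard s, A.card ^ (A.card - 2) * cnt P (n - A.card) t l =
          s ^ (s - 2) * cnt P (n - s) t l := by
        intro A hA
        rw [(Finset.mem_powersetCard.mp hA).2]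
      rw [Finset.sum_congr rfl e3, Finset.sum_const, Finset.card_powersetCard, smul_eq_mul, hS,
        Finset.card_range, mul_assoc]
    · intro s _ s' _ hss
      rw [Function.onFun, Finset.disjoint_left]
      intro A hA hA'
      exact hss ((Finset.mem_powersetCard.mp hA).2.symm.trans (Finset.mem_powersetCard.mp hA').2)
  rw [← hX, ← hY]
  refine Finset.card_bij' (fun p _ => ⟨p.2, (restr p.1 (p.2 : Set ℕ), restr p.1 ((p.2 : Set ℕ)ᶜ))⟩)
    (fun q _ => ⟨q.2.2 ⊔ q.2.1, q.1⟩) ?_ ?_ ?_ ?_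
  · rintro ⟨G, A⟩ hp
    obtain ⟨hG, hA⟩ := Finset.mem_sigma.mp hp
    obtain ⟨hG1, hG2, hG3, hG4⟩ := mem_grs.mp hG
    obtain ⟨hA1, hA2⟩ := Finset.mem_filter.mp hA
    replace hA1 : A ∈ comps G S := hA1
    replace hA2 : neIn G A + 1 = A.card := hA2
    replace hG1 : G ∈ graphsOn S := hG1
    replace hG3 : tc G S = t + 1 := hG3
    replace hG4 : ne G + (t + 1) = S.card + l := hG4
    have hAS := comp_sub hA1
    have htree := restr_tree hG1 hA1 hA2
    have hT : restr G (A : Set ℕ) ∈ graphsOn A := restr_mem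
    have hG0 : restr G ((A : Set ℕ)ᶜ) ∈ graphsOn (S \ A) := restr_compl_mem hG1
    have hd : Disjoint A (S \ A) := Finset.disjoint_sdiff
    have hdec := decomp hG1 hA1
    obtain ⟨_, hconn, hn⟩ := mem_trees.mp htree
    have htc := tc_union hT hG0 hd hconn hAS.2 hn
    have hne := ne_union hT hG0 hd
    rw [hdec, Finset.union_sdiff_of_subset hAS.1] at htc
    rw [hdec] at hne
    have hcard := Finset.card_sdiff_add_card_eq_card hAS.1
    refine Finset.mem_sigma.mpr ⟨Finset.mem_filter.mpr ⟨Finset.mem_powerset.mpr hAS.1, hAS.2⟩, ?_⟩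
    refine Finset.mem_product.mpr ⟨htree, mem_grs.mpr ⟨hG0, ?_, ?_, ?_⟩⟩
    · exact hP.mono _ G (edgeSet_finite hG1) (restr_le _ _) hG2
    · change tc (restr G ((A : Set ℕ)ᶜ)) (S \ A) = t
      omega
    · change ne (restr G ((A : Set ℕ)ᶜ)) + t = (S \ A).card + l
      omega
  · rintro ⟨A, T, G0⟩ hq
    obtain ⟨hA, hTG⟩ := Finset.mem_sigma.mp hq
    obtain ⟨hAS, hAn⟩ := Finset.mem_filter.mp hA
    replace hAS : A ⊆ S := Finset.mem_powerset.mp hAS
    replace hAn : A.Nonempty := hAn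
    obtain ⟨hTt, hG0g⟩ := Finset.mem_product.mp hTG
    replace hTt : T ∈ trees A := hTt
    replace hG0g : G0 ∈ grs P (S \ A) t l := hG0g
    obtain ⟨hT, hconn, hn⟩ := mem_trees.mp hTt
    obtain ⟨hG0, hPG, htc0, hne0⟩ := mem_grs.mp hG0g
    have hd : Disjoint A (S \ A) := Finset.disjoint_sdiff
    have htc := tc_union hT hG0 hd hconn hAn hn
    have hne := ne_union hT hG0 hd
    rw [Finset.union_sdiff_of_subset hAS] at htc
    have hcard := Finset.card_sdiff_add_card_eq_card hAS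
    have hcomps := comps_union hT hG0 hd hconn hAn
    rw [Finset.union_sdiff_of_subset hAS] at hcomps
    refine Finset.mem_sigma.mpr ⟨mem_grs.mpr ⟨?_, ?_, ?_, ?_⟩, ?_⟩
    · change G0 ⊔ T ∈ graphsOn S
      rw [mem_graphsOn_iff]
      intro x y h
      rcases h with h | h
      · exact ⟨(Finset.mem_sdiff.mp (adj_mem_left hG0 h)).1,
          (Finset.mem_sdiff.mp (adj_mem_right hG0 h)).1⟩
      · exact ⟨hAS (adj_mem_left hT h), hAS (adj_mem_right hT h)⟩
    · exact h3 P hP (S \ A) A G0 T hG0 hd.symm hTt hPG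
    · change tc (G0 ⊔ T) S = t + 1
      omega
    · change ne (G0 ⊔ T) + (t + 1) = S.card + l
      omega
    · refine Finset.mem_filter.mpr ⟨?_, ?_⟩
      · change A ∈ comps (G0 ⊔ T) S
        rw [hcomps]
        exact Finset.mem_insert_self _ _
      · change neIn (G0 ⊔ T) A + 1 = A.card
        rw [neIn_left hT hG0 hd]
        exact hn
  · rintro ⟨G, A⟩ hp
    obtain ⟨hG, hA⟩ := Finset.mem_sigma.mp hp
    obtain ⟨hG1, _⟩ := mem_grs.mp hG
    obtain ⟨hA1, _⟩ := Finset.mem_filter.mp hA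
    have hdec := decomp hG1 hA1
    change (⟨restr G ((A : Set ℕ)ᶜ) ⊔ restr G (A : Set ℕ), A⟩ : Σ _ : SimpleGraph ℕ, Finset ℕ) =
      ⟨G, A⟩
    rw [hdec]
  · rintro ⟨A, T, G0⟩ hq
    obtain ⟨hA, hTG⟩ := Finset.mem_sigma.mp hq
    obtain ⟨hTt, hG0g⟩ := Finset.mem_product.mp hTG
    obtain ⟨hT, _⟩ := mem_trees.mp hTt
    obtain ⟨hG0, _⟩ := mem_grs.mp hG0g
    have hd : Disjoint A (S \ A) := Finset.disjoint_sdiff
    change (⟨A, (restr (G0 ⊔ T) (A : Set ℕ), restr (G0 ⊔ T) ((A : Set ℕ)ᶜ))⟩ :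
      Σ _ : Finset ℕ, SimpleGraph ℕ × SimpleGraph ℕ) = ⟨A, (T, G0)⟩
    rw [restr_union_left hT hG0 hd, restr_union_right hT hG0 hd]

end GiantSurf57
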