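import Pool.Agent.GiantSurf57.StmtsTop

/-! Packages F1 and F2: bounds for `BB`. -/

open scoped Classical
open Finset

namespace GiantSurf57

namespace PkgF1

theorem pois_nonneg (n j : ℕ) : 0 ≤ pois n j := by unfold pois; positivity

theorem bt_nonneg (n k : ℕ) : 0 ≤ bt n k := by
  unfold bt
  have := pois_nonneg n (n - k)
  positivity

theorem pois_succ (n i : ℕ) : ((i : ℝ) + 1) * pois n (i + 1) = n * pois n i := by
  unfold pois
  have h : (((i + 1).factorial : ℕ) : ℝ) = ((i : ℝ) + 1) * (i.factorial : ℝ) := by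
    rw [Nat.factorial_succ]; push_cast; ring
  have hf : (0 : ℝ) < (i.factorial : ℝ) := by exact_mod_cast i.factorial_pos
  rw [h, pow_succ]
  field_simp

theorem sum_pois_le (n m : ℕ) : ∑ i ∈ range m, pois n i ≤ 1 := by
  have h := Real.sum_le_exp_of_nonneg (x := (n : ℝ)) (Nat.cast_nonneg n) m
  have h1 : ∑ i ∈ range m, pois n i = (∑ i ∈ range m, (n : ℝ) ^ i / (i.factorial : ℝ)) * Real.exp (-(n : ℝ)) := by
    rw [Finset.sum_mul]
    refine Finset.sum_congr rfl (fun i _ => ?_)
    unfold pois; ring
  rw [h1, Real.exp_neg, ← div_eq_mul_inv, div_le_one (Real.exp_pos _)]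
  exact h

/-- Abel summation for `BB`. -/
theorem BB_eq (n : ℕ) (hn : 1 ≤ n) : ∀ r : ℕ, r ≤ n →
    BB (n - r) n = ((n - r : ℕ) : ℝ) * pois n r + ∑ i ∈ range r, pois n i := by
  have hn0 : (n : ℝ) ≠ 0 := by
    have : n ≠ 0 := by omega
    exact_mod_cast this
  intro r
  induction r with
  | zero =>
    intro _
    simp only [Nat.sub_zero, BB, Finset.Icc_self, Finset.sum_singleton, Finset.range_zero,
      Finset.sum_empty, add_zero, bt, Nat.sub_self]
    field_simp
  | succ r ih =>
    intro hr
    have ih' := ih (by omega)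
    obtain ⟨j, hj⟩ : ∃ j, n = j + (r + 1) := ⟨n - (r + 1), by omega⟩
    have e1 : n - (r + 1) = j := by omega
    have e2 : n - r = j + 1 := by omega
    rw [e2] at ih'
    rw [e1]
    have hsplit : BB j n = (j : ℝ) * bt n j + BB (j + 1) n := by
      unfold BB
      rw [← Finset.add_sum_Ioc_eq_sum_Icc (by omega)]
      congr 1
      exact Finset.sum_congr (by ext x; simp only [Finset.mem_Ioc, Finset.mem_Icc]; omega)
        (fun _ _ => rfl)
    rw [hsplit, ih', Finset.sum_range_succ]
    have hb : (j : ℝ) * bt n j = (j : ℝ) * (pois n (r + 1) - pois n r) := by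
      unfold bt
      have e3 : n - j = r + 1 := by omega
      rw [e3]
      have hp := pois_succ n r
      have hjn : (j : ℝ) = n - (r + 1) := by rw [hj]; push_cast; ring
      have : (j : ℝ) / n * pois n (r + 1) = pois n (r + 1) - pois n r := by
        rw [hjn]
        field_simp
        linarith
      rw [this]
    rw [hb]
    push_cast
    ring

theorem BB_mono (j j' n : ℕ) (h : j ≤ j') : BB j' n ≤ BB j n := by
  unfold BB
  apply Finset.sum_le_sum_of_subset_of_nonneg
  · exact Finset.Icc_subset_Icc_left h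
  · intro i _ _
    have := bt_nonneg n i
    positivity

theorem BB_le_one (j n : ℕ) (hn : 1 ≤ n) : BB j n ≤ 1 := by
  have h0 := BB_eq n hn n le_rfl
  rw [Nat.sub_self] at h0
  have h1 := BB_mono 0 j n (Nat.zero_le j)
  have h2 := sum_pois_le n n
  rw [h0] at h1
  simp at h1
  linarith

end PkgF1

theorem pkgF1 : S_BB1 := ⟨1, fun j n _ hn => PkgF1.BB_le_one j n hn⟩

end GiantSurf57
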