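import Pool.Agent.GiantSurf57.StmtsTop

open scoped Classical
open Finset

namespace GiantSurf57

namespace PkgF10

theorem ff_succ (t v : ℕ) :
    ff (t + 1) v = (∑ s ∈ range (v + 1), pp s * ff t (v - s)) / ((t : ℝ) + 1) := rfl

theorem ff_zero (v : ℕ) : ff 0 v = if v = 0 then 1 else 0 := rfl

theorem tpos (t : ℕ) : (0 : ℝ) < (t : ℝ) + 1 := by positivity

theorem mul_ff_succ (t v : ℕ) :
    ((t : ℝ) + 1) * ff (t + 1) v = ∑ s ∈ range (v + 1), pp s * ff t (v - s) := by
  rw [ff_succ, mul_div_cancel₀ _ (tpos t).ne']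

theorem ff_nonneg (h0 : ∀ s, 0 ≤ pp s) : ∀ t v, 0 ≤ ff t v := by
  intro t
  induction t with
  | zero =>
    intro v
    rw [ff_zero]
    split_ifs <;> norm_num
  | succ t ih =>
    intro v
    rw [ff_succ]
    exact div_nonneg (Finset.sum_nonneg fun s _ => mul_nonneg (h0 s) (ih _)) (tpos t).le

theorem ff_eq_zero (h0 : pp 0 = 0) : ∀ t v : ℕ, v < t → ff t v = 0 := by
  intro t
  induction t with
  | zero =>
    intro v hv
    omega
  | succ t ih =>
    intro v hv
    rw [ff_succ]
    have : ∑ s ∈ range (v + 1), pp s * ff t (v - s) = 0 := by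
      apply Finset.sum_eq_zero
      intro s hs
      rw [Finset.mem_range] at hs
      rcases Nat.eq_zero_or_pos s with h | h
      · subst h
        rw [h0, zero_mul]
      · rw [ih (v - s) (by omega), mul_zero]
    rw [this, zero_div]

theorem ff_diag (h0 : pp 0 = 0) (h1 : pp 1 = Real.exp (-1)) :
    ∀ t : ℕ, ff t t = Real.exp (-(t : ℝ)) / (t.factorial : ℝ) := by
  intro t
  induction t with
  | zero => simp [ff_zero]
  | succ t ih =>
    rw [ff_succ]
    have h2 : ∑ s ∈ range (t + 1 + 1), pp s * ff t (t + 1 - s) = pp 1 * ff t t := by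
      rw [Finset.sum_eq_single 1]
      · simp
      · intro s hs hs1
        rw [Finset.mem_range] at hs
        rcases Nat.eq_zero_or_pos s with h | h
        · subst h
          rw [h0, zero_mul]
        · rw [ff_eq_zero h0 t (t + 1 - s) (by omega), mul_zero]
      · intro h
        exfalso
        apply h
        rw [Finset.mem_range]
        omega
    rw [h2, h1, ih, Nat.factorial_succ]
    push_cast
    have h3 : Real.exp (-((t : ℝ) + 1)) = Real.exp (-1) * Real.exp (-(t : ℝ)) := by
      rw [← Real.exp_add]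
      ring_nf
    rw [h3]
    have h4 : (t.factorial : ℝ) ≠ 0 := by positivity
    have h5 := (tpos t).ne'
    field_simp

theorem ff_step (h : S_pp) : ∀ t v : ℕ, t < v → ff t v ≤ t * ff t (v - 1) := by
  obtain ⟨hn, h0, h1, hdec, -, -⟩ := h
  intro t
  induction t with
  | zero =>
    intro v hv
    rw [ff_zero, if_neg (by omega)]
    simp
  | succ t ih =>
    intro v hv
    obtain ⟨u, rfl⟩ : ∃ u, v = u + 2 := ⟨v - 2, by omega⟩
    have e1 := mul_ff_succ t (u + 2)
    have e2 := mul_ff_succ t (u + 1)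
    have hf := ff_nonneg hn
    -- split the sum
    rw [Finset.sum_range_succ', Finset.sum_range_succ'] at e1
    rw [h0, zero_mul, add_zero] at e1
    rw [Finset.sum_range_succ', h0, zero_mul, add_zero] at e2
    have k1 : ∑ k ∈ range (u + 1), pp (k + 1 + 1) * ff t (u + 2 - (k + 1 + 1)) ≤
        ∑ k ∈ range (u + 1), pp (k + 1) * ff t (u + 1 - (k + 1)) := by
      apply Finset.sum_le_sum
      intro k _
      have h3 : u + 2 - (k + 1 + 1) = u + 1 - (k + 1) := by omega
      rw [h3]
      exact mul_le_mul_of_nonneg_right (hdec (k + 1) (by omega)) (hf _ _)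
    have k2 : pp (0 + 1) * ff t (u + 2 - (0 + 1)) ≤
        t * ∑ k ∈ range (u + 1), pp (k + 1) * ff t (u + 1 - (k + 1)) := by
      have h4 : ff t (u + 2 - (0 + 1)) ≤ t * ff t u := by
        have := ih (u + 1) (by omega)
        simpa using this
      have h5 : pp (0 + 1) * ff t (u + 1 - (0 + 1)) ≤
          ∑ k ∈ range (u + 1), pp (k + 1) * ff t (u + 1 - (k + 1)) :=
        Finset.single_le_sum (f := fun k => pp (k + 1) * ff t (u + 1 - (k + 1)))
          (fun k _ => mul_nonneg (hn _) (hf _ _)) (by simp)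
      calc pp (0 + 1) * ff t (u + 2 - (0 + 1)) ≤ pp (0 + 1) * (t * ff t u) :=
            mul_le_mul_of_nonneg_left h4 (hn _)
        _ = t * (pp (0 + 1) * ff t (u + 1 - (0 + 1))) := by
            simp only [Nat.add_sub_cancel, zero_add]
            ring
        _ ≤ _ := mul_le_mul_of_nonneg_left h5 (Nat.cast_nonneg t)
    have hv1 : u + 2 - 1 = u + 1 := by omega
    rw [hv1]
    have hk : ((t : ℝ) + 1) * ff (t + 1) (u + 2) ≤
        ((t : ℝ) + 1) * (((t : ℝ) + 1) * ff (t + 1) (u + 1)) := by
      rw [e1, e2]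
      linarith
    have := le_of_mul_le_mul_left hk (tpos t)
    push_cast
    exact this

/-- the operator `n ↦ n aₙ` on sequences -/
noncomputable def D (φ : PowerSeries ℝ) : PowerSeries ℝ :=
  PowerSeries.mk fun n => (n : ℝ) * PowerSeries.coeff n φ

theorem D_mul (φ ψ : PowerSeries ℝ) : D (φ * ψ) = D φ * ψ + φ * D ψ := by
  ext n
  simp only [D, PowerSeries.coeff_mk, map_add, PowerSeries.coeff_mul]
  rw [Finset.mul_sum, ← Finset.sum_add_distrib]
  apply Finset.sum_congr rfl
  intro p hp
  rw [Finset.HasAntidiagonal.mem_antidiagonal] at hp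
  rw [← hp]
  push_cast
  ring

theorem D_smul (c : ℝ) (φ : PowerSeries ℝ) : D (c • φ) = c • D φ := by
  ext n
  simp only [D, PowerSeries.coeff_mk, PowerSeries.coeff_smul, smul_eq_mul]
  ring

theorem ff_series (t : ℕ) : PowerSeries.mk pp * PowerSeries.mk (ff t) =
    ((t : ℝ) + 1) • PowerSeries.mk (ff (t + 1)) := by
  ext n
  simp only [PowerSeries.coeff_mul, PowerSeries.coeff_mk, PowerSeries.coeff_smul, smul_eq_mul]
  rw [mul_ff_succ, Finset.Nat.sum_antidiagonal_eq_sum_range_succ (fun i j => pp i * ff t j)]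

theorem D_ff (t : ℕ) : D (PowerSeries.mk (ff (t + 1))) =
    D (PowerSeries.mk pp) * PowerSeries.mk (ff t) := by
  induction t with
  | zero =>
    have h0 : PowerSeries.mk (ff 0) = (1 : PowerSeries ℝ) := by
      ext n
      simp only [PowerSeries.coeff_mk, PowerSeries.coeff_one, ff_zero]
    have h1 := ff_series 0
    rw [h0, mul_one] at h1
    rw [h0, mul_one, h1]
    simp
  | succ t ih =>
    have h1 := congrArg D (ff_series (t + 1))
    rw [D_mul, D_smul, ih] at h1
    have h2 : PowerSeries.mk pp * (D (PowerSeries.mk pp) * PowerSeries.mk (ff t)) =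
        ((t : ℝ) + 1) • (D (PowerSeries.mk pp) * PowerSeries.mk (ff (t + 1))) := by
      rw [mul_left_comm, ff_series, mul_smul_comm]
    rw [h2] at h1
    have h3 : D (PowerSeries.mk pp) * PowerSeries.mk (ff (t + 1)) +
        ((t : ℝ) + 1) • (D (PowerSeries.mk pp) * PowerSeries.mk (ff (t + 1))) =
        (((t + 1 : ℕ) : ℝ) + 1) • (D (PowerSeries.mk pp) * PowerSeries.mk (ff (t + 1))) := by
      nth_rw 1 [← one_smul ℝ (D (PowerSeries.mk pp) * PowerSeries.mk (ff (t + 1)))]
      rw [← add_smul]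
      congr 1
      push_cast
      ring
    rw [h3] at h1
    exact (smul_right_injective _ (tpos (t + 1)).ne' h1).symm

theorem ff_sum (hn : ∀ s, 0 ≤ pp s) (hs : ∀ N : ℕ, ∑ s ∈ range N, pp s ≤ 1) :
    ∀ t N : ℕ, ∑ v ∈ range N, ff t v ≤ 1 / (t.factorial : ℝ) := by
  intro t
  induction t with
  | zero =>
    intro N
    simp only [ff_zero, Finset.sum_ite_eq', Nat.factorial_zero, Nat.cast_one, div_one]
    split_ifs <;> norm_num
  | succ t ih =>
    intro N
    have h1 : ((t : ℝ) + 1) * ∑ v ∈ range N, ff (t + 1) v ≤ 1 / (t.factorial : ℝ) := by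
      rw [Finset.mul_sum]
      simp only [mul_ff_succ]
      rw [Finset.sum_range_diag_flip N (fun s u => pp s * ff t u)]
      calc ∑ m ∈ range N, ∑ k ∈ range (N - m), pp m * ff t k
          ≤ ∑ m ∈ range N, pp m * (1 / (t.factorial : ℝ)) := by
            apply Finset.sum_le_sum
            intro m _
            rw [← Finset.mul_sum]
            exact mul_le_mul_of_nonneg_left (ih _) (hn m)
        _ = (∑ m ∈ range N, pp m) * (1 / (t.factorial : ℝ)) := by rw [Finset.sum_mul]
        _ ≤ 1 * (1 / (t.factorial : ℝ)) :=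
            mul_le_mul_of_nonneg_right (hs N) (by positivity)
        _ = _ := one_mul _
    rw [Nat.factorial_succ]
    push_cast
    rw [← div_div, div_right_comm, le_div_iff₀ (tpos t), mul_comm]
    exact h1

end PkgF10

open PkgF10 in
theorem pkgF10 (h : S_pp) : S_ff := by
  refine ⟨ff_nonneg h.1, ff_eq_zero h.2.1, ff_diag h.2.1 h.2.2.1, ff_step h, ?_,
    ff_sum h.1 h.2.2.2.2.1⟩
  intro t v
  have h1 := congrArg (PowerSeries.coeff v) (D_ff t)
  simp only [D, PowerSeries.coeff_mk, PowerSeries.coeff_mul] at h1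
  rw [h1, Finset.Nat.sum_antidiagonal_eq_sum_range_succ (fun i j => ((i : ℝ) * pp i) * ff t j)]

end GiantSurf57
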