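import Pool.Agent.GiantSurf57.StmtsTop

open scoped Classical
open Finset

namespace GiantSurf57

namespace PkgF11

/-- reindexing of a double sum -/
theorem conv (F : ℕ → ℕ → ℝ) (n : ℕ) :
    ∑ v ∈ range (n + 1), ∑ s ∈ range (v + 1), F s (v - s) =
      ∑ v ∈ range (n + 1), ∑ s ∈ range (n - v + 1), F s v := by
  rw [Finset.sum_sigma', Finset.sum_sigma']
  refine Finset.sum_bij' (fun p _ => ⟨p.1 - p.2, p.2⟩) (fun p _ => ⟨p.1 + p.2, p.2⟩) ?_ ?_ ?_ ?_ ?_
  · rintro ⟨v, s⟩ h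
    simp only [mem_sigma, mem_range] at h ⊢
    omega
  · rintro ⟨v, s⟩ h
    simp only [mem_sigma, mem_range] at h ⊢
    omega
  · rintro ⟨v, s⟩ h
    simp only [mem_sigma, mem_range] at h
    have : v - s + s = v := by omega
    simp only [this]
  · rintro ⟨v, s⟩ h
    have : v + s - s = v := by omega
    simp only [this]
  · rintro ⟨v, s⟩ h
    rfl

theorem ff_succ (t v : ℕ) :
    ((t : ℝ) + 1) * ff (t + 1) v = ∑ s ∈ range (v + 1), pp s * ff t (v - s) := by
  have h : ff (t + 1) v = (∑ s ∈ range (v + 1), pp s * ff t (v - s)) / ((t : ℝ) + 1) := rfl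
  rw [h]
  have : (t : ℝ) + 1 ≠ 0 := by positivity
  field_simp

/-- the recursion for `aa` -/
theorem aa_succ (c : ℕ → ℝ) (t n : ℕ) : ((t : ℝ) + 1) * aa c (t + 1) n =
    ∑ v ∈ range (n + 1), ff t v * ∑ s ∈ range (n - v + 1), pp s * c (n - v - s) := by
  have h1 := conv (fun s v => pp s * ff t v * c (n - v - s)) n
  have h2 : ((t : ℝ) + 1) * aa c (t + 1) n =
      ∑ v ∈ range (n + 1), ∑ s ∈ range (v + 1), pp s * ff t (v - s) * c (n - (v - s) - s) := by
    rw [aa, Finset.mul_sum]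
    refine Finset.sum_congr rfl fun v _ => ?_
    rw [← mul_assoc, ff_succ, Finset.sum_mul]
    refine Finset.sum_congr rfl fun s hs => ?_
    have := mem_range.mp hs
    have e : n - (v - s) - s = n - v := by omega
    rw [e]
  rw [h2, h1]
  refine Finset.sum_congr rfl fun v _ => ?_
  rw [Finset.mul_sum]
  refine Finset.sum_congr rfl fun s _ => ?_
  ring

/-- the weighted version -/
theorem vaa_succ (hff : S_ff) (c : ℕ → ℝ) (t n : ℕ) :
    ∑ v ∈ range (n + 1), (v : ℝ) * (ff (t + 1) v * c (n - v)) =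
    ∑ v ∈ range (n + 1), ff t v * ∑ s ∈ range (n - v + 1), (s : ℝ) * pp s * c (n - v - s) := by
  have h1 := conv (fun s v => (s : ℝ) * pp s * ff t v * c (n - v - s)) n
  have h2 : ∑ v ∈ range (n + 1), (v : ℝ) * (ff (t + 1) v * c (n - v)) =
      ∑ v ∈ range (n + 1), ∑ s ∈ range (v + 1),
        (s : ℝ) * pp s * ff t (v - s) * c (n - (v - s) - s) := by
    refine Finset.sum_congr rfl fun v _ => ?_
    rw [← mul_assoc, hff.2.2.2.2.1 t v, Finset.sum_mul]
    refine Finset.sum_congr rfl fun s hs => ?_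
    have := mem_range.mp hs
    have e : n - (v - s) - s = n - v := by omega
    rw [e]
  rw [h2, h1]
  refine Finset.sum_congr rfl fun v _ => ?_
  rw [Finset.mul_sum]
  refine Finset.sum_congr rfl fun s _ => ?_
  ring

theorem bt_nonneg (n k : ℕ) : 0 ≤ bt n k := by
  unfold bt pois
  positivity

theorem cc_nonneg {u : ℕ → ℝ} (hu : ∀ k, 0 ≤ u k) (n : ℕ) : 0 ≤ cc u n := by
  unfold cc
  split_ifs
  · exact hu 0
  · exact Finset.sum_nonneg fun k _ => mul_nonneg (hu k) (bt_nonneg n k)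

theorem aa_nonneg (hff : S_ff) {c : ℕ → ℝ} (hc : ∀ k, 0 ≤ c k) (t n : ℕ) : 0 ≤ aa c t n :=
  Finset.sum_nonneg fun v _ => mul_nonneg (hff.1 t v) (hc _)

/-- Markov's inequality -/
theorem markov (hff : S_ff) {c : ℕ → ℝ} (hc : ∀ k, 0 ≤ c k) {t n : ℕ} (hn : 1 ≤ n) {D : ℝ}
    (h : ∑ v ∈ range (n + 1), (v : ℝ) * (ff t v * c (n - v)) ≤ D * t * aa c t n)
    (hD : 4 * (D * t) ≤ n) :
    aa c t n ≤ 2 * ∑ v ∈ (range (n + 1)).filter (fun v => 2 * v ≤ n), ff t v * c (n - v) := by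
  have hn0 : (0 : ℝ) < n := by exact_mod_cast hn
  have haa := aa_nonneg hff hc t n
  have h1 : aa c t n = ∑ v ∈ (range (n + 1)).filter (fun v => 2 * v ≤ n), ff t v * c (n - v) +
      ∑ v ∈ (range (n + 1)).filter (fun v => ¬ 2 * v ≤ n), ff t v * c (n - v) := by
    rw [Finset.sum_filter_add_sum_filter_not]
    rfl
  have h2 : (n : ℝ) * ∑ v ∈ (range (n + 1)).filter (fun v => ¬ 2 * v ≤ n), ff t v * c (n - v) ≤
      2 * ∑ v ∈ range (n + 1), (v : ℝ) * (ff t v * c (n - v)) := by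
    rw [Finset.mul_sum, Finset.mul_sum]
    refine (Finset.sum_le_sum (f := fun v => (n : ℝ) * (ff t v * c (n - v)))
      (g := fun v => 2 * ((v : ℝ) * (ff t v * c (n - v)))) fun v hv => ?_).trans
      (Finset.sum_le_sum_of_subset_of_nonneg (Finset.filter_subset _ _) fun v _ _ => ?_)
    · have h3 : n ≤ 2 * v := by
        have := (mem_filter.mp hv).2
        omega
      have h4 : (n : ℝ) ≤ 2 * v := by exact_mod_cast h3
      have h5 : 0 ≤ ff t v * c (n - v) := mul_nonneg (hff.1 t v) (hc _)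
      nlinarith
    · have h5 : 0 ≤ ff t v * c (n - v) := mul_nonneg (hff.1 t v) (hc _)
      positivity
  set A := ∑ v ∈ (range (n + 1)).filter (fun v => 2 * v ≤ n), ff t v * c (n - v)
  set B := ∑ v ∈ (range (n + 1)).filter (fun v => ¬ 2 * v ≤ n), ff t v * c (n - v)
  have h3 : (n : ℝ) * (2 * B) ≤ n * aa c t n := by
    have : 4 * (D * t) * aa c t n ≤ n * aa c t n := mul_le_mul_of_nonneg_right hD haa
    nlinarith
  have h4 : 2 * B ≤ aa c t n := le_of_mul_le_mul_left h3 hn0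
  linarith

end PkgF11

open PkgF11 in
theorem pkgF11 (hpp : S_pp) (hff : S_ff) (hq : S_quasi) (hs : S_step) : S_V := by
  intro w hw
  obtain ⟨D1, hD1, hquasi⟩ := hq
  obtain ⟨D2', δ2, hδ2, hstep⟩ := hs
  set D2 := max D2' 1 with hD2
  have hD21 : 1 ≤ D2 := le_max_right _ _
  have hpp1 : pp 1 = Real.exp (-1) := hpp.2.2.1
  have he : 0 < Real.exp 1 := Real.exp_pos 1
  set C := 4 * D1 * D2 * Real.exp 1 with hC
  have he1 : 1 ≤ Real.exp 1 := Real.one_le_exp (by norm_num)
  have hD12 : 1 ≤ D1 * D2 := by nlinarith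
  have hC1 : 4 ≤ C := by
    have : 1 ≤ D1 * D2 * Real.exp 1 := by nlinarith
    rw [hC]
    linarith
  set δ := min (min (δ2 / 2) (1 / 4)) (1 / (4 * C)) with hδ
  have hδ0 : 0 < δ := by
    rw [hδ]
    refine lt_min (lt_min (by linarith) (by norm_num)) (by positivity)
  refine ⟨C, δ, by linarith, hδ0, ?_⟩
  intro t l n hl hln htn
  set u : ℕ → ℝ := fun k => w k l with hu
  set c : ℕ → ℝ := cc u with hc
  have hu0 : ∀ k, 0 ≤ u k := fun k => hw.nonneg k l
  have hu1 : ∀ k : ℕ, ((k : ℝ) + l) * u k ≤ k * u (k + 1) := fun k => hw.sub k l hl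
  have hu2 : ∀ k : ℕ, ((k : ℝ) - 8 * l) * u (k + 1) ≤ (k + l) * u k := fun k => hw.sup k l hl
  have hl' : (1 : ℝ) ≤ l := by exact_mod_cast hl
  have hu3 : ∀ k : ℕ, ((k : ℝ) + 1) * u k ≤ k * u (k + 1) := by
    intro k
    have h1 := hu1 k
    have h2 := hu0 k
    nlinarith
  have hc0 : ∀ k, 0 ≤ c k := cc_nonneg hu0
  have hn0' : (0 : ℝ) ≤ n := Nat.cast_nonneg n
  have hn4 : (4 : ℝ) ≤ n := by
    have h1 : δ * n ≤ (1 / 4) * n :=
      mul_le_mul_of_nonneg_right ((min_le_left _ _).trans (min_le_right _ _)) hn0'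
    linarith
  have hn4' : 4 ≤ n := by exact_mod_cast hn4
  have hln2 : (l : ℝ) ≤ δ2 / 2 * n := by
    have h1 : δ * n ≤ (δ2 / 2) * n :=
      mul_le_mul_of_nonneg_right ((min_le_left _ _).trans (min_le_left _ _)) hn0'
    linarith
  have hnC : ∀ t' : ℕ, t' ≤ t → 4 * (C * t') ≤ n := by
    intro t' ht'
    have h1 : δ * n ≤ (1 / (4 * C)) * n := mul_le_mul_of_nonneg_right (min_le_right _ _) hn0'
    have h2 : (t : ℝ) ≤ (1 / (4 * C)) * n := htn.trans h1
    have h3 : (t' : ℝ) ≤ t := by exact_mod_cast ht'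
    have h4 : 4 * (C * t') ≤ 4 * C * ((1 / (4 * C)) * n) := by
      have : 4 * (C * t') = 4 * C * t' := by ring
      rw [this]
      refine mul_le_mul_of_nonneg_left (h3.trans h2) (by positivity)
    have h5 : 4 * C * ((1 / (4 * C)) * n) = n := by
      have : C ≠ 0 := by positivity
      field_simp
    linarith
  have hquasi' : ∀ a b : ℕ, a ≤ b → c a ≤ D1 * c b := hquasi u hu0 hu3
  have hstep' : ∀ v : ℕ, 2 * v ≤ n → c (n - v) ≤ D2 * c (n - v - 1) := by
    intro v hv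
    have h1 : (n : ℝ) / 2 ≤ ((n - v : ℕ) : ℝ) := by
      have : n ≤ 2 * (n - v) := by omega
      have : (n : ℝ) ≤ 2 * ((n - v : ℕ) : ℝ) := by exact_mod_cast this
      linarith
    have h2 := hstep u l (n - v) hl (by omega) (by nlinarith) hu0 hu1 hu2
    exact h2.trans (mul_le_mul_of_nonneg_right (le_max_left _ _) (hc0 _))
  -- step A
  have stepA : ∀ t : ℕ, ∑ v ∈ range (n + 1), (v : ℝ) * (ff (t + 1) v * c (n - v)) ≤
      2 * D1 * aa c t n := by
    intro t
    rw [vaa_succ hff, aa, Finset.mul_sum]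
    refine Finset.sum_le_sum fun v _ => ?_
    have h1 : ∑ s ∈ range (n - v + 1), (s : ℝ) * pp s * c (n - v - s) ≤
        ∑ s ∈ range (n - v + 1), (s : ℝ) * pp s * (D1 * c (n - v)) := by
      refine Finset.sum_le_sum fun s _ => ?_
      exact mul_le_mul_of_nonneg_left (hquasi' _ _ (Nat.sub_le _ _))
        (mul_nonneg (Nat.cast_nonneg s) (hpp.1 s))
    rw [← Finset.sum_mul] at h1
    have h2 := hpp.2.2.2.2.2 (n - v + 1)
    have h3 : 0 ≤ D1 * c (n - v) := mul_nonneg (by linarith) (hc0 _)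
    have h4 : ∑ s ∈ range (n - v + 1), (s : ℝ) * pp s * c (n - v - s) ≤ 2 * (D1 * c (n - v)) :=
      h1.trans (mul_le_mul_of_nonneg_right h2 h3)
    calc ff t v * ∑ s ∈ range (n - v + 1), (s : ℝ) * pp s * c (n - v - s)
        ≤ ff t v * (2 * (D1 * c (n - v))) := mul_le_mul_of_nonneg_left h4 (hff.1 t v)
      _ = 2 * D1 * (ff t v * c (n - v)) := by ring
  -- step B
  have stepB : ∀ t : ℕ, ∑ v ∈ (range (n + 1)).filter (fun v => 2 * v ≤ n), ff t v * c (n - v) ≤
      D2 * Real.exp 1 * (((t : ℝ) + 1) * aa c (t + 1) n) := by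
    intro t
    rw [aa_succ, Finset.mul_sum]
    refine (Finset.sum_le_sum (g := fun v => D2 * Real.exp 1 * (ff t v *
      ∑ s ∈ range (n - v + 1), pp s * c (n - v - s))) fun v hv => ?_).trans
      (Finset.sum_le_sum_of_subset_of_nonneg (Finset.filter_subset _ _) fun v _ _ => ?_)
    · have hv2 : 2 * v ≤ n := (mem_filter.mp hv).2
      have h1 := hstep' v hv2
      have h2 : pp 1 * c (n - v - 1) ≤ ∑ s ∈ range (n - v + 1), pp s * c (n - v - s) := by
        refine Finset.single_le_sum (f := fun s => pp s * c (n - v - s))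
          (fun s _ => mul_nonneg (hpp.1 s) (hc0 _)) ?_
        rw [mem_range]
        omega
      rw [hpp1, Real.exp_neg] at h2
      have h3 : c (n - v - 1) ≤ Real.exp 1 * ∑ s ∈ range (n - v + 1), pp s * c (n - v - s) := by
        have := mul_le_mul_of_nonneg_left h2 he.le
        rw [← mul_assoc, mul_inv_cancel₀ he.ne', one_mul] at this
        exact this
      have h4 : c (n - v) ≤ D2 * (Real.exp 1 * ∑ s ∈ range (n - v + 1), pp s * c (n - v - s)) :=
        h1.trans (mul_le_mul_of_nonneg_left h3 (by linarith))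
      calc ff t v * c (n - v)
          ≤ ff t v * (D2 * (Real.exp 1 * ∑ s ∈ range (n - v + 1), pp s * c (n - v - s))) :=
            mul_le_mul_of_nonneg_left h4 (hff.1 t v)
        _ = _ := by ring
    · refine mul_nonneg (by positivity) (mul_nonneg (hff.1 t v)
        (Finset.sum_nonneg fun s _ => mul_nonneg (hpp.1 s) (hc0 _)))
  -- induction
  have main : ∀ t' : ℕ, t' ≤ t →
      ∑ v ∈ range (n + 1), (v : ℝ) * (ff t' v * c (n - v)) ≤ C * t' * aa c t' n ∧
      aa c t' n ≤ 2 * (D2 * Real.exp 1) * ((t' : ℝ) + 1) * aa c (t' + 1) n := by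
    have aux : ∀ t' : ℕ, t' ≤ t →
        ∑ v ∈ range (n + 1), (v : ℝ) * (ff t' v * c (n - v)) ≤ C * t' * aa c t' n →
        aa c t' n ≤ 2 * (D2 * Real.exp 1) * ((t' : ℝ) + 1) * aa c (t' + 1) n := by
      intro t' ht' h
      have h1 := markov hff hc0 (by omega : 1 ≤ n) h (hnC t' ht')
      have h2 := stepB t'
      calc aa c t' n ≤ _ := h1
        _ ≤ 2 * (D2 * Real.exp 1 * (((t' : ℝ) + 1) * aa c (t' + 1) n)) :=
          mul_le_mul_of_nonneg_left h2 (by norm_num)
        _ = _ := by ring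
    intro t'
    induction t' with
    | zero =>
      intro ht'
      have h0 : ∑ v ∈ range (n + 1), (v : ℝ) * (ff 0 v * c (n - v)) ≤
          C * (0 : ℕ) * aa c 0 n := by
        refine le_of_eq ?_
        simp only [Nat.cast_zero, mul_zero, zero_mul]
        refine Finset.sum_eq_zero fun v _ => ?_
        have : ff 0 v = if v = 0 then 1 else 0 := rfl
        rw [this]
        split_ifs with h
        · simp [h]
        · simp
      exact ⟨h0, aux 0 ht' h0⟩
    | succ t' ih =>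
      intro ht'
      obtain ⟨ih1, ih2⟩ := ih (by omega)
      have h0 : ∑ v ∈ range (n + 1), (v : ℝ) * (ff (t' + 1) v * c (n - v)) ≤
          C * ((t' + 1 : ℕ) : ℝ) * aa c (t' + 1) n := by
        refine (stepA t').trans ?_
        have : 2 * D1 * aa c t' n ≤
            2 * D1 * (2 * (D2 * Real.exp 1) * ((t' : ℝ) + 1) * aa c (t' + 1) n) :=
          mul_le_mul_of_nonneg_left ih2 (by linarith)
        refine this.trans (le_of_eq ?_)
        rw [hC]
        push_cast
        ring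
      exact ⟨h0, aux (t' + 1) ht' h0⟩
  obtain ⟨h1, h2⟩ := main t le_rfl
  refine ⟨h1, h2.trans ?_⟩
  have h3 : 0 ≤ aa c (t + 1) n := aa_nonneg hff hc0 _ _
  have h4 : 2 * (D2 * Real.exp 1) ≤ C := by
    rw [hC]
    have : 0 ≤ D2 * Real.exp 1 := by positivity
    nlinarith
  have h5 : (0 : ℝ) ≤ (t : ℝ) + 1 := by positivity
  have h6 : 2 * (D2 * Real.exp 1) * ((t : ℝ) + 1) ≤ C * ((t : ℝ) + 1) :=
    mul_le_mul_of_nonneg_right h4 h5
  exact mul_le_mul_of_nonneg_right h6 h3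

end GiantSurf57
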