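import Pool.Agent.GiantSurf57.PkgF11

open scoped Classical
open Finset

namespace GiantSurf57

namespace PkgF12

theorem r32_nonneg {x : ℝ} (hx : 0 ≤ x) : 0 ≤ r32 x := by
  unfold r32
  positivity

theorem r32_mono {x y : ℝ} (hx : 0 ≤ x) (hxy : x ≤ y) : r32 x ≤ r32 y := by
  unfold r32
  have : √x ≤ √y := Real.sqrt_le_sqrt hxy
  have := Real.sqrt_nonneg x
  have hy : 0 ≤ y := hx.trans hxy
  exact mul_le_mul hxy (by assumption) (by assumption) hy

theorem r32_half {x y : ℝ} (hx : 0 ≤ x) (hxy : x ≤ 2 * y) : r32 x ≤ 4 * r32 y := by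
  have h1 : r32 x ≤ r32 (2 * y) := r32_mono hx hxy
  have hy : 0 ≤ y := by linarith
  have h2 : √(2 * y) ≤ 2 * √y := by
    rw [Real.sqrt_le_left (by positivity), mul_pow, Real.sq_sqrt hy]
    linarith
  refine h1.trans ?_
  unfold r32
  nlinarith [Real.sqrt_nonneg y]

end PkgF12

open PkgF11 PkgF12 in
theorem pkgF12 (hpp : S_pp) (hff : S_ff) (hq : S_quasi) (hs : S_step) (hr : S_ratio) (hV : S_V) :
    S_R := by
  intro w hw
  obtain ⟨D1, hD1, hquasi⟩ := hq
  obtain ⟨D2', δ2, hδ2, hstep⟩ := hs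
  obtain ⟨Cr, δr, hCr, hδr, hratio1, hratio2⟩ := hr w hw
  obtain ⟨Cv, δv, hCv, hδv, hv⟩ := hV w hw
  set D2 := max D2' 1 with hD2
  have hD21 : 1 ≤ D2 := le_max_right _ _
  have hD10 : 0 ≤ D1 := zero_le_one.trans hD1
  have hD20 : 0 ≤ D2 := zero_le_one.trans hD21
  have hpp1 : pp 1 = Real.exp (-1) := hpp.2.2.1
  have he : 0 < Real.exp 1 := Real.exp_pos 1
  have he1 : 1 ≤ Real.exp 1 := Real.one_le_exp (by norm_num)
  set C := 8 * Cr * D1 * D2 * Real.exp 1 with hC
  set δ := min (min (δ2 / 4) (δr / 2)) (min (δv / 2) (1 / (8 * Cv))) with hδ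
  have hδ0 : 0 < δ := by
    rw [hδ]
    refine lt_min (lt_min (by linarith) (by linarith)) (lt_min (by linarith) (by positivity))
  have hCr0 : 0 < Cr := by linarith
  have hCD : Cr ≤ Cr * (D1 * (D2 * Real.exp 1)) := by
    have : 1 ≤ D1 * (D2 * Real.exp 1) := by nlinarith [mul_le_mul hD21 he1 zero_le_one (by linarith)]
    nlinarith
  have hCCr : Cr ≤ C := by
    rw [hC]
    nlinarith
  -- common facts
  have hu0 : ∀ l k, 0 ≤ w k l := fun l k => hw.nonneg k l
  have hc0 : ∀ l n, 0 ≤ cc (fun k => w k l) n := fun l n => cc_nonneg (hu0 l) n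
  have facts : ∀ t l n : ℕ, 1 ≤ l → (l : ℝ) ≤ δ * n → (t : ℝ) ≤ δ * n →
      8 ≤ n ∧ ((t : ℝ) + 1) ≤ 2 * (δ * n) ∧ ((l : ℝ) + 1) ≤ 2 * (δ * n) := by
    intro t l n hl hln htn
    have hl' : (1 : ℝ) ≤ l := by exact_mod_cast hl
    have hn0' : (0 : ℝ) ≤ n := Nat.cast_nonneg n
    refine ⟨?_, by linarith, by linarith⟩
    have h1 : δ ≤ 1 / (8 * Cv) := (min_le_right _ _).trans (min_le_right _ _)
    have h2 : (1 : ℝ) / (8 * Cv) ≤ 1 / 8 := by
      apply one_div_le_one_div_of_le <;> linarith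
    have h3 : δ * n ≤ 1 / 8 * n := mul_le_mul_of_nonneg_right (h1.trans h2) hn0'
    have h4 : (8 : ℝ) ≤ n := by linarith
    exact_mod_cast h4
  refine ⟨C, δ, by linarith, hδ0, ?_, ?_⟩
  · intro t l n hl hln htn
    obtain ⟨hn8, ht1, hl1⟩ := facts t l n hl hln htn
    have hn0' : (0 : ℝ) ≤ n := Nat.cast_nonneg n
    have hl' : (1 : ℝ) ≤ l := by exact_mod_cast hl
    have hlv : (l : ℝ) ≤ δv * n := by
      have : δ * n ≤ (δv / 2) * n :=
        mul_le_mul_of_nonneg_right ((min_le_right _ _).trans (min_le_left _ _)) hn0'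
      have : 0 ≤ δv * n := by positivity
      linarith
    have htv : (t : ℝ) ≤ δv * n := by
      have : δ * n ≤ (δv / 2) * n :=
        mul_le_mul_of_nonneg_right ((min_le_right _ _).trans (min_le_left _ _)) hn0'
      have : 0 ≤ δv * n := by positivity
      linarith
    have h4 : 4 * (Cv * t) ≤ n := by
      have h1 : δ * n ≤ (1 / (8 * Cv)) * n :=
        mul_le_mul_of_nonneg_right ((min_le_right _ _).trans (min_le_right _ _)) hn0'
      have h2 : 8 * Cv * (t : ℝ) ≤ 8 * Cv * ((1 / (8 * Cv)) * n) :=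
        mul_le_mul_of_nonneg_left (htn.trans h1) (by linarith)
      have h3 : 8 * Cv * ((1 / (8 * Cv)) * n) = n := by
        have : Cv ≠ 0 := by linarith
        field_simp
      have : (0 : ℝ) ≤ Cv * t := by positivity
      linarith
    have hM := markov hff (hc0 l) (by omega : 1 ≤ n) (hv t l n hl hlv htv).1 h4
    set c : ℕ → ℝ := cc (fun k => w k l) with hc
    set c' : ℕ → ℝ := cc (fun k => w k (l + 1)) with hc'
    have hr0 : 0 ≤ r32 ((n : ℝ) / l) := r32_nonneg (by positivity)
    have key : ∀ v : ℕ, 2 * v ≤ n → r32 ((n : ℝ) / l) * c (n - v) ≤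
        4 * Cr * D2 * Real.exp 1 * ∑ s ∈ range (n - v + 1), pp s * c' (n - v - s) := by
      intro v hv2
      have hnv : (n : ℝ) / 2 ≤ ((n - v : ℕ) : ℝ) := by
        have : n ≤ 2 * (n - v) := by omega
        have : (n : ℝ) ≤ 2 * ((n - v : ℕ) : ℝ) := by exact_mod_cast this
        linarith
      have h1 : (l : ℝ) ≤ δr * ((n - v : ℕ) : ℝ) := by
        have h2 : δ * n ≤ (δr / 2) * n :=
          mul_le_mul_of_nonneg_right ((min_le_left _ _).trans (min_le_right _ _)) hn0'
        nlinarith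
      have h2 := hratio1 l (n - v) hl h1
      have h3 : r32 ((n : ℝ) / l) ≤ 4 * r32 (((n - v : ℕ) : ℝ) / l) := by
        refine r32_half (by positivity) ?_
        rw [← mul_div_assoc]
        gcongr
        linarith
      have h5 : ((l + 1 : ℕ) : ℝ) ≤ δ2 * ((n - v : ℕ) : ℝ) := by
        have h2 : δ * n ≤ (δ2 / 4) * n :=
          mul_le_mul_of_nonneg_right ((min_le_left _ _).trans (min_le_left _ _)) hn0'
        push_cast
        nlinarith
      have h6 := hstep (fun k => w k (l + 1)) (l + 1) (n - v) (by omega) (by omega) h5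
        (hu0 (l + 1)) (fun k => hw.sub k (l + 1) (by omega)) (fun k => hw.sup k (l + 1) (by omega))
      have h7 : c' (n - v) ≤ D2 * c' (n - v - 1) :=
        h6.trans (mul_le_mul_of_nonneg_right (le_max_left _ _) (hc0 _ _))
      have h8 : pp 1 * c' (n - v - 1) ≤ ∑ s ∈ range (n - v + 1), pp s * c' (n - v - s) := by
        refine Finset.single_le_sum (f := fun s => pp s * c' (n - v - s))
          (fun s _ => mul_nonneg (hpp.1 s) (hc0 _ _)) ?_
        rw [mem_range]
        omega
      rw [hpp1, Real.exp_neg] at h8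
      have h9 : c' (n - v - 1) ≤ Real.exp 1 * ∑ s ∈ range (n - v + 1), pp s * c' (n - v - s) := by
        have := mul_le_mul_of_nonneg_left h8 he.le
        rw [← mul_assoc, mul_inv_cancel₀ he.ne', one_mul] at this
        exact this
      calc r32 ((n : ℝ) / l) * c (n - v) ≤ 4 * r32 (((n - v : ℕ) : ℝ) / l) * c (n - v) :=
            mul_le_mul_of_nonneg_right h3 (hc0 _ _)
        _ = 4 * (r32 (((n - v : ℕ) : ℝ) / l) * c (n - v)) := by ring
        _ ≤ 4 * (Cr * c' (n - v)) := mul_le_mul_of_nonneg_left h2 (by norm_num)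
        _ ≤ 4 * (Cr * (D2 * c' (n - v - 1))) := by
            refine mul_le_mul_of_nonneg_left (mul_le_mul_of_nonneg_left h7 hCr0.le) (by norm_num)
        _ ≤ 4 * (Cr * (D2 * (Real.exp 1 *
            ∑ s ∈ range (n - v + 1), pp s * c' (n - v - s)))) := by
            refine mul_le_mul_of_nonneg_left (mul_le_mul_of_nonneg_left
              (mul_le_mul_of_nonneg_left h9 hD20) hCr0.le) (by norm_num)
        _ = _ := by ring
    have h10 : r32 ((n : ℝ) / l) *
        ∑ v ∈ (range (n + 1)).filter (fun v => 2 * v ≤ n), ff t v * c (n - v) ≤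
        4 * Cr * D2 * Real.exp 1 * (((t : ℝ) + 1) * aa c' (t + 1) n) := by
      rw [aa_succ, Finset.mul_sum, Finset.mul_sum]
      refine (Finset.sum_le_sum (g := fun v => 4 * Cr * D2 * Real.exp 1 * (ff t v *
        ∑ s ∈ range (n - v + 1), pp s * c' (n - v - s))) fun v hv => ?_).trans
        (Finset.sum_le_sum_of_subset_of_nonneg (Finset.filter_subset _ _) fun v _ _ => ?_)
      · have h11 := mul_le_mul_of_nonneg_left (key v (mem_filter.mp hv).2) (hff.1 t v)
        calc r32 ((n : ℝ) / l) * (ff t v * c (n - v)) = ff t v * (r32 ((n : ℝ) / l) * c (n - v)) := by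
              ring
          _ ≤ _ := h11
          _ = _ := by ring
      · refine mul_nonneg (by positivity) (mul_nonneg (hff.1 t v)
          (Finset.sum_nonneg fun s _ => mul_nonneg (hpp.1 s) (hc0 _ _)))
    have h11 : r32 ((n : ℝ) / l) * aa c t n ≤
        8 * Cr * D2 * Real.exp 1 * (((t : ℝ) + 1) * aa c' (t + 1) n) := by
      have := mul_le_mul_of_nonneg_left hM hr0
      calc _ ≤ _ := this
        _ = 2 * (r32 ((n : ℝ) / l) *
          ∑ v ∈ (range (n + 1)).filter (fun v => 2 * v ≤ n), ff t v * c (n - v)) := by ring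
        _ ≤ 2 * (4 * Cr * D2 * Real.exp 1 * (((t : ℝ) + 1) * aa c' (t + 1) n)) :=
          mul_le_mul_of_nonneg_left h10 (by norm_num)
        _ = _ := by ring
    have h12 : 8 * Cr * D2 * Real.exp 1 ≤ C := by
      have : 0 ≤ 8 * Cr * D2 * Real.exp 1 := by positivity
      rw [hC]
      nlinarith
    have h13 : 0 ≤ ((t : ℝ) + 1) * aa c' (t + 1) n :=
      mul_nonneg (by positivity) (aa_nonneg hff (hc0 _) _ _)
    have h14 := mul_le_mul_of_nonneg_right h12 h13
    change r32 ((n : ℝ) / l) * aa c t n ≤ C * (t + 1) * aa c' (t + 1) n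
    rw [mul_assoc C]
    exact h11.trans h14
  · intro t l n hCl hln htn
    have hl' : (1 : ℝ) ≤ l := by linarith
    have hl : 1 ≤ l := by exact_mod_cast hl'
    obtain ⟨hn8, ht1, hl1⟩ := facts t l n hl hln htn
    have hn0' : (0 : ℝ) ≤ n := Nat.cast_nonneg n
    have hlv : ((l + 1 : ℕ) : ℝ) ≤ δv * n := by
      have : δ * n ≤ (δv / 2) * n :=
        mul_le_mul_of_nonneg_right ((min_le_right _ _).trans (min_le_left _ _)) hn0'
      push_cast
      linarith
    have htv : ((t + 1 : ℕ) : ℝ) ≤ δv * n := by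
      have : δ * n ≤ (δv / 2) * n :=
        mul_le_mul_of_nonneg_right ((min_le_right _ _).trans (min_le_left _ _)) hn0'
      push_cast
      linarith
    have h4 : 4 * (Cv * ((t + 1 : ℕ) : ℝ)) ≤ n := by
      have h1 : δ * n ≤ (1 / (8 * Cv)) * n :=
        mul_le_mul_of_nonneg_right ((min_le_right _ _).trans (min_le_right _ _)) hn0'
      have h2 : 4 * Cv * ((t : ℝ) + 1) ≤ 4 * Cv * (2 * ((1 / (8 * Cv)) * n)) :=
        mul_le_mul_of_nonneg_left (ht1.trans (by linarith)) (by linarith)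
      have h3 : 4 * Cv * (2 * ((1 / (8 * Cv)) * n)) = n := by
        have : Cv ≠ 0 := by linarith
        field_simp
        ring
      push_cast
      linarith
    have hM := markov hff (hc0 (l + 1)) (by omega : 1 ≤ n)
      (hv (t + 1) (l + 1) n (by omega) hlv htv).1 h4
    set c : ℕ → ℝ := cc (fun k => w k l) with hc
    set c' : ℕ → ℝ := cc (fun k => w k (l + 1)) with hc'
    have hr0 : 0 ≤ r32 ((n : ℝ) / l) := r32_nonneg (by positivity)
    have hquasi' : ∀ a b : ℕ, a ≤ b → c' a ≤ D1 * c' b := by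
      refine hquasi (fun k => w k (l + 1)) (hu0 _) fun k => ?_
      have h1 := hw.sub k (l + 1) (by omega)
      have h2 := hw.nonneg k (l + 1)
      push_cast at h1
      nlinarith
    have key : ∀ v s : ℕ, 2 * v ≤ n → s ≤ v →
        c' (n - v) ≤ D1 * (Cr * r32 ((n : ℝ) / l) * c (n - (v - s))) := by
      intro v s hv2 hsv
      have h1 := hquasi' (n - v) (n - (v - s)) (by omega)
      have hnv : (n : ℝ) / 2 ≤ ((n - (v - s) : ℕ) : ℝ) := by
        have : n ≤ 2 * (n - (v - s)) := by omega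
        have : (n : ℝ) ≤ 2 * ((n - (v - s) : ℕ) : ℝ) := by exact_mod_cast this
        linarith
      have h2 : (l : ℝ) ≤ δr * ((n - (v - s) : ℕ) : ℝ) := by
        have h2 : δ * n ≤ (δr / 2) * n :=
          mul_le_mul_of_nonneg_right ((min_le_left _ _).trans (min_le_right _ _)) hn0'
        nlinarith
      have h3 : c' (n - (v - s)) ≤ Cr * r32 (((n - (v - s) : ℕ) : ℝ) / l) * c (n - (v - s)) :=
        hratio2 l (n - (v - s)) (hCCr.trans hCl) h2
      have h5 : r32 (((n - (v - s) : ℕ) : ℝ) / l) ≤ r32 ((n : ℝ) / l) := by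
        refine r32_mono (by positivity) ?_
        gcongr
        omega
      have h6 : Cr * r32 (((n - (v - s) : ℕ) : ℝ) / l) * c (n - (v - s)) ≤
          Cr * r32 ((n : ℝ) / l) * c (n - (v - s)) :=
        mul_le_mul_of_nonneg_right (mul_le_mul_of_nonneg_left h5 hCr0.le) (hc0 _ _)
      have h7 : c' (n - (v - s)) ≤ Cr * r32 ((n : ℝ) / l) * c (n - (v - s)) := h3.trans h6
      have h8 : D1 * c' (n - (v - s)) ≤ D1 * (Cr * r32 ((n : ℝ) / l) * c (n - (v - s))) :=
        mul_le_mul_of_nonneg_left h7 hD10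
      exact h1.trans h8
    set B : ℝ := D1 * (Cr * r32 ((n : ℝ) / l)) with hB
    have hB0 : 0 ≤ B := by positivity
    have h10 : ((t : ℝ) + 1) *
        ∑ v ∈ (range (n + 1)).filter (fun v => 2 * v ≤ n), ff (t + 1) v * c' (n - v) ≤
        B * aa c t n := by
      have h11 : ((t : ℝ) + 1) *
          ∑ v ∈ (range (n + 1)).filter (fun v => 2 * v ≤ n), ff (t + 1) v * c' (n - v) ≤
          ∑ v ∈ range (n + 1), ∑ s ∈ range (v + 1),
            B * (pp s * (ff t (v - s) * c (n - (v - s)))) := by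
        rw [Finset.mul_sum]
        refine (Finset.sum_le_sum (g := fun v => ∑ s ∈ range (v + 1),
            B * (pp s * (ff t (v - s) * c (n - (v - s))))) fun v hv => ?_).trans
          (Finset.sum_le_sum_of_subset_of_nonneg (Finset.filter_subset _ _) fun v _ _ => ?_)
        · rw [← mul_assoc, ff_succ, Finset.sum_mul]
          refine Finset.sum_le_sum fun s hs => ?_
          have h12 := key v s (mem_filter.mp hv).2 (by have := mem_range.mp hs; omega)
          have h13 : 0 ≤ pp s * ff t (v - s) := mul_nonneg (hpp.1 s) (hff.1 _ _)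
          calc pp s * ff t (v - s) * c' (n - v)
              ≤ pp s * ff t (v - s) * (D1 * (Cr * r32 ((n : ℝ) / l) * c (n - (v - s)))) :=
                mul_le_mul_of_nonneg_left h12 h13
            _ = _ := by
                rw [hB]
                ring
        · exact Finset.sum_nonneg fun s _ => mul_nonneg hB0 (mul_nonneg (hpp.1 s)
            (mul_nonneg (hff.1 _ _) (hc0 _ _)))
      have h12 := conv (fun s v => B * (pp s * (ff t v * c (n - v)))) n
      rw [h12] at h11
      refine h11.trans ?_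
      rw [aa, Finset.mul_sum]
      refine Finset.sum_le_sum fun v _ => ?_
      have h13 : ∑ s ∈ range (n - v + 1), B * (pp s * (ff t v * c (n - v))) =
          (∑ s ∈ range (n - v + 1), pp s) * (B * (ff t v * c (n - v))) := by
        rw [Finset.sum_mul]
        refine Finset.sum_congr rfl fun s _ => ?_
        ring
      rw [h13]
      have h14 := hpp.2.2.2.2.1 (n - v + 1)
      have h15 : 0 ≤ B * (ff t v * c (n - v)) :=
        mul_nonneg hB0 (mul_nonneg (hff.1 _ _) (hc0 _ _))
      calc _ ≤ 1 * (B * (ff t v * c (n - v))) := mul_le_mul_of_nonneg_right h14 h15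
        _ = _ := one_mul _
    have h11 : ((t : ℝ) + 1) * aa c' (t + 1) n ≤ 2 * B * aa c t n := by
      have h12 : (0 : ℝ) ≤ (t : ℝ) + 1 := by positivity
      have h13 := mul_le_mul_of_nonneg_left hM h12
      calc _ ≤ _ := h13
        _ = 2 * (((t : ℝ) + 1) *
          ∑ v ∈ (range (n + 1)).filter (fun v => 2 * v ≤ n), ff (t + 1) v * c' (n - v)) := by ring
        _ ≤ 2 * (B * aa c t n) := mul_le_mul_of_nonneg_left h10 (by norm_num)
        _ = _ := by ring
    change ((t : ℝ) + 1) * aa c' (t + 1) n ≤ C * r32 ((n : ℝ) / l) * aa c t n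
    refine h11.trans (mul_le_mul_of_nonneg_right ?_ (aa_nonneg hff (hc0 _) _ _))
    rw [hB, hC]
    have h12 : 2 * (D1 * (Cr * r32 ((n : ℝ) / l))) = 2 * Cr * D1 * r32 ((n : ℝ) / l) := by ring
    rw [h12]
    refine mul_le_mul_of_nonneg_right ?_ hr0
    have h13 : 1 ≤ D2 * Real.exp 1 := by nlinarith
    have h14 : 0 ≤ Cr * D1 := by positivity
    nlinarith

end GiantSurf57
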