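import Pool.Agent.GiantSurf57.PkgF11

open scoped Classical
open Finset

namespace GiantSurf57

namespace PkgF13

theorem factorial_mul_exp_le (n : ℕ) (hn : 1 ≤ n) :
    (n.factorial : ℝ) * Real.exp n ≤ Real.exp 1 * n * (n : ℝ) ^ n := by
  induction n, hn using Nat.le_induction with
  | base => simp
  | succ n hn ih =>
    have hn0 : (0 : ℝ) < n := by exact_mod_cast hn
    have h1 : (n : ℝ) / (n + 1) ≤ Real.exp (-(1 / ((n : ℝ) + 1))) := by
      have h2 := Real.add_one_le_exp (-(1 / ((n : ℝ) + 1)))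
      have h3 : -(1 / ((n : ℝ) + 1)) + 1 = (n : ℝ) / (n + 1) := by
        field_simp
        ring
      rwa [h3] at h2
    have h4 : ((n : ℝ) / (n + 1)) ^ (n + 1) ≤ Real.exp (-1) := by
      refine (pow_le_pow_left₀ (by positivity) h1 (n + 1)).trans (le_of_eq ?_)
      rw [← Real.exp_nat_mul]
      congr 1
      push_cast
      field_simp
    have h5 : Real.exp 1 * (n : ℝ) ^ (n + 1) ≤ ((n : ℝ) + 1) ^ (n + 1) := by
      rw [div_pow, div_le_iff₀ (by positivity), Real.exp_neg, inv_mul_eq_div,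
        le_div_iff₀ (Real.exp_pos 1)] at h4
      linarith
    have h6 : ((n + 1).factorial : ℝ) = ((n : ℝ) + 1) * n.factorial := by
      rw [Nat.factorial_succ]
      push_cast
      ring
    have h7 : Real.exp ((n + 1 : ℕ) : ℝ) = Real.exp n * Real.exp 1 := by
      push_cast
      rw [Real.exp_add]
    rw [h6, h7]
    calc ((n : ℝ) + 1) * n.factorial * (Real.exp n * Real.exp 1)
        = ((n : ℝ) + 1) * Real.exp 1 * (n.factorial * Real.exp n) := by ring
      _ ≤ ((n : ℝ) + 1) * Real.exp 1 * (Real.exp 1 * n * (n : ℝ) ^ n) :=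
        mul_le_mul_of_nonneg_left ih (by positivity)
      _ = ((n : ℝ) + 1) * Real.exp 1 * (Real.exp 1 * (n : ℝ) ^ (n + 1)) := by ring
      _ ≤ ((n : ℝ) + 1) * Real.exp 1 * ((n : ℝ) + 1) ^ (n + 1) :=
        mul_le_mul_of_nonneg_left h5 (by positivity)
      _ = Real.exp 1 * ((n + 1 : ℕ) : ℝ) * ((n + 1 : ℕ) : ℝ) ^ (n + 1) := by
        push_cast
        ring

theorem bt_four {n : ℕ} (hn : 4 ≤ n) : 1 / (8 * (n : ℝ) ^ 2) ≤ bt n 4 := by
  obtain ⟨m, rfl⟩ : ∃ m, n = m + 4 := ⟨n - 4, by omega⟩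
  have h1 := factorial_mul_exp_le (m + 4) (by omega)
  have hf : ((m + 4).factorial : ℝ) =
      ((m : ℝ) + 4) * (m + 3) * (m + 2) * (m + 1) * m.factorial := by
    rw [show m + 4 = m + 1 + 1 + 1 + 1 by ring, Nat.factorial_succ, Nat.factorial_succ,
      Nat.factorial_succ, Nat.factorial_succ]
    push_cast
    ring
  have hm0 : (0 : ℝ) ≤ m := Nat.cast_nonneg m
  have hN : ((m + 4 : ℕ) : ℝ) = (m : ℝ) + 4 := by push_cast; ring
  have hfp : (0 : ℝ) < m.factorial := by positivity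
  unfold bt pois
  rw [hf, hN] at h1
  rw [Nat.add_sub_cancel, hN]
  rw [Real.exp_neg]
  set N : ℝ := (m : ℝ) + 4 with hNdef
  have hN4 : 4 ≤ N := by linarith
  have hE : 0 < Real.exp N := Real.exp_pos N
  have he3 : Real.exp 1 ≤ 3 := by
    have := Real.exp_one_lt_d9
    linarith
  have h2 : N * (m + 3) * (m + 2) * (m + 1) ≥ 24 / 256 * N ^ 4 := by
    have a1 : (m : ℝ) + 3 = N - 1 := by rw [hNdef]; ring
    have a2 : (m : ℝ) + 2 = N - 2 := by rw [hNdef]; ring
    have a3 : (m : ℝ) + 1 = N - 3 := by rw [hNdef]; ring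
    rw [a1, a2, a3]
    have b1 : 3 / 4 * N ≤ N - 1 := by linarith
    have b2 : 2 / 4 * N ≤ N - 2 := by linarith
    have b3 : 1 / 4 * N ≤ N - 3 := by linarith
    have p0 : 0 ≤ N := by linarith
    have p1 : 0 ≤ N - 1 := by linarith
    have p2 : 0 ≤ N - 2 := by linarith
    have q1 : N * (3 / 4 * N) ≤ N * (N - 1) := mul_le_mul_of_nonneg_left b1 p0
    have q2 : N * (3 / 4 * N) * (2 / 4 * N) ≤ N * (N - 1) * (N - 2) :=
      mul_le_mul q1 b2 (by positivity) (mul_nonneg p0 p1)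
    have q3 : N * (3 / 4 * N) * (2 / 4 * N) * (1 / 4 * N) ≤ N * (N - 1) * (N - 2) * (N - 3) :=
      mul_le_mul q2 b3 (by positivity) (mul_nonneg (mul_nonneg p0 p1) p2)
    have q4 : N * (3 / 4 * N) * (2 / 4 * N) * (1 / 4 * N) = 24 / 256 * N ^ 4 := by ring
    rw [← q4]
    exact q3
  -- the goal
  have h3 : 24 / 256 * N ^ 4 * (m.factorial * Real.exp N) ≤ 3 * N * (N ^ m * N ^ 4) := by
    have e1 : N * (m + 3) * (m + 2) * (m + 1) * m.factorial * Real.exp N =
        N * (m + 3) * (m + 2) * (m + 1) * (m.factorial * Real.exp N) := by ring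
    rw [e1] at h1
    have h4 : 24 / 256 * N ^ 4 * (m.factorial * Real.exp N) ≤
        N * (m + 3) * (m + 2) * (m + 1) * (m.factorial * Real.exp N) :=
      mul_le_mul_of_nonneg_right h2 (by positivity)
    have h5 : Real.exp 1 * N * N ^ (m + 4) ≤ 3 * N * N ^ (m + 4) := by
      gcongr
    rw [pow_add] at h5
    have h6 : Real.exp 1 * N * N ^ (m + 4) = Real.exp 1 * N * (N ^ m * N ^ 4) := by rw [pow_add]
    rw [h6] at h1
    exact (h4.trans h1).trans h5
  have h4 : m.factorial * Real.exp N ≤ 32 * N * N ^ m := by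
    have hN4p : (0 : ℝ) < N ^ 4 := by positivity
    have : N ^ 4 * (m.factorial * Real.exp N) ≤ N ^ 4 * (32 * N * N ^ m) := by nlinarith
    exact le_of_mul_le_mul_left this hN4p
  have hNm : 0 < N ^ m := by positivity
  have hN0 : 0 < N := by linarith
  push_cast
  rw [div_mul_div_comm, div_le_div_iff₀ (by positivity) (by positivity)]
  have h5 : (Real.exp N)⁻¹ * Real.exp N = 1 := inv_mul_cancel₀ hE.ne'
  have h6 : m.factorial ≤ 32 * N * N ^ m * (Real.exp N)⁻¹ := by
    have := mul_le_mul_of_nonneg_right h4 (inv_nonneg.mpr hE.le)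
    calc (m.factorial : ℝ) = m.factorial * Real.exp N * (Real.exp N)⁻¹ := by
          rw [mul_assoc, mul_inv_cancel₀ hE.ne', mul_one]
      _ ≤ _ := this
  calc 1 * (N * m.factorial) ≤ 1 * (N * (32 * N * N ^ m * (Real.exp N)⁻¹)) := by gcongr
    _ = 4 * (N ^ m * (Real.exp N)⁻¹) * (8 * N ^ 2) := by ring

theorem cc_one_ge {w : ℕ → ℕ → ℝ} (hw : WSeq w) {n : ℕ} (hn : 4 ≤ n) :
    w 4 1 / (8 * (n : ℝ) ^ 2) ≤ cc (fun k => w k 1) n := by
  have h1 : cc (fun k => w k 1) n = ∑ k ∈ range (n + 1), w k 1 * bt n k := by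
    rw [cc, if_neg (by omega)]
  rw [h1]
  have h2 : w 4 1 * bt n 4 ≤ ∑ k ∈ range (n + 1), w k 1 * bt n k :=
    Finset.single_le_sum (f := fun k => w k 1 * bt n k)
      (fun k _ => mul_nonneg (hw.nonneg k 1) (PkgF11.bt_nonneg n k)) (by rw [mem_range]; omega)
  refine le_trans ?_ h2
  rw [div_eq_mul_one_div]
  exact mul_le_mul_of_nonneg_left (bt_four hn) hw.pos.le

theorem cc_zero_le {w : ℕ → ℕ → ℝ} (hw : WSeq w) (n : ℕ) : cc (fun k => w k 0) n ≤ 1 := by
  unfold cc
  split_ifs with h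
  · exact hw.zero 0
  · have hn0 : (0 : ℝ) < n := by exact_mod_cast Nat.pos_of_ne_zero h
    have h1 : ∀ k ∈ range (n + 1), w k 0 * bt n k ≤ pois n (n - k) := by
      intro k hk
      have hk' : k ≤ n := by
        have := mem_range.mp hk
        omega
      have h2 : bt n k ≤ pois n (n - k) := by
        unfold bt
        have h3 : (k : ℝ) / n ≤ 1 := by
          rw [div_le_one hn0]
          exact_mod_cast hk'
        have h4 : 0 ≤ pois n (n - k) := by
          unfold pois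
          positivity
        nlinarith
      have h3 := hw.zero k
      have h4 := hw.nonneg k 0
      have h5 := PkgF11.bt_nonneg n k
      nlinarith
    refine (Finset.sum_le_sum h1).trans ?_
    have h2 : ∑ k ∈ range (n + 1), pois n (n - k) = ∑ k ∈ range (n + 1), pois n k := by
      rw [← Finset.sum_range_reflect]
      refine Finset.sum_congr rfl fun k hk => ?_
      have := mem_range.mp hk
      congr 1
      omega
    rw [h2]
    have h3 := Real.sum_le_exp_of_nonneg hn0.le (n + 1)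
    have h4 : ∑ k ∈ range (n + 1), pois n k =
        (∑ k ∈ range (n + 1), (n : ℝ) ^ k / k.factorial) * Real.exp (-(n : ℝ)) := by
      rw [Finset.sum_mul]
      refine Finset.sum_congr rfl fun k _ => ?_
      unfold pois
      ring
    rw [h4, Real.exp_neg]
    have hE := Real.exp_pos (n : ℝ)
    calc _ ≤ Real.exp n * (Real.exp n)⁻¹ := mul_le_mul_of_nonneg_right h3 (by positivity)
      _ = 1 := mul_inv_cancel₀ hE.ne'

theorem ff_tail (hff : S_ff) {t n : ℕ} (hn : 10 ≤ n) (ht : 2 * t ≤ n) :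
    ∑ v ∈ range (n + 1), ff t v ≤ 6 * (n : ℝ) ^ 5 * ∑ v ∈ range (n - 4), ff t v := by
  have hn1 : (1 : ℝ) ≤ n := by
    have : 1 ≤ n := by omega
    exact_mod_cast this
  have htn : (t : ℝ) ≤ n := by
    have : t ≤ n := by omega
    exact_mod_cast this
  have h0 : 0 ≤ ff t (n - 5) := hff.1 _ _
  have hstep : ∀ i : ℕ, ff t (n - 5 + i) ≤ (n : ℝ) ^ i * ff t (n - 5) := by
    intro i
    induction i with
    | zero => simp
    | succ i ih =>
      have h1 := hff.2.2.2.1 t (n - 5 + (i + 1)) (by omega)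
      have e : n - 5 + (i + 1) - 1 = n - 5 + i := by omega
      rw [e] at h1
      refine h1.trans ?_
      have h2 : 0 ≤ ff t (n - 5 + i) := hff.1 _ _
      calc (t : ℝ) * ff t (n - 5 + i) ≤ n * ((n : ℝ) ^ i * ff t (n - 5)) := by gcongr
        _ = _ := by ring
  have hstep' : ∀ i : ℕ, i ≤ 5 → ff t (n - 5 + i) ≤ (n : ℝ) ^ 5 * ff t (n - 5) := by
    intro i hi
    refine (hstep i).trans (mul_le_mul_of_nonneg_right ?_ h0)
    exact pow_le_pow_right₀ hn1 hi
  have hsplit : ∑ v ∈ range (n + 1), ff t v = ∑ v ∈ range (n - 4), ff t v +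
      ∑ i ∈ range 5, ff t (n - 4 + i) := by
    rw [← Finset.sum_range_add]
    congr 2
    omega
  have h2 : ∑ i ∈ range 5, ff t (n - 4 + i) ≤ ∑ i ∈ range 5, (n : ℝ) ^ 5 * ff t (n - 5) := by
    refine Finset.sum_le_sum fun i hi => ?_
    have := mem_range.mp hi
    have e : n - 4 + i = n - 5 + (i + 1) := by omega
    rw [e]
    exact hstep' (i + 1) (by omega)
  have h3 : ff t (n - 5) ≤ ∑ v ∈ range (n - 4), ff t v :=
    Finset.single_le_sum (f := fun v => ff t v) (fun v _ => hff.1 t v) (by rw [mem_range]; omega)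
  have h4 : (1 : ℝ) ≤ (n : ℝ) ^ 5 := one_le_pow₀ hn1
  have h5 : 0 ≤ ∑ v ∈ range (n - 4), ff t v := Finset.sum_nonneg fun v _ => hff.1 t v
  rw [Finset.sum_const, card_range, nsmul_eq_mul] at h2
  rw [hsplit]
  push_cast at h2
  have h6 : (n : ℝ) ^ 5 * ff t (n - 5) ≤ (n : ℝ) ^ 5 * ∑ v ∈ range (n - 4), ff t v := by gcongr
  have h7 : ∑ v ∈ range (n - 4), ff t v ≤ (n : ℝ) ^ 5 * ∑ v ∈ range (n - 4), ff t v := by
    nlinarith
  nlinarith

end PkgF13

open PkgF11 PkgF13 in
theorem pkgF13 (hpp : S_pp) (hff : S_ff) : S_zero := by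
  intro w hw
  have hW := hw.pos
  have hpp1 : pp 1 = Real.exp (-1) := hpp.2.2.1
  have he : 0 < Real.exp 1 := Real.exp_pos 1
  have hc0 : ∀ l n, 0 ≤ cc (fun k => w k l) n := fun l n => cc_nonneg (fun k => hw.nonneg k l) n
  refine ⟨9, max 10 ⌈48 * Real.exp 1 / w 4 1⌉₊, ?_⟩
  intro t n hn ht
  have hn10 : 10 ≤ n := (le_max_left _ _).trans hn
  have hnW : 48 * Real.exp 1 / w 4 1 ≤ n := by
    refine (Nat.le_ceil _).trans ?_
    exact_mod_cast (le_max_right _ _).trans hn
  have hn0 : (0 : ℝ) < n := by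
    have : 0 < n := by omega
    exact_mod_cast this
  -- upper bound
  have h1 : AA w t 0 n ≤ ∑ v ∈ range (n + 1), ff t v := by
    unfold AA aa
    refine Finset.sum_le_sum fun v _ => ?_
    have h2 := cc_zero_le hw (n - v)
    have h3 := hff.1 t v
    nlinarith
  have h2 := ff_tail hff hn10 ht
  -- lower bound
  have h3 : Real.exp (-1) * (w 4 1 / (8 * (n : ℝ) ^ 2)) * ∑ v ∈ range (n - 4), ff t v ≤
      ((t : ℝ) + 1) * AA w (t + 1) 1 n := by
    have e : ((t : ℝ) + 1) * AA w (t + 1) 1 n = _ := aa_succ (cc (fun k => w k 1)) t n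
    rw [e, Finset.mul_sum]
    have hsub : range (n - 4) ⊆ range (n + 1) := by
      intro x hx
      have := mem_range.mp hx
      rw [mem_range]
      omega
    have hmono : ∑ v ∈ range (n - 4), ff t v * ∑ s ∈ range (n - v + 1),
        pp s * cc (fun k => w k 1) (n - v - s) ≤ ∑ v ∈ range (n + 1), ff t v *
        ∑ s ∈ range (n - v + 1), pp s * cc (fun k => w k 1) (n - v - s) :=
      Finset.sum_le_sum_of_subset_of_nonneg hsub fun v _ _ => mul_nonneg (hff.1 t v)
        (Finset.sum_nonneg fun s _ => mul_nonneg (hpp.1 s) (hc0 _ _))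
    refine le_trans (Finset.sum_le_sum fun v hv => ?_) hmono
    · have hv' := mem_range.mp hv
      have h4 : pp 1 * cc (fun k => w k 1) (n - v - 1) ≤
          ∑ s ∈ range (n - v + 1), pp s * cc (fun k => w k 1) (n - v - s) := by
        refine Finset.single_le_sum (f := fun s => pp s * cc (fun k => w k 1) (n - v - s))
          (fun s _ => mul_nonneg (hpp.1 s) (hc0 _ _)) ?_
        rw [mem_range]
        omega
      have h5 := cc_one_ge hw (n := n - v - 1) (by omega)
      have h6 : w 4 1 / (8 * (n : ℝ) ^ 2) ≤ w 4 1 / (8 * ((n - v - 1 : ℕ) : ℝ) ^ 2) := by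
        have h7 : (4 : ℝ) ≤ ((n - v - 1 : ℕ) : ℝ) := by
          have : 4 ≤ n - v - 1 := by omega
          exact_mod_cast this
        have h8 : ((n - v - 1 : ℕ) : ℝ) ≤ n := by
          have : n - v - 1 ≤ n := by omega
          exact_mod_cast this
        gcongr
      rw [hpp1] at h4
      have h7 : Real.exp (-1) * (w 4 1 / (8 * (n : ℝ) ^ 2)) ≤
          ∑ s ∈ range (n - v + 1), pp s * cc (fun k => w k 1) (n - v - s) :=
        (mul_le_mul_of_nonneg_left (h6.trans h5) (Real.exp_pos _).le).trans h4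
      rw [mul_comm]
      exact mul_le_mul_of_nonneg_left h7 (hff.1 t v)
  set T := ∑ v ∈ range (n - 4), ff t v with hT
  set A := AA w (t + 1) 1 n with hA
  have hA0 : 0 ≤ A := aa_nonneg hff (hc0 1) _ _
  have ht1 : (t : ℝ) + 1 ≤ n := by
    have : t + 1 ≤ n := by omega
    exact_mod_cast this
  have h4 : T ≤ 8 * Real.exp 1 * (n : ℝ) ^ 3 / w 4 1 * A := by
    have h5 : Real.exp (-1) * (w 4 1 / (8 * (n : ℝ) ^ 2)) * T ≤ n * A :=
      h3.trans (mul_le_mul_of_nonneg_right ht1 hA0)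
    have h6 : 8 * Real.exp 1 * (n : ℝ) ^ 2 / w 4 1 *
        (Real.exp (-1) * (w 4 1 / (8 * (n : ℝ) ^ 2)) * T) = T := by
      rw [Real.exp_neg]
      field_simp
    have h7 : 8 * Real.exp 1 * (n : ℝ) ^ 2 / w 4 1 *
        (Real.exp (-1) * (w 4 1 / (8 * (n : ℝ) ^ 2)) * T) ≤
        8 * Real.exp 1 * (n : ℝ) ^ 2 / w 4 1 * (n * A) :=
      mul_le_mul_of_nonneg_left h5 (by positivity)
    rw [h6] at h7
    refine h7.trans (le_of_eq ?_)
    ring
  have h5 : AA w t 0 n ≤ 6 * (n : ℝ) ^ 5 * (8 * Real.exp 1 * (n : ℝ) ^ 3 / w 4 1 * A) :=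
    (h1.trans h2).trans (mul_le_mul_of_nonneg_left h4 (by positivity))
  have h6 : 6 * (n : ℝ) ^ 5 * (8 * Real.exp 1 * (n : ℝ) ^ 3 / w 4 1 * A) =
      (48 * Real.exp 1 / w 4 1) * ((n : ℝ) ^ 8 * A) := by ring
  rw [h6] at h5
  refine h5.trans ?_
  calc (48 * Real.exp 1 / w 4 1) * ((n : ℝ) ^ 8 * A) ≤ n * ((n : ℝ) ^ 8 * A) :=
        mul_le_mul_of_nonneg_right hnW (by positivity)
    _ = (n : ℝ) ^ 9 * A := by ring

end GiantSurf57
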