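import Pool.Agent.GiantSurf57.StmtsTop

open scoped Classical
open Finset

namespace GiantSurf57

namespace PkgF14

theorem pois_le_one (n j : ℕ) : pois n j ≤ 1 := by
  unfold pois
  have h := Real.pow_div_factorial_le_exp (n : ℝ) (Nat.cast_nonneg n) j
  have h2 : (n : ℝ) ^ j * Real.exp (-(n : ℝ)) / (j.factorial : ℝ)
      = ((n : ℝ) ^ j / (j.factorial : ℝ)) * Real.exp (-(n : ℝ)) := by ring
  rw [h2]
  calc ((n : ℝ) ^ j / (j.factorial : ℝ)) * Real.exp (-(n : ℝ))
      ≤ Real.exp n * Real.exp (-(n : ℝ)) :=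
        mul_le_mul_of_nonneg_right h (Real.exp_pos _).le
    _ = 1 := by rw [← Real.exp_add]; simp

theorem pois_nonneg (n j : ℕ) : 0 ≤ pois n j := by
  unfold pois; positivity

theorem bt_le_one {n k : ℕ} (hk : k ≤ n) (hn : 1 ≤ n) : bt n k ≤ 1 := by
  unfold bt
  have hn' : (0 : ℝ) < n := by exact_mod_cast hn
  have h1 : (k : ℝ) / n ≤ 1 := by
    rw [div_le_one hn']; exact_mod_cast hk
  have h0 : 0 ≤ (k : ℝ) / n := by positivity
  calc (k : ℝ) / n * pois n (n - k) ≤ 1 * 1 :=
        mul_le_mul h1 (pois_le_one _ _) (pois_nonneg _ _) zero_le_one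
    _ = 1 := one_mul 1

theorem bt_nonneg (n k : ℕ) : 0 ≤ bt n k := by
  unfold bt
  have := pois_nonneg n (n - k)
  positivity

theorem cc_nonneg {u : ℕ → ℝ} (hu : ∀ k, 0 ≤ u k) (n : ℕ) : 0 ≤ cc u n := by
  unfold cc
  split_ifs
  · exact hu 0
  · exact Finset.sum_nonneg fun k _ => mul_nonneg (hu k) (bt_nonneg n k)

/-- exponential growth of `w` in `k` -/
theorem w_growth {w : ℕ → ℕ → ℝ} (hw : WSeq w) {l0 : ℕ} (hl0 : 1 ≤ l0) :
    ∃ C' : ℝ, 1 ≤ C' ∧ ∀ k, w k l0 ≤ C' * 3 ^ k := by
  refine ⟨1 + ∑ k ∈ range (16 * l0 + 1), w k l0, ?_, ?_⟩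
  · have := Finset.sum_nonneg (s := range (16 * l0 + 1)) (f := fun k => w k l0)
      (fun k _ => hw.nonneg k l0)
    linarith
  · set S := ∑ k ∈ range (16 * l0 + 1), w k l0 with hS
    have hS0 : 0 ≤ S := Finset.sum_nonneg (fun k _ => hw.nonneg k l0)
    have small : ∀ k, k ≤ 16 * l0 → w k l0 ≤ (1 + S) * 3 ^ k := by
      intro k hk
      have h1 : w k l0 ≤ S :=
        Finset.single_le_sum (f := fun k => w k l0) (fun k _ => hw.nonneg k l0)
          (Finset.mem_range.mpr (by omega))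
      have h2 : (1 : ℝ) ≤ 3 ^ k := one_le_pow₀ (by norm_num)
      nlinarith
    have large : ∀ i, w (16 * l0 + i) l0 ≤ (1 + S) * 3 ^ (16 * l0 + i) := by
      intro i
      induction i with
      | zero => exact small _ (by omega)
      | succ i ih =>
        have h := hw.sup (16 * l0 + i) l0 hl0
        have hl : (1 : ℝ) ≤ l0 := by exact_mod_cast hl0
        have hi : (0 : ℝ) ≤ i := Nat.cast_nonneg i
        push_cast at h
        have hpos : (0 : ℝ) < 16 * l0 + i - 8 * l0 := by linarith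
        have h3 : (16 * (l0 : ℝ) + i + l0) ≤ 3 * (16 * l0 + i - 8 * l0) := by linarith
        have hw0 := hw.nonneg (16 * l0 + i) l0
        have h4 : (16 * (l0 : ℝ) + i - 8 * l0) * w (16 * l0 + i + 1) l0
            ≤ (16 * (l0 : ℝ) + i - 8 * l0) * (3 * w (16 * l0 + i) l0) := by
          calc (16 * (l0 : ℝ) + i - 8 * l0) * w (16 * l0 + i + 1) l0
              ≤ (16 * (l0 : ℝ) + i + l0) * w (16 * l0 + i) l0 := h
            _ ≤ (3 * (16 * l0 + i - 8 * l0)) * w (16 * l0 + i) l0 :=
                mul_le_mul_of_nonneg_right h3 hw0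
            _ = _ := by ring
        have h5 : w (16 * l0 + i + 1) l0 ≤ 3 * w (16 * l0 + i) l0 :=
          le_of_mul_le_mul_left h4 hpos
        have h6 : 16 * l0 + (i + 1) = 16 * l0 + i + 1 := by ring
        rw [h6, pow_succ]
        linarith
    intro k
    rcases le_or_gt k (16 * l0) with h | h
    · exact small k h
    · obtain ⟨i, rfl⟩ := Nat.exists_eq_add_of_le h.le
      exact large i

theorem cc_le_exp {u : ℕ → ℝ} {C' : ℝ} (hu0 : ∀ k, 0 ≤ u k) (hC' : 1 ≤ C')
    (hu : ∀ k, u k ≤ C' * 3 ^ k) {N : ℕ} (hN : 1 ≤ N) : cc u N ≤ C' * 6 ^ N := by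
  unfold cc
  rw [if_neg (by omega)]
  have h1 : ∀ k ∈ range (N + 1), u k * bt N k ≤ C' * 3 ^ N := by
    intro k hk
    have hk' : k ≤ N := by simpa [Nat.lt_succ_iff] using hk
    have h3 : (3 : ℝ) ^ k ≤ 3 ^ N := pow_le_pow_right₀ (by norm_num) hk'
    calc u k * bt N k ≤ u k * 1 := mul_le_mul_of_nonneg_left (bt_le_one hk' hN) (hu0 k)
      _ = u k := mul_one _
      _ ≤ C' * 3 ^ k := hu k
      _ ≤ C' * 3 ^ N := mul_le_mul_of_nonneg_left h3 (by linarith)
  calc ∑ k ∈ range (N + 1), u k * bt N k ≤ ∑ k ∈ range (N + 1), C' * 3 ^ N :=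
        Finset.sum_le_sum h1
    _ = (N + 1 : ℕ) * (C' * 3 ^ N) := by rw [Finset.sum_const, card_range, nsmul_eq_mul]
    _ ≤ (2 : ℝ) ^ N * (C' * 3 ^ N) := by
        apply mul_le_mul_of_nonneg_right
        · have : N + 1 ≤ 2 ^ N := Nat.lt_two_pow_self
          exact_mod_cast this
        · positivity
    _ = C' * 6 ^ N := by
        have : (6 : ℝ) = 2 * 3 := by norm_num
        rw [this, mul_pow]; ring

theorem r32_le_sq {x : ℝ} (hx : 1 ≤ x) : r32 x ≤ x ^ 2 := by
  unfold r32
  have h : √x ≤ x := by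
    rw [Real.sqrt_le_left (by linarith)]
    nlinarith
  nlinarith

/-- The key bound for one `l`. -/
theorem key_bound (Q : S_quasi) (R : S_ratio) {w : ℕ → ℕ → ℝ} (hw : WSeq w) {δ : ℝ}
    (hδ : 0 < δ) : ∃ K : ℝ, 1 ≤ K ∧ ∀ l n : ℕ, 1 ≤ l → δ * n < l →
      cc (fun k => w k l) n ≤ K ^ l := by
  obtain ⟨D, hD, hquasi⟩ := Q
  obtain ⟨C, δ0, hC, hδ0, -, hratio⟩ := R w hw
  obtain ⟨A, hA⟩ := exists_nat_ge (1 / δ + 1 / δ0 + 1)
  have hinv : 0 < 1 / δ := by positivity
  have hinv0 : 0 < 1 / δ0 := by positivity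
  have hA1r : (1 : ℝ) ≤ A := by linarith
  have hA1 : 1 ≤ A := by exact_mod_cast hA1r
  have hAδ : 1 ≤ δ * A := by
    have : 1 / δ ≤ A := by linarith
    rwa [div_le_iff₀' hδ] at this
  have hAδ0 : 1 ≤ δ0 * A := by
    have : 1 / δ0 ≤ A := by linarith
    rwa [div_le_iff₀' hδ0] at this
  obtain ⟨l0, hl0⟩ := exists_nat_ge C
  have hl0r : (1 : ℝ) ≤ l0 := by linarith
  have hl01 : 1 ≤ l0 := by exact_mod_cast hl0r
  obtain ⟨C', hC', hgrow⟩ := w_growth hw hl01
  -- quasi-monotonicity
  have hq : ∀ l, 1 ≤ l → ∀ a b : ℕ, a ≤ b →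
      cc (fun k => w k l) a ≤ D * cc (fun k => w k l) b := by
    intro l hl
    apply hquasi
    · exact fun k => hw.nonneg k l
    · intro k
      have h := hw.sub k l hl
      have h0 := hw.nonneg k l
      have hl' : (1 : ℝ) ≤ l := by exact_mod_cast hl
      nlinarith
  -- small l
  set M0 : ℝ := ∑ l ∈ range l0, cc (fun k => w k l) (A * l0) with hM0
  have hM00 : 0 ≤ M0 := Finset.sum_nonneg fun l _ => cc_nonneg (fun k => hw.nonneg k l) _
  set K1 : ℝ := 6 ^ A * C * (A : ℝ) ^ 2 * Real.exp 4 with hK1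
  have he4 : 1 ≤ Real.exp 4 := Real.one_le_exp (by norm_num)
  have h6A : (1 : ℝ) ≤ 6 ^ A := one_le_pow₀ (by norm_num)
  have hA2 : (1 : ℝ) ≤ (A : ℝ) ^ 2 := one_le_pow₀ hA1r
  have hK11 : 1 ≤ K1 := by
    rw [hK1]
    have := one_le_mul_of_one_le_of_one_le (one_le_mul_of_one_le_of_one_le
      (one_le_mul_of_one_le_of_one_le h6A hC) hA2) he4
    exact this
  refine ⟨(1 + D * M0) + D * C' * K1, ?_, ?_⟩
  · have : 0 ≤ D * M0 := by positivity
    have : 0 ≤ D * C' * K1 := by positivity
    linarith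
  intro l n hl hln
  have hlr : (1 : ℝ) ≤ l := by exact_mod_cast hl
  have hnA : n ≤ A * l := by
    have h1 : (n : ℝ) ≤ A * l := by
      by_contra hcon
      push Not at hcon
      have : δ * (A * l) < l := lt_of_le_of_lt (by nlinarith) hln
      nlinarith
    exact_mod_cast h1
  have hDM : 0 ≤ D * M0 := by positivity
  have hDCK : 0 ≤ D * C' * K1 := by positivity
  rcases lt_or_ge l l0 with hsmall | hbig
  · have h1 : cc (fun k => w k l) n ≤ D * cc (fun k => w k l) (A * l0) :=
      hq l hl n (A * l0) (le_trans hnA (Nat.mul_le_mul le_rfl hsmall.le))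
    have h2 : cc (fun k => w k l) (A * l0) ≤ M0 :=
      Finset.single_le_sum (f := fun l => cc (fun k => w k l) (A * l0))
        (fun l _ => cc_nonneg (fun k => hw.nonneg k l) _) (Finset.mem_range.mpr hsmall)
    have h3 : (1 + D * M0) + D * C' * K1 ≤ ((1 + D * M0) + D * C' * K1) ^ l :=
      le_self_pow₀ (by linarith) (by omega)
    have h4 : D * cc (fun k => w k l) (A * l0) ≤ D * M0 :=
      mul_le_mul_of_nonneg_left h2 (by linarith)
    linarith
  · -- big l
    obtain ⟨N, hN⟩ : ∃ N, N = A * l := ⟨_, rfl⟩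
    have hNr : (N : ℝ) = A * l := by rw [hN]; push_cast; ring
    have hN1 : 1 ≤ N := by rw [hN]; exact Nat.one_le_iff_ne_zero.mpr (by positivity)
    have hNl : (l : ℝ) ≤ N := by rw [hNr]; nlinarith
    have hl0N : (l : ℝ) ≤ δ0 * N := by rw [hNr]; nlinarith
    have h1 : cc (fun k => w k l) n ≤ D * cc (fun k => w k l) N := hq l hl n N (by omega)
    -- iterate the ratio
    have hiter : ∀ i : ℕ, l0 + i ≤ l → cc (fun k => w k (l0 + i)) N ≤
        cc (fun k => w k l0) N * ((C * (N : ℝ) ^ 2) ^ (l0 + i) /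
          (((l0 + i - 1).factorial : ℝ)) ^ 2) := by
      intro i
      induction i with
      | zero =>
        intro _
        have hone : 1 ≤ (C * (N : ℝ) ^ 2) ^ (l0 + 0) / (((l0 + 0 - 1).factorial : ℝ)) ^ 2 := by
          rw [one_le_div (by positivity), add_zero, mul_pow]
          have e1 : ((l0 - 1).factorial : ℝ) ≤ (N : ℝ) ^ l0 := by
            have e2 : (l0 - 1).factorial ≤ N ^ l0 := by
              calc (l0 - 1).factorial ≤ l0.factorial := Nat.factorial_le (Nat.sub_le _ _)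
                _ ≤ l0 ^ l0 := Nat.factorial_le_pow l0
                _ ≤ N ^ l0 := Nat.pow_le_pow_left (by
                    have : l ≤ N := by exact_mod_cast hNl
                    omega) _
            exact_mod_cast e2
          have e3 : ((N : ℝ) ^ 2) ^ l0 = ((N : ℝ) ^ l0) ^ 2 := by
            rw [← pow_mul, ← pow_mul, mul_comm]
          rw [e3]
          have e4 : (((l0 - 1).factorial : ℝ)) ^ 2 ≤ ((N : ℝ) ^ l0) ^ 2 :=
            pow_le_pow_left₀ (by positivity) e1 2
          have e5 : 1 ≤ C ^ l0 := one_le_pow₀ hC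
          calc (((l0 - 1).factorial : ℝ)) ^ 2 ≤ 1 * ((N : ℝ) ^ l0) ^ 2 := by rw [one_mul]; exact e4
            _ ≤ C ^ l0 * ((N : ℝ) ^ l0) ^ 2 := mul_le_mul_of_nonneg_right e5 (by positivity)
        have h0 := cc_nonneg (fun k => hw.nonneg k l0) N
        calc cc (fun k => w k (l0 + 0)) N = cc (fun k => w k l0) N * 1 := by
              rw [mul_one, add_zero]
          _ ≤ _ := mul_le_mul_of_nonneg_left hone h0
      | succ i ih =>
        intro hi
        have ih' := ih (by omega)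
        have hjr : (1 : ℝ) ≤ (l0 + i : ℕ) := by
          have : 1 ≤ l0 + i := by omega
          exact_mod_cast this
        have hjl : ((l0 + i : ℕ) : ℝ) ≤ l := by
          have : l0 + i ≤ l := by omega
          exact_mod_cast this
        have hCj : C ≤ ((l0 + i : ℕ) : ℝ) := by
          push_cast
          have : (0 : ℝ) ≤ i := Nat.cast_nonneg i
          linarith
        have hr := hratio (l0 + i) N hCj (by linarith)
        have hx : 1 ≤ (N : ℝ) / ((l0 + i : ℕ) : ℝ) := by
          rw [one_le_div (by linarith)]; linarith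
        have hsq := r32_le_sq hx
        have hcc0 := cc_nonneg (fun k => hw.nonneg k (l0 + i)) N
        have e1 : l0 + (i + 1) = l0 + i + 1 := by ring
        have e2 : l0 + i + 1 - 1 = (l0 + i - 1) + 1 := by omega
        have e3 : l0 + i - 1 + 1 = l0 + i := by omega
        rw [e1, e2, Nat.factorial_succ, e3, pow_succ]
        push_cast at hr hsq hjr ⊢
        calc cc (fun k => w k (l0 + i + 1)) N
            ≤ C * r32 ((N : ℝ) / (l0 + i)) * cc (fun k => w k (l0 + i)) N := hr
          _ ≤ C * ((N : ℝ) / (l0 + i)) ^ 2 * cc (fun k => w k (l0 + i)) N := by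
              apply mul_le_mul_of_nonneg_right _ hcc0
              exact mul_le_mul_of_nonneg_left hsq (by linarith)
          _ ≤ C * ((N : ℝ) / (l0 + i)) ^ 2 * (cc (fun k => w k l0) N *
              ((C * (N : ℝ) ^ 2) ^ (l0 + i) / (((l0 + i - 1).factorial : ℝ)) ^ 2)) := by
              apply mul_le_mul_of_nonneg_left ih'
              positivity
          _ = _ := by
              have hf : (((l0 + i - 1).factorial : ℝ)) ≠ 0 := by positivity
              have hj0 : ((l0 : ℝ) + i) ≠ 0 := by linarith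
              field_simp
    obtain ⟨i, hi⟩ := Nat.exists_eq_add_of_le hbig
    have h2 := hiter i (by omega)
    rw [← hi] at h2
    have h3 : cc (fun k => w k l0) N ≤ C' * 6 ^ N :=
      cc_le_exp (fun k => hw.nonneg k l0) hC' hgrow hN1
    -- the product
    have h4 : (C * (N : ℝ) ^ 2) ^ l / (((l - 1).factorial : ℝ)) ^ 2
        ≤ (C * (A : ℝ) ^ 2 * Real.exp 4) ^ l := by
      have hfac : (l.factorial : ℝ) = l * ((l - 1).factorial : ℝ) := by
        have : l.factorial = l * (l - 1).factorial := (Nat.mul_factorial_pred (by omega)).symm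
        exact_mod_cast this
      have e1 : (l : ℝ) ^ l / (l.factorial : ℝ) ≤ Real.exp l :=
        Real.pow_div_factorial_le_exp (l : ℝ) (Nat.cast_nonneg l) l
      have e2 : (l : ℝ) ≤ Real.exp l := by
        have := Real.add_one_le_exp (l : ℝ); linarith
      have e3 : (l : ℝ) ^ l / ((l - 1).factorial : ℝ) ≤ Real.exp l * Real.exp l := by
        have : (l : ℝ) ^ l / ((l - 1).factorial : ℝ)
            = ((l : ℝ) ^ l / (l.factorial : ℝ)) * l := by
          rw [hfac]; field_simp
        rw [this]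
        exact mul_le_mul e1 e2 (by positivity) (Real.exp_pos _).le
      have e4 : (C * (N : ℝ) ^ 2) ^ l / (((l - 1).factorial : ℝ)) ^ 2
          = (C * (A : ℝ) ^ 2) ^ l * ((l : ℝ) ^ l / ((l - 1).factorial : ℝ)) ^ 2 := by
        rw [hNr, div_pow]
        have : (C * ((A : ℝ) * l) ^ 2) ^ l = (C * (A : ℝ) ^ 2) ^ l * ((l : ℝ) ^ l) ^ 2 := by
          rw [← pow_mul, mul_comm l 2, pow_mul, ← mul_pow]
          congr 1
          ring
        rw [this]
        ring
      rw [e4]
      have e5 : ((l : ℝ) ^ l / ((l - 1).factorial : ℝ)) ^ 2 ≤ (Real.exp l * Real.exp l) ^ 2 :=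
        pow_le_pow_left₀ (by positivity) e3 2
      have e6 : (Real.exp l * Real.exp l) ^ 2 = (Real.exp 4) ^ l := by
        rw [← Real.exp_add, ← Real.exp_nat_mul, ← Real.exp_nat_mul]
        congr 1
        push_cast
        ring
      rw [mul_pow (C * (A : ℝ) ^ 2), ← e6]
      exact mul_le_mul_of_nonneg_left e5 (by positivity)
    have h5 : (6 : ℝ) ^ N = (6 ^ A) ^ l := by rw [hN, pow_mul]
    have hcc00 := cc_nonneg (fun k => hw.nonneg k l0) N
    calc cc (fun k => w k l) n ≤ D * cc (fun k => w k l) N := h1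
      _ ≤ D * (cc (fun k => w k l0) N * ((C * (N : ℝ) ^ 2) ^ l /
          (((l - 1).factorial : ℝ)) ^ 2)) := mul_le_mul_of_nonneg_left h2 (by linarith)
      _ ≤ D * ((C' * (6 ^ A) ^ l) * (C * (A : ℝ) ^ 2 * Real.exp 4) ^ l) := by
          apply mul_le_mul_of_nonneg_left _ (by linarith)
          rw [← h5]
          exact mul_le_mul h3 h4 (by positivity) (by positivity)
      _ = D * C' * K1 ^ l := by
          rw [hK1]
          rw [mul_assoc C', ← mul_pow]
          ring
      _ ≤ (D * C') ^ l * K1 ^ l := by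
          apply mul_le_mul_of_nonneg_right _ (by positivity)
          exact le_self_pow₀ (one_le_mul_of_one_le_of_one_le hD hC') (by omega)
      _ = (D * C' * K1) ^ l := by rw [← mul_pow]
      _ ≤ ((1 + D * M0) + D * C' * K1) ^ l :=
          pow_le_pow_left₀ hDCK (by linarith) l

end PkgF14

theorem pkgF14 (h1 : S_ff) (h2 : S_quasi) (h3 : S_ratio) : S_large := by
  intro w hw δ hδ
  obtain ⟨K, hK, hkey⟩ := PkgF14.key_bound h2 h3 hw hδ
  refine ⟨K, hK, ?_⟩
  intro t l n hln
  have hl : 1 ≤ l := by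
    by_contra hcon
    have : l = 0 := by omega
    subst this
    have : (0 : ℝ) ≤ δ * n := by positivity
    simp at hln
    linarith
  obtain ⟨f1, -, -, -, -, f6⟩ := h1
  unfold AA aa
  calc ∑ v ∈ range (n + 1), ff t v * cc (fun k => w k l) (n - v)
      ≤ ∑ v ∈ range (n + 1), ff t v * K ^ l := by
        apply Finset.sum_le_sum
        intro v _
        apply mul_le_mul_of_nonneg_left _ (f1 t v)
        apply hkey l (n - v) hl
        have : ((n - v : ℕ) : ℝ) ≤ n := by exact_mod_cast Nat.sub_le n v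
        nlinarith
    _ = (∑ v ∈ range (n + 1), ff t v) * K ^ l := by rw [Finset.sum_mul]
    _ ≤ (1 / (t.factorial : ℝ)) * K ^ l :=
        mul_le_mul_of_nonneg_right (f6 t (n + 1)) (by positivity)
    _ = K ^ l / (t.factorial : ℝ) := by ring

end GiantSurf57
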