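import Pool.Agent.GiantSurf57.StmtsTop

open scoped Classical
open Finset

namespace GiantSurf57

namespace PkgF15

theorem pois_nonneg (n j : ℕ) : 0 ≤ pois n j := by
  unfold pois; positivity

theorem bt_nonneg (n k : ℕ) : 0 ≤ bt n k := by
  unfold bt
  have := pois_nonneg n (n - k)
  positivity

theorem cc_nonneg {u : ℕ → ℝ} (hu : ∀ k, 0 ≤ u k) (n : ℕ) : 0 ≤ cc u n := by
  unfold cc
  split_ifs
  · exact hu 0
  · exact Finset.sum_nonneg fun k _ => mul_nonneg (hu k) (bt_nonneg n k)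

theorem factorial_le {n : ℕ} (hn : 1 ≤ n) :
    (n.factorial : ℝ) ≤ Real.exp 1 * n * ((n : ℝ) ^ n * Real.exp (-(n : ℝ))) := by
  have hn' : (1 : ℝ) ≤ n := by exact_mod_cast hn
  obtain ⟨m, rfl⟩ : ∃ m, n = m + 1 := ⟨n - 1, by omega⟩
  have h : Stirling.stirlingSeq (m + 1) ≤ Stirling.stirlingSeq (0 + 1) :=
    Stirling.stirlingSeq'_antitone (Nat.zero_le m)
  rw [zero_add, Stirling.stirlingSeq_one] at h
  unfold Stirling.stirlingSeq at h
  set n := m + 1 with hnm
  have hs2 : √(2 * (n : ℝ)) = √2 * √n := Real.sqrt_mul (by norm_num) _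
  rw [hs2] at h
  have hs : 0 < √(2 : ℝ) := by positivity
  have hsn : 0 < √(n : ℝ) := Real.sqrt_pos.mpr (by linarith)
  have hpow : 0 < ((n : ℝ) / Real.exp 1) ^ n := by positivity
  rw [div_le_iff₀ (by positivity)] at h
  have h1 : Real.exp 1 / √2 * (√2 * √n * ((n : ℝ) / Real.exp 1) ^ n)
      = Real.exp 1 * √n * ((n : ℝ) / Real.exp 1) ^ n := by
    field_simp
  rw [h1] at h
  have h2 : √(n : ℝ) ≤ n := by
    rw [Real.sqrt_le_left (by linarith)]
    nlinarith
  have h3 : ((n : ℝ) / Real.exp 1) ^ n = (n : ℝ) ^ n * Real.exp (-(n : ℝ)) := by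
    rw [div_pow, div_eq_mul_inv, ← Real.exp_nat_mul, mul_one, Real.exp_neg]
  rw [h3] at h
  calc (n.factorial : ℝ) ≤ Real.exp 1 * √n * ((n : ℝ) ^ n * Real.exp (-(n : ℝ))) := h
    _ ≤ Real.exp 1 * n * ((n : ℝ) ^ n * Real.exp (-(n : ℝ))) := by
      apply mul_le_mul_of_nonneg_right _ (by positivity)
      exact mul_le_mul_of_nonneg_left h2 (Real.exp_pos _).le

/-- `bt n 4 ≥ n^(-6)`. -/
theorem bt4_ge {n : ℕ} (hn : 4 ≤ n) : 1 / (n : ℝ) ^ 6 ≤ bt n 4 := by
  obtain ⟨m, rfl⟩ : ∃ m, n = m + 4 := ⟨n - 4, by omega⟩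
  have hn' : (4 : ℝ) ≤ ((m + 4 : ℕ) : ℝ) := by exact_mod_cast hn
  have hfac := factorial_le (n := m + 4) (by omega)
  have h4 : ((m + 4).factorial : ℝ) = (m + 4) * (m + 3) * (m + 2) * (m + 1) * m.factorial := by
    have : (m + 4).factorial = (m + 4) * ((m + 3) * ((m + 2) * ((m + 1) * m.factorial))) := rfl
    rw [this]; push_cast; ring
  have hge : (m.factorial : ℝ) ≤ ((m + 4).factorial : ℝ) := by
    exact_mod_cast Nat.factorial_le (by omega)
  unfold bt pois
  have hsub : m + 4 - 4 = m := by omega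
  rw [hsub]
  set N : ℝ := ((m + 4 : ℕ) : ℝ) with hN
  have hNpos : 0 < N := by linarith
  have hmf : 0 < (m.factorial : ℝ) := by positivity
  have hexp : 0 < Real.exp (-N) := Real.exp_pos _
  have he : Real.exp 1 ≤ 4 := by
    have := Real.exp_one_lt_d9; linarith
  -- N^(m+4) = N^m N^4
  have hp : N ^ (m + 4) = N ^ m * N ^ 4 := pow_add _ _ _
  rw [hp] at hfac
  have h5 : (m.factorial : ℝ) ≤ 4 * N * (N ^ m * N ^ 4 * Real.exp (-N)) := by
    calc (m.factorial : ℝ) ≤ _ := hge
      _ ≤ _ := hfac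
      _ ≤ 4 * N * (N ^ m * N ^ 4 * Real.exp (-N)) := by
        apply mul_le_mul_of_nonneg_right _ (by positivity)
        exact mul_le_mul_of_nonneg_right he hNpos.le
  rw [div_mul_div_comm, div_le_div_iff₀ (by positivity) (by positivity)]
  push_cast
  nlinarith [h5, mul_pos hNpos hmf]

theorem cc1_ge {w : ℕ → ℕ → ℝ} (hw : WSeq w) {n : ℕ} (hn : 4 ≤ n) :
    w 4 1 / (n : ℝ) ^ 6 ≤ cc (fun k => w k 1) n := by
  unfold cc
  rw [if_neg (by omega)]
  have h1 : w 4 1 * bt n 4 ≤ ∑ k ∈ range (n + 1), w k 1 * bt n k :=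
    Finset.single_le_sum (f := fun k => w k 1 * bt n k)
      (fun k _ => mul_nonneg (hw.nonneg k 1) (bt_nonneg n k)) (Finset.mem_range.mpr (by omega))
  have h2 := mul_le_mul_of_nonneg_left (bt4_ge hn) hw.pos.le
  calc w 4 1 / (n : ℝ) ^ 6 = w 4 1 * (1 / (n : ℝ) ^ 6) := by ring
    _ ≤ w 4 1 * bt n 4 := h2
    _ ≤ _ := h1

end PkgF15

open PkgF15 in
theorem pkgF15 (h1 : S_ff) (h2 : S_ratio) : S_lower := by
  intro w hw
  obtain ⟨C, δ0, hC, hδ0, hlow, -⟩ := h2 w hw
  obtain ⟨f1, -, f3, -, -, -⟩ := h1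
  obtain ⟨n1, hn1⟩ := exists_nat_ge (Real.exp 1 / w 4 1)
  have hw41 := hw.pos
  have he1 : 1 ≤ Real.exp 1 := Real.one_le_exp (by norm_num)
  refine ⟨7, n1 + 8, min (δ0 / 2) (1 / (2 * C)), by positivity, ?_, ?_⟩
  · intro t n hn ht
    have hnt : 4 ≤ n - t := by omega
    have hnr : (8 : ℝ) ≤ n := by
      have : 8 ≤ n := by omega
      exact_mod_cast this
    have hterm : ff t t * cc (fun k => w k 1) (n - t) ≤ AA w t 1 n := by
      unfold AA aa
      exact Finset.single_le_sum (f := fun v => ff t v * cc (fun k => w k 1) (n - v))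
        (fun v _ => mul_nonneg (f1 t v) (cc_nonneg (fun k => hw.nonneg k 1) _))
        (Finset.mem_range.mpr (by omega))
    rw [f3] at hterm
    have hcc := cc1_ge hw hnt
    have hle : ((n - t : ℕ) : ℝ) ≤ n := by exact_mod_cast Nat.sub_le n t
    have hpos : (0 : ℝ) < ((n - t : ℕ) : ℝ) := by
      have : 0 < n - t := by omega
      exact_mod_cast this
    have h6 : w 4 1 / (n : ℝ) ^ 6 ≤ w 4 1 / ((n - t : ℕ) : ℝ) ^ 6 := by
      apply div_le_div_of_nonneg_left hw41.le (by positivity)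
      exact pow_le_pow_left₀ hpos.le hle 6
    have hnw : 1 ≤ n * w 4 1 := by
      have hn1' : (n1 : ℝ) ≤ n := by
        have : n1 ≤ n := by omega
        exact_mod_cast this
      have : Real.exp 1 / w 4 1 ≤ n := le_trans hn1 hn1'
      rw [div_le_iff₀ hw41] at this
      linarith
    have htf : 0 < (t.factorial : ℝ) := by positivity
    have hnpos : (0 : ℝ) < n := by linarith
    calc Real.exp (-(t : ℝ)) = Real.exp (-(t : ℝ)) * 1 := (mul_one _).symm
      _ ≤ Real.exp (-(t : ℝ)) * (n * w 4 1) :=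
          mul_le_mul_of_nonneg_left hnw (Real.exp_pos _).le
      _ = (n : ℝ) ^ 7 * (t.factorial : ℝ) *
          (Real.exp (-(t : ℝ)) / (t.factorial : ℝ) * (w 4 1 / (n : ℝ) ^ 6)) := by
          field_simp
      _ ≤ (n : ℝ) ^ 7 * (t.factorial : ℝ) *
          (Real.exp (-(t : ℝ)) / (t.factorial : ℝ) * cc (fun k => w k 1) (n - t)) := by
          apply mul_le_mul_of_nonneg_left _ (by positivity)
          apply mul_le_mul_of_nonneg_left _ (by positivity)
          exact le_trans h6 hcc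
      _ ≤ (n : ℝ) ^ 7 * (t.factorial : ℝ) * AA w t 1 n :=
          mul_le_mul_of_nonneg_left hterm (by positivity)
  · intro l n hn hl hln
    have hnr : (8 : ℝ) ≤ n := by
      have : 8 ≤ n := by omega
      exact_mod_cast this
    have hlr : (1 : ℝ) ≤ l := by exact_mod_cast hl
    have hln1 : (l : ℝ) ≤ δ0 / 2 * n := le_trans hln
      (mul_le_mul_of_nonneg_right (min_le_left _ _) (by linarith))
    have hln2 : (l : ℝ) ≤ 1 / (2 * C) * n := le_trans hln
      (mul_le_mul_of_nonneg_right (min_le_right _ _) (by linarith))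
    obtain ⟨N, hN⟩ : ∃ N, N = n - 1 := ⟨_, rfl⟩
    have hNn : (N : ℝ) = n - 1 := by
      rw [hN, Nat.cast_sub (by omega)]; simp
    have hN2 : (n : ℝ) ≤ 2 * N := by linarith
    have hmono : ∀ i, 1 + i ≤ l → cc (fun k => w k 1) N ≤ cc (fun k => w k (1 + i)) N := by
      intro i
      induction i with
      | zero => intro _; exact le_rfl
      | succ i ih =>
        intro hi
        refine le_trans (ih (by omega)) ?_
        have hjl : ((1 + i : ℕ) : ℝ) ≤ l := by
          have : 1 + i ≤ l := by omega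
          exact_mod_cast this
        have hj1 : (1 : ℝ) ≤ ((1 + i : ℕ) : ℝ) := by
          have : 1 ≤ 1 + i := by omega
          exact_mod_cast this
        have hj := hlow (1 + i) N (by omega) (by nlinarith)
        have hx : C ≤ (N : ℝ) / ((1 + i : ℕ) : ℝ) := by
          rw [le_div_iff₀ (by linarith)]
          have : l * (2 * C) ≤ n := by
            have h := mul_le_mul_of_nonneg_right hln2 (by linarith : (0 : ℝ) ≤ 2 * C)
            have e : 1 / (2 * C) * n * (2 * C) = n := by field_simp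
            rwa [e] at h
          nlinarith
        have hr : C ≤ r32 ((N : ℝ) / ((1 + i : ℕ) : ℝ)) := by
          unfold r32
          have hs : 1 ≤ √((N : ℝ) / ((1 + i : ℕ) : ℝ)) := by
            rw [Real.one_le_sqrt]; linarith
          nlinarith
        have hcc0 := cc_nonneg (fun k => hw.nonneg k (1 + i)) N
        have h3 : C * cc (fun k => w k (1 + i)) N ≤ C * cc (fun k => w k (1 + i + 1)) N :=
          le_trans (mul_le_mul_of_nonneg_right hr hcc0) hj
        exact le_of_mul_le_mul_left h3 (by linarith)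
    obtain ⟨i, hi⟩ := Nat.exists_eq_add_of_le hl
    have h3 := hmono i (by omega)
    rw [← hi] at h3
    have hcc := cc1_ge hw (n := N) (by omega)
    have hterm : ff 1 1 * cc (fun k => w k l) N ≤ AA w 1 l n := by
      unfold AA aa
      rw [hN]
      exact Finset.single_le_sum (f := fun v => ff 1 v * cc (fun k => w k l) (n - v))
        (fun v _ => mul_nonneg (f1 1 v) (cc_nonneg (fun k => hw.nonneg k l) _))
        (Finset.mem_range.mpr (by omega))
    rw [f3] at hterm
    simp only [Nat.cast_one, Nat.factorial_one, div_one] at hterm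
    have hNpos : (0 : ℝ) < N := by linarith
    have hnpos : (0 : ℝ) < n := by linarith
    have h6 : w 4 1 / (n : ℝ) ^ 6 ≤ w 4 1 / (N : ℝ) ^ 6 := by
      apply div_le_div_of_nonneg_left hw41.le (by positivity)
      exact pow_le_pow_left₀ hNpos.le (by linarith) 6
    have hnw : Real.exp 1 ≤ n * w 4 1 := by
      have hn1' : (n1 : ℝ) ≤ n := by
        have : n1 ≤ n := by omega
        exact_mod_cast this
      have : Real.exp 1 / w 4 1 ≤ n := le_trans hn1 hn1'
      rwa [div_le_iff₀ hw41] at this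
    calc (1 : ℝ) = Real.exp (-1) * Real.exp 1 := by rw [← Real.exp_add]; simp
      _ ≤ Real.exp (-1) * (n * w 4 1) := mul_le_mul_of_nonneg_left hnw (Real.exp_pos _).le
      _ = (n : ℝ) ^ 7 * (Real.exp (-1) * (w 4 1 / (n : ℝ) ^ 6)) := by field_simp
      _ ≤ (n : ℝ) ^ 7 * (Real.exp (-1) * cc (fun k => w k l) N) := by
          apply mul_le_mul_of_nonneg_left _ (by positivity)
          apply mul_le_mul_of_nonneg_left _ (Real.exp_pos _).le
          exact le_trans h6 (le_trans hcc h3)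
      _ ≤ (n : ℝ) ^ 7 * AA w 1 l n := mul_le_mul_of_nonneg_left hterm (by positivity)

end GiantSurf57
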