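import Pool.Agent.GiantSurf57.StmtsTop

/-! Package F16: large excess is negligible. -/

open scoped Classical
open Finset

namespace GiantSurf57

namespace PkgF16

theorem pp_nonneg (s : ℕ) : 0 ≤ pp s := by unfold pp; positivity

theorem ff_nonneg : ∀ t v, 0 ≤ ff t v
  | 0, v => by unfold ff; split_ifs <;> norm_num
  | t + 1, v => by
    unfold ff
    exact div_nonneg (Finset.sum_nonneg fun s _ => mul_nonneg (pp_nonneg s) (ff_nonneg t _))
      (by positivity)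

theorem bt_nonneg (n k : ℕ) : 0 ≤ bt n k := by unfold bt pois; positivity

theorem cc_nonneg {u : ℕ → ℝ} (hu : ∀ k, 0 ≤ u k) (n : ℕ) : 0 ≤ cc u n := by
  unfold cc
  split_ifs
  · exact hu 0
  · exact Finset.sum_nonneg fun k _ => mul_nonneg (hu k) (bt_nonneg n k)

theorem AA_nonneg {w : ℕ → ℕ → ℝ} (hw : WSeq w) (t l n : ℕ) : 0 ≤ AA w t l n := by
  unfold AA aa
  exact Finset.sum_nonneg fun v _ =>
    mul_nonneg (ff_nonneg _ _) (cc_nonneg (fun k => hw.nonneg k l) _)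

theorem le_ZZ {w : ℕ → ℕ → ℝ} (hw : WSeq w) (n : ℕ) (M : ℤ) (t l : ℕ) (ht : t ≤ n)
    (hl : (l : ℤ) = t + M) : AA w t l n ≤ ZZ w n M := by
  unfold ZZ
  have hmem : t ∈ (range (n + 1)).filter (fun t : ℕ => 0 ≤ (t : ℤ) + M) := by
    simp only [mem_filter, mem_range]; omega
  have h := Finset.single_le_sum (f := fun t : ℕ => AA w t ((t : ℤ) + M).toNat n)
    (fun i _ => AA_nonneg hw _ _ _) hmem
  have e : ((t : ℤ) + M).toNat = l := by omega
  simpa [e] using h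

theorem ZZ_lower {w : ℕ → ℕ → ℝ} (hw : WSeq w) (K1 n1 : ℕ) (δ1 η : ℝ) (hδ1 : 0 < δ1)
    (ha : ∀ t n : ℕ, n1 ≤ n → 2 * t ≤ n →
      Real.exp (-(t : ℝ)) ≤ (n : ℝ) ^ K1 * (t.factorial : ℝ) * AA w t 1 n)
    (hb : ∀ l n : ℕ, n1 ≤ n → 1 ≤ l → (l : ℝ) ≤ δ1 * n → 1 ≤ (n : ℝ) ^ K1 * AA w 1 l n)
    (hη1 : η ≤ 1 / 4) (hη2 : η ≤ δ1 / 2) (n : ℕ) (M : ℤ) (hn1 : n1 ≤ n) (hn4 : 4 ≤ n)
    (hn2 : 2 / δ1 ≤ n) (hM : |(M : ℝ)| ≤ η * n) :
    ∃ t0 : ℕ, (t0 : ℝ) ≤ η * n + 1 ∧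
      Real.exp (-(t0 : ℝ)) ≤ (n : ℝ) ^ K1 * (t0.factorial : ℝ) * ZZ w n M := by
  have hn0 : (0 : ℝ) < n := by exact_mod_cast (by omega : 0 < n)
  have hn4' : (4 : ℝ) ≤ n := by exact_mod_cast hn4
  have habs := abs_le.1 hM
  have hη0 : 0 ≤ η * n := (abs_nonneg _).trans hM
  rcases le_or_gt M 0 with h | h
  · -- `t0 = 1 - M`
    obtain ⟨t0, ht0⟩ : ∃ t0 : ℕ, (t0 : ℤ) = 1 - M := ⟨(1 - M).toNat, by omega⟩
    have ht0r : (t0 : ℝ) = 1 - (M : ℝ) := by exact_mod_cast ht0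
    have h1 : (t0 : ℝ) ≤ η * n + 1 := by linarith [habs.1]
    have h2 : 2 * t0 ≤ n := by
      have : (2 : ℝ) * t0 ≤ n := by nlinarith
      exact_mod_cast this
    refine ⟨t0, h1, (ha t0 n hn1 h2).trans ?_⟩
    apply mul_le_mul_of_nonneg_left _ (by positivity)
    exact le_ZZ hw n M t0 1 (by omega) (by push_cast; omega)
  · -- `t0 = 0`
    obtain ⟨l, hl⟩ : ∃ l : ℕ, (l : ℤ) = 1 + M := ⟨(1 + M).toNat, by omega⟩
    have hlr : (l : ℝ) = 1 + (M : ℝ) := by exact_mod_cast hl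
    have h3 : 2 ≤ n * δ1 := by rwa [div_le_iff₀ hδ1] at hn2
    have h1 : (l : ℝ) ≤ δ1 * n := by
      rw [hlr]
      nlinarith [habs.2]
    refine ⟨0, by push_cast; linarith, ?_⟩
    have h4 := hb l n hn1 (by omega) h1
    have h5 : AA w 1 l n ≤ ZZ w n M := le_ZZ hw n M 1 l (by omega) (by push_cast; omega)
    have h6 : (n : ℝ) ^ K1 * AA w 1 l n ≤ (n : ℝ) ^ K1 * ZZ w n M :=
      mul_le_mul_of_nonneg_left h5 (by positivity)
    simp only [Nat.cast_zero, neg_zero, Real.exp_zero, Nat.factorial_zero, Nat.cast_one, mul_one]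
    linarith

theorem analysis (δ η K0 : ℝ) (Kt : ℕ) (hδ : 0 < δ) (hη0 : 0 ≤ η) (hη : η ≤ δ / 8)
    (hη1 : η ≤ 1 / 4) (hK0 : 1 ≤ K0) : ∃ n0 : ℕ, ∀ n : ℕ, n0 ≤ n → ∀ t t0 l : ℕ,
      δ * n / 4 ≤ t → (t0 : ℝ) ≤ η * n + 1 → l ≤ 2 * n + 1 →
      (n : ℝ) ^ Kt * K0 ^ l * (Real.exp t0 * (t0.factorial : ℝ)) ≤ (t.factorial : ℝ) := by
  set A : ℝ := 3 * Real.log K0 + η + 1 + δ / 4 * |1 - Real.log (δ / 4)| with hA
  have e1 : ∀ᶠ n : ℕ in Filter.atTop, 16 * A / δ ≤ Real.log n :=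
    (Real.tendsto_log_atTop.comp tendsto_natCast_atTop_atTop).eventually_ge_atTop _
  have e2 : ∀ᶠ n : ℕ in Filter.atTop, 16 * ((Kt : ℝ) + 1) / δ ≤ (n : ℝ) :=
    tendsto_natCast_atTop_atTop.eventually_ge_atTop _
  have e3 : ∀ᶠ n : ℕ in Filter.atTop, 1 - Real.log (δ / 4) ≤ Real.log n :=
    (Real.tendsto_log_atTop.comp tendsto_natCast_atTop_atTop).eventually_ge_atTop _
  have e4 : ∀ᶠ n : ℕ in Filter.atTop, 4 ≤ n := Filter.eventually_ge_atTop 4
  obtain ⟨n0, hn0⟩ := Filter.eventually_atTop.1 (e1.and (e2.and (e3.and e4)))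
  refine ⟨n0, fun n hn t t0 l ht ht0 hl => ?_⟩
  obtain ⟨h1, h2, h3, h4⟩ := hn0 n hn
  have hnpos : (0 : ℝ) < n := by exact_mod_cast (by omega : 0 < n)
  have hn4' : (4 : ℝ) ≤ n := by exact_mod_cast h4
  set L := Real.log n with hL
  have hL0 : 0 ≤ L := Real.log_nonneg (by linarith)
  have hlK : 0 ≤ Real.log K0 := Real.log_nonneg hK0
  have hA0 : 0 ≤ A := by positivity
  -- upper bound of the left side
  have ht0n : t0 ≤ n := by
    have : (t0 : ℝ) ≤ n := by nlinarith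
    exact_mod_cast this
  have hf0 : (t0.factorial : ℝ) ≤ (n : ℝ) ^ t0 := by
    have h5 : t0.factorial ≤ t0 ^ t0 := Nat.factorial_le_pow t0
    have h6 : t0 ^ t0 ≤ n ^ t0 := Nat.pow_le_pow_left ht0n _
    exact_mod_cast h5.trans h6
  have hexpn : (n : ℝ) = Real.exp L := (Real.exp_log hnpos).symm
  have hexpK : K0 = Real.exp (Real.log K0) := (Real.exp_log (by linarith)).symm
  have hup : (n : ℝ) ^ Kt * K0 ^ l * (Real.exp t0 * (t0.factorial : ℝ)) ≤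
      Real.exp (Kt * L + l * Real.log K0 + (t0 + t0 * L)) := by
    have h7 : (n : ℝ) ^ Kt * K0 ^ l * (Real.exp t0 * (t0.factorial : ℝ)) ≤
        (n : ℝ) ^ Kt * K0 ^ l * (Real.exp t0 * (n : ℝ) ^ t0) := by
      have hK0' : 0 ≤ K0 := by linarith
      gcongr
    refine h7.trans (le_of_eq ?_)
    have p1 : (n : ℝ) ^ Kt = Real.exp (Kt * L) := by rw [Real.exp_nat_mul, ← hexpn]
    have p2 : K0 ^ l = Real.exp (l * Real.log K0) := by rw [Real.exp_nat_mul, ← hexpK]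
    have p3 : (n : ℝ) ^ t0 = Real.exp (t0 * L) := by rw [Real.exp_nat_mul, ← hexpn]
    rw [p1, p2, p3, ← Real.exp_add, ← Real.exp_add, ← Real.exp_add]
  -- lower bound of the right side
  set a : ℝ := δ * n / 4 with ha
  have ha0 : 0 < a := by positivity
  have hloga : Real.log a = L + Real.log (δ / 4) := by
    rw [ha, hL, show δ * n / 4 = n * (δ / 4) by ring, Real.log_mul hnpos.ne' (by positivity)]
  have htpos : (0 : ℝ) < t := lt_of_lt_of_le ha0 ht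
  have hlow : Real.exp (a * (Real.log a - 1)) ≤ (t.factorial : ℝ) := by
    have hf : (t : ℝ) ^ t / (t.factorial : ℝ) ≤ Real.exp t :=
      Real.pow_div_factorial_le_exp t htpos.le t
    have hfac : (0 : ℝ) < (t.factorial : ℝ) := by exact_mod_cast t.factorial_pos
    rw [div_le_iff₀ hfac] at hf
    have h8 : (t : ℝ) ^ t * Real.exp (-(t : ℝ)) ≤ (t.factorial : ℝ) := by
      calc (t : ℝ) ^ t * Real.exp (-(t : ℝ)) ≤
          Real.exp t * (t.factorial : ℝ) * Real.exp (-(t : ℝ)) := by gcongr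
        _ = (t.factorial : ℝ) := by
          rw [Real.exp_neg]; field_simp
    refine le_trans ?_ h8
    have p4 : (t : ℝ) ^ t = Real.exp (t * Real.log t) := by
      rw [Real.exp_nat_mul, Real.exp_log htpos]
    rw [p4, ← Real.exp_add]
    apply Real.exp_le_exp.2
    have h9 : Real.log a ≤ Real.log t := Real.log_le_log ha0 ht
    have h10 : 0 ≤ Real.log a - 1 := by rw [hloga]; linarith
    have h11 : a * (Real.log a - 1) ≤ t * (Real.log t - 1) :=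
      mul_le_mul ht (by linarith) h10 htpos.le
    linarith
  refine hup.trans (le_trans (Real.exp_le_exp.2 ?_) hlow)
  -- the comparison of the exponents
  have hl' : (l : ℝ) ≤ 2 * n + 1 := by exact_mod_cast hl
  have q1 : (l : ℝ) * Real.log K0 ≤ 3 * n * Real.log K0 :=
    mul_le_mul_of_nonneg_right (by linarith) hlK
  have q2 : (t0 : ℝ) * L ≤ (η * n + 1) * L := mul_le_mul_of_nonneg_right ht0 hL0
  have q3 : η * n * L ≤ δ / 8 * n * L := by
    have : 0 ≤ (n : ℝ) * L := by positivity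
    nlinarith
  have q4 : ((Kt : ℝ) + 1) * L ≤ δ / 16 * n * L := by
    apply mul_le_mul_of_nonneg_right _ hL0
    rw [div_le_iff₀ hδ] at h2
    linarith
  have q5 : A * n ≤ δ / 16 * n * L := by
    rw [div_le_iff₀ hδ] at h1
    nlinarith
  have q6 : 1 - Real.log (δ / 4) ≤ |1 - Real.log (δ / 4)| := le_abs_self _
  have q7 : a * (1 - Real.log (δ / 4)) ≤ δ / 4 * |1 - Real.log (δ / 4)| * n := by
    have := mul_le_mul_of_nonneg_left q6 ha0.le
    calc a * (1 - Real.log (δ / 4)) ≤ a * |1 - Real.log (δ / 4)| := this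
      _ = δ / 4 * |1 - Real.log (δ / 4)| * n := by rw [ha]; ring
  have q8 : A * n = 3 * n * Real.log K0 + η * n + n + δ / 4 * |1 - Real.log (δ / 4)| * n := by
    rw [hA]; ring
  have q9 : a * (Real.log a - 1) = δ / 4 * n * L - a * (1 - Real.log (δ / 4)) := by
    rw [hloga, ha]; ring
  rw [q9]
  have q10 : δ / 4 * n * L = δ / 8 * n * L + δ / 16 * n * L + δ / 16 * n * L := by ring
  nlinarith

end PkgF16

open PkgF16 in
theorem pkgF16 (h1 : S_large) (h2 : S_lower) : S_X1 := by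
  intro w hw δ K hδ
  obtain ⟨K0, hK0, hup⟩ := h1 w hw δ hδ
  obtain ⟨K1, n1, δ1, hδ1, ha, hb⟩ := h2 w hw
  set η : ℝ := min (1 / 4) (min (δ / 8) (δ1 / 2)) with hη
  have hηpos : 0 < η := by rw [hη]; positivity
  have hη1 : η ≤ 1 / 4 := min_le_left _ _
  have hη2 : η ≤ δ / 8 := (min_le_right _ _).trans (min_le_left _ _)
  have hη3 : η ≤ δ1 / 2 := (min_le_right _ _).trans (min_le_right _ _)
  obtain ⟨n0, hn0⟩ := analysis δ η K0 (K + K1) hδ hηpos.le hη2 hη1 hK0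
  refine ⟨η, n0 + n1 + 4 + ⌈2 / δ1⌉₊ + ⌈2 / δ⌉₊, hηpos, ?_⟩
  intro n M hn hM t l htn hl hlt
  have hnpos : (0 : ℝ) < n := by exact_mod_cast (by omega : 0 < n)
  have hc1 : 2 / δ1 ≤ n := (Nat.le_ceil _).trans (by exact_mod_cast (by omega : ⌈2 / δ1⌉₊ ≤ n))
  have hc2 : 2 / δ ≤ n := (Nat.le_ceil _).trans (by exact_mod_cast (by omega : ⌈2 / δ⌉₊ ≤ n))
  have hc2' : 2 ≤ n * δ := by rwa [div_le_iff₀ hδ] at hc2
  obtain ⟨t0, ht0, hZ⟩ := ZZ_lower hw K1 n1 δ1 η hδ1 ha hb hη1 hη3 n M (by omega) (by omega) hc1 hM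
  have habs := abs_le.1 hM
  have hlt1 : (l : ℝ) ≤ t + 1 + M := by
    rcases hl with hl | hl
    · have : (l : ℝ) = t + M := by exact_mod_cast hl
      linarith
    · have : (l : ℝ) = t + 1 + M := by exact_mod_cast hl
      linarith
  have htn' : (t : ℝ) ≤ n := by exact_mod_cast htn
  have ht : δ * n / 4 ≤ t := by nlinarith [habs.2]
  have hl2 : l ≤ 2 * n + 1 := by
    have : (l : ℝ) ≤ 2 * n + 1 := by nlinarith [habs.2]
    exact_mod_cast this
  have hmain := hn0 n (by omega) t t0 l ht ht0 hl2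
  have hA := hup t l n hlt
  have hfac : (0 : ℝ) < (t.factorial : ℝ) := by exact_mod_cast t.factorial_pos
  have hfac0 : (0 : ℝ) < (t0.factorial : ℝ) := by exact_mod_cast t0.factorial_pos
  have hX : (0 : ℝ) < (n : ℝ) ^ K1 * (t0.factorial : ℝ) := by positivity
  have hZ' : Real.exp (-(t0 : ℝ)) / ((n : ℝ) ^ K1 * (t0.factorial : ℝ)) ≤ ZZ w n M := by
    rw [div_le_iff₀ hX]
    linarith
  refine le_trans ?_ hZ'
  have hA' : (n : ℝ) ^ K * AA w t l n ≤ (n : ℝ) ^ K * (K0 ^ l / (t.factorial : ℝ)) :=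
    mul_le_mul_of_nonneg_left hA (by positivity)
  refine hA'.trans ?_
  rw [← mul_div_assoc, div_le_div_iff₀ hfac hX]
  have he : Real.exp (-(t0 : ℝ)) * Real.exp (t0 : ℝ) = 1 := by
    rw [← Real.exp_add]; simp
  have hpos : 0 < Real.exp (-(t0 : ℝ)) := Real.exp_pos _
  calc (n : ℝ) ^ K * K0 ^ l * ((n : ℝ) ^ K1 * (t0.factorial : ℝ))
      = Real.exp (-(t0 : ℝ)) *
          ((n : ℝ) ^ (K + K1) * K0 ^ l * (Real.exp t0 * (t0.factorial : ℝ))) := by
        rw [pow_add]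
        linear_combination
          (-((n : ℝ) ^ K * (n : ℝ) ^ K1 * K0 ^ l * (t0.factorial : ℝ))) * he
    _ ≤ Real.exp (-(t0 : ℝ)) * (t.factorial : ℝ) :=
        mul_le_mul_of_nonneg_left hmain hpos.le

end GiantSurf57
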