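import Pool.Agent.GiantSurf57.StmtsTop

/-! Package F17: excess zero is negligible. -/

open scoped Classical
open Finset

namespace GiantSurf57

namespace PkgF17

theorem pp_nonneg (s : ℕ) : 0 ≤ pp s := by
  unfold pp
  positivity

theorem ff_nonneg (t v : ℕ) : 0 ≤ ff t v := by
  induction t generalizing v with
  | zero =>
    unfold ff
    split_ifs <;> norm_num
  | succ t ih =>
    unfold ff
    apply div_nonneg
    · exact sum_nonneg fun s _ => mul_nonneg (pp_nonneg s) (ih _)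
    · positivity

theorem bt_nonneg (n k : ℕ) : 0 ≤ bt n k := by
  unfold bt pois
  positivity

theorem cc_nonneg {w : ℕ → ℝ} (hw : ∀ k, 0 ≤ w k) (n : ℕ) : 0 ≤ cc w n := by
  unfold cc
  split_ifs
  · exact hw 0
  · exact sum_nonneg fun k _ => mul_nonneg (hw k) (bt_nonneg n k)

theorem AA_nonneg {w : ℕ → ℕ → ℝ} (hw : WSeq w) (t l n : ℕ) : 0 ≤ AA w t l n := by
  unfold AA aa
  exact sum_nonneg fun v _ => mul_nonneg (ff_nonneg t v) (cc_nonneg (fun k => hw.nonneg k l) _)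

theorem AA_le_ZZ {w : ℕ → ℕ → ℝ} (hw : WSeq w) {t l n : ℕ} {M : ℤ} (ht : t ≤ n)
    (hl : (t : ℤ) + M = l) : AA w t l n ≤ ZZ w n M := by
  unfold ZZ
  have h1 : AA w t l n = AA w t ((t : ℤ) + M).toNat n := by
    rw [hl]
    simp
  rw [h1]
  refine single_le_sum (f := fun t => AA w t ((t : ℤ) + M).toNat n)
    (fun i _ => AA_nonneg hw _ _ _) ?_
  rw [mem_filter, mem_range]
  constructor
  · omega
  · rw [hl]
    positivity

theorem r32_mono {x y : ℝ} (hx : 0 ≤ x) (hxy : x ≤ y) : r32 x ≤ r32 y := by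
  unfold r32
  exact mul_le_mul hxy (Real.sqrt_le_sqrt hxy) (Real.sqrt_nonneg _) (hx.trans hxy)

/-- one step of the chain -/
theorem chain_step {w : ℕ → ℕ → ℝ} (hw : WSeq w) {C δ : ℝ} (hC : 1 ≤ C)
    (hR : ∀ t l n : ℕ, 1 ≤ l → (l : ℝ) ≤ δ * n → (t : ℝ) ≤ δ * n →
      r32 ((n : ℝ) / l) * AA w t l n ≤ C * (t + 1) * AA w (t + 1) (l + 1) n)
    {t l n L : ℕ} (hl : 1 ≤ l) (hlL : l ≤ L) (hlδ : (l : ℝ) ≤ δ * n) (htδ : (t : ℝ) ≤ δ * n)
    (htn : t + 1 ≤ n) :
    AA w t l n ≤ C * (L * √(L : ℝ)) / √(n : ℝ) * AA w (t + 1) (l + 1) n := by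
  have hn : (0 : ℝ) < n := by
    have : 0 < n := by omega
    exact_mod_cast this
  have hL : (0 : ℝ) < L := by
    have : 0 < L := by omega
    exact_mod_cast this
  have hl0 : (0 : ℝ) < l := by exact_mod_cast hl
  have h1 := hR t l n hl hlδ htδ
  have hA := AA_nonneg hw t l n
  have hA' := AA_nonneg hw (t + 1) (l + 1) n
  have h2 : r32 ((n : ℝ) / L) ≤ r32 ((n : ℝ) / l) := by
    apply r32_mono (by positivity)
    apply div_le_div_of_nonneg_left hn.le hl0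
    exact_mod_cast hlL
  have h3 : r32 ((n : ℝ) / L) = n * √(n : ℝ) / (L * √(L : ℝ)) := by
    unfold r32
    rw [Real.sqrt_div hn.le]
    have hsL : 0 < √(L : ℝ) := Real.sqrt_pos.2 hL
    field_simp
  have hsn : 0 < √(n : ℝ) := Real.sqrt_pos.2 hn
  have hsL : 0 < √(L : ℝ) := Real.sqrt_pos.2 hL
  have h4 : n * √(n : ℝ) / (L * √(L : ℝ)) * AA w t l n ≤ C * n * AA w (t + 1) (l + 1) n := by
    rw [← h3]
    calc r32 ((n : ℝ) / L) * AA w t l n ≤ r32 ((n : ℝ) / l) * AA w t l n :=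
          mul_le_mul_of_nonneg_right h2 hA
      _ ≤ C * (t + 1) * AA w (t + 1) (l + 1) n := h1
      _ ≤ C * n * AA w (t + 1) (l + 1) n := by
          apply mul_le_mul_of_nonneg_right _ hA'
          apply mul_le_mul_of_nonneg_left _ (by linarith)
          exact_mod_cast htn
  have h5 : n * √(n : ℝ) * AA w t l n ≤
      C * n * AA w (t + 1) (l + 1) n * (L * √(L : ℝ)) := by
    rw [div_mul_eq_mul_div, div_le_iff₀ (by positivity)] at h4
    exact h4
  rw [div_mul_eq_mul_div, le_div_iff₀ hsn]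
  have h6 : n * (AA w t l n * √(n : ℝ)) ≤ n * (C * (L * √(L : ℝ)) * AA w (t + 1) (l + 1) n) := by
    nlinarith [h5]
  exact le_of_mul_le_mul_left h6 hn

theorem chain {w : ℕ → ℕ → ℝ} (hw : WSeq w) {C δ : ℝ} (hC : 1 ≤ C)
    (hR : ∀ t l n : ℕ, 1 ≤ l → (l : ℝ) ≤ δ * n → (t : ℝ) ≤ δ * n →
      r32 ((n : ℝ) / l) * AA w t l n ≤ C * (t + 1) * AA w (t + 1) (l + 1) n)
    {t n L : ℕ} (hLδ : (L : ℝ) ≤ δ * n) (htδ : ((t + L : ℕ) : ℝ) ≤ δ * n)
    (htn : t + L ≤ n) (i : ℕ) (hi : i ≤ L) :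
    AA w t 1 n ≤ (C * (L * √(L : ℝ)) / √(n : ℝ)) ^ i * AA w (t + i) (1 + i) n := by
  induction i with
  | zero => simp
  | succ i ih =>
    have h1 := ih (by omega)
    have h2 : AA w (t + i) (1 + i) n ≤
        C * (L * √(L : ℝ)) / √(n : ℝ) * AA w (t + i + 1) (1 + i + 1) n := by
      apply chain_step hw hC hR (by omega) (by omega) _ _ (by omega)
      · refine le_trans ?_ hLδ
        exact_mod_cast (by omega : 1 + i ≤ L)
      · refine le_trans ?_ htδ
        exact_mod_cast (by omega : t + i ≤ t + L)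
    calc AA w t 1 n ≤ (C * (L * √(L : ℝ)) / √(n : ℝ)) ^ i * AA w (t + i) (1 + i) n := h1
      _ ≤ (C * (L * √(L : ℝ)) / √(n : ℝ)) ^ i *
          (C * (L * √(L : ℝ)) / √(n : ℝ) * AA w (t + i + 1) (1 + i + 1) n) := by
          apply mul_le_mul_of_nonneg_left h2
          positivity
      _ = (C * (L * √(L : ℝ)) / √(n : ℝ)) ^ (i + 1) * AA w (t + (i + 1)) (1 + (i + 1)) n := by
          rw [pow_succ, mul_assoc]
          rfl

theorem pow_four_le {C : ℝ} (hC : 1 ≤ C) {L n : ℕ} (hn : 1 ≤ n)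
    (h : C ^ 4 * (L : ℝ) ^ 6 ≤ n) : (C * (L * √(L : ℝ)) / √(n : ℝ)) ^ 4 ≤ 1 / n := by
  have hn' : (0 : ℝ) < n := by exact_mod_cast hn
  have h1 : √(L : ℝ) ^ 4 = (L : ℝ) ^ 2 := by
    have : √(L : ℝ) ^ 2 = L := Real.sq_sqrt (by positivity)
    calc √(L : ℝ) ^ 4 = (√(L : ℝ) ^ 2) ^ 2 := by ring
      _ = (L : ℝ) ^ 2 := by rw [this]
  have h2 : √(n : ℝ) ^ 4 = (n : ℝ) ^ 2 := by
    have : √(n : ℝ) ^ 2 = n := Real.sq_sqrt (by positivity)
    calc √(n : ℝ) ^ 4 = (√(n : ℝ) ^ 2) ^ 2 := by ring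
      _ = (n : ℝ) ^ 2 := by rw [this]
  rw [div_pow, mul_pow, mul_pow, h1, h2, div_le_div_iff₀ (by positivity) hn']
  nlinarith

end PkgF17

open PkgF17 in
theorem pkgF17 (h1 : S_V) (h2 : S_R) (h3 : S_zero) : S_X0 := by
  intro w hw K
  obtain ⟨C1, δ1, hC1, hδ1, hV⟩ := h1 w hw
  obtain ⟨C2, δ2, hC2, hδ2, hR, -⟩ := h2 w hw
  obtain ⟨K0, n0, hz⟩ := h3 w hw
  set L : ℕ := 4 * (K + K0 + 2) with hL
  set δ : ℝ := min (min δ1 δ2) 1 with hδ
  have hδ0 : 0 < δ := lt_min (lt_min hδ1 hδ2) one_pos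
  have hδle1 : δ ≤ δ1 := (min_le_left _ _).trans (min_le_left _ _)
  have hδle2 : δ ≤ δ2 := (min_le_left _ _).trans (min_le_right _ _)
  have hδle : δ ≤ 1 := min_le_right _ _
  refine ⟨δ / 4, max (max n0 (⌈4 * ((L : ℝ) + 2) / δ⌉₊)) (max (⌈C2 ^ 4 * (L : ℝ) ^ 6⌉₊)
    (⌈C1⌉₊ + 1)), by positivity, ?_⟩
  intro n M hn hM t ht
  have hn0 : n0 ≤ n := le_trans (le_trans (le_max_left _ _) (le_max_left _ _)) hn
  have hnL : 4 * ((L : ℝ) + 2) / δ ≤ n := by
    refine (Nat.le_ceil _).trans ?_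
    exact_mod_cast le_trans (le_trans (le_max_right _ _) (le_max_left _ _)) hn
  have hnC2 : C2 ^ 4 * (L : ℝ) ^ 6 ≤ n := by
    refine (Nat.le_ceil _).trans ?_
    exact_mod_cast le_trans (le_trans (le_max_left _ _) (le_max_right _ _)) hn
  have hnC1' : ⌈C1⌉₊ + 1 ≤ n := le_trans (le_trans (le_max_right _ _) (le_max_right _ _)) hn
  have hnC1 : C1 ≤ n := by
    refine (Nat.le_ceil _).trans ?_
    exact_mod_cast (by omega : ⌈C1⌉₊ ≤ n)
  have hn1 : 1 ≤ n := by omega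
  have hnpos : (0 : ℝ) < n := by exact_mod_cast hn1
  -- `L + 2 ≤ δ n / 4`
  have hLn : (L : ℝ) + 2 ≤ δ * n / 4 := by
    rw [div_le_iff₀ hδ0] at hnL
    linarith
  -- `t ≤ δ n / 4`
  have htn : (t : ℝ) ≤ δ / 4 * n := by
    refine le_trans ?_ hM
    rcases ht with ht | ht
    · have : (M : ℝ) = -(t : ℝ) := by
        have : M = -(t : ℤ) := by linarith
        rw [this]
        push_cast
        ring
      rw [this, abs_neg, abs_of_nonneg (by positivity)]
    · have : (M : ℝ) = -((t : ℝ) + 1) := by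
        have : M = -((t : ℤ) + 1) := by linarith
        rw [this]
        push_cast
        ring
      rw [this, abs_neg, abs_of_nonneg (by positivity)]
      linarith
  have hδn : δ * n ≤ n := by nlinarith
  have ht2L : (t : ℝ) + 2 + L ≤ δ * n := by nlinarith
  have ht2L' : t + 2 + L ≤ n := by
    have : ((t + 2 + L : ℕ) : ℝ) ≤ (n : ℝ) := by
      push_cast
      linarith
    exact_mod_cast this
  have h2t : 2 * t ≤ n := by
    have : ((2 * t : ℕ) : ℝ) ≤ (n : ℝ) := by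
      push_cast
      nlinarith
    exact_mod_cast this
  have hδ2n : δ * n ≤ δ2 * n := mul_le_mul_of_nonneg_right hδle2 hnpos.le
  have hδ1n : δ * n ≤ δ1 * n := mul_le_mul_of_nonneg_right hδle1 hnpos.le
  have hLR : (L : ℝ) ≤ δ2 * n := by
    have : (0 : ℝ) ≤ t := by positivity
    linarith
  set a : ℝ := C2 * (L * √(L : ℝ)) / √(n : ℝ) with ha
  have ha0 : 0 ≤ a := by positivity
  have ha4 : a ^ 4 ≤ 1 / n := pow_four_le hC2 hn1 hnC2
  have haL : (n : ℝ) ^ (K + K0 + 2) * a ^ L ≤ 1 := by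
    rw [hL, pow_mul]
    calc (n : ℝ) ^ (K + K0 + 2) * (a ^ 4) ^ (K + K0 + 2)
        ≤ (n : ℝ) ^ (K + K0 + 2) * (1 / n) ^ (K + K0 + 2) := by
          apply mul_le_mul_of_nonneg_left _ (by positivity)
          exact pow_le_pow_left₀ (by positivity) ha4 _
      _ = 1 := by
          rw [← mul_pow, mul_one_div_cancel hnpos.ne', one_pow]
  have hz' := hz t n hn0 h2t
  have hn1' : (1 : ℝ) ≤ n := by exact_mod_cast hn1
  -- the key: from `t'` with `AA t 0 n ≤ n ^ (K0 + 2) * AA t' 1 n`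
  have key : ∀ t' : ℕ, t' ≤ t + 2 → (t' : ℤ) + M = 1 →
      AA w t 0 n ≤ (n : ℝ) ^ (K0 + 2) * AA w t' 1 n → (n : ℝ) ^ K * AA w t 0 n ≤ ZZ w n M := by
    intro t' ht' htM hle
    have hch : AA w t' 1 n ≤ a ^ L * AA w (t' + L) (1 + L) n := by
      apply chain hw hC2 hR hLR _ (by omega) L le_rfl
      refine le_trans ?_ (ht2L.trans hδ2n)
      have : ((t' + L : ℕ) : ℝ) ≤ ((t + 2 + L : ℕ) : ℝ) := by
        exact_mod_cast (by omega : t' + L ≤ t + 2 + L)
      refine this.trans (le_of_eq ?_)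
      push_cast
      ring
    have hA := AA_nonneg hw (t' + L) (1 + L) n
    calc (n : ℝ) ^ K * AA w t 0 n ≤ (n : ℝ) ^ K * ((n : ℝ) ^ (K0 + 2) * AA w t' 1 n) :=
          mul_le_mul_of_nonneg_left hle (by positivity)
      _ = (n : ℝ) ^ (K + K0 + 2) * AA w t' 1 n := by
          rw [← mul_assoc, ← pow_add, ← add_assoc]
      _ ≤ (n : ℝ) ^ (K + K0 + 2) * (a ^ L * AA w (t' + L) (1 + L) n) :=
          mul_le_mul_of_nonneg_left hch (by positivity)
      _ = (n : ℝ) ^ (K + K0 + 2) * a ^ L * AA w (t' + L) (1 + L) n := by ring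
      _ ≤ 1 * AA w (t' + L) (1 + L) n := mul_le_mul_of_nonneg_right haL hA
      _ = AA w (t' + L) (1 + L) n := one_mul _
      _ ≤ ZZ w n M := by
          apply AA_le_ZZ hw (by omega)
          push_cast
          linarith
  rcases ht with ht | ht
  · -- `M = - t`
    apply key (t + 1) (by omega) (by push_cast; linarith)
    refine hz'.trans ?_
    apply mul_le_mul_of_nonneg_right _ (AA_nonneg hw _ _ _)
    exact pow_le_pow_right₀ hn1' (by omega)
  · -- `M = - t - 1`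
    apply key (t + 2) (by omega) (by push_cast; linarith)
    have hV' := (hV (t + 1) 1 n le_rfl (by
      have : (0 : ℝ) ≤ t := by positivity
      have : (0 : ℝ) ≤ L := by positivity
      push_cast
      linarith) (by
      have : (0 : ℝ) ≤ L := by positivity
      push_cast
      linarith)).2
    have hA := AA_nonneg hw (t + 2) 1 n
    have h5 : C1 * (((t + 1 : ℕ) : ℝ) + 1) ≤ (n : ℝ) ^ 2 := by
      have h6 : (((t + 1 : ℕ) : ℝ) + 1) ≤ n := by
        have : (0 : ℝ) ≤ L := by positivity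
        push_cast
        linarith
      calc C1 * (((t + 1 : ℕ) : ℝ) + 1) ≤ (n : ℝ) * n :=
            mul_le_mul hnC1 h6 (by positivity) hnpos.le
        _ = (n : ℝ) ^ 2 := by ring
    calc AA w t 0 n ≤ (n : ℝ) ^ K0 * AA w (t + 1) 1 n := hz'
      _ ≤ (n : ℝ) ^ K0 * (C1 * (((t + 1 : ℕ) : ℝ) + 1) * AA w (t + 1 + 1) 1 n) :=
          mul_le_mul_of_nonneg_left hV' (by positivity)
      _ ≤ (n : ℝ) ^ K0 * ((n : ℝ) ^ 2 * AA w (t + 2) 1 n) := by
          apply mul_le_mul_of_nonneg_left _ (by positivity)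
          exact mul_le_mul_of_nonneg_right h5 hA
      _ = (n : ℝ) ^ (K0 + 2) * AA w (t + 2) 1 n := by
          rw [pow_add, mul_assoc]

end GiantSurf57
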