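import Pool.Agent.GiantSurf57.StmtsTop

open scoped Classical
open Finset

namespace GiantSurf57

namespace PkgF19

theorem pp_nonneg (s : ℕ) : 0 ≤ pp s := by
  unfold pp
  positivity

theorem ff_nonneg : ∀ t v, 0 ≤ ff t v := by
  intro t
  induction t with
  | zero =>
    intro v
    change (0 : ℝ) ≤ if v = 0 then 1 else 0
    split_ifs <;> norm_num
  | succ t ih =>
    intro v
    change 0 ≤ (∑ s ∈ range (v + 1), pp s * ff t (v - s)) / ((t : ℝ) + 1)
    exact div_nonneg (Finset.sum_nonneg fun s _ => mul_nonneg (pp_nonneg s) (ih _)) (by positivity)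

theorem bt_nonneg (n k : ℕ) : 0 ≤ bt n k := by
  unfold bt pois
  positivity

theorem AA_nonneg {w : ℕ → ℕ → ℝ} (hw : WSeq w) (t l n : ℕ) : 0 ≤ AA w t l n := by
  unfold AA aa
  refine Finset.sum_nonneg fun v _ => mul_nonneg (ff_nonneg _ _) ?_
  unfold cc
  split_ifs
  · exact hw.nonneg _ _
  · exact Finset.sum_nonneg fun k _ => mul_nonneg (hw.nonneg _ _) (bt_nonneg _ _)

theorem ZZ_nonneg {w : ℕ → ℕ → ℝ} (hw : WSeq w) (n : ℕ) (M : ℤ) : 0 ≤ ZZ w n M :=
  Finset.sum_nonneg fun _ _ => AA_nonneg hw _ _ _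

theorem term_le_ZZ {w : ℕ → ℕ → ℝ} (hw : WSeq w) (n : ℕ) (M : ℤ) (t l : ℕ) (ht : t ≤ n)
    (hl : (l : ℤ) = t + M) : AA w t l n ≤ ZZ w n M := by
  have h1 : ((t : ℤ) + M).toNat = l := by omega
  have h2 : t ∈ (range (n + 1)).filter (fun t : ℕ => 0 ≤ (t : ℤ) + M) := by
    rw [Finset.mem_filter, Finset.mem_range]
    constructor <;> omega
  have h3 := Finset.single_le_sum (f := fun t : ℕ => AA w t ((t : ℤ) + M).toNat n)
    (fun t _ => AA_nonneg hw _ _ _) h2
  simp only [h1] at h3
  exact h3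

end PkgF19

open PkgF19 in
theorem pkgF19 (hR : S_R) (hX0 : S_X0) : S_Xa := by
  intro w hw ε hε
  obtain ⟨C, δ, hC, hδ, HR, -⟩ := hR w hw
  obtain ⟨η0, n00, hη0, H0⟩ := hX0 w hw 1
  obtain ⟨η, hη, hηδ, hη0', hη1⟩ : ∃ η : ℝ, 0 < η ∧ 2 * η ≤ δ ∧ η ≤ η0 ∧ η ≤ 1 := by
    refine ⟨min (min 1 (δ / 2)) η0, by positivity, ?_, min_le_right _ _, ?_⟩
    · have := (min_le_left (min 1 (δ / 2)) η0).trans (min_le_right _ _)
      linarith
    · exact (min_le_left _ _).trans (min_le_left _ _)
  obtain ⟨n2, hn2⟩ := exists_nat_ge (2 / ε)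
  have hCpos : 0 < C := by linarith
  set K : ℝ := 2 * C + 4 * C / ε with hK
  have hKpos : 0 < K := by positivity
  set q : ℝ := C / K with hq
  have hq0 : 0 ≤ q := by positivity
  have hq1 : q ≤ 1 / 2 := by
    rw [hq, div_le_div_iff₀ hKpos (by norm_num)]
    have : 0 ≤ 4 * C / ε := by positivity
    rw [hK]
    linarith
  have hq2 : q ≤ ε / 4 := by
    rw [hq, div_le_div_iff₀ hKpos (by norm_num)]
    have h1 : ε * K = 2 * C * ε + 4 * C := by
      rw [hK]
      field_simp
    rw [h1]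
    have : 0 ≤ C * ε := by positivity
    linarith
  refine ⟨K, η, n00 + n2 + 1, hη, ?_⟩
  intro n M hn hM f hf hfn hyp
  have hnpos : (0 : ℝ) < n := by
    have : 0 < n := by omega
    exact_mod_cast this
  have hMl : (M : ℝ) ≤ η * n := (le_abs_self _).trans hM
  have hA := AA_nonneg hw
  have hZ := ZZ_nonneg hw n M
  have hδn : 2 * (η * n) ≤ δ * n := by
    have := mul_le_mul_of_nonneg_right hηδ hnpos.le
    linarith
  have hηn : η * n ≤ n := by
    have := mul_le_mul_of_nonneg_right hη1 hnpos.le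
    linarith
  set B : ℕ → ℝ := fun t => AA w t ((t : ℤ) + M).toNat n with hB
  have hB0 : ∀ t, 0 ≤ B t := fun t => hA _ _ _
  set T : ℕ := ⌊2 * f⌋₊ with hT
  have hTf : (T : ℝ) ≤ 2 * f := Nat.floor_le (by linarith)
  have hstep : ∀ t : ℕ, t < T → 1 ≤ (t : ℤ) + M → B t ≤ q * B (t + 1) := by
    intro t htT ht1
    have htf : (t : ℝ) ≤ 2 * f := by
      have : (t : ℝ) ≤ T := by exact_mod_cast htT.le
      linarith
    set l : ℕ := ((t : ℤ) + M).toNat with hl
    have hlZ : (l : ℤ) = (t : ℤ) + M := Int.toNat_of_nonneg (by omega)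
    have hlR : (l : ℝ) = (t : ℝ) + M := by exact_mod_cast hlZ
    have h1 := hyp t htf ht1
    have h2 := HR t l n (by omega) (by rw [hlR]; linarith) (by linarith [mul_pos hη hnpos])
    rw [← hlR] at h1
    have h3 : (((t + 1 : ℕ) : ℤ) + M).toNat = l + 1 := by omega
    simp only [hB]
    rw [h3, ← hl]
    have h4 : K * ((t : ℝ) + 1) * AA w t l n ≤ C * ((t : ℝ) + 1) * AA w (t + 1) (l + 1) n :=
      (mul_le_mul_of_nonneg_right h1 (hA _ _ _)).trans h2
    have h5 : K * AA w t l n ≤ C * AA w (t + 1) (l + 1) n := by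
      have h6 : (0 : ℝ) < (t : ℝ) + 1 := by positivity
      have h7 : ((t : ℝ) + 1) * (K * AA w t l n) ≤
          ((t : ℝ) + 1) * (C * AA w (t + 1) (l + 1) n) := by linarith
      exact le_of_mul_le_mul_left h7 h6
    rw [hq, div_mul_eq_mul_div, le_div_iff₀ hKpos]
    linarith
  have hgeo : ∀ d t : ℕ, t + d = T → 1 ≤ (t : ℤ) + M → B t ≤ q ^ d * B T := by
    intro d
    induction d with
    | zero =>
      intro t ht _
      have : t = T := by omega
      rw [this, pow_zero, one_mul]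
    | succ d ih =>
      intro t ht ht1
      have h1 := hstep t (by omega) ht1
      have h2 := ih (t + 1) (by omega) (by push_cast; omega)
      calc B t ≤ q * B (t + 1) := h1
        _ ≤ q * (q ^ d * B T) := mul_le_mul_of_nonneg_left h2 hq0
        _ = _ := by rw [pow_succ]; ring
  set S : Finset ℕ := (range (n + 1)).filter (fun t : ℕ => 0 ≤ (t : ℤ) + M ∧ (t : ℝ) ≤ f) with hS
  rw [← Finset.sum_filter_add_sum_filter_not S (fun t : ℕ => (t : ℤ) + M = 0)]
  have q1 : ∑ t ∈ S.filter (fun t : ℕ => (t : ℤ) + M = 0), AA w t ((t : ℤ) + M).toNat n ≤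
      ε / 2 * ZZ w n M := by
    have hcard : (S.filter (fun t : ℕ => (t : ℤ) + M = 0)).card ≤ 1 := by
      rw [Finset.card_le_one]
      intro x hx y hy
      rw [Finset.mem_filter] at hx hy
      omega
    have hbd : 0 ≤ ε / 2 * ZZ w n M := by positivity
    calc ∑ t ∈ S.filter (fun t : ℕ => (t : ℤ) + M = 0), AA w t ((t : ℤ) + M).toNat n
        ≤ (S.filter (fun t : ℕ => (t : ℤ) + M = 0)).card • (ε / 2 * ZZ w n M) := by
          apply Finset.sum_le_card_nsmul
          intro t ht
          rw [Finset.mem_filter] at ht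
          have h1 := H0 n M (by omega) (hM.trans (mul_le_mul_of_nonneg_right hη0' hnpos.le)) t
            (Or.inl ht.2)
          rw [pow_one] at h1
          rw [ht.2]
          change AA w t 0 n ≤ _
          have h2 : 2 / ε ≤ n := by
            refine hn2.trans ?_
            have : n2 ≤ n := by omega
            exact_mod_cast this
          rw [div_le_iff₀ hε] at h2
          have h3 := mul_le_mul_of_nonneg_right h2 (hA t 0 n)
          have h4 := mul_le_mul_of_nonneg_left h1 hε.le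
          linarith
      _ ≤ ε / 2 * ZZ w n M := by
          rw [nsmul_eq_mul]
          have : ((S.filter (fun t : ℕ => (t : ℤ) + M = 0)).card : ℝ) ≤ 1 := by
            exact_mod_cast hcard
          calc _ ≤ 1 * (ε / 2 * ZZ w n M) := mul_le_mul_of_nonneg_right this hbd
            _ = _ := one_mul _
  have q2 : ∑ t ∈ S.filter (fun t : ℕ => ¬ (t : ℤ) + M = 0), AA w t ((t : ℤ) + M).toNat n ≤
      ε / 2 * ZZ w n M := by
    have hmem : ∀ t ∈ S.filter (fun t : ℕ => ¬ (t : ℤ) + M = 0), t < T ∧ 1 ≤ (t : ℤ) + M := by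
      intro t ht
      rw [Finset.mem_filter, hS, Finset.mem_filter] at ht
      obtain ⟨⟨-, ht1, ht2⟩, ht3⟩ := ht
      refine ⟨?_, by omega⟩
      have h1 : ((t + 1 : ℕ) : ℝ) ≤ 2 * f := by
        push_cast
        linarith
      have h2 := Nat.le_floor h1
      omega
    rcases (S.filter (fun t : ℕ => ¬ (t : ℤ) + M = 0)).eq_empty_or_nonempty with he | ⟨t0, ht0⟩
    · rw [he, Finset.sum_empty]
      positivity
    · have hTZ : (0 : ℤ) ≤ (T : ℤ) + M := by
        have := hmem t0 ht0
        omega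
      have hTn : T ≤ n := by
        have : (T : ℝ) ≤ n := by linarith
        exact_mod_cast this
      have hBT : B T ≤ ZZ w n M := term_le_ZZ hw n M T _ hTn (Int.toNat_of_nonneg hTZ)
      have hpt : ∀ t ∈ S.filter (fun t : ℕ => ¬ (t : ℤ) + M = 0),
          AA w t ((t : ℤ) + M).toNat n ≤ (1 / 2 : ℝ) ^ (T - 1 - t) * (q * B T) := by
        intro t ht
        obtain ⟨h1, h2⟩ := hmem t ht
        have h3 := hgeo (T - t) t (by omega) h2
        have h4 : T - t = (T - 1 - t) + 1 := by omega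
        rw [h4, pow_succ] at h3
        calc _ ≤ q ^ (T - 1 - t) * q * B T := h3
          _ = q ^ (T - 1 - t) * (q * B T) := by ring
          _ ≤ _ := mul_le_mul_of_nonneg_right (pow_le_pow_left₀ hq0 hq1 _)
              (mul_nonneg hq0 (hB0 T))
      have hinj : Set.InjOn (fun t => T - 1 - t)
          ((S.filter (fun t : ℕ => ¬ (t : ℤ) + M = 0) : Finset ℕ) : Set ℕ) := by
        intro x hx y hy hxy
        have h1 := (hmem x hx).1
        have h2 := (hmem y hy).1
        simp only at hxy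
        omega
      calc _ ≤ ∑ t ∈ S.filter (fun t : ℕ => ¬ (t : ℤ) + M = 0),
            (1 / 2 : ℝ) ^ (T - 1 - t) * (q * B T) := Finset.sum_le_sum hpt
        _ = (∑ t ∈ S.filter (fun t : ℕ => ¬ (t : ℤ) + M = 0), (1 / 2 : ℝ) ^ (T - 1 - t)) *
            (q * B T) := by rw [Finset.sum_mul]
        _ ≤ 2 * (q * B T) := by
            apply mul_le_mul_of_nonneg_right _ (mul_nonneg hq0 (hB0 T))
            rw [← Finset.sum_image (f := fun i => (1 / 2 : ℝ) ^ i) hinj]
            obtain ⟨N, hN⟩ := ((S.filter (fun t : ℕ => ¬ (t : ℤ) + M = 0)).image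
              (fun t => T - 1 - t)).exists_nat_subset_range
            exact (Finset.sum_le_sum_of_subset_of_nonneg hN fun i _ _ => by positivity).trans
              (sum_geometric_two_le N)
        _ ≤ 2 * (ε / 4 * ZZ w n M) := by
            apply mul_le_mul_of_nonneg_left _ (by norm_num)
            exact mul_le_mul hq2 hBT (hB0 T) (by positivity)
        _ = _ := by ring
  calc _ ≤ ε / 2 * ZZ w n M + ε / 2 * ZZ w n M := add_le_add q1 q2
    _ = _ := by ring

end GiantSurf57
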