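import Pool.Agent.GiantSurf57.PkgF1

/-! Package F2: lower bound for `BB`. -/

open scoped Classical
open Finset

namespace GiantSurf57

namespace PkgF2

open PkgF1

theorem exp_le_one_sub (x : ℝ) (h0 : 0 ≤ x) (h1 : x ≤ 1 / 2) : Real.exp (-(2 * x)) ≤ 1 - x := by
  have h2 := Real.add_one_le_exp (2 * x)
  rw [Real.exp_neg, inv_le_comm₀ (Real.exp_pos _) (by linarith)]
  refine le_trans ?_ h2
  rw [inv_le_iff_one_le_mul₀ (by linarith)]
  nlinarith

/-- Lower bound for `pois n n`. -/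
theorem pois_self (n : ℕ) (hn : 1 ≤ n) : Real.exp (-1) ≤ √(n : ℝ) * pois n n := by
  have hn0 : (0 : ℝ) < n := by exact_mod_cast hn
  have hf : (0 : ℝ) < (n.factorial : ℝ) := by exact_mod_cast n.factorial_pos
  obtain ⟨m, rfl⟩ : ∃ m, n = m + 1 := ⟨n - 1, by omega⟩
  have h1 : Stirling.stirlingSeq (m + 1) ≤ Stirling.stirlingSeq 1 :=
    Stirling.stirlingSeq'_antitone (Nat.zero_le m)
  rw [Stirling.stirlingSeq_one] at h1
  unfold Stirling.stirlingSeq at h1
  set N : ℝ := ((m + 1 : ℕ) : ℝ) with hN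
  have hs2 : √(2 * N) = √2 * √N := Real.sqrt_mul (by norm_num) _
  have hsN : 0 < √N := Real.sqrt_pos.mpr hn0
  have hs2' : 0 < √(2 : ℝ) := Real.sqrt_pos.mpr (by norm_num)
  have hE : (N / Real.exp 1) ^ (m + 1) = N ^ (m + 1) * Real.exp (-N) := by
    rw [div_pow, div_eq_mul_inv, Real.exp_neg, ← Real.exp_nat_mul, mul_one]
  rw [hE, hs2, div_le_div_iff₀ (by positivity) hs2'] at h1
  have h2 : ((m + 1).factorial : ℝ) ≤ Real.exp 1 * √N * (N ^ (m + 1) * Real.exp (-N)) := by
    have : ((m + 1).factorial : ℝ) * √2 ≤ (Real.exp 1 * √N * (N ^ (m + 1) * Real.exp (-N))) * √2 := by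
      linarith
    exact le_of_mul_le_mul_right this hs2'
  unfold pois
  rw [← hN, Real.exp_neg 1, inv_le_iff_one_le_mul₀ (Real.exp_pos 1)]
  rw [show √N * (N ^ (m + 1) * Real.exp (-N) / ((m + 1).factorial : ℝ)) * Real.exp 1 =
    (Real.exp 1 * √N * (N ^ (m + 1) * Real.exp (-N))) / ((m + 1).factorial : ℝ) by ring]
  rw [one_le_div hf]
  exact h2

/-- Lower bound for `pois n (n - k)`. -/
theorem pois_sub (n : ℕ) (hn : 1 ≤ n) : ∀ k : ℕ, 2 * k ≤ n →
    pois n n * Real.exp (-((k : ℝ) ^ 2 / n)) ≤ pois n (n - k) := by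
  have hn0 : (0 : ℝ) < n := by exact_mod_cast hn
  intro k
  induction k with
  | zero => intro _; simp
  | succ k ih =>
    intro hk
    have ih' := ih (by omega)
    obtain ⟨i, hi⟩ : ∃ i, n = i + (k + 1) := ⟨n - (k + 1), by omega⟩
    have e1 : n - (k + 1) = i := by omega
    have e2 : n - k = i + 1 := by omega
    rw [e1]
    rw [e2] at ih'
    have hp := pois_succ n i
    have hin : (i : ℝ) + 1 = n - k := by rw [hi]; push_cast; ring
    have h1 : pois n i = (1 - (k : ℝ) / n) * pois n (i + 1) := by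
      have : (n : ℝ) * pois n i = n * ((1 - (k : ℝ) / n) * pois n (i + 1)) := by
        rw [← hp, hin]; field_simp
      exact mul_left_cancel₀ hn0.ne' this
    have hk2 : (k : ℝ) / n ≤ 1 / 2 := by
      rw [div_le_div_iff₀ hn0 (by norm_num)]
      have : 2 * (k + 1) ≤ n := hk
      have : (2 : ℝ) * ((k : ℝ) + 1) ≤ n := by exact_mod_cast this
      linarith
    have h2 := exp_le_one_sub ((k : ℝ) / n) (by positivity) hk2
    have h3 : Real.exp (-((((k + 1 : ℕ) : ℝ)) ^ 2 / n)) ≤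
        Real.exp (-(2 * ((k : ℝ) / n))) * Real.exp (-((k : ℝ) ^ 2 / n)) := by
      rw [← Real.exp_add]
      apply Real.exp_le_exp.mpr
      have : ((((k + 1 : ℕ) : ℝ)) ^ 2 / n) = (k : ℝ) ^ 2 / n + 2 * ((k : ℝ) / n) + 1 / n := by
        push_cast; ring
      rw [this]
      have : (0 : ℝ) < 1 / n := by positivity
      linarith
    have hpn := pois_nonneg n n
    rw [h1]
    calc pois n n * Real.exp (-((((k + 1 : ℕ) : ℝ)) ^ 2 / n))
        ≤ pois n n * (Real.exp (-(2 * ((k : ℝ) / n))) * Real.exp (-((k : ℝ) ^ 2 / n))) := by gcongr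
      _ = Real.exp (-(2 * ((k : ℝ) / n))) * (pois n n * Real.exp (-((k : ℝ) ^ 2 / n))) := by ring
      _ ≤ (1 - (k : ℝ) / n) * pois n (i + 1) := by
          apply mul_le_mul h2 ih' (by positivity) (by linarith)

theorem small (j n : ℕ) (hn : 1 ≤ n) (hjn : j ≤ n) (h49 : n ≤ 49) : Real.exp (-49) ≤ BB j n := by
  have h1 := BB_mono j n n hjn
  have hn0 : (0 : ℝ) < n := by exact_mod_cast hn
  have h2 : BB n n = n * Real.exp (-(n : ℝ)) := by
    unfold BB bt pois
    rw [Finset.Icc_self, Finset.sum_singleton, Nat.sub_self, pow_zero, Nat.factorial_zero,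
      div_self hn0.ne', Nat.cast_one]
    ring
  have h3 : (1 : ℝ) ≤ n := by exact_mod_cast hn
  have h4 : (n : ℝ) ≤ 49 := by exact_mod_cast h49
  have h5 : Real.exp (-49) ≤ Real.exp (-(n : ℝ)) := Real.exp_le_exp.mpr (by linarith)
  have h6 := Real.exp_pos (-(n : ℝ))
  nlinarith

theorem large (j n : ℕ) (hn : 49 ≤ n) (hj : j ^ 2 ≤ 4 * n) : Real.exp (-17) ≤ BB j n := by
  set s := Nat.sqrt n with hs
  have hs1 : s * s ≤ n := Nat.sqrt_le n
  have hs2 : n < (s + 1) * (s + 1) := Nat.lt_succ_sqrt n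
  have hs7 : 7 ≤ s := by
    by_contra hcon
    have : s + 1 ≤ 7 := by omega
    nlinarith
  have hjs : j ≤ 2 * s + 1 := by
    by_contra hcon
    have : 2 * s + 2 ≤ j := by omega
    nlinarith
  have hn0 : (0 : ℝ) < n := by
    have : 0 < n := by omega
    exact_mod_cast this
  have hsR1 : (s : ℝ) * s ≤ n := by exact_mod_cast hs1
  have hsR2 : (n : ℝ) < ((s : ℝ) + 1) * (s + 1) := by exact_mod_cast hs2
  have hsR7 : (7 : ℝ) ≤ s := by exact_mod_cast hs7
  have hsq : √(n : ℝ) ≤ s + 1 := by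
    apply Real.sqrt_le_iff.mpr
    constructor
    · positivity
    · nlinarith
  have hsqpos : 0 < √(n : ℝ) := Real.sqrt_pos.mpr hn0
  have hpn := pois_self n (by omega)
  have hpn0 := pois_nonneg n n
  have hterm : ∀ k ∈ Icc (2 * s + 1) (3 * s + 1), pois n n * Real.exp (-16) ≤ (k : ℝ) * bt n k := by
    intro k hk
    rw [Finset.mem_Icc] at hk
    have hk2 : 2 * k ≤ n := by nlinarith
    have h1 := pois_sub n (by omega) k hk2
    have hkR1 : (2 : ℝ) * s + 1 ≤ k := by exact_mod_cast hk.1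
    have hkR2 : (k : ℝ) ≤ 3 * s + 1 := by exact_mod_cast hk.2
    have h2 : Real.exp (-16) ≤ Real.exp (-((k : ℝ) ^ 2 / n)) := by
      apply Real.exp_le_exp.mpr
      have : (k : ℝ) ^ 2 / n ≤ 16 := by
        rw [div_le_iff₀ hn0]
        nlinarith
      linarith
    have h3 : 1 ≤ (k : ℝ) * ((k : ℝ) / n) := by
      rw [← mul_div_assoc, le_div_iff₀ hn0]
      nlinarith
    unfold bt
    rw [← mul_assoc]
    have h4 := pois_nonneg n (n - k)
    calc pois n n * Real.exp (-16) ≤ pois n n * Real.exp (-((k : ℝ) ^ 2 / n)) := by gcongr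
      _ ≤ pois n (n - k) := h1
      _ = 1 * pois n (n - k) := by ring
      _ ≤ (k : ℝ) * ((k : ℝ) / n) * pois n (n - k) := by gcongr
  have hsum : ((s : ℝ) + 1) * (pois n n * Real.exp (-16)) ≤
      ∑ k ∈ Icc (2 * s + 1) (3 * s + 1), (k : ℝ) * bt n k := by
    have := Finset.card_nsmul_le_sum _ _ _ hterm
    rw [nsmul_eq_mul, Nat.card_Icc] at this
    have e : 3 * s + 1 + 1 - (2 * s + 1) = s + 1 := by omega
    rw [e] at this
    push_cast at this
    exact this
  have hsub : ∑ k ∈ Icc (2 * s + 1) (3 * s + 1), (k : ℝ) * bt n k ≤ BB j n := by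
    unfold BB
    apply Finset.sum_le_sum_of_subset_of_nonneg
    · apply Finset.Icc_subset_Icc hjs
      nlinarith
    · intro i _ _
      have := bt_nonneg n i
      positivity
  have hfin : Real.exp (-17) ≤ ((s : ℝ) + 1) * (pois n n * Real.exp (-16)) := by
    have e17 : Real.exp (-17) = Real.exp (-1) * Real.exp (-16) := by
      rw [← Real.exp_add]; norm_num
    rw [e17, ← mul_assoc]
    have : Real.exp (-1) ≤ ((s : ℝ) + 1) * pois n n := by
      refine hpn.trans ?_
      gcongr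
    gcongr
  linarith

end PkgF2

theorem pkgF2 : S_BB2 := by
  refine ⟨Real.exp (-49), Real.exp_pos _, ?_⟩
  intro j n hj hjn hjn2
  rcases Nat.lt_or_ge n 49 with h | h
  · exact PkgF2.small j n (by omega) hjn (by omega)
  · have h1 := PkgF2.large j n h hjn2
    have h2 : Real.exp (-49) ≤ Real.exp (-17) := Real.exp_le_exp.mpr (by norm_num)
    linarith

end GiantSurf57
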