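import Pool.Agent.GiantSurf57.StmtsTop

/-!
# Package F3 of `GiantSurf57`: monotonicity of `BB j n` in `n` for `4 n < j²`
-/

open scoped Classical
open Finset

namespace GiantSurf57

namespace PkgF3

lemma neg_log_lower {x : ℝ} (h0 : 0 ≤ x) (h1 : x < 1) : x + x ^ 2 / 2 ≤ -Real.log (1 - x) := by
  have h := Real.hasSum_pow_div_log_of_abs_lt_one (x := x) (by rw [abs_of_nonneg h0]; exact h1)
  have h2 := sum_le_hasSum (Finset.range 2) (fun i _ => by positivity) h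
  simp only [Finset.sum_range_succ, Finset.sum_range_zero] at h2
  norm_num at h2
  linarith

lemma log_lower {n : ℝ} (hn : 1 ≤ n) : 1 / n - 1 / (2 * n ^ 2) ≤ Real.log (1 + 1 / n) := by
  have h := Real.le_log_one_add_of_nonneg (x := 1 / n) (by positivity)
  refine le_trans ?_ h
  have hn0 : 0 < n := by linarith
  have e : 2 * (1 / n) / (1 / n + 2) = 2 / (2 * n + 1) := by
    field_simp
    ring
  rw [e, div_sub_div _ _ (by positivity) (by positivity), div_le_div_iff₀ (by positivity) (by positivity)]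
  nlinarith [sq_nonneg n, mul_pos hn0 hn0]

lemma key {n k : ℕ} (hn : 1 ≤ n) (hk : 1 ≤ k) (hkn : k ≤ n) (h : 4 * n < k ^ 2) :
    Real.exp 1 ≤ (n : ℝ) / ((n : ℝ) + 1 - k) * (1 + 1 / (n : ℝ)) ^ (n - k) := by
  have hn' : (1 : ℝ) ≤ n := by exact_mod_cast hn
  have hk' : (1 : ℝ) ≤ k := by exact_mod_cast hk
  have hkn' : (k : ℝ) ≤ n := by exact_mod_cast hkn
  have hn0 : (0 : ℝ) < n := by linarith
  have h' : (4 : ℝ) * n < (k : ℝ) ^ 2 := by exact_mod_cast h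
  set x : ℝ := ((k : ℝ) - 1) / n with hx
  have hx0 : 0 ≤ x := div_nonneg (by linarith) hn0.le
  have hx1 : x < 1 := by rw [hx, div_lt_one hn0]; linarith
  have hpos : (0 : ℝ) < (n : ℝ) + 1 - k := by linarith
  have e1 : (n : ℝ) / ((n : ℝ) + 1 - k) = (1 - x)⁻¹ := by
    rw [hx]
    have : (1 - ((k : ℝ) - 1) / n) = ((n : ℝ) + 1 - k) / n := by
      field_simp
      ring
    rw [this, inv_div]
  have hb : 0 < (1 - x)⁻¹ := inv_pos.mpr (by linarith)
  have hc : 0 < 1 + 1 / (n : ℝ) := by positivity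
  rw [e1, ← Real.le_log_iff_exp_le (mul_pos hb (pow_pos hc _)),
    Real.log_mul hb.ne' (pow_pos hc _).ne', Real.log_inv, Real.log_pow]
  have a1 := neg_log_lower hx0 hx1
  have a2 := log_lower hn'
  have a3 : (((n - k : ℕ) : ℝ)) * (1 / (n : ℝ) - 1 / (2 * (n : ℝ) ^ 2)) ≤
      ((n - k : ℕ) : ℝ) * Real.log (1 + 1 / (n : ℝ)) :=
    mul_le_mul_of_nonneg_left a2 (Nat.cast_nonneg _)
  rw [Nat.cast_sub hkn] at a3 ⊢
  have a4 : (1 : ℝ) ≤ x + x ^ 2 / 2 + ((n : ℝ) - k) * (1 / (n : ℝ) - 1 / (2 * (n : ℝ) ^ 2)) := by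
    have : x + x ^ 2 / 2 + ((n : ℝ) - k) * (1 / (n : ℝ) - 1 / (2 * (n : ℝ) ^ 2)) - 1
        = ((k : ℝ) ^ 2 - k + 1 - 3 * n) / (2 * (n : ℝ) ^ 2) := by
      rw [hx]
      field_simp
      ring
    have h2 : 0 ≤ ((k : ℝ) ^ 2 - k + 1 - 3 * n) / (2 * (n : ℝ) ^ 2) := by
      apply div_nonneg _ (by positivity)
      nlinarith [sq_nonneg ((k : ℝ) / 2 - 1)]
    linarith
  linarith

lemma bt_nonneg (n k : ℕ) : 0 ≤ bt n k := by
  unfold bt pois
  positivity

lemma bt_mono {n k : ℕ} (hn : 1 ≤ n) (hk : 1 ≤ k) (hkn : k ≤ n) (h : 4 * n < k ^ 2) :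
    bt n k ≤ bt (n + 1) k := by
  have hn' : (1 : ℝ) ≤ n := by exact_mod_cast hn
  have hn0 : (0 : ℝ) < n := by linarith
  have hkn' : (k : ℝ) ≤ n := by exact_mod_cast hkn
  have hpos : (0 : ℝ) < (n : ℝ) + 1 - k := by linarith
  have hkey := key hn hk hkn h
  have e0 : n + 1 - k = (n - k) + 1 := by omega
  have e1 : bt (n + 1) k = bt n k *
      ((n : ℝ) / ((n : ℝ) + 1 - k) * (1 + 1 / (n : ℝ)) ^ (n - k) * Real.exp (-1)) := by
    unfold bt pois
    rw [e0, Nat.factorial_succ]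
    have e2 : (1 + 1 / (n : ℝ)) ^ (n - k) = ((n : ℝ) + 1) ^ (n - k) / (n : ℝ) ^ (n - k) := by
      rw [← div_pow]
      congr 1
      field_simp
    have e3 : Real.exp (-((n + 1 : ℕ) : ℝ)) = Real.exp (-(n : ℝ)) * Real.exp (-1) := by
      rw [← Real.exp_add]
      congr 1
      push_cast
      ring
    rw [e2, e3]
    push_cast [Nat.cast_sub hkn]
    have hf : ((n - k).factorial : ℝ) ≠ 0 := by positivity
    have hne : (n : ℝ) - k + 1 ≠ 0 := by linarith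
    have hne' : (n : ℝ) + 1 - k ≠ 0 := hpos.ne'
    rw [pow_succ, show (n : ℝ) - k + 1 = (n : ℝ) + 1 - k by ring]
    field_simp
  rw [e1]
  have h2 : (1 : ℝ) ≤ (n : ℝ) / ((n : ℝ) + 1 - k) * (1 + 1 / (n : ℝ)) ^ (n - k) * Real.exp (-1) := by
    calc (1 : ℝ) = Real.exp 1 * Real.exp (-1) := by rw [← Real.exp_add]; simp
      _ ≤ _ := mul_le_mul_of_nonneg_right hkey (Real.exp_pos _).le
  exact le_mul_of_one_le_right (bt_nonneg n k) h2

end PkgF3

theorem pkgF3 : S_BB3 := by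
  intro j n hj hn h
  unfold BB
  have h1 : ∑ k ∈ Icc j n, (k : ℝ) * bt n k ≤ ∑ k ∈ Icc j n, (k : ℝ) * bt (n + 1) k := by
    apply Finset.sum_le_sum
    intro k hk
    rw [Finset.mem_Icc] at hk
    apply mul_le_mul_of_nonneg_left _ (Nat.cast_nonneg _)
    apply PkgF3.bt_mono hn (le_trans hj hk.1) hk.2
    calc 4 * n < j ^ 2 := h
      _ ≤ k ^ 2 := Nat.pow_le_pow_left hk.1 2
  refine le_trans h1 ?_
  apply Finset.sum_le_sum_of_subset_of_nonneg
  · intro k hk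
    rw [Finset.mem_Icc] at hk ⊢
    omega
  · intro k _ _
    exact mul_nonneg (Nat.cast_nonneg _) (PkgF3.bt_nonneg _ _)

end GiantSurf57
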