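import Pool.Agent.GiantSurf57.Stmts

open scoped Classical
open Finset

namespace GiantSurf57

namespace PkgF4

theorem pois_nonneg (n j : ℕ) : 0 ≤ pois n j := by
  unfold pois
  positivity

theorem bt_nonneg (n k : ℕ) : 0 ≤ bt n k := by
  unfold bt
  exact mul_nonneg (by positivity) (pois_nonneg _ _)

theorem BB_nonneg (j n : ℕ) : 0 ≤ BB j n := by
  unfold BB
  exact Finset.sum_nonneg fun k _ => mul_nonneg (Nat.cast_nonneg k) (bt_nonneg n k)

theorem BB_zero {j n : ℕ} (h : n < j) : BB j n = 0 := by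
  unfold BB
  rw [Finset.Icc_eq_empty (by omega), Finset.sum_empty]

/-- Abel summation. -/
theorem cc_eq {u : ℕ → ℝ} (h0 : u 0 = 0) {n : ℕ} (hn : 1 ≤ n) :
    cc u n = ∑ i ∈ range n, (u (i + 1) / ((i + 1 : ℕ) : ℝ) - u i / (i : ℝ)) * BB (i + 1) n := by
  unfold cc
  rw [if_neg (by omega)]
  have h1 : ∀ k : ℕ, u k = (k : ℝ) * ∑ i ∈ range k, (u (i + 1) / ((i + 1 : ℕ) : ℝ) - u i / (i : ℝ)) := by
    intro k
    rw [Finset.sum_range_sub (fun i => u i / (i : ℝ)) k, h0, zero_div, sub_zero]
    rcases Nat.eq_zero_or_pos k with rfl | hk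
    · rw [h0, Nat.cast_zero, zero_mul]
    · have : (k : ℝ) ≠ 0 := by positivity
      field_simp
  have h2 : ∑ k ∈ range (n + 1), u k * bt n k = ∑ k ∈ range (n + 1), ∑ i ∈ range k,
      (u (i + 1) / ((i + 1 : ℕ) : ℝ) - u i / (i : ℝ)) * ((k : ℝ) * bt n k) := by
    refine Finset.sum_congr rfl fun k _ => ?_
    conv_lhs => rw [h1 k]
    rw [← Finset.sum_mul]
    ring
  rw [h2, Finset.sum_comm' (t' := range n) (s' := fun i => Icc (i + 1) n)]
  · refine Finset.sum_congr rfl fun i _ => ?_
    unfold BB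
    rw [Finset.mul_sum]
  · intro k i
    simp only [Finset.mem_range, Finset.mem_Icc]
    omega

end PkgF4

open PkgF4 in
/-- F4. -/
theorem pkgF4 (h1 : S_BB1) (h2 : S_BB2) (h3 : S_BB3) : S_quasi := by
  obtain ⟨C1, hC1⟩ := h1
  obtain ⟨c, hc, hc2⟩ := h2
  have hC0 : 0 ≤ C1 := (BB_nonneg 1 1).trans (hC1 1 1 le_rfl le_rfl)
  have hmax1 : (1 : ℝ) ≤ max 1 (C1 / c) := le_max_left _ _
  refine ⟨max 1 (C1 / c), hmax1, fun u hu hmon a b hab => ?_⟩
  have h0 : u 0 = 0 := by
    have := hmon 0
    simp only [Nat.cast_zero, zero_add, one_mul, zero_mul] at this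
    exact le_antisymm this (hu 0)
  have hnn : ∀ n, 0 ≤ cc u n := by
    intro n
    unfold cc
    split_ifs
    · exact hu 0
    · exact Finset.sum_nonneg fun k _ => mul_nonneg (hu k) (bt_nonneg n k)
  rcases Nat.eq_zero_or_pos a with rfl | ha
  · have e1 : cc u 0 = 0 := by
      unfold cc
      rw [if_pos rfl, h0]
    rw [e1]
    exact mul_nonneg (by linarith) (hnn b)
  have hb : 1 ≤ b := le_trans ha hab
  -- the increments are nonnegative
  have hd : ∀ i : ℕ, 0 ≤ u (i + 1) / ((i + 1 : ℕ) : ℝ) - u i / (i : ℝ) := by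
    intro i
    rcases Nat.eq_zero_or_pos i with rfl | hi
    · rw [h0, zero_div, sub_zero]
      exact div_nonneg (hu _) (Nat.cast_nonneg _)
    · have hi' : (0 : ℝ) < i := by exact_mod_cast hi
      rw [sub_nonneg, div_le_div_iff₀ hi' (by positivity)]
      have := hmon i
      push_cast
      linarith
  -- comparison of the tails
  have key : ∀ j, 1 ≤ j → BB j a ≤ max 1 (C1 / c) * BB j b := by
    intro j hj
    have hpos := BB_nonneg j b
    rcases Nat.lt_or_ge a j with h4 | h4
    · rw [BB_zero h4]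
      exact mul_nonneg (by linarith) hpos
    · rcases Nat.lt_or_ge (4 * b) (j ^ 2) with h5 | h5
      · have h6 : ∀ n, a ≤ n → n ≤ b → BB j a ≤ BB j n := by
          intro n han
          induction n, han using Nat.le_induction with
          | base => intro _; exact le_rfl
          | succ n han ih =>
            intro hnb
            exact (ih (by omega)).trans (h3 j n hj (by omega) (by omega))
        exact (h6 b hab le_rfl).trans (le_mul_of_one_le_left hpos hmax1)
      · have h6 := hc2 j b hj (h4.trans hab) h5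
        have h7 := hC1 j a hj ha
        calc BB j a ≤ C1 := h7
          _ = C1 / c * c := by field_simp
          _ ≤ max 1 (C1 / c) * c := mul_le_mul_of_nonneg_right (le_max_right _ _) hc.le
          _ ≤ max 1 (C1 / c) * BB j b := mul_le_mul_of_nonneg_left h6 (by linarith)
  rw [cc_eq h0 ha, cc_eq h0 hb, Finset.mul_sum]
  calc ∑ i ∈ range a, (u (i + 1) / ((i + 1 : ℕ) : ℝ) - u i / (i : ℝ)) * BB (i + 1) a
      ≤ ∑ i ∈ range a, max 1 (C1 / c) *
          ((u (i + 1) / ((i + 1 : ℕ) : ℝ) - u i / (i : ℝ)) * BB (i + 1) b) := by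
        refine Finset.sum_le_sum fun i _ => ?_
        have := mul_le_mul_of_nonneg_left (key (i + 1) (by omega)) (hd i)
        calc _ ≤ _ := this
          _ = _ := by ring
    _ ≤ ∑ i ∈ range b, max 1 (C1 / c) *
          ((u (i + 1) / ((i + 1 : ℕ) : ℝ) - u i / (i : ℝ)) * BB (i + 1) b) := by
        refine Finset.sum_le_sum_of_subset_of_nonneg (Finset.range_mono hab) fun i _ _ => ?_
        exact mul_nonneg (by linarith) (mul_nonneg (hd i) (BB_nonneg _ _))

end GiantSurf57
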