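import Pool.Agent.GiantSurf57.Stmts

open scoped Classical
open Finset

namespace GiantSurf57

namespace PkgF6

theorem pois_nonneg (n j : ℕ) : 0 ≤ pois n j := by
  unfold pois
  positivity

theorem bt_nonneg (n k : ℕ) : 0 ≤ bt n k := by
  unfold bt
  exact mul_nonneg (by positivity) (pois_nonneg _ _)

/-- The ratio of consecutive weights. -/
theorem bt_succ {n k : ℕ} (hk : 1 ≤ k) (hkn : k < n) :
    (k : ℝ) * n * bt n (k + 1) = (k + 1) * ((n : ℝ) - k) * bt n k := by
  obtain ⟨d, rfl⟩ : ∃ d, n = k + d + 1 := ⟨n - k - 1, by omega⟩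
  unfold bt pois
  rw [show k + d + 1 - (k + 1) = d by omega, show k + d + 1 - k = d + 1 by omega,
    Nat.factorial_succ]
  have h1 : ((k + d + 1 : ℕ) : ℝ) ≠ 0 := by positivity
  have h2 : (d.factorial : ℝ) ≠ 0 := by positivity
  have h3 : ((d : ℝ) + 1) ≠ 0 := by positivity
  have h4 : (((k + d + 1 : ℕ) : ℝ) - (k : ℝ)) = (d : ℝ) + 1 := by
    push_cast
    ring
  rw [h4]
  push_cast
  push_cast at h1
  field_simp
  ring

theorem step {u : ℕ → ℝ} {l n : ℕ} (hln : l ≤ n) (hu : ∀ k, 0 ≤ u k)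
    (hmon : ∀ k : ℕ, ((k : ℝ) + l) * u k ≤ k * u (k + 1)) {k : ℕ} (hk : 1 ≤ k)
    (h4 : 4 * k ^ 2 ≤ n * l) : u k * bt n k ≤ u (k + 1) * bt n (k + 1) := by
  have hkn : 2 * k ≤ n := by
    have h1 : (2 * k) ^ 2 ≤ n ^ 2 := by
      calc (2 * k) ^ 2 = 4 * k ^ 2 := by ring
        _ ≤ n * l := h4
        _ ≤ n * n := Nat.mul_le_mul_left n hln
        _ = n ^ 2 := by ring
    exact (Nat.pow_le_pow_iff_left two_ne_zero).1 h1
  have hkn' : k < n := by omega
  have hk0 : (0 : ℝ) < k := by exact_mod_cast hk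
  have hn0 : (0 : ℝ) < n := by
    have : 0 < n := by omega
    exact_mod_cast this
  have e1 := bt_succ hk hkn'
  have hb := bt_nonneg n k
  have hb' := bt_nonneg n (k + 1)
  -- multiply by `k ^ 2 n`
  have hpos : (0 : ℝ) < (k : ℝ) * (k * n) := by positivity
  refine le_of_mul_le_mul_left ?_ hpos
  have h5 : (k : ℝ) * (k * n) ≤ (k + l) * ((k + 1) * ((n : ℝ) - k)) := by
    have a1 : (4 : ℝ) * k ^ 2 ≤ n * l := by exact_mod_cast h4
    have a2 : (2 : ℝ) * k ≤ n := by exact_mod_cast hkn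
    have a3 : (0 : ℝ) ≤ l := Nat.cast_nonneg l
    have a4 : (k : ℝ) * l ≤ n * l / 2 := by nlinarith
    have a5 : (0 : ℝ) ≤ (n : ℝ) - k := by linarith
    have a6 : (k : ℝ) * n ≤ (k + l) * ((n : ℝ) - k) := by nlinarith
    calc (k : ℝ) * (k * n) ≤ k * ((k + l) * ((n : ℝ) - k)) := mul_le_mul_of_nonneg_left a6 hk0.le
      _ ≤ (k + 1) * ((k + l) * ((n : ℝ) - k)) := by
        refine mul_le_mul_of_nonneg_right (by linarith) (mul_nonneg (by positivity) a5)
      _ = _ := by ring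
  calc (k : ℝ) * (k * n) * (u k * bt n k)
      ≤ (k + l) * ((k + 1) * ((n : ℝ) - k)) * (u k * bt n k) :=
        mul_le_mul_of_nonneg_right h5 (mul_nonneg (hu k) hb)
    _ = ((k + l) * u k) * ((k + 1) * ((n : ℝ) - k) * bt n k) := by ring
    _ = ((k + l) * u k) * (k * n * bt n (k + 1)) := by rw [e1]
    _ ≤ (k * u (k + 1)) * (k * n * bt n (k + 1)) :=
        mul_le_mul_of_nonneg_right (hmon k) (by positivity)
    _ = (k : ℝ) * (k * n) * (u (k + 1) * bt n (k + 1)) := by ring

theorem mono {v : ℕ → ℝ} {B : ℕ} (h : ∀ k, 1 ≤ k → k < B → v k ≤ v (k + 1)) {a b : ℕ}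
    (ha : 1 ≤ a) (hab : a ≤ b) (hb : b ≤ B) : v a ≤ v b := by
  induction b, hab using Nat.le_induction with
  | base => exact le_rfl
  | succ b hab ih => exact (ih (by omega)).trans (h b (by omega) (by omega))

end PkgF6

open PkgF6 in
/-- F6. -/
theorem pkgF6 : S_low := by
  intro u l n hl hn hln hu hmon
  have h0 : u 0 = 0 := by
    have h1 := hmon 0
    simp only [Nat.cast_zero, zero_add, zero_mul] at h1
    have h2 : (0 : ℝ) < l := by exact_mod_cast hl
    have h3 := hu 0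
    nlinarith
  set v : ℕ → ℝ := fun k => u k * bt n k with hv
  have hv0 : v 0 = 0 := by
    rw [hv]
    simp only
    rw [h0, zero_mul]
  have hvn : ∀ k, 0 ≤ v k := fun k => mul_nonneg (hu k) (bt_nonneg n k)
  have hcc : cc u n = ∑ k ∈ range n, v (k + 1) := by
    unfold cc
    rw [if_neg (by omega), Finset.sum_range_succ']
    change _ + v 0 = _
    rw [hv0, add_zero]
  set a := Nat.sqrt ((n * l - 1) / 100) with ha
  have hnl : 1 ≤ n * l := Nat.mul_pos hn hl
  have hiff : ∀ k : ℕ, 100 * k ^ 2 < n * l ↔ k ≤ a := by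
    intro k
    rw [ha, Nat.le_sqrt', Nat.le_div_iff_mul_le (by norm_num)]
    omega
  have ha2 : 100 * a ^ 2 < n * l := (hiff a).2 le_rfl
  have h4a : 4 * a ≤ n := by
    have h1 : (4 * a) ^ 2 ≤ n ^ 2 := by
      calc (4 * a) ^ 2 = 16 * a ^ 2 := by ring
        _ ≤ n * l := by omega
        _ ≤ n * n := Nat.mul_le_mul_left n hln
        _ = n ^ 2 := by ring
    exact (Nat.pow_le_pow_iff_left two_ne_zero).1 h1
  -- the terms increase up to `4 a`
  have hstep : ∀ k, 1 ≤ k → k < 4 * a → v k ≤ v (k + 1) := by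
    intro k hk hka
    refine step hln hu hmon hk ?_
    have h1 : k ^ 2 ≤ (4 * a) ^ 2 := Nat.pow_le_pow_left hka.le 2
    have h2 : (4 * a) ^ 2 = 16 * a ^ 2 := by ring
    omega
  have hblock : ∀ i : ℕ, i ≤ 3 → ∑ k ∈ range a, v (k + 1) ≤ ∑ k ∈ range a, v (i * a + k + 1) := by
    intro i hi
    refine Finset.sum_le_sum fun k hk => ?_
    rw [Finset.mem_range] at hk
    refine mono hstep (by omega) (by omega) ?_
    have : i * a ≤ 3 * a := Nat.mul_le_mul_right a hi
    omega
  have hsum : ∑ k ∈ range (4 * a), v (k + 1) = ∑ i ∈ range 4, ∑ k ∈ range a, v (i * a + k + 1) := by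
    rw [show 4 * a = a + a + a + a by ring, Finset.sum_range_add, Finset.sum_range_add,
      Finset.sum_range_add]
    simp only [Finset.sum_range_succ, Finset.sum_range_zero, zero_add]
    have e : ∀ c : ℕ, ∑ k ∈ range a, v (c + k + 1) = ∑ k ∈ range a, v (c + k + 1) := fun _ => rfl
    rw [show a + a = 2 * a by ring, show 2 * a + a = 3 * a by ring]
    simp only [zero_mul, zero_add, one_mul]
  have hle : 4 * ∑ k ∈ range a, v (k + 1) ≤ ∑ k ∈ range (4 * a), v (k + 1) := by
    rw [hsum]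
    calc 4 * ∑ k ∈ range a, v (k + 1) = ∑ i ∈ range 4, ∑ k ∈ range a, v (k + 1) := by
          rw [Finset.sum_const, Finset.card_range, nsmul_eq_mul]
          norm_num
      _ ≤ _ := Finset.sum_le_sum fun i hi => hblock i (by
          rw [Finset.mem_range] at hi
          omega)
  have hle2 : ∑ k ∈ range (4 * a), v (k + 1) ≤ cc u n := by
    rw [hcc]
    exact Finset.sum_le_sum_of_subset_of_nonneg (Finset.range_mono h4a) fun k _ _ => hvn _
  have hfil : (range (n + 1)).filter (fun k => 100 * k ^ 2 < n * l) = range (a + 1) := by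
    ext k
    rw [Finset.mem_filter, Finset.mem_range, Finset.mem_range, hiff]
    omega
  rw [hfil]
  change ∑ k ∈ range (a + 1), v k ≤ _
  rw [Finset.sum_range_succ', hv0, add_zero]
  linarith

end GiantSurf57
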