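import Pool.Agent.GiantSurf57.Stmts

open scoped Classical
open Finset

namespace GiantSurf57

namespace PkgF7

theorem pois_nonneg (n j : ℕ) : 0 ≤ pois n j := by
  unfold pois
  positivity

theorem bt_nonneg (n k : ℕ) : 0 ≤ bt n k := by
  unfold bt
  exact mul_nonneg (by positivity) (pois_nonneg _ _)

theorem pow_le (N d : ℕ) (hN : 1 ≤ N) (hd : d ≤ N) :
    ((N : ℝ) + 1) ^ d ≤ (N : ℝ) ^ d * Real.exp 1 := by
  have hN0 : (0 : ℝ) < N := by exact_mod_cast hN
  have h1 : (N : ℝ) + 1 ≤ N * Real.exp (1 / N) := by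
    have h2 := Real.add_one_le_exp (1 / (N : ℝ))
    calc (N : ℝ) + 1 = N * (1 / N + 1) := by
          field_simp
          ring
      _ ≤ N * Real.exp (1 / N) := mul_le_mul_of_nonneg_left h2 hN0.le
  calc ((N : ℝ) + 1) ^ d ≤ (N * Real.exp (1 / N)) ^ d := pow_le_pow_left₀ (by positivity) h1 d
    _ = (N : ℝ) ^ d * Real.exp (d * (1 / N)) := by rw [mul_pow, ← Real.exp_nat_mul]
    _ ≤ (N : ℝ) ^ d * Real.exp 1 := by
      refine mul_le_mul_of_nonneg_left (Real.exp_le_exp.2 ?_) (by positivity)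
      rw [mul_one_div, div_le_one hN0]
      exact_mod_cast hd

theorem bt_le {N k : ℕ} (hN : 1 ≤ N) (hk : 2 * k ≤ N + 1) : bt (N + 1) k ≤ 2 * bt N k := by
  have hkN : k ≤ N := by omega
  obtain ⟨d, rfl⟩ : ∃ d, N = k + d := ⟨N - k, by omega⟩
  unfold bt pois
  rw [show k + d + 1 - k = d + 1 by omega, show k + d - k = d by omega, Nat.factorial_succ]
  set N := k + d with hNdef
  have hN0 : (0 : ℝ) < N := by exact_mod_cast hN
  have hp := pow_le N d hN (by omega)
  have hf : (0 : ℝ) < d.factorial := by exact_mod_cast Nat.factorial_pos d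
  have he : Real.exp (-((N + 1 : ℕ) : ℝ)) = Real.exp (-(N : ℝ)) * Real.exp (-1) := by
    rw [← Real.exp_add]
    congr 1
    push_cast
    ring
  rw [he]
  push_cast
  have h1 : (k : ℝ) / ((N : ℝ) + 1) * (((N : ℝ) + 1) ^ (d + 1) * (Real.exp (-(N : ℝ)) * Real.exp (-1)) /
      (((d : ℝ) + 1) * d.factorial)) =
      (((N : ℝ) + 1) ^ d * Real.exp (-1) / (d + 1)) * ((k : ℝ) * Real.exp (-(N : ℝ)) / d.factorial) := by
    rw [pow_succ]
    field_simp
  have h2 : 2 * ((k : ℝ) / N * ((N : ℝ) ^ d * Real.exp (-(N : ℝ)) / d.factorial)) =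
      (2 * (N : ℝ) ^ d / N) * ((k : ℝ) * Real.exp (-(N : ℝ)) / d.factorial) := by
    field_simp
  rw [h1, h2]
  refine mul_le_mul_of_nonneg_right ?_ (by positivity)
  rw [div_le_div_iff₀ (by positivity) hN0]
  have h3 : ((N : ℝ) + 1) ^ d * Real.exp (-1) ≤ (N : ℝ) ^ d := by
    calc ((N : ℝ) + 1) ^ d * Real.exp (-1) ≤ ((N : ℝ) ^ d * Real.exp 1) * Real.exp (-1) :=
          mul_le_mul_of_nonneg_right hp (Real.exp_pos _).le
      _ = (N : ℝ) ^ d := by rw [mul_assoc, ← Real.exp_add]; simp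
  have h4 : (N : ℝ) ≤ 2 * ((d : ℝ) + 1) := by
    have : N ≤ 2 * (d + 1) := by omega
    exact_mod_cast this
  calc ((N : ℝ) + 1) ^ d * Real.exp (-1) * N ≤ (N : ℝ) ^ d * N :=
        mul_le_mul_of_nonneg_right h3 hN0.le
    _ ≤ (N : ℝ) ^ d * (2 * ((d : ℝ) + 1)) := mul_le_mul_of_nonneg_left h4 (by positivity)
    _ = 2 * (N : ℝ) ^ d * (d + 1) := by ring

end PkgF7

open PkgF7 in
/-- F7. -/
theorem pkgF7 (h : S_mom) : S_step := by
  obtain ⟨C0, δ0, hδ0, hmom⟩ := h
  set C1 := max C0 1 with hC1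
  have hC1p : 1 ≤ C1 := le_max_right _ _
  refine ⟨4, min δ0 (1 / (16 * C1)), lt_min hδ0 (by positivity), fun u l n hl hn hln hu h1 h2 => ?_⟩
  have hn0 : (0 : ℝ) < n := by
    have : 0 < n := by omega
    exact_mod_cast this
  have hl0 : (0 : ℝ) < l := by exact_mod_cast hl
  have hl1 : (l : ℝ) ≤ δ0 * n :=
    hln.trans (mul_le_mul_of_nonneg_right (min_le_left _ _) hn0.le)
  have hl2 : (l : ℝ) ≤ 1 / (16 * C1) * n :=
    hln.trans (mul_le_mul_of_nonneg_right (min_le_right _ _) hn0.le)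
  have hl3 : (l : ℝ) ≤ n := by
    refine hl2.trans ?_
    have : 1 / (16 * C1) ≤ 1 := by
      rw [div_le_one (by positivity)]
      linarith
    nlinarith
  have hm := hmom u l n hl (by omega) hl1 hu h1 h2
  have hvn : ∀ k, 0 ≤ u k * bt n k := fun k => mul_nonneg (hu k) (bt_nonneg n k)
  have hccn : 0 ≤ cc u n := by
    unfold cc
    rw [if_neg (by omega)]
    exact Finset.sum_nonneg fun k _ => hvn k
  -- the tail
  have htail : ∑ k ∈ (range (n + 1)).filter (fun k => ¬ 2 * k ≤ n), u k * bt n k ≤ cc u n / 2 := by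
    have e1 : (n : ℝ) ^ 3 / 8 * ∑ k ∈ (range (n + 1)).filter (fun k => ¬ 2 * k ≤ n), u k * bt n k ≤
        ∑ k ∈ range (n + 1), (k : ℝ) ^ 3 * (u k * bt n k) := by
      rw [Finset.mul_sum]
      refine (Finset.sum_le_sum fun k hk => ?_).trans
        (Finset.sum_le_sum_of_subset_of_nonneg (Finset.filter_subset _ _) fun k _ _ =>
          mul_nonneg (by positivity) (hvn k))
      rw [Finset.mem_filter] at hk
      refine mul_le_mul_of_nonneg_right ?_ (hvn k)
      have h3 : (n : ℝ) / 2 ≤ k := by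
        have : n ≤ 2 * k := by omega
        have : (n : ℝ) ≤ 2 * k := by exact_mod_cast this
        linarith
      calc (n : ℝ) ^ 3 / 8 = ((n : ℝ) / 2) ^ 3 := by ring
        _ ≤ (k : ℝ) ^ 3 := pow_le_pow_left₀ (by positivity) h3 3
    have e2 : C0 * r32 ((n : ℝ) * l) * cc u n ≤ C1 * (n * l * n) * cc u n := by
      refine mul_le_mul_of_nonneg_right ?_ hccn
      unfold r32
      have h3 : √((n : ℝ) * l) ≤ n := by
        rw [Real.sqrt_le_left hn0.le]
        nlinarith
      have h4 : (n : ℝ) * l * √((n : ℝ) * l) ≤ n * l * n :=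
        mul_le_mul_of_nonneg_left h3 (by positivity)
      exact mul_le_mul (le_max_left _ _) h4 (by positivity) (by linarith)
    have e3 : C1 * ((n : ℝ) * l * n) ≤ (n : ℝ) ^ 3 / 16 := by
      have h3 : C1 * (l : ℝ) ≤ n / 16 := by
        calc C1 * (l : ℝ) ≤ C1 * (1 / (16 * C1) * n) := mul_le_mul_of_nonneg_left hl2 (by linarith)
          _ = n / 16 := by field_simp
      calc C1 * ((n : ℝ) * l * n) = (n : ℝ) ^ 2 * (C1 * l) := by ring
        _ ≤ (n : ℝ) ^ 2 * (n / 16) := mul_le_mul_of_nonneg_left h3 (by positivity)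
        _ = (n : ℝ) ^ 3 / 16 := by ring
    have e4 : (n : ℝ) ^ 3 / 8 * ∑ k ∈ (range (n + 1)).filter (fun k => ¬ 2 * k ≤ n), u k * bt n k ≤
        (n : ℝ) ^ 3 / 8 * (cc u n / 2) := by
      calc _ ≤ _ := e1
        _ ≤ _ := hm
        _ ≤ _ := e2
        _ ≤ (n : ℝ) ^ 3 / 16 * cc u n := mul_le_mul_of_nonneg_right e3 hccn
        _ = _ := by ring
    exact le_of_mul_le_mul_left e4 (by positivity)
  -- the main part
  have hmain : ∑ k ∈ (range (n + 1)).filter (fun k => 2 * k ≤ n), u k * bt n k ≤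
      2 * cc u (n - 1) := by
    obtain ⟨N, rfl⟩ : ∃ N, n = N + 1 := ⟨n - 1, by omega⟩
    rw [Nat.add_sub_cancel]
    unfold cc
    rw [if_neg (by omega), Finset.mul_sum]
    calc ∑ k ∈ (range (N + 1 + 1)).filter (fun k => 2 * k ≤ N + 1), u k * bt (N + 1) k
        ≤ ∑ k ∈ (range (N + 1 + 1)).filter (fun k => 2 * k ≤ N + 1), 2 * (u k * bt N k) := by
          refine Finset.sum_le_sum fun k hk => ?_
          rw [Finset.mem_filter] at hk
          have := mul_le_mul_of_nonneg_left (bt_le (N := N) (by omega) hk.2) (hu k)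
          linarith
      _ ≤ ∑ k ∈ range (N + 1), 2 * (u k * bt N k) := by
          refine Finset.sum_le_sum_of_subset_of_nonneg (fun k hk => ?_) fun k _ _ =>
            mul_nonneg (by norm_num) (mul_nonneg (hu k) (bt_nonneg N k))
          rw [Finset.mem_filter] at hk
          rw [Finset.mem_range]
          omega
  have hsplit : cc u n = ∑ k ∈ (range (n + 1)).filter (fun k => 2 * k ≤ n), u k * bt n k +
      ∑ k ∈ (range (n + 1)).filter (fun k => ¬ 2 * k ≤ n), u k * bt n k := by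
    rw [Finset.sum_filter_add_sum_filter_not]
    unfold cc
    rw [if_neg (by omega)]
  linarith

end GiantSurf57
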