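import Pool.Agent.GiantSurf57.Stmts

open Finset

namespace GiantSurf57

namespace PkgF8

theorem pois_nonneg (n j : ℕ) : 0 ≤ pois n j := by
  unfold pois; positivity

theorem bt_nonneg (n k : ℕ) : 0 ≤ bt n k := by
  unfold bt
  exact mul_nonneg (by positivity) (pois_nonneg _ _)

theorem cc_eq (w : ℕ → ℝ) {n : ℕ} (hn : 1 ≤ n) : cc w n = ∑ k ∈ range (n + 1), w k * bt n k := by
  unfold cc
  rw [if_neg (by omega)]

theorem cc_nonneg (w : ℕ → ℝ) (hw : ∀ k, 0 ≤ w k) {n : ℕ} (hn : 1 ≤ n) : 0 ≤ cc w n := by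
  rw [cc_eq w hn]
  exact sum_nonneg fun k _ => mul_nonneg (hw k) (bt_nonneg n k)

theorem r32_div (n l : ℝ) (hn : 0 ≤ n) (hl : 0 < l) : r32 (n * l) = l ^ 3 * r32 (n / l) := by
  unfold r32
  have h : n * l = l ^ 2 * (n / l) := by field_simp
  rw [h, Real.sqrt_mul (by positivity), Real.sqrt_sq hl.le]
  ring

/-- the upper part -/
theorem high (hlow : S_low) (u : ℕ → ℝ) (l n : ℕ) (hl : 1 ≤ l) (hn : 1 ≤ n) (hln : l ≤ n)
    (h0 : ∀ k, 0 ≤ u k) (hs : ∀ k : ℕ, ((k : ℝ) + l) * u k ≤ k * u (k + 1)) :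
    3 / 4 * cc u n ≤ ∑ k ∈ (range (n + 1)).filter (fun k => ¬ 100 * k ^ 2 < n * l), u k * bt n k := by
  have h1 := hlow u l n hl hn hln h0 hs
  have h2 := sum_filter_add_sum_filter_not (range (n + 1)) (fun k => 100 * k ^ 2 < n * l)
    (fun k => u k * bt n k)
  have h3 := cc_eq u hn
  linarith

theorem k_ge {k n l : ℕ} (h : ¬ 100 * k ^ 2 < n * l) : √((n : ℝ) * l) ≤ 10 * k := by
  have h1 : n * l ≤ 100 * k ^ 2 := by omega
  have h2 : (n : ℝ) * l ≤ 100 * (k : ℝ) ^ 2 := by exact_mod_cast h1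
  rw [show (10 : ℝ) * k = √((10 * k) ^ 2) from (Real.sqrt_sq (by positivity)).symm]
  apply Real.sqrt_le_sqrt
  nlinarith

theorem r32_le {k n l : ℕ} (h : ¬ 100 * k ^ 2 < n * l) : r32 ((n : ℝ) * l) ≤ 1000 * (k : ℝ) ^ 3 := by
  have h1 := k_ge h
  unfold r32
  set x := √((n : ℝ) * l) with hx
  have h2 : (n : ℝ) * l = x ^ 2 := (Real.sq_sqrt (by positivity)).symm
  have h3 : 0 ≤ x := Real.sqrt_nonneg _
  rw [h2]
  calc x ^ 2 * x = x ^ 3 := by ring
    _ ≤ (10 * (k : ℝ)) ^ 3 := by gcongr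
    _ = 1000 * (k : ℝ) ^ 3 := by ring

theorem k_large {k n l C : ℕ} (hl : 1 ≤ l) (h : ¬ 100 * k ^ 2 < n * l)
    (hC : 100 * C ^ 2 * l ≤ n) : C * l ≤ k := by
  by_contra hk
  push Not at hk
  have h1 : n * l ≤ 100 * k ^ 2 := by omega
  have h2 : k ^ 2 < (C * l) ^ 2 := by gcongr
  have h3 : 100 * C ^ 2 * l * l ≤ n * l := by gcongr
  nlinarith

end PkgF8

open PkgF8

theorem pkgF8 (hmom : S_mom) (hlow : S_low) : S_ratio := by
  intro w hw
  obtain ⟨Cu, hCu1, hup⟩ := hw.up
  obtain ⟨Cl, hCl1, hlo⟩ := hw.lo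
  obtain ⟨Cm, δm, hδm, hm⟩ := hmom
  set C0 : ℕ := max Cu Cl with hC0
  have hC01 : 1 ≤ C0 := le_trans hCu1 (le_max_left _ _)
  have hC0r : (1 : ℝ) ≤ C0 := by exact_mod_cast hC01
  have hCuC : (Cu : ℝ) ≤ C0 := by exact_mod_cast le_max_left Cu Cl
  have hClC : (Cl : ℝ) ≤ C0 := by exact_mod_cast le_max_right Cu Cl
  refine ⟨2000 * C0 * (1 + |Cm|), min (δm / 2) (1 / (200 * (C0 : ℝ) ^ 2)), ?_, ?_, ?_, ?_⟩
  · have := abs_nonneg Cm
    nlinarith
  · positivity
  · intro l n hl hln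
    have hl0 : (1 : ℝ) ≤ l := by exact_mod_cast hl
    have hδ : (l : ℝ) ≤ 1 / (200 * (C0 : ℝ) ^ 2) * n :=
      hln.trans (mul_le_mul_of_nonneg_right (min_le_right _ _) (by positivity))
    have hδ' : 200 * (C0 : ℝ) ^ 2 * l ≤ n := by
      have h200 : (0 : ℝ) < 200 * (C0 : ℝ) ^ 2 := by positivity
      rw [one_div, inv_mul_eq_div, le_div_iff₀ h200] at hδ
      linarith
    have hnat : 200 * C0 ^ 2 * l ≤ n := by exact_mod_cast hδ'
    have hnat' : 100 * C0 ^ 2 * l ≤ n := by nlinarith [Nat.zero_le (C0 ^ 2 * l)]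
    have hlnn : l ≤ n := by nlinarith [Nat.one_le_pow 2 C0 hC01]
    have hn : 1 ≤ n := le_trans hl hlnn
    have hhigh := high hlow (fun k => w k l) l n hl hn hlnn (fun k => hw.nonneg k l)
      (fun k => hw.sub k l hl)
    -- main estimate
    have hmain : r32 ((n : ℝ) * l) * ∑ k ∈ (range (n + 1)).filter (fun k => ¬ 100 * k ^ 2 < n * l),
        w k l * bt n k ≤ 1000 * (C0 * (l : ℝ) ^ 3) * cc (fun k => w k (l + 1)) n := by
      rw [cc_eq _ hn, mul_sum, mul_sum]
      calc ∑ k ∈ (range (n + 1)).filter (fun k => ¬ 100 * k ^ 2 < n * l),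
            r32 ((n : ℝ) * l) * (w k l * bt n k)
          ≤ ∑ k ∈ (range (n + 1)).filter (fun k => ¬ 100 * k ^ 2 < n * l),
            1000 * (C0 * (l : ℝ) ^ 3) * (w k (l + 1) * bt n k) := by
            apply sum_le_sum
            intro k hk
            rw [mem_filter] at hk
            have hkC : Cl * l ≤ k := by
              refine le_trans ?_ (k_large hl hk.2 hnat')
              exact Nat.mul_le_mul_right _ (le_max_right _ _)
            have h1 := hlo k l hl hkC
            have h2 := r32_le hk.2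
            have h3 := hw.nonneg k l
            have h4 := bt_nonneg n k
            have h5 := hw.nonneg k (l + 1)
            calc r32 ((n : ℝ) * l) * (w k l * bt n k) ≤ 1000 * (k : ℝ) ^ 3 * (w k l * bt n k) := by
                  gcongr
              _ = 1000 * ((k : ℝ) ^ 3 * w k l) * bt n k := by ring
              _ ≤ 1000 * (Cl * (l : ℝ) ^ 3 * w k (l + 1)) * bt n k := by gcongr
              _ ≤ 1000 * (C0 * (l : ℝ) ^ 3 * w k (l + 1)) * bt n k := by gcongr
              _ = _ := by ring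
        _ ≤ ∑ k ∈ range (n + 1), 1000 * (C0 * (l : ℝ) ^ 3) * (w k (l + 1) * bt n k) := by
            apply sum_le_sum_of_subset_of_nonneg (filter_subset _ _)
            intro k _ _
            exact mul_nonneg (by positivity) (mul_nonneg (hw.nonneg _ _) (bt_nonneg _ _))
    have hr : r32 ((n : ℝ) * l) = (l : ℝ) ^ 3 * r32 ((n : ℝ) / l) :=
      r32_div n l (by positivity) (by linarith)
    have hrn : 0 ≤ r32 ((n : ℝ) * l) := by unfold r32; positivity
    have h3 : r32 ((n : ℝ) * l) * (3 / 4 * cc (fun k => w k l) n) ≤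
        1000 * (C0 * (l : ℝ) ^ 3) * cc (fun k => w k (l + 1)) n :=
      (mul_le_mul_of_nonneg_left hhigh hrn).trans hmain
    rw [hr] at h3
    have hl3 : (0 : ℝ) < (l : ℝ) ^ 3 := by positivity
    have h4 : r32 ((n : ℝ) / l) * (3 / 4 * cc (fun k => w k l) n) ≤
        1000 * C0 * cc (fun k => w k (l + 1)) n := by
      refine le_of_mul_le_mul_left ?_ hl3
      calc (l : ℝ) ^ 3 * (r32 ((n : ℝ) / l) * (3 / 4 * cc (fun k => w k l) n))
          = (l : ℝ) ^ 3 * r32 ((n : ℝ) / l) * (3 / 4 * cc (fun k => w k l) n) := by ring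
        _ ≤ _ := h3
        _ = _ := by ring
    have h5 : 0 ≤ cc (fun k => w k (l + 1)) n := cc_nonneg _ (fun k => hw.nonneg _ _) hn
    have h6 : 0 ≤ (C0 : ℝ) * cc (fun k => w k (l + 1)) n := by positivity
    have h7 : 0 ≤ (C0 : ℝ) * cc (fun k => w k (l + 1)) n * |Cm| := by positivity
    nlinarith
  · intro l n hCl hln
    have hC0l : (C0 : ℝ) ≤ l := by
      refine le_trans ?_ hCl
      have := abs_nonneg Cm
      nlinarith
    have hC0l' : C0 ≤ l := by exact_mod_cast hC0l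
    have hl : 1 ≤ l := le_trans hC01 hC0l'
    have hl0 : (1 : ℝ) ≤ l := by exact_mod_cast hl
    have hδ : (l : ℝ) ≤ 1 / (200 * (C0 : ℝ) ^ 2) * n :=
      hln.trans (mul_le_mul_of_nonneg_right (min_le_right _ _) (by positivity))
    have hδ2 : (l : ℝ) ≤ δm * n := by
      refine hln.trans ((mul_le_mul_of_nonneg_right (min_le_left _ _) (by positivity)).trans ?_)
      have : 0 ≤ δm * n := by positivity
      linarith
    have hδ' : 200 * (C0 : ℝ) ^ 2 * l ≤ n := by
      have h200 : (0 : ℝ) < 200 * (C0 : ℝ) ^ 2 := by positivity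
      rw [one_div, inv_mul_eq_div, le_div_iff₀ h200] at hδ
      linarith
    have hnat : 200 * C0 ^ 2 * l ≤ n := by exact_mod_cast hδ'
    have hC1 : 1 ≤ C0 ^ 2 := Nat.one_le_pow 2 C0 hC01
    have hnat' : 100 * C0 ^ 2 * (l + 1) ≤ n := by nlinarith
    have hlnn : l + 1 ≤ n := by nlinarith
    have hn : 1 ≤ n := by omega
    have hhigh := high hlow (fun k => w k (l + 1)) (l + 1) n (by omega) hn hlnn
      (fun k => hw.nonneg k _) (fun k => hw.sub k _ (by omega))
    have hmm := hm (fun k => w k l) l n hl hn hδ2 (fun k => hw.nonneg k l)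
      (fun k => hw.sub k l hl) (fun k => hw.sup k l hl)
    have hr : r32 ((n : ℝ) * l) = (l : ℝ) ^ 3 * r32 ((n : ℝ) / l) :=
      r32_div n l (by positivity) (by linarith)
    have hrn : 0 ≤ r32 ((n : ℝ) / l) := by unfold r32; positivity
    have hcc : 0 ≤ cc (fun k => w k l) n := cc_nonneg _ (fun k => hw.nonneg _ _) hn
    have hmain : (l : ℝ) ^ 3 * ∑ k ∈ (range (n + 1)).filter
        (fun k => ¬ 100 * k ^ 2 < n * (l + 1)), w k (l + 1) * bt n k ≤
        C0 * ∑ k ∈ range (n + 1), (k : ℝ) ^ 3 * (w k l * bt n k) := by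
      rw [mul_sum, mul_sum]
      calc ∑ k ∈ (range (n + 1)).filter (fun k => ¬ 100 * k ^ 2 < n * (l + 1)),
            (l : ℝ) ^ 3 * (w k (l + 1) * bt n k)
          ≤ ∑ k ∈ (range (n + 1)).filter (fun k => ¬ 100 * k ^ 2 < n * (l + 1)),
            C0 * ((k : ℝ) ^ 3 * (w k l * bt n k)) := by
            apply sum_le_sum
            intro k hk
            rw [mem_filter] at hk
            have hkC : Cu * l ≤ k := by
              refine le_trans ?_ (k_large (C := C0) (by omega) hk.2 hnat')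
              exact Nat.mul_le_mul (le_max_left _ _) (by omega)
            have h1 := hup k l (le_trans (le_max_left _ _) hC0l') hkC
            have h3 := hw.nonneg k l
            have h4 := bt_nonneg n k
            calc (l : ℝ) ^ 3 * (w k (l + 1) * bt n k) = (l : ℝ) ^ 3 * w k (l + 1) * bt n k := by ring
              _ ≤ (Cu * (k : ℝ) ^ 3 * w k l) * bt n k := by gcongr
              _ ≤ (C0 * (k : ℝ) ^ 3 * w k l) * bt n k := by gcongr
              _ = _ := by ring
        _ ≤ _ := by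
            apply sum_le_sum_of_subset_of_nonneg (filter_subset _ _)
            intro k _ _
            exact mul_nonneg (by positivity) (mul_nonneg (by positivity)
              (mul_nonneg (hw.nonneg _ _) (bt_nonneg _ _)))
    have hl3 : (0 : ℝ) < (l : ℝ) ^ 3 := by positivity
    have h3 : (l : ℝ) ^ 3 * (3 / 4 * cc (fun k => w k (l + 1)) n) ≤
        (l : ℝ) ^ 3 * (C0 * (1 + |Cm|) * r32 ((n : ℝ) / l) * cc (fun k => w k l) n) := by
      calc (l : ℝ) ^ 3 * (3 / 4 * cc (fun k => w k (l + 1)) n)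
          ≤ (l : ℝ) ^ 3 * ∑ k ∈ (range (n + 1)).filter
            (fun k => ¬ 100 * k ^ 2 < n * (l + 1)), w k (l + 1) * bt n k := by gcongr
        _ ≤ C0 * ∑ k ∈ range (n + 1), (k : ℝ) ^ 3 * (w k l * bt n k) := hmain
        _ ≤ C0 * (Cm * r32 ((n : ℝ) * l) * cc (fun k => w k l) n) := by gcongr
        _ ≤ C0 * ((1 + |Cm|) * r32 ((n : ℝ) * l) * cc (fun k => w k l) n) := by
            have : Cm ≤ 1 + |Cm| := by have := le_abs_self Cm; linarith
            have hrn' : 0 ≤ r32 ((n : ℝ) * l) := by rw [hr]; positivity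
            gcongr
        _ = _ := by rw [hr]; ring
    have h4 := le_of_mul_le_mul_left h3 hl3
    have h5 : 0 ≤ C0 * (1 + |Cm|) * r32 ((n : ℝ) / l) * cc (fun k => w k l) n := by
      have := abs_nonneg Cm
      positivity
    nlinarith

end GiantSurf57
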