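import Pool.Agent.GiantSurf57.StmtsTop

/-! Package F9: facts on `pp`. -/

open scoped Classical
open Finset

namespace GiantSurf57

namespace PkgF9

theorem pp_nonneg (s : ℕ) : 0 ≤ pp s := by
  unfold pp; positivity

theorem pp_zero : pp 0 = 0 := by
  simp [pp]

theorem pp_one : pp 1 = Real.exp (-1) := by
  simp [pp]

theorem pow_succ_le (s : ℕ) (hs : 1 ≤ s) :
    ((s : ℝ) + 1) ^ s ≤ Real.exp 1 * (s : ℝ) ^ s := by
  have hs0 : (0 : ℝ) < s := by exact_mod_cast hs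
  have h1 : (s : ℝ) + 1 ≤ Real.exp (1 / s) * s := by
    have := Real.add_one_le_exp (1 / (s : ℝ))
    have h2 : (1 / (s : ℝ) + 1) * s = s + 1 := by field_simp; ring
    nlinarith
  calc ((s : ℝ) + 1) ^ s ≤ (Real.exp (1 / s) * s) ^ s := by gcongr
    _ = Real.exp 1 * (s : ℝ) ^ s := by
      rw [mul_pow, ← Real.exp_nat_mul]
      congr 2
      field_simp

theorem pp_succ_le (s : ℕ) (hs : 1 ≤ s) : pp (s + 1) ≤ pp s := by
  have hs0 : (0 : ℝ) < s := by exact_mod_cast hs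
  have hf : (0 : ℝ) < (s.factorial : ℝ) := by exact_mod_cast s.factorial_pos
  have h := pow_succ_le s hs
  unfold pp
  have e1 : (((s + 1 : ℕ) : ℝ)) = (s : ℝ) + 1 := by push_cast; ring
  have e2 : (((s + 1).factorial : ℕ) : ℝ) = ((s : ℝ) + 1) * (s.factorial : ℝ) := by
    rw [Nat.factorial_succ]; push_cast; ring
  rw [e1, e2]
  have e3 : Real.exp (-((s : ℝ) + 1)) = Real.exp (-(s : ℝ)) * (Real.exp 1)⁻¹ := by
    rw [← Real.exp_neg, ← Real.exp_add]; congr 1; ring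
  rw [e3, pow_succ]
  have hpos : (0 : ℝ) < (s : ℝ) + 1 := by positivity
  have : ((s : ℝ) + 1) ^ s * ((s : ℝ) + 1) * (Real.exp (-(s : ℝ)) * (Real.exp 1)⁻¹) /
      (((s : ℝ) + 1) ^ 2 * (((s : ℝ) + 1) * (s.factorial : ℝ))) =
      (((s : ℝ) + 1) ^ s * (Real.exp 1)⁻¹) * Real.exp (-(s : ℝ)) /
      (((s : ℝ) + 1) ^ 2 * (s.factorial : ℝ)) := by
    field_simp
  rw [this]
  have h4 : ((s : ℝ) + 1) ^ s * (Real.exp 1)⁻¹ ≤ (s : ℝ) ^ s := by
    rw [← div_eq_mul_inv, div_le_iff₀ (Real.exp_pos 1)]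
    linarith
  gcongr
  linarith

theorem s_pp_le (s : ℕ) : (s : ℝ) * pp s ≤ (2 / 5) * (1 / ((s : ℝ) * √(s : ℝ))) := by
  rcases Nat.eq_zero_or_pos s with rfl | hs
  · simp
  have hs0 : (0 : ℝ) < s := by exact_mod_cast hs
  have hf : (0 : ℝ) < (s.factorial : ℝ) := by exact_mod_cast s.factorial_pos
  have h := Stirling.le_factorial_stirling s
  have h1 : √(2 * Real.pi * s) * (s / Real.exp 1) ^ s ≤ (s.factorial : ℝ) := h
  have hq : (5 / 2 : ℝ) * √(s : ℝ) ≤ √(2 * Real.pi * s) := by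
    apply Real.le_sqrt_of_sq_le
    rw [mul_pow, Real.sq_sqrt hs0.le]
    have := Real.pi_gt_d2
    nlinarith
  have h2 : (s / Real.exp 1) ^ s = (s : ℝ) ^ s * Real.exp (-(s : ℝ)) := by
    rw [div_pow, div_eq_mul_inv, Real.exp_neg, ← Real.exp_nat_mul, mul_one]
  have h3 : (5 / 2 : ℝ) * √(s : ℝ) * ((s : ℝ) ^ s * Real.exp (-(s : ℝ))) ≤ (s.factorial : ℝ) := by
    rw [← h2]
    refine le_trans ?_ h1
    gcongr
  have hsq : 0 < √(s : ℝ) := Real.sqrt_pos.mpr hs0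
  unfold pp
  rw [show (s : ℝ) * ((s : ℝ) ^ s * Real.exp (-(s : ℝ)) / ((s : ℝ) ^ 2 * (s.factorial : ℝ))) =
    ((s : ℝ) ^ s * Real.exp (-(s : ℝ))) / ((s : ℝ) * (s.factorial : ℝ)) by field_simp]
  rw [show (2 / 5 : ℝ) * (1 / ((s : ℝ) * √(s : ℝ))) = (2 / 5) / ((s : ℝ) * √(s : ℝ)) by ring]
  rw [div_le_div_iff₀ (by positivity) (by positivity)]
  have : (s : ℝ) ^ s * Real.exp (-(s : ℝ)) * ((s : ℝ) * √(s : ℝ)) =
      (2 / 5) * s * ((5 / 2 : ℝ) * √(s : ℝ) * ((s : ℝ) ^ s * Real.exp (-(s : ℝ)))) := by ring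
  rw [this]
  nlinarith

theorem sum_f (N : ℕ) : ∑ s ∈ range (N + 2), (1 / ((s : ℝ) * √(s : ℝ))) ≤ 3 - 2 / √((N : ℝ) + 1) := by
  induction N with
  | zero => norm_num [Finset.sum_range_succ]
  | succ N ih =>
    rw [Finset.sum_range_succ]
    have hN : (0 : ℝ) ≤ N := Nat.cast_nonneg N
    set a := √((N : ℝ) + 1) with ha
    set b := √((N : ℝ) + 1 + 1) with hb
    have ha2 : a ^ 2 = (N : ℝ) + 1 := Real.sq_sqrt (by positivity)
    have hb2 : b ^ 2 = (N : ℝ) + 1 + 1 := Real.sq_sqrt (by positivity)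
    have ha0 : 0 < a := Real.sqrt_pos.mpr (by positivity)
    have hb0 : 0 < b := Real.sqrt_pos.mpr (by positivity)
    have hab : a ≤ b := Real.sqrt_le_sqrt (by linarith)
    have e1 : (((N + 2 : ℕ) : ℝ)) = (N : ℝ) + 1 + 1 := by push_cast; ring
    have e2 : (((N + 1 : ℕ) : ℝ) + 1) = (N : ℝ) + 1 + 1 := by push_cast; ring
    rw [e1, e2, ← hb, ← hb2]
    have key : 1 / (b ^ 2 * b) ≤ 2 / a - 2 / b := by
      rw [div_sub_div _ _ ha0.ne' hb0.ne', div_le_div_iff₀ (by positivity) (by positivity)]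
      have hd : (b - a) * (b + a) = 1 := by nlinarith
      have h1 : (2 * b - a * 2) * (b ^ 2 * b) * (b + a) = 2 * (b ^ 2 * b) := by
        have : (2 * b - a * 2) * (b ^ 2 * b) * (b + a) = 2 * ((b - a) * (b + a)) * (b ^ 2 * b) := by ring
        rw [this, hd]; ring
      have h2 : 1 * (a * b) * (b + a) ≤ 2 * (b ^ 2 * b) := by
        have : a * (b + a) ≤ 2 * b ^ 2 := by nlinarith
        nlinarith
      by_contra hcon
      push Not at hcon
      have : (2 * b - a * 2) * (b ^ 2 * b) * (b + a) < 1 * (a * b) * (b + a) :=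
        mul_lt_mul_of_pos_right hcon (by positivity)
      linarith
    linarith

theorem sum_f_le (N : ℕ) : ∑ s ∈ range N, (1 / ((s : ℝ) * √(s : ℝ))) ≤ 3 := by
  have h1 : ∑ s ∈ range N, (1 / ((s : ℝ) * √(s : ℝ))) ≤
      ∑ s ∈ range (N + 2), (1 / ((s : ℝ) * √(s : ℝ))) := by
    apply Finset.sum_le_sum_of_subset_of_nonneg
    · exact Finset.range_mono (by omega)
    · intro i _ _; positivity
  have h2 := sum_f N
  have h3 : 0 ≤ 2 / √((N : ℝ) + 1) := by positivity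
  linarith

theorem sum_s_pp (N : ℕ) : ∑ s ∈ range N, (s : ℝ) * pp s ≤ 6 / 5 := by
  calc ∑ s ∈ range N, (s : ℝ) * pp s ≤ ∑ s ∈ range N, (2 / 5) * (1 / ((s : ℝ) * √(s : ℝ))) :=
        Finset.sum_le_sum (fun s _ => s_pp_le s)
    _ = (2 / 5) * ∑ s ∈ range N, (1 / ((s : ℝ) * √(s : ℝ))) := by rw [Finset.mul_sum]
    _ ≤ (2 / 5) * 3 := by gcongr; exact sum_f_le N
    _ = 6 / 5 := by norm_num

theorem sum_pp (N : ℕ) : ∑ s ∈ range N, pp s ≤ 1 := by
  have h1 : ∀ s : ℕ, pp s ≤ (1 / 2) * ((s : ℝ) * pp s) + (if s = 1 then (1 / 2) * pp 1 else 0) := by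
    intro s
    rcases Nat.lt_or_ge s 2 with h | h
    · interval_cases s
      · simp [pp_zero]
      · simp; linarith
    · have : (2 : ℝ) ≤ s := by exact_mod_cast h
      have h0 := pp_nonneg s
      rw [if_neg (by omega)]
      nlinarith
  have h2 : ∑ s ∈ range N, (if s = 1 then (1 / 2) * pp 1 else 0) ≤ (1 / 2) * pp 1 := by
    rw [Finset.sum_ite_eq']
    split_ifs
    · exact le_rfl
    · have := pp_nonneg 1; linarith
  have h3 : pp 1 ≤ 1 / 2 := by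
    rw [pp_one, Real.exp_neg, inv_le_comm₀ (Real.exp_pos 1) (by norm_num)]
    have := Real.exp_one_gt_d9
    norm_num
    linarith
  calc ∑ s ∈ range N, pp s
      ≤ ∑ s ∈ range N, ((1 / 2) * ((s : ℝ) * pp s) + (if s = 1 then (1 / 2) * pp 1 else 0)) :=
        Finset.sum_le_sum (fun s _ => h1 s)
    _ = (1 / 2) * ∑ s ∈ range N, (s : ℝ) * pp s + ∑ s ∈ range N, (if s = 1 then (1 / 2) * pp 1 else 0) := by
        rw [Finset.sum_add_distrib, Finset.mul_sum]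
    _ ≤ 1 := by
        have := sum_s_pp N
        linarith

end PkgF9

theorem pkgF9 : S_pp := by
  refine ⟨PkgF9.pp_nonneg, PkgF9.pp_zero, PkgF9.pp_one, PkgF9.pp_succ_le, PkgF9.sum_pp, ?_⟩
  intro N
  have := PkgF9.sum_s_pp N
  linarith

end GiantSurf57
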