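import Pool.Agent.GiantSurf57.StmtsTop

/-!
# Package G0 of `GiantSurf57`: splitting by the number of tree components
-/

open scoped Classical
open Finset

namespace GiantSurf57

namespace PkgG0

lemma split (h : S_G1) (P : SimpleGraph ℕ → Prop) (n m : ℕ) (p : ℕ → Prop) :
    ((GG P n m).filter (fun G => p (tc G (range n)))).card =
      ∑ t ∈ (range (n + 1)).filter (fun t : ℕ => 0 ≤ (t : ℤ) + ((m : ℤ) - n) ∧ p t),
        (grs P (range n) t ((t : ℤ) + ((m : ℤ) - n)).toNat).card := by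
  have hmaps : ∀ G ∈ (GG P n m).filter (fun G => p (tc G (range n))), tc G (range n) ∈
      (range (n + 1)).filter (fun t : ℕ => 0 ≤ (t : ℤ) + ((m : ℤ) - n) ∧ p t) := by
    intro G hG
    unfold GG at hG
    rw [mem_filter, mem_filter] at hG
    obtain ⟨⟨hg, _, hne⟩, hp⟩ := hG
    obtain ⟨h1, h2, _⟩ := h (range n) G hg
    rw [card_range] at h1 h2
    rw [mem_filter, mem_range]
    exact ⟨by omega, by omega, hp⟩
  rw [Finset.card_eq_sum_card_fiberwise hmaps]
  refine Finset.sum_congr rfl (fun t ht => ?_)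
  rw [mem_filter] at ht
  obtain ⟨_, ht, hpt⟩ := ht
  congr 1
  ext G
  unfold GG grs
  simp only [mem_filter, card_range]
  constructor
  · rintro ⟨⟨⟨hg, hP, hne⟩, _⟩, htc⟩
    refine ⟨hg, hP, htc, ?_⟩
    omega
  · rintro ⟨hg, hP, htc, hne⟩
    refine ⟨⟨⟨hg, hP, ?_⟩, by rw [htc]; exact hpt⟩, htc⟩
    omega

lemma split' (h : S_G1) (hc : S_cnt) (P : SimpleGraph ℕ → Prop) (hP : SurfClass P) (n m : ℕ)
    (p : ℕ → Prop) :
    (((GG P n m).filter (fun G => p (tc G (range n)))).card : ℝ) =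
      (n.factorial : ℝ) * Real.exp n *
      ∑ t ∈ (range (n + 1)).filter (fun t : ℕ => 0 ≤ (t : ℤ) + ((m : ℤ) - n) ∧ p t),
        AA (wt P) t ((t : ℤ) + ((m : ℤ) - n)).toNat n := by
  rw [split h P n m p]
  push_cast
  rw [Finset.mul_sum]
  refine Finset.sum_congr rfl (fun t _ => ?_)
  have := hc P hP n t ((t : ℤ) + ((m : ℤ) - n)).toNat
  unfold cnt at this
  rw [this]
  rfl

end PkgG0

theorem pkgG0 (h1 : S_G1) (h2 : S_cnt) : S_G0 := by
  intro P hP n m
  refine ⟨?_, ?_⟩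
  · have h := PkgG0.split' h1 h2 P hP n m (fun _ => True)
    simp only [Finset.filter_true, and_true] at h
    exact h
  · intro f
    exact PkgG0.split' h1 h2 P hP n m (fun t => (t : ℝ) ≤ f)

end GiantSurf57
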