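import Pool.Agent.GiantSurf57.Stmts
import Pool.Agent.GiantSurf57.Basic
import Pool.Agent.GiantSurf57.PkgE9

/-!
# Package G1: number of tree components and excess
-/

open scoped Classical
open Finset

namespace GiantSurf57

namespace PkgG1

open PkgE9

variable {S A B : Finset ℕ} {G : SimpleGraph ℕ}

/-- Walks starting in a component stay in the induced graph. -/
theorem reach_induce (hG : G ∈ graphsOn S) (hA : A ∈ comps G S) {a b : ℕ} (h : G.Reachable a b)
    (ha : a ∈ A) : ∃ hb : b ∈ A, (G.induce (A : Set ℕ)).Reachable ⟨a, ha⟩ ⟨b, hb⟩ := by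
  obtain ⟨w⟩ := h
  induction w with
  | nil => exact ⟨ha, SimpleGraph.Reachable.refl _⟩
  | @cons u v w' h _ ih =>
    have hv : v ∈ A := (mem_comp_closed hG hA h).mp ha
    obtain ⟨hb, h2⟩ := ih hv
    refine ⟨hb, SimpleGraph.Reachable.trans (SimpleGraph.Adj.reachable ?_) h2⟩
    exact h

theorem reach_comp (hA : A ∈ comps G S) {x y : ℕ} (hx : x ∈ A) (hy : y ∈ A) :
    G.Reachable x y := by
  unfold comps at hA
  obtain ⟨z, hz, rfl⟩ := Finset.mem_image.mp hA
  simp only [compOf, Finset.mem_filter] at hx hy
  exact hx.2.symm.trans hy.2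

theorem card_le_neIn (hG : G ∈ graphsOn S) (hA : A ∈ comps G S) : A.card ≤ neIn G A + 1 := by
  have hne := (comp_sub hA).2
  have hconn : (G.induce (A : Set ℕ)).Connected := by
    rw [SimpleGraph.connected_iff]
    refine ⟨?_, ?_⟩
    · rintro ⟨x, hx⟩ ⟨y, hy⟩
      exact (reach_induce hG hA (reach_comp hA hx hy) hx).2
    · obtain ⟨x, hx⟩ := hne
      exact ⟨⟨x, hx⟩⟩
  have h1 := hconn.card_vert_le_card_edgeSet_add_one
  have h2 : Nat.card (A : Set ℕ) = A.card := by simp
  have h3 : Nat.card (G.induce (A : Set ℕ)).edgeSet ≤ neIn G A := by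
    unfold neIn
    obtain ⟨val, hval⟩ : ∃ val : ↥(A : Set ℕ) → ℕ, val = fun a => a.1 := ⟨_, rfl⟩
    have hvinj : Function.Injective val := by
      rw [hval]
      exact Subtype.val_injective
    have hinj : Function.Injective (Sym2.map val) := Sym2.map.injective hvinj
    have e1 : Nat.card (G.induce (A : Set ℕ)).edgeSet =
        (Sym2.map val '' (G.induce (A : Set ℕ)).edgeSet).ncard := by
      rw [Set.ncard_image_of_injective _ hinj]
      rfl
    rw [e1]
    apply Set.ncard_le_ncard
    · rintro e ⟨e', he', rfl⟩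
      induction e' with
      | h a b =>
        subst hval
        refine ⟨he', ?_⟩
        intro z hz
        rw [Sym2.map_mk, Sym2.mem_iff] at hz
        rcases hz with rfl | rfl
        · exact a.2
        · exact b.2
    · exact (edgeSet_finite hG).subset (fun e he => he.1)
  omega

theorem comp_eq (hA : A ∈ comps G S) (hB : B ∈ comps G S) {x : ℕ} (hxA : x ∈ A) (hxB : x ∈ B) :
    A = B := by
  have key : ∀ C ∈ comps G S, x ∈ C → C = compOf G S x := by
    intro C hC hx
    unfold comps at hC
    obtain ⟨z, hz, rfl⟩ := Finset.mem_image.mp hC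
    have hzx := (Finset.mem_filter.mp hx).2
    ext w
    simp only [compOf, Finset.mem_filter]
    constructor
    · rintro ⟨h1, h2⟩
      exact ⟨h1, hzx.symm.trans h2⟩
    · rintro ⟨h1, h2⟩
      exact ⟨h1, hzx.trans h2⟩
  rw [key A hA hxA, key B hB hxB]

theorem sum_card : ∑ A ∈ comps G S, A.card = S.card := by
  rw [← Finset.card_biUnion]
  · congr 1
    ext x
    simp only [Finset.mem_biUnion]
    constructor
    · rintro ⟨A, hA, hx⟩
      exact (comp_sub hA).1 hx
    · intro hx
      exact ⟨compOf G S x, Finset.mem_image_of_mem _ hx,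
        Finset.mem_filter.mpr ⟨hx, SimpleGraph.Reachable.refl _⟩⟩
  · intro A hA B hB hAB
    rw [Function.onFun, Finset.disjoint_left]
    intro x hx hx'
    exact hAB (comp_eq hA hB hx hx')

theorem sum_neIn (hG : G ∈ graphsOn S) : ∑ A ∈ comps G S, neIn G A ≤ ne G := by
  have hf := edgeSet_finite hG
  have hfin : ∀ A : Finset ℕ, {e ∈ G.edgeSet | ∀ x ∈ e, x ∈ A}.Finite := fun A =>
    hf.subset (fun e he => he.1)
  have e1 : ∀ A : Finset ℕ, neIn G A = (hfin A).toFinset.card := fun A =>
    Set.ncard_eq_toFinset_card _ (hfin A)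
  have e2 : ne G = hf.toFinset.card := Set.ncard_eq_toFinset_card _ hf
  rw [e2, Finset.sum_congr rfl (fun A _ => e1 A), ← Finset.card_biUnion]
  · apply Finset.card_le_card
    intro e he
    obtain ⟨A, _, h⟩ := Finset.mem_biUnion.mp he
    rw [Set.Finite.mem_toFinset] at h ⊢
    exact h.1
  · intro A hA B hB hAB
    rw [Function.onFun, Finset.disjoint_left]
    intro e he he'
    rw [Set.Finite.mem_toFinset] at he he'
    induction e with
    | h a b =>
      exact hAB (comp_eq hA hB (he.2 a (by simp)) (he'.2 a (by simp)))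

end PkgG1

open PkgG1 PkgE9 in
theorem pkgG1 : S_G1 := by
  intro S G hG
  have hcard : (comps G S).card ≤ S.card := Finset.card_image_le
  have htc : tc G S ≤ (comps G S).card := Finset.card_filter_le _ _
  refine ⟨?_, htc.trans hcard, ?_⟩
  · have h1 : ∀ A ∈ comps G S, A.card ≤ neIn G A + (if neIn G A + 1 = A.card then 1 else 0) := by
      intro A hA
      have := card_le_neIn hG hA
      split_ifs with h
      · omega
      · omega
    calc S.card = ∑ A ∈ comps G S, A.card := (sum_card).symm
      _ ≤ ∑ A ∈ comps G S, (neIn G A + (if neIn G A + 1 = A.card then 1 else 0)) :=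
          Finset.sum_le_sum h1
      _ = ∑ A ∈ comps G S, neIn G A + tc G S := by
          rw [Finset.sum_add_distrib, ← Finset.card_filter]
          rfl
      _ ≤ ne G + tc G S := by
          have := sum_neIn hG
          omega
  · unfold L1
    rcases (comps G S).eq_empty_or_nonempty with h0 | h0
    · rw [h0] at htc ⊢
      simp only [Finset.card_empty, Finset.sup_empty, bot_eq_zero'] at htc ⊢
      omega
    · obtain ⟨A0, hA0, hsup⟩ := Finset.exists_mem_eq_sup _ h0 Finset.card
      rw [hsup]
      have h2 := sum_card (G := G) (S := S)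
      rw [← Finset.add_sum_erase _ _ hA0] at h2
      have h3 : ((comps G S).erase A0).card ≤ ∑ A ∈ (comps G S).erase A0, A.card := by
        rw [Finset.card_eq_sum_ones]
        apply Finset.sum_le_sum
        intro A hA
        exact (comp_sub (Finset.mem_of_mem_erase hA)).2.card_pos
      rw [Finset.card_erase_of_mem hA0] at h3
      have h4 : 0 < (comps G S).card := h0.card_pos
      omega

end GiantSurf57
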