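import Pool.Agent.GiantSurf57.PkgG3

open scoped Classical
open Finset

namespace GiantSurf57
namespace PkgG2
open PkgG3

/-- Ordered bridges. -/
noncomputable def BB2 (G : SimpleGraph ℕ) (S : Finset ℕ) : Finset (ℕ × ℕ) :=
  (S ×ˢ S).filter (fun p => G.Adj p.1 p.2 ∧ ¬ (G.deleteEdges {s(p.1, p.2)}).Reachable p.1 p.2)

theorem mem_BB2 {G : SimpleGraph ℕ} {S : Finset ℕ} {p : ℕ × ℕ} :
    p ∈ BB2 G S ↔ (p.1 ∈ S ∧ p.2 ∈ S) ∧ G.Adj p.1 p.2 ∧
      ¬ (G.deleteEdges {s(p.1, p.2)}).Reachable p.1 p.2 := by
  unfold BB2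
  rw [Finset.mem_filter, Finset.mem_product]

noncomputable def rep (G : SimpleGraph ℕ) (x : ℕ) : ℕ := (G.connectedComponentMk x).out

theorem rep_reach (G : SimpleGraph ℕ) (x : ℕ) : G.Reachable x (rep G x) := by
  unfold rep
  have : G.connectedComponentMk ((G.connectedComponentMk x).out) = G.connectedComponentMk x :=
    Quot.out_eq _
  exact (SimpleGraph.ConnectedComponent.exact this).symm

theorem rep_eq {G : SimpleGraph ℕ} {x y : ℕ} (h : G.Reachable x y) : rep G x = rep G y := by
  unfold rep
  rw [SimpleGraph.ConnectedComponent.sound h]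

/-- Two edges at `x` cannot both separate `x` from `r`. -/
theorem sep_unique {G : SimpleGraph ℕ} {x y z r : ℕ} (hr : G.Reachable x r)
    (h1 : ¬ (G.deleteEdges {s(x, y)}).Reachable x r)
    (h2 : ¬ (G.deleteEdges {s(x, z)}).Reachable x r) : y = z := by
  by_contra hyz
  obtain ⟨p, hp⟩ := hr.exists_isPath
  have hgen : ∀ w, (∀ e ∈ p.edges, e ≠ s(x, w)) → (G.deleteEdges {s(x, w)}).Reachable x r := by
    intro w hw
    exact ⟨p.toDeleteEdges {s(x, w)} (fun e he => by
      rw [Set.mem_singleton_iff]; exact hw e he)⟩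
  cases p with
  | nil => exact h1 (SimpleGraph.Reachable.refl _)
  | @cons _ w _ hadj q =>
    rw [SimpleGraph.Walk.cons_isPath_iff] at hp
    have key : ∀ u, w ≠ u → (G.deleteEdges {s(x, u)}).Reachable x r := by
      intro u hwu
      apply hgen u
      intro e he
      rw [SimpleGraph.Walk.edges_cons, List.mem_cons] at he
      rcases he with rfl | he
      · intro heq
        rw [Sym2.eq_iff] at heq
        rcases heq with ⟨_, h⟩ | ⟨h, h'⟩
        · exact hwu h
        · exact hwu (h'.trans h)
      · rintro rfl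
        exact hp.2 (q.fst_mem_support_of_mem_edges he)
    by_cases hw : w = y
    · exact h2 (key z (fun h => hyz (hw.symm.trans h)))
    · exact h1 (key y hw)

theorem card_BB2 (G : SimpleGraph ℕ) (S : Finset ℕ) : (BB2 G S).card ≤ 2 * S.card := by
  have h : (BB2 G S).card ≤ (S ×ˢ (Finset.univ : Finset Bool)).card := by
    refine Finset.card_le_card_of_injOn
      (fun p => if (G.deleteEdges {s(p.1, p.2)}).Reachable p.1 (rep G p.1) then (p.2, false)
        else (p.1, true)) ?_ ?_
    · intro p hp
      have hp' := mem_BB2.mp (Finset.mem_coe.mp hp)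
      by_cases hr : (G.deleteEdges {s(p.1, p.2)}).Reachable p.1 (rep G p.1)
      · simp [hr, hp'.1.2]
      · simp [hr, hp'.1.1]
    · rintro ⟨x, y⟩ hp ⟨x', y'⟩ hp' heq
      have hp1 := mem_BB2.mp (Finset.mem_coe.mp hp)
      have hp2 := mem_BB2.mp (Finset.mem_coe.mp hp')
      simp only at hp1 hp2 heq
      by_cases hr : (G.deleteEdges {s(x, y)}).Reachable x (rep G x)
      · by_cases hr' : (G.deleteEdges {s(x', y')}).Reachable x' (rep G x')
        · rw [if_pos hr, if_pos hr', Prod.mk.injEq] at heq
          obtain ⟨rfl, -⟩ := heq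
          have e1 : rep G x = rep G y := rep_eq hp1.2.1.reachable
          have e2 : rep G x' = rep G y := rep_eq hp2.2.1.reachable
          have n1 : ¬ (G.deleteEdges {s(y, x)}).Reachable y (rep G y) := by
            intro h
            rw [Sym2.eq_swap, ← e1] at h
            exact hp1.2.2 (hr.trans h.symm)
          have n2 : ¬ (G.deleteEdges {s(y, x')}).Reachable y (rep G y) := by
            intro h
            rw [Sym2.eq_swap, ← e2] at h
            exact hp2.2.2 (hr'.trans h.symm)
          have := sep_unique (rep_reach G y) n1 n2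
          rw [this]
        · rw [if_pos hr, if_neg hr'] at heq
          simp at heq
      · by_cases hr' : (G.deleteEdges {s(x', y')}).Reachable x' (rep G x')
        · rw [if_neg hr, if_pos hr'] at heq
          simp at heq
        · rw [if_neg hr, if_neg hr', Prod.mk.injEq] at heq
          obtain ⟨rfl, -⟩ := heq
          have := sep_unique (rep_reach G x) hr hr'
          rw [this]
  rw [Finset.card_product, Finset.card_univ, Fintype.card_bool] at h
  omega

theorem delete_sup {G : SimpleGraph ℕ} {x y : ℕ} (hxy : x ≠ y) (hna : ¬ G.Adj x y) :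
    (G ⊔ SimpleGraph.edge x y).deleteEdges {s(x, y)} = G := by
  ext u v
  rw [SimpleGraph.deleteEdges_adj, adj_sup hxy, Set.mem_singleton_iff]
  constructor
  · rintro ⟨h | h, h'⟩
    · exact h
    · exact absurd h h'
  · intro h
    refine ⟨Or.inl h, ?_⟩
    intro hs
    rw [Sym2.eq_iff] at hs
    rcases hs with ⟨rfl, rfl⟩ | ⟨rfl, rfl⟩
    · exact hna h
    · exact hna h.symm

end PkgG2

open PkgG2 PkgG3 in
theorem pkgG2 : S_G2 := by
  intro P hP n m
  rcases Nat.eq_zero_or_pos n with rfl | hn
  · simp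
  set T : SimpleGraph ℕ → Finset (ℕ × ℕ) := fun G =>
    ((range n) ×ˢ (range n)).filter (fun p => ¬ G.Reachable p.1 p.2) with hT
  have hlow : ∀ G : SimpleGraph ℕ, n * (n - L1 G (range n)) ≤ (T G).card := by
    intro G
    have h1 : (T G).card = ∑ x ∈ range n, ((range n).filter (fun y => ¬ G.Reachable x y)).card := by
      rw [← Finset.card_sigma]
      refine Finset.card_bij (fun p _ => ⟨p.1, p.2⟩) ?_ ?_ ?_
      · intro p hp
        have hp' := Finset.mem_filter.mp hp
        have hp2 := Finset.mem_product.mp hp'.1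
        exact Finset.mem_sigma.mpr ⟨hp2.1, Finset.mem_filter.mpr ⟨hp2.2, hp'.2⟩⟩
      · rintro ⟨a, b⟩ _ ⟨c, d⟩ _ h
        simp only [Sigma.mk.injEq, heq_eq_eq] at h
        rw [h.1, h.2]
      · rintro ⟨a, b⟩ hb
        have hb' := Finset.mem_sigma.mp hb
        have hb2 := Finset.mem_filter.mp hb'.2
        exact ⟨(a, b), Finset.mem_filter.mpr ⟨Finset.mem_product.mpr ⟨hb'.1, hb2.1⟩, hb2.2⟩, rfl⟩
    rw [h1]
    have h2 : n * (n - L1 G (range n)) = ∑ x ∈ range n, (n - L1 G (range n)) := by
      rw [Finset.sum_const, Finset.card_range, smul_eq_mul]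
    rw [h2]
    refine Finset.sum_le_sum ?_
    intro x hx
    have h3 : ((range n).filter (fun y => G.Reachable x y)).card +
        ((range n).filter (fun y => ¬ G.Reachable x y)).card = n := by
      have := Finset.card_filter_add_card_filter_not (s := range n) (fun y => G.Reachable x y)
      rwa [Finset.card_range] at this
    have h4 : ((range n).filter (fun y => G.Reachable x y)).card ≤ L1 G (range n) := by
      unfold L1
      exact Finset.le_sup (f := Finset.card) (Finset.mem_image_of_mem (compOf G (range n)) hx)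
    omega
  have hup : ∑ G ∈ GG P n m, (T G).card ≤ ∑ G ∈ GG P n (m + 1), (BB2 G (range n)).card := by
    rw [← Finset.card_sigma, ← Finset.card_sigma]
    refine Finset.card_le_card_of_injOn
      (fun q : (_ : SimpleGraph ℕ) × (ℕ × ℕ) => ⟨q.1 ⊔ SimpleGraph.edge q.2.1 q.2.2, q.2⟩) ?_ ?_
    · rintro ⟨G, x, y⟩ hq
      obtain ⟨hG, hp⟩ := Finset.mem_sigma.mp (Finset.mem_coe.mp hq)
      simp only at hG hp
      have hp' := Finset.mem_filter.mp hp
      have hpp := Finset.mem_product.mp hp'.1
      simp only at hpp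
      have hnr : ¬ G.Reachable x y := hp'.2
      have hne : x ≠ y := by rintro rfl; exact hnr (SimpleGraph.Reachable.refl _)
      have hna : ¬ G.Adj x y := fun h => hnr h.reachable
      have hGG := Finset.mem_filter.mp hG
      refine Finset.mem_coe.mpr (Finset.mem_sigma.mpr ⟨?_, ?_⟩)
      · exact mem_GG_sup hG hpp.1 hpp.2 hne hna
          (hP.join G x y (finite_edgeSet hGG.1) hGG.2.1 hnr)
      · refine mem_BB2.mpr ⟨hpp, (adj_sup hne x y).mpr (Or.inr rfl), ?_⟩
        change ¬ ((G ⊔ SimpleGraph.edge x y).deleteEdges {s(x, y)}).Reachable x y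
        rw [delete_sup hne hna]
        exact hnr
    · rintro ⟨G, x, y⟩ hq ⟨G', x', y'⟩ hq' heq
      have hq1 := (Finset.mem_sigma.mp (Finset.mem_coe.mp hq)).2
      have hq2 := (Finset.mem_sigma.mp (Finset.mem_coe.mp hq')).2
      have hp1 := (Finset.mem_filter.mp hq1).2
      have hp2 := (Finset.mem_filter.mp hq2).2
      simp only at hp1 hp2
      simp only [Sigma.mk.injEq, heq_eq_eq, Prod.mk.injEq] at heq
      obtain ⟨h1, rfl, rfl⟩ := heq
      have hne : x ≠ y := by rintro rfl; exact hp1 (SimpleGraph.Reachable.refl _)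
      have e1 := delete_sup hne (fun h : G.Adj x y => hp1 h.reachable)
      have e2 := delete_sup hne (fun h : G'.Adj x y => hp2 h.reachable)
      rw [h1, e2] at e1
      rw [e1]
  have hup2 : ∑ G ∈ GG P n (m + 1), (BB2 G (range n)).card ≤ (GG P n (m + 1)).card * (2 * n) := by
    rw [← smul_eq_mul, ← Finset.sum_const]
    refine Finset.sum_le_sum ?_
    intro G _
    have := card_BB2 G (range n)
    rwa [Finset.card_range] at this
  have hfin : n * ∑ G ∈ GG P n m, (n - L1 G (range n)) ≤ n * (2 * (GG P n (m + 1)).card) := by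
    calc n * ∑ G ∈ GG P n m, (n - L1 G (range n))
        = ∑ G ∈ GG P n m, n * (n - L1 G (range n)) := Finset.mul_sum _ _ _
      _ ≤ ∑ G ∈ GG P n m, (T G).card := Finset.sum_le_sum (fun G _ => hlow G)
      _ ≤ (GG P n (m + 1)).card * (2 * n) := hup.trans hup2
      _ = n * (2 * (GG P n (m + 1)).card) := by ring
  exact Nat.le_of_mul_le_mul_left hfin hn

end GiantSurf57
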