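import Pool.Agent.GiantSurf57.StmtsTop

open scoped Classical
open Finset

namespace GiantSurf57
namespace PkgG3

theorem finite_inside (G : SimpleGraph ℕ) (A : Finset ℕ) :
    {e ∈ G.edgeSet | ∀ x ∈ e, x ∈ A}.Finite := by
  refine (Finset.finite_toSet A.sym2).subset ?_
  intro e he
  simp only [Finset.mem_coe, Finset.mem_sym2_iff]
  exact he.2

theorem finite_edgeSet {G : SimpleGraph ℕ} {S : Finset ℕ} (h : G ∈ graphsOn S) :
    G.edgeSet.Finite := by
  refine (Finset.finite_toSet S.sym2).subset ?_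
  intro e he
  induction e with
  | _ a b =>
    have hab : G.Adj a b := he
    have hs := mem_graphsOn.mp h
    have h1 : a ∈ G.support := ⟨b, hab⟩
    have h2 : b ∈ G.support := ⟨a, hab.symm⟩
    have h1' := hs h1
    have h2' := hs h2
    simp only [Finset.mem_coe] at h1' h2'
    simp [h1', h2']

theorem pairs_le (G : SimpleGraph ℕ) (A : Finset ℕ) :
    ((A ×ˢ A).filter (fun p => G.Adj p.1 p.2)).card ≤ 2 * neIn G A := by
  set F := (A ×ˢ A).filter (fun p => G.Adj p.1 p.2) with hF
  have h1 : F.card ≤ 2 * (F.image (fun p : ℕ × ℕ => s(p.1, p.2))).card := by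
    refine Finset.card_le_mul_card_image F 2 ?_
    intro e _
    induction e with
    | _ a b =>
      have : (F.filter (fun p : ℕ × ℕ => s(p.1, p.2) = s(a, b))) ⊆ {(a, b), (b, a)} := by
        intro p hp
        simp only [Finset.mem_filter, Sym2.eq_iff] at hp
        rcases hp.2 with h | h
        · simp only [Finset.mem_insert, Finset.mem_singleton]
          left; exact Prod.ext h.1 h.2
        · simp only [Finset.mem_insert, Finset.mem_singleton]
          right; exact Prod.ext h.1 h.2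
      exact (Finset.card_le_card this).trans (Finset.card_le_two)
  have h2 : (F.image (fun p : ℕ × ℕ => s(p.1, p.2))).card ≤ neIn G A := by
    unfold neIn
    rw [← Set.ncard_coe_finset]
    refine Set.ncard_le_ncard ?_ (finite_inside G A)
    intro e he
    simp only [Finset.coe_image, Set.mem_image, Finset.mem_coe] at he
    obtain ⟨p, hp, rfl⟩ := he
    simp only [hF, Finset.mem_filter, Finset.mem_product] at hp
    refine ⟨hp.2, ?_⟩
    intro x hx
    rw [Sym2.mem_iff] at hx
    rcases hx with rfl | rfl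
    · exact hp.1.1
    · exact hp.1.2
  omega

theorem comps_disj (G : SimpleGraph ℕ) (S : Finset ℕ) :
    Set.PairwiseDisjoint (↑(comps G S)) (fun A : Finset ℕ => A) := by
  intro A hA B hB hAB
  simp only [comps, Finset.coe_image, Set.mem_image, Finset.mem_coe] at hA hB
  obtain ⟨a, _, rfl⟩ := hA
  obtain ⟨b, _, rfl⟩ := hB
  refine Finset.disjoint_left.mpr ?_
  intro z hz hz'
  apply hAB
  simp only [compOf, Finset.mem_filter] at hz hz'
  ext w
  simp only [compOf, Finset.mem_filter]
  constructor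
  · rintro ⟨h1, h2⟩
    exact ⟨h1, hz'.2.trans (hz.2.symm.trans h2)⟩
  · rintro ⟨h1, h2⟩
    exact ⟨h1, hz.2.trans (hz'.2.symm.trans h2)⟩

theorem sum_comps (G : SimpleGraph ℕ) (S : Finset ℕ) : ∑ A ∈ comps G S, A.card ≤ S.card := by
  rw [← Finset.card_biUnion (comps_disj G S)]
  refine Finset.card_le_card ?_
  intro z hz
  simp only [Finset.mem_biUnion, comps, Finset.mem_image] at hz
  obtain ⟨A, ⟨a, _, rfl⟩, hz⟩ := hz
  exact (Finset.mem_filter.mp hz).1

theorem card_comps (G : SimpleGraph ℕ) (S : Finset ℕ) : (comps G S).card ≤ S.card :=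
  Finset.card_image_le

/-- Ordered adjacent pairs in components with few edges. -/
noncomputable def DD (G : SimpleGraph ℕ) (S : Finset ℕ) : Finset (ℕ × ℕ) :=
  ((comps G S).filter (fun A => neIn G A ≤ A.card + 1)).biUnion
    (fun A => (A ×ˢ A).filter (fun p => G.Adj p.1 p.2))

theorem mem_DD (G : SimpleGraph ℕ) (S A : Finset ℕ) (p : ℕ × ℕ) (hA : A ∈ comps G S)
    (h : neIn G A ≤ A.card + 1) (h1 : p.1 ∈ A) (h2 : p.2 ∈ A) (h3 : G.Adj p.1 p.2) :
    p ∈ DD G S := by
  unfold DD
  rw [Finset.mem_biUnion]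
  refine ⟨A, Finset.mem_filter.mpr ⟨hA, h⟩, ?_⟩
  rw [Finset.mem_filter]
  exact ⟨Finset.mem_product.mpr ⟨h1, h2⟩, h3⟩

theorem card_DD (G : SimpleGraph ℕ) (S : Finset ℕ) : (DD G S).card ≤ 4 * S.card := by
  unfold DD
  calc _ ≤ ∑ A ∈ (comps G S).filter (fun A => neIn G A ≤ A.card + 1),
        ((A ×ˢ A).filter (fun p => G.Adj p.1 p.2)).card := Finset.card_biUnion_le
    _ ≤ ∑ A ∈ (comps G S).filter (fun A => neIn G A ≤ A.card + 1), (2 * A.card + 2) := by
        refine Finset.sum_le_sum ?_
        intro A hA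
        have h1 := pairs_le G A
        have h2 := (Finset.mem_filter.mp hA).2
        omega
    _ ≤ ∑ A ∈ comps G S, (2 * A.card + 2) :=
        Finset.sum_le_sum_of_subset (Finset.filter_subset _ _)
    _ = 2 * ∑ A ∈ comps G S, A.card + 2 * (comps G S).card := by
        rw [Finset.sum_add_distrib, ← Finset.mul_sum, Finset.sum_const, smul_eq_mul, mul_comm 2 (comps G S).card]
    _ ≤ 4 * S.card := by
        have h1 := sum_comps G S
        have h2 := card_comps G S
        omega

theorem adj_sup {G : SimpleGraph ℕ} {x y : ℕ} (hxy : x ≠ y) (u v : ℕ) :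
    (G ⊔ SimpleGraph.edge x y).Adj u v ↔ G.Adj u v ∨ s(u, v) = s(x, y) := by
  rw [SimpleGraph.sup_adj, SimpleGraph.edge_adj, Sym2.eq_iff]
  constructor
  · rintro (h | h)
    · exact Or.inl h
    · exact Or.inr h.1
  · rintro (h | h)
    · exact Or.inl h
    · refine Or.inr ⟨h, ?_⟩
      rcases h with ⟨rfl, rfl⟩ | ⟨rfl, rfl⟩
      · exact hxy
      · exact hxy.symm

theorem reach_sup {G : SimpleGraph ℕ} {x y : ℕ} (hxy : x ≠ y) (h : G.Reachable x y) (u v : ℕ) :
    (G ⊔ SimpleGraph.edge x y).Reachable u v ↔ G.Reachable u v := by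
  constructor
  · rintro ⟨w⟩
    induction w with
    | nil => exact SimpleGraph.Reachable.refl _
    | cons hadj _ ih =>
      refine SimpleGraph.Reachable.trans ?_ ih
      rcases (adj_sup hxy _ _).mp hadj with h1 | h1
      · exact h1.reachable
      · rw [Sym2.eq_iff] at h1
        rcases h1 with ⟨rfl, rfl⟩ | ⟨rfl, rfl⟩
        · exact h
        · exact h.symm
  · intro h1
    exact h1.mono le_sup_left

theorem edgeSet_sup {G : SimpleGraph ℕ} {x y : ℕ} (hxy : x ≠ y) :
    (G ⊔ SimpleGraph.edge x y).edgeSet = insert s(x, y) G.edgeSet := by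
  ext e
  induction e with
  | _ a b =>
    rw [SimpleGraph.mem_edgeSet, adj_sup hxy, Set.mem_insert_iff, SimpleGraph.mem_edgeSet]
    tauto

theorem neIn_sup {G : SimpleGraph ℕ} {x y : ℕ} (hxy : x ≠ y) (A : Finset ℕ) :
    neIn (G ⊔ SimpleGraph.edge x y) A ≤ neIn G A + 1 := by
  unfold neIn
  have : {e ∈ (G ⊔ SimpleGraph.edge x y).edgeSet | ∀ z ∈ e, z ∈ A} ⊆
      insert s(x, y) {e ∈ G.edgeSet | ∀ z ∈ e, z ∈ A} := by
    rintro e ⟨he, h⟩
    rw [edgeSet_sup hxy, Set.mem_insert_iff] at he
    rcases he with he | he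
    · exact Or.inl he
    · exact Or.inr ⟨he, h⟩
  exact (Set.ncard_le_ncard this ((finite_inside G A).insert _)).trans (Set.ncard_insert_le _ _)

theorem mem_GG_sup {P : SimpleGraph ℕ → Prop} {n m : ℕ} {G : SimpleGraph ℕ} {x y : ℕ}
    (hG : G ∈ GG P n m) (hx : x ∈ range n) (hy : y ∈ range n) (hxy : x ≠ y) (hna : ¬ G.Adj x y)
    (hP : P (G ⊔ SimpleGraph.edge x y)) : G ⊔ SimpleGraph.edge x y ∈ GG P n (m + 1) := by
  have hG' := Finset.mem_filter.mp hG
  refine Finset.mem_filter.mpr ⟨?_, hP, ?_⟩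
  · rw [mem_graphsOn]
    rintro u ⟨v, huv⟩
    rcases (adj_sup hxy u v).mp huv with h | h
    · exact (mem_graphsOn.mp hG'.1) ⟨v, h⟩
    · rw [Sym2.eq_iff] at h
      rcases h with ⟨rfl, rfl⟩ | ⟨rfl, rfl⟩
      · exact_mod_cast hx
      · exact_mod_cast hy
  · unfold ne
    have hns : s(x, y) ∉ G.edgeSet := hna
    rw [edgeSet_sup hxy, Set.ncard_insert_of_notMem hns (finite_edgeSet hG'.1)]
    have : ne G = m := hG'.2.2
    unfold ne at this
    rw [this]

end PkgG3

open PkgG3 in
theorem pkgG3 : S_G3 := by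
  intro P hP hAP
  refine ⟨256, 34, ?_⟩
  intro n m hn
  set bad := (GG P n m).filter (fun G => ∃ A ∈ comps G (range n), n ≤ 2 * A.card ∧
      neIn G A ≤ A.card) with hbad
  have key : ∀ G : SimpleGraph ℕ, ∃ AX : Finset ℕ × Finset ℕ, G ∈ bad →
      AX.1 ∈ comps G (range n) ∧ n ≤ 2 * AX.1.card ∧ neIn G AX.1 ≤ AX.1.card ∧
      AX.2 ⊆ AX.1 ∧ AX.1.card ≤ 2 * AX.2.card + 1 ∧
      ∀ x ∈ AX.2, ∀ y ∈ AX.2, x ≠ y → ¬ G.Adj x y → P (G ⊔ SimpleGraph.edge x y) := by
    intro G
    by_cases hG : G ∈ bad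
    · have h1 := Finset.mem_filter.mp hG
      obtain ⟨A, hA, h2, h3⟩ := h1.2
      have h4 := Finset.mem_filter.mp h1.1
      obtain ⟨X, hX, h5, h6⟩ := hAP (range n) G h4.1 h4.2.1 A hA h3
      exact ⟨(A, X), fun _ => ⟨hA, h2, h3, hX, h5, h6⟩⟩
    · exact ⟨(∅, ∅), fun h => absurd h hG⟩
  choose AX hAX using key
  set T : SimpleGraph ℕ → Finset (ℕ × ℕ) := fun G =>
    ((AX G).2 ×ˢ (AX G).2).filter (fun p => p.1 ≠ p.2 ∧ ¬ G.Adj p.1 p.2) with hT
  -- lower bound for `T`
  have hlow : ∀ G ∈ bad, n * n ≤ 64 * (T G).card := by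
    intro G hG
    obtain ⟨hA, h2, h3, hX, h5, _⟩ := hAX G hG
    set A := (AX G).1
    set X := (AX G).2 with hXdef
    have hcard : X.card * X.card ≤ (T G).card + X.card + 2 * neIn G A := by
      have hsub : X ×ˢ X ⊆ T G ∪ (X.image (fun x => (x, x)) ∪
          (A ×ˢ A).filter (fun p => G.Adj p.1 p.2)) := by
        intro p hp
        have hp' := Finset.mem_product.mp hp
        simp only [Finset.mem_union, hT, Finset.mem_filter, Finset.mem_image, Finset.mem_product]
        by_cases hpe : p.1 = p.2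
        · right; left
          exact ⟨p.1, hp'.1, Prod.ext rfl hpe⟩
        · by_cases hadj : G.Adj p.1 p.2
          · right; right
            exact ⟨⟨hX hp'.1, hX hp'.2⟩, hadj⟩
          · left
            exact ⟨hp', hpe, hadj⟩
      have h1 := Finset.card_le_card hsub
      rw [Finset.card_product] at h1
      have h2' := Finset.card_union_le (T G) (X.image (fun x => (x, x)) ∪
          (A ×ˢ A).filter (fun p => G.Adj p.1 p.2))
      have h3' := Finset.card_union_le (X.image (fun x => (x, x)))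
          ((A ×ˢ A).filter (fun p => G.Adj p.1 p.2))
      have h4' : (X.image (fun x => (x, x))).card ≤ X.card := Finset.card_image_le
      have h5' := pairs_le G A
      omega
    have hx8 : 8 ≤ X.card := by omega
    have hnx : n ≤ 4 * X.card + 2 := by omega
    have h6 : X.card * X.card ≤ (T G).card + 5 * X.card + 2 := by omega
    nlinarith
  -- upper bound
  have hup : ∑ G ∈ bad, (T G).card ≤ ∑ G ∈ GG P n (m + 1), (DD G (range n)).card := by
    rw [← Finset.card_sigma, ← Finset.card_sigma]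
    refine Finset.card_le_card_of_injOn
      (fun q : (_ : SimpleGraph ℕ) × (ℕ × ℕ) => ⟨q.1 ⊔ SimpleGraph.edge q.2.1 q.2.2, q.2⟩) ?_ ?_
    · rintro ⟨G, x, y⟩ hq
      have hq' := Finset.mem_sigma.mp (Finset.mem_coe.mp hq)
      obtain ⟨hG, hp⟩ := hq'
      simp only at hG hp
      have hp' := Finset.mem_filter.mp hp
      have hpp := Finset.mem_product.mp hp'.1
      simp only at hpp
      obtain ⟨hx, hy⟩ := hpp
      obtain ⟨hne, hna⟩ := hp'.2
      simp only at hne hna
      obtain ⟨hA, h2, h3, hX, h5, h6⟩ := hAX G hG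
      obtain ⟨a, ha, haA⟩ := Finset.mem_image.mp hA
      have hxA := hX hx
      have hyA := hX hy
      have hxA' := hxA
      have hyA' := hyA
      rw [← haA] at hxA' hyA'
      have hx1 := Finset.mem_filter.mp hxA'
      have hy1 := Finset.mem_filter.mp hyA'
      have hr : G.Reachable x y := hx1.2.symm.trans hy1.2
      refine Finset.mem_coe.mpr (Finset.mem_sigma.mpr ⟨?_, ?_⟩)
      · exact mem_GG_sup (Finset.mem_filter.mp hG).1 hx1.1 hy1.1 hne hna (h6 x hx y hy hne hna)
      · refine mem_DD _ _ (AX G).1 _ ?_ ?_ hxA hyA ((adj_sup hne x y).mpr (Or.inr rfl))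
        · refine Finset.mem_image.mpr ⟨a, ha, ?_⟩
          rw [← haA]
          ext z
          simp only [compOf, Finset.mem_filter]
          rw [reach_sup hne hr]
        · exact (neIn_sup hne _).trans (Nat.add_le_add_right h3 1)
    · rintro ⟨G, x, y⟩ hq ⟨G', x', y'⟩ hq' heq
      have hq1 := (Finset.mem_sigma.mp (Finset.mem_coe.mp hq)).2
      have hq2 := (Finset.mem_sigma.mp (Finset.mem_coe.mp hq')).2
      have hp1 := (Finset.mem_filter.mp hq1).2
      have hp2 := (Finset.mem_filter.mp hq2).2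
      simp only at hp1 hp2
      simp only [Sigma.mk.injEq, heq_eq_eq, Prod.mk.injEq] at heq
      obtain ⟨h1, rfl, rfl⟩ := heq
      have : G = G' := by
        ext u v
        have e1 := adj_sup (G := G) hp1.1 u v
        have e2 := adj_sup (G := G') hp1.1 u v
        rw [h1] at e1
        have e3 := e1.symm.trans e2
        by_cases hs : s(u, v) = s(x, y)
        · constructor
          · intro h
            exfalso
            rw [Sym2.eq_iff] at hs
            rcases hs with ⟨rfl, rfl⟩ | ⟨rfl, rfl⟩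
            · exact hp1.2 h
            · exact hp1.2 h.symm
          · intro h
            exfalso
            rw [Sym2.eq_iff] at hs
            rcases hs with ⟨rfl, rfl⟩ | ⟨rfl, rfl⟩
            · exact hp2.2 h
            · exact hp2.2 h.symm
        · simp only [hs, or_false] at e3
          exact e3
      subst this
      rfl
  have hup2 : ∑ G ∈ GG P n (m + 1), (DD G (range n)).card ≤ (GG P n (m + 1)).card * (4 * n) := by
    rw [← smul_eq_mul, ← Finset.sum_const]
    refine Finset.sum_le_sum ?_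
    intro G _
    have := card_DD G (range n)
    rwa [Finset.card_range] at this
  have hlow2 : bad.card * (n * n) ≤ 64 * ∑ G ∈ bad, (T G).card := by
    rw [Finset.mul_sum, ← smul_eq_mul, ← Finset.sum_const]
    exact Finset.sum_le_sum hlow
  have hfin : n * (n * bad.card) ≤ n * (256 * (GG P n (m + 1)).card) := by
    calc n * (n * bad.card) = bad.card * (n * n) := by ring
      _ ≤ 64 * ∑ G ∈ bad, (T G).card := hlow2
      _ ≤ 64 * ((GG P n (m + 1)).card * (4 * n)) := Nat.mul_le_mul_left _ (hup.trans hup2)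
      _ = n * (256 * (GG P n (m + 1)).card) := by ring
  exact Nat.le_of_mul_le_mul_left hfin (by omega)

end GiantSurf57
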