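import Pool.Agent.GiantSurf57.StmtsTop
import Pool.Agent.GiantSurf57.Basic

open scoped Classical
open Finset

namespace GiantSurf57

namespace PkgH1

variable {n : ℕ}

/-- the transport map -/
noncomputable def ph (G : SimpleGraph (Fin n)) : SimpleGraph ℕ := G.map Fin.valEmbedding

theorem ph_adj {G : SimpleGraph (Fin n)} {a b : ℕ} :
    (ph G).Adj a b ↔ ∃ x y : Fin n, G.Adj x y ∧ x.val = a ∧ y.val = b := by
  unfold ph
  rw [SimpleGraph.map_adj]
  rfl

theorem ph_mem (G : SimpleGraph (Fin n)) : ph G ∈ graphsOn (range n) := by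
  rw [mem_graphsOn_iff]
  intro a b h
  obtain ⟨x, y, -, rfl, rfl⟩ := ph_adj.mp h
  exact ⟨by simp, by simp⟩

theorem ph_inj : Function.Injective (ph (n := n)) := SimpleGraph.map_injective Fin.valEmbedding

theorem ph_surj {H : SimpleGraph ℕ} (hH : H ∈ graphsOn (range n)) :
    ∃ G : SimpleGraph (Fin n), ph G = H := by
  refine ⟨H.comap Fin.valEmbedding, ?_⟩
  ext a b
  rw [ph_adj]
  constructor
  · rintro ⟨x, y, h, rfl, rfl⟩
    exact h
  · intro h
    have h2 := (mem_graphsOn_iff.mp hH) a b h
    rw [mem_range, mem_range] at h2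
    exact ⟨⟨a, h2.1⟩, ⟨b, h2.2⟩, h, rfl, rfl⟩

theorem ph_ne (G : SimpleGraph (Fin n)) : ne (ph G) = G.edgeSet.ncard := by
  unfold ne ph
  rw [SimpleGraph.edgeSet_map]
  exact Set.ncard_image_of_injective _ (Function.Embedding.injective _)

theorem reach_aux {G : SimpleGraph (Fin n)} {a b : ℕ} (w : (ph G).Walk a b) :
    ∀ x : Fin n, x.val = a → ∃ y : Fin n, y.val = b ∧ G.Reachable x y := by
  induction w with
  | nil => intro x hx; exact ⟨x, hx, SimpleGraph.Reachable.refl x⟩
  | cons h p ih =>
    intro x hx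
    obtain ⟨x', y', h1, h2, h3⟩ := ph_adj.mp h
    have hxx : x = x' := Fin.ext (by rw [hx, h2])
    obtain ⟨z, hz, hr⟩ := ih y' h3
    refine ⟨z, hz, ?_⟩
    rw [hxx]
    exact h1.reachable.trans hr

theorem reach_iff {G : SimpleGraph (Fin n)} {x y : Fin n} :
    (ph G).Reachable x.val y.val ↔ G.Reachable x y := by
  constructor
  · rintro ⟨w⟩
    obtain ⟨z, hz, hr⟩ := reach_aux w x rfl
    have : z = y := Fin.ext hz
    rwa [this] at hr
  · intro h
    exact h.map (SimpleGraph.Embedding.map Fin.valEmbedding G).toHom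

/-- the component of `x`, transported -/
theorem compOf_eq {G : SimpleGraph (Fin n)} (x : Fin n) :
    compOf (ph G) (range n) x.val
      = (G.connectedComponentMk x).supp.toFinite.toFinset.map Fin.valEmbedding := by
  ext b
  unfold compOf
  rw [mem_filter, mem_map]
  constructor
  · rintro ⟨hb, hr⟩
    rw [mem_range] at hb
    refine ⟨⟨b, hb⟩, ?_, rfl⟩
    rw [Set.Finite.mem_toFinset, SimpleGraph.ConnectedComponent.mem_supp_iff,
      SimpleGraph.ConnectedComponent.eq]
    exact (reach_iff (x := x) (y := ⟨b, hb⟩)).mp hr |>.symm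
  · rintro ⟨y, hy, rfl⟩
    rw [Set.Finite.mem_toFinset, SimpleGraph.ConnectedComponent.mem_supp_iff,
      SimpleGraph.ConnectedComponent.eq] at hy
    exact ⟨by simp, reach_iff.mpr hy.symm⟩

theorem compOf_card {G : SimpleGraph (Fin n)} (x : Fin n) :
    (compOf (ph G) (range n) x.val).card = (G.connectedComponentMk x).supp.ncard := by
  rw [compOf_eq, card_map, Set.ncard_eq_toFinset_card _ (Set.toFinite _)]

theorem neIn_eq {G : SimpleGraph (Fin n)} (x : Fin n) :
    neIn (ph G) (compOf (ph G) (range n) x.val)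
      = {e ∈ G.edgeSet | ∀ y ∈ e, y ∈ (G.connectedComponentMk x).supp}.ncard := by
  unfold neIn
  rw [← Set.ncard_image_of_injective _ (Function.Embedding.injective
    (Fin.valEmbedding (n := n)).sym2Map)]
  congr 1
  ext e
  induction e with
  | h a b =>
    constructor
    · rintro ⟨he, hin⟩
      have he' : (ph G).Adj a b := he
      obtain ⟨y, z, hyz, rfl, rfl⟩ := ph_adj.mp he'
      refine ⟨s(y, z), ⟨hyz, ?_⟩, rfl⟩
      intro u hu
      have h1 : (u : ℕ) ∈ s((y : ℕ), (z : ℕ)) := by
        rcases Sym2.mem_iff.mp hu with rfl | rfl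
        · exact Sym2.mem_mk_left _ _
        · exact Sym2.mem_mk_right _ _
      have h2 := hin _ h1
      rw [compOf_eq, mem_map] at h2
      obtain ⟨v, hv, hvu⟩ := h2
      have : v = u := Fin.ext hvu
      rw [this, Set.Finite.mem_toFinset] at hv
      exact hv
    · rintro ⟨e', ⟨he', hin⟩, heq⟩
      induction e' with
      | h y z =>
        have hyz : G.Adj y z := he'
        have heq' : s((y : ℕ), (z : ℕ)) = s(a, b) := heq
        rw [← heq']
        refine ⟨ph_adj.mpr ⟨y, z, hyz, rfl, rfl⟩, ?_⟩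
        intro u hu
        rw [compOf_eq, mem_map]
        rcases Sym2.mem_iff.mp hu with rfl | rfl
        · exact ⟨y, (Set.Finite.mem_toFinset _).mpr (hin y (Sym2.mem_mk_left _ _)), rfl⟩
        · exact ⟨z, (Set.Finite.mem_toFinset _).mpr (hin z (Sym2.mem_mk_right _ _)), rfl⟩

theorem L1_eq (G : SimpleGraph (Fin n)) : L1 (ph G) (range n) = maxC G := by
  unfold L1 maxC
  apply le_antisymm
  · apply Finset.sup_le
    intro A hA
    unfold comps at hA
    rw [mem_image] at hA
    obtain ⟨a, ha, rfl⟩ := hA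
    rw [mem_range] at ha
    have h := compOf_card (G := G) ⟨a, ha⟩
    have h' : (compOf (ph G) (range n) a).card
        = (G.connectedComponentMk (⟨a, ha⟩ : Fin n)).supp.ncard := h
    rw [h']
    exact le_csSup (Set.finite_range _).bddAbove ⟨_, rfl⟩
  · apply csSup_le'
    rintro _ ⟨c, rfl⟩
    induction c using SimpleGraph.ConnectedComponent.ind with
    | h x =>
      show (G.connectedComponentMk x).supp.ncard ≤ _
      rw [← compOf_card (G := G) x]
      apply Finset.le_sup (f := Finset.card)
      unfold comps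
      exact mem_image_of_mem _ (by simp)

theorem transfer_le (p : SimpleGraph (Fin n) → Prop) (q : SimpleGraph ℕ → Prop)
    (h : ∀ G, p G → q (ph G)) : {G | p G}.ncard ≤ ((graphsOn (range n)).filter q).card := by
  rw [← Set.ncard_coe_finset]
  apply Set.ncard_le_ncard_of_injOn ph
  · intro G hG
    rw [Finset.mem_coe, mem_filter]
    exact ⟨ph_mem G, h G hG⟩
  · exact ph_inj.injOn

theorem transfer_eq (p : SimpleGraph (Fin n) → Prop) (q : SimpleGraph ℕ → Prop)
    (h : ∀ G, p G ↔ q (ph G)) : {G | p G}.ncard = ((graphsOn (range n)).filter q).card := by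
  apply le_antisymm (transfer_le p q (fun G => (h G).mp))
  rw [← Set.ncard_coe_finset]
  have himg : (((graphsOn (range n)).filter q : Finset (SimpleGraph ℕ)) : Set (SimpleGraph ℕ))
      ⊆ ph '' {G | p G} := by
    intro H hH
    rw [Finset.mem_coe, mem_filter] at hH
    obtain ⟨G, rfl⟩ := ph_surj hH.1
    exact ⟨G, (h G).mpr hH.2, rfl⟩
  calc _ ≤ (ph '' {G : SimpleGraph (Fin n) | p G}).ncard :=
        Set.ncard_le_ncard himg (Set.toFinite _)
    _ = _ := Set.ncard_image_of_injective _ ph_inj

end PkgH1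

open PkgH1 in
theorem pkgH1 (h1 : S_map) : S_H1 := by
  intro g n m
  have hSG : ∀ G : SimpleGraph (Fin n), G ∈ SG g n m ↔ Emb g (ph G) ∧ ne (ph G) = m := by
    intro G
    unfold SG
    rw [Set.mem_ofPred_eq, h1.2 g n G, ph_ne]
    rfl
  refine ⟨?_, ?_, ?_⟩
  · have h := transfer_eq (n := n) (fun G => G ∈ SG g n m) (fun G => Emb g G ∧ ne G = m) hSG
    unfold GG
    have e1 : SG g n m = {G | G ∈ SG g n m} := by ext G; simp
    rw [e1, h]
    congr 1
    ext G
    simp only [mem_filter]
  · intro F
    have h := transfer_eq (n := n) (fun G => G ∈ SG g n m ∧ F (maxC G))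
      (fun G => (Emb g G ∧ ne G = m) ∧ F (L1 G (range n))) (fun G => by rw [hSG, L1_eq])
    unfold GG
    rw [Finset.filter_filter, h]
    congr 1
    ext G
    simp only [mem_filter]
  · have h := transfer_le (n := n) (fun G => G ∈ SG g n m ∧ ¬ H1Complex G ∧ n ≤ 2 * maxC G)
      (fun G => (Emb g G ∧ ne G = m) ∧ ∃ A ∈ comps G (range n), n ≤ 2 * A.card ∧
        neIn G A ≤ A.card) ?_
    · unfold GG
      rw [Finset.filter_filter]
      refine h.trans (le_of_eq ?_)
      congr 1
      ext G
      simp only [mem_filter]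
    · rintro G ⟨hG, hnc, hn⟩
      refine ⟨(hSG G).mp hG, ?_⟩
      unfold H1Complex at hnc
      push Not at hnc
      obtain ⟨c, hc, hle⟩ := hnc
      induction c using SimpleGraph.ConnectedComponent.ind with
      | h x =>
        refine ⟨compOf (ph G) (range n) x.val, ?_, ?_, ?_⟩
        · unfold comps
          exact mem_image_of_mem _ (by simp)
        · rw [compOf_card]
          have hc' : (G.connectedComponentMk x).supp.ncard = maxC G := hc
          rw [hc']
          exact hn
        · rw [neIn_eq, compOf_card]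
          exact hle

end GiantSurf57
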