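import Pool.Agent.GiantSurf57.StmtsTop

open scoped Classical
open Finset

namespace GiantSurf57
namespace PkgM2

theorem closed_cyc {α : Type*} (φ : Equiv.Perm α) (X : Set α) (h1 : ∀ a ∈ X, φ a ∈ X)
    (h2 : ∀ a ∈ X, φ⁻¹ a ∈ X) {a b : α} (ha : a ∈ X) (h : φ.SameCycle a b) : b ∈ X := by
  obtain ⟨i, rfl⟩ := h
  induction i using Int.induction_on with
  | zero => simpa using ha
  | succ k ih =>
    rw [add_comm, zpow_one_add, Equiv.Perm.mul_apply]
    exact h1 _ ih
  | pred k ih =>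
    rw [sub_eq_add_neg, add_comm, zpow_add, zpow_neg_one, Equiv.Perm.mul_apply]
    exact h2 _ ih

theorem ais {α : Type*} (σ : Equiv.Perm α) (d : α) : σ (σ⁻¹ d) = d := σ.apply_symm_apply d

theorem face_apply (σ : Equiv.Perm (ℕ × ℕ)) (d : ℕ × ℕ) : faceP σ d = σ d.swap := rfl

theorem face_inv (σ : Equiv.Perm (ℕ × ℕ)) (d : ℕ × ℕ) : (faceP σ)⁻¹ d = (σ⁻¹ d).swap := by
  rw [Equiv.Perm.inv_eq_iff_eq, face_apply, Prod.swap_swap, ais]

variable {G : SimpleGraph ℕ} {σ : Equiv.Perm (ℕ × ℕ)}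

def Drt (G : SimpleGraph ℕ) : Set (ℕ × ℕ) := {d | G.Adj d.1 d.2}

theorem rot_dart (hσ : IsRot G σ) {d : ℕ × ℕ} (hd : d ∈ Drt G) : σ d ∈ Drt G := by
  by_contra h
  have h1 : σ ((σ d).1, (σ d).2) = ((σ d).1, (σ d).2) := hσ.fix _ _ h
  have h2 : σ d = d := σ.injective h1
  rw [h2] at h
  exact h hd

theorem rot_inv_dart (hσ : IsRot G σ) {d : ℕ × ℕ} (hd : d ∈ Drt G) : σ⁻¹ d ∈ Drt G := by
  by_contra h
  have h1 : σ ((σ⁻¹ d).1, (σ⁻¹ d).2) = ((σ⁻¹ d).1, (σ⁻¹ d).2) := hσ.fix _ _ h
  have h2 : σ (σ⁻¹ d) = σ⁻¹ d := h1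
  rw [ais] at h2
  rw [← h2] at h
  exact h hd

theorem rot_inv_fst (hσ : IsRot G σ) (d : ℕ × ℕ) : (σ⁻¹ d).1 = d.1 := by
  have := hσ.fst (σ⁻¹ d)
  rw [ais] at this
  exact this.symm

theorem swap_dart {d : ℕ × ℕ} (hd : d ∈ Drt G) : d.swap ∈ Drt G :=
  SimpleGraph.Adj.symm (G := G) hd

theorem face_dart (hσ : IsRot G σ) {d : ℕ × ℕ} (hd : d ∈ Drt G) : faceP σ d ∈ Drt G := by
  rw [face_apply]; exact rot_dart hσ (swap_dart hd)

theorem face_inv_dart (hσ : IsRot G σ) {d : ℕ × ℕ} (hd : d ∈ Drt G) : (faceP σ)⁻¹ d ∈ Drt G := by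
  rw [face_inv]; exact swap_dart (rot_inv_dart hσ hd)

theorem orb_dart (hσ : IsRot G σ) {d e : ℕ × ℕ} (hd : d ∈ Drt G) (he : e ∈ orb (faceP σ) d) :
    e ∈ Drt G :=
  closed_cyc (faceP σ) (Drt G) (fun _ h => face_dart hσ h) (fun _ h => face_inv_dart hσ h) hd he

/-- At a vertex of degree two the rotation is an involution. -/
theorem invol (hσ : IsRot G σ) {d : ℕ × ℕ} (hd : d ∈ Drt G) (h2 : deg G d.1 = 2) :
    σ (σ d) = d := by
  obtain ⟨y, z, hyz, hN⟩ := Set.ncard_eq_two.mp h2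
  have hnb : ∀ w, G.Adj d.1 w ↔ w = y ∨ w = z := by
    intro w
    have : w ∈ G.neighborSet d.1 ↔ w ∈ ({y, z} : Set ℕ) := by rw [hN]
    simpa using this
  -- no fixed darts
  have hnofix : ∀ e : ℕ × ℕ, e ∈ Drt G → e.1 = d.1 → σ e ≠ e := by
    intro e he he1 hfix
    obtain ⟨u, hu1, hu2⟩ : ∃ u, G.Adj e.1 u ∧ u ≠ e.2 := by
      have he' : G.Adj d.1 e.2 := he1 ▸ he
      rcases (hnb e.2).mp he' with h | h
      · exact ⟨z, by rw [he1, hnb]; exact Or.inr rfl, by rw [h]; exact hyz.symm⟩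
      · exact ⟨y, by rw [he1, hnb]; exact Or.inl rfl, by rw [h]; exact hyz⟩
    have hc : σ.SameCycle (e.1, e.2) (e.1, u) := hσ.cyc _ _ _ he hu1
    have := closed_cyc σ {e} (by
      intro a ha
      rw [Set.mem_singleton_iff] at ha ⊢
      rw [ha, hfix]) (by
      intro a ha
      rw [Set.mem_singleton_iff] at ha ⊢
      rw [ha, Equiv.Perm.inv_eq_iff_eq, hfix]) (Set.mem_singleton e) hc
    rw [Set.mem_singleton_iff] at this
    exact hu2 (congrArg Prod.snd this)
  have hd1 : (σ d).1 = d.1 := hσ.fst d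
  have hd2 : (σ (σ d)).1 = d.1 := (hσ.fst _).trans hd1
  have hD1 := rot_dart hσ hd
  have hD2 := rot_dart hσ hD1
  have n1 := hnofix d hd rfl
  have n2 := hnofix (σ d) hD1 hd1
  have a0 : d.2 = y ∨ d.2 = z := (hnb _).mp hd
  have a1 : (σ d).2 = y ∨ (σ d).2 = z := (hnb _).mp (hd1 ▸ hD1 : G.Adj d.1 (σ d).2)
  have a2 : (σ (σ d)).2 = y ∨ (σ (σ d)).2 = z :=
    (hnb _).mp (hd2 ▸ hD2 : G.Adj d.1 (σ (σ d)).2)
  have m1 : (σ d).2 ≠ d.2 := fun h => n1 (Prod.ext hd1 h)
  have m2 : (σ (σ d)).2 ≠ (σ d).2 := fun h => n2 (Prod.ext (hσ.fst _) h)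
  refine Prod.ext hd2 ?_
  rcases a0 with a0 | a0 <;> rcases a1 with a1 | a1 <;> rcases a2 with a2 | a2 <;>
    simp_all

theorem invol_inv (hσ : IsRot G σ) {d : ℕ × ℕ} (hd : d ∈ Drt G) (h2 : deg G d.1 = 2) :
    σ⁻¹ d = σ d := by
  rw [Equiv.Perm.inv_eq_iff_eq]
  exact (invol hσ hd h2).symm

/-- Closed sets of darts contain all darts of a component. -/
theorem all_darts (hσ : IsRot G σ) (X : Set (ℕ × ℕ)) (h1 : ∀ a ∈ X, σ a ∈ X)
    (h2 : ∀ a ∈ X, σ⁻¹ a ∈ X) (h3 : ∀ a ∈ X, a.swap ∈ X) {d : ℕ × ℕ} (hd : d ∈ Drt G)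
    (hdX : d ∈ X) {u : ℕ} (hu : G.Reachable d.1 u) : ∀ w, G.Adj u w → (u, w) ∈ X := by
  have step : ∀ a b c : ℕ, G.Adj a b → G.Adj a c → (a, b) ∈ X → (a, c) ∈ X := by
    intro a b c hab hac h
    exact closed_cyc σ X h1 h2 h (hσ.cyc a b c hab hac)
  have base : ∀ w, G.Adj d.1 w → (d.1, w) ∈ X := fun w hw => step _ _ _ hd hw hdX
  obtain ⟨p⟩ := hu
  have main : ∀ (a b : ℕ) (p : G.Walk a b), (∀ w, G.Adj a w → (a, w) ∈ X) →
      ∀ w, G.Adj b w → (b, w) ∈ X := by
    intro a b p
    induction p with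
    | nil => exact fun h => h
    | cons hadj _ ih =>
      intro h
      apply ih
      intro w hw
      exact step _ _ _ hadj.symm hw (h3 _ (h _ hadj))
  exact main _ _ p base

def Bad (G : SimpleGraph ℕ) (f : Set (ℕ × ℕ)) : Prop :=
  (∀ d ∈ f, deg G d.1 = 2) ∨ (∀ d ∈ f, d.swap ∈ f)

theorem orb_eq {α : Type*} {φ : Equiv.Perm α} {d e : α} (h : e ∈ orb φ d) : orb φ e = orb φ d := by
  ext x
  constructor
  · intro hx
    exact Equiv.Perm.SameCycle.trans h hx
  · intro hx
    exact Equiv.Perm.SameCycle.trans (Equiv.Perm.SameCycle.symm h) hx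

/-- If `orb d` is bad then all the faces in the component are `orb d` or `orb d.swap`. -/
theorem bad_two (hσ : IsRot G σ) {d : ℕ × ℕ} (hd : d ∈ Drt G) (hbad : Bad G (orb (faceP σ) d))
    {e : ℕ × ℕ} (he : e ∈ Drt G) (hr : G.Reachable d.1 e.1) :
    orb (faceP σ) e = orb (faceP σ) d ∨ orb (faceP σ) e = orb (faceP σ) d.swap := by
  have hself : d ∈ orb (faceP σ) d := Equiv.Perm.SameCycle.refl _ _
  have hcl1 : ∀ a ∈ orb (faceP σ) d, faceP σ a ∈ orb (faceP σ) d := fun a ha =>
    (Equiv.Perm.sameCycle_apply_right).mpr ha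
  have hcl2 : ∀ a ∈ orb (faceP σ) d, (faceP σ)⁻¹ a ∈ orb (faceP σ) d := fun a ha =>
    (Equiv.Perm.sameCycle_symm_apply_right).mpr ha
  rcases hbad with hbad | hbad
  · -- degree two
    set f := orb (faceP σ) d with hf
    have hfd : ∀ a ∈ f, a ∈ Drt G := fun a ha => orb_dart hσ hd ha
    -- `swap f` is closed under the face permutation
    have hs1 : ∀ a, a.swap ∈ f → (faceP σ a).swap ∈ f := by
      intro a ha
      -- a.swap = φ g with g ∈ f, φ a = g.swap
      have hg : (faceP σ)⁻¹ a.swap ∈ f := hcl2 _ ha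
      rw [face_inv, invol_inv hσ (hfd _ ha) (hbad _ ha)] at hg
      rw [face_apply]
      exact hg
    have hs2 : ∀ a, a.swap ∈ f → ((faceP σ)⁻¹ a).swap ∈ f := by
      intro a ha
      rw [face_inv, Prod.swap_swap]
      have h1 : faceP σ a.swap ∈ f := hcl1 _ ha
      rw [face_apply, Prod.swap_swap] at h1
      -- σ a ∈ f so degree of a.1 is two
      have h2 : deg G a.1 = 2 := by
        have := hbad _ h1
        rwa [hσ.fst] at this
      have h3 : a ∈ Drt G := by
        have := swap_dart (hfd _ ha)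
        rwa [Prod.swap_swap] at this
      rw [invol_inv hσ h3 h2]
      exact h1
    have hsub : ∀ a, a.swap ∈ f → a ∈ orb (faceP σ) d.swap := by
      intro a ha
      -- orb a ⊆ swap f; use closure along the cycle of d
      have : ∀ g ∈ f, (Prod.swap g) ∈ orb (faceP σ) d.swap := by
        have hX := fun (b : ℕ × ℕ) => closed_cyc (b := b) (faceP σ) {g | g ∈ f ∧ Prod.swap g ∈ orb (faceP σ) d.swap} (by
          rintro g ⟨hg, hg'⟩
          refine ⟨hcl1 _ hg, ?_⟩
          have e1 : faceP σ (faceP σ g).swap = g.swap := by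
            rw [face_apply, Prod.swap_swap, face_apply]
            exact invol hσ (swap_dart (hfd _ hg)) (by
              have := hbad _ (hcl1 _ hg)
              rwa [face_apply, hσ.fst] at this)
          have e2 : faceP σ (faceP σ g).swap ∈ orb (faceP σ) d.swap := by rw [e1]; exact hg'
          exact (Equiv.Perm.sameCycle_apply_right).mp e2) (by
          rintro g ⟨hg, hg'⟩
          refine ⟨hcl2 _ hg, ?_⟩
          have hg2 := hcl2 _ hg
          set k := (faceP σ)⁻¹ g with hk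
          have hgk : g = faceP σ k := by rw [hk, ais]
          have e1 : faceP σ (faceP σ k).swap = k.swap := by
            rw [face_apply, Prod.swap_swap, face_apply]
            exact invol hσ (swap_dart (hfd _ hg2)) (by
              have := hbad _ (hcl1 _ hg2)
              rwa [face_apply, hσ.fst] at this)
          rw [← e1, ← hgk]
          exact (Equiv.Perm.sameCycle_apply_right).mpr hg')
          (a := d) ⟨hself, Equiv.Perm.SameCycle.refl _ _⟩
        intro g hg
        exact (hX g hg).2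
      have h := this _ ha
      rwa [Prod.swap_swap] at h
    -- closed set
    have hX := all_darts hσ {a | a ∈ f ∨ a.swap ∈ f} (by
      rintro a (ha | ha)
      · right
        have := hcl2 _ ha
        rw [face_inv, invol_inv hσ (hfd _ ha) (hbad _ ha)] at this
        exact this
      · left
        have := hcl1 _ ha
        rwa [face_apply, Prod.swap_swap] at this) (by
      rintro a (ha | ha)
      · right
        have := hcl2 _ ha
        rwa [face_inv] at this
      · left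
        have h1 := hcl1 _ ha
        rw [face_apply, Prod.swap_swap] at h1
        have h2 : deg G a.1 = 2 := by
          have := hbad _ h1
          rwa [hσ.fst] at this
        have h3 : a ∈ Drt G := by
          have := swap_dart (hfd _ ha)
          rwa [Prod.swap_swap] at this
        rw [invol_inv hσ h3 h2]
        exact h1) (by
      rintro a (ha | ha)
      · right; rwa [Prod.swap_swap]
      · left; exact ha) hd (Or.inl hself) hr e.2 he
    rcases hX with h | h
    · left; exact orb_eq h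
    · right; exact orb_eq (hsub _ h)
  · left
    have hX := all_darts hσ (orb (faceP σ) d) (by
      intro a ha
      have := hcl1 _ (hbad _ ha)
      rwa [face_apply, Prod.swap_swap] at this) (by
      intro a ha
      have := hbad _ (hcl2 _ ha)
      rwa [face_inv, Prod.swap_swap] at this) hbad hd hself hr e.2 he
    exact orb_eq hX

end PkgM2

open PkgM2 in
theorem pkgM2 : S_badFaces := by
  intro S G σ hG _ hσ
  have hsupp := mem_graphsOn.mp hG
  have hfinD : (Drt G).Finite := by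
    refine (Finset.finite_toSet (S ×ˢ S)).subset ?_
    intro d hd
    have h1 : d.1 ∈ G.support := ⟨d.2, hd⟩
    have h2 : d.2 ∈ G.support := ⟨d.1, SimpleGraph.Adj.symm (G := G) hd⟩
    simp only [Finset.coe_product, Set.mem_prod]
    exact ⟨hsupp h1, hsupp h2⟩
  set B : Set (Set (ℕ × ℕ)) :=
    {f ∈ faces G σ | (∀ d ∈ f, deg G d.1 = 2) ∨ (∀ d ∈ f, d.swap ∈ f)} with hB
  have hfinB : B.Finite := by
    refine (hfinD.image (orb (faceP σ))).subset ?_
    rintro f ⟨⟨x, y, hxy, rfl⟩, _⟩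
    exact ⟨(x, y), hxy, rfl⟩
  have hpick : ∀ f : Set (ℕ × ℕ), ∃ d : ℕ × ℕ, f ∈ B → d ∈ Drt G ∧ f = orb (faceP σ) d := by
    intro f
    by_cases hf : f ∈ B
    · obtain ⟨⟨x, y, hxy, h⟩, _⟩ := hf
      exact ⟨(x, y), fun _ => ⟨hxy, h⟩⟩
    · exact ⟨(0, 0), fun h => absurd h hf⟩
  choose pick hpick using hpick
  rw [Set.ncard_eq_toFinset_card B hfinB]
  have hmaps : ∀ f ∈ hfinB.toFinset, compOf G S (pick f).1 ∈ comps G S := by
    intro f hf
    have hf' := hfinB.mem_toFinset.mp hf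
    have h1 : (pick f).1 ∈ G.support := ⟨(pick f).2, (hpick f hf').1⟩
    exact Finset.mem_image_of_mem _ (hsupp h1)
  have := Finset.card_le_mul_card_image_of_maps_to hmaps 2 ?_
  · exact this
  · intro A hA
    by_cases hne : ((hfinB.toFinset).filter (fun f => compOf G S (pick f).1 = A)).Nonempty
    · obtain ⟨f, hf⟩ := hne
      obtain ⟨hf1, hf2⟩ := Finset.mem_filter.mp hf
      have hfB := hfinB.mem_toFinset.mp hf1
      obtain ⟨hd, hfo⟩ := hpick f hfB
      have hsub : (hfinB.toFinset).filter (fun f => compOf G S (pick f).1 = A) ⊆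
          {orb (faceP σ) (pick f), orb (faceP σ) (pick f).swap} := by
        intro f' hf'
        obtain ⟨hf1', hf2'⟩ := Finset.mem_filter.mp hf'
        have hfB' := hfinB.mem_toFinset.mp hf1'
        obtain ⟨hd', hfo'⟩ := hpick f' hfB'
        have hr : G.Reachable (pick f).1 (pick f').1 := by
          have h1 : (pick f').1 ∈ compOf G S (pick f').1 := by
            refine Finset.mem_filter.mpr ⟨?_, SimpleGraph.Reachable.refl _⟩
            have h1 : (pick f').1 ∈ G.support := ⟨(pick f').2, hd'⟩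
            exact hsupp h1
          rw [hf2', ← hf2] at h1
          exact (Finset.mem_filter.mp h1).2
        have hbad : Bad G (orb (faceP σ) (pick f)) := by
          rw [← hfo]
          exact hfB.2
        have h2 := bad_two hσ hd hbad hd' hr
        rw [← hfo'] at h2
        simpa using h2
      exact (Finset.card_le_card hsub).trans Finset.card_le_two
    · rw [Finset.not_nonempty_iff_eq_empty] at hne
      rw [hne]
      simp

end GiantSurf57
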