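import Pool.Agent.GiantSurf57.StmtsTop
import Pool.Agent.GiantSurf57.PkgM2

/-!
# Packages M1 and M3: few long faces; a branch dart whose reversal is in another face
-/

set_option autoImplicit false

open scoped Classical
open Finset

namespace GiantSurf57
namespace PkgM1_M3

open PkgM2

theorem darts_finite {S : Finset ℕ} {G : SimpleGraph ℕ} (hG : G ∈ graphsOn S) :
    (Drt G).Finite := by
  refine (Finset.finite_toSet (S ×ˢ S)).subset ?_
  rintro ⟨x, y⟩ hxy
  have hS := mem_graphsOn.mp hG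
  have h : G.Adj x y := hxy
  have h1 : x ∈ S := hS ⟨y, h⟩
  have h2 : y ∈ S := hS ⟨x, h.symm⟩
  simp [h1, h2]

theorem faces_finite {S : Finset ℕ} {G : SimpleGraph ℕ} (hG : G ∈ graphsOn S)
    (σ : Equiv.Perm (ℕ × ℕ)) : (faces G σ).Finite := by
  refine ((darts_finite hG).image (fun d => orb (faceP σ) d)).subset ?_
  rintro f ⟨x, y, hxy, rfl⟩
  exact ⟨(x, y), hxy, rfl⟩

end PkgM1_M3

open PkgM2 PkgM1_M3

theorem pkgM1 : S_faceLen := by
  intro S G σ hG hσ
  refine ⟨faces_finite hG σ, fun A hA r => ?_⟩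
  have hAfin : A.Finite := (darts_finite hG).subset hA
  have hFfin : {f ∈ faces G σ | r < (f ∩ A).ncard}.Finite :=
    (faces_finite hG σ).subset fun f hf => hf.1
  have e1 : {f ∈ faces G σ | r < (f ∩ A).ncard}.ncard = hFfin.toFinset.card := by
    rw [← Set.ncard_coe_finset, Set.Finite.coe_toFinset]
  have e2 : A.ncard = hAfin.toFinset.card := by
    rw [← Set.ncard_coe_finset, Set.Finite.coe_toFinset]
  rw [e1, e2, ← smul_eq_mul, ← Finset.sum_const]
  have h1 : ∑ _f ∈ hFfin.toFinset, (r + 1) ≤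
      ∑ f ∈ hFfin.toFinset, (hAfin.toFinset.filter (fun a => a ∈ f)).card := by
    refine Finset.sum_le_sum fun f hf => ?_
    rw [Set.Finite.mem_toFinset] at hf
    have h2 : (hAfin.toFinset.filter (fun a => a ∈ f)).card = (f ∩ A).ncard := by
      rw [← Set.ncard_coe_finset]
      congr 1
      ext a
      simp only [Finset.coe_filter, Set.Finite.mem_toFinset, Set.mem_ofPred_eq, Set.mem_inter_iff]
      exact and_comm
    rw [h2]
    exact hf.2
  refine h1.trans ?_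
  have h3 := Finset.sum_card_bipartiteAbove_eq_sum_card_bipartiteBelow
    (s := hFfin.toFinset) (t := hAfin.toFinset) (fun (f : Set (ℕ × ℕ)) (a : ℕ × ℕ) => a ∈ f)
  simp only [Finset.bipartiteAbove] at h3
  rw [h3, Finset.card_eq_sum_ones]
  refine Finset.sum_le_sum fun a _ => ?_
  rw [Finset.card_le_one]
  intro f hf f' hf'
  rw [Finset.mem_bipartiteBelow, Set.Finite.mem_toFinset] at hf hf'
  obtain ⟨⟨⟨x, y, hxy, rfl⟩, -⟩, h4⟩ := hf
  obtain ⟨⟨⟨x', y', hxy', rfl⟩, -⟩, h5⟩ := hf'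
  rw [← orb_eq h4, ← orb_eq h5]

theorem pkgM3 : S_branchDart := by
  rintro S G σ hG hdeg hσ f ⟨x, y, hxy, rfl⟩ ⟨e, he, he3⟩ ⟨d, hd, hds⟩
  by_contra hcon
  push Not at hcon
  have hS := mem_graphsOn.mp hG
  set φ := faceP σ with hφ
  set B : Set (ℕ × ℕ) := {d | d ∈ orb φ (x, y) ∧ d.swap ∉ orb φ (x, y)} with hB
  have hd0 : ((x, y) : ℕ × ℕ) ∈ Drt G := hxy
  have hBfin : B.Finite := (darts_finite hG).subset fun a ha => orb_dart hσ hd0 ha.1
  have hinv : ∀ a ∈ B, φ⁻¹ a ∈ B := by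
    rintro a ⟨ha1, ha2⟩
    have haD : a ∈ Drt G := orb_dart hσ hd0 ha1
    have hadeg : deg G a.1 = 2 := by
      have h1 := hdeg a.1 (hS ⟨a.2, haD⟩)
      by_contra h2
      exact ha2 (hcon a ha1 (by omega))
    have hcyc : φ.SameCycle a (φ⁻¹ a) := ⟨-1, by rw [zpow_neg_one]⟩
    refine ⟨Equiv.Perm.SameCycle.trans ha1 hcyc, ?_⟩
    intro h
    apply ha2
    have h3 : (φ⁻¹ a).swap = φ a.swap := by
      rw [hφ, face_inv, Prod.swap_swap, face_apply, Prod.swap_swap, invol_inv hσ haD hadeg]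
    rw [h3] at h
    exact Equiv.Perm.SameCycle.trans h (Equiv.Perm.sameCycle_apply_left.mpr
      (Equiv.Perm.SameCycle.refl _ _))
  have hfwd : ∀ a ∈ B, φ a ∈ B := by
    have himg : (fun a => φ⁻¹ a) '' B = B := by
      refine Set.eq_of_subset_of_ncard_le ?_ ?_ hBfin
      · rintro _ ⟨a, ha, rfl⟩
        exact hinv a ha
      · rw [Set.ncard_image_of_injective _ (φ⁻¹ : Equiv.Perm (ℕ × ℕ)).injective]
    intro a ha
    rw [← himg] at ha
    obtain ⟨b, hb, rfl⟩ := ha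
    simpa using hb
  have hdB : d ∈ B := ⟨hd, hds⟩
  have heB : e ∈ B := closed_cyc φ B hfwd hinv hdB
    (Equiv.Perm.SameCycle.trans (Equiv.Perm.SameCycle.symm hd) he)
  exact heB.2 (hcon e he he3)

end GiantSurf57
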