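import Pool.Agent.GiantSurf57.StmtsTop

/-!
# Package M4: following a thread along a face
-/

open scoped Classical
open Finset

namespace GiantSurf57
namespace PkgM4

theorem faceP_apply {V : Type*} (σ : Equiv.Perm (V × V)) (d : V × V) :
    faceP σ d = σ d.swap := rfl

theorem rot_dart {V : Type*} {G : SimpleGraph V} {σ : Equiv.Perm (V × V)} (h : IsRot G σ)
    {d : V × V} (hd : G.Adj d.1 d.2) : G.Adj (σ d).1 (σ d).2 := by
  by_contra hn
  have h2 : σ (σ d) = σ d := h.fix (σ d).1 (σ d).2 hn
  have h3 : σ d = d := σ.injective h2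
  rw [h3] at hn
  exact hn hd

theorem face_dart {V : Type*} {G : SimpleGraph V} {σ : Equiv.Perm (V × V)} (h : IsRot G σ)
    {d : V × V} (hd : G.Adj d.1 d.2) : G.Adj (faceP σ d).1 (faceP σ d).2 := by
  rw [faceP_apply]
  exact rot_dart h (d := d.swap) (by simpa using hd.symm)

theorem face_fst {V : Type*} {G : SimpleGraph V} {σ : Equiv.Perm (V × V)} (h : IsRot G σ)
    (d : V × V) : (faceP σ d).1 = d.2 := by
  rw [faceP_apply, h.fst]
  rfl

theorem rot_ne {G : SimpleGraph ℕ} {σ : Equiv.Perm (ℕ × ℕ)} (h : IsRot G σ)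
    {v x : ℕ} (hd : G.Adj v x) (h2 : 2 ≤ deg G v) : (σ (v, x)).2 ≠ x := by
  intro he
  have hfix : σ (v, x) = (v, x) := Prod.ext (h.fst _) he
  have hsub : G.neighborSet v ⊆ {x} := by
    intro z hz
    have hz' : G.Adj v z := hz
    have hc := h.cyc v x z hd hz'
    have := hc.eq_of_left hfix
    simp only [Prod.mk.injEq, true_and] at this
    simp [this]
  have hle : deg G v ≤ 1 := by
    have := Set.ncard_le_ncard hsub (Set.finite_singleton x)
    simpa [deg] using this
  omega

theorem rot_pass {G : SimpleGraph ℕ} {σ : Equiv.Perm (ℕ × ℕ)} (h : IsRot G σ)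
    {v x w : ℕ} (hx : G.Adj v x) (hw : G.Adj v w) (hne : w ≠ x) (h2 : deg G v = 2) :
    σ (v, x) = (v, w) := by
  have hn := rot_ne h hx (by omega)
  have hfst : (σ (v, x)).1 = v := h.fst _
  have hd := rot_dart h (d := (v, x)) hx
  rw [hfst] at hd
  set z := (σ (v, x)).2 with hz
  have hfin : (G.neighborSet v).Finite := by
    apply Set.finite_of_ncard_ne_zero
    unfold deg at h2
    omega
  by_contra hcon
  have hzw : z ≠ w := by
    intro hzw
    apply hcon
    exact Prod.ext hfst (by rw [← hz, hzw])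
  have hsub : ({x, w, z} : Set ℕ) ⊆ G.neighborSet v := by
    intro t ht
    simp only [Set.mem_insert_iff, Set.mem_singleton_iff] at ht
    rcases ht with rfl | rfl | rfl
    · exact hx
    · exact hw
    · exact hd
  have h3 : ({x, w, z} : Set ℕ).ncard = 3 := by
    rw [Set.ncard_eq_three]
    exact ⟨x, w, z, hne.symm, hn.symm, hzw.symm, rfl⟩
  have := Set.ncard_le_ncard hsub hfin
  unfold deg at h2
  omega

/-- No backtracking along the chain. -/
def NBk : ℕ → List ℕ → ℕ → Prop
  | _, [], _ => True
  | u, [_], c => u ≠ c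
  | u, v :: w :: L, c => u ≠ w ∧ NBk v (w :: L) c

theorem nbk_of {Q : SimpleGraph ℕ} {c : ℕ} (hc : 3 ≤ deg Q c) :
    ∀ (L : List ℕ) (u : ℕ), (∀ v ∈ L, deg Q v = 2) → u ∉ L → L.Nodup →
      (L.length = 1 → u ≠ c) → NBk u L c
  | [], _, _, _, _, _ => trivial
  | [_], _, _, _, _, h => h rfl
  | v :: w :: L, u, h2, hu, hnd, _ => by
      refine ⟨?_, nbk_of hc (w :: L) v (fun t ht => h2 t (List.mem_cons_of_mem _ ht))
        (List.nodup_cons.mp hnd).1 (List.nodup_cons.mp hnd).2 ?_⟩
      · intro h
        apply hu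
        simp [h]
      · intro _ hvc
        have := h2 v (by simp)
        rw [hvc] at this
        omega

theorem chain_walk {Q : SimpleGraph ℕ} {σ : Equiv.Perm (ℕ × ℕ)} (hσ : IsRot Q σ) (d : ℕ × ℕ)
    {c : ℕ} : ∀ (L : List ℕ) (u k : ℕ), Chn Q u L c → (∀ v ∈ L, deg Q v = 2) → NBk u L c →
      (((faceP σ) ^ k) d).1 = u → (L ++ [c]).head? = some (((faceP σ) ^ k) d).2 →
      (((faceP σ) ^ (k + L.length)) d).2 = c ∧
      (∀ x y, (pathG u L c).Adj x y → ∃ j ≤ L.length,
        ((faceP σ) ^ (k + j)) d = (x, y) ∨ ((faceP σ) ^ (k + j)) d = (y, x)) ∧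
      (∀ j ≤ L.length, 1 ≤ j → (((faceP σ) ^ (k + j)) d).1 ∈ L) ∧
      (∀ j ≤ L.length, (faceP σ).SameCycle (((faceP σ) ^ k) d).swap
        (((faceP σ) ^ (k + j)) d).swap)
  | [], u, k, hch, _, _, h1, hh => by
      have hc : c = (((faceP σ) ^ k) d).2 := by simpa using hh
      refine ⟨by simp [hc], ?_, ?_, ?_⟩
      · intro x y hxy
        have hxy' : (SimpleGraph.edge u c).Adj x y := hxy
        rw [SimpleGraph.edge_adj] at hxy'
        refine ⟨0, by simp, ?_⟩
        rw [add_zero]
        rcases hxy'.1 with ⟨rfl, rfl⟩ | ⟨rfl, rfl⟩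
        · left; exact Prod.ext h1 hc.symm
        · right; exact Prod.ext h1 hc.symm
      · intro j hj h1j
        simp at hj
        omega
      · intro j hj
        simp at hj
        subst hj
        rfl
  | v :: L, u, k, hch, h2, hnb, h1, hh => by
      obtain ⟨huv, hch'⟩ := hch
      have hv2 : deg Q v = 2 := h2 v (by simp)
      have hv : (((faceP σ) ^ k) d).2 = v := by simpa using hh.symm
      have hDk : ((faceP σ) ^ k) d = (u, v) := Prod.ext h1 hv
      -- the next vertex
      obtain ⟨w, hw⟩ : ∃ w, (L ++ [c]).head? = some w := by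
        cases L with
        | nil => exact ⟨c, rfl⟩
        | cons a t => exact ⟨a, rfl⟩
      have hvw : Q.Adj v w := by
        cases L with
        | nil =>
          have : c = w := by simpa using hw
          subst this
          exact hch'
        | cons a t =>
          have : a = w := by simpa using hw
          subst this
          exact hch'.1
      have hwu : w ≠ u := by
        cases L with
        | nil =>
          have : c = w := by simpa using hw
          subst this
          exact fun h => hnb h.symm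
        | cons a t =>
          have : a = w := by simpa using hw
          subst this
          exact fun h => hnb.1 h.symm
      have hnb' : NBk v L c := by
        cases L with
        | nil => trivial
        | cons a t => exact hnb.2
      have hD1 : ((faceP σ) ^ (k + 1)) d = (v, w) := by
        rw [pow_succ', Equiv.Perm.mul_apply, hDk, faceP_apply]
        exact rot_pass hσ huv.symm hvw hwu hv2
      have hs : (faceP σ).SameCycle (((faceP σ) ^ k) d).swap (((faceP σ) ^ (k + 1)) d).swap := by
        rw [hDk, hD1]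
        have : faceP σ (w, v) = (v, u) := by
          rw [faceP_apply]
          exact rot_pass hσ hvw huv.symm hwu.symm hv2
        have h3 : (faceP σ).SameCycle (w, v) (v, u) := by
          rw [← this]
          exact Equiv.Perm.sameCycle_apply_right.mpr (Equiv.Perm.SameCycle.refl _ _)
        exact h3.symm
      obtain ⟨i1, i2, i3, i4⟩ := chain_walk hσ d L v (k + 1) hch'
        (fun t ht => h2 t (List.mem_cons_of_mem _ ht)) hnb' (by rw [hD1]) (by rw [hD1]; exact hw)
      refine ⟨?_, ?_, ?_, ?_⟩
      · rw [List.length_cons, show k + (L.length + 1) = k + 1 + L.length by ring]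
        exact i1
      · intro x y hxy
        have hxy' : (SimpleGraph.edge u v ⊔ pathG v L c).Adj x y := hxy
        rw [SimpleGraph.sup_adj] at hxy'
        rcases hxy' with h | h
        · rw [SimpleGraph.edge_adj] at h
          refine ⟨0, by simp, ?_⟩
          rw [add_zero, hDk]
          rcases h.1 with ⟨rfl, rfl⟩ | ⟨rfl, rfl⟩
          · left; rfl
          · right; rfl
        · obtain ⟨j, hj, hj'⟩ := i2 x y h
          refine ⟨j + 1, by simp; omega, ?_⟩
          rw [show k + (j + 1) = k + 1 + j by ring]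
          exact hj'
      · intro j hj h1j
        rw [List.length_cons] at hj
        obtain ⟨i, rfl⟩ : ∃ i, j = i + 1 := ⟨j - 1, by omega⟩
        rw [show k + (i + 1) = k + 1 + i by ring]
        rcases Nat.eq_zero_or_pos i with rfl | hi
        · rw [add_zero, hD1]
          simp
        · exact List.mem_cons_of_mem _ (i3 i (by omega) hi)
      · intro j hj
        rw [List.length_cons] at hj
        rcases Nat.eq_zero_or_pos j with rfl | hj0
        · rw [add_zero]
        · obtain ⟨i, rfl⟩ : ∃ i, j = i + 1 := ⟨j - 1, by omega⟩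
          rw [show k + (i + 1) = k + 1 + i by ring]
          exact hs.trans (i4 i (by omega))

end PkgM4

open PkgM4 in
theorem pkgM4 (hthr : S_thrEx) : S_followFace := by
  intro P S l M Q σ hQ hσ f hf hfM h24 hdeg3 d hdf hd3 hswap
  set φ := faceP σ with hφ
  -- basic facts
  have hcore := hQ
  simp only [core, Finset.mem_filter, mem_graphsOn] at hcore
  obtain ⟨hsupp, -, hmin, -⟩ := hcore
  obtain ⟨x0, y0, hxy0, hf0⟩ := hf
  have hfd : ∀ e, e ∈ f ↔ φ.SameCycle d e := by
    intro e
    have h1 : φ.SameCycle (x0, y0) d := by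
      rw [hf0] at hdf; exact hdf
    rw [hf0]
    constructor
    · intro h
      exact h1.symm.trans h
    · intro h
      exact h1.trans h
  -- darts
  have hadj_mem : ∀ x y, Q.Adj x y → x ∈ S := by
    intro x y h
    exact hsupp ⟨y, h⟩
  have hTfin : ({e : ℕ × ℕ | Q.Adj e.1 e.2}).Finite := by
    refine (Finset.finite_toSet (S ×ˢ S)).subset ?_
    intro e he
    have he' : Q.Adj e.1 e.2 := he
    simp only [Finset.coe_product, Set.mem_prod]
    exact ⟨hadj_mem _ _ he', hadj_mem _ _ he'.symm⟩
  have hdd : Q.Adj d.1 d.2 := by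
    have h1 : φ.SameCycle (x0, y0) d := by
      rw [hf0] at hdf; exact hdf
    have hx0 : ∀ n : ℕ, Q.Adj ((φ ^ n) (x0, y0)).1 ((φ ^ n) (x0, y0)).2 := by
      intro n
      induction n with
      | zero => exact hxy0
      | succ n ih =>
        rw [pow_succ', Equiv.Perm.mul_apply]
        exact face_dart hσ ih
    obtain ⟨a, b, hab, hab'⟩ := hTfin.exists_lt_map_eq_of_forall_mem hx0
    have hper : (φ ^ (b - a)) (x0, y0) = (x0, y0) := by
      have : (φ ^ a) ((φ ^ (b - a)) (x0, y0)) = (φ ^ a) (x0, y0) := by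
        rw [← Equiv.Perm.mul_apply, ← pow_add, hab', show a + (b - a) = b by omega]
      exact (φ ^ a).injective this
    obtain ⟨z, hz⟩ := h1
    have hpos : 0 < b - a := by omega
    set m := b - a with hm
    have hz2 : (φ ^ (z % (m : ℤ)).toNat) (x0, y0) = d := by
      have h3 : (φ ^ (((z % (m : ℤ)).toNat : ℕ) : ℤ)) (x0, y0) = d := by
        rw [Int.toNat_of_nonneg (Int.emod_nonneg _ (by omega))]
        have h4 : z = z % (m : ℤ) + (m : ℤ) * (z / (m : ℤ)) := (Int.emod_add_mul_ediv z m).symm
        have h5 : (φ ^ ((m : ℤ) * (z / (m : ℤ)))) (x0, y0) = (x0, y0) := by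
          rw [zpow_mul, zpow_natCast]
          exact Equiv.Perm.zpow_apply_eq_self_of_apply_eq_self hper _
        rw [h4, zpow_add, Equiv.Perm.mul_apply, h5] at hz
        exact hz
      rwa [zpow_natCast] at h3
    rw [← hz2]
    exact hx0 _
  have hDadj : ∀ n : ℕ, Q.Adj ((φ ^ n) d).1 ((φ ^ n) d).2 := by
    intro n
    induction n with
    | zero => exact hdd
    | succ n ih =>
      rw [pow_succ', Equiv.Perm.mul_apply]
      exact face_dart hσ ih
  have hDf : ∀ n : ℕ, (φ ^ n) d ∈ f := by
    intro n
    rw [hfd]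
    exact ⟨n, by simp⟩
  have hDfst : ∀ n : ℕ, ((φ ^ (n + 1)) d).1 = ((φ ^ n) d).2 := by
    intro n
    rw [pow_succ', Equiv.Perm.mul_apply]
    exact face_fst hσ _
  -- the period
  set N := Function.minimalPeriod φ d with hN
  have hperd : d ∈ Function.periodicPts φ := by
    obtain ⟨a, b, hab, hab'⟩ := hTfin.exists_lt_map_eq_of_forall_mem hDadj
    have hper : (φ ^ (b - a)) d = d := by
      have : (φ ^ a) ((φ ^ (b - a)) d) = (φ ^ a) d := by
        rw [← Equiv.Perm.mul_apply, ← pow_add, hab', show a + (b - a) = b by omega]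
      exact (φ ^ a).injective this
    refine Function.mk_mem_periodicPts (n := b - a) (by omega) ?_
    unfold Function.IsPeriodicPt Function.IsFixedPt
    rw [Equiv.Perm.iterate_eq_pow]
    exact hper
  have hNpos : 0 < N := Function.minimalPeriod_pos_of_mem_periodicPts hperd
  have hDN : (φ ^ N) d = d := by
    have := Function.iterate_minimalPeriod (f := φ) (x := d)
    rwa [Equiv.Perm.iterate_eq_pow] at this
  have hinj : ∀ i j : ℕ, i < N → j < N → (φ ^ i) d = (φ ^ j) d → i = j := by
    intro i j hi hj hij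
    have h := Function.iterate_injOn_Iio_minimalPeriod (f := φ) (x := d)
    apply h hi hj
    simp only [Equiv.Perm.iterate_eq_pow]
    exact hij
  have hfin : f.Finite := by
    refine (Set.finite_range (fun i : Fin N => (φ ^ (i : ℕ)) d)).subset ?_
    intro e he
    rw [hfd] at he
    obtain ⟨z, hz⟩ := he
    have hz2 : (φ ^ (z % (N : ℤ)).toNat) d = e := by
      have h3 : (φ ^ (((z % (N : ℤ)).toNat : ℕ) : ℤ)) d = e := by
        rw [Int.toNat_of_nonneg (Int.emod_nonneg _ (by omega))]
        have h4 : z = z % (N : ℤ) + (N : ℤ) * (z / (N : ℤ)) := (Int.emod_add_mul_ediv z N).symm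
        have h5 : (φ ^ ((N : ℤ) * (z / (N : ℤ)))) d = d := by
          rw [zpow_mul, zpow_natCast]
          exact Equiv.Perm.zpow_apply_eq_self_of_apply_eq_self hDN _
        rw [h4, zpow_add, Equiv.Perm.mul_apply, h5] at hz
        exact hz
      rwa [zpow_natCast] at h3
    have hlt : (z % (N : ℤ)).toNat < N := by
      have h1 := Int.emod_lt_of_pos z (show (0 : ℤ) < N by omega)
      have h2 := Int.emod_nonneg z (show (N : ℤ) ≠ 0 by omega)
      omega
    exact ⟨⟨_, hlt⟩, hz2⟩
  have hNM : N ≤ M := by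
    have h1 : ((fun i : ℕ => (φ ^ i) d) '' Set.Iio N).ncard = N := by
      rw [Set.ncard_image_of_injOn]
      · rw [Set.ncard_eq_toFinset_card']
        simp
      · intro i hi j hj hij
        exact hinj i j hi hj hij
    have h2 : ((fun i : ℕ => (φ ^ i) d) '' Set.Iio N) ⊆ f := by
      rintro _ ⟨i, _, rfl⟩
      exact hDf i
    have := Set.ncard_le_ncard h2 hfin
    omega
  -- the thread
  obtain ⟨L, c, hT, hh⟩ := hthr P S l Q hQ d.1 d.2 hdd hd3
  have hdL : d.1 ∉ L := by
    intro h
    have := hT.deg2 _ h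
    omega
  obtain ⟨i1, i2, i3, i4⟩ := chain_walk hσ d L d.1 0 hT.chn hT.deg2
    (nbk_of hT.right L d.1 hT.deg2 hdL hT.nodup hT.one) rfl hh
  simp only [zero_add, pow_zero, Equiv.Perm.coe_one, id_eq] at i1 i2 i3 i4
  have hc1 : ((φ ^ (L.length + 1)) d).1 = c := by rw [hDfst]; exact i1
  have hc3 : deg Q c = 3 := by
    have h1 := hdeg3 _ (hDf (L.length + 1))
    rw [hc1] at h1
    have h2 := hT.right
    omega
  have hb3 : deg Q d.1 = 3 := by
    have h1 := hdeg3 _ hdf
    omega
  refine ⟨(d.1, L, c), ⟨hT, hb3, hc3, ?_⟩, rfl, hh⟩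
  by_cases hbc : d.1 = c
  · left; exact hbc
  right
  show Short (Q \ pathG d.1 L c) M c d.1
  set Q0 := Q \ pathG d.1 L c with hQ0
  have hpN : L.length + 2 ≤ N := by
    by_contra hcon
    rcases Nat.lt_or_ge L.length N with h | h
    · have hN1 : N = L.length + 1 := by omega
      rw [← hN1, hDN] at hc1
      exact hbc hc1
    · have h1 := i3 N h (by omega)
      have h2 : ((φ ^ N) d).1 ∈ L := h1
      rw [hDN] at h2
      exact hdL h2
  have hQ0adj : ∀ m, L.length + 1 ≤ m → m < N → Q0.Adj ((φ ^ m) d).1 ((φ ^ m) d).2 := by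
    intro m hm1 hm2
    rw [hQ0, SimpleGraph.sdiff_adj]
    refine ⟨hDadj m, ?_⟩
    intro hp
    obtain ⟨j, hj, hj'⟩ := i2 _ _ hp
    rcases hj' with hj' | hj'
    · have h1 : (φ ^ j) d = (φ ^ m) d := hj'
      have := hinj j m (by omega) hm2 h1
      omega
    · have h1 : (φ ^ j) d = ((φ ^ m) d).swap := hj'
      have h2 : φ.SameCycle d.swap ((φ ^ j) d).swap := i4 j hj
      rw [h1, Prod.swap_swap] at h2
      have h3 : φ.SameCycle d ((φ ^ m) d) := (hfd _).mp (hDf m)
      exact hswap ((hfd _).mpr (h3.trans h2.symm))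
  have hQfin : ∀ v, (Q.neighborSet v).Finite := by
    intro v
    refine (Finset.finite_toSet S).subset ?_
    intro t ht
    have ht' : Q.Adj v t := ht
    exact hadj_mem _ _ ht'.symm
  have hwalk : ∀ m, L.length + 1 ≤ m → m < N →
      NB Q0 ((φ ^ (L.length + 1)) d) ((φ ^ m) d) (m - (L.length + 1))
        ((Finset.Ioc (L.length + 1) m).filter (fun i => deg Q0 ((φ ^ i) d).1 = 3)).card := by
    intro m hm
    induction m, hm using Nat.le_induction with
    | base =>
      intro _
      simp only [le_refl, Finset.Ioc_self, Finset.filter_empty, Finset.card_empty, Nat.sub_self]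
      exact NB.refl
    | succ m hm ih =>
      intro hmN
      have ih' := ih (by omega)
      have hst := hQ0adj (m + 1) (by omega) hmN
      have hst0 := hQ0adj m hm (by omega)
      have hy : ((φ ^ (m + 1)) d).1 = ((φ ^ m) d).2 := hDfst m
      have hyS : ((φ ^ m) d).2 ∈ S := hadj_mem _ _ (hDadj m).symm
      have hzx : ((φ ^ (m + 1)) d).2 ≠ ((φ ^ m) d).1 := by
        rw [pow_succ', Equiv.Perm.mul_apply, hφ, faceP_apply]
        exact rot_ne hσ (hDadj m).symm (hmin _ hyS)
      have hle3 : deg Q0 ((φ ^ m) d).2 ≤ 3 := by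
        have h1 := hdeg3 _ (hDf (m + 1))
        rw [hy] at h1
        refine le_trans ?_ h1
        apply Set.ncard_le_ncard _ (hQfin _)
        intro t ht
        have ht' : Q0.Adj ((φ ^ m) d).2 t := ht
        rw [hQ0, SimpleGraph.sdiff_adj] at ht'
        exact ht'.1
      have hge2 : 2 ≤ deg Q0 ((φ ^ m) d).2 := by
        have hsub : ({((φ ^ m) d).1, ((φ ^ (m + 1)) d).2} : Set ℕ) ⊆
            Q0.neighborSet ((φ ^ m) d).2 := by
          intro t ht
          simp only [Set.mem_insert_iff, Set.mem_singleton_iff] at ht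
          rcases ht with rfl | rfl
          · exact hst0.symm
          · rw [hy] at hst
            exact hst
        have hfin0 : (Q0.neighborSet ((φ ^ m) d).2).Finite := by
          refine (hQfin ((φ ^ m) d).2).subset ?_
          intro t ht
          have ht' : Q0.Adj ((φ ^ m) d).2 t := ht
          rw [hQ0, SimpleGraph.sdiff_adj] at ht'
          exact ht'.1
        have := Set.ncard_le_ncard hsub hfin0
        rw [Set.ncard_pair hzx.symm] at this
        exact this
      have hIoc : Finset.Ioc (L.length + 1) (m + 1) = insert (m + 1) (Finset.Ioc (L.length + 1) m) := by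
        ext i
        simp only [Finset.mem_Ioc, Finset.mem_insert]
        omega
      have hnot : (m + 1) ∉ (Finset.Ioc (L.length + 1) m).filter
          (fun i => deg Q0 ((φ ^ i) d).1 = 3) := by
        simp
      have hstep : (m + 1) - (L.length + 1) = (m - (L.length + 1)) + 1 := by omega
      have hDm : (φ ^ m) d = (((φ ^ m) d).1, ((φ ^ m) d).2) := rfl
      have hDm1 : (φ ^ (m + 1)) d = (((φ ^ m) d).2, ((φ ^ (m + 1)) d).2) := Prod.ext hy rfl
      have hst' : Q0.Adj ((φ ^ m) d).2 ((φ ^ (m + 1)) d).2 := by rw [hy] at hst; exact hst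
      rw [hstep, hIoc, Finset.filter_insert]
      rcases (show deg Q0 ((φ ^ m) d).2 = 2 ∨ deg Q0 ((φ ^ m) d).2 = 3 by omega) with h2 | h3
      · rw [if_neg (by rw [hy]; omega)]
        rw [hDm1]
        exact NB.two ih' h2 hst' hzx
      · rw [if_pos (by rw [hy]; exact h3), Finset.card_insert_of_notMem hnot]
        rw [hDm1]
        exact NB.three ih' h3 hst' hzx
  refine ⟨(φ ^ (L.length + 1)) d, (φ ^ (N - 1)) d, N - 1 - (L.length + 1), _, hc1,
    hQ0adj _ le_rfl (by omega), ?_, hwalk (N - 1) (by omega) (by omega), by omega, ?_⟩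
  · have h1 := hDfst (N - 1)
    rw [show N - 1 + 1 = N by omega, hDN] at h1
    exact h1.symm
  · refine le_trans ?_ h24
    rw [← Set.ncard_coe_finset]
    refine Set.ncard_le_ncard_of_injOn (fun i : ℕ => (φ ^ i) d) ?_ ?_
      (hfin.subset (Set.sep_subset _ _))
    · intro i hi
      simp only [Finset.coe_filter, Finset.mem_Ioc, Set.mem_setOf_eq] at hi
      refine ⟨hDf i, ?_⟩
      rw [← hi.2]
      apply Set.ncard_le_ncard _ (hQfin _)
      intro t ht
      have ht' : Q0.Adj ((φ ^ i) d).1 t := ht
      rw [hQ0, SimpleGraph.sdiff_adj] at ht'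
      exact ht'.1
    · intro i hi j hj hij
      simp only [Finset.coe_filter, Finset.mem_Ioc, Set.mem_setOf_eq] at hi hj
      exact hinj i j (by omega) (by omega) hij

end GiantSurf57
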