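import Pool.Agent.GiantSurf57.StmtsTop

open scoped Classical
open Finset

namespace GiantSurf57

namespace PkgR1

theorem r32_mono {x y : ℝ} (hx : 0 ≤ x) (hxy : x ≤ y) : r32 x ≤ r32 y := by
  unfold r32
  exact mul_le_mul hxy (Real.sqrt_le_sqrt hxy) (Real.sqrt_nonneg x) (le_trans hx hxy)

theorem r32_nonneg {x : ℝ} (hx : 0 ≤ x) : 0 ≤ r32 x := by
  unfold r32; positivity

theorem r32_mul {x y : ℝ} (hx : 0 ≤ x) : r32 (x * y) = r32 x * r32 y := by
  unfold r32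
  rw [Real.sqrt_mul hx]
  ring

theorem self_le_r32 {x : ℝ} (hx : 1 ≤ x) : x ≤ r32 x := by
  unfold r32
  have : 1 ≤ √x := by rw [Real.one_le_sqrt]; exact hx
  nlinarith

theorem r32_le_one {x : ℝ} (hx0 : 0 ≤ x) (hx : x ≤ 1) : r32 x ≤ 1 := by
  have h := r32_mono hx0 hx
  have : r32 1 = 1 := by unfold r32; simp
  rwa [this] at h

theorem r32_rpow {x : ℝ} (hx : 0 < x) : r32 (x ^ (2 / 5 : ℝ)) = x ^ (3 / 5 : ℝ) := by
  unfold r32
  rw [Real.sqrt_eq_rpow, ← Real.rpow_mul hx.le, ← Real.rpow_add hx]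
  norm_num

theorem rpow_split {x : ℝ} (hx : 0 < x) : x ^ (2 / 5 : ℝ) * x ^ (3 / 5 : ℝ) = x := by
  rw [← Real.rpow_add hx]
  norm_num

/-- eventually `|M n| ≤ η n` -/
theorem ev_small {M : ℕ → ℤ}
    (hM : Filter.Tendsto (fun n => (M n : ℝ) / (n : ℝ)) Filter.atTop (nhds 0)) {η : ℝ}
    (hη : 0 < η) : ∀ᶠ n : ℕ in Filter.atTop, |(M n : ℝ)| ≤ η * n := by
  have h1 := (Metric.tendsto_nhds.mp hM) η hη
  filter_upwards [h1, Filter.eventually_ge_atTop 1] with n hn hn1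
  rw [Real.dist_eq, sub_zero, abs_div] at hn
  have hn' : (0 : ℝ) < n := by exact_mod_cast hn1
  rw [abs_of_pos hn', div_lt_iff₀ hn'] at hn
  exact hn.le

end PkgR1

open PkgR1 in
theorem pkgR1 (h1 : S_XR) : S_R1 := by
  intro w hw M hM
  obtain ⟨C, η, n0, hC, hη, hmain⟩ := h1 w hw
  refine ⟨C * (2 * C + 2), ?_⟩
  filter_upwards [ev_small hM hη, Filter.eventually_ge_atTop (max n0 1)] with n hn hn1
  have hn0 : n0 ≤ n := le_trans (le_max_left _ _) hn1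
  have hn1' : 1 ≤ n := le_trans (le_max_right _ _) hn1
  have hnr : (1 : ℝ) ≤ n := by exact_mod_cast hn1'
  have hnpos : (0 : ℝ) < n := by linarith
  obtain ⟨hpos, hup⟩ := hmain n (M n) hn0 hn
  refine ⟨hpos, ?_⟩
  have hp : 1 ≤ (n : ℝ) ^ (3 / 5 : ℝ) := Real.one_le_rpow hnr (by norm_num)
  set p : ℝ := (n : ℝ) ^ (3 / 5 : ℝ) with hpdef
  have habs := abs_nonneg (M n : ℝ)
  have hf1 : 1 ≤ (2 * C + 2) * (|(M n : ℝ)| + p) := by nlinarith
  have key := hup ((2 * C + 2) * (|(M n : ℝ)| + p)) hf1 ?_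
  · calc ZZ w n (M n + 1) ≤ C * ((2 * C + 2) * (|(M n : ℝ)| + p)) * ZZ w n (M n) := key
      _ = C * (2 * C + 2) * (|(M n : ℝ)| + p) * ZZ w n (M n) := by ring
  · intro t ht
    have hM2 : -|(M n : ℝ)| ≤ M n := neg_abs_le _
    have ht0 : 0 < (t : ℝ) := by nlinarith
    have hhalf : (t : ℝ) / 2 ≤ t + M n := by nlinarith
    have htp : (2 * C + 2) * p ≤ t := by nlinarith
    refine ⟨by nlinarith, ?_⟩
    have hx : (n : ℝ) / (t + M n) ≤ (n : ℝ) ^ (2 / 5 : ℝ) := by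
      rw [div_le_iff₀ (by linarith)]
      have hs := rpow_split hnpos
      rw [← hpdef] at hs
      have hq : 0 ≤ (n : ℝ) ^ (2 / 5 : ℝ) := by positivity
      have : p ≤ t + M n := by nlinarith
      nlinarith
    have h2 := r32_mono (by apply div_nonneg hnpos.le; linarith) hx
    rw [r32_rpow hnpos, ← hpdef] at h2
    nlinarith

end GiantSurf57
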