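import Pool.Agent.GiantSurf57.PkgR1

open scoped Classical
open Finset

namespace GiantSurf57

open PkgR1 in
theorem pkgR2 (h1 : S_Xa) : S_R2 := by
  intro w hw M hM ε hε
  obtain ⟨B, hB⟩ := hM
  obtain ⟨K, η, n0, hη, hmain⟩ := h1 w hw ε hε
  set B' : ℝ := max B 0 + 2 with hB'
  have hB'2 : 2 ≤ B' := by have := le_max_right B 0; linarith
  have hBB' : B + 2 ≤ B' := by have := le_max_left B 0; linarith
  set K' : ℝ := max K 1 with hK'
  have hK'1 : 1 ≤ K' := le_max_right _ _
  have hKK' : K ≤ K' := le_max_left _ _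
  have hr0 : 0 < r32 B' := by have := self_le_r32 (x := B') (by linarith); linarith
  set c : ℝ := min 1 (1 / (3 * K' * r32 B')) with hc
  have hcpos : 0 < c := lt_min one_pos (by positivity)
  have hc1 : c ≤ 1 := min_le_left _ _
  have hc2 : 3 * c * K' * r32 B' ≤ 1 := by
    have h : c ≤ 1 / (3 * K' * r32 B') := min_le_right _ _
    rw [le_div_iff₀ (by positivity)] at h
    linarith
  refine ⟨c, hcpos, ?_⟩
  have ht35 : Filter.Tendsto (fun n : ℕ => (n : ℝ) ^ (3 / 5 : ℝ)) Filter.atTop Filter.atTop :=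
    (tendsto_rpow_atTop (by norm_num)).comp tendsto_natCast_atTop_atTop
  have ht25 : Filter.Tendsto (fun n : ℕ => (n : ℝ) ^ (2 / 5 : ℝ)) Filter.atTop Filter.atTop :=
    (tendsto_rpow_atTop (by norm_num)).comp tendsto_natCast_atTop_atTop
  filter_upwards [hB, ht35.eventually_ge_atTop (1 / c), ht25.eventually_ge_atTop (B' / η),
    Filter.eventually_ge_atTop (max n0 1)] with n hn hn35 hn25 hn1
  have hn0 : n0 ≤ n := le_trans (le_max_left _ _) hn1
  have hn1' : 1 ≤ n := le_trans (le_max_right _ _) hn1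
  have hnr : (1 : ℝ) ≤ n := by exact_mod_cast hn1'
  have hnpos : (0 : ℝ) < n := by linarith
  have hs := rpow_split hnpos
  have hr := r32_rpow hnpos
  set p : ℝ := (n : ℝ) ^ (3 / 5 : ℝ) with hp
  set q : ℝ := (n : ℝ) ^ (2 / 5 : ℝ) with hq
  have hp1 : 1 ≤ c * p := by rwa [div_le_iff₀' hcpos] at hn35
  have hppos : 0 < p := by nlinarith
  have hqη : B' ≤ η * q := by rwa [div_le_iff₀' hη] at hn25
  have hnη : B' * p ≤ η * n := by rw [← hs]; nlinarith
  have habs : |(M n : ℝ)| ≤ η * n := by nlinarith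
  refine hmain n (M n) hn0 habs (c * p) hp1 (by nlinarith) ?_
  intro t ht h1t
  have h1t' : (1 : ℝ) ≤ (t : ℝ) + M n := by exact_mod_cast h1t
  have hMle : (M n : ℝ) ≤ B * p := le_trans (le_abs_self _) hn
  have htM : (t : ℝ) + M n ≤ B' * p := by nlinarith
  have hx : q / B' ≤ (n : ℝ) / (t + M n) := by
    rw [div_le_div_iff₀ (by linarith) (by linarith), ← hs]
    have hqpos : 0 ≤ q := by positivity
    nlinarith
  have h2 := r32_mono (by positivity) hx
  have h3 : r32 (q / B') * r32 B' = p := by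
    rw [← r32_mul (by positivity), div_mul_cancel₀ _ (by linarith), hr]
  have h4 : K * (t + 1) ≤ r32 (q / B') := by
    have h5 : K' * (t + 1) * r32 B' ≤ r32 (q / B') * r32 B' := by
      rw [h3]
      have h6 : (t : ℝ) + 1 ≤ 3 * (c * p) := by linarith
      calc K' * (t + 1) * r32 B' ≤ K' * (3 * (c * p)) * r32 B' := by
            apply mul_le_mul_of_nonneg_right _ hr0.le
            exact mul_le_mul_of_nonneg_left h6 (by linarith)
        _ = (3 * c * K' * r32 B') * p := by ring
        _ ≤ 1 * p := mul_le_mul_of_nonneg_right hc2 hppos.le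
        _ = p := one_mul p
    have h7 : K' * ((t : ℝ) + 1) ≤ r32 (q / B') := le_of_mul_le_mul_right h5 hr0
    have h8 : K * ((t : ℝ) + 1) ≤ K' * (t + 1) :=
      mul_le_mul_of_nonneg_right hKK' (by positivity)
    linarith
  linarith

end GiantSurf57
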