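import Pool.Agent.GiantSurf57.StmtsTop

open scoped Classical
open Finset

namespace GiantSurf57

namespace PkgR3

theorem r32_mono {x y : ℝ} (hx : 0 ≤ x) (h : x ≤ y) : r32 x ≤ r32 y := by
  unfold r32
  exact mul_le_mul h (Real.sqrt_le_sqrt h) (Real.sqrt_nonneg _) (hx.trans h)

theorem le_r32 {x : ℝ} (hx : 1 ≤ x) : x ≤ r32 x := by
  unfold r32
  have h1 : 1 ≤ √x := by
    rw [show (1 : ℝ) = √1 by simp]
    exact Real.sqrt_le_sqrt hx
  nlinarith

theorem r32_half {x : ℝ} (hx : 0 ≤ x) : r32 x / 4 ≤ r32 (x / 2) := by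
  unfold r32
  have h1 : √x / 2 ≤ √(x / 2) := by
    apply Real.le_sqrt_of_sq_le
    rw [div_pow, Real.sq_sqrt hx]
    linarith
  have h2 : x * √x / 4 = x / 2 * (√x / 2) := by ring
  rw [h2]
  exact mul_le_mul_of_nonneg_left h1 (by linarith)

theorem r32_rpow {x : ℝ} (hx : 0 ≤ x) : r32 (x ^ (2 / 5 : ℝ)) = x ^ (3 / 5 : ℝ) := by
  unfold r32
  rw [Real.sqrt_eq_rpow, ← Real.rpow_mul hx]
  rcases hx.eq_or_lt with h | h
  · rw [← h, Real.zero_rpow (by norm_num), Real.zero_rpow (by norm_num)]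
    simp
  · rw [← Real.rpow_add h]
    norm_num

end PkgR3

open PkgR3 in
theorem pkgR3 (hXR : S_XR) (hXa : S_Xa) : S_R3 := by
  intro w hw M hM0 hM1
  -- facts valid eventually
  have hpow : Filter.Tendsto (fun n : ℕ => (n : ℝ) ^ (3 / 5 : ℝ)) Filter.atTop Filter.atTop :=
    (tendsto_rpow_atTop (by norm_num)).comp tendsto_natCast_atTop_atTop
  have evM : ∀ᶠ n : ℕ in Filter.atTop, (n : ℝ) ^ (3 / 5 : ℝ) ≤ M n := by
    filter_upwards [hM1.eventually_ge_atTop 1, Filter.eventually_gt_atTop 0] with n h1 h2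
    have h3 : (0 : ℝ) < (n : ℝ) ^ (3 / 5 : ℝ) := Real.rpow_pos_of_pos (by exact_mod_cast h2) _
    rw [le_div_iff₀ h3, one_mul] at h1
    exact h1
  have evA : ∀ A : ℝ, ∀ᶠ n : ℕ in Filter.atTop, A ≤ M n := by
    intro A
    filter_upwards [evM, hpow.eventually_ge_atTop A] with n h1 h2
    linarith
  have evη : ∀ η : ℝ, 0 < η → ∀ᶠ n : ℕ in Filter.atTop, |(M n : ℝ)| ≤ η * n := by
    intro η hη
    have h1 : ∀ᶠ n : ℕ in Filter.atTop, |(M n : ℝ) / n| < η := by
      have := hM0.abs
      rw [abs_zero] at this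
      exact this.eventually_lt_const hη
    filter_upwards [h1, Filter.eventually_gt_atTop 0] with n h2 h3
    have h4 : (0 : ℝ) < n := by exact_mod_cast h3
    rw [abs_div, abs_of_pos h4, div_lt_iff₀ h4] at h2
    exact h2.le
  refine ⟨?_, ?_⟩
  · obtain ⟨C, η, n0, hC, hη, H⟩ := hXR w hw
    refine ⟨C ^ 2, ?_⟩
    filter_upwards [evA C, evη η hη, evη 1 one_pos, Filter.eventually_ge_atTop n0,
      Filter.eventually_gt_atTop 0] with n h1 h2 h3 h4 h5
    have hn : (0 : ℝ) < n := by exact_mod_cast h5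
    have hMpos : (0 : ℝ) < M n := by linarith
    have hMn : (M n : ℝ) ≤ n := by
      have := (le_abs_self _).trans h3
      linarith
    have hx : 1 ≤ (n : ℝ) / M n := by
      rw [le_div_iff₀ hMpos]
      linarith
    have hr : 1 ≤ r32 ((n : ℝ) / M n) := hx.trans (le_r32 hx)
    have h6 := (H n (M n) h4 h2).2 (C * r32 ((n : ℝ) / M n)) (by nlinarith) ?_
    · calc _ ≤ _ := h6
        _ = _ := by ring
    · intro t ht
      have ht0 : (0 : ℝ) ≤ t := Nat.cast_nonneg t
      refine ⟨by linarith, ?_⟩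
      refine le_trans ?_ ht
      apply mul_le_mul_of_nonneg_left _ (by linarith)
      apply r32_mono (by positivity)
      apply div_le_div_of_nonneg_left hn.le hMpos
      linarith
  · intro ε hε
    obtain ⟨K, η, n0, hη, H⟩ := hXa w hw ε hε
    set K' : ℝ := max K 1 with hK'
    have hK1 : 1 ≤ K' := le_max_right _ _
    have hKK : K ≤ K' := le_max_left _ _
    set c : ℝ := 1 / (12 * K') with hc
    have hcpos : 0 < c := by positivity
    have hc2 : 2 * c ≤ 1 := by
      rw [hc, mul_one_div, div_le_one (by positivity)]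
      linarith
    refine ⟨c, hcpos, ?_⟩
    filter_upwards [evM, evA 1, evη η hη, evη 1 one_pos, evη c hcpos,
      Filter.eventually_ge_atTop n0, Filter.eventually_gt_atTop 0] with n h0 h1 h2 h3 h3' h4 h5
    have hn : (0 : ℝ) < n := by exact_mod_cast h5
    have hMpos : (0 : ℝ) < M n := by linarith
    have hMn : (M n : ℝ) ≤ n := by
      have := (le_abs_self _).trans h3
      linarith
    have hMη : (M n : ℝ) ≤ η * n := (le_abs_self _).trans h2
    have hMc : (M n : ℝ) ≤ c * n := (le_abs_self _).trans h3'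
    have hx : 1 ≤ (n : ℝ) / M n := by
      rw [le_div_iff₀ hMpos]
      linarith
    have hx' : 1 / c ≤ (n : ℝ) / M n := by
      rw [div_le_div_iff₀ hcpos hMpos]
      linarith
    set x : ℝ := (n : ℝ) / M n with hxdef
    have hr1 : 1 ≤ c * r32 x := by
      have h6 := hx'.trans (le_r32 hx)
      rw [div_le_iff₀ hcpos] at h6
      linarith
    have hr0 : 0 ≤ r32 x := by
      have := hx.trans (le_r32 hx)
      linarith
    have hrM : r32 x ≤ M n := by
      refine le_trans ?_ h0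
      rw [← r32_rpow hn.le]
      apply r32_mono (by linarith)
      rw [hxdef, div_le_iff₀ hMpos]
      have h7 : (n : ℝ) = (n : ℝ) ^ (2 / 5 : ℝ) * (n : ℝ) ^ (3 / 5 : ℝ) := by
        rw [← Real.rpow_add hn]
        norm_num
      calc (n : ℝ) = (n : ℝ) ^ (2 / 5 : ℝ) * (n : ℝ) ^ (3 / 5 : ℝ) := h7
        _ ≤ _ := mul_le_mul_of_nonneg_left h0 (Real.rpow_nonneg hn.le _)
    have h2c : 2 * (c * r32 x) ≤ M n := by
      calc 2 * (c * r32 x) = (2 * c) * r32 x := by ring
        _ ≤ 1 * r32 x := mul_le_mul_of_nonneg_right hc2 hr0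
        _ ≤ _ := by linarith
    apply H n (M n) h4 h2 (c * r32 x) hr1 (by linarith)
    intro t ht _
    have ht0 : (0 : ℝ) ≤ t := Nat.cast_nonneg t
    have h8 : x / 2 ≤ (n : ℝ) / ((t : ℝ) + M n) := by
      rw [hxdef, div_div]
      apply div_le_div_of_nonneg_left hn.le (by linarith)
      linarith
    have h9 : r32 x / 4 ≤ r32 ((n : ℝ) / ((t : ℝ) + M n)) :=
      (r32_half (by linarith)).trans (r32_mono (by linarith) h8)
    refine le_trans ?_ h9
    calc K * ((t : ℝ) + 1) ≤ K' * ((t : ℝ) + 1) :=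
          mul_le_mul_of_nonneg_right hKK (by linarith)
      _ ≤ K' * (3 * (c * r32 x)) := by
          apply mul_le_mul_of_nonneg_left _ (by linarith)
          linarith
      _ = r32 x / 4 := by
          rw [hc]
          field_simp
          ring

end GiantSurf57
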