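import Pool.Agent.GiantSurf57.StmtsTop

open scoped Classical
open Finset

namespace GiantSurf57

namespace PkgT7

variable {G : SimpleGraph ℕ} {σ : Equiv.Perm (ℕ × ℕ)}

theorem app_inv (τ : Equiv.Perm (ℕ × ℕ)) (d : ℕ × ℕ) : τ (τ⁻¹ d) = d := by
  rw [← Equiv.Perm.mul_apply, mul_inv_cancel, Equiv.Perm.one_apply]

theorem dart_map (h : IsRot G σ) {x y : ℕ} (hd : G.Adj x y) :
    ∃ z, σ (x, y) = (x, z) ∧ G.Adj x z := by
  refine ⟨(σ (x, y)).2, ?_, ?_⟩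
  · exact Prod.ext (h.fst (x, y)) rfl
  · by_contra hn
    have h1 := h.fix x (σ (x, y)).2 hn
    have h2 : σ (x, y) = (x, (σ (x, y)).2) := Prod.ext (h.fst (x, y)) rfl
    have h3 : (x, y) = (x, (σ (x, y)).2) := by
      apply σ.injective
      rw [h1]
      exact h2
    have h4 : y = (σ (x, y)).2 := congrArg Prod.snd h3
    apply hn
    rw [← h4]
    exact hd

theorem dart_inv (h : IsRot G σ) {x y : ℕ} (hd : G.Adj x y) :
    ∃ z, σ⁻¹ (x, y) = (x, z) ∧ G.Adj x z := by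
  have h0 : σ (σ⁻¹ (x, y)) = (x, y) := app_inv σ (x, y)
  have h1 : (σ⁻¹ (x, y)).1 = x := by
    rw [← h.fst (σ⁻¹ (x, y)), h0]
  have h2 : σ⁻¹ (x, y) = (x, (σ⁻¹ (x, y)).2) := Prod.ext h1 rfl
  refine ⟨(σ⁻¹ (x, y)).2, h2, ?_⟩
  by_contra hn
  have h3 := h.fix x (σ⁻¹ (x, y)).2 hn
  rw [← h2, h0] at h3
  apply hn
  have h4 : y = (σ⁻¹ (x, y)).2 := congrArg Prod.snd h3
  rw [← h4]
  exact hd

theorem face_map (h : IsRot G σ) {d : ℕ × ℕ} (hd : G.Adj d.1 d.2) :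
    G.Adj (faceP σ d).1 (faceP σ d).2 ∧ G.Reachable d.1 (faceP σ d).1 := by
  obtain ⟨z, hz, hz'⟩ := dart_map h hd.symm
  have e : faceP σ d = (d.2, z) := hz
  rw [e]
  exact ⟨hz', hd.reachable⟩

theorem face_inv (h : IsRot G σ) {d : ℕ × ℕ} (hd : G.Adj d.1 d.2) :
    G.Adj ((faceP σ)⁻¹ d).1 ((faceP σ)⁻¹ d).2 ∧ G.Reachable d.1 ((faceP σ)⁻¹ d).1 := by
  obtain ⟨z, hz, hz'⟩ := dart_inv h hd
  have e : (faceP σ)⁻¹ d = (z, d.1) := by
    rw [Equiv.Perm.inv_eq_iff_eq]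
    change d = σ (d.1, z)
    rw [← hz, app_inv]
  rw [e]
  exact ⟨hz'.symm, hz'.reachable⟩

end PkgT7

/-- T0. -/
theorem pkgT0 : ∀ g, Emb g (⊥ : SimpleGraph ℕ) := by
  intro g
  refine ⟨1, ⟨fun x y _ => rfl, fun d => rfl, fun x y z h => absurd h (by simp)⟩, ?_⟩
  have h1 : bigComps (⊥ : SimpleGraph ℕ) = ∅ := by
    rw [Set.eq_empty_iff_forall_notMem]
    rintro C ⟨x, y, h, -⟩
    exact absurd h (by simp)
  rw [h1, Set.ncard_empty, SimpleGraph.edgeSet_bot, Set.ncard_empty]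
  omega

open PkgT7 in
/-- T7. -/
theorem pkgT7 : S_faceReach := by
  rintro G σ d e h hd ⟨n, rfl⟩
  induction n with
  | zero => exact ⟨hd, SimpleGraph.Reachable.refl _⟩
  | succ n ih =>
    have h1 := face_map h ih.1
    have e1 : ((faceP σ) ^ ((n : ℤ) + 1)) d = faceP σ (((faceP σ) ^ (n : ℤ)) d) := by
      rw [zpow_add, zpow_one, ← Equiv.Perm.mul_apply, ← zpow_one_add, ← zpow_add_one, add_comm]
    rw [e1]
    exact ⟨h1.1, ih.2.trans h1.2⟩
  | pred n ih =>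
    have h1 := face_inv h ih.1
    have e1 : ((faceP σ) ^ (-(n : ℤ) - 1)) d = (faceP σ)⁻¹ (((faceP σ) ^ (-(n : ℤ))) d) := by
      rw [← Equiv.Perm.mul_apply, ← zpow_neg_one, ← zpow_add]
      congr 2
      ring
    rw [e1]
    exact ⟨h1.1, ih.2.trans h1.2⟩

open PkgT7 in
/-- T11. -/
theorem pkgT11 : S_pass := by
  intro G σ v x y h hN hxy
  have hx : G.Adj v x := by
    have : x ∈ G.neighborSet v := by rw [hN]; exact Or.inl rfl
    exact this
  have hy : G.Adj v y := by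
    have : y ∈ G.neighborSet v := by rw [hN]; exact Or.inr rfl
    exact this
  obtain ⟨z, hz, hz'⟩ := dart_map h hx
  have h1 : z ∈ G.neighborSet v := hz'
  rw [hN] at h1
  change σ (v, x) = (v, y)
  rcases h1 with h1 | h1
  · exfalso
    rw [h1] at hz
    obtain ⟨n, hn⟩ := h.cyc v x y hx hy
    have h2 : (σ ^ n) (v, x) = (v, x) := Equiv.Perm.zpow_apply_eq_self_of_apply_eq_self hz n
    rw [h2] at hn
    exact hxy (congrArg Prod.snd hn)
  · have h1' : z = y := h1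
    rw [hz, h1']

end GiantSurf57
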