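import Pool.Agent.GiantSurf57.StmtsTop

/-!
# Package T1 of `GiantSurf57`: multiplication of a permutation by a transposition
-/

open scoped Classical
open Finset

namespace GiantSurf57

namespace PkgT1

variable {α : Type*} [DecidableEq α]

open Equiv Equiv.Perm

/-- An induction principle: if `R` is an equivalence relation with `R e (ψ e)` for all `e`, then
`SameCycle ψ` is contained in `R`. -/
theorem sameCycle_imp {ψ : Perm α} {R : α → α → Prop} (hR : Equivalence R)
    (h : ∀ e, R e (ψ e)) {a b : α} (hab : ψ.SameCycle a b) : R a b := by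
  have hpos : ∀ (n : ℕ) (c : α), R c ((ψ ^ n) c) := by
    intro n
    induction n with
    | zero => intro c; simpa using hR.refl c
    | succ n ih =>
      intro c
      rw [pow_succ']
      exact hR.trans (ih c) (h _)
  obtain ⟨i, rfl⟩ := hab
  rcases Int.eq_nat_or_neg i with ⟨n, rfl | rfl⟩
  · simpa using hpos n a
  · have := hpos n ((ψ ^ (-(n : ℤ))) a)
    rw [← zpow_natCast, ← Perm.mul_apply, ← zpow_add] at this
    simp only [add_neg_cancel, zpow_zero, Perm.coe_one, id_eq] at this
    exact hR.symm this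

theorem sameCycle_equivalence (φ : Perm α) : Equivalence φ.SameCycle :=
  ⟨fun a => SameCycle.refl φ a, fun h => h.symm, fun h h' => h.trans h'⟩

/-- A point of a finite invariant set is periodic. -/
theorem exists_pow_eq_self {φ : Perm α} {D : Set α} (hD : D.Finite) (hinv : ∀ d ∈ D, φ d ∈ D)
    {x : α} (hx : x ∈ D) : ∃ n : ℕ, 0 < n ∧ (φ ^ n) x = x := by
  have hmem : ∀ n : ℕ, (φ ^ n) x ∈ D := by
    intro n
    induction n with
    | zero => simpa using hx
    | succ n ih => rw [pow_succ']; exact hinv _ ih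
  obtain ⟨i, -, j, -, hne, hij⟩ := Set.Infinite.exists_ne_map_eq_of_mapsTo
    (s := (Set.univ : Set ℕ)) (t := D) (f := fun n => (φ ^ n) x) Set.infinite_univ
    (fun n _ => hmem n) hD
  wlog hlt : i < j generalizing i j
  · exact this j i hne.symm hij.symm (by omega)
  refine ⟨j - i, by omega, ?_⟩
  have h1 : (φ ^ j) x = (φ ^ i) ((φ ^ (j - i)) x) := by
    rw [← Perm.mul_apply, ← pow_add]
    congr 2
    omega
  have h2 : (φ ^ i) x = (φ ^ i) ((φ ^ (j - i)) x) := by
    rw [← h1]; exact hij
  exact ((φ ^ i).injective h2).symm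

/-- In a finite invariant set every point of a cycle is a natural power. -/
theorem exists_nat_pow {φ : Perm α} {D : Set α} (hD : D.Finite) (hinv : ∀ d ∈ D, φ d ∈ D)
    {x y : α} (hx : x ∈ D) (hxy : φ.SameCycle x y) : ∃ n : ℕ, (φ ^ n) x = y := by
  obtain ⟨m, hm, hmx⟩ := exists_pow_eq_self hD hinv hx
  obtain ⟨i, rfl⟩ := hxy
  have hmx' : ∀ k : ℤ, (φ ^ ((m : ℤ) * k)) x = x := by
    intro k
    rw [zpow_mul]
    have : (φ ^ (m : ℤ)) x = x := by simpa using hmx
    exact Perm.zpow_apply_eq_self_of_apply_eq_self this k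
  have h0 : 0 ≤ i % (m : ℤ) := Int.emod_nonneg _ (by omega)
  refine ⟨(i % (m : ℤ)).toNat, ?_⟩
  have h1 : (φ ^ i) x = (φ ^ (i % (m : ℤ))) x := by
    conv_lhs => rw [← Int.emod_add_mul_ediv i (m : ℤ)]
    rw [zpow_add, Perm.mul_apply, hmx']
  rw [h1, ← zpow_natCast, Int.toNat_of_nonneg h0]

/-- Invariance under the permutation implies invariance under all integer powers (finite sets). -/
theorem mem_of_sameCycle {φ : Perm α} {D : Set α} (hD : D.Finite) (hinv : ∀ d ∈ D, φ d ∈ D)
    {x y : α} (hx : x ∈ D) (hxy : φ.SameCycle x y) : y ∈ D := by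
  obtain ⟨n, rfl⟩ := exists_nat_pow hD hinv hx hxy
  clear hxy
  induction n with
  | zero => simpa using hx
  | succ n ih => rw [pow_succ']; exact hinv _ ih

/-- Splitting: if `x`, `y` are in the same cycle of `φ`, they are not in the same cycle of
`φ * swap x y`. -/
theorem split {φ : Perm α} {D : Set α} (hD : D.Finite) (hinv : ∀ d ∈ D, φ d ∈ D)
    {x y : α} (hx : x ∈ D) (hne : x ≠ y) (hxy : φ.SameCycle x y) :
    ¬ (φ * swap x y).SameCycle x y := by
  have hex := exists_nat_pow hD hinv hx hxy
  let k := Nat.find hex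
  have hk : (φ ^ k) x = y := Nat.find_spec hex
  have hmin : ∀ m, m < k → (φ ^ m) x ≠ y := fun m hm => Nat.find_min hex hm
  have hk0 : 0 < k := by
    rcases Nat.eq_zero_or_pos k with h | h
    · rw [h] at hk; exact absurd (by simpa using hk) hne
    · exact h
  have hper : ∀ i, 0 < i → i ≤ k → (φ ^ i) x ≠ x := by
    intro i hi hik h
    have : (φ ^ (k - i)) x = y := by
      have h3 : (φ ^ k) x = (φ ^ (k - i)) ((φ ^ i) x) := by
        rw [← Perm.mul_apply, ← pow_add]; congr 2; omega
      rw [h] at h3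
      rw [← h3, hk]
    exact hmin (k - i) (by omega) this
  let A : Set α := {e | ∃ i : ℕ, 0 < i ∧ i ≤ k ∧ (φ ^ i) x = e}
  have hAfin : A.Finite := by
    refine Set.Finite.subset ((Set.finite_Icc 1 k).image (fun i => (φ ^ i) x)) ?_
    rintro e ⟨i, h1, h2, rfl⟩
    exact ⟨i, ⟨h1, h2⟩, rfl⟩
  have hAinv : ∀ d ∈ A, (φ * swap x y) d ∈ A := by
    rintro e ⟨i, h1, h2, rfl⟩
    rcases Nat.lt_or_ge i k with h3 | h3
    · have hi : (φ ^ i) x ≠ y := hmin i h3
      have hi' : (φ ^ i) x ≠ x := hper i h1 h2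
      refine ⟨i + 1, by omega, by omega, ?_⟩
      rw [Perm.mul_apply, swap_apply_of_ne_of_ne hi' hi, pow_succ', Perm.mul_apply]
    · have hik : i = k := le_antisymm h2 h3
      subst hik
      refine ⟨1, by omega, by omega, ?_⟩
      rw [hk, Perm.mul_apply, swap_apply_right, pow_one]
  intro hcon
  have hyA : y ∈ A := ⟨k, hk0, le_refl _, hk⟩
  have hxA : x ∈ A := mem_of_sameCycle hAfin hAinv hyA hcon.symm
  obtain ⟨i, h1, h2, h3⟩ := hxA
  exact hper i h1 h2 h3

/-- Merging: if `x`, `y` are in different cycles of `φ`, they are in the same cycle of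
`φ * swap x y`. -/
theorem merge {φ : Perm α} {D : Set α} (hD : D.Finite) (hinv : ∀ d ∈ D, φ d ∈ D)
    {x y : α} (hy : y ∈ D) (hxy : ¬ φ.SameCycle x y) :
    (φ * swap x y).SameCycle x y := by
  have hex := exists_pow_eq_self hD hinv hy
  let n := Nat.find hex
  have hn : 0 < n ∧ (φ ^ n) y = y := Nat.find_spec hex
  have hmin : ∀ m, m < n → ¬ (0 < m ∧ (φ ^ m) y = y) := fun m hm => Nat.find_min hex hm
  have key : ∀ i : ℕ, 0 < i → i ≤ n → (φ * swap x y).SameCycle x ((φ ^ i) y) := by
    intro i
    induction i with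
    | zero => intro h; omega
    | succ i ih =>
      intro _ hi
      rcases Nat.eq_zero_or_pos i with h0 | h0
      · subst h0
        have : (φ ^ (0 + 1)) y = (φ * swap x y) x := by
          rw [Perm.mul_apply, swap_apply_left]; simp
        rw [this]
        exact (sameCycle_apply_right.mpr (SameCycle.refl _ _))
      · have h1 := ih h0 (by omega)
        have hne1 : (φ ^ i) y ≠ y := fun h => hmin i (by omega) ⟨h0, h⟩
        have hne2 : (φ ^ i) y ≠ x := by
          intro h
          apply hxy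
          refine SameCycle.symm ⟨(i : ℤ), ?_⟩
          simpa using h
        have h2 : (φ ^ (i + 1)) y = (φ * swap x y) ((φ ^ i) y) := by
          rw [Perm.mul_apply, swap_apply_of_ne_of_ne hne2 hne1, pow_succ', Perm.mul_apply]
        rw [h2]
        exact sameCycle_apply_right.mpr h1
  have := key n hn.1 (le_refl _)
  rwa [hn.2] at this

theorem mem_orb {φ : Perm α} {d e : α} : e ∈ orb φ d ↔ φ.SameCycle d e := Iff.rfl

theorem orb_eq_iff {φ : Perm α} {d e : α} : orb φ d = orb φ e ↔ φ.SameCycle d e := by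
  constructor
  · intro h
    have : e ∈ orb φ e := SameCycle.refl _ _
    rw [← h] at this
    exact this
  · intro h
    ext f
    exact ⟨fun hf => h.symm.trans hf, fun hf => h.trans hf⟩

/-- The relation generated by `SameCycle φ` and `(x, y)`. -/
def Rel (φ : Perm α) (x y a b : α) : Prop :=
  φ.SameCycle a b ∨ ((φ.SameCycle a x ∨ φ.SameCycle a y) ∧ (φ.SameCycle b x ∨ φ.SameCycle b y))

theorem rel_equivalence (φ : Perm α) (x y : α) : Equivalence (Rel φ x y) := by
  refine ⟨fun a => Or.inl (SameCycle.refl _ _), ?_, ?_⟩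
  · rintro a b (h | ⟨h1, h2⟩)
    · exact Or.inl h.symm
    · exact Or.inr ⟨h2, h1⟩
  · rintro a b c (h | ⟨h1, h2⟩) (h' | ⟨h1', h2'⟩)
    · exact Or.inl (h.trans h')
    · refine Or.inr ⟨?_, h2'⟩
      rcases h1' with h1' | h1'
      · exact Or.inl (h.trans h1')
      · exact Or.inr (h.trans h1')
    · refine Or.inr ⟨h1, ?_⟩
      rcases h2 with h2 | h2
      · exact Or.inl (h'.symm.trans h2)
      · exact Or.inr (h'.symm.trans h2)
    · exact Or.inr ⟨h1, h2'⟩

theorem rel_of_sameCycle {φ : Perm α} {x y a b : α} (h : (φ * swap x y).SameCycle a b) :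
    Rel φ x y a b := by
  refine sameCycle_imp (rel_equivalence φ x y) ?_ h
  intro e
  rw [Perm.mul_apply]
  by_cases hx : e = x
  · subst hx
    rw [swap_apply_left]
    exact Or.inr ⟨Or.inl (SameCycle.refl _ _), Or.inr (sameCycle_apply_left.mpr (SameCycle.refl _ _))⟩
  · by_cases hy : e = y
    · subst hy
      rw [swap_apply_right]
      exact Or.inr ⟨Or.inr (SameCycle.refl _ _),
        Or.inl (sameCycle_apply_left.mpr (SameCycle.refl _ _))⟩
    · rw [swap_apply_of_ne_of_ne hx hy]
      exact Or.inl (sameCycle_apply_right.mpr (SameCycle.refl _ _))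

theorem mul_swap_mul_swap (φ : Perm α) (x y : α) : φ * swap x y * swap x y = φ := by
  rw [mul_assoc, swap_mul_self, mul_one]

/-- If `x`, `y` are in the same cycle of `φ * swap x y` then its cycles are the classes of
`Rel φ x y`. -/
theorem sameCycle_iff_rel {φ : Perm α} {x y : α} (h : (φ * swap x y).SameCycle x y) {a b : α} :
    (φ * swap x y).SameCycle a b ↔ Rel φ x y a b := by
  constructor
  · exact rel_of_sameCycle
  · have hle : ∀ {c d : α}, φ.SameCycle c d → (φ * swap x y).SameCycle c d := by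
      intro c d hcd
      have h1 : Rel (φ * swap x y) x y c d := by
        apply rel_of_sameCycle
        rwa [mul_swap_mul_swap]
      rcases h1 with h1 | ⟨h1, h2⟩
      · exact h1
      · have h3 : (φ * swap x y).SameCycle c x := by
          rcases h1 with h1 | h1
          · exact h1
          · exact h1.trans h.symm
        have h4 : (φ * swap x y).SameCycle d x := by
          rcases h2 with h2 | h2
          · exact h2
          · exact h2.trans h.symm
        exact h3.trans h4.symm
    rintro (h1 | ⟨h1, h2⟩)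
    · exact hle h1
    · have h3 : (φ * swap x y).SameCycle a x := by
        rcases h1 with h1 | h1
        · exact hle h1
        · exact (hle h1).trans h.symm
      have h4 : (φ * swap x y).SameCycle b x := by
        rcases h2 with h2 | h2
        · exact hle h2
        · exact (hle h2).trans h.symm
      exact h3.trans h4.symm

/-- Counting in the merging case. -/
theorem count_merge {φ : Perm α} {D : Set α} (hD : D.Finite) (hinv : ∀ d ∈ D, φ d ∈ D)
    {x y : α} (hx : x ∈ D) (hy : y ∈ D) (hxy : ¬ φ.SameCycle x y) :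
    {f | ∃ d ∈ D, f = orb (φ * swap x y) d}.ncard + 1 = {f | ∃ d ∈ D, f = orb φ d}.ncard := by
  have hm := merge hD hinv hy hxy
  set F : Set (Set α) := {f | ∃ d ∈ D, f = orb φ d} with hF
  set G : Set (Set α) := {f | ∃ d ∈ D, f = orb (φ * swap x y) d} with hG
  have hFfin : F.Finite := by
    refine Set.Finite.subset (hD.image (orb φ)) ?_
    rintro f ⟨d, hd, rfl⟩
    exact ⟨d, hd, rfl⟩
  have hAB : orb φ x ≠ orb φ y := fun h => hxy (orb_eq_iff.mp h)
  have hAF : orb φ x ∈ F := ⟨x, hx, rfl⟩
  have hBF : orb φ y ∈ F := ⟨y, hy, rfl⟩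
  have horb1 : ∀ d, (φ.SameCycle d x ∨ φ.SameCycle d y) →
      orb (φ * swap x y) d = orb φ x ∪ orb φ y := by
    intro d hd
    ext e
    rw [mem_orb, sameCycle_iff_rel hm]
    constructor
    · rintro (h | ⟨_, h⟩)
      · rcases hd with hd | hd
        · exact Or.inl (hd.symm.trans h)
        · exact Or.inr (hd.symm.trans h)
      · rcases h with h | h
        · exact Or.inl h.symm
        · exact Or.inr h.symm
    · rintro (h | h)
      · exact Or.inr ⟨hd, Or.inl (SameCycle.symm h)⟩
      · exact Or.inr ⟨hd, Or.inr (SameCycle.symm h)⟩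
  have horb2 : ∀ d, ¬ (φ.SameCycle d x ∨ φ.SameCycle d y) →
      orb (φ * swap x y) d = orb φ d := by
    intro d hd
    ext e
    rw [mem_orb, sameCycle_iff_rel hm, mem_orb]
    constructor
    · rintro (h | ⟨h, _⟩)
      · exact h
      · exact absurd h hd
    · exact Or.inl
  have hGeq : G = insert (orb φ x ∪ orb φ y) ((F \ {orb φ x}) \ {orb φ y}) := by
    ext f
    constructor
    · rintro ⟨d, hd, rfl⟩
      by_cases h : φ.SameCycle d x ∨ φ.SameCycle d y
      · rw [horb1 d h]; exact Set.mem_insert _ _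
      · rw [horb2 d h]
        refine Set.mem_insert_of_mem _ ⟨⟨⟨d, hd, rfl⟩, ?_⟩, ?_⟩
        · intro h'
          exact h (Or.inl (orb_eq_iff.mp h'))
        · intro h'
          exact h (Or.inr (orb_eq_iff.mp h'))
    · rintro (rfl | ⟨⟨⟨d, hd, rfl⟩, h1⟩, h2⟩)
      · exact ⟨x, hx, (horb1 x (Or.inl (SameCycle.refl _ _))).symm⟩
      · refine ⟨d, hd, (horb2 d ?_).symm⟩
        rintro (h | h)
        · exact h1 (orb_eq_iff.mpr h)
        · exact h2 (orb_eq_iff.mpr h)
  have hnot : (orb φ x ∪ orb φ y) ∉ ((F \ {orb φ x}) \ {orb φ y}) := by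
    rintro ⟨⟨⟨d, _, hd⟩, h1⟩, h2⟩
    have hx' : x ∈ orb φ d := by rw [← hd]; exact Or.inl (SameCycle.refl _ _)
    apply h1
    show orb φ x ∪ orb φ y = orb φ x
    rw [hd]
    exact orb_eq_iff.mpr hx'
  have hfin' : ((F \ {orb φ x}) \ {orb φ y}).Finite := (hFfin.sdiff).sdiff
  rw [hGeq, Set.ncard_insert_of_notMem hnot hfin']
  have h1 : (F \ {orb φ x}).ncard + 1 = F.ncard :=
    Set.ncard_sdiff_singleton_add_one hAF hFfin
  have h2 : ((F \ {orb φ x}) \ {orb φ y}).ncard + 1 = (F \ {orb φ x}).ncard :=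
    Set.ncard_sdiff_singleton_add_one ⟨hBF, fun h => hAB h.symm⟩ hFfin.sdiff
  omega

end PkgT1

open PkgT1 in
/-- T1. Multiplication by a transposition. -/
theorem pkgT1 : S_swap := by
  intro φ D hD hinv x hx y hy hne
  refine ⟨fun h => ?_, fun h => count_merge hD hinv hx hy h⟩
  have hinv' : ∀ d ∈ D, (φ * Equiv.swap x y) d ∈ D := by
    intro d hd
    rw [Equiv.Perm.mul_apply]
    apply hinv
    by_cases h1 : d = x
    · subst h1; rwa [Equiv.swap_apply_left]
    · by_cases h2 : d = y
      · subst h2; rwa [Equiv.swap_apply_right]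
      · rwa [Equiv.swap_apply_of_ne_of_ne h1 h2]
  have h1 := count_merge hD hinv' hx hy (split hD hinv hx hne h)
  rw [mul_swap_mul_swap] at h1
  exact h1.symm

end GiantSurf57
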