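import Pool.Agent.GiantSurf57.StmtsTop
import Pool.Agent.GiantSurf57.Basic

/-!
# Packages T12, T13 of the project `GiantSurf57`
-/

open scoped Classical
open Finset

namespace GiantSurf57

namespace PkgT12

theorem del_all (h : S_delOK) (g : ℕ) (S : Finset ℕ) (G : SimpleGraph ℕ) (n : ℕ) :
    ∀ (H : SimpleGraph ℕ) (σ : Equiv.Perm (ℕ × ℕ)), GenOK g H σ S → G ≤ H →
      (H.edgeSet \ G.edgeSet).ncard = n → ∃ τ, GenOK g G τ S := by
  induction n with
  | zero =>
    intro H σ hH hle hn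
    have hf := edgeSet_finite hH.on
    have h0 : H.edgeSet \ G.edgeSet = ∅ := by
      rwa [Set.ncard_eq_zero (hf.subset Set.sdiff_subset)] at hn
    have h1 : H ≤ G := by
      rw [← SimpleGraph.edgeSet_subset_edgeSet]
      exact Set.sdiff_eq_empty.mp h0
    have : G = H := le_antisymm hle h1
    subst this
    exact ⟨σ, hH⟩
  | succ n ih =>
    intro H σ hH hle hn
    have hf := edgeSet_finite hH.on
    have hne : (H.edgeSet \ G.edgeSet).Nonempty := by
      rw [Set.nonempty_iff_ne_empty]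
      intro h0
      rw [h0, Set.ncard_empty] at hn
      omega
    obtain ⟨e, he, heG⟩ := hne
    induction e with
    | h x y =>
      have hxy : H.Adj x y := he
      have hG : ¬ G.Adj x y := fun h' => heG h'
      obtain ⟨τ, hτ⟩ := h g S H σ x y hH hxy
      refine ih (H \ SimpleGraph.edge x y) τ hτ ?_ ?_
      · intro a b hab
        rw [SimpleGraph.sdiff_adj, SimpleGraph.edge_adj]
        refine ⟨hle hab, ?_⟩
        rintro ⟨⟨rfl, rfl⟩ | ⟨rfl, rfl⟩, _⟩
        · exact hG hab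
        · exact hG hab.symm
      · rw [SimpleGraph.edgeSet_sdiff, edgeSet_edge_of_ne hxy.ne]
        have e1 : (H.edgeSet \ {s(x, y)}) \ G.edgeSet = (H.edgeSet \ G.edgeSet) \ {s(x, y)} := by
          ext e
          simp only [Set.mem_sdiff, Set.mem_singleton_iff]
          tauto
        rw [e1]
        have := Set.ncard_sdiff_singleton_add_one (a := s(x, y)) (s := H.edgeSet \ G.edgeSet)
          ⟨he, heG⟩ (hf.subset Set.sdiff_subset)
        omega

theorem exists_corner (G : SimpleGraph ℕ) (x y : ℕ) : ∃ a, Corner G x y a := by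
  by_cases h : ∀ z, ¬ G.Adj x z
  · exact ⟨(x, y), Or.inl ⟨rfl, h⟩⟩
  · push Not at h
    obtain ⟨z, hz⟩ := h
    exact ⟨(x, z), Or.inr ⟨rfl, hz⟩⟩

end PkgT12

theorem pkgT12 (h1 : S_embS) (h2 : S_delOK) : S_cMono := by
  intro g G H hf hle hE
  obtain ⟨S, _, hS⟩ := exists_graphsOn hf ∅
  obtain ⟨σ, hσ⟩ := (h1 g S H hS).mp hE
  obtain ⟨τ, hτ⟩ := PkgT12.del_all h2 g S G _ H σ hσ hle rfl
  exact (h1 g S G hτ.on).mpr ⟨τ, hτ⟩

theorem pkgT13 (h1 : S_embS) (h2 : S_joinOK) : S_cJoin := by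
  intro g G x y hf hE hn
  obtain ⟨S, hxy, hS⟩ := exists_graphsOn hf {x, y}
  have hx : x ∈ S := hxy (by simp)
  have hy : y ∈ S := hxy (by simp)
  obtain ⟨σ, hσ⟩ := (h1 g S G hS).mp hE
  obtain ⟨a, ha⟩ := PkgT12.exists_corner G x y
  obtain ⟨b, hb⟩ := PkgT12.exists_corner G y x
  have := h2 g S G σ x y a b hσ hx hy hn ha hb
  exact (h1 g S _ this.on).mpr ⟨_, this⟩

end GiantSurf57
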