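import Pool.Agent.GiantSurf57.StmtsTop
import Pool.Agent.GiantSurf57.Basic

/-!
# Packages T14, T16, T17
-/

open scoped Classical
open Finset

namespace GiantSurf57

namespace PkgT14

theorem sup_edge_of_adj {G : SimpleGraph ℕ} {x y : ℕ} (h : G.Adj x y) :
    G ⊔ SimpleGraph.edge x y = G := by
  rw [sup_eq_left]
  exact (SimpleGraph.edge_le_iff _).2 (Or.inr h)

/-- The dart before a given dart in the rotation. -/
theorem pred_dart {G : SimpleGraph ℕ} {σ : Equiv.Perm (ℕ × ℕ)} (h : IsRot G σ) {x v : ℕ}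
    (hx : G.Adj x v) : (σ.symm (x, v)).1 = x ∧ G.Adj (σ.symm (x, v)).1 (σ.symm (x, v)).2 ∧
      faceP σ (σ.symm (x, v)).swap = (x, v) := by
  set a := σ.symm (x, v) with ha
  have h1 : σ a = (x, v) := by rw [ha, Equiv.apply_symm_apply]
  refine ⟨?_, ?_, ?_⟩
  · have := h.fst a
    rw [h1] at this
    exact this.symm
  · by_contra hn
    have h2 := h.fix a.1 a.2 hn
    have h3 : a = (x, v) := by
      rw [← h1]; exact h2.symm
    rw [h3] at hn
    exact hn hx
  · change σ ((Equiv.prodComm ℕ ℕ) a.swap) = (x, v)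
    rw [Equiv.prodComm_apply, Prod.swap_swap, h1]

theorem emb_of_same (hE : S_embS) (hS : S_sameOK) {g : ℕ} {S : Finset ℕ} {G : SimpleGraph ℕ}
    {σ : Equiv.Perm (ℕ × ℕ)} {x y u z : ℕ} (hG : G ∈ graphsOn S) (hσ : GenOK g G σ S)
    (hxy : x ≠ y) (hn : ¬ G.Adj x y) (hx : G.Adj x u) (hz : G.Adj z y)
    (hs : (faceP σ).SameCycle (x, u) (z, y)) : Emb g (G ⊔ SimpleGraph.edge x y) := by
  obtain ⟨h1, h2, h3⟩ := pred_dart hσ.rot hx
  have hxS : x ∈ S := adj_mem_left hG hx
  have hyS : y ∈ S := adj_mem_right hG hz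
  refine (hE g S _ (sup_edge_graphsOn hG hxS hyS)).2
    ⟨_, hS g S G σ x y (σ.symm (x, u)) (y, z) hσ hxy hn h1 h2 rfl hz.symm ?_⟩
  refine Equiv.Perm.SameCycle.trans ?_ hs
  have h4 : (faceP σ).SameCycle (σ.symm (x, u)).swap (faceP σ (σ.symm (x, u)).swap) :=
    (Equiv.Perm.sameCycle_apply_right).2 (Equiv.Perm.SameCycle.refl _ _)
  rw [h3] at h4
  exact h4

end PkgT14

open PkgT14

theorem pkgT14 (hE : S_embS) (hS : S_sameOK) (hP : S_pass) : S_cTri := by
  intro g G v x y hf hG hv hxy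
  by_cases hn : G.Adj x y
  · rw [sup_edge_of_adj hn]; exact hG
  · obtain ⟨S, -, hGS⟩ := exists_graphsOn hf ∅
    obtain ⟨σ, hσ⟩ := (hE g S G hGS).1 hG
    have h1 : G.Adj v x := by
      rw [← SimpleGraph.mem_neighborSet, hv]; simp
    have h2 : G.Adj v y := by
      rw [← SimpleGraph.mem_neighborSet, hv]; simp
    refine emb_of_same hE hS hGS hσ hxy hn h1.symm h2 ?_
    have h3 := hP G σ v x y hσ.rot hv hxy
    rw [← h3]
    exact (Equiv.Perm.sameCycle_apply_right).2 (Equiv.Perm.SameCycle.refl _ _)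

namespace PkgT16

theorem neighborSet_eq {G : SimpleGraph ℕ} {u x z : ℕ} (hd : deg G u = 2) (hx : G.Adj u x)
    (hz : G.Adj u z) (h : x ≠ z) : G.neighborSet u = {x, z} := by
  have hfin : (G.neighborSet u).Finite := by
    apply Set.finite_of_ncard_ne_zero
    unfold deg at hd
    omega
  symm
  apply Set.eq_of_subset_of_ncard_le _ _ hfin
  · intro w hw
    rcases hw with rfl | hw
    · exact hx
    · rw [Set.mem_singleton_iff] at hw
      rw [hw]
      exact hz
  · unfold deg at hd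
    rw [hd, Set.ncard_pair h]

theorem follow (hP : S_pass) {G : SimpleGraph ℕ} {σ : Equiv.Perm (ℕ × ℕ)} (hσ : IsRot G σ)
    {u y : ℕ} (w : (deg2G G).Walk u y) : ∀ {x : ℕ} (h : (deg2G G).Adj x u),
      (SimpleGraph.Walk.cons h w).IsPath →
      ∃ z, G.Adj z y ∧ (faceP σ).SameCycle (x, u) (z, y) := by
  induction w with
  | nil => intro x h _; exact ⟨x, h.1, Equiv.Perm.SameCycle.refl _ _⟩
  | @cons u u' y h' w' ih =>
    intro x h hp
    rw [SimpleGraph.Walk.cons_isPath_iff] at hp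
    obtain ⟨z, hz, hs⟩ := ih h' hp.1
    refine ⟨z, hz, Equiv.Perm.SameCycle.trans ?_ hs⟩
    have hne : x ≠ u' := by
      rintro rfl
      apply hp.2
      rw [SimpleGraph.Walk.support_cons]
      exact List.mem_cons_of_mem _ (SimpleGraph.Walk.start_mem_support _)
    have h3 := hP G σ u x u' hσ (neighborSet_eq h.2.2 h.1.symm h'.1 hne) hne
    rw [← h3]
    exact (Equiv.Perm.sameCycle_apply_right).2 (Equiv.Perm.SameCycle.refl _ _)

end PkgT16

open PkgT16

theorem pkgT16 (hE : S_embS) (hS : S_sameOK) (hP : S_pass) : S_cPath := by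
  intro g G x y hf hG hxy hr
  by_cases hn : G.Adj x y
  · rw [sup_edge_of_adj hn]; exact hG
  · obtain ⟨S, -, hGS⟩ := exists_graphsOn hf ∅
    obtain ⟨σ, hσ⟩ := (hE g S G hGS).1 hG
    obtain ⟨p, hp⟩ := hr.exists_isPath
    cases p with
    | nil => exact absurd rfl hxy
    | @cons _ u _ h w =>
      obtain ⟨z, hz, hs⟩ := follow hP hσ.rot w h hp
      exact emb_of_same hE hS hGS hσ hxy hn h.1 hz hs

theorem pkgT17 (hSub : S_cSub) (hPath : S_cPath) (hTri : S_cTri) : S_cEar := by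
  intro g G x y v hf hG hxy hr hv
  have hsupp : ∀ {a b : ℕ}, (deg2G G).Reachable a b → a ≠ b → a ∈ G.support := by
    intro a b hab hne
    obtain ⟨p⟩ := hab
    cases p with
    | nil => exact absurd rfl hne
    | cons h _ => exact ⟨_, h.1⟩
  have hvx : v ≠ x := by
    rintro rfl; exact hv (hsupp hr hxy)
  have hvy : v ≠ y := by
    rintro rfl; exact hv (hsupp hr.symm hxy.symm)
  by_cases hn : G.Adj x y
  · have h1 := hSub g G x y v hf hG hn hv
    set G2 := (G \ SimpleGraph.edge x y) ⊔ (SimpleGraph.edge x v ⊔ SimpleGraph.edge v y) with hG2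
    have hf2 : G2.edgeSet.Finite := by
      rw [hG2, ← sup_assoc]
      exact sup_edge_finite (sup_edge_finite (finite_of_le hf sdiff_le))
    have hnv : ∀ w, ¬ G.Adj v w := fun w hw => hv ⟨w, hw⟩
    have h2 : G2.neighborSet v = {x, y} := by
      ext w
      rw [SimpleGraph.mem_neighborSet, hG2]
      simp only [SimpleGraph.sup_adj, SimpleGraph.sdiff_adj, SimpleGraph.edge_adj,
        Set.mem_insert_iff, Set.mem_singleton_iff]
      constructor
      · rintro (h | h | h)
        · exact absurd h.1 (hnv w)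
        · rcases h.1 with ⟨h3, -⟩ | ⟨-, h3⟩
          · exact absurd h3 hvx
          · exact Or.inl h3
        · rcases h.1 with ⟨-, h3⟩ | ⟨h3, -⟩
          · exact Or.inr h3
          · exact absurd h3 hvy
      · rintro (rfl | rfl)
        · exact Or.inr (Or.inl (by simp [hvx]))
        · exact Or.inr (Or.inr (by simp [hvy]))
    have h3 := hTri g G2 v x y hf2 h1 h2 hxy
    have h4 : G2 ⊔ SimpleGraph.edge x y =
        G ⊔ (SimpleGraph.edge x v ⊔ SimpleGraph.edge v y) := by
      rw [hG2, sup_right_comm]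
      congr 1
      rw [sdiff_sup_self, sup_edge_of_adj hn]
    rw [h4] at h3
    exact h3
  · have h1 := hPath g G x y hf hG hxy hr
    have h2 : (G ⊔ SimpleGraph.edge x y).Adj x y := by
      rw [SimpleGraph.sup_adj, SimpleGraph.edge_adj]
      exact Or.inr ⟨Or.inl ⟨rfl, rfl⟩, hxy⟩
    have h3 : v ∉ (G ⊔ SimpleGraph.edge x y).support := by
      rintro ⟨w, hw⟩
      change (G ⊔ SimpleGraph.edge x y).Adj v w at hw
      rw [SimpleGraph.sup_adj, SimpleGraph.edge_adj] at hw
      rcases hw with hw | ⟨⟨h4, -⟩ | ⟨h4, -⟩, -⟩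
      · exact hv ⟨w, hw⟩
      · exact hvx h4
      · exact hvy h4
    have h4 := hSub g _ x y v (sup_edge_finite hf) h1 h2 h3
    have h5 : (G ⊔ SimpleGraph.edge x y) \ SimpleGraph.edge x y = G := by
      rw [sup_sdiff_right_self, _root_.sdiff_eq_self_iff_disjoint, disjoint_iff]
      ext a b
      simp only [SimpleGraph.inf_adj, SimpleGraph.edge_adj, SimpleGraph.bot_adj, iff_false]
      rintro ⟨⟨⟨rfl, rfl⟩ | ⟨rfl, rfl⟩, -⟩, h6⟩
      · exact hn h6
      · exact hn h6.symm
    rw [h5] at h4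
    exact h4

end GiantSurf57
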