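import Pool.Agent.GiantSurf57.StmtsTop
import Pool.Agent.GiantSurf57.Basic

open scoped Classical
open Finset

namespace GiantSurf57

namespace PkgT15

theorem sup_edge_adj (G : SimpleGraph ℕ) (x y a b : ℕ) :
    (G ⊔ SimpleGraph.edge x y).Adj a b ↔
      G.Adj a b ∨ ((x = a ∧ y = b ∨ x = b ∧ y = a) ∧ a ≠ b) := by
  rw [SimpleGraph.sup_adj, SimpleGraph.edge_adj]
  constructor
  · rintro (h | h)
    · exact Or.inl h
    · right
      obtain ⟨h1, h2⟩ := h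
      refine ⟨?_, h2⟩
      rcases h1 with ⟨h3, h4⟩ | ⟨h3, h4⟩
      · exact Or.inl ⟨h3.symm, h4.symm⟩
      · exact Or.inr ⟨h4.symm, h3.symm⟩
  · rintro (h | h)
    · exact Or.inl h
    · right
      obtain ⟨h1, h2⟩ := h
      refine ⟨?_, h2⟩
      rcases h1 with ⟨h3, h4⟩ | ⟨h3, h4⟩
      · exact Or.inl ⟨h3.symm, h4.symm⟩
      · exact Or.inr ⟨h4.symm, h3.symm⟩

theorem final_eq {G : SimpleGraph ℕ} {x y v : ℕ} (_hxy : x ≠ y) (hvx : v ≠ x) (hvy : v ≠ y) :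
    ((G ⊔ SimpleGraph.edge x v) ⊔ SimpleGraph.edge v y) \ SimpleGraph.edge x y =
      (G \ SimpleGraph.edge x y) ⊔ (SimpleGraph.edge x v ⊔ SimpleGraph.edge v y) := by
  ext a b
  simp only [SimpleGraph.sup_adj, SimpleGraph.sdiff_adj, SimpleGraph.edge_adj]
  constructor
  · rintro ⟨(h | h) | h, h2⟩
    · exact Or.inl ⟨h, h2⟩
    · exact Or.inr (Or.inl h)
    · exact Or.inr (Or.inr h)
  · rintro (⟨h, h2⟩ | h | h)
    · exact ⟨Or.inl (Or.inl h), h2⟩
    · refine ⟨Or.inl (Or.inr h), ?_⟩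
      omega
    · refine ⟨Or.inr h, ?_⟩
      omega

end PkgT15

open PkgT15 in
theorem pkgT15 (hE : S_embS) (hJ : S_joinOK) (hS : S_sameOK) (hD : S_delOK) : S_cSub := by
  intro g G x y v hfin hemb hadj hv
  have hxy : x ≠ y := hadj.ne
  have hvadj : ∀ z, ¬ G.Adj v z := fun z h => hv ⟨z, h⟩
  have hvx : v ≠ x := by
    rintro rfl
    exact hvadj _ hadj
  have hvy : v ≠ y := by
    rintro rfl
    exact hvadj _ hadj.symm
  obtain ⟨S, hTS, hGS⟩ := exists_graphsOn hfin {v}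
  have hvS : v ∈ S := hTS (by simp)
  have hxS : x ∈ S := adj_mem_left hGS hadj
  have hyS : y ∈ S := adj_mem_right hGS hadj
  obtain ⟨σ, hσ⟩ := (hE g S G hGS).mp hemb
  -- step 1
  have hnr : ¬ G.Reachable x v := by
    intro h
    obtain ⟨p⟩ := h.symm
    cases p with
    | nil => exact hvx rfl
    | cons h _ => exact hvadj _ h
  have h1 := hJ g S G σ x v (x, y) (v, x) hσ hxS hvS hnr (Or.inr ⟨rfl, hadj⟩)
    (Or.inl ⟨rfl, hvadj⟩)
  set G1 : SimpleGraph ℕ := G ⊔ SimpleGraph.edge x v with hG1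
  set σ1 : Equiv.Perm (ℕ × ℕ) := insR σ (x, y) (v, x) x v with hσ1
  have hσ1' : σ1 = σ * Equiv.swap (x, y) (x, v) := by
    rw [hσ1, insR, Equiv.swap_self]
    rfl
  have hA1 : ∀ a b, G1.Adj a b ↔ G.Adj a b ∨ ((x = a ∧ v = b ∨ x = b ∧ v = a) ∧ a ≠ b) :=
    fun a b => sup_edge_adj G x v a b
  have hrot1 := h1.rot
  -- the corner at y
  set b2 : ℕ × ℕ := σ1⁻¹ (y, x) with hb2
  have hb2' : σ1 b2 = (y, x) := by
    rw [hb2]
    exact σ1.apply_symm_apply (y, x)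
  have hb2fst : b2.1 = y := by
    have := hrot1.fst b2
    rw [hb2'] at this
    exact this.symm
  have hyx1 : G1.Adj y x := (hA1 y x).mpr (Or.inl hadj.symm)
  have hb2adj : G1.Adj b2.1 b2.2 := by
    by_contra hneg
    have h2 := hrot1.fix b2.1 b2.2 hneg
    have h3 : σ1 b2 = b2 := h2
    rw [hb2'] at h3
    rw [← h3] at hneg
    exact hneg hyx1
  have hvx1 : G1.Adj v x := (hA1 v x).mpr (Or.inr ⟨Or.inr ⟨rfl, rfl⟩, hvx⟩)
  have hvy1 : ¬ G1.Adj v y := by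
    rw [hA1]
    rintro (h | h)
    · exact hvadj _ h
    · omega
  -- same face
  have hf1 : faceP σ1 b2.swap = (y, x) := by
    change σ1 (Prod.swap b2.swap) = (y, x)
    rw [Prod.swap_swap]
    exact hb2'
  have hf2 : faceP σ1 (y, x) = (x, v) := by
    change σ1 (x, y) = (x, v)
    rw [hσ1', Equiv.Perm.mul_apply, Equiv.swap_apply_left]
    exact hσ.rot.fix x v (fun h => hvadj _ h.symm)
  have hsame : (faceP σ1).SameCycle (Prod.swap (v, x)) b2.swap := by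
    have h4 : (faceP σ1).SameCycle b2.swap (x, v) := by
      refine ⟨2, ?_⟩
      rw [zpow_ofNat, pow_two, Equiv.Perm.mul_apply, hf1, hf2]
    exact h4.symm
  have h2 := hS g S G1 σ1 v y (v, x) b2 h1 hvy hvy1 rfl hvx1 hb2fst hb2adj hsame
  have hxy2 : (G1 ⊔ SimpleGraph.edge v y).Adj x y :=
    (sup_edge_adj G1 v y x y).mpr (Or.inl ((hA1 x y).mpr (Or.inl hadj)))
  obtain ⟨τ, hτ⟩ := hD g S _ _ x y h2 hxy2
  rw [hG1, final_eq hxy hvx hvy] at hτ
  exact (hE g S _ hτ.on).mpr ⟨τ, hτ⟩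

end GiantSurf57
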