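import Pool.Agent.GiantSurf57.StmtsTop
import Pool.Agent.GiantSurf57.Basic

/-!
# Package T18 of the project `GiantSurf57`: splitting a vertex
-/

open scoped Classical
open Finset

namespace GiantSurf57

namespace PkgT18

theorem reach_isolated {G : SimpleGraph ℕ} {w y : ℕ} (hw : ∀ z, ¬ G.Adj w z)
    (h : G.Reachable w y) : y = w := by
  obtain ⟨p⟩ := h
  cases p with
  | nil => rfl
  | cons h' _ => exact absurd h' (hw _)

/-- Adding an isolated vertex to the ground set. -/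
theorem genOK_insert {g : ℕ} {G : SimpleGraph ℕ} {σ : Equiv.Perm (ℕ × ℕ)} {S : Finset ℕ} {w : ℕ}
    (h : GenOK g G σ S) (hw : w ∉ S) : GenOK g G σ (insert w S) := by
  have hiso : ∀ z, ¬ G.Adj w z := fun z hz => hw (adj_mem_left h.on hz)
  refine ⟨graphsOn_mono h.on (Finset.subset_insert _ _), h.rot, ?_⟩
  have e1 : comps G (insert w S) = insert {w} (comps G S) := by
    unfold comps
    rw [Finset.image_insert]
    congr 1
    · unfold compOf
      ext y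
      simp only [Finset.mem_filter, Finset.mem_insert, Finset.mem_singleton]
      constructor
      · rintro ⟨_, h2⟩
        exact reach_isolated hiso h2
      · rintro rfl
        exact ⟨Or.inl rfl, SimpleGraph.Reachable.refl _⟩
    · apply Finset.image_congr
      intro x hx
      have hx' : x ∈ S := hx
      unfold compOf
      ext y
      simp only [Finset.mem_filter, Finset.mem_insert]
      constructor
      · rintro ⟨rfl | h1, h2⟩
        · exact absurd (reach_isolated hiso h2.symm) (fun e => hw (e ▸ hx'))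
        · exact ⟨h1, h2⟩
      · rintro ⟨h1, h2⟩
        exact ⟨Or.inr h1, h2⟩
  have e2 : ({w} : Finset ℕ) ∉ comps G S := by
    intro h1
    unfold comps at h1
    rw [Finset.mem_image] at h1
    obtain ⟨x, hx, h2⟩ := h1
    have h3 : w ∈ compOf G S x := by rw [h2]; simp
    exact hw (Finset.mem_filter.mp h3).1
  have e3 : (comps G (insert w S)).card = (comps G S).card + 1 := by
    rw [e1, Finset.card_insert_of_notMem e2]
  have e4 : FS G σ (insert w S) = FS G σ S + 1 := by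
    unfold FS
    rw [Finset.filter_insert, if_pos hiso, Finset.card_insert_of_notMem]
    · ring
    · intro h1
      exact hw (Finset.mem_filter.mp h1).1
  have e5 : (insert w S).card = S.card + 1 := Finset.card_insert_of_notMem hw
  have := h.le
  rw [e3, e4, e5]
  omega

theorem rot_symm_fst {G : SimpleGraph ℕ} {σ : Equiv.Perm (ℕ × ℕ)} (h : IsRot G σ) (d : ℕ × ℕ) :
    (σ.symm d).1 = d.1 := by
  have := h.fst (σ.symm d)
  rw [Equiv.apply_symm_apply] at this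
  exact this.symm

theorem rot_adj {G : SimpleGraph ℕ} {σ : Equiv.Perm (ℕ × ℕ)} (h : IsRot G σ) {d : ℕ × ℕ}
    (hd : G.Adj d.1 d.2) : G.Adj (σ d).1 (σ d).2 := by
  by_contra h1
  have h2 := h.fix _ _ h1
  have h3 : σ d = d := σ.injective (by simpa using h2)
  rw [h3] at h1
  exact h1 hd

theorem rot_symm_adj {G : SimpleGraph ℕ} {σ : Equiv.Perm (ℕ × ℕ)} (h : IsRot G σ) {d : ℕ × ℕ}
    (hd : G.Adj d.1 d.2) : G.Adj (σ.symm d).1 (σ.symm d).2 := by
  by_contra h1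
  have h2 := h.fix _ _ h1
  have h3 : σ (σ.symm d) = σ.symm d := by simpa using h2
  rw [Equiv.apply_symm_apply] at h3
  rw [← h3] at h1
  exact h1 hd

theorem main (hj : S_joinOK) (hs : S_sameOK) (hd : S_delOK) {g : ℕ} {G : SimpleGraph ℕ}
    {σ : Equiv.Perm (ℕ × ℕ)} {S : Finset ℕ} {v y z w : ℕ} (h : GenOK g G σ S) (hvy : G.Adj v y)
    (hvz : G.Adj v z) (hzy : z ≠ y) (hσ : σ (v, y) = (v, z)) (hwS : w ∈ S)
    (hw : w ∉ G.support) : ∃ τ, GenOK g (splitG G v y z w) τ S := by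
  have hiso : ∀ u, ¬ G.Adj w u := fun u hu => hw ⟨u, hu⟩
  have hwv : w ≠ v := by
    rintro rfl
    exact hiso _ hvy
  have hwy : w ≠ y := by
    rintro rfl
    exact hiso _ hvy.symm
  have hwz : w ≠ z := by
    rintro rfl
    exact hiso _ hvz.symm
  have hvS : v ∈ S := adj_mem_left h.on hvy
  have hyS : y ∈ S := adj_mem_right h.on hvy
  have hzS : z ∈ S := adj_mem_right h.on hvz
  have hvy' : v ≠ y := hvy.ne
  have hvz' : v ≠ z := hvz.ne
  -- step 1
  have hnr : ¬ G.Reachable v w := fun h1 => hwv (reach_isolated hiso h1.symm).symm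
  have H1 := hj g S G σ v w (v, y) (w, v) h hvS hwS hnr (Or.inr ⟨rfl, hvy⟩)
    (Or.inl ⟨rfl, hiso⟩)
  obtain ⟨G1, hG1⟩ : ∃ G1, G1 = G ⊔ SimpleGraph.edge v w := ⟨_, rfl⟩
  obtain ⟨σ1, hσ1⟩ : ∃ σ1, σ1 = insR σ (v, y) (w, v) v w := ⟨_, rfl⟩
  rw [← hG1, ← hσ1] at H1
  have s1a : σ1 (v, y) = (v, w) := by
    rw [hσ1, insR]
    simp only [Equiv.swap_self, Equiv.Perm.coe_mul, Function.comp_apply, Equiv.refl_apply,
      Equiv.swap_apply_left]
    exact h.rot.fix _ _ (fun h1 => hiso _ h1.symm)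
  have s1b : σ1 (v, w) = (v, z) := by
    rw [hσ1, insR]
    simp only [Equiv.swap_self, Equiv.Perm.coe_mul, Function.comp_apply, Equiv.refl_apply,
      Equiv.swap_apply_right]
    exact hσ
  have s1c : σ1 (w, v) = (w, v) := by
    rw [hσ1, insR]
    simp only [Equiv.swap_self, Equiv.Perm.coe_mul, Function.comp_apply, Equiv.refl_apply]
    rw [Equiv.swap_apply_of_ne_of_ne]
    · exact h.rot.fix _ _ (hiso _)
    · intro h1
      exact hwv (Prod.ext_iff.mp h1).1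
    · intro h1
      exact hwv (Prod.ext_iff.mp h1).1
  have g1 : ∀ p q, G1.Adj p q ↔ (G.Adj p q ∨ ((p = v ∧ q = w) ∨ (p = w ∧ q = v))) := by
    intro p q
    rw [hG1, SimpleGraph.sup_adj, SimpleGraph.edge_adj]
    constructor
    · rintro (h1 | ⟨h1, _⟩)
      · exact Or.inl h1
      · rcases h1 with ⟨rfl, rfl⟩ | ⟨rfl, rfl⟩
        · exact Or.inr (Or.inl ⟨rfl, rfl⟩)
        · exact Or.inr (Or.inr ⟨rfl, rfl⟩)
    · rintro (h1 | ⟨rfl, rfl⟩ | ⟨rfl, rfl⟩)
      · exact Or.inl h1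
      · exact Or.inr ⟨Or.inl ⟨rfl, rfl⟩, hwv.symm⟩
      · exact Or.inr ⟨Or.inr ⟨rfl, rfl⟩, hwv⟩
  -- step 2
  obtain ⟨a2, ha2⟩ : ∃ a2, a2 = σ1.symm (y, v) := ⟨_, rfl⟩
  have a2f : a2.1 = y := by rw [ha2, rot_symm_fst H1.rot]
  have a2a : G1.Adj a2.1 a2.2 := by
    rw [ha2]
    exact rot_symm_adj H1.rot ((g1 _ _).mpr (Or.inl hvy.symm))
  have ny : ¬ G1.Adj y w := by
    rw [g1]
    rintro (h1 | ⟨rfl, _⟩ | ⟨rfl, _⟩)
    · exact hiso _ h1.symm
    · exact hvy' rfl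
    · exact hwy rfl
  have f1 : (faceP σ1).SameCycle a2.swap (w, v).swap := by
    refine ⟨2, ?_⟩
    have e1 : faceP σ1 a2.swap = (y, v) := by
      rw [faceP, Equiv.Perm.mul_apply, Equiv.prodComm_apply, Prod.swap_swap, ha2,
        Equiv.apply_symm_apply]
    have e2 : faceP σ1 (y, v) = (v, w) := by
      rw [faceP, Equiv.Perm.mul_apply, Equiv.prodComm_apply, Prod.swap_prod_mk, s1a]
    rw [zpow_ofNat, pow_two, Equiv.Perm.mul_apply, e1, e2]
    rfl
  have H2 := hs g S G1 σ1 y w a2 (w, v) H1 hwy.symm ny a2f a2a rfl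
    ((g1 _ _).mpr (Or.inr (Or.inr ⟨rfl, rfl⟩))) f1
  obtain ⟨G2, hG2⟩ : ∃ G2, G2 = G1 ⊔ SimpleGraph.edge y w := ⟨_, rfl⟩
  obtain ⟨σ2, hσ2⟩ : ∃ σ2, σ2 = insR σ1 a2 (w, v) y w := ⟨_, rfl⟩
  rw [← hG2, ← hσ2] at H2
  have g2 : ∀ p q, G2.Adj p q ↔ (G1.Adj p q ∨ ((p = y ∧ q = w) ∨ (p = w ∧ q = y))) := by
    intro p q
    rw [hG2, SimpleGraph.sup_adj, SimpleGraph.edge_adj]
    constructor
    · rintro (h1 | ⟨h1, _⟩)
      · exact Or.inl h1
      · rcases h1 with ⟨rfl, rfl⟩ | ⟨rfl, rfl⟩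
        · exact Or.inr (Or.inl ⟨rfl, rfl⟩)
        · exact Or.inr (Or.inr ⟨rfl, rfl⟩)
    · rintro (h1 | ⟨rfl, rfl⟩ | ⟨rfl, rfl⟩)
      · exact Or.inl h1
      · exact Or.inr ⟨Or.inl ⟨rfl, rfl⟩, hwy.symm⟩
      · exact Or.inr ⟨Or.inr ⟨rfl, rfl⟩, hwy⟩
  have s2a : σ2 (w, y) = (w, v) := by
    rw [hσ2, insR]
    simp only [Equiv.Perm.coe_mul, Function.comp_apply, Equiv.swap_apply_right]
    rw [Equiv.swap_apply_of_ne_of_ne]
    · exact s1c
    · intro h1
      have h2 := (Prod.ext_iff.mp h1).1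
      rw [a2f] at h2
      exact hwy h2
    · intro h1
      exact hwy (Prod.ext_iff.mp h1).1
  have s2b : σ2 (v, w) = (v, z) := by
    rw [hσ2, insR]
    simp only [Equiv.Perm.coe_mul, Function.comp_apply]
    rw [Equiv.swap_apply_of_ne_of_ne (a := (w, v)) (b := (w, y)),
      Equiv.swap_apply_of_ne_of_ne (a := a2) (b := (y, w))]
    · exact s1b
    · intro h1
      have h2 := (Prod.ext_iff.mp h1).1
      rw [a2f] at h2
      exact hvy' h2
    · intro h1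
      exact hvy' (Prod.ext_iff.mp h1).1
    · intro h1
      exact hwv (Prod.ext_iff.mp h1).1.symm
    · intro h1
      exact hwv (Prod.ext_iff.mp h1).1.symm
  -- step 3
  have nz : ¬ G2.Adj w z := by
    rw [g2, g1]
    rintro ((h1 | ⟨h1, _⟩ | ⟨_, h1⟩) | ⟨h1, _⟩ | ⟨_, h1⟩)
    · exact hiso _ h1
    · exact hwv h1
    · exact hvz' h1.symm
    · exact hwy h1
    · exact hzy h1
  have f2 : (faceP σ2).SameCycle (w, y).swap (z, v).swap := by
    refine ⟨2, ?_⟩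
    have e1 : faceP σ2 (y, w) = (w, v) := by
      rw [faceP, Equiv.Perm.mul_apply, Equiv.prodComm_apply, Prod.swap_prod_mk, s2a]
    have e2 : faceP σ2 (w, v) = (v, z) := by
      rw [faceP, Equiv.Perm.mul_apply, Equiv.prodComm_apply, Prod.swap_prod_mk, s2b]
    rw [Prod.swap_prod_mk, Prod.swap_prod_mk, zpow_ofNat, pow_two, Equiv.Perm.mul_apply, e1, e2]
  have H3 := hs g S G2 σ2 w z (w, y) (z, v) H2 hwz nz rfl
    ((g2 _ _).mpr (Or.inr (Or.inr ⟨rfl, rfl⟩))) rfl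
    ((g2 _ _).mpr (Or.inl ((g1 _ _).mpr (Or.inl hvz.symm)))) f2
  obtain ⟨G3, hG3⟩ : ∃ G3, G3 = G2 ⊔ SimpleGraph.edge w z := ⟨_, rfl⟩
  rw [← hG3] at H3
  have g3 : ∀ p q, G3.Adj p q ↔ (G2.Adj p q ∨ ((p = w ∧ q = z) ∨ (p = z ∧ q = w))) := by
    intro p q
    rw [hG3, SimpleGraph.sup_adj, SimpleGraph.edge_adj]
    constructor
    · rintro (h1 | ⟨h1, _⟩)
      · exact Or.inl h1
      · rcases h1 with ⟨rfl, rfl⟩ | ⟨rfl, rfl⟩
        · exact Or.inr (Or.inl ⟨rfl, rfl⟩)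
        · exact Or.inr (Or.inr ⟨rfl, rfl⟩)
    · rintro (h1 | ⟨rfl, rfl⟩ | ⟨rfl, rfl⟩)
      · exact Or.inl h1
      · exact Or.inr ⟨Or.inl ⟨rfl, rfl⟩, hwz⟩
      · exact Or.inr ⟨Or.inr ⟨rfl, rfl⟩, hwz.symm⟩
  -- step 4
  have a3 : G3.Adj v y := (g3 _ _).mpr (Or.inl ((g2 _ _).mpr (Or.inl ((g1 _ _).mpr (Or.inl hvy)))))
  obtain ⟨τ, H4⟩ := hd g S G3 _ v y H3 a3
  have a4 : (G3 \ SimpleGraph.edge v y).Adj v z := by
    rw [SimpleGraph.sdiff_adj, SimpleGraph.edge_adj]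
    refine ⟨(g3 _ _).mpr (Or.inl ((g2 _ _).mpr (Or.inl ((g1 _ _).mpr (Or.inl hvz))))), ?_⟩
    rintro ⟨⟨_, h1⟩ | ⟨h1, _⟩, _⟩
    · exact hzy h1
    · exact hvy' h1
  obtain ⟨τ', H5⟩ := hd g S _ τ v z H4 a4
  refine ⟨τ', ?_⟩
  have e : splitG G v y z w = (G3 \ SimpleGraph.edge v y) \ SimpleGraph.edge v z := by
    ext p q
    unfold splitG
    simp only [SimpleGraph.sdiff_adj, SimpleGraph.sup_adj, SimpleGraph.edge_adj, g3, g2, g1]
    constructor
    · rintro (⟨h1, h2⟩ | ((⟨h1, h2⟩ | ⟨h1, h2⟩) | ⟨h1, h2⟩))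
      · refine ⟨⟨Or.inl (Or.inl (Or.inl h1)), ?_⟩, ?_⟩
        · intro h3
          exact h2 (Or.inl h3)
        · intro h3
          exact h2 (Or.inr h3)
      · refine ⟨⟨Or.inl (Or.inl (Or.inr ?_)), ?_⟩, ?_⟩
        · tauto
        · rintro ⟨h3, _⟩
          rcases h1 with ⟨rfl, rfl⟩ | ⟨rfl, rfl⟩ <;> rcases h3 with ⟨h3, h4⟩ | ⟨h3, h4⟩ <;>
            first | exact hwv h3 | exact hwv h3.symm | exact hwv h4 | exact hwv h4.symm |
              exact hwy h3 | exact hwy h4 | exact hvy' h3 | exact hvy' h4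
        · rintro ⟨h3, _⟩
          rcases h1 with ⟨rfl, rfl⟩ | ⟨rfl, rfl⟩ <;> rcases h3 with ⟨h3, h4⟩ | ⟨h3, h4⟩ <;>
            first | exact hwv h3 | exact hwv h3.symm | exact hwv h4 | exact hwv h4.symm |
              exact hwz h3 | exact hwz h4 | exact hvz' h3 | exact hvz' h4
      · refine ⟨⟨Or.inl (Or.inr ?_), ?_⟩, ?_⟩
        · tauto
        · rintro ⟨h3, _⟩
          rcases h1 with ⟨rfl, rfl⟩ | ⟨rfl, rfl⟩ <;> rcases h3 with ⟨h3, h4⟩ | ⟨h3, h4⟩ <;>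
            first | exact hwv h3 | exact hwv h3.symm | exact hwv h4 | exact hwv h4.symm |
              exact hwy h3 | exact hwy h4 | exact hvy' h3 | exact hvy' h4
        · rintro ⟨h3, _⟩
          rcases h1 with ⟨rfl, rfl⟩ | ⟨rfl, rfl⟩ <;> rcases h3 with ⟨h3, h4⟩ | ⟨h3, h4⟩ <;>
            first | exact hwv h3 | exact hwv h3.symm | exact hwv h4 | exact hwv h4.symm |
              exact hwz h3 | exact hwz h4 | exact hvz' h3 | exact hvz' h4
      · refine ⟨⟨Or.inr ?_, ?_⟩, ?_⟩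
        · tauto
        · rintro ⟨h3, _⟩
          rcases h1 with ⟨rfl, rfl⟩ | ⟨rfl, rfl⟩ <;> rcases h3 with ⟨h3, h4⟩ | ⟨h3, h4⟩ <;>
            first | exact hwv h3 | exact hwv h3.symm | exact hwv h4 | exact hwv h4.symm |
              exact hwy h3 | exact hwy h4 | exact hvy' h3 | exact hvy' h4
        · rintro ⟨h3, _⟩
          rcases h1 with ⟨rfl, rfl⟩ | ⟨rfl, rfl⟩ <;> rcases h3 with ⟨h3, h4⟩ | ⟨h3, h4⟩ <;>
            first | exact hwv h3 | exact hwv h3.symm | exact hwv h4 | exact hwv h4.symm |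
              exact hwz h3 | exact hwz h4 | exact hvz' h3 | exact hvz' h4
    · rintro ⟨⟨((h1 | h1) | h1) | h1, h2⟩, h3⟩
      · refine Or.inl ⟨h1, ?_⟩
        rintro (h4 | h4)
        · exact h2 h4
        · exact h3 h4
      · refine Or.inr (Or.inl (Or.inl ⟨by tauto, ?_⟩))
        rcases h1 with ⟨rfl, rfl⟩ | ⟨rfl, rfl⟩
        · exact hwv.symm
        · exact hwv
      · refine Or.inr (Or.inl (Or.inr ⟨by tauto, ?_⟩))
        rcases h1 with ⟨rfl, rfl⟩ | ⟨rfl, rfl⟩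
        · exact hwy.symm
        · exact hwy
      · refine Or.inr (Or.inr ⟨by tauto, ?_⟩)
        rcases h1 with ⟨rfl, rfl⟩ | ⟨rfl, rfl⟩
        · exact hwz
        · exact hwz.symm
  rw [e]
  exact H5

end PkgT18

theorem pkgT18 (h1 : S_embS) (h2 : S_joinOK) (h3 : S_sameOK) (h4 : S_delOK) : S_cSplit := by
  intro g G v y hf hE hvy hdeg
  obtain ⟨S0, _, hG⟩ := exists_graphsOn hf ∅
  obtain ⟨σ, hσ⟩ := (h1 g S0 G hG).mp hE
  have hfst : (σ (v, y)).1 = v := hσ.rot.fst (v, y)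
  have hσz : σ (v, y) = (v, (σ (v, y)).2) := by
    conv_lhs => rw [← Prod.mk.eta (p := σ (v, y)), hfst]
  have hadj : G.Adj v (σ (v, y)).2 := by
    have := PkgT18.rot_adj hσ.rot (d := (v, y)) hvy
    rwa [hfst] at this
  have hzy : (σ (v, y)).2 ≠ y := by
    intro h
    have hfix : σ (v, y) = (v, y) := by
      rw [hσz, h]
    have hone : G.neighborSet v ⊆ {y} := by
      intro u hu
      have hs := hσ.rot.cyc v y u hvy hu
      obtain ⟨i, hi⟩ := hs
      have : (σ ^ i) (v, y) = (v, y) := Equiv.Perm.zpow_apply_eq_self_of_apply_eq_self hfix i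
      rw [this] at hi
      exact (Prod.ext_iff.mp hi).2.symm
    have : deg G v ≤ 1 := by
      unfold deg
      calc (G.neighborSet v).ncard ≤ ({y} : Set ℕ).ncard :=
            Set.ncard_le_ncard hone (Set.finite_singleton y)
        _ = 1 := Set.ncard_singleton y
    omega
  refine ⟨(σ (v, y)).2, hzy, hadj, ?_⟩
  intro w hw
  obtain ⟨S, hS, hwS⟩ : ∃ S, GenOK g G σ S ∧ w ∈ S := by
    by_cases hwS : w ∈ S0
    · exact ⟨S0, hσ, hwS⟩
    · exact ⟨insert w S0, PkgT18.genOK_insert hσ hwS, Finset.mem_insert_self _ _⟩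
  obtain ⟨τ, hτ⟩ := PkgT18.main h2 h3 h4 hS hvy hadj hzy hσz hwS hw
  exact (h1 g S _ hτ.on).mpr ⟨τ, hτ⟩

end GiantSurf57
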