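import Pool.Agent.GiantSurf57.StmtsTop

/-!
# Package T19: transport of embeddability along injections
-/

open scoped Classical
open Finset

namespace GiantSurf57

namespace PkgT19

variable {V W : Type*}

/-- Intertwining of powers. -/
theorem inter_zpow {α β : Type*} {F : α → β} {φ : Equiv.Perm α} {φ' : Equiv.Perm β}
    (h : ∀ d, F (φ d) = φ' (F d)) (n : ℤ) (d : α) : F ((φ ^ n) d) = (φ' ^ n) (F d) := by
  have hnat : ∀ (n : ℕ) (d : α), F ((φ ^ n) d) = (φ' ^ n) (F d) := by
    intro n
    induction n with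
    | zero => intro d; simp
    | succ n ih =>
      intro d
      rw [pow_succ, pow_succ, Equiv.Perm.mul_apply, Equiv.Perm.mul_apply, ih, h]
  rcases n with n | n
  · simpa using hnat n d
  · have h1 := hnat (n + 1) ((φ ^ (Int.negSucc n)) d)
    rw [zpow_negSucc] at *
    rw [← Equiv.Perm.mul_apply, mul_inv_cancel, Equiv.Perm.one_apply] at h1
    rw [h1, ← Equiv.Perm.mul_apply, zpow_negSucc, inv_mul_cancel, Equiv.Perm.one_apply]

theorem sameCycle_iff {α β : Type*} {F : α → β} (hF : Function.Injective F) {φ : Equiv.Perm α}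
    {φ' : Equiv.Perm β} (h : ∀ d, F (φ d) = φ' (F d)) (d e : α) :
    φ'.SameCycle (F d) (F e) ↔ φ.SameCycle d e := by
  constructor
  · rintro ⟨n, hn⟩
    refine ⟨n, hF ?_⟩
    rw [inter_zpow h, hn]
  · rintro ⟨n, hn⟩
    refine ⟨n, ?_⟩
    rw [← inter_zpow h, hn]

theorem orb_image {α β : Type*} {F : α → β} {φ : Equiv.Perm α}
    {φ' : Equiv.Perm β} (h : ∀ d, F (φ d) = φ' (F d)) (d : α) :
    orb φ' (F d) = F '' orb φ d := by
  ext e
  constructor
  · rintro ⟨n, hn⟩
    refine ⟨(φ ^ n) d, ⟨n, rfl⟩, ?_⟩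
    rw [inter_zpow h, hn]
  · rintro ⟨c, ⟨n, hn⟩, rfl⟩
    refine ⟨n, ?_⟩
    rw [← inter_zpow h, hn]

theorem faceP_inter (f : V ↪ W) {σ : Equiv.Perm (V × V)} {σ' : Equiv.Perm (W × W)}
    (h : ∀ d, Prod.map f f (σ d) = σ' (Prod.map f f d)) (d : V × V) :
    Prod.map f f (faceP σ d) = faceP σ' (Prod.map f f d) := by
  unfold faceP
  rw [Equiv.Perm.mul_apply, Equiv.Perm.mul_apply, h]
  rfl

theorem map_inj (f : V ↪ W) : Function.Injective (Prod.map f f) :=
  Function.Injective.prodMap f.injective f.injective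

theorem faces_map (f : V ↪ W) (G : SimpleGraph V) {σ : Equiv.Perm (V × V)}
    {σ' : Equiv.Perm (W × W)} (h : ∀ d, Prod.map f f (σ d) = σ' (Prod.map f f d)) :
    (faces (G.map f) σ').ncard = (faces G σ).ncard := by
  have h1 : faces (G.map f) σ' = (fun s => Prod.map f f '' s) '' faces G σ := by
    ext s
    constructor
    · rintro ⟨x', y', hadj, rfl⟩
      obtain ⟨x, y, hxy, rfl, rfl⟩ := (SimpleGraph.map_adj f G x' y').1 hadj
      exact ⟨orb (faceP σ) (x, y), ⟨x, y, hxy, rfl⟩, (orb_image (faceP_inter f h) (x, y)).symm⟩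
    · rintro ⟨_, ⟨x, y, hxy, rfl⟩, rfl⟩
      refine ⟨f x, f y, (SimpleGraph.map_adj f G _ _).2 ⟨x, y, hxy, rfl, rfl⟩, ?_⟩
      exact (orb_image (faceP_inter f h) (x, y)).symm
  rw [h1, Set.ncard_image_of_injective _ (Set.image_injective.2 (map_inj f))]

theorem reach_map (f : V ↪ W) (G : SimpleGraph V) (x : V) (z' : W) :
    (G.map f).Reachable (f x) z' ↔ ∃ z, G.Reachable x z ∧ f z = z' := by
  constructor
  · rintro ⟨p⟩
    suffices H : ∀ (a b : W) (_ : (G.map f).Walk a b) (x : V), f x = a →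
        ∃ z, G.Reachable x z ∧ f z = b from H _ _ p x rfl
    intro a b p
    induction p with
    | nil => intro x hx; exact ⟨x, SimpleGraph.Reachable.refl _, hx⟩
    | cons hadj _ ih =>
      intro x hx
      obtain ⟨u, v, huv, hu, hv⟩ := (SimpleGraph.map_adj f G _ _).1 hadj
      have : u = x := f.injective (hu.trans hx.symm)
      subst this
      obtain ⟨z, hz, hz'⟩ := ih v hv
      exact ⟨z, huv.reachable.trans hz, hz'⟩
  · rintro ⟨z, hz, rfl⟩
    exact hz.map (SimpleGraph.Embedding.map f G).toHom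

theorem bigComps_map (f : V ↪ W) (G : SimpleGraph V) :
    (bigComps (G.map f)).ncard = (bigComps G).ncard := by
  have h2 : ∀ x, {z | (G.map f).Reachable (f x) z} = f '' {z | G.Reachable x z} := by
    intro x
    ext z'
    exact reach_map f G x z'
  have h1 : bigComps (G.map f) = (fun s => f '' s) '' bigComps G := by
    ext s
    constructor
    · rintro ⟨x', y', hadj, rfl⟩
      obtain ⟨x, y, hxy, rfl, rfl⟩ := (SimpleGraph.map_adj f G x' y').1 hadj
      exact ⟨{z | G.Reachable x z}, ⟨x, y, hxy, rfl⟩, (h2 x).symm⟩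
    · rintro ⟨_, ⟨x, y, hxy, rfl⟩, rfl⟩
      exact ⟨f x, f y, (SimpleGraph.map_adj f G _ _).2 ⟨x, y, hxy, rfl, rfl⟩, (h2 x).symm⟩
  rw [h1, Set.ncard_image_of_injective _ (Set.image_injective.2 f.injective)]

theorem edgeSet_map (f : V ↪ W) (G : SimpleGraph V) :
    (G.map f).edgeSet.ncard = G.edgeSet.ncard := by
  have h1 : (G.map f).edgeSet = Sym2.map f '' G.edgeSet := by
    ext e
    induction e with
    | h x' y' =>
      constructor
      · intro hadj
        obtain ⟨x, y, hxy, rfl, rfl⟩ := (SimpleGraph.map_adj f G x' y').1 hadj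
        exact ⟨s(x, y), hxy, rfl⟩
      · rintro ⟨e, he, hee⟩
        rw [← hee]
        clear hee
        induction e with
        | h x y => exact (SimpleGraph.map_adj f G _ _).2 ⟨x, y, he, rfl, rfl⟩
  rw [h1, Set.ncard_image_of_injective _ (Sym2.map.injective f.injective)]

theorem support_map (f : V ↪ W) (G : SimpleGraph V) :
    (G.map f).support.ncard = G.support.ncard := by
  have h1 : (G.map f).support = f '' G.support := by
    ext x'
    constructor
    · rintro ⟨y', hadj⟩
      obtain ⟨x, y, hxy, rfl, rfl⟩ := (SimpleGraph.map_adj f G x' y').1 hadj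
      exact ⟨x, ⟨y, hxy⟩, rfl⟩
    · rintro ⟨x, ⟨y, hxy⟩, rfl⟩
      exact ⟨f y, (SimpleGraph.map_adj f G _ _).2 ⟨x, y, hxy, rfl, rfl⟩⟩
  rw [h1, Set.ncard_image_of_injective _ f.injective]

theorem map_adj_iff (f : V ↪ W) (G : SimpleGraph V) (x y : V) :
    (G.map f).Adj (f x) (f y) ↔ G.Adj x y := SimpleGraph.map_adj_apply

theorem isRot_map (f : V ↪ W) (G : SimpleGraph V) {σ : Equiv.Perm (V × V)}
    {σ' : Equiv.Perm (W × W)} (h : ∀ d, Prod.map f f (σ d) = σ' (Prod.map f f d))
    (hout : ∀ d, d ∉ Set.range (Prod.map f f) → σ' d = d) :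
    IsRot G σ ↔ IsRot (G.map f) σ' := by
  constructor
  · intro hr
    refine ⟨?_, ?_, ?_⟩
    · intro x' y' hn
      by_cases hm : (x', y') ∈ Set.range (Prod.map f f)
      · obtain ⟨⟨x, y⟩, hxy⟩ := hm
        rw [← hxy, ← h, hr.fix x y]
        intro hadj
        apply hn
        have h1 : f x = x' := congrArg Prod.fst hxy
        have h2 : f y = y' := congrArg Prod.snd hxy
        rw [← h1, ← h2]
        exact (map_adj_iff f G x y).2 hadj
      · exact hout _ hm
    · intro d'
      by_cases hm : d' ∈ Set.range (Prod.map f f)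
      · obtain ⟨d, rfl⟩ := hm
        rw [← h]
        show f (σ d).1 = f d.1
        rw [hr.fst]
      · rw [hout _ hm]
    · intro x' y' z' h1 h2
      obtain ⟨x, y, hxy, rfl, rfl⟩ := (SimpleGraph.map_adj f G _ _).1 h1
      obtain ⟨x2, z, hxz, hx, rfl⟩ := (SimpleGraph.map_adj f G _ _).1 h2
      have : x2 = x := f.injective hx
      subst this
      exact (sameCycle_iff (map_inj f) h (x2, y) (x2, z)).2 (hr.cyc x2 y z hxy hxz)
  · intro hr
    refine ⟨?_, ?_, ?_⟩
    · intro x y hn
      apply map_inj f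
      rw [h]
      exact hr.fix (f x) (f y) (fun hc => hn ((map_adj_iff f G x y).1 hc))
    · intro d
      apply f.injective
      have h1 := hr.fst (Prod.map f f d)
      rw [← h] at h1
      exact h1
    · intro x y z hxy hxz
      rw [← sameCycle_iff (map_inj f) h]
      exact hr.cyc (f x) (f y) (f z) ((map_adj_iff f G x y).2 hxy) ((map_adj_iff f G x z).2 hxz)

theorem emb_map (g : ℕ) (f : V ↪ W) (G : SimpleGraph V) : Emb g G ↔ Emb g (G.map f) := by
  constructor
  · rintro ⟨σ, hr, hle⟩
    set F : V × V ↪ W × W := ⟨Prod.map f f, map_inj f⟩ with hF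
    have h1 : ∀ d, Prod.map f f (σ d) = (σ.viaEmbedding F) (Prod.map f f d) := by
      intro d
      exact (Equiv.Perm.viaEmbedding_apply σ F d).symm
    have h2 : ∀ d, d ∉ Set.range (Prod.map f f) → (σ.viaEmbedding F) d = d := by
      intro d hd
      exact Equiv.Perm.viaEmbedding_apply_of_notMem σ F d hd
    refine ⟨σ.viaEmbedding F, (isRot_map f G h1 h2).1 hr, ?_⟩
    rw [bigComps_map, edgeSet_map, support_map, faces_map f G h1]
    exact hle
  · rintro ⟨σ', hr, hle⟩
    have hout : ∀ d, d ∉ Set.range (Prod.map f f) → σ' d = d := by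
      rintro ⟨x', y'⟩ hd
      apply hr.fix
      intro hadj
      obtain ⟨x, y, _, rfl, rfl⟩ := (SimpleGraph.map_adj f G _ _).1 hadj
      exact hd ⟨(x, y), rfl⟩
    have hin : ∀ d, σ' d ∈ Set.range (Prod.map f f) ↔ d ∈ Set.range (Prod.map f f) := by
      intro d
      constructor
      · intro h
        by_contra hd
        rw [hout d hd] at h
        exact hd h
      · intro h
        by_contra hd
        have h1 := hout _ hd
        have h2 : σ' d = d := σ'.injective h1
        rw [h2] at hd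
        exact hd h
    set E : V × V ≃ Set.range (Prod.map f f) := Equiv.ofInjective _ (map_inj f) with hE
    set τ : Equiv.Perm (Set.range (Prod.map f f)) := σ'.subtypePerm hin with hτ
    set σ : Equiv.Perm (V × V) := E.symm.permCongr τ with hσ
    have h1 : ∀ d, Prod.map f f (σ d) = σ' (Prod.map f f d) := by
      intro d
      have e1 : E (σ d) = τ (E d) := by
        rw [hσ, Equiv.permCongr_apply]
        simp
      have e2 := congrArg Subtype.val e1
      rw [hE] at e2
      rw [Equiv.ofInjective_apply] at e2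
      exact e2
    refine ⟨σ, (isRot_map f G h1 hout).2 hr, ?_⟩
    rw [bigComps_map, edgeSet_map, support_map, faces_map f G h1] at hle
    exact hle

end PkgT19

theorem pkgT19 : S_map :=
  ⟨fun g G e h => (PkgT19.emb_map g e.toEmbedding G).1 h,
    fun g _ G => PkgT19.emb_map g Fin.valEmbedding G⟩

end GiantSurf57
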