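import Pool.Agent.GiantSurf57.StmtsTop

/-!
# Package T2 of `GiantSurf57`: inserting an edge into a rotation system
-/

open scoped Classical
open Finset

namespace GiantSurf57

namespace PkgT2

open Equiv Equiv.Perm

variable {α : Type*}

/-- If `φ`-steps are inside the cycles of `ψ` then so are the cycles of `φ`. -/
theorem sameCycle_mono {φ ψ : Perm α} (h : ∀ e, ψ.SameCycle e (φ e)) {a b : α}
    (hab : φ.SameCycle a b) : ψ.SameCycle a b := by
  have hpos : ∀ (n : ℕ) (c : α), ψ.SameCycle c ((φ ^ n) c) := by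
    intro n
    induction n with
    | zero => intro c; simpa using SameCycle.refl ψ c
    | succ n ih =>
      intro c
      rw [pow_succ']
      exact (ih c).trans (h _)
  obtain ⟨i, rfl⟩ := hab
  rcases Int.eq_nat_or_neg i with ⟨n, rfl | rfl⟩
  · simpa using hpos n a
  · have := hpos n ((φ ^ (-(n : ℤ))) a)
    rw [← zpow_natCast, ← Perm.mul_apply, ← zpow_add] at this
    simp only [add_neg_cancel, zpow_zero, Perm.coe_one, id_eq] at this
    exact this.symm

/-- Multiplication by `swap a z`, where `z` is a fixed point: the cycles get larger. -/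
theorem ins_mono [DecidableEq α] {φ : Perm α} {a z : α} (hz : φ z = z) {c d : α}
    (h : φ.SameCycle c d) : (φ * swap a z).SameCycle c d := by
  by_cases haz : a = z
  · subst haz
    have h1 : φ * swap a a = φ := by rw [swap_self]; exact mul_one φ
    rwa [h1]
  refine sameCycle_mono ?_ h
  intro e
  by_cases hea : e = a
  · subst hea
    refine ⟨2, ?_⟩
    have h1 : (φ * swap e z) e = z := by
      rw [Perm.mul_apply, swap_apply_left, hz]
    have h2 : (φ * swap e z) z = φ e := by
      rw [Perm.mul_apply, swap_apply_right]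
    rw [zpow_two, Perm.mul_apply, h1, h2]
  · by_cases hez : e = z
    · subst hez
      rw [hz]
    · have : φ e = (φ * swap a z) e := by
        rw [Perm.mul_apply, swap_apply_of_ne_of_ne hea hez]
      rw [this]
      exact sameCycle_apply_right.mpr (SameCycle.refl _ _)

/-- `a` and `z` are in the same cycle of `φ * swap a z` if `z` is a fixed point of `φ`. -/
theorem ins_same [DecidableEq α] {φ : Perm α} {a z : α} (hz : φ z = z) :
    (φ * swap a z).SameCycle a z := by
  refine ⟨1, ?_⟩
  rw [zpow_one, Perm.mul_apply, swap_apply_left, hz]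

end PkgT2

open PkgT2 in
/-- T2. Inserting an edge gives a rotation system. -/
theorem pkgT2 : S_ins := by
  intro G σ x y a b _ hrot hne hadj ha hb
  have ha1 : a.1 = x := by
    rcases ha with ⟨rfl, _⟩ | ⟨h, _⟩
    · rfl
    · exact h
  have hb1 : b.1 = y := by
    rcases hb with ⟨rfl, _⟩ | ⟨h, _⟩
    · rfl
    · exact h
  have hσxy : σ (x, y) = (x, y) := hrot.fix _ _ hadj
  have hσyx : σ (y, x) = (y, x) := hrot.fix _ _ (fun h => hadj h.symm)
  have ha_ne : a ≠ (y, x) := by
    intro h
    rw [h] at ha1
    exact hne ha1.symm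
  have hb_ne : b ≠ (x, y) := by
    intro h
    rw [h] at hb1
    exact hne hb1
  have hxyne : (x, y) ≠ (y, x) := by
    intro h
    exact hne (Prod.ext_iff.mp h).1
  have h1fix : (σ * Equiv.swap a (x, y)) (y, x) = (y, x) := by
    rw [Equiv.Perm.mul_apply, Equiv.swap_apply_of_ne_of_ne ha_ne.symm hxyne.symm, hσyx]
  have hmono : ∀ {c d : ℕ × ℕ}, σ.SameCycle c d → (insR σ a b x y).SameCycle c d := by
    intro c d h
    exact ins_mono h1fix (ins_mono hσxy h)
  have hsame1 : (insR σ a b x y).SameCycle a (x, y) := ins_mono h1fix (ins_same hσxy)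
  have hsame2 : (insR σ a b x y).SameCycle b (y, x) := ins_same h1fix
  have hAdj : ∀ u v, (G ⊔ SimpleGraph.edge x y).Adj u v ↔
      (G.Adj u v ∨ (u, v) = (x, y) ∨ (u, v) = (y, x)) := by
    intro u v
    rw [SimpleGraph.sup_adj, SimpleGraph.edge_adj]
    constructor
    · rintro (h | ⟨⟨rfl, rfl⟩ | ⟨rfl, rfl⟩, _⟩)
      · exact Or.inl h
      · exact Or.inr (Or.inl rfl)
      · exact Or.inr (Or.inr rfl)
    · rintro (h | h | h)
      · exact Or.inl h
      · obtain ⟨rfl, rfl⟩ := Prod.ext_iff.mp h
        exact Or.inr ⟨Or.inl ⟨rfl, rfl⟩, hne⟩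
      · obtain ⟨rfl, rfl⟩ := Prod.ext_iff.mp h
        exact Or.inr ⟨Or.inr ⟨rfl, rfl⟩, hne.symm⟩
  refine ⟨?_, ?_, ?_⟩
  · intro u v huv
    rw [hAdj] at huv
    push Not at huv
    obtain ⟨h1, h2, h3⟩ := huv
    have hna : (u, v) ≠ a := by
      rcases ha with ⟨h, _⟩ | ⟨_, h⟩
      · rw [h]; exact h2
      · intro h'
        rw [← h'] at h
        exact h1 h
    have hnb : (u, v) ≠ b := by
      rcases hb with ⟨h, _⟩ | ⟨_, h⟩
      · rw [h]; exact h3
      · intro h'
        rw [← h'] at h
        exact h1 h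
    show (σ * Equiv.swap a (x, y) * Equiv.swap b (y, x)) (u, v) = (u, v)
    rw [Equiv.Perm.mul_apply, Equiv.swap_apply_of_ne_of_ne hnb h3, Equiv.Perm.mul_apply,
      Equiv.swap_apply_of_ne_of_ne hna h2]
    exact hrot.fix _ _ h1
  · intro d
    show ((σ * Equiv.swap a (x, y) * Equiv.swap b (y, x)) d).1 = d.1
    rw [Equiv.Perm.mul_apply, Equiv.Perm.mul_apply, hrot.fst]
    have hsw : ∀ (p q e : ℕ × ℕ), p.1 = q.1 → (Equiv.swap p q e).1 = e.1 := by
      intro p q e hpq
      by_cases h1 : e = p
      · subst h1; rw [Equiv.swap_apply_left]; exact hpq.symm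
      · by_cases h2 : e = q
        · subst h2; rw [Equiv.swap_apply_right]; exact hpq
        · rw [Equiv.swap_apply_of_ne_of_ne h1 h2]
    rw [hsw a (x, y) _ ha1, hsw b (y, x) _ hb1]
  · -- every dart is in the cycle of any old dart at the same vertex
    have hold : ∀ u v w, G.Adj u v → G.Adj u w → (insR σ a b x y).SameCycle (u, v) (u, w) :=
      fun u v w h h' => hmono (hrot.cyc u v w h h')
    have hx : ∀ w, G.Adj x w → (insR σ a b x y).SameCycle (x, y) (x, w) := by
      intro w hw
      rcases ha with ⟨_, h⟩ | ⟨_, h⟩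
      · exact absurd hw (h w)
      · have h2 : σ.SameCycle a (x, w) := by
          have : a = (x, a.2) := by rw [← ha1]
          rw [this]
          rw [ha1] at h
          exact hrot.cyc x a.2 w h hw
        exact hsame1.symm.trans (hmono h2)
    have hy : ∀ w, G.Adj y w → (insR σ a b x y).SameCycle (y, x) (y, w) := by
      intro w hw
      rcases hb with ⟨_, h⟩ | ⟨_, h⟩
      · exact absurd hw (h w)
      · have h2 : σ.SameCycle b (y, w) := by
          have : b = (y, b.2) := by rw [← hb1]
          rw [this]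
          rw [hb1] at h
          exact hrot.cyc y b.2 w h hw
        exact hsame2.symm.trans (hmono h2)
    intro u v w huv huw
    rw [hAdj] at huv huw
    rcases huv with h1 | h1 | h1
    · rcases huw with h2 | h2 | h2
      · exact hold u v w h1 h2
      · obtain ⟨rfl, rfl⟩ := Prod.ext_iff.mp h2
        exact (hx v h1).symm
      · obtain ⟨rfl, rfl⟩ := Prod.ext_iff.mp h2
        exact (hy v h1).symm
    · obtain ⟨h1a, h1b⟩ := Prod.ext_iff.mp h1
      simp only at h1a h1b
      subst h1a; subst h1b
      rcases huw with h2 | h2 | h2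
      · exact hx w h2
      · rw [h2]
      · exact absurd (Prod.ext_iff.mp h2).1 hne
    · obtain ⟨h1a, h1b⟩ := Prod.ext_iff.mp h1
      simp only at h1a h1b
      subst h1a; subst h1b
      rcases huw with h2 | h2 | h2
      · exact hy w h2
      · exact absurd (Prod.ext_iff.mp h2).1 hne.symm
      · rw [h2]

end GiantSurf57
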