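import Pool.Agent.GiantSurf57.PkgT8_T9_T10

/-!
# Package T20: Euler's inequality
-/

open scoped Classical
open Finset

set_option autoImplicit false

namespace GiantSurf57

namespace PkgT20

lemma eq_bot_of_ne {S : Finset ℕ} {G : SimpleGraph ℕ} (hon : G ∈ graphsOn S) (h : ne G = 0) :
    G = ⊥ := by
  have hfin := edgeSet_finite hon
  unfold ne at h
  rw [Set.ncard_eq_zero hfin] at h
  exact SimpleGraph.edgeSet_eq_empty.mp h

lemma faces_bot (σ : Equiv.Perm (ℕ × ℕ)) : faces (⊥ : SimpleGraph ℕ) σ = ∅ := by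
  unfold faces
  ext f
  simp

lemma FS_bot (σ : Equiv.Perm (ℕ × ℕ)) (S : Finset ℕ) :
    FS (⊥ : SimpleGraph ℕ) σ S = S.card := by
  unfold FS
  rw [faces_bot]
  simp

lemma comps_bot (S : Finset ℕ) : (comps (⊥ : SimpleGraph ℕ) S).card = S.card := by
  unfold comps
  rw [Finset.card_image_of_injOn]
  intro x hx y hy hxy
  have h1 : x ∈ compOf (⊥ : SimpleGraph ℕ) S x := by
    unfold compOf
    rw [Finset.mem_filter]
    exact ⟨hx, SimpleGraph.Reachable.refl _⟩
  have h2 : x ∈ compOf (⊥ : SimpleGraph ℕ) S y := by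
    have : compOf (⊥ : SimpleGraph ℕ) S x = compOf (⊥ : SimpleGraph ℕ) S y := hxy
    rw [← this]
    exact h1
  unfold compOf at h2
  rw [Finset.mem_filter] at h2
  have h3 := SimpleGraph.reachable_bot.mp h2.2
  exact h3.symm

end PkgT20

open PkgT8 PkgT20 in
theorem pkgT20 (_ : S_ins) (h3 : S_del) (h4 : S_faceCount) (h5 : S_compCount)
    (h7 : S_faceReach) : S_euler := by
  intro S G σ hon hrot
  induction hn : ne G generalizing G σ with
  | zero =>
    have := eq_bot_of_ne hon hn
    subst this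
    rw [FS_bot, comps_bot]
    omega
  | succ n ih =>
    have hne : G.edgeSet.Nonempty := by
      by_contra h
      rw [Set.not_nonempty_iff_eq_empty] at h
      unfold ne at hn
      rw [h] at hn
      simp at hn
    obtain ⟨x, y, hxy⟩ : ∃ x y, G.Adj x y := by
      obtain ⟨e, he⟩ := hne
      induction e with
      | h x y => exact ⟨x, y, he⟩
    obtain ⟨τ, hon0, hτ, hne0, h⟩ := del_count h3 h4 h5 h7 hon hrot hxy
    have hi := ih (G \ SimpleGraph.edge x y) τ hon0 hτ (by omega)
    rcases h with ⟨h1, h2⟩ | ⟨h1, h2⟩ <;> omega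

end GiantSurf57
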