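import Pool.Agent.GiantSurf57.StmtsTop
import Pool.Agent.GiantSurf57.Basic

/-!
# Package T21: Euler's inequality for one component
-/

open scoped Classical
open Finset

namespace GiantSurf57
namespace PkgT21

theorem faceP_apply {V : Type*} (σ : Equiv.Perm (V × V)) (d : V × V) :
    faceP σ d = σ d.swap := rfl

theorem mem_of_sameCycle {α : Type*} {ψ : Equiv.Perm α} {U : Set α}
    (h : ∀ u, ψ u ∈ U ↔ u ∈ U) {u v : α} (hs : ψ.SameCycle u v) : v ∈ U ↔ u ∈ U := by
  obtain ⟨i, rfl⟩ := hs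
  induction i using Int.induction_on with
  | zero => simp
  | succ i ih =>
    rw [zpow_add_one, Equiv.Perm.mul_apply] at *
    have hcomm : (ψ ^ (i : ℤ)) (ψ u) = ψ ((ψ ^ (i : ℤ)) u) := by
      rw [← Equiv.Perm.mul_apply, ← Equiv.Perm.mul_apply, ← zpow_add_one, ← zpow_one_add, add_comm]
    rw [hcomm, h]
    exact ih
  | pred i ih =>
    have hcomm : ψ ((ψ ^ (-(i : ℤ) - 1)) u) = (ψ ^ (-(i : ℤ))) u := by
      rw [← Equiv.Perm.mul_apply, ← zpow_one_add]
      congr 2
      ring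
    rw [← h, hcomm]
    exact ih

theorem agree {α : Type*} {φ ψ : Equiv.Perm α} {U : Set α} (h : ∀ u, φ u ∈ U ↔ u ∈ U)
    (heq : ∀ u ∈ U, ψ u = φ u) {u v : α} (hu : u ∈ U) (hs : φ.SameCycle u v) :
    ψ.SameCycle u v := by
  have hU : ∀ t, φ t ∈ (U ∩ {t | ψ.SameCycle u t}) ↔ t ∈ (U ∩ {t | ψ.SameCycle u t}) := by
    intro t
    simp only [Set.mem_inter_iff, h]
    constructor
    · rintro ⟨ht, h1⟩
      refine ⟨ht, ?_⟩
      have h1' : ψ.SameCycle u (φ t) := h1
      rw [← heq t ht] at h1'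
      exact Equiv.Perm.sameCycle_apply_right.mp h1'
    · rintro ⟨ht, h1⟩
      refine ⟨ht, ?_⟩
      show ψ.SameCycle u (φ t)
      rw [← heq t ht]
      exact Equiv.Perm.sameCycle_apply_right.mpr h1
  exact ((mem_of_sameCycle hU hs).mpr ⟨hu, Equiv.Perm.SameCycle.refl _ _⟩).2

theorem face_dart_iff {V : Type*} {G : SimpleGraph V} {σ : Equiv.Perm (V × V)} (h : IsRot G σ)
    (d : V × V) : G.Adj (faceP σ d).1 (faceP σ d).2 ↔ G.Adj d.1 d.2 := by
  have key : ∀ d : V × V, G.Adj (σ d).1 (σ d).2 ↔ G.Adj d.1 d.2 := by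
    intro d
    constructor
    · intro hd
      by_contra hn
      have : σ d = d := h.fix d.1 d.2 hn
      rw [this] at hd
      exact hn hd
    · intro hd
      by_contra hn
      have h2 : σ (σ d) = σ d := h.fix (σ d).1 (σ d).2 hn
      have h3 : σ d = d := σ.injective h2
      rw [h3] at hn
      exact hn hd
  rw [faceP_apply, key]
  exact G.adj_comm _ _

/-- The restriction of a rotation system to a component. -/
noncomputable def res (σ : Equiv.Perm (ℕ × ℕ)) (hσ : ∀ d, (σ d).1 = d.1) (A : Finset ℕ) :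
    Equiv.Perm (ℕ × ℕ) where
  toFun d := if d.1 ∈ A then σ d else d
  invFun d := if d.1 ∈ A then σ.symm d else d
  left_inv d := by
    by_cases h : d.1 ∈ A
    · simp [h, hσ]
    · simp [h]
  right_inv d := by
    have h2 : (σ.symm d).1 = d.1 := by
      have := hσ (σ.symm d)
      rw [Equiv.apply_symm_apply] at this
      exact this.symm
    by_cases h : d.1 ∈ A
    · simp [h, h2]
    · simp [h]

theorem res_apply (σ : Equiv.Perm (ℕ × ℕ)) (hσ : ∀ d, (σ d).1 = d.1) (A : Finset ℕ)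
    (d : ℕ × ℕ) : res σ hσ A d = if d.1 ∈ A then σ d else d := rfl

/-- The graph of the edges inside `A`. -/
def GA (G : SimpleGraph ℕ) (A : Finset ℕ) : SimpleGraph ℕ where
  Adj x y := G.Adj x y ∧ x ∈ A ∧ y ∈ A
  symm := ⟨fun _ _ h => ⟨h.1.symm, h.2.2, h.2.1⟩⟩
  loopless := ⟨fun _ h => G.loopless.irrefl _ h.1⟩

theorem walk_GA {G : SimpleGraph ℕ} {A : Finset ℕ} (hA : ∀ x ∈ A, ∀ y, G.Adj x y → y ∈ A)
    {x y : ℕ} (p : G.Walk x y) (hx : x ∈ A) : (GA G A).Reachable x y := by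
  induction p with
  | nil => exact SimpleGraph.Reachable.refl _
  | cons h p ih =>
    have h1 := hA _ hx _ h
    have h2 : (GA G A).Adj _ _ := ⟨h, hx, h1⟩
    exact h2.reachable.trans (ih h1)

end PkgT21

open PkgT21 in
theorem pkgT21 (_hfr : S_faceReach) (heul : S_euler) : S_euler1 := by
  intro S G σ hG hσ A hA hA2
  simp only [comps, Finset.mem_image] at hA
  obtain ⟨x0, hx0, hAx⟩ := hA
  have hmemA : ∀ z, z ∈ A ↔ z ∈ S ∧ G.Reachable x0 z := by
    intro z
    rw [← hAx]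
    simp [compOf]
  have hclos : ∀ x ∈ A, ∀ y, G.Adj x y → y ∈ A := by
    intro x hx y hxy
    rw [hmemA] at hx ⊢
    exact ⟨adj_mem_right hG hxy, hx.2.trans hxy.reachable⟩
  have hGA : GA G A ∈ graphsOn A := by
    rw [mem_graphsOn_iff]
    intro x y h
    exact h.2
  have hrot : IsRot (GA G A) (res σ hσ.fst A) := by
    constructor
    · intro x y hn
      rw [res_apply]
      split_ifs with h
      · apply hσ.fix
        intro hxy
        exact hn ⟨hxy, h, hclos x h y hxy⟩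
      · rfl
    · intro d
      rw [res_apply]
      split_ifs
      · exact hσ.fst d
      · rfl
    · intro x y z hy hz
      refine agree (φ := σ) (ψ := res σ hσ.fst A) (U := {d : ℕ × ℕ | d.1 ∈ A}) ?_ ?_ ?_
        (hσ.cyc x y z hy.1 hz.1)
      · intro u
        show (σ u).1 ∈ A ↔ u.1 ∈ A
        rw [hσ.fst]
      · intro u hu
        have hu' : u.1 ∈ A := hu
        rw [res_apply, if_pos hu']
      · exact hy.2.1
  have hface : faces (GA G A) (res σ hσ.fst A) =
      {f | ∃ d : ℕ × ℕ, G.Adj d.1 d.2 ∧ d.1 ∈ A ∧ f = orb (faceP σ) d} := by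
    have hUφ : ∀ u, faceP σ u ∈ {d : ℕ × ℕ | G.Adj d.1 d.2 ∧ d.1 ∈ A} ↔
        u ∈ {d : ℕ × ℕ | G.Adj d.1 d.2 ∧ d.1 ∈ A} := by
      intro u
      have h1 : (faceP σ u).1 = u.2 := by
        rw [faceP_apply, hσ.fst]
        rfl
      constructor
      · rintro ⟨h2, h3⟩
        have h4 := (face_dart_iff hσ u).mp h2
        rw [h1] at h3
        exact ⟨h4, hclos _ h3 _ h4.symm⟩
      · rintro ⟨h2, h3⟩
        refine ⟨(face_dart_iff hσ u).mpr h2, ?_⟩
        show (faceP σ u).1 ∈ A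
        rw [h1]
        exact hclos _ h3 _ h2
    have hUψ : ∀ u, faceP (res σ hσ.fst A) u ∈ {d : ℕ × ℕ | G.Adj d.1 d.2 ∧ d.1 ∈ A} ↔
        u ∈ {d : ℕ × ℕ | G.Adj d.1 d.2 ∧ d.1 ∈ A} := by
      intro u
      have h1 : ∀ d : ℕ × ℕ, d ∈ {d : ℕ × ℕ | G.Adj d.1 d.2 ∧ d.1 ∈ A} ↔
          (GA G A).Adj d.1 d.2 := by
        intro d
        constructor
        · rintro ⟨h2, h3⟩
          exact ⟨h2, h3, hclos _ h3 _ h2⟩
        · rintro ⟨h2, h3, _⟩
          exact ⟨h2, h3⟩
      rw [h1, h1]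
      exact face_dart_iff hrot u
    have heq : ∀ u ∈ {d : ℕ × ℕ | G.Adj d.1 d.2 ∧ d.1 ∈ A},
        faceP (res σ hσ.fst A) u = faceP σ u := by
      rintro u ⟨h2, h3⟩
      rw [faceP_apply, faceP_apply, res_apply, if_pos]
      exact hclos _ h3 _ h2
    have horb : ∀ u ∈ {d : ℕ × ℕ | G.Adj d.1 d.2 ∧ d.1 ∈ A},
        orb (faceP (res σ hσ.fst A)) u = orb (faceP σ) u := by
      intro u hu
      ext v
      constructor
      · intro h
        exact agree hUψ (fun t ht => (heq t ht).symm) hu h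
      · intro h
        exact agree hUφ heq hu h
    ext f
    constructor
    · rintro ⟨x, y, hxy, rfl⟩
      exact ⟨(x, y), hxy.1, hxy.2.1, horb _ ⟨hxy.1, hxy.2.1⟩⟩
    · rintro ⟨d, h1, h2, rfl⟩
      exact ⟨d.1, d.2, ⟨h1, h2, hclos _ h2 _ h1⟩, (horb _ ⟨h1, h2⟩).symm⟩
  have hcomp : (comps (GA G A) A).card = 1 := by
    rw [Finset.card_eq_one]
    refine ⟨A, ?_⟩
    have h1 : ∀ x ∈ A, compOf (GA G A) A x = A := by
      intro x hx
      ext y
      simp only [compOf, Finset.mem_filter, and_iff_left_iff_imp]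
      intro hy
      have hr : G.Reachable x y := ((hmemA x).mp hx).2.symm.trans ((hmemA y).mp hy).2
      obtain ⟨p⟩ := hr
      exact walk_GA hclos p hx
    ext B
    simp only [comps, Finset.mem_image, Finset.mem_singleton]
    constructor
    · rintro ⟨x, hx, rfl⟩
      exact h1 x hx
    · rintro rfl
      obtain ⟨x, hx⟩ : B.Nonempty := Finset.card_pos.mp (by omega)
      exact ⟨x, hx, h1 x hx⟩
  have hne : ne (GA G A) = neIn G A := by
    unfold ne neIn
    congr 1
    ext e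
    induction e with
    | h x y =>
      constructor
      · rintro ⟨h1, h2, h3⟩
        refine ⟨h1, ?_⟩
        intro z hz
        rcases Sym2.mem_iff.mp hz with rfl | rfl
        · exact h2
        · exact h3
      · rintro ⟨h1, h2⟩
        exact ⟨h1, h2 x (Sym2.mem_mk_left x y), h2 y (Sym2.mem_mk_right x y)⟩
  have h := heul A (GA G A) (res σ hσ.fst A) hGA hrot
  unfold FS at h
  rw [hface, hcomp, hne] at h
  omega

end GiantSurf57
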