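import Pool.Agent.GiantSurf57.StmtsTop
import Pool.Agent.GiantSurf57.Basic

/-!
# Package T22: adding edges inside the faces of a component with at most two faces
-/

open scoped Classical
open Finset

namespace GiantSurf57

theorem pkgT22 (hemb : S_embS) (hsame : S_sameOK) (heul : S_euler1) : S_addPairs := by
  intro g S G hG hE A hA hne
  obtain ⟨σ, hσ⟩ := (hemb g S G hG).mp hE
  rcases Nat.lt_or_ge A.card 2 with hA2 | hA2
  · exact ⟨∅, by simp, by simp; omega, by simp⟩
  have heu := heul S G σ hG hσ.rot A hA hA2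
  set FA : Set (Set (ℕ × ℕ)) :=
    {f | ∃ d : ℕ × ℕ, G.Adj d.1 d.2 ∧ d.1 ∈ A ∧ f = orb (faceP σ) d} with hFA
  have hFA2 : FA.ncard ≤ 2 := by omega
  have hdfin : {p : ℕ × ℕ | G.Adj p.1 p.2}.Finite := darts_finite (edgeSet_finite hG)
  have hFAfin : FA.Finite := by
    refine (hdfin.image (fun d => orb (faceP σ) d)).subset ?_
    rintro f ⟨d, hd, -, rfl⟩
    exact ⟨d, hd, rfl⟩
  simp only [comps, Finset.mem_image] at hA
  obtain ⟨x0, hx0, hAx⟩ := hA
  have hmemA : ∀ z, z ∈ A ↔ z ∈ S ∧ G.Reachable x0 z := by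
    intro z
    rw [← hAx]
    simp [compOf]
  -- a neighbour for every vertex of A
  have hnb : ∀ x ∈ A, ∃ z, G.Adj x z ∧ z ∈ A := by
    intro x hx
    obtain ⟨y, hy, hyx⟩ := Finset.exists_mem_ne (by omega : 1 < A.card) x
    have hr : G.Reachable x y := ((hmemA x).mp hx).2.symm.trans ((hmemA y).mp hy).2
    obtain ⟨p⟩ := hr
    cases p with
    | nil => exact absurd rfl hyx
    | cons h _ =>
      refine ⟨_, h, ?_⟩
      rw [hmemA]
      exact ⟨adj_mem_right hG h, ((hmemA x).mp hx).2.trans h.reachable⟩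
  choose! nb hnb1 hnb2 using hnb
  set F : ℕ → Set (ℕ × ℕ) := fun x => orb (faceP σ) (nb x, x) with hF
  have hFmem : ∀ x ∈ A, F x ∈ FA := by
    intro x hx
    exact ⟨(nb x, x), (hnb1 x hx).symm, hnb2 x hx, rfl⟩
  set T := hFAfin.toFinset with hT
  have hTcard : T.card ≤ 2 := by
    rw [hT, ← Set.ncard_eq_toFinset_card FA hFAfin]
    exact hFA2
  have hmaps : ∀ x ∈ A, F x ∈ T := by
    intro x hx
    rw [hT, Set.Finite.mem_toFinset]
    exact hFmem x hx
  obtain ⟨f, hf⟩ : ∃ f, A.card ≤ 2 * (A.filter (fun x => F x = f)).card + 1 := by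
    by_contra hcon
    push Not at hcon
    have h1 := Finset.card_eq_sum_card_fiberwise (f := F) (s := A) (t := T) hmaps
    have h2 : ∀ f ∈ T, 2 * (A.filter (fun x => F x = f)).card ≤ A.card - 2 := by
      intro f _
      have := hcon f
      omega
    have h3 : 2 * A.card ≤ T.card * (A.card - 2) := by
      calc 2 * A.card = ∑ f ∈ T, 2 * (A.filter (fun x => F x = f)).card := by
            rw [← Finset.mul_sum, ← h1]
        _ ≤ ∑ f ∈ T, (A.card - 2) := Finset.sum_le_sum h2
        _ = T.card * (A.card - 2) := by simp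
    have h4 : T.card * (A.card - 2) ≤ 2 * (A.card - 2) := Nat.mul_le_mul_right _ hTcard
    omega
  refine ⟨A.filter (fun x => F x = f), Finset.filter_subset _ _, hf, ?_⟩
  intro x hx y hy hxy hadj
  rw [Finset.mem_filter] at hx hy
  have hsc : (faceP σ).SameCycle (nb x, x) (nb y, y) := by
    have h1 : (nb y, y) ∈ F x := by
      rw [hx.2, ← hy.2]
      exact Equiv.Perm.SameCycle.refl _ _
    exact h1
  have hok := hsame g S G σ x y (x, nb x) (y, nb y) hσ hxy hadj rfl (hnb1 x hx.1) rfl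
    (hnb1 y hy.1) hsc
  exact (hemb g S _ hok.on).mpr ⟨_, hok⟩

end GiantSurf57
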