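import Pool.Agent.GiantSurf57.StmtsTop

/-!
# Package T3 of `GiantSurf57`: deleting an edge from a rotation system
-/

open scoped Classical
open Finset

namespace GiantSurf57

namespace PkgT3

open Equiv Equiv.Perm

variable {α : Type*} [DecidableEq α]

/-- Removing the point `z = φ a` from its cycle. -/
theorem del_pow {φ : Perm α} {a z : α} (hz : φ a = z) {c : α} (hc : c ≠ z) :
    ∀ n : ℕ, (φ ^ n) c ≠ z → (φ * swap a z).SameCycle c ((φ ^ n) c) := by
  by_cases haz : a = z
  · subst haz
    intro n _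
    have h1 : φ * swap a a = φ := by rw [swap_self]; exact mul_one φ
    rw [h1]
    exact ⟨n, by simp⟩
  intro n
  induction n using Nat.strong_induction_on with
  | _ n ih =>
    intro hn
    rcases n with _ | n
    · simpa using SameCycle.refl _ _
    rw [pow_succ', Perm.mul_apply] at hn ⊢
    by_cases h1 : (φ ^ n) c = z
    · -- the previous point is `z`
      rcases n with _ | n
      · exact absurd (by simpa using h1) hc
      have h1' := h1
      rw [pow_succ', Perm.mul_apply] at h1'
      have h2 : (φ ^ n) c = a := φ.injective (by rw [h1', hz])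
      have h3 := ih n (by omega) (by rw [h2]; exact haz)
      rw [h2] at h3
      rw [h1]
      have h4 : φ z = (φ * swap a z) a := by
        rw [Perm.mul_apply, swap_apply_left]
      rw [h4]
      exact sameCycle_apply_right.mpr h3
    · have h3 := ih n (by omega) h1
      have h2 : (φ ^ n) c ≠ a := by
        intro h
        apply hn
        rw [h, hz]
      have h4 : φ ((φ ^ n) c) = (φ * swap a z) ((φ ^ n) c) := by
        rw [Perm.mul_apply, swap_apply_of_ne_of_ne h2 h1]
      rw [h4]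
      exact sameCycle_apply_right.mpr h3

theorem del_same {φ : Perm α} {a z : α} (hz : φ a = z) {c d : α} (hc : c ≠ z) (hd : d ≠ z)
    (h : φ.SameCycle c d) : (φ * swap a z).SameCycle c d := by
  obtain ⟨i, hi⟩ := h
  rcases Int.eq_nat_or_neg i with ⟨n, rfl | rfl⟩
  · rw [zpow_natCast] at hi
    have := del_pow hz hc n (by rw [hi]; exact hd)
    rwa [hi] at this
  · have hi' : (φ ^ n) d = c := by
      rw [← hi, ← zpow_natCast, ← Perm.mul_apply, ← zpow_add]
      simp
    have := del_pow hz hd n (by rw [hi']; exact hc)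
    rw [hi'] at this
    exact this.symm

end PkgT3

open PkgT3 in
/-- T3. Every rotation system of a graph arises by insertion of a given edge. -/
theorem pkgT3 : S_del := by
  intro G σ x y _ hrot hadj
  have hne : x ≠ y := hadj.ne
  set a : ℕ × ℕ := σ.symm (x, y) with ha
  set b : ℕ × ℕ := σ.symm (y, x) with hb
  have hσa : σ a = (x, y) := by rw [ha]; simp
  have hσb : σ b = (y, x) := by rw [hb]; simp
  have ha1 : a.1 = x := by
    have := hrot.fst a
    rw [hσa] at this
    exact this.symm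
  have hb1 : b.1 = y := by
    have := hrot.fst b
    rw [hσb] at this
    exact this.symm
  have hxyne : (x, y) ≠ (y, x) := by
    intro h
    exact hne (Prod.ext_iff.mp h).1
  have ha_ne : a ≠ (y, x) := by
    intro h
    rw [h] at ha1
    exact hne ha1.symm
  have hb_ne : b ≠ (x, y) := by
    intro h
    rw [h] at hb1
    exact hne hb1
  have hab : a ≠ b := by
    intro h
    rw [h, hb1] at ha1
    exact hne ha1.symm
  set τ1 : Equiv.Perm (ℕ × ℕ) := σ * Equiv.swap b (y, x) with hτ1
  set τ : Equiv.Perm (ℕ × ℕ) := τ1 * Equiv.swap a (x, y) with hτ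
  have hτ1a : τ1 a = (x, y) := by
    rw [hτ1, Equiv.Perm.mul_apply, Equiv.swap_apply_of_ne_of_ne hab ha_ne, hσa]
  have hAdj : ∀ u v, (G \ SimpleGraph.edge x y).Adj u v ↔
      (G.Adj u v ∧ (u, v) ≠ (x, y) ∧ (u, v) ≠ (y, x)) := by
    intro u v
    rw [SimpleGraph.sdiff_adj, SimpleGraph.edge_adj]
    constructor
    · rintro ⟨h1, h2⟩
      refine ⟨h1, ?_, ?_⟩
      · intro h
        obtain ⟨rfl, rfl⟩ := Prod.ext_iff.mp h
        exact h2 ⟨Or.inl ⟨rfl, rfl⟩, hne⟩
      · intro h
        obtain ⟨rfl, rfl⟩ := Prod.ext_iff.mp h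
        exact h2 ⟨Or.inr ⟨rfl, rfl⟩, hne.symm⟩
    · rintro ⟨h1, h2, h3⟩
      refine ⟨h1, ?_⟩
      rintro ⟨⟨rfl, rfl⟩ | ⟨rfl, rfl⟩, _⟩
      · exact h2 rfl
      · exact h3 rfl
  have hsw : ∀ (p q e : ℕ × ℕ), p.1 = q.1 → (Equiv.swap p q e).1 = e.1 := by
    intro p q e hpq
    by_cases h1 : e = p
    · subst h1; rw [Equiv.swap_apply_left]; exact hpq.symm
    · by_cases h2 : e = q
      · subst h2; rw [Equiv.swap_apply_right]; exact hpq
      · rw [Equiv.swap_apply_of_ne_of_ne h1 h2]
  have hdart : ∀ (e d : ℕ × ℕ), σ e = d → G.Adj d.1 d.2 → G.Adj e.1 e.2 := by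
    intro e d hed hd
    by_contra hcon
    have := hrot.fix e.1 e.2 hcon
    rw [Prod.mk.eta, hed] at this
    rw [this] at hd
    exact hcon hd
  have hadjyx : G.Adj y x := hadj.symm
  have haAdj : G.Adj a.1 a.2 := hdart a (x, y) hσa hadj
  have hbAdj : G.Adj b.1 b.2 := hdart b (y, x) hσb hadjyx
  refine ⟨τ, a, b, ⟨?_, ?_, ?_⟩, ?_, ?_, ?_⟩
  · -- fix
    intro u v huv
    rw [hAdj] at huv
    by_cases h1 : (u, v) = (x, y)
    · rw [h1, hτ, Equiv.Perm.mul_apply, Equiv.swap_apply_right, hτ1a]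
    · by_cases h2 : (u, v) = (y, x)
      · rw [h2, hτ, Equiv.Perm.mul_apply,
          Equiv.swap_apply_of_ne_of_ne ha_ne.symm hxyne.symm, hτ1, Equiv.Perm.mul_apply,
          Equiv.swap_apply_right, hσb]
      · have h3 : ¬ G.Adj u v := fun h => huv ⟨h, h1, h2⟩
        have h4 : (u, v) ≠ a := by
          intro h
          rw [← h] at haAdj
          exact h3 haAdj
        have h5 : (u, v) ≠ b := by
          intro h
          rw [← h] at hbAdj
          exact h3 hbAdj
        rw [hτ, Equiv.Perm.mul_apply, Equiv.swap_apply_of_ne_of_ne h4 h1, hτ1,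
          Equiv.Perm.mul_apply, Equiv.swap_apply_of_ne_of_ne h5 h2]
        exact hrot.fix _ _ h3
  · intro d
    rw [hτ, hτ1, Equiv.Perm.mul_apply, Equiv.Perm.mul_apply, hrot.fst, hsw b (y, x) _ hb1,
      hsw a (x, y) _ ha1]
  · intro u v w huv huw
    rw [hAdj] at huv huw
    exact del_same hτ1a huv.2.1 huw.2.1
      (del_same hσb huv.2.2 huw.2.2 (hrot.cyc u v w huv.1 huw.1))
  · -- corner at x
    by_cases h : a = (x, y)
    · left
      refine ⟨h, ?_⟩
      intro z hz
      rw [hAdj] at hz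
      have h1 := hrot.cyc x y z hadj hz.1
      have h2 : σ (x, y) = (x, y) := by rw [← h]; rw [hσa]; exact h.symm ▸ rfl
      obtain ⟨i, hi⟩ := h1
      rw [Equiv.Perm.zpow_apply_eq_self_of_apply_eq_self h2 i] at hi
      exact hz.2.1 hi.symm
    · right
      refine ⟨ha1, ?_⟩
      rw [hAdj]
      exact ⟨haAdj, h, ha_ne⟩
  · by_cases h : b = (y, x)
    · left
      refine ⟨h, ?_⟩
      intro z hz
      rw [hAdj] at hz
      have h1 := hrot.cyc y x z hadjyx hz.1
      have h2 : σ (y, x) = (y, x) := by rw [← h]; rw [hσb]; exact h.symm ▸ rfl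
      obtain ⟨i, hi⟩ := h1
      rw [Equiv.Perm.zpow_apply_eq_self_of_apply_eq_self h2 i] at hi
      exact hz.2.2 hi.symm
    · right
      refine ⟨hb1, ?_⟩
      rw [hAdj]
      exact ⟨hbAdj, hb_ne, h⟩
  · show σ = τ * Equiv.swap a (x, y) * Equiv.swap b (y, x)
    rw [hτ, mul_assoc τ1, Equiv.swap_mul_self, mul_one, hτ1, mul_assoc σ, Equiv.swap_mul_self,
      mul_one]

end GiantSurf57
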