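import Pool.Agent.GiantSurf57.StmtsTop
import Pool.Agent.GiantSurf57.Basic

/-!
# Package T4 of the project `GiantSurf57`: the number of faces after inserting an edge
-/

open scoped Classical
open Finset

namespace GiantSurf57

namespace PkgT4

variable {α : Type*}

/-- conjugating a transposition by an involution -/
theorem faceP_insR (σ : Equiv.Perm (ℕ × ℕ)) (a b : ℕ × ℕ) (x y : ℕ) :
    faceP (insR σ a b x y) =
      faceP σ * Equiv.swap a.swap (y, x) * Equiv.swap b.swap (x, y) := by
  ext1 d
  have h : ∀ (u v w : ℕ × ℕ), Equiv.swap u v w.swap = (Equiv.swap u.swap v.swap w).swap := by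
    intro u v w
    have h1 := Equiv.swap_apply_apply (Equiv.prodComm ℕ ℕ) u.swap v.swap
    have h2 : Equiv.swap u v = (Equiv.prodComm ℕ ℕ).symm.trans
        ((Equiv.swap u.swap v.swap).trans (Equiv.prodComm ℕ ℕ)) := by
      have h3 : (Equiv.prodComm ℕ ℕ) u.swap = u := by simp
      have h4 : (Equiv.prodComm ℕ ℕ) v.swap = v := by simp
      ext1 z
      simp only [Equiv.trans_apply, Equiv.prodComm_symm, Equiv.prodComm_apply]
      by_cases hu : z = u
      · subst hu; simp
      · by_cases hv : z = v
        · subst hv; simp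
        · rw [Equiv.swap_apply_of_ne_of_ne hu hv, Equiv.swap_apply_of_ne_of_ne]
          · simp
          · intro h; exact hu (Prod.swap_injective h)
          · intro h; exact hv (Prod.swap_injective h)
    rw [h2]
    simp
  simp only [faceP, insR, Equiv.Perm.coe_mul, Function.comp_apply, Equiv.prodComm_apply]
  rw [h b (y, x) d, h a (x, y)]
  simp

/-- if `T` is invariant then so is every cycle meeting it -/
theorem sameCycle_mem {φ : Equiv.Perm α} {T : Set α} (hT : ∀ e, e ∈ T ↔ φ e ∈ T) {u v : α}
    (h : φ.SameCycle u v) (hu : u ∈ T) : v ∈ T := by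
  obtain ⟨i, hi⟩ := h
  have key : ∀ j : ℤ, (φ ^ j) u ∈ T := by
    intro j
    induction j using Int.induction_on with
    | zero => simpa using hu
    | succ n ih =>
      rw [add_comm, zpow_add, zpow_one, Equiv.Perm.mul_apply]
      exact (hT _).mp ih
    | pred n ih =>
      have h1 : (φ ^ (-(n : ℤ))) u = φ ((φ ^ (-(n : ℤ) - 1)) u) := by
        rw [← Equiv.Perm.mul_apply, ← zpow_one_add]
        congr 2
        ring
      rw [h1] at ih
      exact (hT _).mpr ih
  rw [← hi]
  exact key i

variable {G : SimpleGraph ℕ} {σ : Equiv.Perm (ℕ × ℕ)} {S : Finset ℕ} {x y : ℕ}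

theorem rot_dart_iff (h : IsRot G σ) (d : ℕ × ℕ) : G.Adj d.1 d.2 ↔ G.Adj (σ d).1 (σ d).2 := by
  constructor
  · intro hd
    by_contra hn
    have h1 : σ (σ d) = σ d := h.fix (σ d).1 (σ d).2 hn
    have h2 : σ d = d := σ.injective h1
    rw [h2] at hn
    exact hn hd
  · intro hd
    by_contra hn
    have h1 : σ d = d := h.fix d.1 d.2 hn
    rw [h1] at hd
    exact hn hd

theorem face_dart_iff (h : IsRot G σ) (d : ℕ × ℕ) :
    G.Adj d.1 d.2 ↔ G.Adj (faceP σ d).1 (faceP σ d).2 := by
  have h1 : faceP σ d = σ d.swap := by simp [faceP]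
  rw [h1, ← rot_dart_iff h]
  exact G.adj_comm _ _

/-- darts of `G` -/
def dts (G : SimpleGraph ℕ) : Set (ℕ × ℕ) := {d | G.Adj d.1 d.2}

theorem dts_finite (hG : G ∈ graphsOn S) : (dts G).Finite := by
  refine (Finset.finite_toSet (S ×ˢ S)).subset ?_
  intro d hd
  simp only [Finset.coe_product, Set.mem_prod]
  exact ⟨adj_mem_left hG hd, adj_mem_right hG hd⟩

/-- the orbits of the elements of `D` -/
def orbs (φ : Equiv.Perm (ℕ × ℕ)) (D : Set (ℕ × ℕ)) : Set (Set (ℕ × ℕ)) :=
  {f | ∃ d ∈ D, f = orb φ d}

theorem faces_eq : faces G σ = orbs (faceP σ) (dts G) := by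
  ext f
  constructor
  · rintro ⟨x, y, h, rfl⟩
    exact ⟨(x, y), h, rfl⟩
  · rintro ⟨d, h, rfl⟩
    exact ⟨d.1, d.2, h, rfl⟩

theorem dts_sup (hxy : x ≠ y) :
    dts (G ⊔ SimpleGraph.edge x y) = dts G ∪ {(x, y), (y, x)} := by
  ext d
  obtain ⟨u, v⟩ := d
  simp only [dts, SimpleGraph.sup_adj, SimpleGraph.edge_adj, Set.mem_ofPred_eq, Set.mem_union,
    Set.mem_insert_iff, Set.mem_singleton_iff, Prod.mk.injEq]
  constructor
  · rintro (h | ⟨h, -⟩)
    · exact Or.inl h
    · exact Or.inr h
  · rintro (h | h)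
    · exact Or.inl h
    · refine Or.inr ⟨h, ?_⟩
      rcases h with ⟨rfl, rfl⟩ | ⟨rfl, rfl⟩
      · exact hxy
      · exact hxy.symm

/-- the old face permutation exchanges the two new darts -/
theorem face_new (h : IsRot G σ) (hn : ¬ G.Adj x y) :
    faceP σ (x, y) = (y, x) ∧ faceP σ (y, x) = (x, y) := by
  constructor
  · have : faceP σ (x, y) = σ (y, x) := by simp [faceP]
    rw [this]
    exact h.fix y x (fun h' => hn h'.symm)
  · have : faceP σ (y, x) = σ (x, y) := by simp [faceP]
    rw [this]
    exact h.fix x y hn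

theorem new_orb (h : IsRot G σ) (hn : ¬ G.Adj x y) {e : ℕ × ℕ}
    (he : (faceP σ).SameCycle (x, y) e) : e = (x, y) ∨ e = (y, x) := by
  have hf := face_new h hn
  have : e ∈ ({(x, y), (y, x)} : Set (ℕ × ℕ)) := by
    refine sameCycle_mem (T := {(x, y), (y, x)}) ?_ he (by simp)
    intro z
    simp only [Set.mem_insert_iff, Set.mem_singleton_iff]
    constructor
    · rintro (rfl | rfl)
      · right; exact hf.1
      · left; exact hf.2
    · rintro (h1 | h1)
      · right; exact (faceP σ).injective (h1.trans hf.2.symm)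
      · left; exact (faceP σ).injective (h1.trans hf.1.symm)
  simpa using this

theorem dart_orb (h : IsRot G σ) {d e : ℕ × ℕ} (hd : d ∈ dts G)
    (he : (faceP σ).SameCycle d e) : e ∈ dts G :=
  sameCycle_mem (T := dts G) (fun z => face_dart_iff h z) he hd

/-- `orbs` of the old face permutation on the enlarged set -/
theorem orbs_old (hG : G ∈ graphsOn S) (h : IsRot G σ) (hn : ¬ G.Adj x y) :
    (orbs (faceP σ) (dts G ∪ {(x, y), (y, x)})).ncard = (faces G σ).ncard + 1 := by
  have hf := face_new h hn
  have h1 : orbs (faceP σ) (dts G ∪ {(x, y), (y, x)}) =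
      insert (orb (faceP σ) (x, y)) (faces G σ) := by
    rw [faces_eq]
    ext f
    constructor
    · rintro ⟨d, hd, rfl⟩
      rcases hd with hd | hd | hd
      · exact Or.inr ⟨d, hd, rfl⟩
      · left; rw [hd]
      · left
        rw [Set.mem_singleton_iff] at hd
        rw [hd]
        have hs : (faceP σ).SameCycle (x, y) (y, x) := ⟨1, by simpa using hf.1⟩
        ext e
        exact ⟨fun h => hs.trans h, fun h => hs.symm.trans h⟩
    · rintro (rfl | ⟨d, hd, rfl⟩)
      · exact ⟨(x, y), by simp, rfl⟩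
      · exact ⟨d, Or.inl hd, rfl⟩
  have hfin : (faces G σ).Finite := by
    rw [faces_eq]
    refine ((dts_finite hG).image (orb (faceP σ))).subset ?_
    rintro f ⟨d, hd, rfl⟩
    exact ⟨d, hd, rfl⟩
  rw [h1, Set.ncard_insert_of_notMem _ hfin]
  rw [faces_eq]
  rintro ⟨d, hd, hd'⟩
  have h2 : (x, y) ∈ orb (faceP σ) d := by
    rw [← hd']
    exact Equiv.Perm.SameCycle.refl _ _
  exact hn (dart_orb h hd h2)

/-- isolated vertices -/
theorem iso_sup (hxy : x ≠ y) :
    S.filter (fun u => ∀ z, ¬ (G ⊔ SimpleGraph.edge x y).Adj u z) =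
      ((S.filter (fun u => ∀ z, ¬ G.Adj u z)).erase x).erase y := by
  ext u
  simp only [Finset.mem_filter, Finset.mem_erase, SimpleGraph.sup_adj, SimpleGraph.edge_adj]
  constructor
  · rintro ⟨hu, h⟩
    refine ⟨?_, ?_, hu, fun z hz => h z (Or.inl hz)⟩
    · rintro rfl
      exact h x (Or.inr ⟨Or.inr ⟨rfl, rfl⟩, hxy.symm⟩)
    · rintro rfl
      exact h y (Or.inr ⟨Or.inl ⟨rfl, rfl⟩, hxy⟩)
  · rintro ⟨h1, h2, hu, h⟩
    refine ⟨hu, ?_⟩
    rintro z (hz | ⟨⟨rfl, rfl⟩ | ⟨rfl, rfl⟩, -⟩)
    · exact h z hz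
    · exact h2 rfl
    · exact h1 rfl

end PkgT4

open PkgT4

theorem pkgT4 (h1 : S_swap) (_h2 : S_ins) : S_faceCount := by
  intro S G σ x y a b hG hx hy hxy hn hσ ha hb
  have hd' : ¬ G.Adj y x := fun h => hn h.symm
  set D : Set (ℕ × ℕ) := dts G ∪ {(x, y), (y, x)} with hD
  set φ := faceP σ with hφ
  have hDf : D.Finite := (dts_finite hG).union (Set.toFinite _)
  have hxyD : (x, y) ∈ D := by simp [hD]
  have hyxD : (y, x) ∈ D := by simp [hD]
  have hne : (x, y) ≠ (y, x) := by
    intro h
    exact hxy (Prod.ext_iff.mp h).1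
  have hf := face_new hσ hn
  have hcl : ∀ d ∈ D, φ d ∈ D := by
    rintro d (hd | hd | hd)
    · exact Or.inl ((face_dart_iff hσ d).mp hd)
    · rw [hd, hf.1]; exact hyxD
    · rw [Set.mem_singleton_iff] at hd
      rw [hd, hf.2]; exact hxyD
  have hclsw : ∀ u ∈ D, ∀ v ∈ D, ∀ d ∈ D, Equiv.swap u v d ∈ D := by
    intro u hu v hv d hd
    rcases eq_or_ne d u with rfl | hdu
    · simpa using hv
    · rcases eq_or_ne d v with rfl | hdv
      · simpa using hu
      · rwa [Equiv.swap_apply_of_ne_of_ne hdu hdv]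
  have hcount : (orbs φ D).ncard = (faces G σ).ncard + 1 := orbs_old hG hσ hn
  have hfaces : faces (G ⊔ SimpleGraph.edge x y) (insR σ a b x y) =
      orbs (φ * Equiv.swap a.swap (y, x) * Equiv.swap b.swap (x, y)) D := by
    rw [faces_eq, faceP_insR, dts_sup hxy]
  set φ1 := φ * Equiv.swap a.swap (y, x) with hφ1
  have hcl1 : ∀ d ∈ D, a.swap ∈ D → φ1 d ∈ D := fun d hd ha' => by
    rw [hφ1, Equiv.Perm.mul_apply]
    exact hcl _ (hclsw _ ha' _ hyxD _ hd)
  -- isolated vertices
  set I := S.filter (fun u => ∀ z, ¬ G.Adj u z) with hI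
  have hiso : S.filter (fun u => ∀ z, ¬ (G ⊔ SimpleGraph.edge x y).Adj u z) =
      (I.erase x).erase y := iso_sup hxy
  have e1 : FS G σ S = (faces G σ).ncard + I.card := by
    rw [FS, hI]
  have e2 : FS (G ⊔ SimpleGraph.edge x y) (insR σ a b x y) S =
      (orbs (φ1 * Equiv.swap b.swap (x, y)) D).ncard + ((I.erase x).erase y).card := by
    rw [FS, hfaces, ← hiso]
  rw [e1, e2]
  -- darts of `G` are not new darts
  have hnew : ∀ d : ℕ × ℕ, G.Adj d.1 d.2 → d ≠ (x, y) ∧ d ≠ (y, x) := by
    intro d hd
    constructor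
    · rintro rfl; exact hn hd
    · rintro rfl; exact hd' hd
  rcases ha with ⟨rfl, hax⟩ | ⟨rfl, ha2⟩
  · -- `x` isolated
    have hxI : x ∈ I := by simp [hI, hx, hax]
    have hφ1' : φ1 = φ := by
      rw [hφ1, show (x, y).swap = (y, x) from rfl, Equiv.swap_self]
      rfl
    rw [hφ1']
    have hnot : ¬ (G.Adj (x, y).1 (x, y).2 ∧ G.Adj b.1 b.2 ∧ φ.SameCycle (x, y).swap b.swap) :=
      fun h => hn h.1
    refine ⟨fun h => absurd h hnot, fun _ => ?_⟩
    rcases hb with ⟨rfl, hby⟩ | ⟨hb1, hb2⟩
    · have hyI : y ∈ I.erase x := by simp [hI, hy, hby, hxy.symm]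
      have h3 : φ * Equiv.swap (y, x).swap (x, y) = φ := by
        rw [show (y, x).swap = (x, y) from rfl, Equiv.swap_self]
        rfl
      rw [h3, hcount, Finset.card_erase_of_mem hyI, Finset.card_erase_of_mem hxI]
      have h4 : 2 ≤ I.card := by
        have h5 := Finset.card_pos.mpr ⟨y, hyI⟩
        rw [Finset.card_erase_of_mem hxI] at h5
        omega
      omega
    · have hyI : y ∉ I.erase x := by
        intro h
        have h5 := (Finset.mem_filter.mp (Finset.mem_of_mem_erase h)).2 b.2
        rw [← hb1] at h5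
        exact h5 hb2
      rw [Finset.erase_eq_of_notMem hyI, Finset.card_erase_of_mem hxI]
      have hbs : b.swap ∈ dts G := hb2.symm
      have hbD : b.swap ∈ D := Or.inl hbs
      have hbne : b.swap ≠ (x, y) := (hnew b.swap hbs).1
      have hns : ¬ φ.SameCycle b.swap (x, y) := fun h => hn (dart_orb hσ hbs h)
      have h6 := (h1 φ D hDf hcl b.swap hbD (x, y) hxyD hbne).2 hns
      have h7 := Finset.card_pos.mpr ⟨x, hxI⟩
      change (orbs (φ * Equiv.swap b.swap (x, y)) D).ncard + 1 = (orbs φ D).ncard at h6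
      omega
  · -- `a` is a dart
    have hxI : a.1 ∉ I := by
      intro h
      exact (Finset.mem_filter.mp h).2 a.2 ha2
    rw [Finset.erase_eq_of_notMem hxI]
    have has : a.swap ∈ dts G := ha2.symm
    have haD : a.swap ∈ D := Or.inl has
    have hane := hnew a.swap has
    have hns : ¬ φ.SameCycle a.swap (y, a.1) := fun h => hd' (dart_orb hσ has h)
    have h6 := (h1 φ D hDf hcl a.swap haD (y, a.1) hyxD hane.2).2 hns
    change (orbs φ1 D).ncard + 1 = (orbs φ D).ncard at h6
    have hcount1 : (orbs φ1 D).ncard = (faces G σ).ncard := by omega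
    have hcl1' : ∀ d ∈ D, φ1 d ∈ D := fun d hd => hcl1 d hd haD
    rcases hb with ⟨rfl, hby⟩ | ⟨hb1, hb2⟩
    · have hyI : y ∈ I := by simp [hI, hy, hby]
      have hnot : ¬ (G.Adj a.1 a.2 ∧ G.Adj (y, a.1).1 (y, a.1).2 ∧
          φ.SameCycle a.swap (y, a.1).swap) := fun h => hd' h.2.1
      refine ⟨fun h => absurd h hnot, fun _ => ?_⟩
      have h3 : φ1 * Equiv.swap (y, a.1).swap (a.1, y) = φ1 := by
        rw [show (y, a.1).swap = (a.1, y) from rfl, Equiv.swap_self]
        rfl
      rw [h3, hcount1, Finset.card_erase_of_mem hyI]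
      have h7 := Finset.card_pos.mpr ⟨y, hyI⟩
      omega
    · have hyI : y ∉ I := by
        intro h
        have h5 := (Finset.mem_filter.mp h).2 b.2
        rw [← hb1] at h5
        exact h5 hb2
      rw [Finset.erase_eq_of_notMem hyI]
      have hbs : b.swap ∈ dts G := hb2.symm
      have hbD : b.swap ∈ D := Or.inl hbs
      have hbne := hnew b.swap hbs
      -- values of `φ1`
      have v1 : φ1 a.swap = (a.1, y) := by
        rw [hφ1, Equiv.Perm.mul_apply, Equiv.swap_apply_left]
        exact hf.2
      have v2 : φ1 (a.1, y) = (y, a.1) := by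
        rw [hφ1, Equiv.Perm.mul_apply, Equiv.swap_apply_of_ne_of_ne hane.1.symm hne]
        exact hf.1
      have v3 : φ1 (y, a.1) = φ a.swap := by
        rw [hφ1, Equiv.Perm.mul_apply, Equiv.swap_apply_right]
      have v4 : ∀ e : ℕ × ℕ, e ≠ a.swap → e ≠ (y, a.1) → φ1 e = φ e := by
        intro e he1 he2
        rw [hφ1, Equiv.Perm.mul_apply, Equiv.swap_apply_of_ne_of_ne he1 he2]
      have hsa : φ1.SameCycle a.swap (a.1, y) := ⟨1, by simpa using v1⟩
      have hsb : φ1.SameCycle (a.1, y) (y, a.1) := ⟨1, by simpa using v2⟩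
      have hsc : φ1.SameCycle (y, a.1) (φ a.swap) := ⟨1, by simpa using v3⟩
      have hiff : φ1.SameCycle b.swap (a.1, y) ↔ φ.SameCycle a.swap b.swap := by
        constructor
        · intro h
          have : b.swap ∈ {e | φ.SameCycle a.swap e} ∪ {(a.1, y), (y, a.1)} := by
            refine sameCycle_mem (φ := φ1) ?_ h.symm (by simp)
            intro z
            rcases eq_or_ne z a.swap with rfl | hz1
            · rw [v1]
              simp [Equiv.Perm.SameCycle.refl]
            · rcases eq_or_ne z (y, a.1) with rfl | hz2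
              · rw [v3]
                have : φ.SameCycle a.swap (φ a.swap) := ⟨1, by simp⟩
                simp [this]
              · rw [v4 z hz1 hz2]
                rcases eq_or_ne z (a.1, y) with rfl | hz3
                · rw [hf.1]; simp
                · have hA : φ.SameCycle a.swap z ↔ φ.SameCycle a.swap (φ z) := by
                    rw [Equiv.Perm.sameCycle_apply_right]
                  have hB : φ z ≠ (a.1, y) := fun h => hz2 (φ.injective (h.trans hf.2.symm))
                  have hC : φ z ≠ (y, a.1) := fun h => hz3 (φ.injective (h.trans hf.1.symm))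
                  simp only [Set.mem_union, Set.mem_ofPred_eq, Set.mem_insert_iff,
                    Set.mem_singleton_iff, hz2, hz3, hB, hC, or_false, hA]
          rcases this with h | h | h
          · exact h
          · exact absurd h hbne.1
          · exact absurd h hbne.2
        · intro h
          have : b.swap ∈ {e | φ1.SameCycle a.swap e ∧ e ∈ dts G} ∪ {e | ¬ φ.SameCycle a.swap e} := by
            refine sameCycle_mem (φ := φ) ?_ h (Or.inl ⟨Equiv.Perm.SameCycle.refl _ _, has⟩)
            intro z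
            by_cases hz : φ.SameCycle a.swap z
            · have hz' : φ.SameCycle a.swap (φ z) := Equiv.Perm.sameCycle_apply_right.mpr hz
              have hzd : z ∈ dts G := dart_orb hσ has hz
              have hzd' : φ z ∈ dts G := dart_orb hσ has hz'
              have hz2 : z ≠ (y, a.1) := (hnew z hzd).2
              simp only [Set.mem_union, Set.mem_ofPred_eq, hz, hz', hzd, hzd', not_true_eq_false,
                or_false, and_true]
              rcases eq_or_ne z a.swap with rfl | hz1
              · constructor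
                · intro _
                  exact hsa.trans (hsb.trans hsc)
                · intro _
                  exact Equiv.Perm.SameCycle.refl _ _
              · rw [← v4 z hz1 hz2, Equiv.Perm.sameCycle_apply_right]
            · have hz' : ¬ φ.SameCycle a.swap (φ z) := by
                rwa [Equiv.Perm.sameCycle_apply_right]
              simp [hz, hz']
          rcases this with h' | h'
          · exact h'.1.symm.trans hsa
          · exact absurd h h'
      have hS := h1 φ1 D hDf hcl1' b.swap hbD (a.1, y) hxyD hbne.1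
      change (φ1.SameCycle b.swap (a.1, y) →
        (orbs (φ1 * Equiv.swap b.swap (a.1, y)) D).ncard = (orbs φ1 D).ncard + 1) ∧
        (¬ φ1.SameCycle b.swap (a.1, y) →
        (orbs (φ1 * Equiv.swap b.swap (a.1, y)) D).ncard + 1 = (orbs φ1 D).ncard) at hS
      constructor
      · rintro ⟨-, -, h⟩
        have := hS.1 (hiff.mpr h)
        omega
      · intro h
        have h' : ¬ φ.SameCycle a.swap b.swap := fun h'' => h ⟨ha2, hb2, h''⟩
        have := hS.2 (fun h'' => h' (hiff.mp h''))
        omega

end GiantSurf57
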