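import Pool.Agent.GiantSurf57.StmtsTop
import Pool.Agent.GiantSurf57.Basic

/-!
# Package T5 of the project `GiantSurf57`: components after inserting an edge
-/

open scoped Classical
open Finset

namespace GiantSurf57

namespace PkgT5

theorem reach_sup {G : SimpleGraph ℕ} {x y : ℕ} (u v : ℕ) :
    (G ⊔ SimpleGraph.edge x y).Reachable u v ↔
      (G.Reachable u v ∨ (G.Reachable u x ∧ G.Reachable y v) ∨
        (G.Reachable u y ∧ G.Reachable x v)) := by
  constructor
  · rintro ⟨p⟩
    induction p with
    | nil => exact Or.inl (SimpleGraph.Reachable.refl _)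
    | @cons a b c h _ ih =>
      rw [SimpleGraph.sup_adj, SimpleGraph.edge_adj] at h
      rcases h with h | ⟨⟨rfl, rfl⟩ | ⟨rfl, rfl⟩, _⟩
      · have hr : G.Reachable a b := h.reachable
        rcases ih with h1 | ⟨h1, h2⟩ | ⟨h1, h2⟩
        · exact Or.inl (hr.trans h1)
        · exact Or.inr (Or.inl ⟨hr.trans h1, h2⟩)
        · exact Or.inr (Or.inr ⟨hr.trans h1, h2⟩)
      · rcases ih with h1 | ⟨h1, h2⟩ | ⟨h1, h2⟩
        · exact Or.inr (Or.inl ⟨SimpleGraph.Reachable.refl _, h1⟩)
        · exact Or.inr (Or.inl ⟨SimpleGraph.Reachable.refl _, h2⟩)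
        · exact Or.inl h2
      · rcases ih with h1 | ⟨h1, h2⟩ | ⟨h1, h2⟩
        · exact Or.inr (Or.inr ⟨SimpleGraph.Reachable.refl _, h1⟩)
        · exact Or.inl h2
        · exact Or.inr (Or.inr ⟨SimpleGraph.Reachable.refl _, h2⟩)
  · have hmono : ∀ {a b : ℕ}, G.Reachable a b → (G ⊔ SimpleGraph.edge x y).Reachable a b :=
      fun h => h.mono le_sup_left
    have hxy : (G ⊔ SimpleGraph.edge x y).Reachable x y := by
      by_cases h : x = y
      · rw [h]
      · refine SimpleGraph.Adj.reachable ?_
        rw [SimpleGraph.sup_adj, SimpleGraph.edge_adj]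
        exact Or.inr ⟨Or.inl ⟨rfl, rfl⟩, h⟩
    rintro (h | ⟨h1, h2⟩ | ⟨h1, h2⟩)
    · exact hmono h
    · exact ((hmono h1).trans hxy).trans (hmono h2)
    · exact ((hmono h1).trans hxy.symm).trans (hmono h2)

theorem mem_compOf {G : SimpleGraph ℕ} {S : Finset ℕ} {u v : ℕ} :
    v ∈ compOf G S u ↔ v ∈ S ∧ G.Reachable u v := by
  simp [compOf]

theorem compOf_eq_of_reach {G : SimpleGraph ℕ} {S : Finset ℕ} {u v : ℕ} (h : G.Reachable u v) :
    compOf G S u = compOf G S v := by
  ext a
  rw [mem_compOf, mem_compOf]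
  exact ⟨fun ⟨h1, h2⟩ => ⟨h1, h.symm.trans h2⟩, fun ⟨h1, h2⟩ => ⟨h1, h.trans h2⟩⟩

end PkgT5

open PkgT5 in
theorem pkgT5 : S_compCount := by
  intro S G x y _ hx hy
  refine ⟨?_, ?_⟩
  · intro hn
    have hn' : ¬ G.Reachable y x := fun h => hn h.symm
    obtain ⟨A, hA⟩ : ∃ A, A = compOf G S x := ⟨_, rfl⟩
    obtain ⟨B, hB⟩ : ∃ B, B = compOf G S y := ⟨_, rfl⟩
    have hxA : x ∈ A := by rw [hA, mem_compOf]; exact ⟨hx, SimpleGraph.Reachable.refl _⟩
    have hyB : y ∈ B := by rw [hB, mem_compOf]; exact ⟨hy, SimpleGraph.Reachable.refl _⟩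
    have hyA : y ∉ A := by rw [hA, mem_compOf]; exact fun h => hn h.2
    have hAB : A ≠ B := fun h => hyA (h ▸ hyB)
    have hAc : A ∈ comps G S := by rw [hA]; exact Finset.mem_image_of_mem _ hx
    have hBc : B ∈ comps G S := by rw [hB]; exact Finset.mem_image_of_mem _ hy
    have key : comps (G ⊔ SimpleGraph.edge x y) S = insert (A ∪ B) (((comps G S).erase A).erase B) := by
      have k1 : ∀ u ∈ S, (G.Reachable u x ∨ G.Reachable u y) →
          compOf (G ⊔ SimpleGraph.edge x y) S u = A ∪ B := by
        intro u _ hu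
        ext a
        rw [mem_compOf, Finset.mem_union, hA, hB, mem_compOf, mem_compOf, reach_sup]
        constructor
        · rintro ⟨h1, h2⟩
          rcases hu with hu | hu
          · rcases h2 with h2 | ⟨_, h3⟩ | ⟨h2, _⟩
            · exact Or.inl ⟨h1, hu.symm.trans h2⟩
            · exact Or.inr ⟨h1, h3⟩
            · exact absurd (hu.symm.trans h2) hn
          · rcases h2 with h2 | ⟨h2, _⟩ | ⟨_, h3⟩
            · exact Or.inr ⟨h1, hu.symm.trans h2⟩
            · exact absurd (hu.symm.trans h2) hn'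
            · exact Or.inl ⟨h1, h3⟩
        · rintro (⟨h1, h2⟩ | ⟨h1, h2⟩)
          · refine ⟨h1, ?_⟩
            rcases hu with hu | hu
            · exact Or.inl (hu.trans h2)
            · exact Or.inr (Or.inr ⟨hu, h2⟩)
          · refine ⟨h1, ?_⟩
            rcases hu with hu | hu
            · exact Or.inr (Or.inl ⟨hu, h2⟩)
            · exact Or.inl (hu.trans h2)
      have k2 : ∀ u ∈ S, ¬ G.Reachable u x → ¬ G.Reachable u y →
          compOf (G ⊔ SimpleGraph.edge x y) S u = compOf G S u := by
        intro u _ h1 h2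
        ext a
        rw [mem_compOf, mem_compOf, reach_sup]
        constructor
        · rintro ⟨h3, h4 | ⟨h4, _⟩ | ⟨h4, _⟩⟩
          · exact ⟨h3, h4⟩
          · exact absurd h4 h1
          · exact absurd h4 h2
        · rintro ⟨h3, h4⟩
          exact ⟨h3, Or.inl h4⟩
      ext C
      rw [Finset.mem_insert, Finset.mem_erase, Finset.mem_erase]
      constructor
      · intro hC
        obtain ⟨u, hu, rfl⟩ := Finset.mem_image.mp hC
        by_cases h1 : G.Reachable u x ∨ G.Reachable u y
        · exact Or.inl (k1 u hu h1)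
        · push Not at h1
          right
          rw [k2 u hu h1.1 h1.2]
          refine ⟨?_, ?_, Finset.mem_image_of_mem _ hu⟩
          · intro h2
            have : u ∈ B := by rw [← h2, mem_compOf]; exact ⟨hu, SimpleGraph.Reachable.refl _⟩
            rw [hB, mem_compOf] at this
            exact h1.2 this.2.symm
          · intro h2
            have : u ∈ A := by rw [← h2, mem_compOf]; exact ⟨hu, SimpleGraph.Reachable.refl _⟩
            rw [hA, mem_compOf] at this
            exact h1.1 this.2.symm
      · rintro (rfl | ⟨h1, h2, h3⟩)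
        · rw [← k1 x hx (Or.inl (SimpleGraph.Reachable.refl _))]
          exact Finset.mem_image_of_mem _ hx
        · obtain ⟨u, hu, rfl⟩ := Finset.mem_image.mp h3
          have n1 : ¬ G.Reachable u x := fun h => h2 (by rw [hA]; exact compOf_eq_of_reach h)
          have n2 : ¬ G.Reachable u y := fun h => h1 (by rw [hB]; exact compOf_eq_of_reach h)
          rw [← k2 u hu n1 n2]
          exact Finset.mem_image_of_mem _ hu
    have hni : A ∪ B ∉ ((comps G S).erase A).erase B := by
      rw [Finset.mem_erase, Finset.mem_erase]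
      rintro ⟨_, h2, h3⟩
      obtain ⟨u, hu, h4⟩ := Finset.mem_image.mp h3
      have h5 : x ∈ compOf G S u := by rw [h4]; exact Finset.mem_union_left _ hxA
      rw [mem_compOf] at h5
      apply h2
      rw [← h4, hA]
      exact compOf_eq_of_reach h5.2
    rw [key, Finset.card_insert_of_notMem hni, Finset.card_erase_of_mem, Finset.card_erase_of_mem hAc]
    · have h2 : 2 ≤ (comps G S).card := by
        have h3 : ({A, B} : Finset (Finset ℕ)) ⊆ comps G S := by
          intro C hC
          rw [Finset.mem_insert, Finset.mem_singleton] at hC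
          rcases hC with rfl | rfl
          · exact hAc
          · exact hBc
        have h4 := Finset.card_le_card h3
        rwa [Finset.card_pair hAB] at h4
      omega
    · rw [Finset.mem_erase]
      exact ⟨hAB.symm, hBc⟩
  · intro hr
    have : comps (G ⊔ SimpleGraph.edge x y) S = comps G S := by
      unfold comps
      congr 1
      funext u
      ext a
      rw [mem_compOf, mem_compOf, reach_sup]
      constructor
      · rintro ⟨h3, h4 | ⟨h4, h5⟩ | ⟨h4, h5⟩⟩
        · exact ⟨h3, h4⟩
        · exact ⟨h3, (h4.trans hr).trans h5⟩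
        · exact ⟨h3, (h4.trans hr.symm).trans h5⟩
      · rintro ⟨h3, h4⟩
        exact ⟨h3, Or.inl h4⟩
    rw [this]

end GiantSurf57
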