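import Pool.Agent.GiantSurf57.StmtsTop
import Pool.Agent.GiantSurf57.Basic

/-!
# Package T6 of the project `GiantSurf57`: embeddability in terms of counts on `S`
-/

open scoped Classical
open Finset

namespace GiantSurf57

namespace PkgT6

/-- Isolated vertex. -/
def Iso (G : SimpleGraph ℕ) (x : ℕ) : Prop := ∀ z, ¬ G.Adj x z

theorem reach_isolated {G : SimpleGraph ℕ} {w y : ℕ} (hw : Iso G w)
    (h : G.Reachable w y) : y = w := by
  obtain ⟨p⟩ := h
  cases p with
  | nil => rfl
  | cons h' _ => exact absurd h' (hw _)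

theorem mem_compOf {G : SimpleGraph ℕ} {S : Finset ℕ} {u v : ℕ} :
    v ∈ compOf G S u ↔ v ∈ S ∧ G.Reachable u v := by
  simp [compOf]

theorem reach_mem {G : SimpleGraph ℕ} {S : Finset ℕ} (hG : G ∈ graphsOn S) {u v : ℕ} (hu : u ∈ S)
    (h : G.Reachable u v) : v ∈ S := by
  obtain ⟨p⟩ := h
  induction p with
  | nil => exact hu
  | cons h' _ ih => exact ih (adj_mem_right hG h')

theorem card_support {G : SimpleGraph ℕ} {S : Finset ℕ} (hG : G ∈ graphsOn S) :
    S.card = G.support.ncard + (S.filter (fun x => ∀ z, ¬ G.Adj x z)).card := by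
  have e : G.support = ↑(S.filter (fun x => ¬ ∀ z, ¬ G.Adj x z)) := by
    ext x
    rw [SimpleGraph.mem_support, Finset.coe_filter, Set.mem_setOf_eq]
    constructor
    · rintro ⟨y, hy⟩
      exact ⟨adj_mem_left hG hy, fun h => h y hy⟩
    · rintro ⟨_, h⟩
      push Not at h
      exact h
  rw [e, Set.ncard_coe_finset]
  have := Finset.card_filter_add_card_filter_not (s := S) (fun x => ∀ z, ¬ G.Adj x z)
  omega

theorem card_comps {G : SimpleGraph ℕ} {S : Finset ℕ} (hG : G ∈ graphsOn S) :
    (comps G S).card = (bigComps G).ncard + (S.filter (fun x => ∀ z, ¬ G.Adj x z)).card := by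
  obtain ⟨I, hI⟩ : ∃ I, I = S.filter (fun x => ∀ z, ¬ G.Adj x z) := ⟨_, rfl⟩
  obtain ⟨J, hJ⟩ : ∃ J, J = S.filter (fun x => ¬ ∀ z, ¬ G.Adj x z) := ⟨_, rfl⟩
  have hS : S = I ∪ J := by
    rw [hI, hJ, Finset.filter_union_filter_not_eq]
  have e1 : comps G S = I.image (compOf G S) ∪ J.image (compOf G S) := by
    have : comps G S = S.image (compOf G S) := rfl
    rw [this]
    conv_lhs => rw [hS]
    rw [Finset.image_union]
    conv_rhs => rw [hS]
  have hd : Disjoint (I.image (compOf G S)) (J.image (compOf G S)) := by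
    rw [Finset.disjoint_left]
    intro C h1 h2
    obtain ⟨u, hu, rfl⟩ := Finset.mem_image.mp h1
    obtain ⟨v, hv, h3⟩ := Finset.mem_image.mp h2
    rw [hI, Finset.mem_filter] at hu
    rw [hJ, Finset.mem_filter] at hv
    have h4 : u ∈ compOf G S v := by
      rw [h3, mem_compOf]
      exact ⟨hu.1, SimpleGraph.Reachable.refl _⟩
    rw [mem_compOf] at h4
    have h5 := reach_isolated hu.2 h4.2.symm
    rw [h5] at hv
    exact hv.2 hu.2
  have e2 : (I.image (compOf G S)).card = I.card := by
    apply Finset.card_image_of_injOn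
    intro u hu v hv h
    rw [Finset.mem_coe, hI, Finset.mem_filter] at hu hv
    have h1 : v ∈ compOf G S u := by
      have h' : compOf G S u = compOf G S v := h
      rw [h', mem_compOf]
      exact ⟨hv.1, SimpleGraph.Reachable.refl _⟩
    rw [mem_compOf] at h1
    exact (reach_isolated hu.2 h1.2).symm
  have e3 : bigComps G = (fun A : Finset ℕ => (A : Set ℕ)) '' ↑(J.image (compOf G S)) := by
    ext C
    constructor
    · rintro ⟨x, y, hxy, rfl⟩
      refine ⟨compOf G S x, ?_, ?_⟩
      · rw [Finset.mem_coe]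
        refine Finset.mem_image_of_mem _ ?_
        rw [hJ, Finset.mem_filter]
        exact ⟨adj_mem_left hG hxy, fun h => h y hxy⟩
      · ext z
        simp only [Finset.mem_coe, mem_compOf, Set.mem_setOf_eq]
        exact ⟨fun h => h.2, fun h => ⟨reach_mem hG (adj_mem_left hG hxy) h, h⟩⟩
    · rintro ⟨A, hA, rfl⟩
      rw [Finset.mem_coe] at hA
      obtain ⟨x, hx, rfl⟩ := Finset.mem_image.mp hA
      rw [hJ, Finset.mem_filter] at hx
      obtain ⟨hxS, hx2⟩ := hx
      push Not at hx2
      obtain ⟨y, hy⟩ := hx2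
      refine ⟨x, y, hy, ?_⟩
      ext z
      simp only [Finset.mem_coe, mem_compOf, Set.mem_setOf_eq]
      exact ⟨fun h => h.2, fun h => ⟨reach_mem hG hxS h, h⟩⟩
  have e4 : (bigComps G).ncard = (J.image (compOf G S)).card := by
    rw [e3, Set.ncard_image_of_injective _ Finset.coe_injective, Set.ncard_coe_finset]
  rw [e1, Finset.card_union_of_disjoint hd, e2, e4, hI]
  ring

end PkgT6

open PkgT6 in
theorem pkgT6 : S_embS := by
  intro g S G hG
  have h1 := card_support hG
  have h2 := card_comps hG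
  constructor
  · rintro ⟨σ, hr, hle⟩
    refine ⟨σ, hG, hr, ?_⟩
    rw [h2]
    unfold FS ne
    omega
  · rintro ⟨σ, h⟩
    refine ⟨σ, h.rot, ?_⟩
    have := h.le
    rw [h2] at this
    unfold FS ne at this
    omega

end GiantSurf57
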