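import Pool.Agent.GiantSurf57.StmtsTop

/-!
# Package Z: the final assembly
-/

open scoped Classical
open Finset Filter

namespace GiantSurf57

namespace PkgZ

/-! ### Counting -/

theorem z_filter_card {α : Type} (s : Finset α) (p : α → Prop) (i₁ i₂ : DecidablePred p) :
    ((@Finset.filter α p i₁ s).card : ℝ) = ((@Finset.filter α p i₂ s).card : ℝ) := by
  rw [Finset.filter_congr_decidable]

theorem card_GG (hG0 : S_G0) {P : SimpleGraph ℕ → Prop} (hP : SurfClass P) (n m : ℕ) :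
    ((GG P n m).card : ℝ) = (n.factorial : ℝ) * Real.exp n * ZZ (wt P) n ((m : ℤ) - n) :=
  (hG0 P hP n m).1

theorem card_GG_succ (hG0 : S_G0) {P : SimpleGraph ℕ → Prop} (hP : SurfClass P) (n m : ℕ) :
    ((GG P n (m + 1)).card : ℝ) =
      (n.factorial : ℝ) * Real.exp n * ZZ (wt P) n ((m : ℤ) - n + 1) := by
  rw [(hG0 P hP n (m + 1)).1]
  congr 2
  push_cast
  ring

theorem markov (hG2 : S_G2) {P : SimpleGraph ℕ → Prop} (hP : SurfClass P) (n m : ℕ) (x : ℝ) :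
    (((GG P n m).filter (fun G => x < (n : ℝ) - (L1 G (range n) : ℝ))).card : ℝ) * x ≤
      2 * ((GG P n (m + 1)).card : ℝ) := by
  have h1 : ((∑ G ∈ GG P n m, (n - L1 G (range n)) : ℕ) : ℝ) ≤
      ((2 * (GG P n (m + 1)).card : ℕ) : ℝ) := by exact_mod_cast hG2 P hP n m
  push_cast at h1
  refine le_trans ?_ h1
  rw [← nsmul_eq_mul]
  refine le_trans (Finset.card_nsmul_le_sum _ (fun G => ((n - L1 G (range n) : ℕ) : ℝ)) x ?_) ?_
  · intro G hG
    rw [Finset.mem_filter] at hG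
    have h2 : (n : ℝ) ≤ ((n - L1 G (range n) : ℕ) : ℝ) + (L1 G (range n) : ℝ) := by
      exact_mod_cast (by omega : n ≤ n - L1 G (range n) + L1 G (range n))
    linarith [hG.2]
  · exact Finset.sum_le_sum_of_subset_of_nonneg (Finset.filter_subset _ _)
      (fun G _ _ => Nat.cast_nonneg _)

theorem mem_GG {P : SimpleGraph ℕ → Prop} {n m : ℕ} {G : SimpleGraph ℕ} (h : G ∈ GG P n m) :
    G ∈ graphsOn (range n) ∧ P G ∧ ne G = m := by
  simpa [GG] using h

theorem Pr_eq (hH1 : S_H1) (g n m : ℕ) (F : ℕ → Prop) :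
    Pr g n m (fun G => F (maxC G)) =
      (((GG (Emb g) n m).filter (fun G => F (L1 G (range n)))).card : ℝ) /
        ((GG (Emb g) n m).card : ℝ) := by
  obtain ⟨h1, h2, -⟩ := hH1 g n m
  unfold Pr
  rw [h1, h2 F]

section

variable {g : ℕ} {m : ℕ → ℕ}

/-- The criterion for `ThetaP`. -/
theorem thetaP_of (hcl : ∀ g, SurfClass (Emb g : SimpleGraph ℕ → Prop)) (hG0 : S_G0)
    (hG2 : S_G2) (hH1 : S_H1) {f : ℕ → ℝ}
    (hpos : ∀ᶠ n : ℕ in atTop, 0 < f n)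
    (hZ : ∀ᶠ n : ℕ in atTop, 0 < ZZ (wt (Emb g)) n ((m n : ℤ) - n))
    (hup : ∃ C : ℝ, ∀ᶠ n : ℕ in atTop, ZZ (wt (Emb g)) n ((m n : ℤ) - n + 1) ≤
      C * f n * ZZ (wt (Emb g)) n ((m n : ℤ) - n))
    (hlow : ∀ ε : ℝ, 0 < ε → ∃ c : ℝ, 0 < c ∧ ∀ᶠ n : ℕ in atTop,
      (((GG (Emb g) n (m n)).filter
        (fun G => (n : ℝ) - (L1 G (range n) : ℝ) < c * f n)).card : ℝ) ≤
        ε * ((GG (Emb g) n (m n)).card : ℝ)) :
    ThetaP g m f := by
  intro ε hε
  obtain ⟨c, hc, hlow⟩ := hlow (ε / 2) (by positivity)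
  obtain ⟨C, hup⟩ := hup
  refine ⟨c, max c (4 * |C| / ε), hc, le_max_left _ _, ?_⟩
  set c₂ := max c (4 * |C| / ε) with hc₂
  have hc₂pos : 0 < c₂ := lt_of_lt_of_le hc (le_max_left _ _)
  filter_upwards [hpos, hZ, hup, hlow] with n h1 h2 h3 h4
  rw [Pr_eq hH1 g n (m n) (fun x => c * f n ≤ (n : ℝ) - (x : ℝ) ∧ (n : ℝ) - (x : ℝ) ≤ c₂ * f n)]
  have e1 := card_GG hG0 (hcl g) n (m n)
  have e2 := card_GG_succ hG0 (hcl g) n (m n)
  have hfe : 0 < (n.factorial : ℝ) * Real.exp n := by positivity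
  have hcard : 0 < ((GG (Emb g) n (m n)).card : ℝ) := by
    rw [e1]; exact mul_pos hfe h2
  -- the upper tail
  have hU : (((GG (Emb g) n (m n)).filter
      (fun G => c₂ * f n < (n : ℝ) - (L1 G (range n) : ℝ))).card : ℝ) ≤
      ε / 2 * ((GG (Emb g) n (m n)).card : ℝ) := by
    have h5 := markov hG2 (hcl g) n (m n) (c₂ * f n)
    have h6 : ((GG (Emb g) n (m n + 1)).card : ℝ) ≤
        |C| * f n * ((GG (Emb g) n (m n)).card : ℝ) := by
      rw [e1, e2]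
      have h7 : ZZ (wt (Emb g)) n ((m n : ℤ) - n + 1) ≤
          |C| * f n * ZZ (wt (Emb g)) n ((m n : ℤ) - n) :=
        le_trans h3 (mul_le_mul_of_nonneg_right (mul_le_mul_of_nonneg_right (le_abs_self C) h1.le)
          h2.le)
      calc (n.factorial : ℝ) * Real.exp n * ZZ (wt (Emb g)) n ((m n : ℤ) - n + 1)
          ≤ (n.factorial : ℝ) * Real.exp n *
            (|C| * f n * ZZ (wt (Emb g)) n ((m n : ℤ) - n)) :=
            mul_le_mul_of_nonneg_left h7 hfe.le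
        _ = _ := by ring
    have h8 : 4 * |C| ≤ ε * c₂ := by
      have := le_max_right c (4 * |C| / ε)
      rw [div_le_iff₀ hε] at this
      linarith
    have h9 : (((GG (Emb g) n (m n)).filter
      (fun G => c₂ * f n < (n : ℝ) - (L1 G (range n) : ℝ))).card : ℝ) * (c₂ * f n) ≤
      ε / 2 * ((GG (Emb g) n (m n)).card : ℝ) * (c₂ * f n) := by
      refine h5.trans ?_
      refine (mul_le_mul_of_nonneg_left h6 (by norm_num)).trans ?_
      have h10 : 0 < f n * ((GG (Emb g) n (m n)).card : ℝ) := mul_pos h1 hcard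
      nlinarith [mul_le_mul_of_nonneg_right h8 h10.le]
    exact le_of_mul_le_mul_right h9 (mul_pos hc₂pos h1)
  -- the union
  have hsum : ((GG (Emb g) n (m n)).card : ℝ) ≤
      (((GG (Emb g) n (m n)).filter (fun G => c * f n ≤ (n : ℝ) - (L1 G (range n) : ℝ) ∧
        (n : ℝ) - (L1 G (range n) : ℝ) ≤ c₂ * f n)).card : ℝ) +
      (((GG (Emb g) n (m n)).filter
        (fun G => (n : ℝ) - (L1 G (range n) : ℝ) < c * f n)).card : ℝ) +
      (((GG (Emb g) n (m n)).filter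
        (fun G => c₂ * f n < (n : ℝ) - (L1 G (range n) : ℝ))).card : ℝ) := by
    have h5 : GG (Emb g) n (m n) ⊆
        ((GG (Emb g) n (m n)).filter (fun G => c * f n ≤ (n : ℝ) - (L1 G (range n) : ℝ) ∧
          (n : ℝ) - (L1 G (range n) : ℝ) ≤ c₂ * f n) ∪
        (GG (Emb g) n (m n)).filter (fun G => (n : ℝ) - (L1 G (range n) : ℝ) < c * f n)) ∪
        (GG (Emb g) n (m n)).filter (fun G => c₂ * f n < (n : ℝ) - (L1 G (range n) : ℝ)) := by
      intro G hG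
      simp only [Finset.mem_union, Finset.mem_filter, hG, true_and]
      by_cases h6 : (n : ℝ) - (L1 G (range n) : ℝ) < c * f n
      · exact Or.inl (Or.inr h6)
      · by_cases h7 : c₂ * f n < (n : ℝ) - (L1 G (range n) : ℝ)
        · exact Or.inr h7
        · exact Or.inl (Or.inl ⟨not_lt.1 h6, not_lt.1 h7⟩)
    have h6 := (Finset.card_le_card h5).trans ((Finset.card_union_le _ _).trans
      (Nat.add_le_add_right (Finset.card_union_le _ _) _))
    exact_mod_cast h6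
  rw [le_div_iff₀ hcard]
  have k1 : (((GG (Emb g) n (m n)).filter
      (fun G => (n : ℝ) - (L1 G (range n) : ℝ) < c * f n)).card : ℝ) ≤
      ε / 2 * ((GG (Emb g) n (m n)).card : ℝ) :=
    (z_filter_card _ _ _ _).le.trans h4
  have k2 : (1 - ε) * ((GG (Emb g) n (m n)).card : ℝ) ≤
      (((GG (Emb g) n (m n)).filter (fun G => c * f n ≤ (n : ℝ) - (L1 G (range n) : ℝ) ∧
        (n : ℝ) - (L1 G (range n) : ℝ) ≤ c₂ * f n)).card : ℝ) := by linarith
  exact k2.trans (z_filter_card _ _ _ _).le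

/-- The lower bound from the number of tree components. -/
theorem low_of_tc (hG1 : S_G1) {f : ℕ → ℝ} (hf : Tendsto f atTop atTop)
    (h : ∀ ε : ℝ, 0 < ε → ∃ c : ℝ, 0 < c ∧ ∀ᶠ n : ℕ in atTop,
      (((GG (Emb g) n (m n)).filter (fun G => (tc G (range n) : ℝ) ≤ c * f n)).card : ℝ) ≤
        ε * ((GG (Emb g) n (m n)).card : ℝ)) :
    ∀ ε : ℝ, 0 < ε → ∃ c : ℝ, 0 < c ∧ ∀ᶠ n : ℕ in atTop,
      (((GG (Emb g) n (m n)).filter
        (fun G => (n : ℝ) - (L1 G (range n) : ℝ) < c * f n)).card : ℝ) ≤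
        ε * ((GG (Emb g) n (m n)).card : ℝ) := by
  intro ε hε
  obtain ⟨c, hc, h⟩ := h ε hε
  refine ⟨c / 2, by positivity, ?_⟩
  filter_upwards [h, hf.eventually_ge_atTop (2 / c)] with n h1 h2
  refine le_trans ?_ h1
  have h3 : (GG (Emb g) n (m n)).filter
        (fun G => (n : ℝ) - (L1 G (range n) : ℝ) < c / 2 * f n) ⊆
      (GG (Emb g) n (m n)).filter (fun G => (tc G (range n) : ℝ) ≤ c * f n) := by
    intro G hG
    rw [Finset.mem_filter] at hG ⊢
    refine ⟨hG.1, ?_⟩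
    have h4 := (hG1 (range n) G (mem_GG hG.1).1).2.2
    rw [Finset.card_range] at h4
    have h5 : (tc G (range n) : ℝ) + (L1 G (range n) : ℝ) ≤ (n : ℝ) + 1 := by exact_mod_cast h4
    rw [div_le_iff₀ hc] at h2
    linarith [hG.2]
  exact_mod_cast Finset.card_le_card h3

/-- The bound for the number of graphs with few tree components. -/
theorem tc_of_AA (hcl : ∀ g, SurfClass (Emb g : SimpleGraph ℕ → Prop)) (hG0 : S_G0) {F : ℕ → ℝ}
    (h : ∀ ε : ℝ, 0 < ε → ∃ c : ℝ, 0 < c ∧ ∀ᶠ n : ℕ in atTop,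
      ∑ t ∈ (range (n + 1)).filter (fun t : ℕ => 0 ≤ (t : ℤ) + ((m n : ℤ) - n) ∧
        (t : ℝ) ≤ c * F n), AA (wt (Emb g)) t ((t : ℤ) + ((m n : ℤ) - n)).toNat n ≤
          ε * ZZ (wt (Emb g)) n ((m n : ℤ) - n)) :
    ∀ ε : ℝ, 0 < ε → ∃ c : ℝ, 0 < c ∧ ∀ᶠ n : ℕ in atTop,
      (((GG (Emb g) n (m n)).filter (fun G => (tc G (range n) : ℝ) ≤ c * F n)).card : ℝ) ≤
        ε * ((GG (Emb g) n (m n)).card : ℝ) := by
  intro ε hε
  obtain ⟨c, hc, h⟩ := h ε hε
  refine ⟨c, hc, ?_⟩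
  filter_upwards [h] with n h1
  rw [(hG0 (Emb g) (hcl g) n (m n)).1, (hG0 (Emb g) (hcl g) n (m n)).2 (c * F n)]
  have hfe : 0 ≤ (n.factorial : ℝ) * Real.exp n := by positivity
  calc _ ≤ (n.factorial : ℝ) * Real.exp n * (ε * ZZ (wt (Emb g)) n ((m n : ℤ) - n)) :=
        mul_le_mul_of_nonneg_left h1 hfe
    _ = _ := by ring

/-- The component statement: not many graphs have small components only. -/
theorem complex_tendsto (hcl : ∀ g, SurfClass (Emb g : SimpleGraph ℕ → Prop)) (hG0 : S_G0)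
    (hadd : S_addPairs) (hG2 : S_G2) (hG3 : S_G3) (hH1 : S_H1) {h : ℕ → ℝ}
    (hZ : ∀ᶠ n : ℕ in atTop, 0 < ZZ (wt (Emb g)) n ((m n : ℤ) - n))
    (hup : ∀ᶠ n : ℕ in atTop, ZZ (wt (Emb g)) n ((m n : ℤ) - n + 1) ≤
      h n * ZZ (wt (Emb g)) n ((m n : ℤ) - n))
    (hh : Tendsto (fun n : ℕ => h n / (n : ℝ)) atTop (nhds 0)) :
    Tendsto (fun n => Pr g n (m n) H1Complex) atTop (nhds 1) := by
  obtain ⟨C, n0, hC⟩ := hG3 (Emb g) (hcl g) (hadd g)
  have hlim : Tendsto (fun n : ℕ => 1 - (4 + (C : ℝ)) * (h n / (n : ℝ))) atTop (nhds 1) := by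
    have := (hh.const_mul (4 + (C : ℝ))).const_sub 1
    simpa using this
  refine tendsto_of_tendsto_of_tendsto_of_le_of_le' hlim tendsto_const_nhds ?_ ?_
  · filter_upwards [hZ, hup, eventually_ge_atTop n0, eventually_ge_atTop 1] with n h1 h2 h3 h4
    obtain ⟨k1, k2, k3⟩ := hH1 g n (m n)
    have e1 := card_GG hG0 (hcl g) n (m n)
    have e2 := card_GG_succ hG0 (hcl g) n (m n)
    have hfe : 0 < (n.factorial : ℝ) * Real.exp n := by positivity
    have hcard : 0 < ((GG (Emb g) n (m n)).card : ℝ) := by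
      rw [e1]; exact mul_pos hfe h1
    have hn : 0 < (n : ℝ) := by exact_mod_cast h4
    have h6 : ((GG (Emb g) n (m n + 1)).card : ℝ) ≤ h n * ((GG (Emb g) n (m n)).card : ℝ) := by
      rw [e1, e2]
      calc (n.factorial : ℝ) * Real.exp n * ZZ (wt (Emb g)) n ((m n : ℤ) - n + 1)
          ≤ (n.factorial : ℝ) * Real.exp n * (h n * ZZ (wt (Emb g)) n ((m n : ℤ) - n)) :=
            mul_le_mul_of_nonneg_left h2 hfe.le
        _ = _ := by ring
    -- small components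
    have hA : (({G | G ∈ SG g n (m n) ∧ (n : ℝ) / 2 < (n : ℝ) - (maxC G : ℝ)}.ncard : ℕ) : ℝ) ≤
        4 * (h n / n) * ((GG (Emb g) n (m n)).card : ℝ) := by
      have h7 := k2 (fun x => (n : ℝ) / 2 < (n : ℝ) - (x : ℝ))
      rw [h7]
      have h8 := markov hG2 (hcl g) n (m n) ((n : ℝ) / 2)
      have h9 : (((GG (Emb g) n (m n)).filter
          (fun G => (n : ℝ) / 2 < (n : ℝ) - (L1 G (range n) : ℝ))).card : ℝ) * ((n : ℝ) / 2) ≤
          4 * (h n / n) * ((GG (Emb g) n (m n)).card : ℝ) * ((n : ℝ) / 2) := by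
        refine h8.trans ?_
        have h10 : 4 * (h n / n) * ((GG (Emb g) n (m n)).card : ℝ) * ((n : ℝ) / 2) =
            2 * (h n * ((GG (Emb g) n (m n)).card : ℝ)) := by
          field_simp
          ring
        rw [h10]
        linarith
      have h11 := le_of_mul_le_mul_right h9 (by positivity)
      exact (z_filter_card _ _ _ _).le.trans h11
    -- large components that are not complex
    have hB : (({G | G ∈ SG g n (m n) ∧ ¬ H1Complex G ∧ n ≤ 2 * maxC G}.ncard : ℕ) : ℝ) ≤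
        C * (h n / n) * ((GG (Emb g) n (m n)).card : ℝ) := by
      refine (Nat.cast_le.2 k3).trans ?_
      have h8 : ((n * ((GG (Emb g) n (m n)).filter (fun G => ∃ A ∈ comps G (range n),
          n ≤ 2 * A.card ∧ neIn G A ≤ A.card)).card : ℕ) : ℝ) ≤
          ((C * (GG (Emb g) n (m n + 1)).card : ℕ) : ℝ) := Nat.cast_le.2 (hC n (m n) h3)
      push_cast at h8
      have h9 : (n : ℝ) * (((GG (Emb g) n (m n)).filter (fun G => ∃ A ∈ comps G (range n),
          n ≤ 2 * A.card ∧ neIn G A ≤ A.card)).card : ℝ) ≤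
          (n : ℝ) * (C * (h n / n) * ((GG (Emb g) n (m n)).card : ℝ)) := by
        refine h8.trans ?_
        have h10 : (n : ℝ) * (C * (h n / n) * ((GG (Emb g) n (m n)).card : ℝ)) =
            C * (h n * ((GG (Emb g) n (m n)).card : ℝ)) := by
          field_simp
        rw [h10]
        exact mul_le_mul_of_nonneg_left h6 (Nat.cast_nonneg _)
      exact le_of_mul_le_mul_left h9 hn
    -- the union
    have hU : (SG g n (m n)) ⊆ ({G | G ∈ SG g n (m n) ∧ H1Complex G} ∪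
        {G | G ∈ SG g n (m n) ∧ (n : ℝ) / 2 < (n : ℝ) - (maxC G : ℝ)}) ∪
        {G | G ∈ SG g n (m n) ∧ ¬ H1Complex G ∧ n ≤ 2 * maxC G} := by
      intro G hG
      by_cases h7 : H1Complex G
      · exact Or.inl (Or.inl ⟨hG, h7⟩)
      · by_cases h8 : n ≤ 2 * maxC G
        · exact Or.inr ⟨hG, h7, h8⟩
        · refine Or.inl (Or.inr ⟨hG, ?_⟩)
          have h9 : ((2 * maxC G : ℕ) : ℝ) < (n : ℝ) := by exact_mod_cast not_le.1 h8
          push_cast at h9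
          linarith
    have hU2 := (Set.ncard_le_ncard hU (Set.toFinite _)).trans ((Set.ncard_union_le _ _).trans
      (Nat.add_le_add_right (Set.ncard_union_le _ _) _))
    have hU3 : (((SG g n (m n)).ncard : ℕ) : ℝ) ≤
        (({G | G ∈ SG g n (m n) ∧ H1Complex G}.ncard : ℕ) : ℝ) +
        (({G | G ∈ SG g n (m n) ∧ (n : ℝ) / 2 < (n : ℝ) - (maxC G : ℝ)}.ncard : ℕ) : ℝ) +
        (({G | G ∈ SG g n (m n) ∧ ¬ H1Complex G ∧ n ≤ 2 * maxC G}.ncard : ℕ) : ℝ) := by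
      exact_mod_cast hU2
    unfold Pr
    rw [k1] at hU3 ⊢
    rw [le_div_iff₀ hcard]
    nlinarith
  · filter_upwards with n
    unfold Pr
    refine div_le_one_of_le₀ ?_ (Nat.cast_nonneg _)
    have h1 : {G | G ∈ SG g n (m n) ∧ H1Complex G}.ncard ≤ (SG g n (m n)).ncard :=
      Set.ncard_le_ncard (fun G hG => hG.1) (Set.toFinite _)
    exact_mod_cast h1

end

/-! ### The asymptotics of the number of edges -/

section

variable {m : ℕ → ℕ} {lam : ℕ → ℝ}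

theorem M_eq (hm : ∀ n : ℕ, 1 ≤ n →
    (m n : ℝ) = (2 + lam n * (n : ℝ) ^ (-(2 / 5) : ℝ)) * ((n : ℝ) / 2)) {n : ℕ} (hn : 1 ≤ n) :
    ((((m n : ℤ) - n : ℤ)) : ℝ) = lam n * (n : ℝ) ^ (3 / 5 : ℝ) / 2 := by
  have hn' : (0 : ℝ) < n := by exact_mod_cast hn
  push_cast
  rw [hm n hn]
  have h1 : (n : ℝ) ^ (3 / 5 : ℝ) = (n : ℝ) ^ (-(2 / 5) : ℝ) * n := by
    rw [← Real.rpow_add_one hn'.ne']
    norm_num
  rw [h1]
  ring

theorem M_div (hm : ∀ n : ℕ, 1 ≤ n →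
    (m n : ℝ) = (2 + lam n * (n : ℝ) ^ (-(2 / 5) : ℝ)) * ((n : ℝ) / 2))
    (hl : (fun n => lam n) =o[atTop] (fun n : ℕ => (n : ℝ) ^ (2 / 5 : ℝ))) :
    Tendsto (fun n => ((((m n : ℤ) - n : ℤ)) : ℝ) / (n : ℝ)) atTop (nhds 0) := by
  have h1 := hl.tendsto_div_nhds_zero
  have h2 : Tendsto (fun n : ℕ => lam n / (n : ℝ) ^ (2 / 5 : ℝ) / 2) atTop (nhds 0) := by
    simpa using h1.div_const 2
  refine h2.congr' ?_
  filter_upwards [eventually_ge_atTop 1] with n hn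
  have hn' : (0 : ℝ) < n := by exact_mod_cast hn
  rw [M_eq hm hn]
  have h3 : (n : ℝ) = (n : ℝ) ^ (3 / 5 : ℝ) * (n : ℝ) ^ (2 / 5 : ℝ) := by
    rw [← Real.rpow_add hn']
    norm_num
  have h4 : (0 : ℝ) < (n : ℝ) ^ (3 / 5 : ℝ) := Real.rpow_pos_of_pos hn' _
  have h5 : (0 : ℝ) < (n : ℝ) ^ (2 / 5 : ℝ) := Real.rpow_pos_of_pos hn' _
  have h6 : lam n * (n : ℝ) ^ (3 / 5 : ℝ) / 2 / (n : ℝ) =
      lam n * (n : ℝ) ^ (3 / 5 : ℝ) / 2 / ((n : ℝ) ^ (3 / 5 : ℝ) * (n : ℝ) ^ (2 / 5 : ℝ)) := by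
    rw [← h3]
  rw [h6]
  field_simp

theorem rpow_tendsto : Tendsto (fun n : ℕ => (n : ℝ) ^ (3 / 5 : ℝ)) atTop atTop :=
  (tendsto_rpow_atTop (by norm_num)).comp tendsto_natCast_atTop_atTop

theorem rpow_div_tendsto :
    Tendsto (fun n : ℕ => (n : ℝ) ^ (3 / 5 : ℝ) / (n : ℝ)) atTop (nhds 0) := by
  have h1 : Tendsto (fun n : ℕ => (n : ℝ) ^ (-(2 / 5) : ℝ)) atTop (nhds 0) :=
    (tendsto_rpow_neg_atTop (by norm_num)).comp tendsto_natCast_atTop_atTop
  refine h1.congr' ?_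
  filter_upwards [eventually_ge_atTop 1] with n hn
  have hn' : (0 : ℝ) < n := by exact_mod_cast hn
  rw [eq_div_iff hn'.ne', ← Real.rpow_add_one hn'.ne']
  norm_num

theorem r32_eq {x : ℝ} (hx : 0 < x) : r32 x = x ^ (3 / 2 : ℝ) := by
  unfold r32
  rw [Real.sqrt_eq_rpow]
  have : x ^ (3 / 2 : ℝ) = x ^ (1 : ℝ) * x ^ (1 / 2 : ℝ) := by
    rw [← Real.rpow_add hx]
    norm_num
  rw [this, Real.rpow_one]

/-- `r32 (n / M) = 2^(3/2) f`. -/
theorem r32_div {x lam : ℝ} (hx : 0 < x) (hl : 0 < lam) :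
    r32 (x / (lam * x ^ (3 / 5 : ℝ) / 2)) =
      (2 : ℝ) ^ (3 / 2 : ℝ) * (lam ^ (-(3 / 2) : ℝ) * x ^ (3 / 5 : ℝ)) := by
  have h0 : 0 < x ^ (3 / 5 : ℝ) := Real.rpow_pos_of_pos hx _
  have h1 : x / (lam * x ^ (3 / 5 : ℝ) / 2) = 2 * (lam⁻¹ * x ^ (2 / 5 : ℝ)) := by
    have h2 : x = x ^ (3 / 5 : ℝ) * x ^ (2 / 5 : ℝ) := by
      rw [← Real.rpow_add hx]
      norm_num
    have h3 : x / (lam * x ^ (3 / 5 : ℝ) / 2) =
        (x ^ (3 / 5 : ℝ) * x ^ (2 / 5 : ℝ)) / (lam * x ^ (3 / 5 : ℝ) / 2) := by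
      rw [← h2]
    rw [h3]
    field_simp
  rw [h1, r32_eq (by positivity), Real.mul_rpow (by norm_num) (by positivity),
    Real.mul_rpow (by positivity) (by positivity), ← Real.rpow_mul hx.le, Real.inv_rpow hl.le,
    Real.rpow_neg hl.le]
  norm_num

end

end PkgZ

open PkgZ

theorem pkgZ (hcl : ∀ g, SurfClass (Emb g : SimpleGraph ℕ → Prop))
    (hw : ∀ g, WSeq (wt (Emb g : SimpleGraph ℕ → Prop))) (hadd : S_addPairs) (hG0 : S_G0)
    (hG1 : S_G1) (hG2 : S_G2) (hG3 : S_G3) (hR1 : S_R1) (hR2 : S_R2) (hR3 : S_R3)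
    (hH1 : S_H1) : Result := by
  intro g m lam hm hl
  set M : ℕ → ℤ := fun n => (m n : ℤ) - n with hM
  have hMdiv : Tendsto (fun n => (M n : ℝ) / (n : ℝ)) atTop (nhds 0) := M_div hm hl
  have hMeq : ∀ n : ℕ, 1 ≤ n → (M n : ℝ) = lam n * (n : ℝ) ^ (3 / 5 : ℝ) / 2 :=
    fun n hn => M_eq hm hn
  obtain ⟨C, hC⟩ := hR1 (wt (Emb g)) (hw g) M hMdiv
  have hZ : ∀ᶠ n : ℕ in atTop, 0 < ZZ (wt (Emb g)) n ((m n : ℤ) - n) := by
    filter_upwards [hC] with n h using h.1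
  refine ⟨?_, ?_, ?_, ?_, ?_⟩
  · -- nonempty
    filter_upwards [hZ] with n h
    have e1 := card_GG hG0 (hcl g) n (m n)
    have hfe : 0 < (n.factorial : ℝ) * Real.exp n := by positivity
    have hcard : 0 < ((GG (Emb g) n (m n)).card : ℝ) := by
      rw [e1]; exact mul_pos hfe h
    have h2 : 0 < (SG g n (m n)).ncard := by
      rw [(hH1 g n (m n)).1]
      exact_mod_cast hcard
    exact (Set.ncard_pos (Set.toFinite _)).1 h2
  · -- complex
    refine complex_tendsto (h := fun n => C * (|(M n : ℝ)| + (n : ℝ) ^ (3 / 5 : ℝ))) hcl hG0 hadd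
      hG2 hG3 hH1 hZ ?_ ?_
    · filter_upwards [hC] with n h using h.2
    · have h1 : Tendsto (fun n : ℕ => C * (|(M n : ℝ) / (n : ℝ)| +
          (n : ℝ) ^ (3 / 5 : ℝ) / (n : ℝ))) atTop (nhds 0) := by
        have := (hMdiv.abs.add rpow_div_tendsto).const_mul C
        simpa using this
      refine h1.congr ?_
      intro n
      rw [abs_div, abs_of_nonneg (Nat.cast_nonneg n : (0 : ℝ) ≤ n)]
      ring
  · -- lower regime
    intro hlam
    have hM2 : ∀ᶠ n : ℕ in atTop, (M n : ℝ) = -(|lam n| * (n : ℝ) ^ (3 / 5 : ℝ) / 2) := by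
      filter_upwards [hlam.eventually_le_atBot 0, eventually_ge_atTop 1] with n h1 h2
      rw [hMeq n h2, abs_of_nonpos h1]
      ring
    have hf : Tendsto (fun n : ℕ => |lam n| * (n : ℝ) ^ (3 / 5 : ℝ)) atTop atTop := by
      have h1 : Tendsto (fun n => |lam n|) atTop atTop := tendsto_abs_atBot_atTop.comp hlam
      exact h1.atTop_mul_atTop₀ rpow_tendsto
    refine thetaP_of hcl hG0 hG2 hH1 (hf.eventually_gt_atTop 0) hZ ?_ ?_
    · refine ⟨|C| * 2, ?_⟩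
      filter_upwards [hC, hM2, hlam.eventually_le_atBot (-1), eventually_ge_atTop 1]
        with n h1 h2 h3 h4
      refine h1.2.trans (mul_le_mul_of_nonneg_right ?_ h1.1.le)
      have hx : 0 ≤ (n : ℝ) ^ (3 / 5 : ℝ) := Real.rpow_nonneg (Nat.cast_nonneg _) _
      have h5 : 1 ≤ |lam n| := by
        rw [abs_of_nonpos (by linarith)]; linarith
      have h6 : |(M n : ℝ)| = |lam n| * (n : ℝ) ^ (3 / 5 : ℝ) / 2 := by
        rw [h2, abs_neg, abs_of_nonneg (by positivity)]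
      rw [h6]
      have h7 : |lam n| * (n : ℝ) ^ (3 / 5 : ℝ) / 2 + (n : ℝ) ^ (3 / 5 : ℝ) ≤
          2 * (|lam n| * (n : ℝ) ^ (3 / 5 : ℝ)) := by nlinarith
      calc C * (|lam n| * (n : ℝ) ^ (3 / 5 : ℝ) / 2 + (n : ℝ) ^ (3 / 5 : ℝ))
          ≤ |C| * (|lam n| * (n : ℝ) ^ (3 / 5 : ℝ) / 2 + (n : ℝ) ^ (3 / 5 : ℝ)) :=
            mul_le_mul_of_nonneg_right (le_abs_self C) (by positivity)
        _ ≤ |C| * (2 * (|lam n| * (n : ℝ) ^ (3 / 5 : ℝ))) :=
            mul_le_mul_of_nonneg_left h7 (abs_nonneg C)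
        _ = _ := by ring
    · intro ε hε
      refine ⟨1 / 4, by norm_num, ?_⟩
      filter_upwards [hM2, hf.eventually_ge_atTop 4, eventually_ge_atTop 1] with n h1 h2 h3
      have h4 : (GG (Emb g) n (m n)).filter
          (fun G => (n : ℝ) - (L1 G (range n) : ℝ) <
            1 / 4 * (|lam n| * (n : ℝ) ^ (3 / 5 : ℝ))) = ∅ := by
        rw [Finset.filter_eq_empty_iff]
        intro G hG h5
        obtain ⟨k1, -, k3⟩ := hG1 (range n) G (mem_GG hG).1
        rw [Finset.card_range] at k1 k3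
        rw [(mem_GG hG).2.2] at k1
        have h6 : (tc G (range n) : ℝ) + (L1 G (range n) : ℝ) ≤ (n : ℝ) + 1 := by
          exact_mod_cast k3
        have h7 : (n : ℝ) ≤ (m n : ℝ) + (tc G (range n) : ℝ) := by exact_mod_cast k1
        have h8 : (m n : ℝ) - n = -(|lam n| * (n : ℝ) ^ (3 / 5 : ℝ) / 2) := by
          rw [← h1, hM]
          push_cast
          ring
        linarith
      rw [h4]
      simp only [Finset.card_empty, Nat.cast_zero]
      positivity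
  · -- middle regime
    intro c hc
    refine thetaP_of hcl hG0 hG2 hH1 (rpow_tendsto.eventually_gt_atTop 0) hZ ?_ ?_
    · refine ⟨|C| * (|c| + 2), ?_⟩
      filter_upwards [hC, hc.abs.eventually_lt_const (lt_add_one |c|), eventually_ge_atTop 1]
        with n h1 h2 h3
      refine h1.2.trans (mul_le_mul_of_nonneg_right ?_ h1.1.le)
      have hx : 0 ≤ (n : ℝ) ^ (3 / 5 : ℝ) := Real.rpow_nonneg (Nat.cast_nonneg _) _
      have h6 : |(M n : ℝ)| = |lam n| * (n : ℝ) ^ (3 / 5 : ℝ) / 2 := by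
        rw [hMeq n h3, abs_div, abs_mul, abs_of_nonneg hx, abs_of_pos (by norm_num : (0:ℝ) < 2)]
      rw [h6]
      have h7 : |lam n| * (n : ℝ) ^ (3 / 5 : ℝ) / 2 + (n : ℝ) ^ (3 / 5 : ℝ) ≤
          (|c| + 2) * (n : ℝ) ^ (3 / 5 : ℝ) := by
        nlinarith [mul_le_mul_of_nonneg_right h2.le hx, abs_nonneg c,
          mul_nonneg (abs_nonneg c) hx]
      calc C * (|lam n| * (n : ℝ) ^ (3 / 5 : ℝ) / 2 + (n : ℝ) ^ (3 / 5 : ℝ))
          ≤ |C| * (|lam n| * (n : ℝ) ^ (3 / 5 : ℝ) / 2 + (n : ℝ) ^ (3 / 5 : ℝ)) :=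
            mul_le_mul_of_nonneg_right (le_abs_self C) (by positivity)
        _ ≤ |C| * ((|c| + 2) * (n : ℝ) ^ (3 / 5 : ℝ)) :=
            mul_le_mul_of_nonneg_left h7 (abs_nonneg C)
        _ = _ := by ring
    · refine low_of_tc hG1 rpow_tendsto (tc_of_AA hcl hG0 ?_)
      refine hR2 (wt (Emb g)) (hw g) M ⟨|c| + 2, ?_⟩
      filter_upwards [hc.abs.eventually_lt_const (lt_add_one |c|), eventually_ge_atTop 1]
        with n h2 h3
      have hx : 0 ≤ (n : ℝ) ^ (3 / 5 : ℝ) := Real.rpow_nonneg (Nat.cast_nonneg _) _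
      have h6 : |(M n : ℝ)| = |lam n| * (n : ℝ) ^ (3 / 5 : ℝ) / 2 := by
        rw [hMeq n h3, abs_div, abs_mul, abs_of_nonneg hx, abs_of_pos (by norm_num : (0:ℝ) < 2)]
      rw [h6]
      nlinarith [mul_le_mul_of_nonneg_right h2.le hx, abs_nonneg c,
        mul_nonneg (abs_nonneg c) hx]
  · -- upper regime
    intro hlam
    have hMtop : Tendsto (fun n => (M n : ℝ) / (n : ℝ) ^ (3 / 5 : ℝ)) atTop atTop := by
      have h1 : Tendsto (fun n => lam n / 2) atTop atTop := hlam.atTop_div_const (by norm_num)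
      refine h1.congr' ?_
      filter_upwards [eventually_ge_atTop 1] with n hn
      have hn' : (0 : ℝ) < n := by exact_mod_cast hn
      have h4 : (0 : ℝ) < (n : ℝ) ^ (3 / 5 : ℝ) := Real.rpow_pos_of_pos hn' _
      rw [hMeq n hn]
      field_simp
    obtain ⟨⟨C', hC'⟩, hlow⟩ := hR3 (wt (Emb g)) (hw g) M hMdiv hMtop
    have hr : ∀ᶠ n : ℕ in atTop, r32 ((n : ℝ) / (M n : ℝ)) =
        (2 : ℝ) ^ (3 / 2 : ℝ) * (lam n ^ (-(3 / 2) : ℝ) * (n : ℝ) ^ (3 / 5 : ℝ)) := by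
      filter_upwards [hlam.eventually_gt_atTop 0, eventually_ge_atTop 1] with n h1 h2
      rw [hMeq n h2]
      exact r32_div (by exact_mod_cast h2) h1
    have hf : Tendsto (fun n : ℕ => lam n ^ (-(3 / 2) : ℝ) * (n : ℝ) ^ (3 / 5 : ℝ))
        atTop atTop := by
      have h1 : Tendsto (fun n : ℕ => lam n / (n : ℝ) ^ (2 / 5 : ℝ)) atTop (nhds 0) :=
        hl.tendsto_div_nhds_zero
      have h2 : Tendsto (fun n : ℕ => lam n / (n : ℝ) ^ (2 / 5 : ℝ)) atTop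
          (nhdsWithin 0 (Set.Ioi 0)) := by
        rw [tendsto_nhdsWithin_iff]
        refine ⟨h1, ?_⟩
        filter_upwards [hlam.eventually_gt_atTop 0, eventually_ge_atTop 1] with n h3 h4
        have hn' : (0 : ℝ) < n := by exact_mod_cast h4
        exact div_pos h3 (Real.rpow_pos_of_pos hn' _)
      have h3 := h2.inv_tendsto_nhdsGT_zero
      have h4 : Tendsto (fun n : ℕ => ((lam n / (n : ℝ) ^ (2 / 5 : ℝ))⁻¹) ^ (3 / 2 : ℝ))
          atTop atTop := (tendsto_rpow_atTop (by norm_num)).comp h3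
      refine h4.congr' ?_
      filter_upwards [hlam.eventually_gt_atTop 0, eventually_ge_atTop 1] with n h5 h6
      have hn' : (0 : ℝ) < n := by exact_mod_cast h6
      rw [inv_div, Real.div_rpow (by positivity) h5.le, ← Real.rpow_mul hn'.le,
        Real.rpow_neg h5.le]
      norm_num
      ring
    refine thetaP_of hcl hG0 hG2 hH1 (hf.eventually_gt_atTop 0) hZ ?_ ?_
    · refine ⟨C' * (2 : ℝ) ^ (3 / 2 : ℝ), ?_⟩
      filter_upwards [hC', hr] with n h1 h2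
      rw [h2, ← mul_assoc C'] at h1
      exact h1
    · refine low_of_tc hG1 hf (tc_of_AA hcl hG0 ?_)
      intro ε hε
      obtain ⟨c, hc, h⟩ := hlow ε hε
      refine ⟨c * (2 : ℝ) ^ (3 / 2 : ℝ), by positivity, ?_⟩
      filter_upwards [h, hr] with n h1 h2
      rw [h2, ← mul_assoc c] at h1
      exact h1

end GiantSurf57
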