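import Pool.Agent.GiantSurf57.Assembly
import Pool.Agent.GiantSurf57.PkgA1
import Pool.Agent.GiantSurf57.PkgA2
import Pool.Agent.GiantSurf57.PkgA3
import Pool.Agent.GiantSurf57.PkgB1
import Pool.Agent.GiantSurf57.PkgB2
import Pool.Agent.GiantSurf57.PkgB3
import Pool.Agent.GiantSurf57.PkgB4
import Pool.Agent.GiantSurf57.PkgB5
import Pool.Agent.GiantSurf57.PkgC1
import Pool.Agent.GiantSurf57.PkgC2
import Pool.Agent.GiantSurf57.PkgC3
import Pool.Agent.GiantSurf57.PkgC4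
import Pool.Agent.GiantSurf57.PkgC5
import Pool.Agent.GiantSurf57.PkgC6
import Pool.Agent.GiantSurf57.PkgC7
import Pool.Agent.GiantSurf57.PkgC8
import Pool.Agent.GiantSurf57.PkgC9
import Pool.Agent.GiantSurf57.PkgD1
import Pool.Agent.GiantSurf57.PkgD2
import Pool.Agent.GiantSurf57.PkgD3
import Pool.Agent.GiantSurf57.PkgD4
import Pool.Agent.GiantSurf57.PkgD5
import Pool.Agent.GiantSurf57.PkgD6
import Pool.Agent.GiantSurf57.PkgE1
import Pool.Agent.GiantSurf57.PkgE2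
import Pool.Agent.GiantSurf57.PkgE3
import Pool.Agent.GiantSurf57.PkgE4
import Pool.Agent.GiantSurf57.PkgE5
import Pool.Agent.GiantSurf57.PkgE6
import Pool.Agent.GiantSurf57.PkgE7
import Pool.Agent.GiantSurf57.PkgE8
import Pool.Agent.GiantSurf57.PkgE9
import Pool.Agent.GiantSurf57.PkgE10
import Pool.Agent.GiantSurf57.PkgF1
import Pool.Agent.GiantSurf57.PkgF2
import Pool.Agent.GiantSurf57.PkgF3
import Pool.Agent.GiantSurf57.PkgF4
import Pool.Agent.GiantSurf57.PkgF5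
import Pool.Agent.GiantSurf57.PkgF6
import Pool.Agent.GiantSurf57.PkgF7
import Pool.Agent.GiantSurf57.PkgF8
import Pool.Agent.GiantSurf57.PkgF9
import Pool.Agent.GiantSurf57.PkgF10
import Pool.Agent.GiantSurf57.PkgF11
import Pool.Agent.GiantSurf57.PkgF12
import Pool.Agent.GiantSurf57.PkgF13
import Pool.Agent.GiantSurf57.PkgF14
import Pool.Agent.GiantSurf57.PkgF15
import Pool.Agent.GiantSurf57.PkgF16
import Pool.Agent.GiantSurf57.PkgF17
import Pool.Agent.GiantSurf57.PkgF18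
import Pool.Agent.GiantSurf57.PkgF19
import Pool.Agent.GiantSurf57.PkgG1
import Pool.Agent.GiantSurf57.PkgG0
import Pool.Agent.GiantSurf57.PkgG2
import Pool.Agent.GiantSurf57.PkgG3
import Pool.Agent.GiantSurf57.PkgT0_T7_T11
import Pool.Agent.GiantSurf57.PkgT1
import Pool.Agent.GiantSurf57.PkgT2
import Pool.Agent.GiantSurf57.PkgT3
import Pool.Agent.GiantSurf57.PkgT4
import Pool.Agent.GiantSurf57.PkgT5
import Pool.Agent.GiantSurf57.PkgT6
import Pool.Agent.GiantSurf57.PkgT8_T9_T10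
import Pool.Agent.GiantSurf57.PkgT12_T13
import Pool.Agent.GiantSurf57.PkgT14_T16_T17
import Pool.Agent.GiantSurf57.PkgT15
import Pool.Agent.GiantSurf57.PkgT18
import Pool.Agent.GiantSurf57.PkgT19
import Pool.Agent.GiantSurf57.PkgT20
import Pool.Agent.GiantSurf57.PkgT21
import Pool.Agent.GiantSurf57.PkgT22
import Pool.Agent.GiantSurf57.PkgM1_M3
import Pool.Agent.GiantSurf57.PkgM2
import Pool.Agent.GiantSurf57.PkgM4
import Pool.Agent.GiantSurf57.PkgM5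
import Pool.Agent.GiantSurf57.PkgR1
import Pool.Agent.GiantSurf57.PkgR2
import Pool.Agent.GiantSurf57.PkgR3
import Pool.Agent.GiantSurf57.PkgH1
import Pool.Agent.GiantSurf57.PkgZ

/-!
# The project `GiantSurf57`: all packages put together
-/

namespace GiantSurf57

theorem final : Result :=
  assembly
    pkgA1 pkgA2 pkgA3 pkgB1 pkgB2 pkgB3 pkgB4 pkgB5 pkgC1 pkgC2 pkgC3 pkgC4 pkgC5 pkgC6 pkgC7
    pkgC8 pkgC9 pkgD1 pkgD2 pkgD3 pkgD4 pkgD5 pkgD6 pkgE1 pkgE2 pkgE3 pkgE4 pkgE5 pkgE6 pkgE7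
    pkgE8 pkgE9 pkgE10 pkgF1 pkgF2 pkgF3 pkgF4 pkgF5 pkgF6 pkgF7 pkgF8 pkgF9 pkgF10 pkgF11 pkgF12
    pkgF13 pkgF14 pkgF15 pkgF16 pkgF17 pkgF18 pkgF19 pkgG1 pkgG0 pkgG2 pkgG3 pkgT0 pkgT1 pkgT2
    pkgT3 pkgT4 pkgT5 pkgT6 pkgT7 pkgT8 pkgT9 pkgT10 pkgT11 pkgT12 pkgT13 pkgT14 pkgT15 pkgT16
    pkgT17 pkgT18 pkgT19 pkgT20 pkgT21 pkgT22 pkgM1 pkgM2 pkgM3 pkgM4 pkgM5 pkgR1 pkgR2 pkgR3
    pkgH1 pkgZ

end GiantSurf57
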