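import Pool.Agent.GiantSurf57.StmtsTop

/-!
# Common part of the packages B3 and B4: suppressing a vertex of degree 2
-/

open scoped Classical
open Finset

namespace GiantSurf57.PkgB34

/-- Delete `v` and join all its neighbours. -/
def supG (Q : SimpleGraph ℕ) (v : ℕ) : SimpleGraph ℕ where
  Adj a b := a ≠ b ∧ a ≠ v ∧ b ≠ v ∧ (Q.Adj a b ∨ (Q.Adj v a ∧ Q.Adj v b))
  symm := ⟨fun _ _ h => ⟨h.1.symm, h.2.2.1, h.2.1, h.2.2.2.elim (fun h => Or.inl h.symm)
    (fun h => Or.inr ⟨h.2, h.1⟩)⟩⟩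
  loopless := ⟨fun _ h => h.1 rfl⟩

/-- Subdivide the edge `e` by `v`. -/
def subG (Q : SimpleGraph ℕ) (v : ℕ) (e : Sym2 ℕ) : SimpleGraph ℕ where
  Adj a b := a ≠ b ∧ ((Q.Adj a b ∧ s(a, b) ≠ e) ∨ (a = v ∧ b ∈ e) ∨ (b = v ∧ a ∈ e))
  symm := ⟨fun _ _ h => ⟨h.1.symm, by
    rcases h.2 with h | h | h
    · left; exact ⟨h.1.symm, by rw [Sym2.eq_swap]; exact h.2⟩
    · right; right; exact h
    · right; left; exact h⟩⟩
  loopless := ⟨fun _ h => h.1 rfl⟩

/-! ### Elementary facts on graphs on a finite set -/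

theorem nbr_eq {S : Finset ℕ} {G : SimpleGraph ℕ} (h : G.support ⊆ ↑S) (v : ℕ) :
    G.neighborSet v = ↑(S.filter (G.Adj v)) := by
  ext w
  simp only [SimpleGraph.mem_neighborSet, coe_filter, Set.mem_ofPred_eq]
  exact ⟨fun hw => ⟨h ⟨v, hw.symm⟩, hw⟩, fun hw => hw.2⟩

theorem deg_eq {S : Finset ℕ} {G : SimpleGraph ℕ} (h : G.support ⊆ ↑S) (v : ℕ) :
    deg G v = (S.filter (G.Adj v)).card := by
  rw [deg, nbr_eq h v, Set.ncard_coe_finset]

/-- The set of edges as a finset. -/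
noncomputable def EF (G : SimpleGraph ℕ) (S : Finset ℕ) : Finset (Sym2 ℕ) :=
  ((S ×ˢ S).filter (fun p => G.Adj p.1 p.2)).image (fun p => s(p.1, p.2))

theorem mem_EF {S : Finset ℕ} {G : SimpleGraph ℕ} (h : G.support ⊆ ↑S) (e : Sym2 ℕ) :
    e ∈ EF G S ↔ e ∈ G.edgeSet := by
  induction e with
  | _ x y =>
    simp only [EF, mem_image, mem_filter, mem_product, SimpleGraph.mem_edgeSet, Prod.exists]
    constructor
    · rintro ⟨a, b, ⟨_, hab⟩, he⟩
      rw [Sym2.eq_iff] at he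
      rcases he with ⟨rfl, rfl⟩ | ⟨rfl, rfl⟩
      · exact hab
      · exact hab.symm
    · intro hxy
      exact ⟨x, y, ⟨⟨h ⟨y, hxy⟩, h ⟨x, hxy.symm⟩⟩, hxy⟩, rfl⟩

theorem coe_EF {S : Finset ℕ} {G : SimpleGraph ℕ} (h : G.support ⊆ ↑S) :
    (↑(EF G S) : Set (Sym2 ℕ)) = G.edgeSet := by
  ext e; simpa using mem_EF h e

theorem nedge_eq {S : Finset ℕ} {G : SimpleGraph ℕ} (h : G.support ⊆ ↑S) :
    ne G = (EF G S).card := by
  rw [ne, ← coe_EF h, Set.ncard_coe_finset]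

theorem edgeSet_finite {S : Finset ℕ} {G : SimpleGraph ℕ} (h : G.support ⊆ ↑S) :
    G.edgeSet.Finite := by
  rw [← coe_EF h]; exact Finset.finite_toSet _

/-- Handshake inside a set `I` closed under adjacency. -/
theorem handshake {S : Finset ℕ} {G : SimpleGraph ℕ} (h : G.support ⊆ ↑S) (I : Finset ℕ)
    (hI : I ⊆ S) (hcl : ∀ a ∈ I, ∀ b, G.Adj a b → b ∈ I) :
    ∑ v ∈ I, deg G v = 2 * ((EF G S).filter (fun e => ∀ x ∈ e, x ∈ I)).card := by
  set D := (I ×ˢ S).filter (fun p : ℕ × ℕ => G.Adj p.1 p.2) with hD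
  have h1 : ∑ v ∈ I, deg G v = D.card := by
    rw [hD, Finset.card_filter, Finset.sum_product]
    refine Finset.sum_congr rfl fun v hv => ?_
    rw [deg_eq h v, Finset.card_filter]
  rw [h1]
  have h2 : ∀ p ∈ D, s(p.1, p.2) ∈ (EF G S).filter (fun e => ∀ x ∈ e, x ∈ I) := by
    rintro ⟨a, b⟩ hp
    rw [hD] at hp
    simp only [mem_filter, mem_product] at hp
    obtain ⟨⟨ha, hb⟩, hab⟩ := hp
    rw [mem_filter, mem_EF h]
    refine ⟨hab, ?_⟩
    intro x hx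
    rw [Sym2.mem_iff] at hx
    rcases hx with rfl | rfl
    · exact ha
    · exact hcl a ha _ hab
  rw [Finset.card_eq_sum_card_fiberwise (f := fun p : ℕ × ℕ => s(p.1, p.2)) (t := (EF G S).filter (fun e => ∀ x ∈ e, x ∈ I)) h2]
  rw [mul_comm, ← smul_eq_mul, ← Finset.sum_const]
  refine Finset.sum_congr rfl ?_
  intro e he
  induction e with
  | _ x y =>
    rw [mem_filter, mem_EF h] at he
    obtain ⟨hxy, hI'⟩ := he
    rw [SimpleGraph.mem_edgeSet] at hxy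
    have hx : x ∈ I := hI' x (by simp)
    have hy : y ∈ I := hI' y (by simp)
    have hne : x ≠ y := hxy.ne
    have : D.filter (fun p : ℕ × ℕ => s(p.1, p.2) = s(x, y)) = {(x, y), (y, x)} := by
      ext ⟨a, b⟩
      simp only [hD, mem_filter, mem_product, Sym2.eq_iff, mem_insert, mem_singleton, Prod.mk.injEq]
      constructor
      · rintro ⟨_, h | h⟩
        · left; exact h
        · right; exact h
      · rintro (⟨rfl, rfl⟩ | ⟨rfl, rfl⟩)
        · exact ⟨⟨⟨hx, hI hy⟩, hxy⟩, Or.inl ⟨rfl, rfl⟩⟩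
        · exact ⟨⟨⟨hy, hI hx⟩, hxy.symm⟩, Or.inr ⟨rfl, rfl⟩⟩
    rw [this, Finset.card_pair]
    intro h
    simp only [Prod.mk.injEq] at h
    exact hne h.1

theorem handshake_all {S : Finset ℕ} {G : SimpleGraph ℕ} (h : G.support ⊆ ↑S) :
    ∑ v ∈ S, deg G v = 2 * ne G := by
  rw [handshake h S (Finset.Subset.refl S) (fun a _ b hab => h ⟨a, hab.symm⟩), nedge_eq h]
  congr 2
  refine Finset.filter_true_of_mem ?_
  intro e he x hx
  rw [mem_EF h] at he
  induction e with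
  | _ a b =>
    rw [SimpleGraph.mem_edgeSet] at he
    rw [Sym2.mem_iff] at hx
    rcases hx with rfl | rfl
    · exact h ⟨b, he⟩
    · exact h ⟨a, he.symm⟩

theorem mem_core {P : SimpleGraph ℕ → Prop} {S : Finset ℕ} {l : ℕ} {Q : SimpleGraph ℕ} :
    Q ∈ core P S l ↔ Q.support ⊆ ↑S ∧ P Q ∧ (∀ v ∈ S, 2 ≤ deg Q v) ∧ ne Q = S.card + l := by
  rw [core, mem_filter, mem_graphsOn]

/-! ### Suppressible vertices -/

/-- `v` is suppressible: two neighbours, which are not adjacent. -/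
def Supp (Q : SimpleGraph ℕ) (v : ℕ) : Prop :=
  ∃ x y, x ≠ y ∧ Q.neighborSet v = {x, y} ∧ ¬ Q.Adj x y

section

variable {Q : SimpleGraph ℕ} {v x y : ℕ}

theorem adj_v (hN : Q.neighborSet v = {x, y}) (w : ℕ) : Q.Adj v w ↔ w = x ∨ w = y := by
  rw [← SimpleGraph.mem_neighborSet, hN]; simp

theorem supG_adj (hxy : x ≠ y) (hN : Q.neighborSet v = {x, y}) (a b : ℕ) :
    (supG Q v).Adj a b ↔ (a ≠ v ∧ b ≠ v ∧ Q.Adj a b) ∨ (a = x ∧ b = y) ∨ (a = y ∧ b = x) := by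
  have hvx : Q.Adj v x := (adj_v hN x).2 (Or.inl rfl)
  have hvy : Q.Adj v y := (adj_v hN y).2 (Or.inr rfl)
  constructor
  · rintro ⟨hab, ha, hb, h | ⟨h1, h2⟩⟩
    · exact Or.inl ⟨ha, hb, h⟩
    · rw [adj_v hN] at h1 h2
      rcases h1 with rfl | rfl <;> rcases h2 with rfl | rfl
      · exact absurd rfl hab
      · exact Or.inr (Or.inl ⟨rfl, rfl⟩)
      · exact Or.inr (Or.inr ⟨rfl, rfl⟩)
      · exact absurd rfl hab
  · rintro (⟨ha, hb, h⟩ | ⟨rfl, rfl⟩ | ⟨rfl, rfl⟩)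
    · exact ⟨h.ne, ha, hb, Or.inl h⟩
    · exact ⟨hxy, hvx.ne', hvy.ne', Or.inr ⟨hvx, hvy⟩⟩
    · exact ⟨hxy.symm, hvy.ne', hvx.ne', Or.inr ⟨hvy, hvx⟩⟩

theorem supG_le (hxy : x ≠ y) (hN : Q.neighborSet v = {x, y}) :
    supG Q v ≤ Q ⊔ SimpleGraph.edge x y := by
  intro a b h
  rw [supG_adj hxy hN] at h
  rw [SimpleGraph.sup_adj, SimpleGraph.edge_adj]
  rcases h with ⟨_, _, h⟩ | ⟨rfl, rfl⟩ | ⟨rfl, rfl⟩
  · exact Or.inl h
  · exact Or.inr ⟨Or.inl ⟨rfl, rfl⟩, hxy⟩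
  · exact Or.inr ⟨Or.inr ⟨rfl, rfl⟩, hxy.symm⟩

theorem subG_supG (hxy : x ≠ y) (hN : Q.neighborSet v = {x, y}) (hA : ¬ Q.Adj x y) :
    subG (supG Q v) v s(x, y) = Q := by
  have hvx : Q.Adj v x := (adj_v hN x).2 (Or.inl rfl)
  have hvy : Q.Adj v y := (adj_v hN y).2 (Or.inr rfl)
  ext a b
  show (a ≠ b ∧ (((supG Q v).Adj a b ∧ s(a, b) ≠ s(x, y)) ∨ (a = v ∧ b ∈ s(x, y)) ∨
    (b = v ∧ a ∈ s(x, y)))) ↔ Q.Adj a b
  rw [supG_adj hxy hN]
  simp only [Sym2.mem_iff, ne_eq, Sym2.eq_iff]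
  constructor
  · rintro ⟨hab, ⟨h1, h2⟩ | ⟨rfl, h⟩ | ⟨rfl, h⟩⟩
    · rcases h1 with ⟨_, _, h⟩ | h | h
      · exact h
      · exact absurd (Or.inl h) h2
      · exact absurd (Or.inr h) h2
    · exact (adj_v hN b).2 h
    · exact ((adj_v hN a).2 h).symm
  · intro h
    refine ⟨h.ne, ?_⟩
    by_cases ha : a = v
    · subst ha
      right; left
      exact ⟨rfl, (adj_v hN b).1 h⟩
    · by_cases hb : b = v
      · subst hb
        right; right
        exact ⟨rfl, (adj_v hN a).1 h.symm⟩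
      · left
        refine ⟨Or.inl ⟨ha, hb, h⟩, ?_⟩
        rintro (⟨rfl, rfl⟩ | ⟨rfl, rfl⟩)
        · exact hA h
        · exact hA h.symm

theorem supG_support {S : Finset ℕ} (h : Q.support ⊆ ↑S) : (supG Q v).support ⊆ ↑(S.erase v) := by
  rintro a ⟨b, hab⟩
  simp only [coe_erase, Set.mem_sdiff, mem_coe, Set.mem_singleton_iff]
  refine ⟨?_, hab.2.1⟩
  rcases hab.2.2.2 with h1 | h1
  · exact h ⟨b, h1⟩
  · exact h ⟨v, h1.1.symm⟩

theorem supG_deg {S : Finset ℕ} (hS : Q.support ⊆ ↑S) (hxy : x ≠ y)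
    (hN : Q.neighborSet v = {x, y}) (hA : ¬ Q.Adj x y)
    {w : ℕ} (hw : w ≠ v) : deg (supG Q v) w = deg Q w := by
  have hvx : Q.Adj v x := (adj_v hN x).2 (Or.inl rfl)
  have hvy : Q.Adj v y := (adj_v hN y).2 (Or.inr rfl)
  have hfin : (Q.neighborSet w).Finite := by
    rw [nbr_eq hS w]; exact Finset.finite_toSet _
  have key : ∀ a b : ℕ, a ≠ b → a ≠ v → Q.neighborSet v = {a, b} → ¬ Q.Adj a b →
      (Q.neighborSet a).Finite → deg (supG Q v) a = deg Q a := by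
    intro a b hab hav hN' hA' hf
    have hva : Q.Adj v a := (adj_v hN' a).2 (Or.inl rfl)
    have hvb : Q.Adj v b := (adj_v hN' b).2 (Or.inr rfl)
    have e1 : (supG Q v).neighborSet a = insert b (Q.neighborSet a \ {v}) := by
      ext c
      rw [SimpleGraph.mem_neighborSet, supG_adj hab hN']
      simp only [Set.mem_insert_iff, Set.mem_sdiff, SimpleGraph.mem_neighborSet,
        Set.mem_singleton_iff]
      constructor
      · rintro (⟨_, h2, h3⟩ | ⟨_, h⟩ | ⟨h, _⟩)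
        · exact Or.inr ⟨h3, h2⟩
        · exact Or.inl h
        · exact absurd h hab
      · rintro (h | ⟨h1, h2⟩)
        · exact Or.inr (Or.inl ⟨trivial, h⟩)
        · exact Or.inl ⟨hav, h2, h1⟩
    have hb : b ∉ Q.neighborSet a \ {v} := fun h => hA' h.1
    have hv : v ∈ Q.neighborSet a := hva.symm
    rw [deg, e1, Set.ncard_insert_of_notMem hb (hf.sdiff), Set.ncard_sdiff_singleton_add_one hv hf, deg]
  by_cases hwx : w = x
  · subst hwx
    exact key w y hxy hw hN hA hfin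
  · by_cases hwy : w = y
    · subst hwy
      exact key w x hxy.symm hw (by rw [hN, Set.pair_comm]) (fun h => hA h.symm) hfin
    · rw [deg, deg]
      congr 1
      ext c
      rw [SimpleGraph.mem_neighborSet, supG_adj hxy hN, SimpleGraph.mem_neighborSet]
      constructor
      · rintro (⟨_, _, h⟩ | ⟨h, _⟩ | ⟨h, _⟩)
        · exact h
        · exact absurd h hwx
        · exact absurd h hwy
      · intro h
        refine Or.inl ⟨hw, ?_, h⟩
        rintro rfl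
        rcases (adj_v hN w).1 h.symm with h | h
        · exact hwx h
        · exact hwy h

theorem supG_ne {S : Finset ℕ} (hS : Q.support ⊆ ↑S) (hxy : x ≠ y)
    (hN : Q.neighborSet v = {x, y}) (hA : ¬ Q.Adj x y) : ne (supG Q v) + 1 = ne Q := by
  have hvx : Q.Adj v x := (adj_v hN x).2 (Or.inl rfl)
  have hvS : v ∈ S := hS ⟨x, hvx⟩
  have hS' : (supG Q v).support ⊆ ↑S := fun a ha => (Finset.erase_subset v S) (supG_support hS ha)
  have h1 := handshake_all hS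
  have h2 := handshake_all hS'
  rw [← Finset.add_sum_erase S _ hvS] at h1 h2
  have h3 : ∑ w ∈ S.erase v, deg (supG Q v) w = ∑ w ∈ S.erase v, deg Q w :=
    Finset.sum_congr rfl fun w hw => supG_deg hS hxy hN hA (Finset.mem_erase.1 hw).1
  have h4 : deg Q v = 2 := by rw [deg, hN, Set.ncard_pair hxy]
  have h5 : deg (supG Q v) v = 0 := by
    rw [deg]
    have : (supG Q v).neighborSet v = ∅ := by
      ext c
      simp only [SimpleGraph.mem_neighborSet, Set.mem_empty_iff_false, iff_false]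
      intro h
      exact h.2.1 rfl
    rw [this]; simp
  rw [h3, h5] at h2
  rw [h4] at h1
  omega

theorem supG_mem_core {P : SimpleGraph ℕ → Prop} (hP : SurfClass P) {S : Finset ℕ} {l : ℕ}
    (hQ : Q ∈ core P S l) (hxy : x ≠ y)
    (hN : Q.neighborSet v = {x, y}) (hA : ¬ Q.Adj x y) : supG Q v ∈ core P (S.erase v) l := by
  rw [mem_core] at hQ ⊢
  obtain ⟨hS, hPQ, hd, hne⟩ := hQ
  have hvx : Q.Adj v x := (adj_v hN x).2 (Or.inl rfl)
  have hvy : Q.Adj v y := (adj_v hN y).2 (Or.inr rfl)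
  have hvS : v ∈ S := hS ⟨x, hvx⟩
  refine ⟨supG_support hS, ?_, ?_, ?_⟩
  · refine hP.mono _ _ ?_ (supG_le hxy hN) (hP.closeTri Q v x y (edgeSet_finite hS) hPQ hN hxy)
    refine edgeSet_finite (S := S) ?_
    rintro a ⟨b, hab⟩
    have hab : (Q ⊔ SimpleGraph.edge x y).Adj a b := hab
    rw [SimpleGraph.sup_adj, SimpleGraph.edge_adj] at hab
    rcases hab with hab | ⟨⟨rfl, rfl⟩ | ⟨rfl, rfl⟩, _⟩
    · exact hS ⟨b, hab⟩
    · exact hS ⟨v, hvx.symm⟩
    · exact hS ⟨v, hvy.symm⟩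
  · intro w hw
    rw [supG_deg hS hxy hN hA (Finset.mem_erase.1 hw).1]
    exact hd w (Finset.mem_erase.1 hw).2
  · have h1 := supG_ne hS hxy hN hA
    have h2 := Finset.card_erase_add_one hvS
    omega

end

/-- The counting step for suppressed vertices. -/
theorem count_le {P : SimpleGraph ℕ → Prop} (hP : SurfClass P) {S : Finset ℕ} {l v : ℕ}
    (T : Finset (SimpleGraph ℕ)) (E : SimpleGraph ℕ → Finset (Sym2 ℕ))
    (hT : ∀ Q ∈ T, Q ∈ core P S l ∧ ∃ x y, x ≠ y ∧ Q.neighborSet v = {x, y} ∧ ¬ Q.Adj x y ∧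
      s(x, y) ∈ E (supG Q v)) :
    T.card ≤ ∑ Q ∈ core P (S.erase v) l, (E Q).card := by
  have hsub : T ⊆ (core P (S.erase v) l).biUnion (fun Q => (E Q).image (fun e => subG Q v e)) := by
    intro Q hQ
    obtain ⟨hc, x, y, hxy, hN, hA, hE⟩ := hT Q hQ
    rw [mem_biUnion]
    refine ⟨supG Q v, supG_mem_core hP hc hxy hN hA, ?_⟩
    rw [mem_image]
    exact ⟨s(x, y), hE, subG_supG hxy hN hA⟩
  refine (Finset.card_le_card hsub).trans (Finset.card_biUnion_le.trans ?_)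
  exact Finset.sum_le_sum fun Q _ => Finset.card_image_le

end GiantSurf57.PkgB34
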