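import Pool.Agent.GiantSurf57.Stmts
import Pool.Agent.GiantSurf57.PkgC8

/-!
# Package C4: subdividing an edge outside a thread
-/

set_option autoImplicit false

open scoped Classical
open Finset

namespace GiantSurf57

namespace PkgC4

/-- subdivision of the edge `xy` by the vertex `v` -/
def sub (Q : SimpleGraph ℕ) (x y v : ℕ) : SimpleGraph ℕ :=
  (Q \ SimpleGraph.edge x y) ⊔ (SimpleGraph.edge x v ⊔ SimpleGraph.edge v y)

theorem sub_adj {Q : SimpleGraph ℕ} {x y v : ℕ} (hxv : x ≠ v) (hyv : y ≠ v) (a b : ℕ) :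
    (sub Q x y v).Adj a b ↔ (Q.Adj a b ∧ s(a, b) ≠ s(x, y)) ∨
      (a = v ∧ (b = x ∨ b = y)) ∨ (b = v ∧ (a = x ∨ a = y)) := by
  simp only [sub, SimpleGraph.sup_adj, SimpleGraph.sdiff_adj, SimpleGraph.edge_adj, ne_eq,
    Sym2.eq_iff]
  constructor
  · rintro (⟨h1, h2⟩ | ⟨h, h3⟩ | ⟨h, h3⟩)
    · left
      refine ⟨h1, fun h => h2 ⟨?_, h1.ne⟩⟩
      tauto
    · tauto
    · tauto
  · rintro (⟨h1, h2⟩ | ⟨h1, h2⟩ | ⟨h1, h2⟩)
    · left
      exact ⟨h1, fun h => h2 (by tauto)⟩
    · subst h1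
      rcases h2 with rfl | rfl
      · right; left; exact ⟨Or.inr ⟨rfl, rfl⟩, fun h => hxv h.symm⟩
      · right; right; exact ⟨Or.inl ⟨rfl, rfl⟩, fun h => hyv h.symm⟩
    · subst h1
      rcases h2 with rfl | rfl
      · right; left; exact ⟨Or.inl ⟨rfl, rfl⟩, hxv⟩
      · right; right; exact ⟨Or.inr ⟨rfl, rfl⟩, hyv⟩

section

variable {Q : SimpleGraph ℕ} {x y v : ℕ} (hxy : Q.Adj x y) (hv : v ∉ Q.support)

include hxy hv

theorem ne1 : x ≠ v := fun h => hv ⟨y, h ▸ hxy⟩

theorem ne2 : y ≠ v := fun h => hv ⟨x, h ▸ hxy.symm⟩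

theorem not_adj_v (a : ℕ) : ¬ Q.Adj v a := fun h => hv ⟨a, h⟩

theorem deg_v : deg (sub Q x y v) v = 2 := by
  have h1 := ne1 hxy hv
  have h2 := ne2 hxy hv
  unfold deg
  have : (sub Q x y v).neighborSet v = {x, y} := by
    ext a
    rw [SimpleGraph.mem_neighborSet, sub_adj h1 h2]
    simp only [Set.mem_insert_iff, Set.mem_singleton_iff]
    constructor
    · rintro (⟨h, -⟩ | ⟨-, h⟩ | ⟨-, h | h⟩)
      · exact absurd h (not_adj_v hxy hv a)
      · exact h
      · exact absurd h.symm h1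
      · exact absurd h.symm h2
    · intro h
      exact Or.inr (Or.inl ⟨by trivial, h⟩)
  rw [this, Set.ncard_pair hxy.ne]

theorem neighbor_v : (sub Q x y v).neighborSet v = {x, y} := by
  have h1 := ne1 hxy hv
  have h2 := ne2 hxy hv
  ext a
  rw [SimpleGraph.mem_neighborSet, sub_adj h1 h2]
  simp only [Set.mem_insert_iff, Set.mem_singleton_iff]
  constructor
  · rintro (⟨h, -⟩ | ⟨-, h⟩ | ⟨-, h | h⟩)
    · exact absurd h (not_adj_v hxy hv a)
    · exact h
    · exact absurd h.symm h1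
    · exact absurd h.symm h2
  · intro h
    exact Or.inr (Or.inl ⟨by trivial, h⟩)

theorem deg_ne {w : ℕ} (hw : w ≠ v) : deg (sub Q x y v) w = deg Q w := by
  have h1 := ne1 hxy hv
  have h2 := ne2 hxy hv
  unfold deg
  by_cases hwx : w = x
  · subst hwx
    have : (sub Q w y v).neighborSet w = insert v (Q.neighborSet w \ {y}) := by
      ext a
      rw [SimpleGraph.mem_neighborSet, sub_adj h1 h2]
      simp only [Set.mem_insert_iff, Set.mem_sdiff, SimpleGraph.mem_neighborSet,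
        Set.mem_singleton_iff, ne_eq, Sym2.eq_iff]
      constructor
      · rintro (⟨h, h3⟩ | ⟨h, -⟩ | ⟨h, -⟩)
        · right
          exact ⟨h, fun h4 => h3 (Or.inl ⟨by trivial, h4⟩)⟩
        · exact absurd h hw
        · exact Or.inl h
      · rintro (h | ⟨h, h3⟩)
        · exact Or.inr (Or.inr ⟨h, Or.inl (by trivial)⟩)
        · left
          refine ⟨h, ?_⟩
          rintro (⟨-, h4⟩ | ⟨h4, -⟩)
          · exact h3 h4
          · exact hxy.ne h4
    rw [this]
    exact Set.ncard_exchange (fun h => hv ⟨w, (h : Q.Adj w v).symm⟩) hxy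
  · by_cases hwy : w = y
    · subst hwy
      have : (sub Q x w v).neighborSet w = insert v (Q.neighborSet w \ {x}) := by
        ext a
        rw [SimpleGraph.mem_neighborSet, sub_adj h1 h2]
        simp only [Set.mem_insert_iff, Set.mem_sdiff, SimpleGraph.mem_neighborSet,
          Set.mem_singleton_iff, ne_eq, Sym2.eq_iff]
        constructor
        · rintro (⟨h, h3⟩ | ⟨h, -⟩ | ⟨h, -⟩)
          · right
            exact ⟨h, fun h4 => h3 (Or.inr ⟨by trivial, h4⟩)⟩
          · exact absurd h hw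
          · exact Or.inl h
        · rintro (h | ⟨h, h3⟩)
          · exact Or.inr (Or.inr ⟨h, Or.inr (by trivial)⟩)
          · left
            refine ⟨h, ?_⟩
            rintro (⟨h4, -⟩ | ⟨-, h4⟩)
            · exact hwx h4
            · exact h3 h4
      rw [this]
      exact Set.ncard_exchange (fun h => hv ⟨w, (h : Q.Adj w v).symm⟩) hxy.symm
    · have : (sub Q x y v).neighborSet w = Q.neighborSet w := by
        ext a
        rw [SimpleGraph.mem_neighborSet, sub_adj h1 h2]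
        simp only [SimpleGraph.mem_neighborSet, ne_eq, Sym2.eq_iff]
        constructor
        · rintro (⟨h, -⟩ | ⟨h, -⟩ | ⟨-, h | h⟩)
          · exact h
          · exact absurd h hw
          · exact absurd h hwx
          · exact absurd h hwy
        · intro h
          left
          refine ⟨h, ?_⟩
          rintro (⟨h4, -⟩ | ⟨h4, -⟩)
          · exact hwx h4
          · exact hwy h4
      rw [this]

theorem recover (a b : ℕ) : Q.Adj a b ↔
    (a ≠ v ∧ b ≠ v ∧ (sub Q x y v).Adj a b) ∨ s(a, b) = s(x, y) := by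
  have h1 := ne1 hxy hv
  have h2 := ne2 hxy hv
  rw [sub_adj h1 h2]
  constructor
  · intro h
    by_cases he : s(a, b) = s(x, y)
    · exact Or.inr he
    · left
      exact ⟨fun h3 => hv ⟨b, h3 ▸ h⟩, fun h3 => hv ⟨a, h3 ▸ h.symm⟩, Or.inl ⟨h, he⟩⟩
  · rintro (⟨ha, hb, ⟨h, -⟩ | ⟨h, -⟩ | ⟨h, -⟩⟩ | h)
    · exact h
    · exact absurd h ha
    · exact absurd h hb
    · rw [Sym2.eq_iff] at h
      rcases h with ⟨rfl, rfl⟩ | ⟨rfl, rfl⟩
      · exact hxy
      · exact hxy.symm

end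

theorem core_sub {P : SimpleGraph ℕ → Prop} (hP : SurfClass P) {S : Finset ℕ} {l : ℕ} {v : ℕ}
    (hvS : v ∈ S) {Q : SimpleGraph ℕ} (hQ : Q ∈ core P (S.erase v) l) {x y : ℕ}
    (hxy : Q.Adj x y) : sub Q x y v ∈ core P S l := by
  rw [core, Finset.mem_filter, mem_graphsOn] at hQ
  obtain ⟨hsupp, hPQ, hd, hne⟩ := hQ
  have hv : v ∉ Q.support := fun h => by simpa using hsupp h
  have h1 := ne1 hxy hv
  have h2 := ne2 hxy hv
  have hsupp' : (sub Q x y v).support ⊆ ↑S := by
    rintro a ⟨b, hab⟩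
    change (sub Q x y v).Adj a b at hab
    rw [sub_adj h1 h2] at hab
    rcases hab with ⟨h, -⟩ | ⟨h, -⟩ | ⟨-, h | h⟩
    · exact Finset.mem_of_mem_erase (Finset.mem_coe.mp (hsupp ⟨b, h⟩))
    · rw [h]; exact hvS
    · rw [h]; exact Finset.mem_of_mem_erase (Finset.mem_coe.mp (hsupp ⟨y, hxy⟩))
    · rw [h]; exact Finset.mem_of_mem_erase (Finset.mem_coe.mp (hsupp ⟨x, hxy.symm⟩))
  rw [core, Finset.mem_filter, mem_graphsOn]
  refine ⟨hsupp', hP.subdiv Q x y v (PkgC8.edges_finite hsupp) hPQ hxy hv, ?_, ?_⟩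
  · intro w hw
    by_cases hwv : w = v
    · subst hwv
      rw [deg_v hxy hv]
    · rw [deg_ne hxy hv hwv]
      exact hd w (Finset.mem_erase.mpr ⟨hwv, hw⟩)
  · have e1 := PkgC8.handshake hsupp'
    have e2 := PkgC8.handshake hsupp
    rw [← Finset.add_sum_erase S _ hvS, deg_v hxy hv,
      Finset.sum_congr rfl (fun w hw => deg_ne hxy hv (Finset.ne_of_mem_erase hw)), e2, hne,
      Finset.card_erase_of_mem hvS] at e1
    have := Finset.card_pos.mpr ⟨v, hvS⟩
    omega

/-- the edges of the walk `b - L - c` -/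
def te : ℕ → List ℕ → ℕ → Finset (Sym2 ℕ)
  | b, [], c => {s(b, c)}
  | b, v :: L, c => insert s(b, v) (te v L c)

theorem card_te (b : ℕ) (L : List ℕ) (c : ℕ) : (te b L c).card ≤ L.length + 1 := by
  induction L generalizing b with
  | nil => simp [te]
  | cons v L ih =>
    simp only [te, List.length_cons]
    exact (Finset.card_insert_le _ _).trans (by have := ih v; omega)

theorem chn_sub {Q : SimpleGraph ℕ} {x y v : ℕ} (hxy : Q.Adj x y) (hv : v ∉ Q.support)
    {b : ℕ} {L : List ℕ} {c : ℕ} (h : Chn Q b L c) (he : s(x, y) ∉ te b L c) :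
    Chn (sub Q x y v) b L c := by
  have h1 := ne1 hxy hv
  have h2 := ne2 hxy hv
  induction L generalizing b with
  | nil =>
    simp only [te, Finset.mem_singleton] at he
    exact (sub_adj h1 h2 _ _).mpr (Or.inl ⟨h, fun h3 => he h3.symm⟩)
  | cons u L ih =>
    simp only [te, Finset.mem_insert, not_or] at he
    exact ⟨(sub_adj h1 h2 _ _).mpr (Or.inl ⟨h.1, fun h3 => he.1 h3.symm⟩), ih h.2 he.2⟩

theorem thread_sub {Q : SimpleGraph ℕ} {x y v : ℕ} (hxy : Q.Adj x y) (hv : v ∉ Q.support)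
    {b : ℕ} {L : List ℕ} {c : ℕ} (h : Thread Q b L c) (hb : b ≠ v) (hc : c ≠ v)
    (hL : v ∉ L) (he : s(x, y) ∉ te b L c) : Thread (sub Q x y v) b L c where
  chn := chn_sub hxy hv h.chn he
  nodup := h.nodup
  deg2 := fun w hw => by
    rw [deg_ne hxy hv (fun h' => hL (h' ▸ hw))]
    exact h.deg2 w hw
  left := by rw [deg_ne hxy hv hb]; exact h.left
  right := by rw [deg_ne hxy hv hc]; exact h.right
  one := h.one

/-- the triples `(b, L, c)` inside `S` with `L` of length `j` -/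
theorem finite_U (S : Finset ℕ) (j : ℕ) :
    {p : ℕ × List ℕ × ℕ | p.1 ∈ S ∧ (p.2.1.length = j ∧ ∀ v ∈ p.2.1, v ∈ S) ∧ p.2.2 ∈ S}.Finite := by
  have h1 : {L : List ℕ | L.length = j ∧ ∀ v ∈ L, v ∈ S}.Finite := by
    refine (Set.finite_range (fun f : Fin j → S => List.ofFn (fun i => (f i : ℕ)))).subset ?_
    rintro L ⟨rfl, hL⟩
    refine ⟨fun i => ⟨L.get i, hL _ (List.get_mem L i)⟩, ?_⟩
    simp
  have h2 : ((S : Set ℕ) ×ˢ ({L : List ℕ | L.length = j ∧ ∀ v ∈ L, v ∈ S} ×ˢ (S : Set ℕ))).Finite :=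
    (Finset.finite_toSet S).prod (h1.prod (Finset.finite_toSet S))
  refine h2.subset ?_
  rintro ⟨b, L, c⟩ ⟨h3, h4, h5⟩
  exact ⟨h3, h4, h5⟩

noncomputable def U (S : Finset ℕ) (j : ℕ) : Finset (ℕ × List ℕ × ℕ) := (finite_U S j).toFinset

theorem mem_U {S : Finset ℕ} {j : ℕ} {p : ℕ × List ℕ × ℕ} : p ∈ U S j ↔
    p.1 ∈ S ∧ (p.2.1.length = j ∧ ∀ v ∈ p.2.1, v ∈ S) ∧ p.2.2 ∈ S := by
  simp [U]

theorem mem_of_deg {S : Finset ℕ} {Q : SimpleGraph ℕ} (hS : Q.support ⊆ ↑S) {v : ℕ}
    (h : deg Q v ≠ 0) : v ∈ S := by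
  by_contra hv
  exact h (PkgC8.deg_zero hS hv)

theorem thread_mem_U {S : Finset ℕ} {Q : SimpleGraph ℕ} (hS : Q.support ⊆ ↑S)
    {p : ℕ × List ℕ × ℕ} (h : Thread Q p.1 p.2.1 p.2.2) : p ∈ U S p.2.1.length := by
  rw [mem_U]
  refine ⟨mem_of_deg hS ?_, ⟨rfl, fun v hv => mem_of_deg hS ?_⟩, mem_of_deg hS ?_⟩
  · have := h.left; omega
  · rw [h.deg2 v hv]; omega
  · have := h.right; omega

theorem thrN_eq {S : Finset ℕ} {Q : SimpleGraph ℕ} (hS : Q.support ⊆ ↑S) (j : ℕ) :
    thrN Q j = ((U S j).filter (fun p => Thread Q p.1 p.2.1 p.2.2)).card := by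
  unfold thrN
  rw [← Set.ncard_coe_finset]
  congr 1
  ext p
  simp only [Finset.coe_filter, Set.mem_ofPred_eq]
  constructor
  · rintro ⟨h, rfl⟩
    exact ⟨thread_mem_U hS h, h⟩
  · rintro ⟨h1, h⟩
    exact ⟨h, (mem_U.mp h1).2.1.1⟩

theorem sub_out {Q Q' : SimpleGraph ℕ} {x y x' y' v : ℕ} (hxy : Q.Adj x y) (hv : v ∉ Q.support)
    (hxy' : Q'.Adj x' y') (hv' : v ∉ Q'.support) (h : sub Q x y v = sub Q' x' y' v) :
    Q = Q' ∧ s(x, y) = s(x', y') := by
  have e1 : s(x, y) = s(x', y') := by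
    have h1 := neighbor_v hxy hv
    have h2 := neighbor_v hxy' hv'
    rw [h, h2] at h1
    have hx : x' ∈ ({x, y} : Set ℕ) := h1 ▸ (Set.mem_insert _ _)
    have hy : y' ∈ ({x, y} : Set ℕ) := h1 ▸ (Set.mem_insert_of_mem _ rfl)
    have hne := hxy'.ne
    simp only [Set.mem_insert_iff, Set.mem_singleton_iff] at hx hy
    rw [Sym2.eq_iff]
    rcases hx with rfl | rfl <;> rcases hy with rfl | rfl
    · exact absurd rfl hne
    · exact Or.inl ⟨rfl, rfl⟩
    · exact Or.inr ⟨rfl, rfl⟩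
    · exact absurd rfl hne
  refine ⟨?_, e1⟩
  ext a b
  rw [recover hxy hv, recover hxy' hv', h, e1]

end PkgC4

open PkgC4 in
theorem pkgC4 (h1 : S_relabel) (h2 : S_inv) : S_Sc := by
  intro P hP j k l hl
  set S := range (k + 1) with hS
  have hScard : S.card = k + 1 := Finset.card_range _
  -- (k+1) * SS
  have e1 : ∀ v ∈ S, ∑ Q ∈ core P (S.erase v) l, thrN Q j = SS P j k l := by
    intro v hv
    unfold SS
    refine h1 P hP (fun Q => thrN Q j) (fun G e => (h2 G e).1 j) _ _ l ?_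
    rw [Finset.card_erase_of_mem hv, hScard, Finset.card_range]
    rfl
  have e2 : (k + 1) * SS P j k l = ∑ v ∈ S, ∑ Q ∈ core P (S.erase v) l, thrN Q j := by
    rw [Finset.sum_congr rfl e1, Finset.sum_const, hScard, smul_eq_mul]
  rcases Nat.eq_zero_or_pos (SS P j k l) with h0 | hpos
  · rw [h0, mul_zero]; exact Nat.zero_le _
  -- k ≥ j + 1
  have hkj : j + 1 ≤ k := by
    unfold SS at hpos
    obtain ⟨Q, hQ, hQ1⟩ := Finset.exists_ne_zero_of_sum_ne_zero hpos.ne'
    have hsupp := mem_graphsOn.mp (Finset.mem_filter.mp hQ).1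
    rw [thrN_eq hsupp] at hQ1
    obtain ⟨p, hp⟩ := Finset.card_pos.mp (Nat.pos_of_ne_zero hQ1)
    rw [Finset.mem_filter, mem_U] at hp
    obtain ⟨⟨hb, ⟨hlen, hL⟩, -⟩, ht⟩ := hp
    have hnd : (p.1 :: p.2.1).Nodup := by
      rw [List.nodup_cons]
      refine ⟨fun hm => ?_, ht.nodup⟩
      have := ht.deg2 _ hm
      have := ht.left
      omega
    have hsub : (p.1 :: p.2.1).toFinset ⊆ range k := by
      intro w hw
      rw [List.mem_toFinset, List.mem_cons] at hw
      rcases hw with rfl | hw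
      · exact hb
      · exact hL w hw
    have := Finset.card_le_card hsub
    rw [List.toFinset_card_of_nodup hnd, List.length_cons, hlen, Finset.card_range] at this
    exact this
  -- the two sets
  set X : Finset (ℕ × SimpleGraph ℕ × (ℕ × List ℕ × ℕ)) :=
    (S ×ˢ (graphsOn S ×ˢ U S j)).filter
      (fun q => q.2.1 ∈ core P (S.erase q.1) l ∧ Thread q.2.1 q.2.2.1 q.2.2.2.1 q.2.2.2.2) with hX
  set X4 : Finset ((ℕ × SimpleGraph ℕ × (ℕ × List ℕ × ℕ)) × Sym2 ℕ) :=
    (X ×ˢ S.sym2).filter (fun r => r.2 ∈ r.1.2.1.edgeSet ∧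
      r.2 ∉ te r.1.2.2.1 r.1.2.2.2.1 r.1.2.2.2.2) with hX4
  set Y : Finset (SimpleGraph ℕ × (ℕ × List ℕ × ℕ)) :=
    (graphsOn S ×ˢ U S j).filter
      (fun q => q.1 ∈ core P S l ∧ Thread q.1 q.2.1 q.2.2.1 q.2.2.2) with hY
  set Y4 : Finset ((SimpleGraph ℕ × (ℕ × List ℕ × ℕ)) × ℕ) :=
    (Y ×ˢ S).filter (fun r => r.2 ∉ (r.1.2.1 :: r.1.2.2.1)) with hY4
  clear_value Y4 Y X4 X
  have hgr : ∀ v ∈ S, ∀ Q ∈ core P (S.erase v) l, Q ∈ graphsOn S := by
    intro v hv Q hQ
    rw [mem_graphsOn]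
    have := mem_graphsOn.mp (Finset.mem_filter.mp hQ).1
    exact this.trans (by exact_mod_cast Finset.erase_subset v S)
  have hXcard : X.card = (k + 1) * SS P j k l := by
    rw [e2, hX, Finset.card_filter, Finset.sum_product]
    refine Finset.sum_congr rfl fun v hv => ?_
    rw [Finset.sum_product]
    have : core P (S.erase v) l = (graphsOn S).filter (fun Q => Q ∈ core P (S.erase v) l) := by
      ext Q
      rw [Finset.mem_filter]
      exact ⟨fun h => ⟨hgr v hv Q h, h⟩, fun h => h.2⟩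
    conv_rhs => rw [this, Finset.sum_filter]
    refine Finset.sum_congr rfl fun Q hQ => ?_
    by_cases hc : Q ∈ core P (S.erase v) l
    · simp only [hc, true_and, if_true]
      rw [thrN_eq (mem_graphsOn.mp hQ), Finset.card_filter]
    · simp only [hc, false_and, if_false, Finset.sum_const_zero]
  have hYcard : Y.card = SS P j (k + 1) l := by
    unfold SS
    rw [hY, Finset.card_filter, Finset.sum_product]
    have : core P (range (k + 1)) l = (graphsOn S).filter (fun Q => Q ∈ core P S l) := by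
      ext Q
      rw [Finset.mem_filter]
      exact ⟨fun h => ⟨(Finset.mem_filter.mp h).1, h⟩, fun h => h.2⟩
    conv_rhs => rw [this, Finset.sum_filter]
    refine Finset.sum_congr rfl fun Q hQ => ?_
    by_cases hc : Q ∈ core P S l
    · simp only [hc, true_and, if_true]
      rw [thrN_eq (mem_graphsOn.mp hQ), Finset.card_filter]
    · simp only [hc, false_and, if_false, Finset.sum_const_zero]
  have hX4card : X.card * (k - j) ≤ X4.card := by
    rw [hX4, Finset.card_filter, Finset.sum_product, ← smul_eq_mul, ← Finset.sum_const]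
    refine Finset.sum_le_sum fun q hq => ?_
    rw [← Finset.card_filter]
    rw [hX, Finset.mem_filter, Finset.mem_product, Finset.mem_product] at hq
    obtain ⟨⟨hq1, hq2, hq3⟩, hq4, hq5⟩ := hq
    have hc := (Finset.mem_filter.mp hq4).2.2.2
    rw [Finset.card_erase_of_mem hq1, hScard] at hc
    have hsupp := mem_graphsOn.mp hq2
    have hfin := PkgC8.edges_finite hsupp
    have hsub : hfin.toFinset \ te q.2.2.1 q.2.2.2.1 q.2.2.2.2 ⊆
        S.sym2.filter (fun e => e ∈ q.2.1.edgeSet ∧ e ∉ te q.2.2.1 q.2.2.2.1 q.2.2.2.2) := by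
      intro e he
      rw [Finset.mem_sdiff, Set.Finite.mem_toFinset] at he
      rw [Finset.mem_filter]
      refine ⟨?_, he⟩
      induction e with
      | _ a b =>
        have hab : q.2.1.Adj a b := he.1
        rw [Finset.mk_mem_sym2_iff]
        exact ⟨hsupp ⟨b, hab⟩, hsupp ⟨a, hab.symm⟩⟩
    refine le_trans ?_ (Finset.card_le_card hsub)
    refine le_trans ?_ (Finset.le_card_sdiff _ _)
    have h3 : hfin.toFinset.card = ne q.2.1 := by
      unfold ne
      rw [← Set.ncard_coe_finset, Set.Finite.coe_toFinset]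
    have h4 := card_te q.2.2.1 q.2.2.2.1 q.2.2.2.2
    rw [(mem_U.mp hq3).2.1.1] at h4
    rw [h3, hc]
    omega
  have hY4card : Y4.card ≤ Y.card * (k - j) := by
    rw [hY4, Finset.card_filter, Finset.sum_product, ← smul_eq_mul, ← Finset.sum_const]
    refine Finset.sum_le_sum fun q hq => ?_
    rw [← Finset.card_filter]
    rw [hY, Finset.mem_filter, Finset.mem_product] at hq
    obtain ⟨⟨hq1, hq2⟩, hq3, ht⟩ := hq
    rw [mem_U] at hq2
    have hnd : (q.2.1 :: q.2.2.1).Nodup := by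
      rw [List.nodup_cons]
      refine ⟨fun hm => ?_, ht.nodup⟩
      have := ht.deg2 _ hm
      have := ht.left
      omega
    have hsub : (q.2.1 :: q.2.2.1).toFinset ⊆ S := by
      intro w hw
      rw [List.mem_toFinset, List.mem_cons] at hw
      rcases hw with rfl | hw
      · exact hq2.1
      · exact hq2.2.1.2 w hw
    have heq : S.filter (fun w => w ∉ (q.2.1 :: q.2.2.1)) = S \ (q.2.1 :: q.2.2.1).toFinset := by
      ext w
      simp only [Finset.mem_filter, Finset.mem_sdiff, List.mem_toFinset]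
    rw [heq, Finset.card_sdiff_of_subset hsub, List.toFinset_card_of_nodup hnd, List.length_cons,
      hq2.2.1.1, hScard]
    omega
  have hinj : X4.card ≤ Y4.card := by
    refine Finset.card_le_card_of_injOn
      (fun r => ((sub r.1.2.1 (Quot.out r.2).1 (Quot.out r.2).2 r.1.1, r.1.2.2), r.1.1)) ?_ ?_
    · rintro ⟨⟨v, Q, b, L, c⟩, e⟩ hr
      rw [Finset.mem_coe, hX4, Finset.mem_filter, Finset.mem_product, hX, Finset.mem_filter,
        Finset.mem_product, Finset.mem_product] at hr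
      obtain ⟨⟨⟨⟨hv, hQ, hU⟩, hc, ht⟩, he⟩, he1, he2⟩ := hr
      simp only at hv hQ hU hc ht he he1 he2
      have hout : s((Quot.out e).1, (Quot.out e).2) = e := Quot.out_eq e
      have hadj : Q.Adj (Quot.out e).1 (Quot.out e).2 := by
        rw [← SimpleGraph.mem_edgeSet, hout]
        exact he1
      have hsupp : Q.support ⊆ ↑(S.erase v) := mem_graphsOn.mp (Finset.mem_filter.mp hc).1
      have hvs : v ∉ Q.support := fun h => by simpa using hsupp h
      have hd0 : deg Q v = 0 := PkgC8.deg_zero hsupp (by simp)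
      have hbv : b ≠ v := fun h => by have := ht.left; rw [h, hd0] at this; omega
      have hcv : c ≠ v := fun h => by have := ht.right; rw [h, hd0] at this; omega
      have hLv : v ∉ L := fun h => by have := ht.deg2 v h; omega
      have hcore := core_sub hP hv hc hadj
      rw [Finset.mem_coe, hY4, Finset.mem_filter, Finset.mem_product, hY, Finset.mem_filter,
        Finset.mem_product]
      refine ⟨⟨⟨⟨(Finset.mem_filter.mp hcore).1, hU⟩, hcore, ?_⟩, hv⟩, ?_⟩
      · exact thread_sub hadj hvs ht hbv hcv hLv (by rw [hout]; exact he2)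
      · simp only [List.mem_cons, not_or]
        exact ⟨fun h => hbv h.symm, hLv⟩
    · rintro ⟨⟨v, Q, t⟩, e⟩ hr ⟨⟨v', Q', t'⟩, e'⟩ hr' heq
      simp only [Prod.mk.injEq] at heq
      obtain ⟨⟨h3, h4⟩, h5⟩ := heq
      subst h5 h4
      rw [Finset.mem_coe, hX4, Finset.mem_filter, Finset.mem_product, hX, Finset.mem_filter,
        Finset.mem_product, Finset.mem_product] at hr hr'
      obtain ⟨⟨⟨⟨hv, hQ, hU⟩, hc, ht⟩, he⟩, he1, he2⟩ := hr
      obtain ⟨⟨⟨⟨hv', hQ', hU'⟩, hc', ht'⟩, he'⟩, he1', he2'⟩ := hr'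
      simp only at hv hQ hU hc ht he he1 he2 hQ' hU' hc' ht' he' he1' he2'
      have hout : s((Quot.out e).1, (Quot.out e).2) = e := Quot.out_eq e
      have hout' : s((Quot.out e').1, (Quot.out e').2) = e' := Quot.out_eq e'
      have hadj : Q.Adj (Quot.out e).1 (Quot.out e).2 := by
        rw [← SimpleGraph.mem_edgeSet, hout]
        exact he1
      have hadj' : Q'.Adj (Quot.out e').1 (Quot.out e').2 := by
        rw [← SimpleGraph.mem_edgeSet, hout']
        exact he1'
      have hsupp : Q.support ⊆ ↑(S.erase v) := mem_graphsOn.mp (Finset.mem_filter.mp hc).1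
      have hvs : v ∉ Q.support := fun h => by simpa using hsupp h
      have hsupp' : Q'.support ⊆ ↑(S.erase v) := mem_graphsOn.mp (Finset.mem_filter.mp hc').1
      have hvs' : v ∉ Q'.support := fun h => by simpa using hsupp' h
      obtain ⟨h6, h7⟩ := sub_out hadj hvs hadj' hvs' h3
      rw [hout, hout'] at h7
      rw [h6, h7]
  have hfinal : ((k + 1) * SS P j k l) * (k - j) ≤ SS P j (k + 1) l * (k - j) := by
    rw [← hXcard, ← hYcard]
    exact hX4card.trans (hinj.trans hY4card)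
  exact Nat.le_of_mul_le_mul_right hfinal (by omega)

end GiantSurf57
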