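import Pool.Agent.GiantSurf57.Stmts
import Pool.Agent.GiantSurf57.Basic
import Pool.Agent.GiantSurf57.PkgE9

/-!
# Package E2: cores are the graphs without tree components and without leaves
-/

open scoped Classical
open Finset

namespace GiantSurf57

namespace PkgE2

open PkgE9

variable {S A : Finset ℕ} {G : SimpleGraph ℕ}

theorem neIn_restr : neIn G A = ne (restr G (A : Set ℕ)) := by
  unfold neIn ne
  congr 1
  ext e
  induction e with
  | h a b =>
    simp only [Set.mem_ofPred_eq, SimpleGraph.mem_edgeSet, Sym2.mem_iff]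
    constructor
    · rintro ⟨h, h2⟩
      exact ⟨h, h2 a (Or.inl rfl), h2 b (Or.inr rfl)⟩
    · rintro ⟨h, h2, h3⟩
      refine ⟨h, ?_⟩
      rintro z (rfl | rfl)
      · exact h2
      · exact h3

theorem deg_restr (hG : G ∈ graphsOn S) (hA : A ∈ comps G S) {v : ℕ} (hv : v ∈ A) :
    deg (restr G (A : Set ℕ)) v = deg G v := by
  unfold deg
  congr 1
  ext w
  rw [SimpleGraph.mem_neighborSet, SimpleGraph.mem_neighborSet]
  constructor
  · intro h
    exact h.1
  · intro h
    exact ⟨h, hv, (mem_comp_closed hG hA h).mp hv⟩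

/-- Handshake in a component. -/
theorem handshake_comp (hG : G ∈ graphsOn S) (hA : A ∈ comps G S) :
    ∑ v ∈ A, deg G v = 2 * neIn G A := by
  have h1 : restr G (A : Set ℕ) ∈ graphsOn A := restr_mem
  rw [neIn_restr, ← handshake h1]
  exact Finset.sum_congr rfl (fun v hv => (deg_restr hG hA hv).symm)

theorem tc_eq_zero (hG : G ∈ graphsOn S) (h : ∀ v ∈ S, 2 ≤ deg G v) : tc G S = 0 := by
  unfold tc
  rw [Finset.card_eq_zero, Finset.filter_eq_empty_iff]
  intro A hA hn
  have h1 := handshake_comp hG hA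
  have h2 : A.card * 2 ≤ ∑ v ∈ A, deg G v := by
    rw [← smul_eq_mul, ← Finset.sum_const]
    exact Finset.sum_le_sum (fun v hv => h v ((comp_sub hA).1 hv))
  omega

theorem deg_ne_zero (hG : G ∈ graphsOn S) (h : tc G S = 0) {v : ℕ} (hv : v ∈ S) :
    deg G v ≠ 0 := by
  intro h0
  have hfin := neighborSet_finite (edgeSet_finite hG) v
  have h5 : G.neighborSet v = ∅ := (Set.ncard_eq_zero hfin).mp h0
  have hna : ∀ w, ¬ G.Adj v w := by
    intro w hw
    have : w ∈ G.neighborSet v := hw
    rw [h5] at this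
    exact this
  have hcomp : compOf G S v = {v} := by
    ext w
    simp only [compOf, Finset.mem_filter, Finset.mem_singleton]
    constructor
    · rintro ⟨_, ⟨p⟩⟩
      cases p with
      | nil => rfl
      | cons h _ => exact absurd h (hna _)
    · rintro rfl
      exact ⟨hv, SimpleGraph.Reachable.refl _⟩
  have hmem : ({v} : Finset ℕ) ∈ comps G S := by
    rw [← hcomp]
    exact Finset.mem_image_of_mem _ hv
  have hne : neIn G {v} = 0 := by
    unfold neIn
    have : {e ∈ G.edgeSet | ∀ x ∈ e, x ∈ ({v} : Finset ℕ)} = ∅ := by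
      ext e
      induction e with
      | h a b =>
        simp only [Set.mem_ofPred_eq, SimpleGraph.mem_edgeSet, Sym2.mem_iff,
          Finset.mem_singleton, Set.mem_empty_iff_false, iff_false]
        rintro ⟨h, h2⟩
        have ha := h2 a (Or.inl rfl)
        subst ha
        exact hna b h
    rw [this, Set.ncard_empty]
  unfold tc at h
  rw [Finset.card_eq_zero, Finset.filter_eq_empty_iff] at h
  exact h hmem (by rw [hne, Finset.card_singleton])

end PkgE2

open PkgE2 PkgE9 in
theorem pkgE2 : S_coreLeaf := by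
  intro P S l
  ext Q
  rw [mem_core, Finset.mem_filter, mem_grs]
  constructor
  · rintro ⟨h1, h2, h3, h4⟩
    refine ⟨⟨h1, h2, tc_eq_zero h1 h3, by omega⟩, fun v hv => ?_⟩
    have := h3 v hv
    omega
  · rintro ⟨⟨h1, h2, h3, h4⟩, h5⟩
    refine ⟨h1, h2, fun v hv => ?_, by omega⟩
    have h6 := deg_ne_zero h1 h3 hv
    have h7 := h5 v hv
    omega

end GiantSurf57
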