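import Pool.Agent.GiantSurf57.StmtsTop

open scoped Classical
open Finset

namespace GiantSurf57

namespace PkgF18

theorem pp_nonneg (s : ℕ) : 0 ≤ pp s := by
  unfold pp
  positivity

theorem ff_nonneg : ∀ t v, 0 ≤ ff t v := by
  intro t
  induction t with
  | zero =>
    intro v
    change (0 : ℝ) ≤ if v = 0 then 1 else 0
    split_ifs <;> norm_num
  | succ t ih =>
    intro v
    change 0 ≤ (∑ s ∈ range (v + 1), pp s * ff t (v - s)) / ((t : ℝ) + 1)
    exact div_nonneg (Finset.sum_nonneg fun s _ => mul_nonneg (pp_nonneg s) (ih _)) (by positivity)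

theorem bt_nonneg (n k : ℕ) : 0 ≤ bt n k := by
  unfold bt pois
  positivity

theorem AA_nonneg {w : ℕ → ℕ → ℝ} (hw : WSeq w) (t l n : ℕ) : 0 ≤ AA w t l n := by
  unfold AA aa
  refine Finset.sum_nonneg fun v _ => mul_nonneg (ff_nonneg _ _) ?_
  unfold cc
  split_ifs
  · exact hw.nonneg _ _
  · exact Finset.sum_nonneg fun k _ => mul_nonneg (hw.nonneg _ _) (bt_nonneg _ _)

theorem ZZ_nonneg {w : ℕ → ℕ → ℝ} (hw : WSeq w) (n : ℕ) (M : ℤ) : 0 ≤ ZZ w n M :=
  Finset.sum_nonneg fun _ _ => AA_nonneg hw _ _ _

theorem term_le_ZZ {w : ℕ → ℕ → ℝ} (hw : WSeq w) (n : ℕ) (M : ℤ) (t l : ℕ) (ht : t ≤ n)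
    (hl : (l : ℤ) = t + M) : AA w t l n ≤ ZZ w n M := by
  have h1 : ((t : ℤ) + M).toNat = l := by omega
  have h2 : t ∈ (range (n + 1)).filter (fun t : ℕ => 0 ≤ (t : ℤ) + M) := by
    rw [Finset.mem_filter, Finset.mem_range]
    constructor <;> omega
  have h3 := Finset.single_le_sum (f := fun t : ℕ => AA w t ((t : ℤ) + M).toNat n)
    (fun t _ => AA_nonneg hw _ _ _) h2
  simp only [h1] at h3
  exact h3

theorem r32_nonneg {x : ℝ} (hx : 0 ≤ x) : 0 ≤ r32 x := mul_nonneg hx (Real.sqrt_nonneg x)

theorem tail_sum (b : ℕ → ℝ) (T : ℕ) (hbT : 0 ≤ b T) (J : Finset ℕ) (hJ : ∀ t ∈ J, T ≤ t)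
    (hdec : ∀ t ∈ J, b t ≤ (1 / 2 : ℝ) ^ (t - T) * b T) : ∑ t ∈ J, b t ≤ 2 * b T := by
  calc ∑ t ∈ J, b t ≤ ∑ t ∈ J, (1 / 2 : ℝ) ^ (t - T) * b T := Finset.sum_le_sum hdec
    _ = (∑ t ∈ J, (1 / 2 : ℝ) ^ (t - T)) * b T := by rw [Finset.sum_mul]
    _ ≤ 2 * b T := by
        apply mul_le_mul_of_nonneg_right _ hbT
        have hinj : Set.InjOn (fun t => t - T) (J : Set ℕ) := by
          intro x hx y hy hxy
          have h1 := hJ x hx
          have h2 := hJ y hy
          simp only at hxy
          omega
        have h1 : ∑ t ∈ J, (1 / 2 : ℝ) ^ (t - T) = ∑ i ∈ J.image (fun t => t - T), (1 / 2 : ℝ) ^ i := by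
          rw [Finset.sum_image hinj]
        rw [h1]
        obtain ⟨N, hN⟩ := (J.image (fun t => t - T)).exists_nat_subset_range
        exact (Finset.sum_le_sum_of_subset_of_nonneg hN fun i _ _ => by positivity).trans
          (sum_geometric_two_le N)

end PkgF18

open PkgF18 in
theorem pkgF18 (hV : S_V) (hR : S_R) (hX1 : S_X1) (hX0 : S_X0) (hL : S_lower) : S_XR := by
  intro w hw
  obtain ⟨CV, δV, hCV, hδV, HV⟩ := hV w hw
  obtain ⟨CR, δR, hCR, hδR, -, HR⟩ := hR w hw
  obtain ⟨KL, nL, δL, hδL, HL1, HL2⟩ := hL w hw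
  -- the cut
  obtain ⟨δ, hδ, hδV', hδR', hδ1⟩ : ∃ δ : ℝ, 0 < δ ∧ 2 * δ ≤ δV ∧ 2 * δ ≤ δR ∧ δ ≤ 1 / 8 := by
    refine ⟨min (1 / 8) (min (δV / 2) (δR / 2)), by positivity, ?_, ?_, min_le_left _ _⟩
    · have := (min_le_right (1 / 8 : ℝ) (min (δV / 2) (δR / 2))).trans (min_le_left _ _)
      linarith
    · have := (min_le_right (1 / 8 : ℝ) (min (δV / 2) (δR / 2))).trans (min_le_right _ _)
      linarith
  obtain ⟨η1, n1, hη1, H1⟩ := hX1 w hw δ 1 hδ
  obtain ⟨η0, n00, hη0, H0⟩ := hX0 w hw 0
  obtain ⟨η, hη, hηδ, hηL, hη1', hη0'⟩ : ∃ η : ℝ, 0 < η ∧ η ≤ δ ∧ 2 * η ≤ δL ∧ η ≤ η1 ∧ η ≤ η0 := by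
    refine ⟨min (min δ (δL / 2)) (min η1 η0), by positivity, ?_, ?_, ?_, ?_⟩
    · exact (min_le_left _ _).trans (min_le_left _ _)
    · have := (min_le_left (min δ (δL / 2)) (min η1 η0)).trans (min_le_right _ _)
      linarith
    · exact (min_le_right _ _).trans (min_le_left _ _)
    · exact (min_le_right _ _).trans (min_le_right _ _)
  obtain ⟨n2, hn2⟩ := exists_nat_ge (2 / δL)
  refine ⟨2 * CR + 3 + 5 * CV, η, n1 + n00 + nL + n2 + 8, by linarith, hη, ?_⟩
  intro n M hn hM
  have hnpos : (0 : ℝ) < n := by
    have : 0 < n := by omega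
    exact_mod_cast this
  have hn8 : (8 : ℝ) ≤ n := by
    have : 8 ≤ n := by omega
    exact_mod_cast this
  have hMl : (M : ℝ) ≤ η * n := (le_abs_self _).trans hM
  have hMr : -(M : ℝ) ≤ η * n := (neg_le_abs _).trans hM
  have hηn : η * n ≤ δ * n := mul_le_mul_of_nonneg_right hηδ hnpos.le
  have hδn : δ * n ≤ (1 / 8) * n := mul_le_mul_of_nonneg_right hδ1 hnpos.le
  have hA := AA_nonneg hw
  refine ⟨?_, ?_⟩
  · -- positivity
    rcases le_or_gt 0 M with hM0 | hM0
    · have hl : ((M + 1).toNat : ℤ) = M + 1 := by omega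
      have hlr : ((M + 1).toNat : ℝ) = (M : ℝ) + 1 := by exact_mod_cast hl
      have hδLn : 2 ≤ δL * n := by
        have h1 : 2 / δL ≤ n := by
          refine hn2.trans ?_
          have : n2 ≤ n := by omega
          exact_mod_cast this
        rw [div_le_iff₀ hδL] at h1
        linarith
      have h2 : ((M + 1).toNat : ℝ) ≤ δL * n := by
        rw [hlr]
        have h3 : 2 * (η * n) ≤ δL * n := by
          have := mul_le_mul_of_nonneg_right hηL hnpos.le
          linarith
        linarith
      have h3 := HL2 (M + 1).toNat n (by omega) (by omega) h2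
      have h4 : 0 < AA w 1 (M + 1).toNat n := by
        by_contra hneg
        have h5 : AA w 1 (M + 1).toNat n = 0 := le_antisymm (not_lt.mp hneg) (hA _ _ _)
        rw [h5, mul_zero] at h3
        linarith
      exact h4.trans_le (term_le_ZZ hw n M 1 _ (by omega) (by push_cast; omega))
    · have hl : ((1 - M).toNat : ℤ) = 1 - M := by omega
      have hlr : ((1 - M).toNat : ℝ) = 1 - (M : ℝ) := by exact_mod_cast hl
      have h2r : 2 * ((1 - M).toNat : ℝ) ≤ n := by
        rw [hlr]
        linarith
      have h2 : 2 * (1 - M).toNat ≤ n := by exact_mod_cast h2r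
      have h3 := HL1 (1 - M).toNat n (by omega) h2
      have h4 : 0 < AA w (1 - M).toNat 1 n := by
        by_contra hneg
        have h5 : AA w (1 - M).toNat 1 n = 0 := le_antisymm (not_lt.mp hneg) (hA _ _ _)
        rw [h5, mul_zero] at h3
        have := Real.exp_pos (-((1 - M).toNat : ℝ))
        linarith
      exact h4.trans_le (term_le_ZZ hw n M _ 1 (by omega) (by push_cast; omega))
  · intro f hf hyp
    have hZ := ZZ_nonneg hw n M
    -- the function b
    set b : ℕ → ℝ := fun t => (t : ℝ) * AA w t ((t : ℤ) + M).toNat n with hb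
    have hb0 : ∀ t, 0 ≤ b t := fun t => mul_nonneg (Nat.cast_nonneg t) (hA _ _ _)
    set S2 : Finset ℕ := (range (n + 1)).filter
      (fun t : ℕ => 1 ≤ (t : ℤ) + M ∧ (t : ℝ) + M ≤ δ * n) with hS2
    -- decay
    set T : ℕ := ⌈f⌉₊ with hT
    have hfT : f ≤ T := Nat.le_ceil f
    have hTf : (T : ℝ) ≤ f + 1 := (Nat.ceil_lt_add_one (by linarith)).le
    have hdec : ∀ i : ℕ, ((T + i : ℕ) : ℝ) + M ≤ δ * n →
        b (T + i) ≤ (1 / 2 : ℝ) ^ i * b T := by
      intro i
      induction i with
      | zero =>
        intro _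
        simp
      | succ i ih =>
        intro hi
        have hi' : ((T + i : ℕ) : ℝ) + M ≤ δ * n := by
          push_cast at hi ⊢
          linarith
        have h1 := ih hi'
        have h2 := hyp (T + i) (hfT.trans (by exact_mod_cast Nat.le_add_right T i))
        obtain ⟨h3, h4⟩ := h2
        set l : ℕ := (((T + i : ℕ) : ℤ) + M).toNat with hl
        have hpos : (0 : ℝ) ≤ ((T + i : ℕ) : ℝ) + M := by linarith
        have hposZ : (0 : ℤ) ≤ ((T + i : ℕ) : ℤ) + M := by exact_mod_cast hpos
        have hlZ : (l : ℤ) = ((T + i : ℕ) : ℤ) + M := by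
          rw [hl]
          exact Int.toNat_of_nonneg hposZ
        have hlR : (l : ℝ) = ((T + i : ℕ) : ℝ) + M := by exact_mod_cast hlZ
        have h5 := HR (T + i) l n (by rw [hlR]; linarith)
          (by
            rw [hlR]
            have := mul_le_mul_of_nonneg_right hδR' hnpos.le
            linarith [mul_pos hδ hnpos])
          (by
            have := mul_le_mul_of_nonneg_right hδR' hnpos.le
            linarith)
        have h6 : (((T + (i + 1) : ℕ) : ℤ) + M).toNat = l + 1 := by omega
        have h7 : 0 ≤ r32 ((n : ℝ) / l) := r32_nonneg (by positivity)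
        rw [← hlR] at h4
        have h8 : CR * r32 ((n : ℝ) / l) ≤ ((T + i : ℕ) : ℝ) / 2 := by
          have h9 : 0 ≤ (3 + 5 * CV) * r32 ((n : ℝ) / l) := mul_nonneg (by linarith) h7
          nlinarith
        have h10 : b (T + (i + 1)) ≤ b (T + i) / 2 := by
          simp only [hb]
          rw [h6]
          have h11 : ((T + (i + 1) : ℕ) : ℝ) = ((T + i : ℕ) : ℝ) + 1 := by push_cast; ring
          rw [h11]
          have h12 : T + (i + 1) = T + i + 1 := by ring
          rw [h12]
          refine h5.trans ?_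
          calc CR * r32 ((n : ℝ) / l) * AA w (T + i) l n
              ≤ ((T + i : ℕ) : ℝ) / 2 * AA w (T + i) l n :=
                mul_le_mul_of_nonneg_right h8 (hA _ _ _)
            _ = _ := by ring
        calc b (T + (i + 1)) ≤ b (T + i) / 2 := h10
          _ ≤ ((1 / 2 : ℝ) ^ i * b T) / 2 := by linarith
          _ = _ := by rw [pow_succ]; ring
    -- the sum of b
    have hsumb : ∑ t ∈ S2, b t ≤ 5 * f * ZZ w n M := by
      rw [← Finset.sum_filter_add_sum_filter_not S2 (fun t => t < T)]
      have e1 : ∑ t ∈ S2.filter (fun t => t < T), b t ≤ f * ZZ w n M := by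
        calc ∑ t ∈ S2.filter (fun t => t < T), b t
            ≤ ∑ t ∈ S2.filter (fun t => t < T), f * AA w t ((t : ℤ) + M).toNat n := by
              apply Finset.sum_le_sum
              intro t ht
              rw [Finset.mem_filter] at ht
              have : (t : ℝ) ≤ f := (Nat.lt_ceil.mp ht.2).le
              exact mul_le_mul_of_nonneg_right this (hA _ _ _)
          _ = f * ∑ t ∈ S2.filter (fun t => t < T), AA w t ((t : ℤ) + M).toNat n := by
              rw [Finset.mul_sum]
          _ ≤ f * ZZ w n M := by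
              apply mul_le_mul_of_nonneg_left _ (by linarith)
              apply Finset.sum_le_sum_of_subset_of_nonneg
              · intro t ht
                rw [Finset.mem_filter, hS2, Finset.mem_filter] at ht
                rw [Finset.mem_filter]
                exact ⟨ht.1.1, by omega⟩
              · intro t _ _
                exact hA _ _ _
      have e2 : ∑ t ∈ S2.filter (fun t => ¬ t < T), b t ≤ 4 * f * ZZ w n M := by
        rcases (S2.filter (fun t => ¬ t < T)).eq_empty_or_nonempty with he | ⟨t0, ht0⟩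
        · rw [he, Finset.sum_empty]
          positivity
        · have hTn : T ≤ n := by
            rw [Finset.mem_filter, hS2, Finset.mem_filter, Finset.mem_range] at ht0
            omega
          have e3 : ∑ t ∈ S2.filter (fun t => ¬ t < T), b t ≤ 2 * b T := by
            apply tail_sum b T (hb0 T)
            · intro t ht
              rw [Finset.mem_filter] at ht
              omega
            · intro t ht
              rw [Finset.mem_filter, hS2, Finset.mem_filter] at ht
              obtain ⟨i, rfl⟩ : ∃ i, t = T + i := ⟨t - T, by omega⟩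
              rw [Nat.add_sub_cancel_left]
              exact hdec i ht.1.2.2
          have h2 := (hyp T hfT).1
          have hposR : (0 : ℝ) ≤ (T : ℝ) + M := by linarith
          have hposZ : (0 : ℤ) ≤ (T : ℤ) + M := by exact_mod_cast hposR
          have e4 : AA w T ((T : ℤ) + M).toNat n ≤ ZZ w n M :=
            term_le_ZZ hw n M T _ hTn (Int.toNat_of_nonneg hposZ)
          calc ∑ t ∈ S2.filter (fun t => ¬ t < T), b t ≤ 2 * b T := e3
            _ = 2 * T * AA w T ((T : ℤ) + M).toNat n := by simp only [hb]; ring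
            _ ≤ 2 * T * ZZ w n M := mul_le_mul_of_nonneg_left e4 (by positivity)
            _ ≤ 4 * f * ZZ w n M := by
                apply mul_le_mul_of_nonneg_right _ hZ
                linarith
      calc _ ≤ f * ZZ w n M + 4 * f * ZZ w n M := add_le_add e1 e2
        _ = _ := by ring
    -- the main estimate
    set S1 : Finset ℕ := (range (n + 1)).filter (fun t : ℕ => 0 ≤ (t : ℤ) + (M + 1)) with hS1
    set g : ℕ → ℝ := fun t => AA w t ((t : ℤ) + (M + 1)).toNat n with hg
    have hZZ : ZZ w n (M + 1) = ∑ t ∈ S1, g t := rfl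
    rw [hZZ, ← Finset.sum_filter_add_sum_filter_not S1 (fun t : ℕ => (t : ℤ) + (M + 1) = 0)]
    have q1 : ∑ t ∈ S1.filter (fun t : ℕ => (t : ℤ) + (M + 1) = 0), g t ≤ ZZ w n M := by
      have hcard : (S1.filter (fun t : ℕ => (t : ℤ) + (M + 1) = 0)).card ≤ 1 := by
        rw [Finset.card_le_one]
        intro x hx y hy
        rw [Finset.mem_filter] at hx hy
        omega
      calc ∑ t ∈ S1.filter (fun t : ℕ => (t : ℤ) + (M + 1) = 0), g t
          ≤ (S1.filter (fun t : ℕ => (t : ℤ) + (M + 1) = 0)).card • ZZ w n M := by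
            apply Finset.sum_le_card_nsmul
            intro t ht
            rw [Finset.mem_filter] at ht
            have h1 := H0 n M (by omega) (hM.trans (mul_le_mul_of_nonneg_right hη0' hnpos.le)) t
              (Or.inr (by omega))
            rw [pow_zero, one_mul] at h1
            simp only [hg]
            rw [ht.2]
            exact h1
        _ ≤ ZZ w n M := by
            rw [nsmul_eq_mul]
            have : ((S1.filter (fun t : ℕ => (t : ℤ) + (M + 1) = 0)).card : ℝ) ≤ 1 := by
              exact_mod_cast hcard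
            nlinarith
    rw [← Finset.sum_filter_add_sum_filter_not (S1.filter (fun t : ℕ => ¬ (t : ℤ) + (M + 1) = 0))
      (fun t : ℕ => δ * n < (t : ℝ) + (M + 1))]
    have q2 : ∑ t ∈ (S1.filter (fun t : ℕ => ¬ (t : ℤ) + (M + 1) = 0)).filter
        (fun t : ℕ => δ * n < (t : ℝ) + (M + 1)), g t ≤ 2 * ZZ w n M := by
      calc ∑ t ∈ (S1.filter (fun t : ℕ => ¬ (t : ℤ) + (M + 1) = 0)).filter
            (fun t : ℕ => δ * n < (t : ℝ) + (M + 1)), g t
          ≤ ((S1.filter (fun t : ℕ => ¬ (t : ℤ) + (M + 1) = 0)).filter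
            (fun t : ℕ => δ * n < (t : ℝ) + (M + 1))).card • (ZZ w n M / n) := by
            apply Finset.sum_le_card_nsmul
            intro t ht
            rw [Finset.mem_filter, Finset.mem_filter, hS1, Finset.mem_filter,
              Finset.mem_range] at ht
            obtain ⟨⟨⟨ht1, ht2⟩, ht3⟩, ht4⟩ := ht
            have hl : (((t : ℤ) + (M + 1)).toNat : ℤ) = t + (M + 1) := Int.toNat_of_nonneg ht2
            have hlR : ((((t : ℤ) + (M + 1)).toNat : ℕ) : ℝ) = (t : ℝ) + (M + 1) := by
              exact_mod_cast hl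
            have h1 := H1 n M (by omega) (hM.trans (mul_le_mul_of_nonneg_right hη1' hnpos.le)) t
              ((t : ℤ) + (M + 1)).toNat (by omega) (Or.inr (by omega)) (by rw [hlR]; exact ht4)
            rw [pow_one] at h1
            rw [le_div_iff₀ hnpos]
            simp only [hg]
            linarith
        _ ≤ 2 * ZZ w n M := by
            rw [nsmul_eq_mul]
            have hc : ((S1.filter (fun t : ℕ => ¬ (t : ℤ) + (M + 1) = 0)).filter
              (fun t : ℕ => δ * n < (t : ℝ) + (M + 1))).card ≤ n + 1 := by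
              refine (Finset.card_filter_le _ _).trans ((Finset.card_filter_le _ _).trans
                ((Finset.card_filter_le _ _).trans ?_))
              rw [Finset.card_range]
            have hc' : (((S1.filter (fun t : ℕ => ¬ (t : ℤ) + (M + 1) = 0)).filter
              (fun t : ℕ => δ * n < (t : ℝ) + (M + 1))).card : ℝ) ≤ n + 1 := by exact_mod_cast hc
            calc _ ≤ ((n : ℝ) + 1) * (ZZ w n M / n) :=
                  mul_le_mul_of_nonneg_right hc' (div_nonneg hZ hnpos.le)
              _ ≤ (2 * n) * (ZZ w n M / n) :=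
                  mul_le_mul_of_nonneg_right (by linarith) (div_nonneg hZ hnpos.le)
              _ = _ := by field_simp
    have q3 : ∑ t ∈ (S1.filter (fun t : ℕ => ¬ (t : ℤ) + (M + 1) = 0)).filter
        (fun t : ℕ => ¬ δ * n < (t : ℝ) + (M + 1)), g t ≤ CV * (5 * f * ZZ w n M) := by
      calc ∑ t ∈ (S1.filter (fun t : ℕ => ¬ (t : ℤ) + (M + 1) = 0)).filter
            (fun t : ℕ => ¬ δ * n < (t : ℝ) + (M + 1)), g t
          ≤ ∑ t ∈ (S1.filter (fun t : ℕ => ¬ (t : ℤ) + (M + 1) = 0)).filter
            (fun t : ℕ => ¬ δ * n < (t : ℝ) + (M + 1)), CV * b (t + 1) := by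
            apply Finset.sum_le_sum
            intro t ht
            rw [Finset.mem_filter, Finset.mem_filter, hS1, Finset.mem_filter,
              Finset.mem_range] at ht
            obtain ⟨⟨⟨ht1, ht2⟩, ht3⟩, ht4⟩ := ht
            have hl : (((t : ℤ) + (M + 1)).toNat : ℤ) = t + (M + 1) := Int.toNat_of_nonneg ht2
            have hlR : ((((t : ℤ) + (M + 1)).toNat : ℕ) : ℝ) = (t : ℝ) + (M + 1) := by
              exact_mod_cast hl
            have h0 : (((t + 1 : ℕ) : ℤ) + M).toNat = ((t : ℤ) + (M + 1)).toNat := by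
              congr 1
              push_cast
              ring
            have hδVn := mul_le_mul_of_nonneg_right hδV' hnpos.le
            have h1 := (HV t ((t : ℤ) + (M + 1)).toNat n (by omega)
              (by rw [hlR]; linarith [mul_pos hδ hnpos]) (by linarith)).2
            simp only [hg, hb]
            rw [h0]
            push_cast
            linarith
        _ = CV * ∑ t ∈ (S1.filter (fun t : ℕ => ¬ (t : ℤ) + (M + 1) = 0)).filter
            (fun t : ℕ => ¬ δ * n < (t : ℝ) + (M + 1)), b (t + 1) := by rw [Finset.mul_sum]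
        _ ≤ CV * (5 * f * ZZ w n M) := by
            apply mul_le_mul_of_nonneg_left _ (by linarith)
            refine le_trans ?_ hsumb
            have hinj : Set.InjOn (fun t : ℕ => t + 1)
                (((S1.filter (fun t : ℕ => ¬ (t : ℤ) + (M + 1) = 0)).filter
                  (fun t : ℕ => ¬ δ * n < (t : ℝ) + (M + 1)) : Finset ℕ) : Set ℕ) := by
              intro x _ y _ hxy
              simpa using hxy
            rw [← Finset.sum_image (f := b) hinj]
            apply Finset.sum_le_sum_of_subset_of_nonneg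
            · intro t' ht'
              rw [Finset.mem_image] at ht'
              obtain ⟨t, ht, rfl⟩ := ht'
              rw [Finset.mem_filter, Finset.mem_filter, hS1, Finset.mem_filter,
                Finset.mem_range] at ht
              obtain ⟨⟨⟨ht1, ht2⟩, ht3⟩, ht4⟩ := ht
              rw [hS2, Finset.mem_filter, Finset.mem_range]
              have h5 : (t : ℝ) + (M + 1) ≤ δ * n := not_lt.mp ht4
              refine ⟨?_, ?_, ?_⟩
              · have h6 : (t : ℝ) + 1 < n := by linarith
                have h7 : t + 1 < n := by exact_mod_cast h6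
                omega
              · push_cast
                omega
              · push_cast
                linarith
            · intro t _ _
              exact hb0 t
    have hfZ : ZZ w n M ≤ f * ZZ w n M := by nlinarith
    have hfin : 0 ≤ CR * f * ZZ w n M :=
      mul_nonneg (mul_nonneg (by linarith) (by linarith)) hZ
    have hexp : (2 * CR + 3 + 5 * CV) * f * ZZ w n M =
        2 * (CR * f * ZZ w n M) + 3 * (f * ZZ w n M) + CV * (5 * f * ZZ w n M) := by ring
    rw [hexp]
    linarith

end GiantSurf57
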