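import Pool.Agent.GiantSurf57.Stmts

/-!
# Package F5: the third moment
-/

open scoped Classical
open Finset

set_option autoImplicit false

namespace GiantSurf57

namespace PkgF5

lemma pois_succ (n j : ℕ) : (n : ℝ) * pois n j = ((j : ℝ) + 1) * pois n (j + 1) := by
  unfold pois
  have h1 : ((j.factorial : ℕ) : ℝ) ≠ 0 := by exact_mod_cast j.factorial_ne_zero
  have h2 : ((j : ℝ) + 1) ≠ 0 := by positivity
  rw [Nat.factorial_succ]
  push_cast
  field_simp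
  ring

lemma pois_nonneg (n j : ℕ) : 0 ≤ pois n j := by unfold pois; positivity

lemma bt_nonneg (n k : ℕ) : 0 ≤ bt n k := mul_nonneg (by positivity) (pois_nonneg _ _)

/-- The recursion of the weights. -/
lemma bt_succ {n k : ℕ} (hk : k < n) :
    (k : ℝ) * n * bt n (k + 1) = ((k : ℝ) + 1) * ((n : ℝ) - k) * bt n k := by
  have hn : (n : ℝ) ≠ 0 := by
    have : 0 < n := by omega
    positivity
  obtain ⟨j, hj⟩ : ∃ j, n = k + 1 + j := ⟨n - (k + 1), by omega⟩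
  have e1 : n - (k + 1) = j := by omega
  have e2 : n - k = j + 1 := by omega
  have e3 : (n : ℝ) - k = (j : ℝ) + 1 := by rw [hj]; push_cast; ring
  unfold bt
  rw [e1, e2, e3]
  have h := pois_succ n j
  push_cast
  have : (k : ℝ) * n * (((k : ℝ) + 1) / n * pois n j) = (k : ℝ) * (((k : ℝ) + 1) / n) *
      (n * pois n j) := by ring
  rw [this, h]
  ring

variable {u : ℕ → ℝ} {l n : ℕ}

/-- The upper bound for the ratio. -/
lemma ratio (hl : 1 ≤ l) (hn : 1 ≤ n) (hln : l ≤ n) (hu : ∀ k, 0 ≤ u k)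
    (h8 : ∀ k : ℕ, ((k : ℝ) - 8 * l) * u (k + 1) ≤ (k + l) * u k)
    {k : ℕ} (hk : k < n) (hk2 : 100 * ((n : ℝ) * l) ≤ (k : ℝ) ^ 2) :
    2 * (n : ℝ) * (u (k + 1) * bt n (k + 1)) ≤ (2 * (n : ℝ) - k) * (u k * bt n k) := by
  have hl' : (1 : ℝ) ≤ l := by exact_mod_cast hl
  have hn' : (1 : ℝ) ≤ n := by exact_mod_cast hn
  have hln' : (l : ℝ) ≤ n := by exact_mod_cast hln
  have hk' : (k : ℝ) + 1 ≤ n := by exact_mod_cast hk
  have hk0 : 0 ≤ (k : ℝ) := by positivity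
  have h10 : 10 * (l : ℝ) ≤ k := by
    by_contra hcon
    push Not at hcon
    nlinarith
  have hkpos : 0 < (k : ℝ) := by linarith
  have hk8 : 0 < (k : ℝ) - 8 * l := by linarith
  have hb := bt_succ hk
  have hu8 := h8 k
  have hbn := bt_nonneg n k
  have hbn1 := bt_nonneg n (k + 1)
  -- multiply
  have key : (k : ℝ) * n * ((k : ℝ) - 8 * l) * (u (k + 1) * bt n (k + 1)) ≤
      ((k : ℝ) + l) * ((k : ℝ) + 1) * ((n : ℝ) - k) * (u k * bt n k) := by
    have h1 : (k : ℝ) * n * ((k : ℝ) - 8 * l) * (u (k + 1) * bt n (k + 1)) =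
        (((k : ℝ) - 8 * l) * u (k + 1)) * ((k : ℝ) * n * bt n (k + 1)) := by ring
    have h2 : ((k : ℝ) + l) * ((k : ℝ) + 1) * ((n : ℝ) - k) * (u k * bt n k) =
        (((k : ℝ) + l) * u k) * (((k : ℝ) + 1) * ((n : ℝ) - k) * bt n k) := by ring
    rw [h1, h2, ← hb]
    exact mul_le_mul_of_nonneg_right hu8 (by positivity)
  have hv : 0 ≤ u k * bt n k := mul_nonneg (hu k) hbn
  have poly : 2 * (((k : ℝ) + l) * ((k : ℝ) + 1) * ((n : ℝ) - k)) ≤
      (k : ℝ) * ((k : ℝ) - 8 * l) * (2 * n - k) := by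
    have e : (k : ℝ) * ((k : ℝ) - 8 * l) * (2 * n - k) -
        2 * (((k : ℝ) + l) * ((k : ℝ) + 1) * ((n : ℝ) - k)) =
        (k : ℝ) ^ 3 - (18 * l + 2) * (k * n) + (10 * l + 2) * (k : ℝ) ^ 2 - 2 * (l * n) +
          2 * (l * k) := by ring
    have h3 : 100 * ((n : ℝ) * l) * k ≤ (k : ℝ) ^ 3 := by
      have := mul_le_mul_of_nonneg_right hk2 hk0
      nlinarith
    have h4 : (k : ℝ) * n ≤ l * (k * n) := by nlinarith [mul_nonneg hk0 (by linarith : (0:ℝ) ≤ n)]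
    have h5 : (l : ℝ) * n ≤ l * (k * n) := by
      have : (0 : ℝ) ≤ l * n := by positivity
      nlinarith
    have h6 : 0 ≤ (10 * (l : ℝ) + 2) * (k : ℝ) ^ 2 := by positivity
    have h7 : 0 ≤ (l : ℝ) * k := by positivity
    have h8' : 0 ≤ (l : ℝ) * (k * n) := by positivity
    nlinarith
  have hpos : 0 < (k : ℝ) * ((k : ℝ) - 8 * l) := by positivity
  have step : (k : ℝ) * ((k : ℝ) - 8 * l) * (2 * (n : ℝ) * (u (k + 1) * bt n (k + 1))) ≤
      (k : ℝ) * ((k : ℝ) - 8 * l) * ((2 * (n : ℝ) - k) * (u k * bt n k)) := by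
    have h9 := mul_le_mul_of_nonneg_right poly hv
    nlinarith
  exact le_of_mul_le_mul_left step hpos

/-- The drift. -/
lemma drift (hl : 1 ≤ l) (hn : 1 ≤ n) (hln : l ≤ n) (hu : ∀ k, 0 ≤ u k)
    (h8 : ∀ k : ℕ, ((k : ℝ) - 8 * l) * u (k + 1) ≤ (k + l) * u k)
    {k : ℕ} (hk : k < n) (hk2 : 100 * ((n : ℝ) * l) ≤ (k : ℝ) ^ 2) :
    (k : ℝ) ^ 3 * (u k * bt n k) ≤ 4 * n * ((k : ℝ) ^ 2 * (u k * bt n k) -
      ((k : ℝ) + 1) ^ 2 * (u (k + 1) * bt n (k + 1))) := by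
  have h := ratio hl hn hln hu h8 hk hk2
  have hl' : (1 : ℝ) ≤ l := by exact_mod_cast hl
  have hn' : (1 : ℝ) ≤ n := by exact_mod_cast hn
  have hv : 0 ≤ u k * bt n k := mul_nonneg (hu k) (bt_nonneg n k)
  have hk0 : 0 ≤ (k : ℝ) := by positivity
  have hnl : (n : ℝ) ≤ n * l := by nlinarith
  have h1 := mul_le_mul_of_nonneg_left h (by positivity : (0 : ℝ) ≤ 2 * ((k : ℝ) + 1) ^ 2)
  have poly : (k : ℝ) ^ 3 + 2 * ((k : ℝ) + 1) ^ 2 * (2 * n - k) ≤ 4 * n * (k : ℝ) ^ 2 := by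
    have hk1 : (1 : ℝ) ≤ k := by nlinarith
    have h3 : 100 * (n : ℝ) * k ≤ (k : ℝ) ^ 3 := by
      have h4 : 100 * (n : ℝ) ≤ (k : ℝ) ^ 2 := by linarith
      nlinarith
    nlinarith
  have h2 := mul_le_mul_of_nonneg_right poly hv
  nlinarith

/-- Tail sums. -/
lemma tail (hl : 1 ≤ l) (hn : 1 ≤ n) (hln : l ≤ n) (hu : ∀ k, 0 ≤ u k)
    (h8 : ∀ k : ℕ, ((k : ℝ) - 8 * l) * u (k + 1) ≤ (k + l) * u k)
    {K : ℕ} (hK : K ≤ n) (hK2 : 100 * ((n : ℝ) * l) ≤ (K : ℝ) ^ 2) :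
    ∑ k ∈ Ico K (n + 1), (k : ℝ) ^ 3 * (u k * bt n k) ≤ 4 * n * ((K : ℝ) ^ 2 * (u K * bt n K)) := by
  have hn' : (1 : ℝ) ≤ n := by exact_mod_cast hn
  have key : ∀ m : ℕ, K ≤ m → m ≤ n → ∑ k ∈ Ico K m, (k : ℝ) ^ 3 * (u k * bt n k) ≤
      4 * n * ((K : ℝ) ^ 2 * (u K * bt n K)) - 4 * n * ((m : ℝ) ^ 2 * (u m * bt n m)) := by
    intro m hm
    induction m, hm using Nat.le_induction with
    | base => intro _; simp
    | succ m hm ih =>
      intro hmn
      have h1 := ih (by omega)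
      have h2 : 100 * ((n : ℝ) * l) ≤ (m : ℝ) ^ 2 := by
        have : (K : ℝ) ≤ m := by exact_mod_cast hm
        have : (K : ℝ) ^ 2 ≤ (m : ℝ) ^ 2 := by gcongr
        linarith
      have h3 := drift hl hn hln hu h8 (k := m) (by omega) h2
      rw [Finset.sum_Ico_succ_top hm]
      push_cast
      nlinarith
  have h1 := key n hK le_rfl
  rw [Finset.sum_Ico_succ_top hK]
  have h2 : (n : ℝ) ^ 3 * (u n * bt n n) ≤ 4 * n * ((n : ℝ) ^ 2 * (u n * bt n n)) := by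
    have h3 : 0 ≤ u n * bt n n := mul_nonneg (hu n) (bt_nonneg n n)
    have h4 : 0 ≤ (n : ℝ) ^ 3 * (u n * bt n n) := by positivity
    nlinarith
  linarith

end PkgF5

open PkgF5 in
theorem pkgF5 : S_mom := by
  refine ⟨11000, 1, one_pos, ?_⟩
  intro u l n hl hn hln hu _ h8
  have hln' : l ≤ n := by
    rw [one_mul] at hln
    exact_mod_cast hln
  have hl' : (1 : ℝ) ≤ l := by exact_mod_cast hl
  have hn' : (1 : ℝ) ≤ n := by exact_mod_cast hn
  obtain ⟨R, hR⟩ : ∃ R : ℝ, R = √((n : ℝ) * l) := ⟨_, rfl⟩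
  have hnl1 : (1 : ℝ) ≤ (n : ℝ) * l := by nlinarith
  have hR2 : R ^ 2 = (n : ℝ) * l := by rw [hR, Real.sq_sqrt (by linarith)]
  have hR0 : 0 ≤ R := by rw [hR]; positivity
  have hR1 : 1 ≤ R := by nlinarith
  have hr : r32 ((n : ℝ) * l) = R ^ 3 := by
    unfold r32
    rw [← hR, ← hR2]; ring
  obtain ⟨K, hK⟩ : ∃ K : ℕ, K = ⌈10 * R⌉₊ := ⟨_, rfl⟩
  have hK1 : 10 * R ≤ K := by rw [hK]; exact Nat.le_ceil _
  have hK2 : (K : ℝ) ≤ 11 * R := by
    have := Nat.ceil_lt_add_one (by positivity : 0 ≤ 10 * R)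
    rw [← hK] at this
    linarith
  have hKpos : 0 < (K : ℝ) := by linarith
  have hc : cc u n = ∑ k ∈ range (n + 1), u k * bt n k := by
    unfold cc
    rw [if_neg (by omega)]
  have hv : ∀ k, 0 ≤ u k * bt n k := fun k => mul_nonneg (hu k) (bt_nonneg n k)
  have hcpos : 0 ≤ cc u n := by rw [hc]; exact Finset.sum_nonneg fun k _ => hv k
  have hnR : (n : ℝ) * R ≤ R ^ 3 := by
    have h1 : (n : ℝ) ≤ R ^ 2 := by rw [hR2]; nlinarith
    calc (n : ℝ) * R ≤ R ^ 2 * R := mul_le_mul_of_nonneg_right h1 hR0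
      _ = R ^ 3 := by ring
  rw [hr]
  by_cases hcase : n < 2 * K
  · have h1 : ∑ k ∈ range (n + 1), (k : ℝ) ^ 3 * (u k * bt n k) ≤
        ∑ k ∈ range (n + 1), (2 * (K : ℝ)) ^ 3 * (u k * bt n k) := by
      refine Finset.sum_le_sum fun k hk => ?_
      have hk' : k ≤ n := by simpa [Nat.lt_succ_iff] using hk
      have : (k : ℝ) ≤ 2 * K := by
        have : k ≤ 2 * K := by omega
        exact_mod_cast this
      exact mul_le_mul_of_nonneg_right (by gcongr) (hv k)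
    rw [← Finset.mul_sum, ← hc] at h1
    have h2 : (2 * (K : ℝ)) ^ 3 ≤ 11000 * R ^ 3 := by
      have : (2 * (K : ℝ)) ^ 3 ≤ (22 * R) ^ 3 :=
        pow_le_pow_left₀ (by positivity) (by linarith) 3
      have e : (22 * R) ^ 3 = 10648 * R ^ 3 := by ring
      have := pow_nonneg hR0 3
      linarith
    calc _ ≤ (2 * (K : ℝ)) ^ 3 * cc u n := h1
      _ ≤ 11000 * R ^ 3 * cc u n := mul_le_mul_of_nonneg_right h2 hcpos
  · push Not at hcase
    have hsplit : ∑ k ∈ range (n + 1), (k : ℝ) ^ 3 * (u k * bt n k) =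
        ∑ k ∈ range (2 * K), (k : ℝ) ^ 3 * (u k * bt n k) +
        ∑ k ∈ Ico (2 * K) (n + 1), (k : ℝ) ^ 3 * (u k * bt n k) :=
      (Finset.sum_range_add_sum_Ico _ (by omega)).symm
    have hsub : range (2 * K) ⊆ range (n + 1) := by
      intro x hx
      rw [mem_range] at hx ⊢
      omega
    have h1 : ∑ k ∈ range (2 * K), (k : ℝ) ^ 3 * (u k * bt n k) ≤ (2 * (K : ℝ)) ^ 3 * cc u n := by
      have h2 : ∑ k ∈ range (2 * K), (k : ℝ) ^ 3 * (u k * bt n k) ≤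
          ∑ k ∈ range (2 * K), (2 * (K : ℝ)) ^ 3 * (u k * bt n k) := by
        refine Finset.sum_le_sum fun k hk => ?_
        have : (k : ℝ) ≤ 2 * K := by
          rw [mem_range] at hk
          exact_mod_cast hk.le
        exact mul_le_mul_of_nonneg_right (by gcongr) (hv k)
      rw [← Finset.mul_sum] at h2
      refine h2.trans (mul_le_mul_of_nonneg_left ?_ (by positivity))
      rw [hc]
      exact Finset.sum_le_sum_of_subset_of_nonneg hsub fun k _ _ => hv k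
    -- averaging
    have h3 : (K : ℝ) * ∑ k ∈ Ico (2 * K) (n + 1), (k : ℝ) ^ 3 * (u k * bt n k) ≤
        16 * n * (K : ℝ) ^ 2 * cc u n := by
      have h4 : ∀ j ∈ Ico K (2 * K), ∑ k ∈ Ico (2 * K) (n + 1), (k : ℝ) ^ 3 * (u k * bt n k) ≤
          4 * n * ((2 * (K : ℝ)) ^ 2 * (u j * bt n j)) := by
        intro j hj
        rw [mem_Ico] at hj
        have hj2 : 100 * ((n : ℝ) * l) ≤ (j : ℝ) ^ 2 := by
          have : (K : ℝ) ≤ j := by exact_mod_cast hj.1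
          rw [← hR2]
          nlinarith
        have h5 := tail hl hn hln' hu h8 (K := j) (by omega) hj2
        have h6 : ∑ k ∈ Ico (2 * K) (n + 1), (k : ℝ) ^ 3 * (u k * bt n k) ≤
            ∑ k ∈ Ico j (n + 1), (k : ℝ) ^ 3 * (u k * bt n k) := by
          refine Finset.sum_le_sum_of_subset_of_nonneg (Finset.Ico_subset_Ico hj.2.le le_rfl)
            fun k _ _ => mul_nonneg (by positivity) (hv k)
        refine (h6.trans h5).trans ?_
        have h7 : (j : ℝ) ≤ 2 * K := by exact_mod_cast hj.2.le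
        have h8' : (j : ℝ) ^ 2 * (u j * bt n j) ≤ (2 * (K : ℝ)) ^ 2 * (u j * bt n j) :=
          mul_le_mul_of_nonneg_right (by gcongr) (hv j)
        exact mul_le_mul_of_nonneg_left h8' (by positivity)
      have h9 := Finset.sum_le_sum h4
      rw [Finset.sum_const, Nat.card_Ico, nsmul_eq_mul] at h9
      have e : 2 * K - K = K := by omega
      rw [e] at h9
      refine h9.trans ?_
      rw [← Finset.mul_sum, ← Finset.mul_sum]
      have h10 : ∑ j ∈ Ico K (2 * K), u j * bt n j ≤ cc u n := by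
        rw [hc]
        refine Finset.sum_le_sum_of_subset_of_nonneg ?_ fun k _ _ => hv k
        intro x hx
        rw [mem_Ico] at hx
        rw [mem_range]
        omega
      calc 4 * (n : ℝ) * ((2 * (K : ℝ)) ^ 2 * ∑ j ∈ Ico K (2 * K), u j * bt n j)
          ≤ 4 * (n : ℝ) * ((2 * (K : ℝ)) ^ 2 * cc u n) := by gcongr
        _ = 16 * n * (K : ℝ) ^ 2 * cc u n := by ring
    have h11 : ∑ k ∈ Ico (2 * K) (n + 1), (k : ℝ) ^ 3 * (u k * bt n k) ≤
        16 * n * (K : ℝ) * cc u n := by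
      have : (K : ℝ) * ∑ k ∈ Ico (2 * K) (n + 1), (k : ℝ) ^ 3 * (u k * bt n k) ≤
          (K : ℝ) * (16 * n * (K : ℝ) * cc u n) := by
        calc _ ≤ 16 * n * (K : ℝ) ^ 2 * cc u n := h3
          _ = _ := by ring
      exact le_of_mul_le_mul_left this hKpos
    rw [hsplit]
    have h12 : (2 * (K : ℝ)) ^ 3 + 16 * n * K ≤ 11000 * R ^ 3 := by
      have h13 : (2 * (K : ℝ)) ^ 3 ≤ (22 * R) ^ 3 :=
        pow_le_pow_left₀ (by positivity) (by linarith) 3
      have e : (22 * R) ^ 3 = 10648 * R ^ 3 := by ring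
      have h14 : (n : ℝ) * K ≤ n * (11 * R) := by gcongr
      nlinarith
    calc _ ≤ (2 * (K : ℝ)) ^ 3 * cc u n + 16 * n * (K : ℝ) * cc u n := add_le_add h1 h11
      _ = ((2 * (K : ℝ)) ^ 3 + 16 * n * K) * cc u n := by ring
      _ ≤ 11000 * R ^ 3 * cc u n := mul_le_mul_of_nonneg_right h12 hcpos

end GiantSurf57
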