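import Pool.Agent.GiantSurf57.StmtsTop
import Pool.Agent.GiantSurf57.Basic

/-!
# Package M5: many threads are good
-/

open scoped Classical
open Finset

namespace GiantSurf57
namespace PkgM5

theorem dart_iff {G : SimpleGraph ℕ} {σ : Equiv.Perm (ℕ × ℕ)} (h : IsRot G σ)
    (d : ℕ × ℕ) : G.Adj (faceP σ d).1 (faceP σ d).2 ↔ G.Adj d.1 d.2 := by
  have hd : faceP σ d = σ d.swap := rfl
  rw [hd]
  constructor
  · intro h1
    by_contra hn
    have h2 : σ d.swap = d.swap := h.fix d.2 d.1 (fun h' => hn h'.symm)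
    rw [h2] at h1
    exact hn h1.symm
  · intro h1
    by_contra hn
    have h2 : σ (σ d.swap) = σ d.swap := h.fix _ _ hn
    have h3 : σ d.swap = d.swap := σ.injective h2
    rw [h3] at hn
    exact hn h1.symm

theorem same_dart {G : SimpleGraph ℕ} {σ : Equiv.Perm (ℕ × ℕ)} (h : IsRot G σ)
    {d e : ℕ × ℕ} (hd : G.Adj d.1 d.2) (hs : (faceP σ).SameCycle d e) : G.Adj e.1 e.2 := by
  obtain ⟨i, rfl⟩ := hs
  induction i using Int.induction_on with
  | zero => simpa using hd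
  | succ i ih =>
    rw [add_comm, zpow_add, zpow_one, Equiv.Perm.mul_apply]
    exact (dart_iff h _).2 ih
  | pred i ih =>
    rw [sub_eq_neg_add, zpow_add, zpow_neg, zpow_one, Equiv.Perm.mul_apply]
    rw [← dart_iff h]
    simpa using ih

theorem face_sub {G : SimpleGraph ℕ} {σ : Equiv.Perm (ℕ × ℕ)} (h : IsRot G σ)
    {f : Set (ℕ × ℕ)} (hf : f ∈ faces G σ) {d : ℕ × ℕ} (hd : d ∈ f) : G.Adj d.1 d.2 := by
  obtain ⟨x, y, hxy, rfl⟩ := hf
  exact same_dart h (d := (x, y)) hxy hd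

theorem face_eq {G : SimpleGraph ℕ} {σ : Equiv.Perm (ℕ × ℕ)}
    {f : Set (ℕ × ℕ)} (hf : f ∈ faces G σ) {d : ℕ × ℕ} (hd : d ∈ f) : f = orb (faceP σ) d := by
  obtain ⟨x, y, hxy, rfl⟩ := hf
  have hd' : (faceP σ).SameCycle (x, y) d := hd
  ext e
  exact ⟨fun he => hd'.symm.trans he, fun he => hd'.trans he⟩

end PkgM5

open PkgM5 in
theorem pkgM5 (hE : S_embS) (hL : S_faceLen) (hB : S_badFaces) (hD : S_branchDart)
    (hF : S_followFace) (hT : S_thr) : S_manyGood := by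
  intro g
  refine ⟨4 * g + 1, ?_⟩
  intro S l M Q hQ hl hbig hM
  obtain ⟨hon, hemb, hdeg, hne⟩ := mem_core.mp hQ
  obtain ⟨σ, hσ⟩ := (hE g S Q hon).1 hemb
  have hrot := hσ.rot
  have hle := hσ.le
  have hiso : (S.filter (fun x => ∀ z, ¬ Q.Adj x z)) = ∅ := by
    rw [Finset.filter_eq_empty_iff]
    intro x hx hz
    have h2 := hdeg x hx
    have : Q.neighborSet x = ∅ := by
      ext z
      simpa using hz z
    unfold deg at h2
    rw [this, Set.ncard_empty] at h2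
    omega
  have hFS : FS Q σ S = (faces Q σ).ncard := by
    rw [FS, hiso, Finset.card_empty, add_zero]
  rw [hFS, hne] at hle
  obtain ⟨hfin, hlen⟩ := hL S Q σ hon hrot
  have hdf : {p : ℕ × ℕ | Q.Adj p.1 p.2}.Finite := darts_finite (edgeSet_finite hon)
  -- the four kinds of faces to be removed
  set B1 := {f ∈ faces Q σ | (∀ d ∈ f, deg Q d.1 = 2) ∨ (∀ d ∈ f, d.swap ∈ f)} with hB1
  set A2 : Set (ℕ × ℕ) := {d | Q.Adj d.1 d.2 ∧ 3 ≤ deg Q d.1} with hA2
  set B2 := {f ∈ faces Q σ | 24 < (f ∩ A2).ncard} with hB2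
  set A3 : Set (ℕ × ℕ) := {d | Q.Adj d.1 d.2 ∧ True} with hA3
  set B3 := {f ∈ faces Q σ | M < (f ∩ A3).ncard} with hB3
  set A4 : Set (ℕ × ℕ) := {d | Q.Adj d.1 d.2 ∧ 4 ≤ deg Q d.1} with hA4
  set B4 := {f ∈ faces Q σ | 0 < (f ∩ A4).ncard} with hB4
  have c1 : B1.ncard ≤ 2 * (comps Q S).card := hB S Q σ hon hdeg hrot
  have c2 : B2.ncard * (24 + 1) ≤ A2.ncard := hlen A2 (fun d hd => hd.1) 24
  have c3 : B3.ncard * (M + 1) ≤ A3.ncard := hlen A3 (fun d hd => hd.1) M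
  have c4 : B4.ncard * (0 + 1) ≤ A4.ncard := hlen A4 (fun d hd => hd.1) 0
  have d2 : A2.ncard ≤ 6 * l := by
    rw [hA2, ncard_darts hon (fun v => 3 ≤ deg Q v)]
    convert core_branch_sum hQ
  have d3 : A3.ncard = 2 * (S.card + l) := by
    rw [hA3, ncard_darts hon (fun _ => True), Finset.filter_true, handshake hon, hne]
  have d4 : A4.ncard = bigDeg Q := rfl
  have e3 : 50 * B3.ncard ≤ l := by
    have h1 : 50 * (B3.ncard * (M + 1)) ≤ M * l := by
      calc 50 * (B3.ncard * (M + 1)) ≤ 50 * A3.ncard := Nat.mul_le_mul_left _ c3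
        _ = 100 * (S.card + l) := by rw [d3]; ring
        _ ≤ M * l := hM
    have h2 : (50 * B3.ncard) * (M + 1) ≤ l * (M + 1) := by
      calc (50 * B3.ncard) * (M + 1) = 50 * (B3.ncard * (M + 1)) := by ring
        _ ≤ M * l := h1
        _ ≤ l * (M + 1) := by nlinarith
    exact Nat.le_of_mul_le_mul_right h2 (Nat.succ_pos M)
  -- the remaining faces
  set R := faces Q σ \ (B1 ∪ B2 ∪ B3 ∪ B4) with hR
  have f1 : (faces Q σ).ncard ≤ R.ncard + (B1.ncard + B2.ncard + B3.ncard + B4.ncard) := by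
    have s1 : B1 ⊆ faces Q σ := fun f hf => hf.1
    have s2 : B2 ⊆ faces Q σ := fun f hf => hf.1
    have s3 : B3 ⊆ faces Q σ := fun f hf => hf.1
    have s4 : B4 ⊆ faces Q σ := fun f hf => hf.1
    have hsub : B1 ∪ B2 ∪ B3 ∪ B4 ⊆ faces Q σ :=
      Set.union_subset (Set.union_subset (Set.union_subset s1 s2) s3) s4
    have h1 := Set.ncard_sdiff_add_ncard_of_subset hsub hfin
    have h2 : (B1 ∪ B2 ∪ B3 ∪ B4).ncard ≤ (B1 ∪ B2 ∪ B3).ncard + B4.ncard :=
      Set.ncard_union_le _ _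
    have h3 : (B1 ∪ B2 ∪ B3).ncard ≤ (B1 ∪ B2).ncard + B3.ncard := Set.ncard_union_le _ _
    have h4 : (B1 ∪ B2).ncard ≤ B1.ncard + B2.ncard := Set.ncard_union_le _ _
    rw [← hR] at h1
    omega
  have f2 : l ≤ 8 * R.ncard := by
    rw [d4] at c4
    omega
  -- the map from the remaining faces to the good threads
  have key : ∀ f ∈ R, ∃ p ∈ goodThr Q M, ∃ d ∈ f, p.1 = d.1 ∧
      (p.2.1 ++ [p.2.2]).head? = some d.2 := by
    intro f hf
    have hf1 : f ∈ faces Q σ := hf.1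
    have hfd : ∀ d ∈ f, Q.Adj d.1 d.2 := fun d hd => face_sub hrot hf1 hd
    have hn1 : f ∉ B1 := fun h => hf.2 (Or.inl (Or.inl (Or.inl h)))
    have hn2 : f ∉ B2 := fun h => hf.2 (Or.inl (Or.inl (Or.inr h)))
    have hn3 : f ∉ B3 := fun h => hf.2 (Or.inl (Or.inr h))
    have hn4 : f ∉ B4 := fun h => hf.2 (Or.inr h)
    have g1 : ¬ ((∀ d ∈ f, deg Q d.1 = 2) ∨ (∀ d ∈ f, d.swap ∈ f)) := fun h => hn1 ⟨hf1, h⟩
    push Not at g1
    obtain ⟨⟨d0, hd0, hd0'⟩, d1, hd1, hd1'⟩ := g1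
    have g2 : (f ∩ A2).ncard ≤ 24 := by
      by_contra h
      exact hn2 ⟨hf1, by omega⟩
    have g3 : (f ∩ A3).ncard ≤ M := by
      by_contra h
      exact hn3 ⟨hf1, by omega⟩
    have g4 : (f ∩ A4).ncard = 0 := by
      by_contra h
      exact hn4 ⟨hf1, by omega⟩
    have g2' : {d ∈ f | 3 ≤ deg Q d.1}.ncard ≤ 24 := by
      have : {d ∈ f | 3 ≤ deg Q d.1} = f ∩ A2 := by
        ext d
        exact ⟨fun h => ⟨h.1, hfd d h.1, h.2⟩, fun h => ⟨h.1, h.2.2⟩⟩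
      rw [this]
      exact g2
    have g3' : f.ncard ≤ M := by
      have : f = f ∩ A3 := by
        ext d
        exact ⟨fun h => ⟨h, hfd d h, trivial⟩, fun h => h.1⟩
      rw [this]
      exact g3
    have g4' : ∀ d ∈ f, deg Q d.1 ≤ 3 := by
      intro d hd
      by_contra h
      have hfin4 : (f ∩ A4).Finite := hdf.subset (fun e he => he.2.1)
      have : f ∩ A4 = ∅ := (Set.ncard_eq_zero hfin4).1 g4
      have hmem : d ∈ f ∩ A4 := ⟨hd, hfd d hd, by omega⟩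
      rw [this] at hmem
      exact hmem
    have g5 : ∃ d ∈ f, 3 ≤ deg Q d.1 := by
      refine ⟨d0, hd0, ?_⟩
      have h2 := hdeg d0.1 (adj_mem_left hon (hfd d0 hd0))
      omega
    obtain ⟨d, hd, hd3, hds⟩ := hD S Q σ hon hdeg hrot f hf1 g5 ⟨d1, hd1, hd1'⟩
    obtain ⟨p, hp, hp1, hp2⟩ := hF (Emb g) S l M Q σ hQ hrot f hf1 g3' g2' g4' d hd hd3 hds
    exact ⟨p, hp, d, hd, hp1, hp2⟩
  choose! F hFg hFd using key
  have hgfin : (goodThr Q M).Finite :=
    (hT (Emb g) S l 0 Q hQ).1.subset (fun p hp => hp.1)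
  have f3 : R.ncard ≤ (goodThr Q M).ncard := by
    refine Set.ncard_le_ncard_of_injOn F hFg ?_ hgfin
    intro f hf f' hf' hff
    obtain ⟨d, hd, hd1, hd2⟩ := hFd f hf
    obtain ⟨d', hd', hd1', hd2'⟩ := hFd f' hf'
    have e1 : d.1 = d'.1 := by rw [← hd1, ← hd1', hff]
    have e2 : d.2 = d'.2 := by
      rw [hff, hd2'] at hd2
      exact (Option.some.inj hd2).symm
    have e : d = d' := Prod.ext e1 e2
    rw [face_eq hf.1 hd, face_eq hf'.1 hd', e]
  omega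

end GiantSurf57
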