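import Pool.Agent.GiantSurf57.StmtsTop
import Pool.Agent.GiantSurf57.Basic

/-!
# Packages T8, T9, T10: deleting an edge, joining two components, adding an edge inside a face
-/

open scoped Classical
open Finset

set_option autoImplicit false

namespace GiantSurf57

namespace PkgT8

lemma sdiff_sup {G : SimpleGraph ℕ} {x y : ℕ} (h : G.Adj x y) :
    (G \ SimpleGraph.edge x y) ⊔ SimpleGraph.edge x y = G := by
  have hle : SimpleGraph.edge x y ≤ G := by
    intro u v huv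
    rw [SimpleGraph.edge_adj] at huv
    rcases huv.1 with ⟨rfl, rfl⟩ | ⟨rfl, rfl⟩
    · exact h
    · exact h.symm
  exact sdiff_sup_cancel hle

lemma not_adj_sdiff {G : SimpleGraph ℕ} {x y : ℕ} (h : x ≠ y) :
    ¬ (G \ SimpleGraph.edge x y).Adj x y := by
  rw [SimpleGraph.sdiff_adj, SimpleGraph.edge_adj]
  rintro ⟨_, h2⟩
  exact h2 ⟨Or.inl ⟨rfl, rfl⟩, h⟩

lemma corner_fst {G : SimpleGraph ℕ} {x y : ℕ} {a : ℕ × ℕ} (h : Corner G x y a) : a.1 = x := by
  rcases h with ⟨rfl, _⟩ | ⟨h, _⟩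
  · rfl
  · exact h

lemma reach_of_same (h7 : S_faceReach) {G : SimpleGraph ℕ} {σ : Equiv.Perm (ℕ × ℕ)}
    (hr : IsRot G σ) {a b : ℕ × ℕ} (ha : G.Adj a.1 a.2) (hb : G.Adj b.1 b.2)
    (h : (faceP σ).SameCycle a.swap b.swap) : G.Reachable a.1 b.1 := by
  obtain ⟨_, h2⟩ := h7 G σ a.swap b.swap hr ha.symm h
  have h3 : G.Reachable a.2 b.2 := h2
  exact (ha.reachable.trans h3).trans hb.symm.reachable

/-- The relation between `G` and `G` with an edge deleted. -/
lemma del_count (h3 : S_del) (h4 : S_faceCount) (h5 : S_compCount) (h7 : S_faceReach)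
    {S : Finset ℕ} {G : SimpleGraph ℕ} {σ : Equiv.Perm (ℕ × ℕ)} {x y : ℕ}
    (hon : G ∈ graphsOn S) (hrot : IsRot G σ) (hxy : G.Adj x y) :
    ∃ τ : Equiv.Perm (ℕ × ℕ), (G \ SimpleGraph.edge x y) ∈ graphsOn S ∧
      IsRot (G \ SimpleGraph.edge x y) τ ∧ ne (G \ SimpleGraph.edge x y) + 1 = ne G ∧
      ((FS G σ S = FS (G \ SimpleGraph.edge x y) τ S + 1 ∧
        (comps G S).card = (comps (G \ SimpleGraph.edge x y) S).card) ∨
      (FS G σ S + 1 = FS (G \ SimpleGraph.edge x y) τ S ∧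
        (comps (G \ SimpleGraph.edge x y) S).card ≤ (comps G S).card + 1)) := by
  have hfin := edgeSet_finite hon
  obtain ⟨τ, a, b, hτ, ha, hb, hσ⟩ := h3 G σ x y hfin hrot hxy
  have hon0 : (G \ SimpleGraph.edge x y) ∈ graphsOn S := graphsOn_of_le hon sdiff_le
  have hx := adj_mem_left hon hxy
  have hy := adj_mem_right hon hxy
  have hne := ne_sdiff_edge hfin hxy
  have hnadj : ¬ (G \ SimpleGraph.edge x y).Adj x y := not_adj_sdiff hxy.ne
  have hsup := sdiff_sup hxy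
  refine ⟨τ, hon0, hτ, hne, ?_⟩
  have hF := h4 S _ τ x y a b hon0 hx hy hxy.ne hnadj hτ ha hb
  rw [hsup, ← hσ] at hF
  have hC := h5 S _ x y hon0 hx hy
  rw [hsup] at hC
  by_cases hcase : (G \ SimpleGraph.edge x y).Adj a.1 a.2 ∧ (G \ SimpleGraph.edge x y).Adj b.1 b.2 ∧
      (faceP τ).SameCycle a.swap b.swap
  · left
    refine ⟨hF.1 hcase, ?_⟩
    have hr := reach_of_same h7 hτ hcase.1 hcase.2.1 hcase.2.2
    rw [corner_fst ha, corner_fst hb] at hr
    exact hC.2 hr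
  · right
    refine ⟨hF.2 hcase, ?_⟩
    by_cases hr : (G \ SimpleGraph.edge x y).Reachable x y
    · rw [hC.2 hr]
      omega
    · exact (hC.1 hr).ge

end PkgT8

open PkgT8 in
theorem pkgT8 (_ : S_ins) (h3 : S_del) (h4 : S_faceCount) (h5 : S_compCount)
    (h7 : S_faceReach) : S_delOK := by
  intro g S G σ x y hG hxy
  obtain ⟨τ, hon0, hτ, hne, h⟩ := del_count h3 h4 h5 h7 hG.on hG.rot hxy
  have hle := hG.le
  refine ⟨τ, hon0, hτ, ?_⟩
  rcases h with ⟨h1, h2⟩ | ⟨h1, h2⟩ <;> omega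

open PkgT8 in
theorem pkgT9 (h2 : S_ins) (h4 : S_faceCount) (h5 : S_compCount) (_ : S_faceReach) :
    S_joinOK := by
  intro g S G σ x y a b hG hx hy hr ha hb
  have hon := hG.on
  have hfin := edgeSet_finite hon
  have hxy : x ≠ y := by
    rintro rfl
    exact hr (SimpleGraph.Reachable.refl _)
  have hnadj : ¬ G.Adj x y := fun h => hr h.reachable
  have hF := h4 S G σ x y a b hon hx hy hxy hnadj hG.rot ha hb
  have hC := (h5 S G x y hon hx hy).1 hr
  have hne := ne_sup_edge hfin hxy hnadj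
  have hle := hG.le
  refine ⟨sup_edge_graphsOn hon hx hy, h2 G σ x y a b hfin hG.rot hxy hnadj ha hb, ?_⟩
  by_cases hcase : G.Adj a.1 a.2 ∧ G.Adj b.1 b.2 ∧ (faceP σ).SameCycle a.swap b.swap
  · have := hF.1 hcase
    omega
  · have := hF.2 hcase
    omega

open PkgT8 in
theorem pkgT10 (h2 : S_ins) (h4 : S_faceCount) (h5 : S_compCount) (h7 : S_faceReach) :
    S_sameOK := by
  intro g S G σ x y a b hG hxy hnadj ha1 ha2 hb1 hb2 hs
  have hon := hG.on
  have hfin := edgeSet_finite hon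
  have hx : x ∈ S := by rw [← ha1]; exact adj_mem_left hon ha2
  have hy : y ∈ S := by rw [← hb1]; exact adj_mem_left hon hb2
  have ha : Corner G x y a := Or.inr ⟨ha1, ha2⟩
  have hb : Corner G y x b := Or.inr ⟨hb1, hb2⟩
  have hF := (h4 S G σ x y a b hon hx hy hxy hnadj hG.rot ha hb).1 ⟨ha2, hb2, hs⟩
  have hr := reach_of_same h7 hG.rot ha2 hb2 hs
  rw [ha1, hb1] at hr
  have hC := (h5 S G x y hon hx hy).2 hr
  have hne := ne_sup_edge hfin hxy hnadj
  have hle := hG.le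
  refine ⟨sup_edge_graphsOn hon hx hy, h2 G σ x y a b hfin hG.rot hxy hnadj ha hb, ?_⟩
  omega

end GiantSurf57
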