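import Pool.Agent.GiantSurf57.Stmts

/-!
# Statements of the packages of the project `GiantSurf57`: topology and final assembly
-/

open scoped Classical
open Finset

namespace GiantSurf57

/-! ## T. Rotation systems -/

/-- Number of faces on `S`: every isolated vertex of `S` counts as one face. -/
noncomputable def FS (G : SimpleGraph ℕ) (σ : Equiv.Perm (ℕ × ℕ)) (S : Finset ℕ) : ℕ :=
  (faces G σ).ncard + (S.filter (fun x => ∀ z, ¬ G.Adj x z)).card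

/-- `a` is the place (corner) at `x` where the dart `(x, y)` can be inserted: a dart at `x`, or
`(x, y)` itself if `x` is isolated. -/
def Corner (G : SimpleGraph ℕ) (x y : ℕ) (a : ℕ × ℕ) : Prop :=
  (a = (x, y) ∧ ∀ z, ¬ G.Adj x z) ∨ (a.1 = x ∧ G.Adj a.1 a.2)

/-- The rotation system with the edge `xy` inserted: `(x, y)` after `a`, `(y, x)` after `b`. -/
noncomputable def insR (σ : Equiv.Perm (ℕ × ℕ)) (a b : ℕ × ℕ) (x y : ℕ) : Equiv.Perm (ℕ × ℕ) :=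
  σ * Equiv.swap a (x, y) * Equiv.swap b (y, x)

/-- `σ` is a rotation system of `G` of total genus at most `g`, everything counted on `S`. -/
structure GenOK (g : ℕ) (G : SimpleGraph ℕ) (σ : Equiv.Perm (ℕ × ℕ)) (S : Finset ℕ) : Prop where
  on : G ∈ graphsOn S
  rot : IsRot G σ
  le : 2 * (comps G S).card + ne G ≤ S.card + FS G σ S + 2 * g

/-- T1. Multiplication by a transposition. -/
def S_swap : Prop := ∀ (φ : Equiv.Perm (ℕ × ℕ)) (D : Set (ℕ × ℕ)), D.Finite →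
  (∀ d ∈ D, φ d ∈ D) → ∀ x ∈ D, ∀ y ∈ D, x ≠ y →
  (φ.SameCycle x y → {f | ∃ d ∈ D, f = orb (φ * Equiv.swap x y) d}.ncard =
    {f | ∃ d ∈ D, f = orb φ d}.ncard + 1) ∧
  (¬ φ.SameCycle x y → {f | ∃ d ∈ D, f = orb (φ * Equiv.swap x y) d}.ncard + 1 =
    {f | ∃ d ∈ D, f = orb φ d}.ncard)

/-- T2. Inserting an edge gives a rotation system. -/
def S_ins : Prop := ∀ (G : SimpleGraph ℕ) (σ : Equiv.Perm (ℕ × ℕ)) (x y : ℕ) (a b : ℕ × ℕ),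
  G.edgeSet.Finite → IsRot G σ → x ≠ y → ¬ G.Adj x y → Corner G x y a → Corner G y x b →
    IsRot (G ⊔ SimpleGraph.edge x y) (insR σ a b x y)

/-- T3. Every rotation system of a graph arises by insertion of a given edge. -/
def S_del : Prop := ∀ (G : SimpleGraph ℕ) (σ : Equiv.Perm (ℕ × ℕ)) (x y : ℕ),
  G.edgeSet.Finite → IsRot G σ → G.Adj x y → ∃ (τ : Equiv.Perm (ℕ × ℕ)) (a b : ℕ × ℕ),
    IsRot (G \ SimpleGraph.edge x y) τ ∧ Corner (G \ SimpleGraph.edge x y) x y a ∧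
    Corner (G \ SimpleGraph.edge x y) y x b ∧ σ = insR τ a b x y

/-- T5. The number of components after inserting an edge. -/
def S_compCount : Prop := ∀ (S : Finset ℕ) (G : SimpleGraph ℕ) (x y : ℕ), G ∈ graphsOn S →
  x ∈ S → y ∈ S →
  (¬ G.Reachable x y → (comps (G ⊔ SimpleGraph.edge x y) S).card + 1 = (comps G S).card) ∧
  (G.Reachable x y → (comps (G ⊔ SimpleGraph.edge x y) S).card = (comps G S).card)

/-- T6. Embeddability in terms of counts on `S`. -/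
def S_embS : Prop := ∀ (g : ℕ) (S : Finset ℕ) (G : SimpleGraph ℕ), G ∈ graphsOn S →
  (Emb g G ↔ ∃ σ, GenOK g G σ S)

/-- T7. Faces stay in a component. -/
def S_faceReach : Prop := ∀ (G : SimpleGraph ℕ) (σ : Equiv.Perm (ℕ × ℕ)) (d e : ℕ × ℕ),
  IsRot G σ → G.Adj d.1 d.2 → (faceP σ).SameCycle d e → G.Adj e.1 e.2 ∧ G.Reachable d.1 e.1

/-- T4. The number of faces after inserting an edge. -/
def S_faceCount : Prop := ∀ (S : Finset ℕ) (G : SimpleGraph ℕ)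
  (σ : Equiv.Perm (ℕ × ℕ)) (x y : ℕ) (a b : ℕ × ℕ), G ∈ graphsOn S → x ∈ S → y ∈ S → x ≠ y →
  ¬ G.Adj x y → IsRot G σ → Corner G x y a → Corner G y x b →
  (G.Adj a.1 a.2 ∧ G.Adj b.1 b.2 ∧ (faceP σ).SameCycle a.swap b.swap →
    FS (G ⊔ SimpleGraph.edge x y) (insR σ a b x y) S = FS G σ S + 1) ∧
  (¬ (G.Adj a.1 a.2 ∧ G.Adj b.1 b.2 ∧ (faceP σ).SameCycle a.swap b.swap) →
    FS (G ⊔ SimpleGraph.edge x y) (insR σ a b x y) S + 1 = FS G σ S)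

/-- T8. Deleting an edge. -/
def S_delOK : Prop := ∀ (g : ℕ) (S : Finset ℕ) (G : SimpleGraph ℕ) (σ : Equiv.Perm (ℕ × ℕ))
  (x y : ℕ), GenOK g G σ S → G.Adj x y → ∃ τ, GenOK g (G \ SimpleGraph.edge x y) τ S

/-- T9. Joining two components. -/
def S_joinOK : Prop := ∀ (g : ℕ) (S : Finset ℕ) (G : SimpleGraph ℕ) (σ : Equiv.Perm (ℕ × ℕ))
  (x y : ℕ) (a b : ℕ × ℕ), GenOK g G σ S → x ∈ S → y ∈ S → ¬ G.Reachable x y →
  Corner G x y a → Corner G y x b → GenOK g (G ⊔ SimpleGraph.edge x y) (insR σ a b x y) S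

/-- T10. Adding an edge inside a face. -/
def S_sameOK : Prop := ∀ (g : ℕ) (S : Finset ℕ) (G : SimpleGraph ℕ) (σ : Equiv.Perm (ℕ × ℕ))
  (x y : ℕ) (a b : ℕ × ℕ), GenOK g G σ S → x ≠ y → ¬ G.Adj x y → a.1 = x → G.Adj a.1 a.2 →
  b.1 = y → G.Adj b.1 b.2 → (faceP σ).SameCycle a.swap b.swap →
  GenOK g (G ⊔ SimpleGraph.edge x y) (insR σ a b x y) S

/-- T11. Passing a vertex of degree 2. -/
def S_pass : Prop := ∀ (G : SimpleGraph ℕ) (σ : Equiv.Perm (ℕ × ℕ)) (v x y : ℕ),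
  IsRot G σ → G.neighborSet v = {x, y} → x ≠ y → faceP σ (x, v) = (v, y)

/-- T12. Class closure: the parts of `SurfClass (Emb g)`. -/
def S_cMono : Prop := ∀ (g : ℕ) (G H : SimpleGraph ℕ), H.edgeSet.Finite → G ≤ H → Emb g H →
  Emb g G

/-- T13. -/
def S_cJoin : Prop := ∀ (g : ℕ) (G : SimpleGraph ℕ) (x y : ℕ), G.edgeSet.Finite → Emb g G →
  ¬ G.Reachable x y → Emb g (G ⊔ SimpleGraph.edge x y)

/-- T14. -/
def S_cTri : Prop := ∀ (g : ℕ) (G : SimpleGraph ℕ) (v x y : ℕ), G.edgeSet.Finite → Emb g G →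
  G.neighborSet v = {x, y} → x ≠ y → Emb g (G ⊔ SimpleGraph.edge x y)

/-- T15. -/
def S_cSub : Prop := ∀ (g : ℕ) (G : SimpleGraph ℕ) (x y v : ℕ), G.edgeSet.Finite → Emb g G →
  G.Adj x y → v ∉ G.support →
  Emb g ((G \ SimpleGraph.edge x y) ⊔ (SimpleGraph.edge x v ⊔ SimpleGraph.edge v y))

/-- T16. Two nonadjacent vertices on a path of vertices of degree 2 can be joined. -/
def S_cPath : Prop := ∀ (g : ℕ) (G : SimpleGraph ℕ) (x y : ℕ), G.edgeSet.Finite → Emb g G →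
  x ≠ y → (deg2G G).Reachable x y → Emb g (G ⊔ SimpleGraph.edge x y)

/-- T17. -/
def S_cEar : Prop := ∀ (g : ℕ) (G : SimpleGraph ℕ) (x y v : ℕ), G.edgeSet.Finite → Emb g G →
  x ≠ y → (deg2G G).Reachable x y → v ∉ G.support →
  Emb g (G ⊔ (SimpleGraph.edge x v ⊔ SimpleGraph.edge v y))

/-- T18. -/
def S_cSplit : Prop := ∀ (g : ℕ) (G : SimpleGraph ℕ) (v y : ℕ), G.edgeSet.Finite → Emb g G →
  G.Adj v y → 3 ≤ deg G v →
  ∃ z, z ≠ y ∧ G.Adj v z ∧ ∀ w, w ∉ G.support → Emb g (splitG G v y z w)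

/-- T19. Transport along injections. -/
def S_map : Prop := (∀ (g : ℕ) (G : SimpleGraph ℕ) (e : Equiv.Perm ℕ), Emb g G →
    Emb g (G.map e.toEmbedding)) ∧
  (∀ (g n : ℕ) (G : SimpleGraph (Fin n)), Emb g G ↔ Emb g (G.map Fin.valEmbedding))

/-- T20. Euler's inequality. -/
def S_euler : Prop := ∀ (S : Finset ℕ) (G : SimpleGraph ℕ) (σ : Equiv.Perm (ℕ × ℕ)),
  G ∈ graphsOn S → IsRot G σ → S.card + FS G σ S ≤ ne G + 2 * (comps G S).card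

/-- T21. Euler's inequality for a component: the number of faces in the component. -/
def S_euler1 : Prop := ∀ (S : Finset ℕ) (G : SimpleGraph ℕ) (σ : Equiv.Perm (ℕ × ℕ)),
  G ∈ graphsOn S → IsRot G σ → ∀ A ∈ comps G S, 2 ≤ A.card →
    A.card + {f | ∃ d : ℕ × ℕ, G.Adj d.1 d.2 ∧ d.1 ∈ A ∧ f = orb (faceP σ) d}.ncard ≤
      neIn G A + 2

/-- T22. -/
def S_addPairs : Prop := ∀ g : ℕ, AddPairs (Emb g)

/-! ## M. Faces of cores -/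

/-- M1. Few faces contain many darts of a given set. -/
def S_faceLen : Prop := ∀ (S : Finset ℕ) (G : SimpleGraph ℕ) (σ : Equiv.Perm (ℕ × ℕ)),
  G ∈ graphsOn S → IsRot G σ → (faces G σ).Finite ∧ ∀ (A : Set (ℕ × ℕ)),
    (∀ d ∈ A, G.Adj d.1 d.2) → ∀ r : ℕ,
      {f ∈ faces G σ | r < (f ∩ A).ncard}.ncard * (r + 1) ≤ A.ncard

/-- M2. Few faces are bad. -/
def S_badFaces : Prop := ∀ (S : Finset ℕ) (G : SimpleGraph ℕ) (σ : Equiv.Perm (ℕ × ℕ)),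
  G ∈ graphsOn S → (∀ v ∈ S, 2 ≤ deg G v) → IsRot G σ →
    {f ∈ faces G σ | (∀ d ∈ f, deg G d.1 = 2) ∨ (∀ d ∈ f, d.swap ∈ f)}.ncard ≤
      2 * (comps G S).card

/-- M3. A dart at a branch vertex whose reversal is in another face. -/
def S_branchDart : Prop := ∀ (S : Finset ℕ) (G : SimpleGraph ℕ) (σ : Equiv.Perm (ℕ × ℕ)),
  G ∈ graphsOn S → (∀ v ∈ S, 2 ≤ deg G v) → IsRot G σ → ∀ f ∈ faces G σ,
    (∃ d ∈ f, 3 ≤ deg G d.1) → (∃ d ∈ f, d.swap ∉ f) → ∃ d ∈ f, 3 ≤ deg G d.1 ∧ d.swap ∉ f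

/-- M4. Following a thread along a face. -/
def S_followFace : Prop := ∀ (P : SimpleGraph ℕ → Prop) (S : Finset ℕ) (l M : ℕ)
  (Q : SimpleGraph ℕ) (σ : Equiv.Perm (ℕ × ℕ)), Q ∈ core P S l → IsRot Q σ →
  ∀ f ∈ faces Q σ, f.ncard ≤ M → {d ∈ f | 3 ≤ deg Q d.1}.ncard ≤ 24 →
    (∀ d ∈ f, deg Q d.1 ≤ 3) → ∀ d ∈ f, 3 ≤ deg Q d.1 → d.swap ∉ f →
      ∃ p ∈ goodThr Q M, p.1 = d.1 ∧ (p.2.1 ++ [p.2.2]).head? = some d.2

/-- M5. Many threads are good. -/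
def S_manyGood : Prop := ∀ g : ℕ, ∃ l0, ManyGood (Emb g) l0

/-! ## R. Regimes -/

/-- R1. General bound for the ratio of consecutive totals. -/
def S_R1 : Prop := ∀ w : ℕ → ℕ → ℝ, WSeq w → ∀ M : ℕ → ℤ,
  Filter.Tendsto (fun n => (M n : ℝ) / (n : ℝ)) Filter.atTop (nhds 0) →
  ∃ C : ℝ, ∀ᶠ n : ℕ in Filter.atTop, 0 < ZZ w n (M n) ∧
    ZZ w n (M n + 1) ≤ C * (|(M n : ℝ)| + (n : ℝ) ^ (3 / 5 : ℝ)) * ZZ w n (M n)

/-- R2. Middle regime, lower bound. -/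
def S_R2 : Prop := ∀ w : ℕ → ℕ → ℝ, WSeq w → ∀ M : ℕ → ℤ,
  (∃ B : ℝ, ∀ᶠ n : ℕ in Filter.atTop, |(M n : ℝ)| ≤ B * (n : ℝ) ^ (3 / 5 : ℝ)) →
  ∀ ε : ℝ, 0 < ε → ∃ c : ℝ, 0 < c ∧ ∀ᶠ n : ℕ in Filter.atTop,
    ∑ t ∈ (range (n + 1)).filter (fun t : ℕ => 0 ≤ (t : ℤ) + M n ∧
      (t : ℝ) ≤ c * (n : ℝ) ^ (3 / 5 : ℝ)), AA w t ((t : ℤ) + M n).toNat n ≤ ε * ZZ w n (M n)

/-- R3. Upper regime. -/
def S_R3 : Prop := ∀ w : ℕ → ℕ → ℝ, WSeq w → ∀ M : ℕ → ℤ,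
  Filter.Tendsto (fun n => (M n : ℝ) / (n : ℝ)) Filter.atTop (nhds 0) →
  Filter.Tendsto (fun n => (M n : ℝ) / (n : ℝ) ^ (3 / 5 : ℝ)) Filter.atTop Filter.atTop →
  (∃ C : ℝ, ∀ᶠ n : ℕ in Filter.atTop, ZZ w n (M n + 1) ≤ C * r32 ((n : ℝ) / (M n : ℝ)) *
    ZZ w n (M n)) ∧
  ∀ ε : ℝ, 0 < ε → ∃ c : ℝ, 0 < c ∧ ∀ᶠ n : ℕ in Filter.atTop,
    ∑ t ∈ (range (n + 1)).filter (fun t : ℕ => 0 ≤ (t : ℤ) + M n ∧
      (t : ℝ) ≤ c * r32 ((n : ℝ) / (M n : ℝ))), AA w t ((t : ℤ) + M n).toNat n ≤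
        ε * ZZ w n (M n)

/-- G0. Totals. -/
def S_G0 : Prop := ∀ P : SimpleGraph ℕ → Prop, SurfClass P → ∀ n m : ℕ,
  ((GG P n m).card : ℝ) = (n.factorial : ℝ) * Real.exp n * ZZ (wt P) n ((m : ℤ) - n) ∧
  ∀ f : ℝ, (((GG P n m).filter (fun G => (tc G (range n) : ℝ) ≤ f)).card : ℝ) =
    (n.factorial : ℝ) * Real.exp n *
      ∑ t ∈ (range (n + 1)).filter (fun t : ℕ => 0 ≤ (t : ℤ) + ((m : ℤ) - n) ∧ (t : ℝ) ≤ f),
        AA (wt P) t ((t : ℤ) + ((m : ℤ) - n)).toNat n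

/-! ## Final statement -/

/-- Graphs on `Fin n` with `m` edges embeddable on the surface of genus `g`. -/
def SG (g n m : ℕ) : Set (SimpleGraph (Fin n)) := {G | Emb g G ∧ G.edgeSet.ncard = m}

/-- Probability of an event for a uniform random element of `SG g n m`. -/
noncomputable def Pr (g n m : ℕ) (E : SimpleGraph (Fin n) → Prop) : ℝ :=
  ({G | G ∈ SG g n m ∧ E G}.ncard : ℝ) / ((SG g n m).ncard : ℝ)

/-- Largest number of vertices of a component. -/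
noncomputable def maxC {n : ℕ} (G : SimpleGraph (Fin n)) : ℕ :=
  sSup (Set.range fun c : G.ConnectedComponent => c.supp.ncard)

/-- Every component with the largest number of vertices is complex (more edges than vertices). -/
def H1Complex {n : ℕ} (G : SimpleGraph (Fin n)) : Prop :=
  ∀ c : G.ConnectedComponent, c.supp.ncard = maxC G →
    c.supp.ncard < {e ∈ G.edgeSet | ∀ x ∈ e, x ∈ c.supp}.ncard

/-- `n - |H_1| = Θ_p(f)` for `G_g(n, m n)`. -/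
def ThetaP (g : ℕ) (m : ℕ → ℕ) (f : ℕ → ℝ) : Prop :=
  ∀ ε : ℝ, 0 < ε → ∃ c₁ c₂ : ℝ, 0 < c₁ ∧ c₁ ≤ c₂ ∧ ∀ᶠ n : ℕ in Filter.atTop,
    1 - ε ≤ Pr g n (m n) (fun G => c₁ * f n ≤ (n : ℝ) - (maxC G : ℝ) ∧
      (n : ℝ) - (maxC G : ℝ) ≤ c₂ * f n)

/-- H1. Transport of the counts to `Fin n`. -/
def S_H1 : Prop := ∀ g n m : ℕ, (SG g n m).ncard = (GG (Emb g) n m).card ∧
  (∀ F : ℕ → Prop, {G | G ∈ SG g n m ∧ F (maxC G)}.ncard =
    ((GG (Emb g) n m).filter (fun G => F (L1 G (range n)))).card) ∧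
  {G | G ∈ SG g n m ∧ ¬ H1Complex G ∧ n ≤ 2 * maxC G}.ncard ≤
    ((GG (Emb g) n m).filter (fun G => ∃ A ∈ comps G (range n), n ≤ 2 * A.card ∧
      neIn G A ≤ A.card)).card

/-- The final statement. -/
def Result : Prop := ∀ (g : ℕ) (m : ℕ → ℕ) (lam : ℕ → ℝ),
  (∀ n : ℕ, 1 ≤ n → (m n : ℝ) = (2 + lam n * (n : ℝ) ^ (-(2 / 5) : ℝ)) * ((n : ℝ) / 2)) →
  (fun n => lam n) =o[Filter.atTop] (fun n : ℕ => (n : ℝ) ^ (2 / 5 : ℝ)) →
  (∀ᶠ n : ℕ in Filter.atTop, (SG g n (m n)).Nonempty) ∧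
  Filter.Tendsto (fun n => Pr g n (m n) H1Complex) Filter.atTop (nhds 1) ∧
  (Filter.Tendsto lam Filter.atTop Filter.atBot →
    ThetaP g m (fun n => |lam n| * (n : ℝ) ^ (3 / 5 : ℝ))) ∧
  (∀ c : ℝ, Filter.Tendsto lam Filter.atTop (nhds c) →
    ThetaP g m (fun n => (n : ℝ) ^ (3 / 5 : ℝ))) ∧
  (Filter.Tendsto lam Filter.atTop Filter.atTop →
    ThetaP g m (fun n => lam n ^ (-(3 / 2) : ℝ) * (n : ℝ) ^ (3 / 5 : ℝ)))

end GiantSurf57
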